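import Pool.Agent.Lib.MP_e1cf54_an.Stmt

/-! Row A1: basic facts on the singular numbers `sNumber`. -/

open MeasureTheory Set Filter
open scoped ENNReal NNReal Topology

namespace HankelSPC

variable {H G : Type*} [NormedAddCommGroup H] [InnerProductSpace ℂ H]
  [NormedAddCommGroup G] [InnerProductSpace ℂ G]

private lemma A1_bdd (T : H →L[ℂ] G) (N : ℕ) :
    BddBelow {x : ℝ | ∃ F : H →L[ℂ] G, (F : H →ₗ[ℂ] G).rank ≤ N ∧ x = ‖T - F‖} :=
  ⟨0, by rintro x ⟨F, -, rfl⟩; exact norm_nonneg _⟩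

private lemma A1_nonempty (T : H →L[ℂ] G) (N : ℕ) :
    {x : ℝ | ∃ F : H →L[ℂ] G, (F : H →ₗ[ℂ] G).rank ≤ N ∧ x = ‖T - F‖}.Nonempty := by
  refine ⟨‖T - 0‖, 0, ?_, rfl⟩
  have : ((0 : H →L[ℂ] G) : H →ₗ[ℂ] G) = 0 := rfl
  rw [this, LinearMap.rank_zero]
  exact zero_le

lemma sNumber_nonneg (T : H →L[ℂ] G) (N : ℕ) : 0 ≤ sNumber T N := by
  refine Real.sInf_nonneg ?_
  rintro x ⟨F, -, rfl⟩
  exact norm_nonneg _

lemma sNumber_le (T F : H →L[ℂ] G) (N : ℕ) (hF : (F : H →ₗ[ℂ] G).rank ≤ N) :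
    sNumber T N ≤ ‖T - F‖ :=
  csInf_le (A1_bdd T N) ⟨F, hF, rfl⟩

lemma exists_rank_lt (T : H →L[ℂ] G) (N : ℕ) {ε : ℝ} (hε : 0 < ε) :
    ∃ F : H →L[ℂ] G, (F : H →ₗ[ℂ] G).rank ≤ N ∧ ‖T - F‖ < sNumber T N + ε := by
  have h : sInf {x : ℝ | ∃ F : H →L[ℂ] G, (F : H →ₗ[ℂ] G).rank ≤ N ∧ x = ‖T - F‖} <
      sNumber T N + ε := by
    show sNumber T N < sNumber T N + ε
    linarith
  obtain ⟨x, ⟨F, hF, rfl⟩, hx⟩ := exists_lt_of_csInf_lt (A1_nonempty T N) h
  exact ⟨F, hF, hx⟩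

lemma sNumber_antitone (T : H →L[ℂ] G) : Antitone (sNumber T) := by
  intro M N hMN
  refine csInf_le_csInf (A1_bdd T N) (A1_nonempty T M) ?_
  rintro x ⟨F, hF, rfl⟩
  exact ⟨F, hF.trans (by exact_mod_cast hMN), rfl⟩

private lemma A1_compact_of_rank (F : H →L[ℂ] G) (N : ℕ) (hF : (F : H →ₗ[ℂ] G).rank ≤ N) :
    IsCompactOperator F := by
  have hfin : Module.Finite ℂ (LinearMap.range (F : H →ₗ[ℂ] G)) := by
    rw [← Module.rank_lt_aleph0_iff]
    exact lt_of_le_of_lt hF (Cardinal.natCast_lt_aleph0)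
  have := hfin
  have : ProperSpace (LinearMap.range (F : H →ₗ[ℂ] G)) := FiniteDimensional.proper ℂ _
  have h1 : IsCompactOperator (F.codRestrict (LinearMap.range (F : H →ₗ[ℂ] G))
      (fun x => LinearMap.mem_range_self _ x)) :=
    isCompactOperator_of_locallyCompactSpace_dom _
  exact h1.clm_comp (LinearMap.range (F : H →ₗ[ℂ] G)).subtypeL

/-- An operator which is a norm limit of finite rank operators is compact. -/
theorem isCompactOperator_of_sNumber [CompleteSpace G] (T : H →L[ℂ] G)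
    (h : Tendsto (sNumber T) atTop (𝓝 0)) : IsCompactOperator T := by
  have hex : ∀ N : ℕ, ∃ F : H →L[ℂ] G, (F : H →ₗ[ℂ] G).rank ≤ N ∧
      ‖T - F‖ < sNumber T N + 1 / ((N : ℝ) + 1) := fun N =>
    exists_rank_lt T N (by positivity)
  choose F hF1 hF2 using hex
  refine isCompactOperator_of_tendsto (l := atTop) (F := F) ?_
    (Eventually.of_forall fun N => A1_compact_of_rank _ N (hF1 N))
  rw [tendsto_iff_norm_sub_tendsto_zero]
  refine squeeze_zero (fun _ => norm_nonneg _) (fun N => ?_)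
    (show Tendsto (fun N : ℕ => sNumber T N + 1 / ((N : ℝ) + 1)) atTop (𝓝 0) from ?_)
  · rw [norm_sub_rev]
    exact (hF2 N).le
  · simpa using h.add tendsto_one_div_add_atTop_nhds_zero_nat

/-- If `T` is bounded by `C` on the common kernel of at most `N` functionals then
`s_N(T) ≤ C`: take `F = T ∘ (orthogonal projection onto the orthogonal complement of the common
kernel V)`, whose rank is at most `codim V ≤ N`, and `T - F = T ∘ P_V`. -/
theorem sNumber_le_of_codim [CompleteSpace H] (T : H →L[ℂ] G) (N : ℕ)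
    (L : Finset (H →L[ℂ] ℂ)) (hL : L.card ≤ N) {C : ℝ} (hC : 0 ≤ C)
    (h : ∀ g : H, (∀ φ ∈ L, φ g = 0) → ‖T g‖ ≤ C * ‖g‖) : sNumber T N ≤ C := by
  classical
  set V : Submodule ℂ H := ⨅ φ : L, LinearMap.ker ((φ : H →L[ℂ] ℂ) : H →ₗ[ℂ] ℂ) with hV
  have hVmem : ∀ g, g ∈ V ↔ ∀ φ ∈ L, φ g = 0 := by
    intro g
    rw [hV, Submodule.mem_iInf]
    constructor
    · intro hg φ hφ
      exact hg ⟨φ, hφ⟩
    · intro hg φ
      exact hg φ.1 φ.2
  have hcl : IsClosed (V : Set H) := by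
    rw [hV, Submodule.coe_iInf]
    exact isClosed_iInter fun φ => (φ : H →L[ℂ] ℂ).isClosed_ker
  have : CompleteSpace V := hcl.completeSpace_coe
  -- the evaluation map on `Vᗮ`
  let ev : Vᗮ →ₗ[ℂ] (L → ℂ) := LinearMap.pi fun φ : L => ((φ : H →L[ℂ] ℂ) : H →ₗ[ℂ] ℂ) ∘ₗ Vᗮ.subtype
  have hev : Function.Injective ev := by
    rw [← LinearMap.ker_eq_bot, LinearMap.ker_eq_bot']
    intro g hg
    have h1 : (g : H) ∈ V := by
      rw [hVmem]
      intro φ hφ
      exact congrFun hg ⟨φ, hφ⟩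
    have h2 := Submodule.inner_right_of_mem_orthogonal h1 g.2
    rw [inner_self_eq_zero] at h2
    exact Subtype.ext h2
  have : Module.Finite ℂ Vᗮ := Module.Finite.of_injective ev hev
  have hfr : Module.finrank ℂ Vᗮ ≤ N := by
    have := LinearMap.finrank_le_finrank_of_injective hev
    rw [Module.finrank_fintype_fun_eq_card] at this
    have h3 : Fintype.card L = L.card := Fintype.card_coe L
    omega
  have hrank : ((T ∘L Vᗮ.starProjection : H →L[ℂ] G) : H →ₗ[ℂ] G).rank ≤ N := by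
    have hsub : LinearMap.range ((T ∘L Vᗮ.starProjection : H →L[ℂ] G) : H →ₗ[ℂ] G) ≤
        Submodule.map (T : H →ₗ[ℂ] G) Vᗮ := by
      rintro _ ⟨g, rfl⟩
      exact ⟨Vᗮ.starProjection g, Submodule.starProjection_apply_mem _ _, rfl⟩
    have h4 : Module.finrank ℂ (Submodule.map (T : H →ₗ[ℂ] G) Vᗮ) ≤ N :=
      (Submodule.finrank_map_le _ _).trans hfr
    have h5 : Module.rank ℂ (Submodule.map (T : H →ₗ[ℂ] G) Vᗮ) ≤ N := by
      rw [← Module.finrank_eq_rank]
      exact_mod_cast h4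
    exact (Submodule.rank_mono hsub).trans h5
  refine (sNumber_le T _ N hrank).trans ?_
  refine ContinuousLinearMap.opNorm_le_bound _ hC fun g => ?_
  have h6 : (T - T ∘L Vᗮ.starProjection) g = T (V.starProjection g) := by
    have h7 := V.starProjection_add_starProjection_orthogonal g
    have h8 : V.starProjection g = g - Vᗮ.starProjection g := by
      rw [eq_sub_iff_add_eq]; exact h7
    rw [h8, map_sub]
    rfl
  rw [h6]
  have h9 : V.starProjection g ∈ V := Submodule.starProjection_apply_mem _ _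
  refine (h _ ((hVmem _).1 h9)).trans ?_
  refine mul_le_mul_of_nonneg_left ?_ hC
  calc ‖V.starProjection g‖ ≤ ‖V.starProjection‖ * ‖g‖ := ContinuousLinearMap.le_opNorm _ _
    _ ≤ 1 * ‖g‖ := mul_le_mul_of_nonneg_right V.starProjection_norm_le (norm_nonneg _)
    _ = ‖g‖ := one_mul _

end HankelSPC
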