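import Pool.Agent.Lib.MP_e1cf54_an.Stmt

/-! Row A2: from the counting bound to summability. Pure real analysis. -/

open Set Filter
open scoped ENNReal NNReal Topology

namespace HankelSPC

theorem A2_floor_zero {m t r : ℝ} (hm : 0 ≤ m) (ht : 0 < t) (hr : 0 < r) (h : m < t) :
    ⌊(m / t) ^ r⌋₊ = 0 :=
  Nat.floor_eq_zero.2 (Real.rpow_lt_one (div_nonneg hm ht.le) ((div_lt_one ht).2 h) hr)

theorem A2_geo {m M s : ℝ} (hm : 0 ≤ m) (hM : 0 < M) (hs : 0 < s) :
    ∑' k : ℕ, (if M / 2 ^ (k + 1) ≤ m then ENNReal.ofReal ((M / 2 ^ (k + 1)) ^ s) else 0)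
      ≤ ENNReal.ofReal (m ^ s) * ∑' j : ℕ, ENNReal.ofReal ((2 : ℝ) ^ (-s)) ^ j := by
  classical
  by_cases h : ∃ k : ℕ, M / 2 ^ (k + 1) ≤ m
  · set k0 := Nat.find h with hk0
    have h0 : M / 2 ^ (k0 + 1) ≤ m := Nat.find_spec h
    rw [← ENNReal.tsum_mul_left, ← Summable.sum_add_tsum_nat_add' (k := k0) ENNReal.summable]
    have h1 : ∑ i ∈ Finset.range k0, (if M / 2 ^ (i + 1) ≤ m then
        ENNReal.ofReal ((M / 2 ^ (i + 1)) ^ s) else 0) = 0 := by
      refine Finset.sum_eq_zero fun i hi => ?_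
      rw [if_neg (Nat.find_min h (Finset.mem_range.1 hi))]
    rw [h1, zero_add]
    refine ENNReal.tsum_le_tsum fun j => ?_
    have hT : M / 2 ^ (j + k0 + 1) ≤ m * (2 ^ j)⁻¹ := by
      have : M / 2 ^ (j + k0 + 1) = M / 2 ^ (k0 + 1) * (2 ^ j)⁻¹ := by
        rw [show j + k0 + 1 = (k0 + 1) + j by ring, pow_add (2 : ℝ) (k0 + 1) j]
        field_simp
      rw [this]
      exact mul_le_mul_of_nonneg_right h0 (by positivity)
    have h2 : (M / 2 ^ (j + k0 + 1)) ^ s ≤ m ^ s * ((2 : ℝ) ^ (-s)) ^ j := by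
      refine (Real.rpow_le_rpow (by positivity) hT hs.le).trans (le_of_eq ?_)
      rw [Real.mul_rpow hm (by positivity), Real.inv_rpow (by positivity), ← Real.rpow_natCast,
        ← Real.rpow_mul (by norm_num), ← Real.rpow_natCast, ← Real.rpow_mul (by norm_num),
        ← Real.rpow_neg (by norm_num)]
      congr 2
      ring
    split
    · rw [← ENNReal.ofReal_pow (by positivity), ← ENNReal.ofReal_mul (by positivity)]
      exact ENNReal.ofReal_le_ofReal h2
    · exact zero_le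
  · have h1 : ∀ k : ℕ, (if M / 2 ^ (k + 1) ≤ m then ENNReal.ofReal ((M / 2 ^ (k + 1)) ^ s) else 0)
        = 0 := fun k => if_neg (fun hk => h ⟨k, hk⟩)
    simp only [h1, tsum_zero]
    exact zero_le

/-- Proof: `n(t) := ∑ᶠ i, ⌊(m i / t)^(1/q)⌋₊` is finite (only the `i` with `m i ≥ t` count) and
`a N ≤ C t` for all `N ≥ n(t)`. Dyadic decomposition: with `t_k = M 2^(-k)`,
`∑_N a_N^p ≤ ∑_k #{N : C t_{k+1} < a_N ≤ C t_k} (C t_k)^p + ... ≤ ∑_k n(t_{k+1}) (C t_k)^p`
and `∑_k t_k^p ⌊(m_i/t_{k+1})^(1/q)⌋ ≤ const * m_i^p` (geometric series; the terms with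
`t_{k+1} > m_i` vanish, and `p > 1/q`). If `C = 0` or all `a` vanish eventually it is trivial.
It is convenient to prove bounds for `∑ N ∈ range K, a N ^ p` uniformly in `K`. -/
theorem summable_of_counting (a : ℕ → ℝ) (ha0 : ∀ N, 0 ≤ a N) (ha : Antitone a)
    {ι : Type*} (m : ι → ℝ) (hm : ∀ i, 0 ≤ m i) {p C : ℝ} {q : ℕ} (hp : 0 < p) (hq : 1 < p * q)
    (hC : 0 ≤ C) (hsum : Summable fun i => m i ^ p)
    (h : ∀ t : ℝ, 0 < t → a (∑ᶠ i, ⌊(m i / t) ^ (1 / (q : ℝ))⌋₊) ≤ C * t) :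
    Summable fun N => a N ^ p := by
  classical
  have hq0 : (0 : ℝ) < q := by
    rcases Nat.eq_zero_or_pos q with h0 | h0
    · rw [h0] at hq
      norm_num at hq
    · exact_mod_cast h0
  set r : ℝ := 1 / (q : ℝ) with hr
  have hr0 : 0 < r := by positivity
  have hs : 0 < p - r := by
    rw [hr, sub_pos, div_lt_iff₀ hq0]
    exact hq
  -- the upper bound of the `m i`
  set M : ℝ := (∑' i, m i ^ p) ^ (1 / p) + 1 with hMdef
  have hS0 : 0 ≤ ∑' i, m i ^ p := tsum_nonneg fun i => Real.rpow_nonneg (hm i) p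
  have hM : 0 < M := by positivity
  have hmM : ∀ i, m i < M := by
    intro i
    have h1 : m i ^ p ≤ ∑' i, m i ^ p :=
      hsum.le_tsum i fun j _ => Real.rpow_nonneg (hm j) p
    have h2 : m i ≤ (∑' i, m i ^ p) ^ (1 / p) := by
      have h3 := Real.rpow_le_rpow (Real.rpow_nonneg (hm i) p) h1 (by positivity : 0 ≤ 1 / p)
      rwa [← Real.rpow_mul (hm i), mul_one_div_cancel hp.ne', Real.rpow_one] at h3
    rw [hMdef]
    linarith
  -- finiteness
  have hfin : ∀ t : ℝ, 0 < t → (Function.support fun i => ⌊(m i / t) ^ r⌋₊).Finite := by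
    intro t ht
    have h1 : {i | ¬ m i ^ p < t ^ p}.Finite := by
      have h2 := hsum.tendsto_cofinite_zero.eventually (gt_mem_nhds (Real.rpow_pos_of_pos ht p))
      exact Filter.eventually_cofinite.1 h2
    refine h1.subset fun i hi => ?_
    simp only [mem_setOf_eq, not_lt]
    refine Real.rpow_le_rpow ht.le ?_ hp.le
    by_contra hlt
    exact hi (A2_floor_zero (hm i) ht hr0 (not_le.1 hlt))
  set T : ℕ → ℝ := fun k => M / 2 ^ k with hT
  have hTpos : ∀ k, 0 < T k := fun k => by simp only [hT]; positivity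
  set n : ℕ → ℕ := fun k => ∑ᶠ i, ⌊(m i / T k) ^ r⌋₊ with hn
  have hn0 : n 0 = 0 := by
    simp only [hn]
    have : ∀ i, ⌊(m i / T 0) ^ r⌋₊ = 0 := fun i =>
      A2_floor_zero (hm i) (hTpos 0) hr0 (by simpa [hT] using hmM i)
    simp [this]
  have han : ∀ k, a (n k) ≤ C * T k := fun k => h (T k) (hTpos k)
  have hcast : ∀ k, ((n k : ℕ) : ℝ≥0∞) = ∑' i, ((⌊(m i / T k) ^ r⌋₊ : ℕ) : ℝ≥0∞) := by
    intro k
    simp only [hn]
    rw [finsum_eq_sum _ (hfin (T k) (hTpos k)), Nat.cast_sum]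
    rw [tsum_eq_sum]
    intro i hi
    rw [Set.Finite.mem_toFinset, Function.mem_support, not_not] at hi
    rw [hi, Nat.cast_zero]
  -- claim A
  have hA : ∀ N, ENNReal.ofReal (a N ^ p) ≤
      ∑' k, if N < n (k + 1) then ENNReal.ofReal ((C * T k) ^ p) else 0 := by
    intro N
    by_cases hex : ∃ k, N < n (k + 1)
    · set k0 := Nat.find hex with hk0
      have h1 : N < n (k0 + 1) := Nat.find_spec hex
      have h2 : n k0 ≤ N := by
        rcases Nat.eq_zero_or_pos k0 with h3 | h3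
        · rw [h3, hn0]
          exact Nat.zero_le _
        · have h4 := Nat.find_min hex (m := k0 - 1) (by omega)
          rw [show k0 - 1 + 1 = k0 by omega] at h4
          exact not_lt.1 h4
      have h3 : a N ≤ C * T k0 := (ha h2).trans (han k0)
      have h4 : ENNReal.ofReal (a N ^ p) ≤
          (fun k => if N < n (k + 1) then ENNReal.ofReal ((C * T k) ^ p) else 0) k0 := by
        simp only [if_pos h1]
        exact ENNReal.ofReal_le_ofReal (Real.rpow_le_rpow (ha0 N) h3 hp.le)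
      exact h4.trans (ENNReal.le_tsum k0)
    · have h1 : ∀ k : ℕ, a N ≤ C * T (k + 1) := fun k =>
        (ha (not_lt.1 fun hk => hex ⟨k, hk⟩)).trans (han (k + 1))
      have h2 : Tendsto (fun k : ℕ => C * T (k + 1)) atTop (𝓝 0) := by
        have h3 : Tendsto (fun k : ℕ => C * (M * ((1 / 2 : ℝ) ^ (k + 1)))) atTop (𝓝 (C * (M * 0))) :=
          ((((tendsto_pow_atTop_nhds_zero_of_lt_one (by norm_num) (by norm_num)).comp
            (tendsto_add_atTop_nat 1))).const_mul M).const_mul C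
        simp only [mul_zero] at h3
        refine h3.congr fun k => ?_
        simp only [hT, one_div, inv_pow]
        ring
      have h3 : a N ≤ 0 := ge_of_tendsto' h2 h1
      have h4 : a N = 0 := le_antisymm h3 (ha0 N)
      rw [h4, Real.zero_rpow hp.ne', ENNReal.ofReal_zero]
      exact zero_le
  -- the sum
  set G : ℝ≥0∞ := ∑' j : ℕ, ENNReal.ofReal ((2 : ℝ) ^ (-(p - r))) ^ j with hG
  have hGfin : G ≠ ⊤ := by
    rw [hG, ENNReal.tsum_geometric]
    refine ENNReal.inv_ne_top.2 ?_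
    rw [ne_eq, tsub_eq_zero_iff_le, not_le]
    rw [ENNReal.ofReal_lt_one]
    exact Real.rpow_lt_one_of_one_lt_of_neg (by norm_num) (by linarith)
  have hE : ∀ i, ∑' k, ((⌊(m i / T (k + 1)) ^ r⌋₊ : ℕ) : ℝ≥0∞) * ENNReal.ofReal ((C * T k) ^ p)
      ≤ ENNReal.ofReal ((2 * C) ^ p) * G * ENNReal.ofReal (m i ^ p) := by
    intro i
    have h1 : ∀ k, ((⌊(m i / T (k + 1)) ^ r⌋₊ : ℕ) : ℝ≥0∞) * ENNReal.ofReal ((C * T k) ^ p) ≤
        ENNReal.ofReal ((2 * C) ^ p * m i ^ r) *
          (if M / 2 ^ (k + 1) ≤ m i then ENNReal.ofReal ((M / 2 ^ (k + 1)) ^ (p - r)) else 0) := by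
      intro k
      split
      · rename_i hk
        rw [← ENNReal.ofReal_natCast, ← ENNReal.ofReal_mul (by positivity),
          ← ENNReal.ofReal_mul (by have := hm i; positivity)]
        refine ENNReal.ofReal_le_ofReal ?_
        have h2 : ((⌊(m i / T (k + 1)) ^ r⌋₊ : ℕ) : ℝ) ≤ (m i / T (k + 1)) ^ r :=
          Nat.floor_le (Real.rpow_nonneg (div_nonneg (hm i) (hTpos _).le) _)
        have h3 : C * T k = 2 * C * T (k + 1) := by
          simp only [hT, pow_succ]
          field_simp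
        have h4 : (M / 2 ^ (k + 1)) = T (k + 1) := rfl
        rw [h4, h3]
        refine (mul_le_mul_of_nonneg_right h2 (Real.rpow_nonneg (by have := hTpos (k+1); positivity) _)).trans
          (le_of_eq ?_)
        rw [Real.div_rpow (hm i) (hTpos _).le, Real.mul_rpow (by positivity) (hTpos _).le,
          Real.rpow_sub (hTpos _)]
        field_simp
      · rename_i hk
        rw [A2_floor_zero (hm i) (hTpos _) hr0 (by simpa [hT] using hk)]
        simp
    refine (ENNReal.tsum_le_tsum h1).trans ?_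
    rw [ENNReal.tsum_mul_left]
    have h2 := A2_geo (hm i) hM hs
    refine (mul_le_mul_right h2 _).trans (le_of_eq ?_)
    rw [← hG]
    have h3 : ENNReal.ofReal ((2 * C) ^ p * m i ^ r) * ENNReal.ofReal (m i ^ (p - r))
        = ENNReal.ofReal ((2 * C) ^ p) * ENNReal.ofReal (m i ^ p) := by
      have hmi := hm i
      rw [← ENNReal.ofReal_mul (by positivity), ← ENNReal.ofReal_mul (by positivity)]
      congr 1
      rw [mul_assoc, ← Real.rpow_add' (hm i) (by ring_nf; exact hp.ne')]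
      congr 2
      ring
    rw [← mul_assoc, h3]
    ring
  have hfinal : ∑' N, ENNReal.ofReal (a N ^ p) ≠ ⊤ := by
    have h1 : ∑' N, ENNReal.ofReal (a N ^ p) ≤
        ENNReal.ofReal ((2 * C) ^ p) * G * ∑' i, ENNReal.ofReal (m i ^ p) := by
      calc ∑' N, ENNReal.ofReal (a N ^ p)
          ≤ ∑' N, ∑' k, (if N < n (k + 1) then ENNReal.ofReal ((C * T k) ^ p) else 0) :=
            ENNReal.tsum_le_tsum hA
        _ = ∑' k, ∑' N, (if N < n (k + 1) then ENNReal.ofReal ((C * T k) ^ p) else 0) :=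
            ENNReal.tsum_comm
        _ = ∑' k, (n (k + 1) : ℝ≥0∞) * ENNReal.ofReal ((C * T k) ^ p) := by
            refine tsum_congr fun k => ?_
            rw [tsum_eq_sum (s := Finset.range (n (k + 1)))]
            · rw [Finset.sum_congr rfl (g := fun _ => ENNReal.ofReal ((C * T k) ^ p))]
              · rw [Finset.sum_const, Finset.card_range, nsmul_eq_mul]
              · intro N hN
                rw [if_pos (Finset.mem_range.1 hN)]
            · intro N hN
              rw [if_neg (fun h' => hN (Finset.mem_range.2 h'))]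
        _ = ∑' k, ∑' i, ((⌊(m i / T (k + 1)) ^ r⌋₊ : ℕ) : ℝ≥0∞) *
              ENNReal.ofReal ((C * T k) ^ p) := by
            refine tsum_congr fun k => ?_
            rw [hcast (k + 1), ENNReal.tsum_mul_right]
        _ = ∑' i, ∑' k, ((⌊(m i / T (k + 1)) ^ r⌋₊ : ℕ) : ℝ≥0∞) *
              ENNReal.ofReal ((C * T k) ^ p) := ENNReal.tsum_comm
        _ ≤ ∑' i, ENNReal.ofReal ((2 * C) ^ p) * G * ENNReal.ofReal (m i ^ p) :=
            ENNReal.tsum_le_tsum hE
        _ = ENNReal.ofReal ((2 * C) ^ p) * G * ∑' i, ENNReal.ofReal (m i ^ p) :=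
            ENNReal.tsum_mul_left
    refine ne_top_of_le_ne_top (ENNReal.mul_ne_top (ENNReal.mul_ne_top ENNReal.ofReal_ne_top hGfin) ?_) h1
    rw [← ENNReal.ofReal_tsum_of_nonneg (fun i => Real.rpow_nonneg (hm i) p) hsum]
    exact ENNReal.ofReal_ne_top
  have h5 := ENNReal.summable_toReal hfinal
  refine h5.congr fun N => ?_
  exact ENNReal.toReal_ofReal (Real.rpow_nonneg (ha0 N) p)

end HankelSPC
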