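import Pool.Agent.Lib.MP_e1cf54_an.Stmt

/-! Row A3: Schur test and Neumann series for finite matrices. -/

open scoped ENNReal NNReal Topology

namespace HankelSPC

/-- Schur test: if `|R k j| ≤ r k j`, `∑_j r k j w_j ≤ c w_k`, `∑_k w_k r k j ≤ c w_j` then
`‖R‖ ≤ c` on `ℓ²`. -/
theorem schur_finite {ι κ : Type*} [Fintype ι] [Fintype κ] (R : κ → ι → ℂ) (r : κ → ι → ℝ)
    (v : κ → ℝ) (w : ι → ℝ) {c₁ c₂ : ℝ} (hc₁ : 0 ≤ c₁) (hc₂ : 0 ≤ c₂) (hR : ∀ k j, ‖R k j‖ ≤ r k j) (hv : ∀ k, 0 < v k)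
    (hw : ∀ j, 0 < w j) (h1 : ∀ k, ∑ j, r k j * w j ≤ c₁ * v k)
    (h2 : ∀ j, ∑ k, v k * r k j ≤ c₂ * w j) (x : ι → ℂ) :
    ∑ k, ‖∑ j, R k j * x j‖ ^ 2 ≤ c₁ * c₂ * ∑ j, ‖x j‖ ^ 2 := by
  have hr : ∀ k j, 0 ≤ r k j := fun k j => (norm_nonneg _).trans (hR k j)
  have hrow : ∀ k, ‖∑ j, R k j * x j‖ ^ 2 ≤ c₁ * (v k * ∑ j, r k j * (‖x j‖ ^ 2 / w j)) := by
    intro k
    have a1 : ‖∑ j, R k j * x j‖ ≤ ∑ j, r k j * ‖x j‖ := by
      refine (norm_sum_le _ _).trans (Finset.sum_le_sum fun j _ => ?_)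
      rw [norm_mul]
      exact mul_le_mul_of_nonneg_right (hR k j) (norm_nonneg _)
    have a2 : (∑ j, r k j * ‖x j‖) ^ 2 ≤
        (∑ j, r k j * w j) * ∑ j, r k j * (‖x j‖ ^ 2 / w j) := by
      apply Finset.sum_sq_le_sum_mul_sum_of_sq_eq_mul
      · intro j _
        exact mul_nonneg (hr k j) (hw j).le
      · intro j _
        exact mul_nonneg (hr k j) (div_nonneg (sq_nonneg _) (hw j).le)
      · intro j _
        have := (hw j).ne'
        field_simp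
    have a3 : 0 ≤ ∑ j, r k j * (‖x j‖ ^ 2 / w j) :=
      Finset.sum_nonneg fun j _ => mul_nonneg (hr k j) (div_nonneg (sq_nonneg _) (hw j).le)
    calc ‖∑ j, R k j * x j‖ ^ 2 ≤ (∑ j, r k j * ‖x j‖) ^ 2 :=
          pow_le_pow_left₀ (norm_nonneg _) a1 2
      _ ≤ (∑ j, r k j * w j) * ∑ j, r k j * (‖x j‖ ^ 2 / w j) := a2
      _ ≤ (c₁ * v k) * ∑ j, r k j * (‖x j‖ ^ 2 / w j) :=
          mul_le_mul_of_nonneg_right (h1 k) a3
      _ = c₁ * (v k * ∑ j, r k j * (‖x j‖ ^ 2 / w j)) := by ring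
  calc ∑ k, ‖∑ j, R k j * x j‖ ^ 2 ≤ ∑ k, c₁ * (v k * ∑ j, r k j * (‖x j‖ ^ 2 / w j)) :=
        Finset.sum_le_sum fun k _ => hrow k
    _ = c₁ * ∑ j, (∑ k, v k * r k j) * (‖x j‖ ^ 2 / w j) := by
        rw [← Finset.mul_sum]
        congr 1
        simp only [Finset.mul_sum, Finset.sum_mul]
        rw [Finset.sum_comm]
        refine Finset.sum_congr rfl fun j _ => Finset.sum_congr rfl fun k _ => ?_
        ring
    _ ≤ c₁ * ∑ j, (c₂ * w j) * (‖x j‖ ^ 2 / w j) := by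
        refine mul_le_mul_of_nonneg_left (Finset.sum_le_sum fun j _ => ?_) hc₁
        exact mul_le_mul_of_nonneg_right (h2 j) (div_nonneg (sq_nonneg _) (hw j).le)
    _ = c₁ * c₂ * ∑ j, ‖x j‖ ^ 2 := by
        rw [mul_assoc]
        congr 1
        rw [Finset.mul_sum]
        refine Finset.sum_congr rfl fun j _ => ?_
        have := (hw j).ne'
        field_simp

/-- If `‖R‖ ≤ 1/2` by the Schur test, then `1 + R` has a right inverse of norm `≤ 2`. -/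
theorem neumann_finite {ι : Type*} [Fintype ι] [DecidableEq ι] (R : ι → ι → ℂ) (r : ι → ι → ℝ)
    (w : ι → ℝ) (hR : ∀ k j, ‖R k j‖ ≤ r k j) (hw : ∀ j, 0 < w j)
    (h1 : ∀ k, ∑ j, r k j * w j ≤ (1 / 2) * w k)
    (h2 : ∀ j, ∑ k, w k * r k j ≤ (1 / 2) * w j) :
    ∃ S : (ι → ℂ) →ₗ[ℂ] (ι → ℂ), (∀ x k, S x k + ∑ j, R k j * S x j = x k) ∧
      ∀ x, ∑ k, ‖S x k‖ ^ 2 ≤ 4 * ∑ k, ‖x k‖ ^ 2 := by
  let T : (ι → ℂ) →ₗ[ℂ] (ι → ℂ) :=
    { toFun := fun x k => x k + ∑ j, R k j * x j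
      map_add' := by
        intro x y
        funext k
        simp only [Pi.add_apply, mul_add, Finset.sum_add_distrib]
        ring
      map_smul' := by
        intro c x
        funext k
        simp only [Pi.smul_apply, smul_eq_mul, RingHom.id_apply, mul_add, Finset.mul_sum]
        congr 1
        exact Finset.sum_congr rfl fun j _ => by ring }
  have hT : ∀ x k, T x k = x k + ∑ j, R k j * x j := fun _ _ => rfl
  have hbd : ∀ x : ι → ℂ, ∑ k, ‖x k‖ ^ 2 ≤ 4 * ∑ k, ‖T x k‖ ^ 2 := by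
    intro x
    have hs := schur_finite R r w w (c₁ := 1 / 2) (c₂ := 1 / 2) (by norm_num) (by norm_num)
      hR hw hw h1 h2 x
    have hpt : ∀ k, ‖x k‖ ^ 2 ≤ 2 * ‖T x k‖ ^ 2 + 2 * ‖∑ j, R k j * x j‖ ^ 2 := by
      intro k
      have e : x k = T x k - ∑ j, R k j * x j := by rw [hT]; ring
      have h3 : ‖x k‖ ≤ ‖T x k‖ + ‖∑ j, R k j * x j‖ := by
        conv_lhs => rw [e]
        exact norm_sub_le _ _
      nlinarith [norm_nonneg (x k), norm_nonneg (T x k), norm_nonneg (∑ j, R k j * x j),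
        sq_nonneg (‖T x k‖ - ‖∑ j, R k j * x j‖)]
    have hsum : ∑ k, ‖x k‖ ^ 2 ≤ 2 * ∑ k, ‖T x k‖ ^ 2 + 2 * ∑ k, ‖∑ j, R k j * x j‖ ^ 2 := by
      rw [Finset.mul_sum, Finset.mul_sum, ← Finset.sum_add_distrib]
      exact Finset.sum_le_sum fun k _ => hpt k
    linarith
  have hinj : Function.Injective T := by
    rw [← LinearMap.ker_eq_bot, LinearMap.ker_eq_bot']
    intro x hx
    have h3 := hbd x
    rw [hx] at h3
    simp only [Pi.zero_apply, norm_zero, ne_eq, OfNat.ofNat_ne_zero, not_false_eq_true, zero_pow,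
      Finset.sum_const_zero, mul_zero] at h3
    have h4 : ∑ k, ‖x k‖ ^ 2 = 0 := le_antisymm h3 (Finset.sum_nonneg fun _ _ => sq_nonneg _)
    funext k
    have h5 := (Finset.sum_eq_zero_iff_of_nonneg (fun _ _ => sq_nonneg _)).1 h4 k
      (Finset.mem_univ k)
    simpa using h5
  let e := LinearEquiv.ofInjectiveEndo T hinj
  have he : ∀ x, T (e.symm x) = x := fun x => e.apply_symm_apply x
  refine ⟨e.symm.toLinearMap, ?_, ?_⟩
  · intro x k
    have h3 := congrFun (he x) k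
    rw [hT] at h3
    exact h3
  · intro x
    have h3 := hbd (e.symm x)
    rw [he] at h3
    exact h3

end HankelSPC
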