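import Pool.Agent.Lib.MP_e1cf54_an.A1
import Pool.Agent.Lib.MP_e1cf54_an.A3

/-! Row A4: lower bounds for the singular numbers. -/

open scoped ENNReal NNReal Topology

namespace HankelSPC

variable {H G : Type*} [NormedAddCommGroup H] [InnerProductSpace ℂ H]
  [NormedAddCommGroup G] [InnerProductSpace ℂ G]

/-- Bessel type inequality from the dual bound. -/
private lemma A4_bessel {ι : Type*} [Fintype ι] (h : ι → G)
    (hh : ∀ c : ι → ℂ, ‖∑ i, c i • h i‖ ^ 2 ≤ ∑ i, ‖c i‖ ^ 2) (y : G) :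
    ∑ i, ‖(inner ℂ (h i) y : ℂ)‖ ^ 2 ≤ ‖y‖ ^ 2 := by
  set d : ι → ℂ := fun i => inner ℂ (h i) y with hd
  set S : ℝ := ∑ i, ‖d i‖ ^ 2 with hS
  have hS0 : 0 ≤ S := Finset.sum_nonneg fun i _ => by positivity
  have h1 : (inner ℂ (∑ i, d i • h i) y : ℂ) = (S : ℂ) := by
    rw [sum_inner, hS]
    push_cast
    refine Finset.sum_congr rfl fun i _ => ?_
    rw [inner_smul_left]
    have : (inner ℂ (h i) y : ℂ) = d i := rfl
    rw [this, mul_comm, Complex.mul_conj, Complex.normSq_eq_norm_sq]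
    push_cast
    rfl
  have h2 : S ≤ ‖∑ i, d i • h i‖ * ‖y‖ := by
    have := norm_inner_le_norm (𝕜 := ℂ) (∑ i, d i • h i) y
    rw [h1, Complex.norm_real, Real.norm_of_nonneg hS0] at this
    exact this
  have h3 := hh d
  have h4 : S ^ 2 ≤ S * ‖y‖ ^ 2 := by
    calc S ^ 2 ≤ (‖∑ i, d i • h i‖ * ‖y‖) ^ 2 := pow_le_pow_left₀ hS0 h2 2
      _ = ‖∑ i, d i • h i‖ ^ 2 * ‖y‖ ^ 2 := by ring
      _ ≤ S * ‖y‖ ^ 2 := mul_le_mul_of_nonneg_right h3 (by positivity)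
  rcases hS0.eq_or_lt with h5 | h5
  · rw [← h5]; positivity
  · exact le_of_mul_le_mul_left (by rw [← sq]; exact h4) h5

/-- the embedding of the first `N + 1` coordinates -/
private def A4_W {ι : Type*} {n : ℕ} (e : Fin n ≃ ι) (N : ℕ) :
    (Fin (N + 1) → ℂ) →ₗ[ℂ] (ι → ℂ) where
  toFun c := fun i => if h : (e.symm i : ℕ) < N + 1 then c ⟨e.symm i, h⟩ else 0
  map_add' c c' := by
    funext i
    simp only [Pi.add_apply]
    split_ifs <;> simp
  map_smul' a c := by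
    funext i
    simp only [Pi.smul_apply, RingHom.id_apply]
    split_ifs <;> simp

/-- A diagonal matrix factors through `T`.
Proof: enumerate `ι` so that `μ` is decreasing (`Tuple.sort`), `e : Fin (card ι) ≃ ι`.
Claim `μ (e N) ≤ C * sNumber T N`: for `F` of rank `≤ N` the linear map
`c ↦ F (A c)` restricted to vectors supported on the `N+1` indices `e 0, …, e N` has a non-zero
kernel vector `c`, `∑ ‖c‖² = 1`; then with `y = (T - F)(A c)`, `⟪h k, y⟫ = ⟪h k, T (A c)⟫ = μ k c k`,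
and `∑ ‖⟪h k, y⟫‖² ≤ ‖y‖²` (dual form of `hh`), so
`μ(e N)² ≤ ∑ ‖μ k c k‖² ≤ ‖(T-F)(A c)‖² ≤ ‖T - F‖² C²`. -/
theorem diag_le {ι : Type*} [Fintype ι] [DecidableEq ι] (T : H →L[ℂ] G)
    (A : (ι → ℂ) →ₗ[ℂ] H) (h : ι → G) (μ : ι → ℝ) (hμ : ∀ i, 0 ≤ μ i) {C : ℝ} (hC : 0 ≤ C)
    (hA : ∀ c : ι → ℂ, ‖A c‖ ^ 2 ≤ C ^ 2 * ∑ i, ‖c i‖ ^ 2)
    (hh : ∀ c : ι → ℂ, ‖∑ i, c i • h i‖ ^ 2 ≤ ∑ i, ‖c i‖ ^ 2)
    (hT : ∀ (c : ι → ℂ) k, inner ℂ (h k) (T (A c)) = μ k * c k) {p : ℝ} (hp : 0 < p) :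
    ∑ i, μ i ^ p ≤ C ^ p * ∑ N ∈ Finset.range (Fintype.card ι), sNumber T N ^ p := by
  classical
  set n := Fintype.card ι with hn
  let e0 : Fin n ≃ ι := (Fintype.equivFin ι).symm
  let σ : Equiv.Perm (Fin n) := Tuple.sort (fun k => -μ (e0 k))
  let e : Fin n ≃ ι := σ.trans e0
  have hmono : ∀ k l : Fin n, k ≤ l → μ (e l) ≤ μ (e k) := by
    intro k l hkl
    have h1 := Tuple.monotone_sort (fun k => -μ (e0 k)) hkl
    have h2 : -μ (e k) ≤ -μ (e l) := h1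
    linarith
  have claim : ∀ k : Fin n, μ (e k) ≤ C * sNumber T k := by
    intro k
    have key : ∀ ε : ℝ, 0 < ε → μ (e k) ≤ C * (sNumber T k + ε) := by
      intro ε hε
      obtain ⟨F, hF, hTF⟩ := exists_rank_lt T k hε
      have hfin : Module.Finite ℂ (LinearMap.range (F : H →ₗ[ℂ] G)) := by
        rw [← Module.rank_lt_aleph0_iff]
        exact lt_of_le_of_lt hF Cardinal.natCast_lt_aleph0
      have hfr : Module.finrank ℂ (LinearMap.range (F : H →ₗ[ℂ] G)) ≤ k := by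
        have h1 : (Module.finrank ℂ (LinearMap.range (F : H →ₗ[ℂ] G)) : Cardinal) ≤ (k : ℕ) := by
          rw [Module.finrank_eq_rank]; exact hF
        exact_mod_cast h1
      let Φ : (Fin ((k : ℕ) + 1) → ℂ) →ₗ[ℂ] LinearMap.range (F : H →ₗ[ℂ] G) :=
        (F : H →ₗ[ℂ] G).rangeRestrict ∘ₗ A ∘ₗ A4_W e k
      have hker : LinearMap.ker Φ ≠ ⊥ := by
        refine LinearMap.ker_ne_bot_of_finrank_lt ?_
        rw [Module.finrank_fin_fun]
        omega
      obtain ⟨c, hc, hc0⟩ := (Submodule.ne_bot_iff _).1 hker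
      set x : ι → ℂ := A4_W e k c with hx
      have hFx : F (A x) = 0 := by
        have h1 : Φ c = 0 := hc
        exact congrArg Subtype.val h1
      have hy : (T - F) (A x) = T (A x) := by
        show T (A x) - F (A x) = _
        rw [hFx, sub_zero]
      have hb := A4_bessel h hh ((T - F) (A x))
      rw [hy] at hb
      simp only [hT] at hb
      have hxpos : 0 < ∑ i, ‖x i‖ ^ 2 := by
        have hex : ∃ l, c l ≠ 0 := by
          by_contra hcon
          push Not at hcon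
          exact hc0 (funext hcon)
        obtain ⟨l, hl⟩ := hex
        have hln : (l : ℕ) < n := lt_of_le_of_lt (Nat.lt_succ_iff.1 l.2) k.2
        refine Finset.sum_pos' (fun i _ => by positivity) ⟨e ⟨l, hln⟩, Finset.mem_univ _, ?_⟩
        have h1 : x (e ⟨l, hln⟩) = c l := by
          rw [hx]
          show (if h : ((e.symm (e ⟨l, hln⟩) : Fin n) : ℕ) < (k : ℕ) + 1 then
            c ⟨e.symm (e ⟨l, hln⟩), h⟩ else 0) = c l
          simp only [Equiv.symm_apply_apply]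
          rw [dif_pos l.2]
        rw [h1]
        positivity
      have hlow : μ (e k) ^ 2 * ∑ i, ‖x i‖ ^ 2 ≤ ∑ i, ‖(μ i : ℂ) * x i‖ ^ 2 := by
        rw [Finset.mul_sum]
        refine Finset.sum_le_sum fun i _ => ?_
        rw [norm_mul, mul_pow, Complex.norm_real, Real.norm_of_nonneg (hμ i)]
        by_cases hi : (e.symm i : ℕ) < (k : ℕ) + 1
        · have h1 : e.symm i ≤ k := by
            rw [Fin.le_def]; omega
          have h2 := hmono _ _ h1
          rw [Equiv.apply_symm_apply] at h2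
          exact mul_le_mul_of_nonneg_right (pow_le_pow_left₀ (hμ _) h2 2) (by positivity)
        · have h1 : x i = 0 := by
            rw [hx]
            show (if h : (e.symm i : ℕ) < (k : ℕ) + 1 then c ⟨e.symm i, h⟩ else 0) = 0
            rw [dif_neg hi]
          rw [h1]
          simp
      have hup : ‖T (A x)‖ ^ 2 ≤ ‖T - F‖ ^ 2 * (C ^ 2 * ∑ i, ‖x i‖ ^ 2) := by
        rw [← hy]
        calc ‖(T - F) (A x)‖ ^ 2 ≤ (‖T - F‖ * ‖A x‖) ^ 2 :=
              pow_le_pow_left₀ (norm_nonneg _) ((T - F).le_opNorm _) 2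
          _ = ‖T - F‖ ^ 2 * ‖A x‖ ^ 2 := by ring
          _ ≤ _ := mul_le_mul_of_nonneg_left (hA x) (by positivity)
      have hsq : μ (e k) ^ 2 ≤ (C * ‖T - F‖) ^ 2 := by
        have h1 : μ (e k) ^ 2 * ∑ i, ‖x i‖ ^ 2 ≤ (C * ‖T - F‖) ^ 2 * ∑ i, ‖x i‖ ^ 2 := by
          calc _ ≤ _ := hlow
            _ ≤ ‖T (A x)‖ ^ 2 := hb
            _ ≤ _ := hup
            _ = _ := by ring
        exact le_of_mul_le_mul_right h1 hxpos
      have h2 : μ (e k) ≤ C * ‖T - F‖ :=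
        le_of_sq_le_sq hsq (mul_nonneg hC (norm_nonneg _))
      exact h2.trans (mul_le_mul_of_nonneg_left hTF.le hC)
    refine le_of_forall_pos_le_add fun ε hε => ?_
    have h1 := key (ε / (C + 1)) (by positivity)
    have h2 : C * (ε / (C + 1)) ≤ ε := by
      rw [mul_div_assoc', div_le_iff₀ (by linarith)]
      nlinarith
    linarith [mul_add C (sNumber T k) (ε / (C + 1))]
  calc ∑ i, μ i ^ p = ∑ k : Fin n, μ (e k) ^ p := (Equiv.sum_comp e (fun i => μ i ^ p)).symm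
    _ ≤ ∑ k : Fin n, C ^ p * sNumber T k ^ p := by
        refine Finset.sum_le_sum fun k _ => ?_
        rw [← Real.mul_rpow hC (sNumber_nonneg _ _)]
        exact Real.rpow_le_rpow (hμ _) (claim k) hp.le
    _ = C ^ p * ∑ N ∈ Finset.range n, sNumber T N ^ p := by
        rw [← Finset.mul_sum, Finset.sum_range]

/-- Combination of `diag_le` and `neumann_finite` (with `A c = ∑ j, (S c j) • u j`). -/
theorem matrix_lemma {ι : Type*} [Fintype ι] [DecidableEq ι] (T : H →L[ℂ] G)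
    (u : ι → H) (h : ι → G) (μ : ι → ℝ) (hμ : ∀ i, 0 ≤ μ i) {C : ℝ} (hC : 0 ≤ C)
    (hu : ∀ c : ι → ℂ, ‖∑ i, c i • u i‖ ^ 2 ≤ C ^ 2 * ∑ i, ‖c i‖ ^ 2)
    (hh : ∀ c : ι → ℂ, ‖∑ i, c i • h i‖ ^ 2 ≤ ∑ i, ‖c i‖ ^ 2)
    (R : ι → ι → ℂ) (r : ι → ι → ℝ) (w : ι → ℝ)
    (hM : ∀ k j, inner ℂ (h k) (T (u j)) = μ k * ((if k = j then 1 else 0) + R k j))
    (hR : ∀ k j, ‖R k j‖ ≤ r k j) (hw : ∀ j, 0 < w j)
    (h1 : ∀ k, ∑ j, r k j * w j ≤ (1 / 2) * w k)
    (h2 : ∀ j, ∑ k, w k * r k j ≤ (1 / 2) * w j) {p : ℝ} (hp : 0 < p) :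
    ∑ i, μ i ^ p ≤ (2 * C) ^ p * ∑ N ∈ Finset.range (Fintype.card ι), sNumber T N ^ p := by
  obtain ⟨S, hS1, hS2⟩ := neumann_finite R r w hR hw h1 h2
  refine diag_le T (Fintype.linearCombination ℂ u ∘ₗ S) h μ hμ (by positivity) ?_ hh ?_ hp
  · intro c
    rw [LinearMap.comp_apply, Fintype.linearCombination_apply]
    calc ‖∑ i, S c i • u i‖ ^ 2 ≤ C ^ 2 * ∑ i, ‖S c i‖ ^ 2 := hu _
      _ ≤ C ^ 2 * (4 * ∑ i, ‖c i‖ ^ 2) := mul_le_mul_of_nonneg_left (hS2 c) (by positivity)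
      _ = _ := by ring
  · intro c k
    rw [LinearMap.comp_apply, Fintype.linearCombination_apply, map_sum, inner_sum]
    have h3 : ∀ j, (inner ℂ (h k) (T (S c j • u j)) : ℂ) =
        μ k * ((if k = j then 1 else 0) * S c j + R k j * S c j) := by
      intro j
      rw [map_smul, inner_smul_right, hM]
      ring
    simp only [h3]
    rw [← Finset.mul_sum, Finset.sum_add_distrib]
    congr 1
    rw [← hS1 c k]
    congr 1
    simp

end HankelSPC
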