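import Pool.Agent.Lib.MP_e1cf54_an.Stmt

/-! Row A5a: Riesz lemma and weak limits -/

open Filter
open scoped ENNReal NNReal Topology

namespace HankelSPC

/-- Riesz/Hahn–Banach lemma. Proof: `‖⟪β, a α⟫‖² = ‖⟪β, α'⟫‖² ≤ C ‖t α‖²` where `α'` is the
orthogonal projection of `a α` on `N`; so `t α ↦ ⟪β, a α⟫` is a well defined bounded functional on
the range of `t`; extend it to the closure of the range (or Hahn–Banach) and use Riesz
(`InnerProductSpace.toDual`). -/
theorem riesz_lemma {H₁ H₂ D : Type*} [NormedAddCommGroup H₁] [InnerProductSpace ℂ H₁]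
    [CompleteSpace H₁] [NormedAddCommGroup H₂] [InnerProductSpace ℂ H₂] [CompleteSpace H₂]
    [AddCommGroup D] [Module ℂ D] (t : D →ₗ[ℂ] H₁) (a : D →ₗ[ℂ] H₂) (N : Submodule ℂ H₂)
    (hN : IsClosed (N : Set H₂)) (β : H₂) (hβ : β ∈ N) {C : ℝ} (hC : 0 ≤ C)
    (h : ∀ α : D, ∀ α' ∈ N, a α - α' ∈ Nᗮ → ‖inner ℂ β α'‖ ^ 2 ≤ C * ‖t α‖ ^ 2) :
    ∃ u : H₁, ‖u‖ ^ 2 ≤ C ∧ ∀ α, inner ℂ u (t α) = inner ℂ β (a α) := by
  have : CompleteSpace N := hN.completeSpace_coe
  -- the basic estimate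
  have h1 : ∀ α : D, ‖inner ℂ β (a α)‖ ≤ Real.sqrt C * ‖t α‖ := by
    intro α
    have h2 := h α (N.starProjection (a α)) (Submodule.starProjection_apply_mem _ _)
      (Submodule.sub_starProjection_mem_orthogonal _)
    have h3 : inner ℂ β (a α) = inner ℂ β (N.starProjection (a α)) := by
      have h4 : inner ℂ β (a α - N.starProjection (a α)) = 0 :=
        (Submodule.mem_orthogonal N _).mp (Submodule.sub_starProjection_mem_orthogonal _) β hβ
      rw [inner_sub_right, sub_eq_zero] at h4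
      exact h4
    rw [h3]
    have h5 : Real.sqrt C * ‖t α‖ = Real.sqrt (C * ‖t α‖ ^ 2) := by
      rw [Real.sqrt_mul hC, Real.sqrt_sq (norm_nonneg _)]
    rw [h5]
    exact Real.le_sqrt_of_sq_le h2
  -- the functional on the range of `t`
  have hker : LinearMap.ker t ≤ LinearMap.ker ((innerₛₗ ℂ β).comp a) := by
    intro α hα
    rw [LinearMap.mem_ker] at hα ⊢
    have := h1 α
    rw [hα, norm_zero, mul_zero] at this
    simpa using this
  let f₀ : LinearMap.range t →ₗ[ℂ] ℂ :=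
    ((LinearMap.ker t).liftQ ((innerₛₗ ℂ β).comp a) hker).comp
      (LinearMap.quotKerEquivRange t).symm.toLinearMap
  have hf₀ : ∀ α : D, f₀ ⟨t α, LinearMap.mem_range_self t α⟩ = inner ℂ β (a α) := by
    intro α
    have h2 : (LinearMap.quotKerEquivRange t).symm ⟨t α, LinearMap.mem_range_self t α⟩ =
        Submodule.Quotient.mk α := by
      rw [LinearEquiv.symm_apply_eq]
      rfl
    simp only [f₀, LinearMap.comp_apply, LinearEquiv.coe_coe, h2, Submodule.liftQ_apply]
    rfl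
  have hb : ∀ y : LinearMap.range t, ‖f₀ y‖ ≤ Real.sqrt C * ‖y‖ := by
    rintro ⟨y, α, rfl⟩
    rw [hf₀ α]
    exact h1 α
  obtain ⟨g, hg, hgn⟩ := exists_extension_norm_eq (𝕜 := ℂ) (LinearMap.range t)
    (f₀.mkContinuous (Real.sqrt C) hb)
  refine ⟨(InnerProductSpace.toDual ℂ H₁).symm g, ?_, ?_⟩
  · rw [LinearIsometryEquiv.norm_map, hgn]
    have h2 := LinearMap.mkContinuous_norm_le f₀ (Real.sqrt_nonneg C) hb
    calc ‖f₀.mkContinuous (Real.sqrt C) hb‖ ^ 2 ≤ Real.sqrt C ^ 2 :=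
          pow_le_pow_left₀ (norm_nonneg _) h2 2
      _ = C := Real.sq_sqrt hC
  · intro α
    rw [InnerProductSpace.toDual_symm_apply]
    have h2 := hg ⟨t α, LinearMap.mem_range_self t α⟩
    rw [h2]
    exact hf₀ α

/-- Weak limits of bounded sequences along an ultrafilter. Proof: for each `g` the bounded
sequence `⟪u m, g⟫` converges along the ultrafilter (compactness of closed balls of `ℂ`); the limit
is a bounded linear functional of `g`; Riesz. -/
theorem weak_limit {H : Type*} [NormedAddCommGroup H] [InnerProductSpace ℂ H] [CompleteSpace H]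
    (u : ℕ → H) {C : ℝ} (hu : ∀ m, ‖u m‖ ≤ C) :
    ∃ v : H, ‖v‖ ≤ C ∧ ∀ g : H, Tendsto (fun m => inner ℂ (u m) g)
      (Filter.hyperfilter ℕ : Filter ℕ) (𝓝 (inner ℂ v g)) := by
  have hC : 0 ≤ C := (norm_nonneg _).trans (hu 0)
  have hex : ∀ g : H, ∃ l : ℂ, ‖l‖ ≤ C * ‖g‖ ∧ Tendsto (fun m => inner ℂ (u m) g)
      (Filter.hyperfilter ℕ : Filter ℕ) (𝓝 l) := by
    intro g
    have hK : IsCompact (Metric.closedBall (0 : ℂ) (C * ‖g‖)) := isCompact_closedBall _ _
    have hm : ∀ m, inner ℂ (u m) g ∈ Metric.closedBall (0 : ℂ) (C * ‖g‖) := by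
      intro m
      rw [mem_closedBall_zero_iff]
      exact (norm_inner_le_norm _ _).trans (mul_le_mul_of_nonneg_right (hu m) (norm_nonneg _))
    obtain ⟨l, hl, hlt⟩ := hK.ultrafilter_le_nhds' ((Filter.hyperfilter ℕ).map
      (fun m => inner ℂ (u m) g)) (by
        rw [Ultrafilter.mem_map]
        exact Filter.univ_mem' hm)
    exact ⟨l, mem_closedBall_zero_iff.mp hl, hlt⟩
  choose l hln hl using hex
  have hadd : ∀ g g', l (g + g') = l g + l g' := by
    intro g g'
    refine tendsto_nhds_unique (hl (g + g')) ?_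
    simpa only [inner_add_right] using (hl g).add (hl g')
  have hsmul : ∀ (c : ℂ) g, l (c • g) = c * l g := by
    intro c g
    refine tendsto_nhds_unique (hl (c • g)) ?_
    simpa only [inner_smul_right] using (hl g).const_mul c
  let L₀ : H →ₗ[ℂ] ℂ := { toFun := l, map_add' := hadd, map_smul' := hsmul }
  let L : StrongDual ℂ H := L₀.mkContinuous C hln
  refine ⟨(InnerProductSpace.toDual ℂ H).symm L, ?_, ?_⟩
  · rw [LinearIsometryEquiv.norm_map]
    exact LinearMap.mkContinuous_norm_le _ hC _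
  · intro g
    rw [InnerProductSpace.toDual_symm_apply]
    exact hl g

end HankelSPC
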