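import Pool.Agent.Lib.MP_e1cf54_an.Stmt

/-! Row A5b: greedy colouring -/

open Filter
open scoped ENNReal NNReal Topology

namespace HankelSPC

/-- Greedy colouring of a finite set with a symmetric relation of degree at most `M`. -/
theorem greedy_colouring {ι : Type*} (F : Finset ι) (Adj : ι → ι → Prop)
    (hsymm : ∀ i j, Adj i j → Adj j i) (M : ℕ)
    (hM : ∀ i ∈ F, ∀ S : Finset ι, S ⊆ F → (∀ j ∈ S, j ≠ i ∧ Adj i j) → S.card ≤ M) :
    ∃ c : ι → Fin (M + 1), ∀ i ∈ F, ∀ j ∈ F, i ≠ j → Adj i j → c i ≠ c j := by
  classical
  induction F using Finset.induction_on with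
  | empty => exact ⟨fun _ => 0, fun i hi => absurd hi (Finset.notMem_empty i)⟩
  | insert a F ha ih =>
    obtain ⟨c, hc⟩ := ih (fun i hi S hS hadj =>
      hM i (Finset.mem_insert_of_mem hi) S (hS.trans (Finset.subset_insert _ _)) hadj)
    have hcard : (F.filter (fun j => Adj a j)).card ≤ M := by
      apply hM a (Finset.mem_insert_self _ _)
      · exact (Finset.filter_subset _ _).trans (Finset.subset_insert _ _)
      · intro j hj
        rw [Finset.mem_filter] at hj
        refine ⟨?_, hj.2⟩
        rintro rfl
        exact ha hj.1
    have hex : ∃ col : Fin (M + 1), col ∉ (F.filter (fun j => Adj a j)).image c := by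
      by_contra hcon
      push Not at hcon
      have h1 : (Finset.univ : Finset (Fin (M + 1))) ⊆ (F.filter (fun j => Adj a j)).image c :=
        fun x _ => hcon x
      have h2 := Finset.card_le_card h1
      rw [Finset.card_univ, Fintype.card_fin] at h2
      have h3 := Finset.card_image_le (s := F.filter (fun j => Adj a j)) (f := c)
      omega
    obtain ⟨col, hcol⟩ := hex
    have hcol' : ∀ j ∈ F, Adj a j → c j ≠ col := by
      intro j hj haj h
      exact hcol (Finset.mem_image.2 ⟨j, Finset.mem_filter.2 ⟨hj, haj⟩, h⟩)
    refine ⟨Function.update c a col, ?_⟩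
    intro i hi j hj hij hadj
    rw [Finset.mem_insert] at hi hj
    rcases hi with rfl | hi
    · rcases hj with rfl | hj
      · exact absurd rfl hij
      · rw [Function.update_self, Function.update_of_ne (Ne.symm hij)]
        exact (hcol' j hj hadj).symm
    · rcases hj with rfl | hj
      · rw [Function.update_self, Function.update_of_ne hij]
        exact hcol' i hi (hsymm _ _ hadj)
      · have hia : i ≠ a := by rintro rfl; exact ha hi
        have hja : j ≠ a := by rintro rfl; exact ha hj
        rw [Function.update_of_ne hia, Function.update_of_ne hja]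
        exact hc i hi j hj hij hadj

end HankelSPC
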