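import Pool.Agent.Lib.MP_e1cf54_an.Stmt

/-! Row A6: constructing an operator from a linear relation. -/

open scoped ENNReal NNReal Topology

namespace HankelSPC

/-- `rel g U` is a linear relation between a Hilbert space `K'` and `L`, with `rel 0 U → U ∈ K`
(`K` a closed subspace of `L`), and every `g` has some `U` with `rel g U`, `‖U‖ ≤ C‖g‖`. Then
`T g := (I - P_K) U` is a well defined bounded operator. -/
theorem exists_operator {K' L : Type*} [NormedAddCommGroup K'] [InnerProductSpace ℂ K']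
    [NormedAddCommGroup L] [InnerProductSpace ℂ L] [CompleteSpace L] (K : Submodule ℂ L)
    (hK : IsClosed (K : Set L)) (rel : K' → L → Prop)
    (hadd : ∀ g g' U U', rel g U → rel g' U' → rel (g + g') (U + U'))
    (hsmul : ∀ (c : ℂ) g U, rel g U → rel (c • g) (c • U)) (hzero : ∀ U, rel 0 U → U ∈ K)
    {C : ℝ} (hC : 0 ≤ C) (hex : ∀ g, ∃ U, rel g U ∧ ‖U‖ ≤ C * ‖g‖) :
    ∃ T : K' →L[ℂ] L, (∀ g U, rel g U → T g = Kᗮ.starProjection U) ∧
      ∀ g U, rel g U → ‖T g‖ ≤ ‖U‖ := by
  have hP : ∀ U ∈ K, Kᗮ.starProjection U = 0 := by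
    intro U hU
    rw [Submodule.starProjection_apply_eq_zero_iff]
    exact Submodule.le_orthogonal_orthogonal K hU
  have huniq : ∀ g U U', rel g U → rel g U' → Kᗮ.starProjection U = Kᗮ.starProjection U' := by
    intro g U U' h h'
    have h1 := hadd _ _ _ _ h (hsmul (-1) _ _ h')
    have h2 : g + (-1 : ℂ) • g = 0 := by simp
    rw [h2] at h1
    have h3 := hP _ (hzero _ h1)
    rw [map_add, map_smul] at h3
    have h4 : Kᗮ.starProjection U + (-1 : ℂ) • Kᗮ.starProjection U' =
      Kᗮ.starProjection U - Kᗮ.starProjection U' := by rw [neg_one_smul, sub_eq_add_neg]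
    rw [h4] at h3
    exact sub_eq_zero.mp h3
  choose V hV hVn using hex
  let T₀ : K' →ₗ[ℂ] L :=
    { toFun := fun g => Kᗮ.starProjection (V g)
      map_add' := by
        intro g g'
        rw [← map_add]
        exact huniq _ _ _ (hV (g + g')) (hadd _ _ _ _ (hV g) (hV g'))
      map_smul' := by
        intro c g
        rw [RingHom.id_apply, ← map_smul]
        exact huniq _ _ _ (hV (c • g)) (hsmul _ _ _ (hV g)) }
  have hle : ∀ U : L, ‖Kᗮ.starProjection U‖ ≤ ‖U‖ := fun U =>
    Submodule.norm_starProjection_apply_le _ _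
  have hb : ∀ g, ‖T₀ g‖ ≤ C * ‖g‖ := fun g => (hle _).trans (hVn g)
  refine ⟨T₀.mkContinuous C hb, ?_, ?_⟩
  · intro g U h
    exact huniq _ _ _ (hV g) h
  · intro g U h
    have : (T₀.mkContinuous C hb) g = Kᗮ.starProjection U := huniq _ _ _ (hV g) h
    rw [this]
    exact hle U

end HankelSPC
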