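import Pool.Agent.Lib.MP_e1cf54_an.L1b

/-! Row B1: approximation of `C¹` test functions by smooth ones; consequences for weak `∂̄`. -/

open MeasureTheory Set
open scoped ENNReal NNReal Topology ContDiff

namespace HankelSPC

variable {n : ℕ}

/-- Mollification of a `C¹` function with compact support (`ContDiffBump` convolution;
`D(v ⋆ η) = Dv ⋆ η`, uniform continuity of `v` and `Dv`). -/
theorem exists_smooth_approx {U : Set (Cn n)} (hU : IsOpen U) {v : Cn n → ℂ}
    (hv : ContDiff ℝ 1 v) (hc : HasCompactSupport v) (hs : tsupport v ⊆ U) :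
    ∃ K, IsCompact K ∧ K ⊆ U ∧ tsupport v ⊆ K ∧ ∀ ε > 0, ∃ w, IsTest U w ∧ tsupport w ⊆ K ∧
      (∀ z, ‖w z - v z‖ ≤ ε) ∧ ∀ z, ‖fderiv ℝ w z - fderiv ℝ v z‖ ≤ ε := by
  obtain ⟨r, hr, hrU⟩ := IsCompact.exists_cthickening_subset_open hc hU hs
  refine ⟨Metric.cthickening r (tsupport v), hc.isCompact.cthickening, hrU,
    Metric.self_subset_cthickening _, fun ε hε => ?_⟩
  have hv0 : Continuous v := hv.continuous
  have hv1 : Continuous (fderiv ℝ v) := hv.continuous_fderiv one_ne_zero
  have hu0 : UniformContinuous v := HasCompactSupport.uniformContinuous_of_continuous hc hv0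
  have hu1 : UniformContinuous (fderiv ℝ v) :=
    HasCompactSupport.uniformContinuous_of_continuous (hc.fderiv ℝ) hv1
  obtain ⟨δ₀, hδ₀, h0⟩ := Metric.uniformContinuous_iff.mp hu0 ε hε
  obtain ⟨δ₁, hδ₁, h1⟩ := Metric.uniformContinuous_iff.mp hu1 ε hε
  set δ := min r (min δ₀ δ₁) with hδ
  have hδp : 0 < δ := lt_min hr (lt_min hδ₀ hδ₁)
  let φ : ContDiffBump (0 : Cn n) := ⟨δ / 2, δ, by positivity, by linarith⟩
  have hφout : φ.rOut = δ := rfl
  set w : Cn n → ℂ := MeasureTheory.convolution (φ.normed volume) v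
    (ContinuousLinearMap.lsmul ℝ ℝ) volume with hw
  have hws : ContDiff ℝ ∞ w :=
    HasCompactSupport.contDiff_convolution_left (ContinuousLinearMap.lsmul ℝ ℝ)
      φ.hasCompactSupport_normed φ.contDiff_normed hv0.locallyIntegrable
  have hsupp : tsupport w ⊆ Metric.cthickening r (tsupport v) := by
    refine closure_minimal ?_ Metric.isClosed_cthickening
    intro z hz
    have h2 := support_convolution_subset (L := ContinuousLinearMap.lsmul ℝ ℝ) hz
    obtain ⟨a, ha, b, hb, hab⟩ := h2
    rw [φ.support_normed_eq, mem_ball_zero_iff, hφout] at ha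
    refine Metric.mem_cthickening_of_dist_le z b r _ (subset_tsupport v hb) ?_
    rw [dist_eq_norm, ← hab]
    simp only [add_sub_cancel_right]
    exact ha.le.trans (min_le_left _ _)
  have hwd : ∀ z, fderiv ℝ w z = MeasureTheory.convolution (φ.normed volume) (fderiv ℝ v)
      (ContinuousLinearMap.lsmul ℝ ℝ) volume z := by
    intro z
    have h2 := (hc.hasFDerivAt_convolution_right (ContinuousLinearMap.lsmul ℝ ℝ)
      (φ.continuous_normed (μ := volume)).locallyIntegrable hv z (μ := volume)).fderiv
    rw [hw, h2]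
    rfl
  refine ⟨w, ⟨hws, ?_, hsupp.trans hrU⟩, hsupp, ?_, ?_⟩
  · exact HasCompactSupport.of_support_subset_isCompact (hc.isCompact.cthickening)
      ((subset_tsupport w).trans hsupp)
  · intro z
    rw [← dist_eq_norm]
    refine φ.dist_normed_convolution_le hv0.aestronglyMeasurable fun x hx => ?_
    refine (h0 ?_).le
    rw [Metric.mem_ball, hφout] at hx
    exact lt_of_lt_of_le hx ((min_le_right _ _).trans (min_le_left _ _))
  · intro z
    rw [hwd, ← dist_eq_norm]
    refine φ.dist_normed_convolution_le hv1.aestronglyMeasurable fun x hx => ?_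
    refine (h1 ?_).le
    rw [Metric.mem_ball, hφout] at hx
    exact lt_of_lt_of_le hx ((min_le_right _ _).trans (min_le_right _ _))

lemma B1_integrableOn {U K : Set (Cn n)} (hK : IsCompact K) (hKU : K ⊆ U) {F : Cn n → ℂ}
    (hF : LocL2 U F) : IntegrableOn F K := by
  have h1 := hF K hKU hK
  have : IsFiniteMeasure (volume.restrict K) :=
    ⟨by rw [Measure.restrict_apply_univ]; exact hK.measure_lt_top⟩
  exact h1.integrable (by norm_num)

lemma B1_integrable {U K : Set (Cn n)} (hK : IsCompact K) (hKU : K ⊆ U) {F : Cn n → ℂ}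
    (hF : LocL2 U F) {g : Cn n → ℂ} (hg : Continuous g) (hgK : ∀ z, z ∉ K → g z = 0) :
    Integrable (fun z => F z * g z) := by
  rw [← integrableOn_iff_integrable_of_support_subset (s := K)]
  · exact (B1_integrableOn hK hKU hF).mul_continuousOn hg.continuousOn hK
  · intro z hz
    by_contra h1
    apply hz
    simp only [hgK z h1, mul_zero]

lemma B1_dzb_zero {K : Set (Cn n)} {w : Cn n → ℂ} (hw : tsupport w ⊆ K) (z X : Cn n)
    (hz : z ∉ K) : dzb w z X = 0 := by
  have h8 : fderiv ℝ w z = 0 := by
    by_contra h9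
    exact hz (hw (support_fderiv_subset ℝ h9))
  unfold dzb
  rw [h8]
  simp

lemma B1_continuous_dzb {w : Cn n → ℂ} (hw : ContDiff ℝ 1 w) (X : Cn n) :
    Continuous fun z => dzb w z X := by
  have h1 : Continuous (fderiv ℝ w) := hw.continuous_fderiv one_ne_zero
  unfold dzb
  exact continuous_const.mul ((h1.clm_apply continuous_const).add
    (continuous_const.mul (h1.clm_apply continuous_const)))

lemma B1_norm_ee (j : Fin n) : ‖(ee j : Cn n)‖ ≤ 1 := by
  unfold ee
  rw [pi_norm_le_iff_of_nonneg zero_le_one]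
  intro i
  by_cases h : i = j
  · subst h; simp
  · rw [Pi.single_eq_of_ne h]; simp

lemma B1_bound {K : Set (Cn n)} (_hKm : MeasurableSet K) {F : Cn n → ℂ} (hF : IntegrableOn F K)
    {g : Cn n → ℂ} {ε : ℝ} (hg : ∀ z, ‖g z‖ ≤ ε) (hgK : ∀ z, z ∉ K → g z = 0) :
    ‖∫ z, F z * g z‖ ≤ ε * ∫ z in K, ‖F z‖ := by
  have h1 : ∫ z, F z * g z = ∫ z in K, F z * g z := by
    symm
    refine setIntegral_eq_integral_of_forall_compl_eq_zero fun z hz => ?_
    rw [hgK z hz, mul_zero]
  rw [h1, ← integral_const_mul]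
  refine norm_integral_le_of_norm_le (hF.norm.const_mul ε) ?_
  refine Filter.Eventually.of_forall fun z => ?_
  rw [norm_mul, mul_comm]
  exact mul_le_mul_of_nonneg_right (hg z) (norm_nonneg _)

/-- The same for a general first order identity `∫ ∑ F_j ∂̄_j v = ∫ G v`. -/
private theorem B1_div_test1 {U : Set (Cn n)} (hU : IsOpen U) {F : Cn n → Fin n → ℂ}
    {G : Cn n → ℂ} (hF : ∀ j, LocL2 U fun z => F z j) (hG : LocL2 U G)
    (h : ∀ v, IsTest U v → ∫ z, ∑ j, F z j * dzb v z (ee j) = ∫ z, G z * v z) {v : Cn n → ℂ}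
    (hv : ContDiff ℝ 1 v) (hc : HasCompactSupport v) (hs : tsupport v ⊆ U) :
    ∫ z, ∑ j, F z j * dzb v z (ee j) = ∫ z, G z * v z := by
  obtain ⟨K, hK, hKU, hvK, happ⟩ := exists_smooth_approx hU hv hc hs
  have hKm : MeasurableSet K := hK.measurableSet
  set C : ℝ := (∑ j, ∫ z in K, ‖F z j‖) + ∫ z in K, ‖G z‖ with hC
  have hC0 : 0 ≤ C := by
    refine add_nonneg (Finset.sum_nonneg fun j _ => integral_nonneg fun z => norm_nonneg _)
      (integral_nonneg fun z => norm_nonneg _)
  have key : ∀ ε > 0,
      ‖(∫ z, ∑ j, F z j * dzb v z (ee j)) - ∫ z, G z * v z‖ ≤ ε * C := by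
    intro ε hε
    obtain ⟨w, hw, hwK, h0, h1⟩ := happ ε hε
    have hw1 : ContDiff ℝ 1 w := hw.1.of_le (by norm_cast)
    have hwt := h w hw
    -- integrability
    have iF : ∀ (y : Cn n → ℂ), ContDiff ℝ 1 y → tsupport y ⊆ K → ∀ j,
        Integrable fun z => F z j * dzb y z (ee j) := fun y hy hyK j =>
      B1_integrable hK hKU (hF j) (B1_continuous_dzb hy _) fun z hz => B1_dzb_zero hyK z _ hz
    have iG : ∀ (y : Cn n → ℂ), ContDiff ℝ 1 y → tsupport y ⊆ K →
        Integrable fun z => G z * y z := fun y hy hyK =>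
      B1_integrable hK hKU hG hy.continuous fun z hz => by
        by_contra h2
        exact hz (hyK (subset_tsupport y h2))
    have e1 : (∫ z, ∑ j, F z j * dzb v z (ee j)) - ∫ z, G z * v z
        = (∑ j, ∫ z, F z j * (dzb v z (ee j) - dzb w z (ee j))) - ∫ z, G z * (v z - w z) := by
      have e2 : ∀ j, ∫ z, F z j * (dzb v z (ee j) - dzb w z (ee j))
          = (∫ z, F z j * dzb v z (ee j)) - ∫ z, F z j * dzb w z (ee j) := by
        intro j
        rw [← integral_sub (iF v hv hvK j) (iF w hw1 hwK j)]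
        refine integral_congr_ae (Filter.Eventually.of_forall fun z => ?_)
        simp only
        ring
      have e3 : ∫ z, G z * (v z - w z) = (∫ z, G z * v z) - ∫ z, G z * w z := by
        rw [← integral_sub (iG v hv hvK) (iG w hw1 hwK)]
        refine integral_congr_ae (Filter.Eventually.of_forall fun z => ?_)
        simp only
        ring
      rw [e3, Finset.sum_congr rfl fun j _ => e2 j, Finset.sum_sub_distrib, ← hwt,
        integral_finsetSum _ fun j _ => iF v hv hvK j,
        integral_finsetSum _ fun j _ => iF w hw1 hwK j]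
      ring
    rw [e1]
    refine (norm_sub_le _ _).trans ?_
    rw [hC, mul_add, Finset.mul_sum]
    refine add_le_add ((norm_sum_le _ _).trans (Finset.sum_le_sum fun j _ => ?_)) ?_
    · refine B1_bound hKm (B1_integrableOn hK hKU (hF j)) (fun z => ?_) fun z hz => ?_
      · have e4 : dzb v z (ee j) - dzb w z (ee j) = dzb (fun z => v z - w z) z (ee j) := by
          have h5 : HasFDerivAt (fun z => v z - w z) (fderiv ℝ v z - fderiv ℝ w z) z :=
            (hv.differentiable one_ne_zero z).hasFDerivAt.sub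
              (hw1.differentiable one_ne_zero z).hasFDerivAt
          unfold dzb
          rw [h5.fderiv]
          simp only [_root_.sub_apply]
          ring
        rw [e4]
        refine (norm_dzb_le _ z _).trans ?_
        have h5 : HasFDerivAt (fun z => v z - w z) (fderiv ℝ v z - fderiv ℝ w z) z :=
          (hv.differentiable one_ne_zero z).hasFDerivAt.sub
            (hw1.differentiable one_ne_zero z).hasFDerivAt
        rw [h5.fderiv, norm_sub_rev]
        calc ‖fderiv ℝ w z - fderiv ℝ v z‖ * ‖(ee j : Cn n)‖ ≤ ε * 1 :=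
              mul_le_mul (h1 z) (B1_norm_ee j) (norm_nonneg _) hε.le
          _ = ε := mul_one ε
      · rw [B1_dzb_zero hvK z _ hz, B1_dzb_zero hwK z _ hz, sub_zero]
    · refine B1_bound hKm (B1_integrableOn hK hKU hG) (fun z => ?_) fun z hz => ?_
      · rw [norm_sub_rev]; exact h0 z
      · have h2 : v z = 0 := by
          by_contra h2
          exact hz (hvK (subset_tsupport v h2))
        have h3 : w z = 0 := by
          by_contra h2
          exact hz (hwK (subset_tsupport w h2))
        rw [h2, h3, sub_zero]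
  rw [← sub_eq_zero, ← norm_eq_zero]
  refine le_antisymm ?_ (norm_nonneg _)
  refine le_of_forall_pos_le_add fun ε hε => ?_
  rw [zero_add]
  refine (key (ε / (C + 1)) (by positivity)).trans ?_
  rw [div_mul_eq_mul_div, div_le_iff₀ (by positivity)]
  nlinarith

private lemma B1_locL2_zero {U : Set (Cn n)} : LocL2 U fun _ => (0 : ℂ) := by
  intro K _ _
  exact MemLp.zero

private lemma B1_locL2_neg {U : Set (Cn n)} {u : Cn n → ℂ} (h : LocL2 U u) :
    LocL2 U fun z => - u z := fun K hK hK' => (h K hK hK').neg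

theorem WeakDbar.test1 {U : Set (Cn n)} (hU : IsOpen U) {u : Cn n → ℂ} {β : Cn n → Fin n → ℂ}
    (hu : LocL2 U u) (hβ : ∀ j, LocL2 U fun z => β z j) (h : WeakDbar U u β) {v : Cn n → ℂ}
    (hv : ContDiff ℝ 1 v) (hc : HasCompactSupport v) (hs : tsupport v ⊆ U) (j : Fin n) :
    ∫ z, u z * dzb v z (ee j) = - ∫ z, v z * β z j := by
  have h1 := B1_div_test1 hU (F := fun z k => if k = j then u z else 0) (G := fun z => - β z j)
    (fun k => by
      by_cases hk : k = j
      · simp only [hk, if_true]; exact hu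
      · simp only [hk, if_false]; exact B1_locL2_zero)
    (B1_locL2_neg (hβ j)) ?_ hv hc hs
  · have e1 : ∀ z, ∑ k, (if k = j then u z else 0) * dzb v z (ee k) = u z * dzb v z (ee j) := by
      intro z
      simp only [ite_mul, zero_mul, Finset.sum_ite_eq', Finset.mem_univ, if_true]
    simp only [e1] at h1
    rw [h1, ← integral_neg]
    refine integral_congr_ae (Filter.Eventually.of_forall fun z => ?_)
    simp only
    ring
  · intro w hw
    have e1 : ∀ z, ∑ k, (if k = j then u z else 0) * dzb w z (ee k) = u z * dzb w z (ee j) := by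
      intro z
      simp only [ite_mul, zero_mul, Finset.sum_ite_eq', Finset.mem_univ, if_true]
    simp only [e1]
    rw [h w hw j, ← integral_neg]
    refine integral_congr_ae (Filter.Eventually.of_forall fun z => ?_)
    simp only
    ring

theorem WeakClosed.test1 {U : Set (Cn n)} (hU : IsOpen U) {β : Cn n → Fin n → ℂ}
    (hβ : ∀ j, LocL2 U fun z => β z j) (h : WeakClosed U β) {v : Cn n → ℂ}
    (hv : ContDiff ℝ 1 v) (hc : HasCompactSupport v) (hs : tsupport v ⊆ U) (j k : Fin n) :
    ∫ z, β z j * dzb v z (ee k) = ∫ z, β z k * dzb v z (ee j) := by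
  by_cases hjk : j = k
  · rw [hjk]
  have e1 : ∀ (w : Cn n → ℂ) z, ∑ l, (if l = k then β z j else if l = j then - β z k else 0)
      * dzb w z (ee l) = β z j * dzb w z (ee k) - β z k * dzb w z (ee j) := by
    intro w z
    have e2 : ∀ l, (if l = k then β z j else if l = j then - β z k else 0) * dzb w z (ee l)
        = (if l = k then β z j * dzb w z (ee l) else 0)
          + (if l = j then - β z k * dzb w z (ee l) else 0) := by
      intro l
      by_cases h1 : l = k
      · subst h1
        rw [if_pos rfl, if_pos rfl, if_neg (fun h2 => hjk h2.symm), add_zero]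
      · by_cases h2 : l = j
        · subst h2
          rw [if_neg h1, if_pos rfl, if_neg h1, if_pos rfl, zero_add]
        · rw [if_neg h1, if_neg h2, if_neg h1, if_neg h2, zero_mul, add_zero]
    rw [Finset.sum_congr rfl fun l _ => e2 l, Finset.sum_add_distrib]
    simp only [Finset.sum_ite_eq', Finset.mem_univ, if_true]
    ring
  obtain ⟨K, hK, hKU, hvK, -⟩ := exists_smooth_approx hU hv hc hs
  have hint : ∀ (w : Cn n → ℂ) (K : Set (Cn n)), IsCompact K → K ⊆ U → ContDiff ℝ 1 w →
      tsupport w ⊆ K → ∀ l m, Integrable fun z => β z l * dzb w z (ee m) :=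
    fun w K hK hKU hw hwK l m =>
      B1_integrable hK hKU (hβ l) (B1_continuous_dzb hw _) fun z hz => B1_dzb_zero hwK z _ hz
  have h1 := B1_div_test1 hU
    (F := fun z l => if l = k then β z j else if l = j then - β z k else 0) (G := fun _ => 0)
    (fun l => by
      by_cases h1 : l = k
      · simp only [h1, if_true]; exact hβ j
      · by_cases h2 : l = j
        · simp only [h2, if_true, hjk, if_false]; exact B1_locL2_neg (hβ k)
        · simp only [h1, h2, if_false]; exact B1_locL2_zero)
    B1_locL2_zero ?_ hv hc hs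
  · simp only [e1, zero_mul, integral_zero] at h1
    rw [integral_sub (hint v K hK hKU hv hvK j k) (hint v K hK hKU hv hvK k j)] at h1
    exact sub_eq_zero.mp h1
  · intro w hw
    simp only [e1, zero_mul, integral_zero]
    have hw1 : ContDiff ℝ 1 w := hw.1.of_le (by norm_cast)
    rw [integral_sub (hint w _ hw.2.1 hw.2.2 hw1 subset_rfl j k)
      (hint w _ hw.2.1 hw.2.2 hw1 subset_rfl k j), h w hw j k, sub_self]

/-- The same for a general first order identity `∫ ∑ F_j ∂̄_j v = ∫ G v`. -/
theorem div_test1 {U : Set (Cn n)} (hU : IsOpen U) {F : Cn n → Fin n → ℂ} {G : Cn n → ℂ}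
    (hF : ∀ j, LocL2 U fun z => F z j) (hG : LocL2 U G)
    (h : ∀ v, IsTest U v → ∫ z, ∑ j, F z j * dzb v z (ee j) = ∫ z, G z * v z) {v : Cn n → ℂ}
    (hv : ContDiff ℝ 1 v) (hc : HasCompactSupport v) (hs : tsupport v ⊆ U) :
    ∫ z, ∑ j, F z j * dzb v z (ee j) = ∫ z, G z * v z :=
  B1_div_test1 hU hF hG h hv hc hs

end HankelSPC
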