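import Pool.Agent.Lib.MP_e1cf54_an.Defs

/-! Row B10a: mean value properties -/

open MeasureTheory Set Filter
open scoped ENNReal NNReal Topology ContDiff

namespace HankelSPC

variable {n : ℕ}

/-- rotations preserve the volume -/
lemma B10a_mp (θ : ℝ) :
    MeasurePreserving (fun X : Cn n => Complex.exp (θ * Complex.I) • X) volume volume := by
  have h1 : MeasurePreserving (fun w : ℂ => Complex.exp (θ * Complex.I) * w) volume volume := by
    have h2 := (rotation (Circle.exp θ)).measurePreserving
    have h3 : (⇑(rotation (Circle.exp θ)) : ℂ → ℂ) = fun w => Complex.exp (θ * Complex.I) * w := by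
      funext w
      rw [rotation_apply, Circle.coe_exp]
    rw [h3] at h2
    exact h2
  exact volume_preserving_pi (fun (_ : Fin n) => h1)

lemma B10a_exp_norm (θ : ℝ) : ‖Complex.exp (θ * Complex.I)‖ = 1 := Complex.norm_exp_ofReal_mul_I θ

lemma B10a_int {E : Type*} [NormedAddCommGroup E] [NormedSpace ℝ E] (θ : ℝ) (F : Cn n → E)
    (hF : StronglyMeasurable F) :
    ∫ X, F (Complex.exp (θ * Complex.I) • X) = ∫ X, F X := by
  have h := B10a_mp (n := n) θ
  have h2 := integral_map (μ := (volume : Measure (Cn n))) h.measurable.aemeasurable (f := F)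
    hF.aestronglyMeasurable
  rw [h.map_eq] at h2
  exact h2.symm

lemma B10a_core (F G : Cn n → ℂ) (hF : Measurable F) (hi : Integrable F volume)
    (hG : ∀ X, ∫ θ in (0:ℝ)..(2 * Real.pi), F (Complex.exp (θ * Complex.I) • X) = 2 * Real.pi * G X) :
    ∫ X, F X = ∫ X, G X := by
  have hpi : (0:ℝ) ≤ 2 * Real.pi := by positivity
  have hmeas : Measurable fun p : ℝ × Cn n => F (Complex.exp (p.1 * Complex.I) • p.2) := by
    refine hF.comp ?_
    have : Continuous fun p : ℝ × Cn n => Complex.exp (p.1 * Complex.I) • p.2 := by fun_prop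
    exact this.measurable
  have hint : Integrable (fun p : ℝ × Cn n => F (Complex.exp (p.1 * Complex.I) • p.2))
      ((volume.restrict (Ioc (0:ℝ) (2 * Real.pi))).prod (volume : Measure (Cn n))) := by
    rw [integrable_prod_iff hmeas.aestronglyMeasurable]
    constructor
    · refine Filter.Eventually.of_forall fun θ => ?_
      exact (B10a_mp θ).integrable_comp_of_integrable hi
    · have e : (fun θ : ℝ => ∫ X : Cn n, ‖F (Complex.exp (θ * Complex.I) • X)‖) = fun _ => ∫ X, ‖F X‖ := by
        funext θ
        exact B10a_int θ (fun X => ‖F X‖) hF.norm.stronglyMeasurable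
      show Integrable (fun θ : ℝ => ∫ X : Cn n, ‖F (Complex.exp (θ * Complex.I) • X)‖) _
      rw [e]
      exact integrable_const _
  have hswap := integral_integral_swap (f := fun (θ : ℝ) (X : Cn n) => F (Complex.exp (θ * Complex.I) • X)) hint
  have e1 : ∀ θ : ℝ, ∫ X : Cn n, F (Complex.exp (θ * Complex.I) • X) = ∫ X, F X := fun θ =>
    B10a_int θ F hF.stronglyMeasurable
  have e2 : ∀ X : Cn n, ∫ θ in Ioc (0:ℝ) (2 * Real.pi), F (Complex.exp (θ * Complex.I) • X) = 2 * Real.pi * G X := by
    intro X
    rw [← hG X, intervalIntegral.integral_of_le hpi]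
  simp only [e1, e2] at hswap
  rw [integral_const, integral_const_mul] at hswap
  have hvol : (volume.restrict (Ioc (0:ℝ) (2 * Real.pi))).real univ = 2 * Real.pi := by
    rw [measureReal_restrict_apply_univ]
    simp [Real.volume_real_Ioc_of_le hpi]
  rw [hvol, Complex.real_smul] at hswap
  have h2pi : (2 * (Real.pi : ℂ)) ≠ 0 := by
    simp [Real.pi_ne_zero]
  push_cast at hswap
  exact mul_left_cancel₀ h2pi hswap

/-- circle average of a holomorphic function along a complex line -/
lemma B10a_circle (φ : ℂ → ℂ) (hφ : DifferentiableOn ℂ φ (Metric.closedBall 0 1)) :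
    ∫ θ in (0:ℝ)..(2 * Real.pi), φ (Complex.exp (θ * Complex.I)) = 2 * Real.pi * φ 0 := by
  have hd : DiffContOnCl ℂ φ (Metric.ball 0 |1|) := by
    rw [abs_one]
    apply DifferentiableOn.diffContOnCl
    rw [closure_ball (0:ℂ) one_ne_zero]
    exact hφ
  have h := hd.circleAverage
  rw [Real.circleAverage_def] at h
  have e : ∀ θ : ℝ, circleMap 0 1 θ = Complex.exp (θ * Complex.I) := by
    intro θ
    simp [circleMap]
  simp only [e] at h
  have h2pi : (2 * Real.pi) ≠ 0 := by positivity
  rw [inv_smul_eq_iff₀ h2pi] at h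
  rw [h, Complex.real_smul]
  push_cast
  ring

/-- Mean value property of holomorphic functions on a balanced (circled) set.
`V = z + B`, `B` balanced (`Balanced ℂ B`), bounded, measurable. For `X ∈ B` the function
`λ ↦ g (z + λX)` is holomorphic near the closed unit disc, so its mean over the circle is `g z`;
integrate over `X ∈ B` and use Fubini and the invariance of the volume under `X ↦ e^{iθ}X`. -/
theorem mean_value {B : Set (Cn n)} (hB : Balanced ℂ B) (hBo : IsOpen B) (hBf : volume B ≠ ⊤)
    {g : Cn n → ℂ} {z : Cn n} (hg : DifferentiableOn ℂ g ((fun X => z + X) '' B))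
    (hi : IntegrableOn (fun X => g (z + X)) B) :
    ∫ X in B, g (z + X) = (volume B).toReal * g z := by
  classical
  have hcont : ContinuousOn (fun X => g (z + X)) B := by
    have : ContinuousOn g ((fun X => z + X) '' B) := hg.continuousOn
    exact this.comp (by fun_prop) (mapsTo_image _ _)
  have hmeas : Measurable (B.indicator (fun X => g (z + X))) := by
    rw [← Set.piecewise_eq_indicator]
    exact hcont.measurable_piecewise continuousOn_const hBo.measurableSet
  have hint : Integrable (B.indicator (fun X => g (z + X))) volume :=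
    (integrable_indicator_iff hBo.measurableSet).mpr hi
  have hmem : ∀ (c : ℂ), ‖c‖ ≤ 1 → ∀ X ∈ B, c • X ∈ B := fun c hc X hX => hB c hc (Set.smul_mem_smul_set hX)
  have key := B10a_core (B.indicator (fun X => g (z + X))) (B.indicator (fun _ => g z)) hmeas hint ?_
  · rw [integral_indicator hBo.measurableSet, integral_indicator hBo.measurableSet] at key
    rw [key, setIntegral_const, Complex.real_smul]
    rfl
  · intro X
    by_cases hX : X ∈ B
    · have e1 : ∀ θ : ℝ, B.indicator (fun X => g (z + X)) (Complex.exp (θ * Complex.I) • X)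
          = g (z + Complex.exp (θ * Complex.I) • X) := by
        intro θ
        rw [Set.indicator_of_mem (hmem _ (B10a_exp_norm θ).le X hX)]
      simp only [e1]
      rw [Set.indicator_of_mem hX]
      have h := B10a_circle (fun c => g (z + c • X)) ?_
      · simpa using h
      · refine hg.comp (by fun_prop) ?_
        intro c hc
        exact ⟨c • X, hmem c (by simpa using hc) X hX, rfl⟩
    · have e1 : ∀ θ : ℝ, B.indicator (fun X => g (z + X)) (Complex.exp (θ * Complex.I) • X) = 0 := by
        intro θ
        rw [Set.indicator_of_notMem]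
        intro hmem'
        apply hX
        have := hmem (Complex.exp (θ * Complex.I))⁻¹ (by rw [norm_inv, B10a_exp_norm]; norm_num) _ hmem'
        rwa [smul_smul, inv_mul_cancel₀ (Complex.exp_ne_zero _), one_smul] at this
      simp only [e1]
      rw [Set.indicator_of_notMem hX]
      simp

/-- Consequence: `|g(z)|² vol(B) ≤ ∫_B |g(z+X)|² dX`. -/
theorem sq_mean_value {B : Set (Cn n)} (hB : Balanced ℂ B) (hBo : IsOpen B)
    (hBf : volume B ≠ ⊤) {g : Cn n → ℂ} {z : Cn n}
    (hg : DifferentiableOn ℂ g ((fun X => z + X) '' B)) :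
    ENNReal.ofReal (‖g z‖ ^ 2) * volume B ≤ ∫⁻ X in B, ENNReal.ofReal (‖g (z + X)‖ ^ 2) := by
  by_cases hfin : ∫⁻ X in B, ENNReal.ofReal (‖g (z + X)‖ ^ 2) = ⊤
  · rw [hfin]; exact le_top
  have hcont : ContinuousOn (fun X => g (z + X)) B := by
    have : ContinuousOn g ((fun X => z + X) '' B) := hg.continuousOn
    exact this.comp (by fun_prop) (mapsTo_image _ _)
  have hi : IntegrableOn (fun X => (g (z + X)) ^ 2) B := by
    refine ⟨(hcont.pow 2).aestronglyMeasurable hBo.measurableSet, ?_⟩
    rw [hasFiniteIntegral_iff_norm]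
    have e : ∀ X, ENNReal.ofReal ‖g (z + X) ^ 2‖ = ENNReal.ofReal (‖g (z + X)‖ ^ 2) := by
      intro X
      rw [norm_pow]
    simp only [e]
    exact lt_top_iff_ne_top.mpr hfin
  have h := mean_value (g := fun w => g w ^ 2) hB hBo hBf (hg.pow 2) hi
  have h1 : ‖∫ X in B, g (z + X) ^ 2‖ ≤ ∫ X in B, ‖g (z + X)‖ ^ 2 := by
    refine (norm_integral_le_integral_norm _).trans_eq ?_
    simp only [norm_pow]
  have hnn : 0 ≤ᵐ[volume.restrict B] fun X => ‖g (z + X)‖ ^ 2 := Filter.Eventually.of_forall fun X => by positivity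
  have hin : Integrable (fun X => ‖g (z + X)‖ ^ 2) (volume.restrict B) := by
    have := hi.norm
    simpa only [norm_pow] using this
  rw [← ofReal_integral_eq_lintegral_ofReal hin hnn]
  rw [h, norm_mul, norm_pow] at h1
  have h2 : ‖((volume B).toReal : ℂ)‖ = (volume B).toReal := by
    rw [Complex.norm_real, Real.norm_of_nonneg ENNReal.toReal_nonneg]
  rw [h2] at h1
  calc ENNReal.ofReal (‖g z‖ ^ 2) * volume B
      = ENNReal.ofReal (‖g z‖ ^ 2) * ENNReal.ofReal (volume B).toReal := by rw [ENNReal.ofReal_toReal hBf]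
    _ = ENNReal.ofReal ((volume B).toReal * ‖g z‖ ^ 2) := by
        rw [← ENNReal.ofReal_mul (by positivity), mul_comm]
    _ ≤ _ := ENNReal.ofReal_le_ofReal h1

/-- Weighted version with a circled continuous density `w` (used for mollifiers):
`∫ g(z+X) w(X) dX = g z ∫ w`. -/
theorem mean_value_weight {R : ℝ} {w : Cn n → ℝ} (hw : Continuous w)
    (hsupp : ∀ X, R ≤ ‖X‖ → w X = 0) (hcirc : ∀ (c : ℂ) X, ‖c‖ = 1 → w (c • X) = w X)
    {g : Cn n → ℂ} {z : Cn n}
    (hg : ∃ U, IsOpen U ∧ Metric.closedBall z R ⊆ U ∧ DifferentiableOn ℂ g U) :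
    ∫ X, g (z + X) * w X = g z * ∫ X, (w X : ℂ) := by
  obtain ⟨U, hU, hUR, hgU⟩ := hg
  have hcont : Continuous (fun X => g (z + X) * (w X : ℂ)) := by
    rw [continuous_iff_continuousAt]
    intro X
    by_cases hX : z + X ∈ U
    · have h1 : ContinuousAt g (z + X) := (hgU.continuousOn.continuousAt (hU.mem_nhds hX))
      have h2 : ContinuousAt (fun X => g (z + X)) X :=
        ContinuousAt.comp (f := fun X => z + X) (g := g) h1 (by fun_prop)
      exact h2.mul (Complex.continuous_ofReal.comp hw).continuousAt
    · have hlt : R < ‖X‖ := by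
        by_contra hcon
        apply hX
        apply hUR
        rw [mem_closedBall_iff_norm]
        simpa using hcon
      have hev : (fun X => g (z + X) * (w X : ℂ)) =ᶠ[𝓝 X] fun _ => 0 := by
        have : ∀ᶠ Y in 𝓝 X, R < ‖Y‖ := (continuous_norm.tendsto X).eventually (lt_mem_nhds hlt)
        filter_upwards [this] with Y hY
        rw [hsupp Y hY.le]
        simp
      exact (continuousAt_const.congr hev.symm)
  have hcs : HasCompactSupport (fun X => g (z + X) * (w X : ℂ)) := by
    refine HasCompactSupport.of_support_subset_isCompact (isCompact_closedBall (0 : Cn n) R) ?_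
    intro X hX
    rw [mem_closedBall_zero_iff]
    by_contra hcon
    apply hX
    show g (z + X) * (w X : ℂ) = 0
    rw [hsupp X (not_le.mp hcon).le]
    simp
  have hint : Integrable (fun X => g (z + X) * (w X : ℂ)) volume := hcont.integrable_of_hasCompactSupport hcs
  have key := B10a_core (fun X => g (z + X) * (w X : ℂ)) (fun X => g z * (w X : ℂ)) hcont.measurable hint ?_
  · rw [key, integral_const_mul]
  · intro X
    simp only [hcirc _ X (B10a_exp_norm _)]
    rw [intervalIntegral.integral_mul_const]
    by_cases hX : R ≤ ‖X‖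
    · rw [hsupp X hX]
      simp
    · have h := B10a_circle (fun c => g (z + c • X)) ?_
      · simp only [zero_smul, add_zero] at h
        rw [h]
        ring
      · refine hgU.comp (by fun_prop) ?_
        intro c hc
        apply hUR
        rw [mem_closedBall_iff_norm]
        have hc1 : ‖c‖ ≤ 1 := by simpa using hc
        have : ‖z + c • X - z‖ = ‖c‖ * ‖X‖ := by
          rw [add_sub_cancel_left, norm_smul]
        rw [this]
        calc ‖c‖ * ‖X‖ ≤ 1 * ‖X‖ := mul_le_mul_of_nonneg_right hc1 (norm_nonneg _)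
          _ ≤ R := by rw [one_mul]; exact (not_le.mp hX).le

end HankelSPC
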