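import Pool.Agent.Lib.MP_e1cf54_an.B1

/-! Row B2a: LocL2 and linear properties of weak dbar -/

open MeasureTheory Set
open scoped ENNReal NNReal Topology ContDiff

namespace HankelSPC

variable {n : ℕ}

lemma LocL2.mono {U V : Set (Cn n)} {u : Cn n → ℂ} (h : LocL2 U u) (hVU : V ⊆ U) : LocL2 V u :=
  fun K hK hKc => h K (hK.trans hVU) hKc

lemma LocL2.add {U : Set (Cn n)} {u v : Cn n → ℂ} (h : LocL2 U u) (h' : LocL2 U v) :
    LocL2 U fun z => u z + v z :=
  fun K hK hKc => (h K hK hKc).add (h' K hK hKc)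

lemma LocL2.mul_continuousOn {U : Set (Cn n)} {u a : Cn n → ℂ} (h : LocL2 U u)
    (ha : ContinuousOn a U) (hU : IsOpen U) : LocL2 U fun z => a z * u z := by
  intro K hK hKc
  obtain ⟨C, hC⟩ := hKc.exists_bound_of_continuousOn (ha.mono hK)
  have hm : AEStronglyMeasurable a (volume.restrict K) :=
    (ha.mono hK).aestronglyMeasurable_of_isCompact hKc hKc.measurableSet
  refine MemLp.of_le_mul (c := C) (h K hK hKc) (hm.mul (h K hK hKc).aestronglyMeasurable) ?_
  rw [ae_restrict_iff' hKc.measurableSet]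
  refine Filter.Eventually.of_forall fun z hz => ?_
  show ‖a z * u z‖ ≤ C * ‖u z‖
  rw [norm_mul]
  exact mul_le_mul_of_nonneg_right (hC z hz) (norm_nonneg _)

lemma locL2_of_continuousOn {U : Set (Cn n)} {u : Cn n → ℂ} (hU : IsOpen U)
    (hu : ContinuousOn u U) : LocL2 U u := by
  intro K hK hKc
  obtain ⟨C, hC⟩ := hKc.exists_bound_of_continuousOn (hu.mono hK)
  have hm : AEStronglyMeasurable u (volume.restrict K) :=
    (hu.mono hK).aestronglyMeasurable_of_isCompact hKc hKc.measurableSet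
  have : IsFiniteMeasure ((volume : Measure (Cn n)).restrict K) :=
    ⟨by rw [Measure.restrict_apply_univ]; exact hKc.measure_lt_top⟩
  refine MemLp.of_bound hm C ?_
  rw [ae_restrict_iff' hKc.measurableSet]
  exact Filter.Eventually.of_forall fun z hz => hC z hz

/-- Weighted square integrability with a continuous weight implies local square integrability. -/
lemma locL2_of_lintegral {U : Set (Cn n)} {u : Cn n → ℂ} {φ : Cn n → ℝ} (hU : IsOpen U)
    (hφ : ContinuousOn φ U) (hu : AEStronglyMeasurable u (volume.restrict U))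
    (h : ∫⁻ z in U, ENNReal.ofReal (‖u z‖ ^ 2 * Real.exp (-φ z)) ≠ ⊤) : LocL2 U u := by
  intro K hK hKc
  obtain ⟨M, hM⟩ := hKc.exists_bound_of_continuousOn (hφ.mono hK)
  have hm : AEStronglyMeasurable u (volume.restrict K) := hu.mono_measure (Measure.restrict_mono hK le_rfl)
  rw [memLp_two_iff_integrable_sq_norm hm]
  refine ⟨hm.norm.pow 2, ?_⟩
  rw [hasFiniteIntegral_iff_norm]
  have h1 : ∫⁻ z in K, ENNReal.ofReal ‖‖u z‖ ^ 2‖ ≤
      ∫⁻ z in K, ENNReal.ofReal (Real.exp M) * ENNReal.ofReal (‖u z‖ ^ 2 * Real.exp (-φ z)) := by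
    refine setLIntegral_mono' hKc.measurableSet fun z hz => ?_
    rw [← ENNReal.ofReal_mul (Real.exp_pos _).le]
    refine ENNReal.ofReal_le_ofReal ?_
    rw [Real.norm_of_nonneg (by positivity)]
    have h2 : φ z ≤ M := (le_abs_self _).trans (hM z hz)
    have h3 : 1 ≤ Real.exp M * Real.exp (-φ z) := by
      rw [← Real.exp_add]
      exact Real.one_le_exp (by linarith)
    calc ‖u z‖ ^ 2 = ‖u z‖ ^ 2 * 1 := (mul_one _).symm
      _ ≤ ‖u z‖ ^ 2 * (Real.exp M * Real.exp (-φ z)) := mul_le_mul_of_nonneg_left h3 (by positivity)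
      _ = _ := by ring
  refine h1.trans_lt ?_
  rw [lintegral_const_mul' _ _ ENNReal.ofReal_ne_top]
  refine ENNReal.mul_lt_top ENNReal.ofReal_lt_top ?_
  exact (lintegral_mono_set hK).trans_lt (lt_top_iff_ne_top.mpr h)

lemma B2a_test_mono {U V : Set (Cn n)} {φ : Cn n → ℂ} (h : IsTest V φ) (hVU : V ⊆ U) : IsTest U φ :=
  ⟨h.1, h.2.1, h.2.2.trans hVU⟩

lemma B2a_fderiv_zero {φ : Cn n → ℂ} {z : Cn n} (hz : z ∉ tsupport φ) : fderiv ℝ φ z = 0 := by
  have h1 : φ =ᶠ[𝓝 z] fun _ => 0 := notMem_tsupport_iff_eventuallyEq.mp hz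
  rw [h1.fderiv_eq]
  simp

lemma B2a_dzb_zero {φ : Cn n → ℂ} {z : Cn n} (hz : z ∉ tsupport φ) (X : Cn n) : dzb φ z X = 0 := by
  unfold dzb
  rw [B2a_fderiv_zero hz]
  simp

lemma B2a_test_dzb {U : Set (Cn n)} {φ : Cn n → ℂ} (h : IsTest U φ) (X : Cn n) :
    IsTest U (fun z => dzb φ z X) := by
  have hsub : tsupport (fun z => dzb φ z X) ⊆ tsupport φ := by
    refine closure_minimal ?_ (isClosed_tsupport φ)
    intro z hz
    by_contra hcon
    exact hz (B2a_dzb_zero hcon X)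
  refine ⟨?_, ?_, hsub.trans h.2.2⟩
  · have h1 : ContDiff ℝ ∞ (fderiv ℝ φ) := h.1.fderiv_right (by simp)
    unfold dzb
    exact contDiff_const.mul ((h1.clm_apply contDiff_const).add
      (contDiff_const.mul (h1.clm_apply contDiff_const)))
  · exact h.2.1.of_isClosed_subset (isClosed_tsupport _) hsub

lemma B2a_integrable {U : Set (Cn n)} {u : Cn n → ℂ} (hu : LocL2 U u) {ψ : Cn n → ℂ} (h : IsTest U ψ) :
    Integrable (fun z => u z * ψ z) := by
  have hK : IsCompact (tsupport ψ) := h.2.1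
  have : IsFiniteMeasure ((volume : Measure (Cn n)).restrict (tsupport ψ)) :=
    ⟨by rw [Measure.restrict_apply_univ]; exact hK.measure_lt_top⟩
  have h1 : IntegrableOn u (tsupport ψ) := (hu _ h.2.2 hK).integrable one_le_two
  have h2 : IntegrableOn (fun z => u z * ψ z) (tsupport ψ) :=
    h1.mul_continuousOn h.1.continuous.continuousOn hK
  refine (integrableOn_iff_integrable_of_support_subset ?_).mp h2
  intro z hz
  by_contra hcon
  apply hz
  show u z * ψ z = 0
  rw [image_eq_zero_of_notMem_tsupport hcon, mul_zero]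

lemma B2a_symm {φ : Cn n → ℂ} (h : ContDiff ℝ ∞ φ) (z X Y : Cn n) :
    dzb (fun w => dzb φ w X) z Y = dzb (fun w => dzb φ w Y) z X := by
  have h1 : ContDiff ℝ ∞ (fderiv ℝ φ) := h.fderiv_right (by simp)
  have hd : DifferentiableAt ℝ (fderiv ℝ φ) z := (h1.differentiable (by simp)) z
  have hsymm : ∀ A B : Cn n, fderiv ℝ (fderiv ℝ φ) z A B = fderiv ℝ (fderiv ℝ φ) z B A := by
    intro A B
    exact (h.contDiffAt.isSymmSndFDerivAt
      (by
        rw [minSmoothness_of_isRCLikeNormedField]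
        exact WithTop.coe_le_coe.mpr (le_top : (2 : ℕ∞) ≤ ⊤))) A B
  have hf : ∀ A B : Cn n, fderiv ℝ (fun w => dzb φ w A) z B
      = (1 / 2) * (fderiv ℝ (fderiv ℝ φ) z B A + Complex.I * fderiv ℝ (fderiv ℝ φ) z B (Complex.I • A)) := by
    intro A B
    have e1 : HasFDerivAt (fun w => fderiv ℝ φ w A)
        ((ContinuousLinearMap.apply ℝ ℂ A).comp (fderiv ℝ (fderiv ℝ φ) z)) z :=
      (ContinuousLinearMap.apply ℝ ℂ A).hasFDerivAt.comp z hd.hasFDerivAt
    have e2 : HasFDerivAt (fun w => fderiv ℝ φ w (Complex.I • A))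
        ((ContinuousLinearMap.apply ℝ ℂ (Complex.I • A)).comp (fderiv ℝ (fderiv ℝ φ) z)) z :=
      (ContinuousLinearMap.apply ℝ ℂ (Complex.I • A)).hasFDerivAt.comp z hd.hasFDerivAt
    have e3 := (e1.add (e2.const_mul Complex.I)).const_mul (1 / 2 : ℂ)
    have e4 : fderiv ℝ (fun w => dzb φ w A) z = _ := e3.fderiv
    rw [e4]
    simp
    ring
  unfold dzb at hf ⊢
  rw [hf, hf, hf, hf]
  rw [hsymm Y X, hsymm Y (Complex.I • X), hsymm (Complex.I • Y) X, hsymm (Complex.I • Y) (Complex.I • X)]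
  ring

lemma WeakDbar.mono {U V : Set (Cn n)} {u : Cn n → ℂ} {β : Cn n → Fin n → ℂ}
    (h : WeakDbar U u β) (hVU : V ⊆ U) : WeakDbar V u β :=
  fun φ hφ j => h φ (B2a_test_mono hφ hVU) j

lemma WeakDbar.congr {U : Set (Cn n)} (hU : IsOpen U) {u u' : Cn n → ℂ}
    {β β' : Cn n → Fin n → ℂ} (h : WeakDbar U u β) (hu : u =ᵐ[volume.restrict U] u')
    (hβ : ∀ j, (fun z => β z j) =ᵐ[volume.restrict U] fun z => β' z j) : WeakDbar U u' β' := by
  intro φ hφ j
  have h1 : ∫ z, u z * dzb φ z (ee j) = ∫ z, u' z * dzb φ z (ee j) := by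
    refine integral_congr_ae ?_
    filter_upwards [(ae_restrict_iff' hU.measurableSet).mp hu] with z hz
    by_cases hzU : z ∈ U
    · rw [hz hzU]
    · rw [B2a_dzb_zero (fun hc => hzU (hφ.2.2 hc))]
      simp
  have h2 : ∫ z, φ z * β z j = ∫ z, φ z * β' z j := by
    refine integral_congr_ae ?_
    filter_upwards [(ae_restrict_iff' hU.measurableSet).mp (hβ j)] with z hz
    by_cases hzU : z ∈ U
    · rw [hz hzU]
    · rw [image_eq_zero_of_notMem_tsupport (fun hc => hzU (hφ.2.2 hc))]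
      simp
  rw [← h1, ← h2]
  exact h φ hφ j

lemma WeakDbar.add {U : Set (Cn n)} (hU : IsOpen U) {u v : Cn n → ℂ} {β γ : Cn n → Fin n → ℂ}
    (hu : LocL2 U u) (hv : LocL2 U v) (hβ : ∀ j, LocL2 U fun z => β z j)
    (hγ : ∀ j, LocL2 U fun z => γ z j) (h : WeakDbar U u β) (h' : WeakDbar U v γ) :
    WeakDbar U (fun z => u z + v z) (fun z j => β z j + γ z j) := by
  intro φ hφ j
  have e1 : ∀ z, (u z + v z) * dzb φ z (ee j) = u z * dzb φ z (ee j) + v z * dzb φ z (ee j) := fun z => by ring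
  have e2 : ∀ z, φ z * (β z j + γ z j) = β z j * φ z + γ z j * φ z := fun z => by ring
  simp only [e1, e2]
  rw [integral_add (B2a_integrable hu (B2a_test_dzb hφ _)) (B2a_integrable hv (B2a_test_dzb hφ _)),
    integral_add (B2a_integrable (hβ j) hφ) (B2a_integrable (hγ j) hφ), h φ hφ j, h' φ hφ j]
  simp only [mul_comm (φ _)]
  ring

lemma WeakDbar.sub {U : Set (Cn n)} (hU : IsOpen U) {u v : Cn n → ℂ} {β γ : Cn n → Fin n → ℂ}
    (hu : LocL2 U u) (hv : LocL2 U v) (hβ : ∀ j, LocL2 U fun z => β z j)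
    (hγ : ∀ j, LocL2 U fun z => γ z j) (h : WeakDbar U u β) (h' : WeakDbar U v γ) :
    WeakDbar U (fun z => u z - v z) (fun z j => β z j - γ z j) := by
  intro φ hφ j
  have e1 : ∀ z, (u z - v z) * dzb φ z (ee j) = u z * dzb φ z (ee j) - v z * dzb φ z (ee j) := fun z => by ring
  have e2 : ∀ z, φ z * (β z j - γ z j) = β z j * φ z - γ z j * φ z := fun z => by ring
  simp only [e1, e2]
  rw [integral_sub (B2a_integrable hu (B2a_test_dzb hφ _)) (B2a_integrable hv (B2a_test_dzb hφ _)),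
    integral_sub (B2a_integrable (hβ j) hφ) (B2a_integrable (hγ j) hφ), h φ hφ j, h' φ hφ j]
  simp only [mul_comm (φ _)]
  ring

lemma WeakDbar.const_mul {U : Set (Cn n)} {u : Cn n → ℂ} {β : Cn n → Fin n → ℂ} (c : ℂ)
    (h : WeakDbar U u β) : WeakDbar U (fun z => c * u z) (fun z j => c * β z j) := by
  intro φ hφ j
  have e1 : ∀ z, c * u z * dzb φ z (ee j) = c * (u z * dzb φ z (ee j)) := fun z => by ring
  have e2 : ∀ z, φ z * (c * β z j) = c * (φ z * β z j) := fun z => by ring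
  simp only [e1, e2]
  rw [integral_const_mul, integral_const_mul, h φ hφ j]
  ring

/-- `∂̄∂̄ = 0`. -/
theorem WeakDbar.closed {U : Set (Cn n)} {u : Cn n → ℂ} {β : Cn n → Fin n → ℂ}
    (h : WeakDbar U u β) : WeakClosed U β := by
  intro φ hφ j k
  have h1 := h _ (B2a_test_dzb hφ (ee k)) j
  have h2 := h _ (B2a_test_dzb hφ (ee j)) k
  have e : ∀ z, dzb (fun w => dzb φ w (ee k)) z (ee j) = dzb (fun w => dzb φ w (ee j)) z (ee k) :=
    fun z => B2a_symm hφ.1 z _ _
  simp only [e] at h1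
  rw [h1] at h2
  simp only [mul_comm (β _ _)]
  exact neg_injective h2

lemma WeakClosed.mono {U V : Set (Cn n)} {β : Cn n → Fin n → ℂ}
    (h : WeakClosed U β) (hVU : V ⊆ U) : WeakClosed V β :=
  fun φ hφ j k => h φ (B2a_test_mono hφ hVU) j k

end HankelSPC
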