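import Pool.Agent.Lib.MP_e1cf54_an.B10a
import Pool.Agent.Lib.MP_e1cf54_an.B2a

/-! Row B10b: Weyl lemma -/

open MeasureTheory Set Filter
open scoped ENNReal NNReal Topology ContDiff

namespace HankelSPC

variable {n : ℕ}

/-- The convolution used in the proof. -/
private noncomputable def B10b_cv (f g : Cn n → ℂ) (z : Cn n) : ℂ :=
  MeasureTheory.convolution f g (ContinuousLinearMap.mul ℝ ℂ) volume z

private lemma B10b_cv_eq (f g : Cn n → ℂ) (z : Cn n) :
    B10b_cv f g z = ∫ t, f t * g (z - t) := rfl

private lemma B10b_cv_comm (f g : Cn n → ℂ) (z : Cn n) :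
    B10b_cv f g z = B10b_cv g f z := by
  rw [B10b_cv_eq, B10b_cv_eq, ← integral_sub_left_eq_self (fun t => g t * f (z - t)) volume z]
  refine integral_congr_ae (Eventually.of_forall fun t => ?_)
  simp only [sub_sub_cancel]
  ring

private lemma B10b_int {f g : Cn n → ℂ} (hf : LocallyIntegrable f volume)
    (hcg : HasCompactSupport g) (hg : Continuous g) (z : Cn n) :
    Integrable (fun t => f t * g (z - t)) := by
  have := hcg.convolutionExists_right (ContinuousLinearMap.mul ℝ ℂ) hf hg z
  exact this

private lemma B10b_continuous {f g : Cn n → ℂ} (hf : LocallyIntegrable f volume)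
    (hcg : HasCompactSupport g) (hg : Continuous g) : Continuous (B10b_cv f g) :=
  hcg.continuous_convolution_right (ContinuousLinearMap.mul ℝ ℂ) hf hg

private lemma B10b_differentiableAt {f g : Cn n → ℂ} (hf : LocallyIntegrable f volume)
    (hcg : HasCompactSupport g) (hg : ContDiff ℝ 1 g) (z : Cn n) :
    DifferentiableAt ℝ (B10b_cv f g) z :=
  (hcg.hasFDerivAt_convolution_right (ContinuousLinearMap.mul ℝ ℂ) hf hg z).differentiableAt

private lemma B10b_fderiv {f g : Cn n → ℂ} (hf : LocallyIntegrable f volume)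
    (hcg : HasCompactSupport g) (hg : ContDiff ℝ 1 g) (z X : Cn n) :
    fderiv ℝ (B10b_cv f g) z X = ∫ t, f t * fderiv ℝ g (z - t) X := by
  have h1 := (hcg.hasFDerivAt_convolution_right (ContinuousLinearMap.mul ℝ ℂ) hf hg z).fderiv
  have h2 : fderiv ℝ (B10b_cv f g) z =
    (MeasureTheory.convolution f (fderiv ℝ g)
      ((ContinuousLinearMap.mul ℝ ℂ).precompR (Cn n)) volume z) := h1
  rw [h2, convolution_precompR_apply (ContinuousLinearMap.mul ℝ ℂ) hf (hcg.fderiv ℝ)
    (hg.continuous_fderiv one_ne_zero)]
  rfl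

private lemma B10b_dzb {f g : Cn n → ℂ} (hf : LocallyIntegrable f volume)
    (hcg : HasCompactSupport g) (hg : ContDiff ℝ 1 g) (z X : Cn n) :
    dzb (B10b_cv f g) z X = ∫ t, f t * dzb g (z - t) X := by
  have hi : ∀ Y : Cn n, Integrable (fun t => f t * fderiv ℝ g (z - t) Y) := by
    intro Y
    refine B10b_int hf (g := fun w => fderiv ℝ g w Y) ?_ ?_ z
    · exact (hcg.fderiv ℝ).comp_left (g := fun L : Cn n →L[ℝ] ℂ => L Y) (by simp)
    · exact (hg.continuous_fderiv one_ne_zero).clm_apply continuous_const
  unfold dzb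
  rw [B10b_fderiv hf hcg hg, B10b_fderiv hf hcg hg, ← integral_const_mul,
    ← integral_add (hi _) ((hi _).const_mul _), ← integral_const_mul]
  refine integral_congr_ae (Eventually.of_forall fun t => ?_)
  simp only
  ring

/-- Convolutions with a weakly holomorphic function are holomorphic. -/
private lemma B10b_hol {U : Set (Cn n)} {u : Cn n → ℂ} (h : WeakDbar U u fun _ _ => 0)
    {K : Set (Cn n)} (hKU : K ⊆ U) {v : Cn n → ℂ} (hv : LocallyIntegrable v volume)
    (hvu : ∀ w ∈ K, v w = u w) {g : Cn n → ℂ} (hg : ContDiff ℝ ∞ g) {ε : ℝ}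
    (hgs : tsupport g ⊆ Metric.closedBall 0 ε) {z : Cn n} (hz : Metric.closedBall z ε ⊆ K) :
    DifferentiableAt ℂ (B10b_cv v g) z := by
  have hcg : HasCompactSupport g :=
    HasCompactSupport.of_support_subset_isCompact (isCompact_closedBall (0 : Cn n) ε)
      ((subset_tsupport g).trans hgs)
  have hg1 : ContDiff ℝ 1 g := hg.of_le (by norm_cast)
  rw [← dzb_eq_zero_iff (B10b_differentiableAt hv hcg hg1 z)]
  intro j
  rw [B10b_dzb hv hcg hg1]
  -- the test function
  set φ : Cn n → ℂ := fun t => g (z - t) with hφ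
  have hφc : ContDiff ℝ ∞ φ := hg.comp (contDiff_const.sub contDiff_id)
  have hφs : tsupport φ ⊆ Metric.closedBall z ε := by
    refine closure_minimal ?_ Metric.isClosed_closedBall
    intro t ht
    have h1 : z - t ∈ tsupport g := subset_tsupport g ht
    have h2 := hgs h1
    rw [mem_closedBall_zero_iff] at h2
    rw [Metric.mem_closedBall, dist_eq_norm, ← norm_neg, neg_sub]
    exact h2
  have hφcs : HasCompactSupport φ :=
    HasCompactSupport.of_support_subset_isCompact (isCompact_closedBall z ε)
      ((subset_tsupport φ).trans hφs)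
  have hd : ∀ t, dzb φ t (ee j) = - dzb g (z - t) (ee j) := by
    intro t
    have hgd : DifferentiableAt ℝ g (z - t) := hg1.differentiable one_ne_zero _
    have h1 : HasFDerivAt φ ((fderiv ℝ g (z - t)).comp (-(ContinuousLinearMap.id ℝ (Cn n)))) t := by
      have h2 : HasFDerivAt (fun s : Cn n => z - s) (-(ContinuousLinearMap.id ℝ (Cn n))) t :=
        (hasFDerivAt_id t).const_sub z
      exact HasFDerivAt.comp t hgd.hasFDerivAt h2
    unfold dzb
    rw [h1.fderiv]
    simp only [ContinuousLinearMap.comp_apply, _root_.neg_apply,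
      ContinuousLinearMap.id_apply, map_neg]
    ring
  have h3 := h φ ⟨hφc, hφcs, hφs.trans (hz.trans hKU)⟩ j
  simp only [mul_zero, integral_zero, neg_zero] at h3
  rw [← neg_eq_zero, ← integral_neg, ← h3]
  refine integral_congr_ae (Eventually.of_forall fun t => ?_)
  simp only [hd]
  by_cases ht : t ∈ K
  · rw [hvu t ht]; ring
  · have h4 : dzb g (z - t) (ee j) = 0 := by
      have h5 : z - t ∉ tsupport g := by
        intro h6
        have h7 := hgs h6
        rw [mem_closedBall_zero_iff] at h7
        apply ht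
        apply hz
        rw [Metric.mem_closedBall, dist_eq_norm, ← norm_neg, neg_sub]
        exact h7
      have h8 : fderiv ℝ g (z - t) = 0 := by
        by_contra h9
        exact h5 (support_fderiv_subset ℝ h9)
      unfold dzb
      rw [h8]
      simp
    rw [h4]; ring

private lemma B10b_assoc {f g k : Cn n → ℂ} (hf : Integrable f) (hcg : HasCompactSupport g)
    (hg : Continuous g) (hck : HasCompactSupport k) (hk : Continuous k) (z : Cn n) :
    B10b_cv (B10b_cv f g) k z = B10b_cv f (B10b_cv g k) z := by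
  have hgi : LocallyIntegrable g volume := hg.locallyIntegrable
  refine convolution_assoc (ContinuousLinearMap.mul ℝ ℂ) (ContinuousLinearMap.mul ℝ ℂ)
    (ContinuousLinearMap.mul ℝ ℂ) (ContinuousLinearMap.mul ℝ ℂ) ?_ hf.aestronglyMeasurable
    hg.aestronglyMeasurable hk.aestronglyMeasurable ?_ ?_ ?_
  · intro x y w
    simp only [ContinuousLinearMap.mul_apply', mul_assoc]
  · exact Eventually.of_forall fun y =>
      hcg.convolutionExists_right (ContinuousLinearMap.mul ℝ ℂ) hf.locallyIntegrable hg y
  · exact Eventually.of_forall fun y =>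
      hck.norm.convolutionExists_right (ContinuousLinearMap.mul ℝ ℝ)
        hg.norm.locallyIntegrable hk.norm y
  · refine HasCompactSupport.convolutionExists_right (ContinuousLinearMap.mul ℝ ℝ) ?_
      hf.norm.locallyIntegrable ?_ z
    · exact hcg.norm.convolution (ContinuousLinearMap.mul ℝ ℝ) hck.norm
    · exact hck.norm.continuous_convolution_right (ContinuousLinearMap.mul ℝ ℝ)
        hg.norm.locallyIntegrable hk.norm

/-- A circled kernel. -/
private lemma B10b_kernel {r : ℝ} (hr : 0 < r) : ∃ κ : Cn n → ℝ, ContDiff ℝ ∞ κ ∧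
    (∀ X, r ≤ ‖X‖ → κ X = 0) ∧ tsupport κ ⊆ Metric.closedBall 0 r ∧
    (∀ (c : ℂ) X, ‖c‖ = 1 → κ (c • X) = κ X) ∧ 0 < ∫ X, κ X := by
  set κ : Cn n → ℝ := fun X => Real.smoothTransition (1 - nsq X / r ^ 2) with hκ
  have hr2 : (0 : ℝ) < r ^ 2 := by positivity
  have h1 : ContDiff ℝ ∞ κ := by
    refine Real.smoothTransition.contDiff.comp ?_
    exact contDiff_const.sub (contDiff_nsq.div_const _)
  have h2 : ∀ X, r ≤ ‖X‖ → κ X = 0 := by
    intro X hX
    apply Real.smoothTransition.zero_of_nonpos
    have h3 : r ^ 2 ≤ nsq X := by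
      have := norm_sq_le_nsq X
      nlinarith
    have h4 : 1 ≤ nsq X / r ^ 2 := by rwa [le_div_iff₀ hr2, one_mul]
    linarith
  have h3 : tsupport κ ⊆ Metric.closedBall 0 r := by
    refine closure_minimal ?_ Metric.isClosed_closedBall
    intro X hX
    rw [mem_closedBall_zero_iff]
    by_contra h4
    exact hX (h2 X (le_of_lt (not_le.mp h4)))
  refine ⟨κ, h1, h2, h3, ?_, ?_⟩
  · intro c X hc
    simp only [hκ]
    congr 3
    unfold nsq
    simp only [Pi.smul_apply, smul_eq_mul, norm_mul, hc, one_mul]
  · have hcs : HasCompactSupport κ :=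
      HasCompactSupport.of_support_subset_isCompact (isCompact_closedBall (0 : Cn n) r)
        ((subset_tsupport κ).trans h3)
    refine Continuous.integral_pos_of_hasCompactSupport_nonneg_nonzero (x := 0) h1.continuous hcs
      (fun X => Real.smoothTransition.nonneg _) ?_
    simp only [hκ]
    have : nsq (0 : Cn n) = 0 := by simp [nsq]
    rw [this, zero_div, sub_zero, Real.smoothTransition.one]
    exact one_ne_zero

/-- Local form of Weyl's lemma. -/
private lemma B10b_local {U : Set (Cn n)} {u : Cn n → ℂ} (hu : LocL2 U u)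
    (h : WeakDbar U u fun _ _ => 0) {p : Cn n} {r : ℝ} (hr : 0 < r)
    (hp : Metric.closedBall p (3 * r) ⊆ U) :
    ∃ g : Cn n → ℂ, DifferentiableOn ℂ g (Metric.ball p r) ∧
      u =ᵐ[volume.restrict (Metric.ball p r)] g := by
  set K : Set (Cn n) := Metric.closedBall p (3 * r) with hK
  have hKc : IsCompact K := isCompact_closedBall _ _
  have hKm : MeasurableSet K := Metric.isClosed_closedBall.measurableSet
  set v : Cn n → ℂ := K.indicator u with hvdef
  have hvi : Integrable v := by
    have h1 : MemLp u 2 (volume.restrict K) := hu K hp hKc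
    have : IsFiniteMeasure (volume.restrict K) :=
      ⟨by rw [Measure.restrict_apply_univ]; exact hKc.measure_lt_top⟩
    have h2 : IntegrableOn u K := h1.integrable (by norm_num)
    exact h2.integrable_indicator hKm
  have hvl : LocallyIntegrable v volume := hvi.locallyIntegrable
  have hvu : ∀ w ∈ K, v w = u w := fun w hw => indicator_of_mem hw _
  obtain ⟨κ, hκ1, hκ2, hκ3, hκ4, hκ5⟩ := B10b_kernel (n := n) hr
  set k : Cn n → ℂ := fun X => (κ X : ℂ) with hk
  have hk1 : ContDiff ℝ ∞ k := Complex.ofRealCLM.contDiff.comp hκ1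
  have hks : tsupport k ⊆ Metric.closedBall 0 r := by
    refine (closure_mono ?_).trans hκ3
    intro X hX hX'
    apply hX
    simp only [hk, hX', Complex.ofReal_zero]
  have hkc : HasCompactSupport k :=
    HasCompactSupport.of_support_subset_isCompact (isCompact_closedBall (0 : Cn n) r)
      ((subset_tsupport k).trans hks)
  set c : ℂ := ∫ X, k X with hc
  have hc0 : c ≠ 0 := by
    have : c = ((∫ X, κ X : ℝ) : ℂ) := integral_ofReal
    rw [this]
    exact_mod_cast hκ5.ne'
  -- V_k is holomorphic
  have hVk : ∀ z ∈ Metric.ball p r, DifferentiableAt ℂ (B10b_cv v k) z := by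
    intro z hz
    refine B10b_hol h hp hvl hvu hk1 hks ?_
    refine (Metric.closedBall_subset_closedBall' ?_)
    have : dist z p < r := hz
    linarith
  refine ⟨fun z => c⁻¹ * B10b_cv v k z, ?_, ?_⟩
  · intro z hz
    exact ((hVk z hz).const_mul _).differentiableWithinAt
  -- bump functions
  have hrad : ∀ i : ℕ, (0 : ℝ) < r / (2 * (i + 2)) := fun i => by positivity
  let ζ : ℕ → ContDiffBump (0 : Cn n) := fun i =>
    ⟨r / (2 * (i + 2)), r / (i + 2), hrad i, by
      have h1 : (0 : ℝ) < (i : ℝ) + 2 := by positivity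
      apply div_lt_div_of_pos_left hr h1
      linarith⟩
  have hζout : ∀ i, (ζ i).rOut = r / (i + 2) := fun i => rfl
  have hζin : ∀ i, (ζ i).rIn = r / (2 * (i + 2)) := fun i => rfl
  have hζt : Tendsto (fun i => (ζ i).rOut) atTop (𝓝 0) := by
    simp only [hζout]
    refine Tendsto.div_atTop tendsto_const_nhds ?_
    exact tendsto_atTop_add_const_right _ _ tendsto_natCast_atTop_atTop
  have hζb : ∀ᶠ i in atTop, (ζ i).rOut ≤ 2 * (ζ i).rIn := by
    refine Eventually.of_forall fun i => ?_
    rw [hζout, hζin]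
    apply le_of_eq
    field_simp
  have hζr : ∀ i, (ζ i).rOut ≤ r := by
    intro i
    rw [hζout]
    apply div_le_self hr.le
    have : (0 : ℝ) ≤ i := Nat.cast_nonneg i
    linarith
  have hae := ContDiffBump.ae_convolution_tendsto_right_of_locallyIntegrable (μ := volume)
    hζt hζb hvl
  have hcont : Continuous (B10b_cv v k) := B10b_continuous hvl hkc hk1.continuous
  -- complex valued bumps
  let b : ℕ → Cn n → ℂ := fun i X => (((ζ i).normed volume X : ℝ) : ℂ)
  have hb1 : ∀ i, ContDiff ℝ ∞ (b i) := fun i =>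
    Complex.ofRealCLM.contDiff.comp (ζ i).contDiff_normed
  have hbs : ∀ i, tsupport (b i) ⊆ Metric.closedBall 0 r := by
    intro i
    have h1 : tsupport ((ζ i).normed volume) = Metric.closedBall 0 (ζ i).rOut :=
      (ζ i).tsupport_normed_eq
    refine (closure_mono ?_).trans (h1.subset.trans
      (Metric.closedBall_subset_closedBall (hζr i)))
    intro X hX hX'
    apply hX
    show (((ζ i).normed volume X : ℝ) : ℂ) = 0
    rw [hX', Complex.ofReal_zero]
  have hbc : ∀ i, HasCompactSupport (b i) := fun i =>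
    HasCompactSupport.of_support_subset_isCompact (isCompact_closedBall (0 : Cn n) r)
      ((subset_tsupport (b i)).trans (hbs i))
  have hconv : ∀ (w : Cn n → ℂ) i z, MeasureTheory.convolution ((ζ i).normed volume) w
      (ContinuousLinearMap.lsmul ℝ ℝ) volume z = B10b_cv w (b i) z := by
    intro w i z
    rw [B10b_cv_comm, B10b_cv_eq, convolution_def]
    refine integral_congr_ae (Eventually.of_forall fun t => ?_)
    simp only [ContinuousLinearMap.lsmul_apply, b, Complex.real_smul]
  -- key identity
  have key : ∀ i, ∀ z ∈ Metric.ball p r,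
      B10b_cv (B10b_cv v k) (b i) z = B10b_cv v (b i) z * c := by
    intro i z hz
    have h1 : B10b_cv (B10b_cv v k) (b i) z = B10b_cv (B10b_cv v (b i)) k z := by
      rw [B10b_assoc hvi hkc hk1.continuous (hbc i) (hb1 i).continuous,
        B10b_assoc hvi (hbc i) (hb1 i).continuous hkc hk1.continuous]
      congr 1
      funext w
      exact B10b_cv_comm _ _ _
    rw [h1, B10b_cv_comm, B10b_cv_eq]
    have h2 := mean_value_weight (R := r) (w := κ) hκ1.continuous hκ2 hκ4
      (g := B10b_cv v (b i)) (z := z) ⟨Metric.ball p (2 * r), Metric.isOpen_ball, ?_, ?_⟩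
    · have h3 : ∫ t, k t * B10b_cv v (b i) (z - t) = ∫ X, B10b_cv v (b i) (z + X) * (κ X : ℂ) := by
        rw [← integral_neg_eq_self]
        refine integral_congr_ae (Eventually.of_forall fun t => ?_)
        simp only [hk, sub_neg_eq_add]
        have h4 : κ (-t) = κ t := by
          have := hκ4 (-1) t (by simp)
          rwa [neg_one_smul] at this
        rw [h4, mul_comm]
      rw [h3, h2]
    · refine (Metric.closedBall_subset_ball' ?_)
      have : dist z p < r := hz
      linarith
    · intro w hw
      refine (B10b_hol h hp hvl hvu (hb1 i) (hbs i) ?_).differentiableWithinAt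
      refine (Metric.closedBall_subset_closedBall' ?_)
      have : dist w p < 2 * r := hw
      linarith
  rw [Filter.EventuallyEq, ae_restrict_iff' Metric.isOpen_ball.measurableSet]
  filter_upwards [hae] with z hz hzB
  have h5 : Tendsto (fun i => B10b_cv v (b i) z) atTop (𝓝 (v z)) := by
    simpa only [hconv] using hz
  have h6 : Tendsto (fun i => B10b_cv (B10b_cv v k) (b i) z) atTop (𝓝 (B10b_cv v k z)) := by
    have := ContDiffBump.convolution_tendsto_right_of_continuous (μ := volume) hζt hcont z
    simpa only [hconv] using this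
  have h7 : Tendsto (fun i => B10b_cv (B10b_cv v k) (b i) z) atTop (𝓝 (v z * c)) := by
    have := h5.mul_const c
    refine this.congr fun i => ?_
    rw [key i z hzB]
  have h8 : B10b_cv v k z = v z * c := tendsto_nhds_unique h6 h7
  rw [h8, ← hvu z (Metric.ball_subset_closedBall (Metric.ball_subset_ball (by linarith) hzB))]
  field_simp

/-- Weyl's lemma: weakly holomorphic functions are a.e. equal to holomorphic functions.
Proof: (1) for a smooth kernel `κ` supported in the ball of radius `ε`, `u ⋆ κ` is smooth and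
holomorphic on `{z : closedBall z ε ⊆ U}` (differentiate under the integral,
`HasCompactSupport.contDiff_convolution_right`; `w ↦ κ(z-w)` is a test function).
(2) with a circled kernel `κ_ε` and arbitrary bumps `ζ_ε'`:
`(u⋆κ_ε)⋆ζ_ε' = (u⋆ζ_ε')⋆κ_ε = u⋆ζ_ε'` (mean value) ; let `ε' → 0`:
`ContDiffBump.ae_convolution_tendsto_right_of_locallyIntegrable`; so `u = u⋆κ_ε` a.e. on
`{dist(z, Uᶜ) > 2ε}`. (3) glue (`u⋆κ_ε` and `u⋆κ_ε'` are continuous and a.e. equal hence equal where
both are defined). Work with `u` replaced by `u·1_K`. -/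
theorem weyl {U : Set (Cn n)} (hU : IsOpen U) {u : Cn n → ℂ} (hu : LocL2 U u)
    (h : WeakDbar U u fun _ _ => 0) :
    ∃ g : Cn n → ℂ, DifferentiableOn ℂ g U ∧ u =ᵐ[volume.restrict U] g := by
  have hrad : ∀ p ∈ U, ∃ r : ℝ, 0 < r ∧ Metric.closedBall p (3 * r) ⊆ U := by
    intro p hp
    obtain ⟨ε, hε, h1⟩ := Metric.isOpen_iff.mp hU p hp
    refine ⟨ε / 6, by positivity, ?_⟩
    refine (Metric.closedBall_subset_ball ?_).trans h1
    linarith
  choose! r hr hrU using hrad
  have hloc : ∀ p ∈ U, ∃ g : Cn n → ℂ, DifferentiableOn ℂ g (Metric.ball p (r p)) ∧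
      u =ᵐ[volume.restrict (Metric.ball p (r p))] g :=
    fun p hp => B10b_local hu h (hr p hp) (hrU p hp)
  choose! G hG1 hG2 using hloc
  -- compatibility
  have hcomp : ∀ p ∈ U, ∀ z ∈ Metric.ball p (r p), z ∈ U → G z z = G p z := by
    intro p hp z hz hzU
    set W := Metric.ball p (r p) ∩ Metric.ball z (r z) with hW
    have hWo : IsOpen W := Metric.isOpen_ball.inter Metric.isOpen_ball
    have h1 : u =ᵐ[volume.restrict W] G p :=
      ae_restrict_of_ae_restrict_of_subset inter_subset_left (hG2 p hp)
    have h2 : u =ᵐ[volume.restrict W] G z :=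
      ae_restrict_of_ae_restrict_of_subset inter_subset_right (hG2 z hzU)
    have h3 : G z =ᵐ[volume.restrict W] G p := h2.symm.trans h1
    exact Measure.eqOn_open_of_ae_eq h3 hWo
      ((hG1 z hzU).continuousOn.mono inter_subset_right)
      ((hG1 p hp).continuousOn.mono inter_subset_left)
      ⟨hz, Metric.mem_ball_self (hr z hzU)⟩
  refine ⟨fun z => G z z, ?_, ?_⟩
  · intro p hp
    have h1 : DifferentiableAt ℂ (G p) p :=
      (hG1 p hp).differentiableAt (Metric.ball_mem_nhds p (hr p hp))
    have h2 : (fun z => G z z) =ᶠ[𝓝 p] G p := by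
      filter_upwards [Metric.ball_mem_nhds p (hr p hp), hU.mem_nhds hp] with z hz hzU
      exact hcomp p hp z hz hzU
    exact (h1.congr_of_eventuallyEq h2).differentiableWithinAt
  · rw [Filter.EventuallyEq, ae_restrict_iff' hU.measurableSet, ae_iff]
    refine measure_null_of_locally_null _ fun p hp => ?_
    have hp1 : p ∈ U := by
      by_contra h1
      exact hp fun h2 => absurd h2 h1
    refine ⟨_, inter_mem_nhdsWithin _ (Metric.ball_mem_nhds p (hr p hp1)), ?_⟩
    have h1 := hG2 p hp1
    rw [Filter.EventuallyEq, ae_restrict_iff' Metric.isOpen_ball.measurableSet, ae_iff] at h1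
    refine measure_mono_null ?_ h1
    rintro z ⟨hz1, hz2⟩
    simp only [Set.mem_ofPred_eq, Classical.not_imp] at hz1 ⊢
    refine ⟨hz2, fun h3 => hz1.2 ?_⟩
    rw [h3, hcomp p hp1 z hz2 hz1.1]

end HankelSPC
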