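import Pool.Agent.Lib.MP_e1cf54_an.L2a

/-! Row L2b: the Levi form: continuity, coordinates -/

open MeasureTheory Set
open scoped ENNReal NNReal Topology ContDiff

namespace HankelSPC

variable {n : ℕ}

lemma continuousOn_levi {u : Cn n → ℝ} {U : Set (Cn n)} (hU : IsOpen U)
    (hu : ContDiffOn ℝ 2 u U) :
    ContinuousOn (fun p : Cn n × Cn n => levi u p.1 p.2) (U ×ˢ univ) := by
  have h1 : ContDiffOn ℝ 1 (fderiv ℝ u) U := hu.fderiv_of_isOpen hU (by norm_num)
  have h2 : ContinuousOn (fderiv ℝ (fderiv ℝ u)) U :=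
    h1.continuousOn_fderiv_of_isOpen hU le_rfl
  have h3 : ContinuousOn (fun p : Cn n × Cn n => fderiv ℝ (fderiv ℝ u) p.1) (U ×ˢ univ) :=
    h2.comp continuousOn_fst (fun p hp => hp.1)
  have h4 : ContinuousOn (fun p : Cn n × Cn n => (1 / 4 : ℝ) *
      (D2 u p.1 p.2 p.2 + D2 u p.1 (Complex.I • p.2) (Complex.I • p.2))) (U ×ˢ univ) := by
    unfold D2
    have h5 : ContinuousOn (fun p : Cn n × Cn n => Complex.I • p.2) (U ×ˢ univ) := by fun_prop
    have h6 : ContinuousOn (fun p : Cn n × Cn n => p.2) (U ×ˢ univ) := by fun_prop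
    exact continuousOn_const.mul (((h3.clm_apply h6).clm_apply h6).add
      ((h3.clm_apply h5).clm_apply h5))
  refine h4.congr ?_
  rintro ⟨z, X⟩ ⟨hz, -⟩
  exact levi_eq_D2 (hu.contDiffAt (hU.mem_nhds hz)) X

lemma continuousOn_ell {u : Cn n → ℝ} {U : Set (Cn n)} (hU : IsOpen U)
    (hu : ContDiffOn ℝ 1 u U) :
    ContinuousOn (fun p : Cn n × Cn n => ell u p.1 p.2) (U ×ˢ univ) := by
  have h2 : ContinuousOn (fderiv ℝ u) U := hu.continuousOn_fderiv_of_isOpen hU le_rfl
  have h3 : ContinuousOn (fun p : Cn n × Cn n => fderiv ℝ u p.1) (U ×ˢ univ) :=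
    h2.comp continuousOn_fst (fun p hp => hp.1)
  have h5 : ContinuousOn (fun p : Cn n × Cn n => Complex.I • p.2) (U ×ˢ univ) := by fun_prop
  have h6 : ContinuousOn (fun p : Cn n × Cn n => p.2) (U ×ˢ univ) := by fun_prop
  have h7 := Complex.continuous_ofReal.comp_continuousOn (h3.clm_apply h6)
  have h8 := Complex.continuous_ofReal.comp_continuousOn (h3.clm_apply h5)
  exact continuousOn_const.mul (h7.sub (continuousOn_const.mul h8))

private lemma L2b_expand (F : Cn n → ℂ) (hadd : ∀ X Y, F (X + Y) = F X + F Y)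
    (hsmul : ∀ (c : ℂ) X, F (c • X) = c * F X) (X : Cn n) : F X = ∑ j, X j * F (ee j) := by
  let L : Cn n →ₗ[ℂ] ℂ := ⟨⟨F, hadd⟩, hsmul⟩
  have h := L.pi_apply_eq_sum_univ X
  have h' : F X = ∑ i, X i • F (fun j => if i = j then 1 else 0) := h
  rw [h']
  refine Finset.sum_congr rfl fun j _ => ?_
  rw [smul_eq_mul]
  congr 2
  ext i
  unfold ee
  rw [Pi.single_apply]
  simp [eq_comm]

private lemma L2b_expand_conj (F : Cn n → ℂ) (hadd : ∀ X Y, F (X + Y) = F X + F Y)
    (hsmul : ∀ (c : ℂ) X, F (c • X) = (starRingEnd ℂ) c * F X) (X : Cn n) :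
    F X = ∑ j, (starRingEnd ℂ) (X j) * F (ee j) := by
  have h := L2b_expand (fun X => (starRingEnd ℂ) (F X)) (fun X Y => by rw [hadd, map_add])
    (fun c X => by rw [hsmul, map_mul, Complex.conj_conj]) X
  have h2 := congrArg (starRingEnd ℂ) h
  rw [Complex.conj_conj, map_sum] at h2
  rw [h2]
  refine Finset.sum_congr rfl fun j _ => ?_
  rw [map_mul, Complex.conj_conj]

/-- decomposition of a complex multiple into real multiples -/
private lemma L2b_decomp (c : ℂ) (X : Cn n) :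
    (c • X : Cn n) = c.re • X + c.im • (Complex.I • X) := by
  ext i
  simp only [Pi.smul_apply, Pi.add_apply, smul_eq_mul, Complex.real_smul]
  conv_lhs => rw [← Complex.re_add_im c]
  ring

private lemma L2b_decomp' (c : ℂ) (X : Cn n) :
    (Complex.I • (c • X) : Cn n) = c.re • (Complex.I • X) - c.im • X := by
  ext i
  simp only [Pi.smul_apply, Pi.sub_apply, smul_eq_mul, Complex.real_smul]
  conv_lhs => rw [← Complex.re_add_im c]
  ring_nf
  simp only [Complex.I_sq]
  ring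

/-- The Levi form in coordinates. -/
theorem levi_eq_mix {u : Cn n → ℝ} {z : Cn n} (hu : ContDiffAt ℝ 2 u z) (X : Cn n) :
    (levi u z X : ℂ) = ∑ j, ∑ k, mix u z j k * X j * (starRingEnd ℂ) (X k) := by
  set H : Cn n → Cn n → ℝ := fun X Y => D2 u z X Y with hH
  have hHadd1 : ∀ X Y Z, H (X + Y) Z = H X Z + H Y Z := by
    intro X Y Z
    simp [hH, D2]
  have hHadd2 : ∀ X Y Z, H X (Y + Z) = H X Y + H X Z := by
    intro X Y Z
    simp [hH, D2]
  have hHsub1 : ∀ X Y Z, H (X - Y) Z = H X Z - H Y Z := by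
    intro X Y Z
    simp [hH, D2]
  have hHsub2 : ∀ X Y Z, H X (Y - Z) = H X Y - H X Z := by
    intro X Y Z
    simp [hH, D2]
  have hHs1 : ∀ (a : ℝ) X Y, H (a • X) Y = a * H X Y := by
    intro a X Y
    simp [hH, D2]
  have hHs2 : ∀ (a : ℝ) X Y, H X (a • Y) = a * H X Y := by
    intro a X Y
    simp [hH, D2]
  have hsymm : ∀ X Y, H X Y = H Y X := by
    intro X Y
    have h := hu.isSymmSndFDerivAt (by simp)
    exact h X Y
  set M : Cn n → Cn n → ℂ := fun X Y => (1 / 4) * ((H Y X : ℂ) - Complex.I * H Y (Complex.I • X)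
      + Complex.I * H (Complex.I • Y) X + H (Complex.I • Y) (Complex.I • X)) with hM
  have hM1add : ∀ X Y Z, M (X + Y) Z = M X Z + M Y Z := by
    intro X Y Z
    simp only [hM, smul_add, hHadd2, Complex.ofReal_add]
    ring
  have hM2add : ∀ Z X Y, M Z (X + Y) = M Z X + M Z Y := by
    intro Z X Y
    simp only [hM, smul_add, hHadd1, Complex.ofReal_add]
    ring
  have hM1smul : ∀ (c : ℂ) X Z, M (c • X) Z = c * M X Z := by
    intro c X Z
    simp only [hM, L2b_decomp' c X]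
    rw [L2b_decomp c X]
    simp only [hHadd2, hHsub2, hHs2, Complex.ofReal_add, Complex.ofReal_sub, Complex.ofReal_mul]
    conv_rhs => rw [← Complex.re_add_im c]
    ring_nf
    simp only [Complex.I_sq]
    ring
  have hM2smul : ∀ (c : ℂ) Z X, M Z (c • X) = (starRingEnd ℂ) c * M Z X := by
    intro c Z X
    simp only [hM, L2b_decomp' c X]
    rw [L2b_decomp c X]
    simp only [hHadd1, hHsub1, hHs1, Complex.ofReal_add, Complex.ofReal_sub, Complex.ofReal_mul]
    have : (starRingEnd ℂ) c = (c.re : ℂ) - c.im * Complex.I := by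
      apply Complex.ext <;> simp
    rw [this]
    ring_nf
    simp only [Complex.I_sq]
    ring
  have hmix : ∀ j k, mix u z j k = M (ee j) (ee k) := by
    intro j k
    have hd : DifferentiableAt ℝ (fderiv ℝ u) z :=
      (hu.fderiv_right (m := 1) (by norm_num)).differentiableAt (by norm_num)
    have h1 : ∀ X Y, fderiv ℝ (fun w => (fderiv ℝ u w X : ℝ)) z Y = H Y X := by
      intro X Y
      have h2 : HasFDerivAt (fun w => fderiv ℝ u w X)
          ((fderiv ℝ (fderiv ℝ u) z).flip X) z := by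
        have := hd.hasFDerivAt.clm_apply (hasFDerivAt_const X z)
        simpa using this
      rw [h2.fderiv]
      rfl
    have hd1 : ∀ X, DifferentiableAt ℝ (fun w => fderiv ℝ u w X) z := fun X =>
      hd.clm_apply (differentiableAt_const X)
    have h3 : ∀ Y, fderiv ℝ (fun w => ell u w (ee j)) z Y =
        (1 / 2) * ((H Y (ee j) : ℂ) - Complex.I * H Y (Complex.I • ee j)) := by
      intro Y
      have h4 : HasFDerivAt (fun w => ((fderiv ℝ u w (ee j) : ℝ) : ℂ))
          (Complex.ofRealCLM.comp (fderiv ℝ (fun w => fderiv ℝ u w (ee j)) z)) z :=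
        Complex.ofRealCLM.hasFDerivAt.comp z (hd1 (ee j)).hasFDerivAt
      have h5 : HasFDerivAt (fun w => ((fderiv ℝ u w (Complex.I • ee j) : ℝ) : ℂ))
          (Complex.ofRealCLM.comp (fderiv ℝ (fun w => fderiv ℝ u w (Complex.I • ee j)) z)) z :=
        Complex.ofRealCLM.hasFDerivAt.comp z (hd1 (Complex.I • ee j)).hasFDerivAt
      have h6 := (h4.sub (h5.const_mul Complex.I)).const_mul (1 / 2 : ℂ)
      have h7 : (fun w => ell u w (ee j)) = fun w => (1 / 2 : ℂ) *
          (((fderiv ℝ u w (ee j) : ℝ) : ℂ) -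
            Complex.I * ((fderiv ℝ u w (Complex.I • ee j) : ℝ) : ℂ)) := rfl
      rw [h7]
      have h8 := h6.fderiv
      have h9 := congrArg (fun A : Cn n →L[ℝ] ℂ => A Y) h8
      refine Eq.trans h9 ?_
      simp [h1]
    unfold mix dzb
    rw [h3, h3, hM]
    ring_nf
    simp only [Complex.I_sq]
    ring
  have hlevi : (levi u z X : ℂ) = M X X := by
    rw [levi_eq_D2 hu, hM]
    have h1 : H (Complex.I • X) X = H X (Complex.I • X) := hsymm _ _
    simp only
    rw [h1]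
    push_cast
    simp only [hH]
    ring
  rw [hlevi, L2b_expand (fun Y => M Y X) (fun Y Z => hM1add Y Z X) (fun c Y => hM1smul c Y X) X]
  refine Finset.sum_congr rfl fun j _ => ?_
  rw [L2b_expand_conj (fun Y => M (ee j) Y) (fun Y Z => hM2add _ Y Z)
    (fun c Y => hM2smul c _ Y) X, Finset.mul_sum]
  refine Finset.sum_congr rfl fun k _ => ?_
  rw [hmix]
  ring

private lemma L2b_nsq_smul (r : ℝ) (X : Cn n) : nsq (((r : ℝ) : ℂ) • X) = r ^ 2 * nsq X := by
  unfold nsq
  rw [Finset.mul_sum]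
  refine Finset.sum_congr rfl fun j _ => ?_
  rw [Pi.smul_apply, smul_eq_mul, norm_mul, Complex.norm_real, mul_pow, Real.norm_eq_abs, sq_abs]

private lemma L2b_nsq_pos {X : Cn n} (hX : X ≠ 0) : 0 < nsq X := by
  have h1 := norm_sq_le_nsq X
  have h2 : 0 < ‖X‖ := norm_pos_iff.2 hX
  have : 0 < ‖X‖ ^ 2 := by positivity
  linarith

/-- normalisation -/
private lemma L2b_normalise {X : Cn n} (hX : X ≠ 0) : ∃ (r : ℝ) (Y : Cn n), 0 < r ∧ nsq Y = 1 ∧
    X = ((r : ℝ) : ℂ) • Y ∧ r ^ 2 = nsq X := by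
  have h := L2b_nsq_pos hX
  set r := Real.sqrt (nsq X) with hr
  have hr0 : 0 < r := Real.sqrt_pos.2 h
  have hr2 : r ^ 2 = nsq X := Real.sq_sqrt h.le
  have hrc : ((r : ℝ) : ℂ) ≠ 0 := by exact_mod_cast hr0.ne'
  refine ⟨r, ((r⁻¹ : ℝ) : ℂ) • X, hr0, ?_, ?_, hr2⟩
  · rw [L2b_nsq_smul, ← hr2, inv_pow, inv_mul_cancel₀ (by positivity)]
  · rw [smul_smul]
    push_cast
    rw [mul_inv_cancel₀ hrc, one_smul]

private lemma L2b_sphere_compact : IsCompact {X : Cn n | nsq X = 1} := by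
  apply Metric.isCompact_of_isClosed_isBounded
  · exact isClosed_eq contDiff_nsq.continuous continuous_const
  · rw [isBounded_iff_forall_norm_le]
    refine ⟨1, fun X hX => ?_⟩
    have h1 := norm_sq_le_nsq X
    have h2 : nsq X = 1 := hX
    rw [h2] at h1
    nlinarith [norm_nonneg X]

/-- If `levi u` is positive definite at all points of a compact set, it is uniformly so. -/
theorem levi_uniform {u : Cn n → ℝ} {U K : Set (Cn n)} (hU : IsOpen U)
    (hu : ContDiffOn ℝ 2 u U) (hK : IsCompact K) (hKU : K ⊆ U)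
    (hpos : ∀ z ∈ K, ∀ X : Cn n, X ≠ 0 → 0 < levi u z X) :
    ∃ c : ℝ, 0 < c ∧ ∀ z ∈ K, ∀ X, c * nsq X ≤ levi u z X := by
  have hKS : IsCompact (K ×ˢ {X : Cn n | nsq X = 1}) := hK.prod L2b_sphere_compact
  have hcont : ContinuousOn (fun p : Cn n × Cn n => levi u p.1 p.2)
      (K ×ˢ {X : Cn n | nsq X = 1}) :=
    (continuousOn_levi hU hu).mono (Set.prod_mono hKU (subset_univ _))
  have hnz : ∀ X : Cn n, nsq X = 1 → X ≠ 0 := by
    intro X hX h0
    rw [h0] at hX
    simp [nsq] at hX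
  have hnsq0 : nsq (0 : Cn n) = 0 := by simp [nsq]
  rcases (K ×ˢ {X : Cn n | nsq X = 1}).eq_empty_or_nonempty with he | he
  · refine ⟨1, one_pos, fun z hz X => ?_⟩
    by_cases hX : X = 0
    · rw [hX, levi_zero, hnsq0]
      simp
    · obtain ⟨r, Y, hr, hY, -, -⟩ := L2b_normalise hX
      exact absurd (show (z, Y) ∈ K ×ˢ {X : Cn n | nsq X = 1} from ⟨hz, hY⟩)
        (by rw [he]; exact notMem_empty _)
  · obtain ⟨⟨z₀, X₀⟩, ⟨hz₀, hX₀⟩, hmin⟩ := hKS.exists_isMinOn he hcont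
    refine ⟨levi u z₀ X₀, hpos z₀ hz₀ X₀ (hnz X₀ hX₀), fun z hz X => ?_⟩
    by_cases hX : X = 0
    · rw [hX, levi_zero, hnsq0]
      simp
    · obtain ⟨r, Y, hr, hY, hXY, hr2⟩ := L2b_normalise hX
      have hm : (z, Y) ∈ K ×ˢ {X : Cn n | nsq X = 1} := ⟨hz, hY⟩
      have h1 : levi u z₀ X₀ ≤ levi u z Y := (isMinOn_iff.1 hmin) (z, Y) hm
      have h2 : levi u z X = nsq X * levi u z Y := by
        conv_lhs => rw [hXY]
        rw [levi_smul (hu.contDiffAt (hU.mem_nhds (hKU hz))), Complex.norm_real,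
          Real.norm_eq_abs, sq_abs, hr2]
      rw [h2, mul_comm]
      exact mul_le_mul_of_nonneg_left h1 (hr2 ▸ sq_nonneg r)

theorem levi_bdd {u : Cn n → ℝ} {U K : Set (Cn n)} (hU : IsOpen U)
    (hu : ContDiffOn ℝ 2 u U) (hK : IsCompact K) (hKU : K ⊆ U) :
    ∃ C : ℝ, 0 < C ∧ ∀ z ∈ K, ∀ X, |levi u z X| ≤ C * nsq X ∧ ‖ell u z X‖ ^ 2 ≤ C * nsq X := by
  have hKS : IsCompact (K ×ˢ {X : Cn n | nsq X = 1}) := hK.prod L2b_sphere_compact
  have hcont : ContinuousOn (fun p : Cn n × Cn n => levi u p.1 p.2)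
      (K ×ˢ {X : Cn n | nsq X = 1}) :=
    (continuousOn_levi hU hu).mono (Set.prod_mono hKU (subset_univ _))
  have hcont' : ContinuousOn (fun p : Cn n × Cn n => ell u p.1 p.2)
      (K ×ˢ {X : Cn n | nsq X = 1}) :=
    (continuousOn_ell hU (hu.of_le (by norm_num))).mono (Set.prod_mono hKU (subset_univ _))
  obtain ⟨C₁, hC₁⟩ := hKS.exists_bound_of_continuousOn hcont
  obtain ⟨C₂, hC₂⟩ := hKS.exists_bound_of_continuousOn hcont'
  have hnsq0 : nsq (0 : Cn n) = 0 := by simp [nsq]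
  refine ⟨|C₁| + C₂ ^ 2 + 1, by positivity, fun z hz X => ?_⟩
  by_cases hX : X = 0
  · have h0 : ell u z 0 = 0 := by
      have := ell_smul u z 0 0
      simpa using this
    rw [hX, levi_zero, hnsq0, h0]
    simp
  · obtain ⟨r, Y, hr, hY, hXY, hr2⟩ := L2b_normalise hX
    have hm : (z, Y) ∈ K ×ˢ {X : Cn n | nsq X = 1} := ⟨hz, hY⟩
    have h1 := hC₁ _ hm
    have h2 := hC₂ _ hm
    simp only [Real.norm_eq_abs] at h1
    have hnn : 0 ≤ nsq X := hr2 ▸ sq_nonneg r
    have hl : levi u z X = nsq X * levi u z Y := by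
      conv_lhs => rw [hXY]
      rw [levi_smul (hu.contDiffAt (hU.mem_nhds (hKU hz))), Complex.norm_real,
        Real.norm_eq_abs, sq_abs, hr2]
    have he : ‖ell u z X‖ ^ 2 = nsq X * ‖ell u z Y‖ ^ 2 := by
      conv_lhs => rw [hXY]
      rw [ell_smul, norm_mul, Complex.norm_real, mul_pow, Real.norm_eq_abs, sq_abs, hr2]
    constructor
    · rw [hl, abs_mul, abs_of_nonneg hnn, mul_comm]
      apply mul_le_mul_of_nonneg_right _ hnn
      have := le_abs_self C₁
      nlinarith [sq_nonneg C₂]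
    · rw [he, mul_comm]
      apply mul_le_mul_of_nonneg_right _ hnn
      have h3 : ‖ell u z Y‖ ^ 2 ≤ C₂ ^ 2 := pow_le_pow_left₀ (norm_nonneg _) h2 2
      have := abs_nonneg C₁
      linarith

end HankelSPC
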