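import Pool.Agent.Lib.MP_e1cf54_an.C1a
import Pool.Agent.Lib.MP_e1cf54_an.L2b

/-! Row B11a: the weight -/

open MeasureTheory Set Filter
open scoped ENNReal NNReal Topology ContDiff

namespace HankelSPC

variable {n : ℕ}

namespace Dom

/-- the one-variable function `h(x) = -log (t - x)` -/
private noncomputable def B11a_h (t : ℝ) (x : ℝ) : ℝ := -Real.log (t - x)

private lemma B11a_hasDeriv {t x : ℝ} (hx : x < t) : HasDerivAt (B11a_h t) ((t - x)⁻¹) x := by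
  have h0 : t - x ≠ 0 := (sub_pos.2 hx).ne'
  have h1 : HasDerivAt (fun y : ℝ => t - y) (-1) x := by
    simpa using (hasDerivAt_id x).const_sub t
  have h2 := (h1.log h0).neg
  have : -(-1 / (t - x)) = (t - x)⁻¹ := by
    rw [neg_div, neg_neg, one_div]
  rw [this] at h2
  exact h2

private lemma B11a_deriv {t x : ℝ} (hx : x < t) : deriv (B11a_h t) x = (t - x)⁻¹ :=
  (B11a_hasDeriv hx).deriv

private lemma B11a_deriv2 {t x : ℝ} (hx : x < t) : deriv (deriv (B11a_h t)) x = ((t - x)⁻¹) ^ 2 := by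
  have h0 : t - x ≠ 0 := (sub_pos.2 hx).ne'
  have he : deriv (B11a_h t) =ᶠ[𝓝 x] fun y => (t - y)⁻¹ := by
    filter_upwards [Iio_mem_nhds hx] with y hy
    exact B11a_deriv hy
  rw [he.deriv_eq]
  have h1 : HasDerivAt (fun y : ℝ => t - y) (-1) x := by
    simpa using (hasDerivAt_id x).const_sub t
  have h2 : HasDerivAt (fun y : ℝ => (t - y)⁻¹) (- -1 / (t - x) ^ 2) x := h1.inv h0
  rw [h2.deriv]
  rw [neg_neg, inv_pow, one_div]

private lemma B11a_contDiffAt {t x : ℝ} (hx : x < t) : ContDiffAt ℝ 2 (B11a_h t) x := by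
  have h0 : t - x ≠ 0 := (sub_pos.2 hx).ne'
  exact ((contDiffAt_const.sub contDiffAt_id).log h0).neg

/-- Cauchy–Schwarz for `ell nsq`. -/
private lemma B11a_ell_nsq (z X : Cn n) : ‖ell nsq z X‖ ^ 2 ≤ nsq z * nsq X := by
  rw [ell_nsq]
  have h1 : ‖∑ j, (starRingEnd ℂ) (z j) * X j‖ ≤ ∑ j, ‖z j‖ * ‖X j‖ := by
    refine (norm_sum_le _ _).trans (le_of_eq (Finset.sum_congr rfl fun j _ => ?_))
    rw [norm_mul, RCLike.norm_conj]
  have h2 : (∑ j, ‖z j‖ * ‖X j‖) ^ 2 ≤ (∑ j, ‖z j‖ ^ 2) * ∑ j, ‖X j‖ ^ 2 :=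
    Finset.sum_mul_sq_le_sq_mul_sq _ _ _
  have h3 : ‖∑ j, (starRingEnd ℂ) (z j) * X j‖ ^ 2 ≤ (∑ j, ‖z j‖ * ‖X j‖) ^ 2 :=
    pow_le_pow_left₀ (norm_nonneg _) h1 2
  exact h3.trans h2

/-- The weight. With `g = -log (t - ρ) + A nsq`, `A` large (independent of `t ∈ [0, η/2]`):
`levi g X = levi ρ X/(t-ρ) + |∂ρ(X)|²/(t-ρ)² + A nsq X
  ≥ c₁ (|∂ρ(X)|/(t-ρ) + ‖X‖/√(t-ρ))²` and `|∂g(X)|² ≤ 2|∂ρ(X)|²/(t-ρ)² + 2A²|z|² nsq X ≤ C₂ levi g X`;
`φ = g/(3C₂)`. (Where `ρ < -η` one has `t - ρ ≥ η` and `|levi ρ X| ≤ L‖X‖²`.)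
`{z ∈ out' t : φ ≤ c}` is compact: it is `{ρ + e^{A nsq - 3C₂c} ≤ t}`, closed in `{ρ ≤ η/2}`. -/
theorem exists_weight (D : Dom n) : ∃ C : ℝ, 0 < C ∧ ∀ t : ℝ, 0 ≤ t → t ≤ D.η / 2 →
    ∃ φ : Cn n → ℝ, ContDiffOn ℝ 2 φ (D.out' t) ∧
      (∀ c : ℝ, IsCompact {z | z ∈ D.out' t ∧ φ z ≤ c}) ∧
      (∀ z ∈ D.out' t, ∀ X : Cn n, X ≠ 0 → 0 < levi φ z X) ∧
      (∀ z ∈ D.out' t, ∀ X, 3 * ‖ell φ z X‖ ^ 2 ≤ levi φ z X) ∧
      (∀ z ∈ D.out' t, ∀ X,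
        (‖ell D.ρ z X‖ / (t - D.ρ z) + ‖X‖ / Real.sqrt (t - D.ρ z)) ^ 2 ≤ C * levi φ z X) := by
  have hη := D.η_pos
  have hη1 := D.η_lt
  have hc := D.c_pos
  have hL := D.L_ge
  set A : ℝ := 2 * (D.L + D.c) / D.η with hA
  have hApos : 0 < A := by positivity
  set C₁ : ℝ := 2 * (1 + 1 / D.c) with hC₁
  set C₂ : ℝ := 2 + 4 * A * (n * D.L ^ 2) with hC₂
  have hC₁pos : 0 < C₁ := by positivity
  have hC₂pos : 0 < C₂ := by positivity
  refine ⟨C₁ * (3 * C₂), by positivity, ?_⟩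
  intro t ht0 ht1
  have ht1' : t < 1 := by linarith
  -- the functions
  set g : Cn n → ℝ := fun z => B11a_h t (D.ρ z) + A * nsq z with hg
  set φ : Cn n → ℝ := fun z => (3 * C₂)⁻¹ * g z with hφ
  have hρC : ContDiff ℝ 2 D.ρ := D.smooth
  have hnsq : ContDiff ℝ 2 (nsq (n := n)) := contDiff_nsq.of_le (by norm_cast)
  have hlt : ∀ z ∈ D.out' t, D.ρ z < t := fun z hz => hz
  have h1At : ∀ z ∈ D.out' t, ContDiffAt ℝ 2 (fun z => B11a_h t (D.ρ z)) z := fun z hz =>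
    (B11a_contDiffAt (hlt z hz)).comp z hρC.contDiffAt
  have h2At : ∀ z : Cn n, ContDiffAt ℝ 2 (fun z => A * nsq z) z := fun z =>
    contDiffAt_const.mul hnsq.contDiffAt
  have hgAt : ∀ z ∈ D.out' t, ContDiffAt ℝ 2 g z := fun z hz => (h1At z hz).add (h2At z)
  have hφAt : ∀ z ∈ D.out' t, ContDiffAt ℝ 2 φ z := fun z hz => contDiffAt_const.mul (hgAt z hz)
  -- Levi form of g
  have hlevi : ∀ z ∈ D.out' t, ∀ X, levi g z X =
      (t - D.ρ z)⁻¹ * levi D.ρ z X + ((t - D.ρ z)⁻¹) ^ 2 * ‖ell D.ρ z X‖ ^ 2 + A * nsq X := by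
    intro z hz X
    rw [hg, levi_add (h1At z hz) (h2At z), levi_comp hρC.contDiffAt (B11a_contDiffAt (hlt z hz)),
      levi_const_mul hnsq.contDiffAt, levi_nsq, B11a_deriv (hlt z hz), B11a_deriv2 (hlt z hz)]
  have hell : ∀ z ∈ D.out' t, ∀ X, ell g z X =
      ((t - D.ρ z)⁻¹ : ℝ) * ell D.ρ z X + A * ell nsq z X := by
    intro z hz X
    have d1 : DifferentiableAt ℝ D.ρ z := hρC.contDiffAt.differentiableAt (by norm_num)
    have d2 : DifferentiableAt ℝ (B11a_h t) (D.ρ z) := (B11a_hasDeriv (hlt z hz)).differentiableAt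
    have d3 : DifferentiableAt ℝ (nsq (n := n)) z := hnsq.contDiffAt.differentiableAt (by norm_num)
    have d4 : DifferentiableAt ℝ (fun z => B11a_h t (D.ρ z)) z :=
      (h1At z hz).differentiableAt (by norm_num)
    have d5 : DifferentiableAt ℝ (fun z => A * nsq z) z := d3.const_mul A
    rw [hg, ell_fun_add d4 d5, ell_comp d1 d2, ell_const_mul d3, B11a_deriv (hlt z hz)]
  have hleviφ : ∀ z ∈ D.out' t, ∀ X, levi φ z X = (3 * C₂)⁻¹ * levi g z X := by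
    intro z hz X
    rw [hφ, levi_const_mul (hgAt z hz)]
  have hellφ : ∀ z ∈ D.out' t, ∀ X, ell φ z X = ((3 * C₂)⁻¹ : ℝ) * ell g z X := by
    intro z hz X
    rw [hφ, ell_const_mul ((hgAt z hz).differentiableAt (by norm_num))]
  -- the lower bound
  have hlow : ∀ z ∈ D.out' t, ∀ X, D.c * ‖X‖ ^ 2 * (t - D.ρ z)⁻¹ +
      ((t - D.ρ z)⁻¹) ^ 2 * ‖ell D.ρ z X‖ ^ 2 + A / 2 * nsq X ≤ levi g z X := by
    intro z hz X
    rw [hlevi z hz X]
    have hr : 0 < t - D.ρ z := sub_pos.2 (hlt z hz)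
    have hri : 0 < (t - D.ρ z)⁻¹ := inv_pos.2 hr
    have hn := norm_sq_le_nsq X
    have hn0 : 0 ≤ ‖X‖ ^ 2 := by positivity
    by_cases hcase : |D.ρ z| ≤ D.η
    · have h1 := D.levi_ge z hcase X
      have h2 : D.c * ‖X‖ ^ 2 * (t - D.ρ z)⁻¹ ≤ (t - D.ρ z)⁻¹ * levi D.ρ z X := by
        rw [mul_comm]
        exact mul_le_mul_of_nonneg_left h1 hri.le
      have h3 : A / 2 * nsq X ≤ A * nsq X := by
        have : 0 ≤ nsq X := hn0.trans hn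
        nlinarith
      linarith
    · have hrη : D.η ≤ t - D.ρ z := by
        have h1 : D.ρ z < D.η := by linarith [hlt z hz]
        have h2 : ¬ (-D.η ≤ D.ρ z) := fun h => hcase (abs_le.2 ⟨h, h1.le⟩)
        linarith [not_le.1 h2]
      have hinv : (t - D.ρ z)⁻¹ ≤ D.η⁻¹ := inv_anti₀ hη hrη
      have h1 := (abs_le.1 (D.levi_le z X)).1
      have h2 : -(D.L * ‖X‖ ^ 2 * D.η⁻¹) ≤ (t - D.ρ z)⁻¹ * levi D.ρ z X := by
        have e1 : (t - D.ρ z)⁻¹ * (-(D.L * ‖X‖ ^ 2)) ≤ (t - D.ρ z)⁻¹ * levi D.ρ z X :=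
          mul_le_mul_of_nonneg_left h1 hri.le
        have e2 : (t - D.ρ z)⁻¹ * (D.L * ‖X‖ ^ 2) ≤ D.η⁻¹ * (D.L * ‖X‖ ^ 2) :=
          mul_le_mul_of_nonneg_right hinv (by positivity)
        linarith
      have h3 : D.c * ‖X‖ ^ 2 * (t - D.ρ z)⁻¹ ≤ D.c * ‖X‖ ^ 2 * D.η⁻¹ :=
        mul_le_mul_of_nonneg_left hinv (by positivity)
      have h4 : A / 2 * ‖X‖ ^ 2 = D.c * ‖X‖ ^ 2 * D.η⁻¹ + D.L * ‖X‖ ^ 2 * D.η⁻¹ := by
        rw [hA]
        field_simp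
        ring
      have h5 : A / 2 * ‖X‖ ^ 2 ≤ A / 2 * nsq X := mul_le_mul_of_nonneg_left hn (by positivity)
      linarith
  have hlow0 : ∀ z ∈ D.out' t, ∀ X, A / 2 * nsq X ≤ levi g z X := by
    intro z hz X
    have hr : 0 < t - D.ρ z := sub_pos.2 (hlt z hz)
    have h1 := hlow z hz X
    have h2 : 0 ≤ D.c * ‖X‖ ^ 2 * (t - D.ρ z)⁻¹ := by positivity
    have h3 : 0 ≤ ((t - D.ρ z)⁻¹) ^ 2 * ‖ell D.ρ z X‖ ^ 2 := by positivity
    linarith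
  have hnsq0 : ∀ X : Cn n, 0 ≤ nsq X := fun X => (by positivity : 0 ≤ ‖X‖ ^ 2).trans (norm_sq_le_nsq X)
  -- the upper bound for the gradient
  have hup : ∀ z ∈ D.out' t, ∀ X, ‖ell g z X‖ ^ 2 ≤ C₂ * levi g z X := by
    intro z hz X
    have hr : 0 < t - D.ρ z := sub_pos.2 (hlt z hz)
    rw [hell z hz X]
    have e1 : ‖(((t - D.ρ z)⁻¹ : ℝ) : ℂ) * ell D.ρ z X + A * ell nsq z X‖ ^ 2 ≤
        2 * (((t - D.ρ z)⁻¹) ^ 2 * ‖ell D.ρ z X‖ ^ 2) + 2 * (A ^ 2 * ‖ell nsq z X‖ ^ 2) := by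
      have a1 : ‖(((t - D.ρ z)⁻¹ : ℝ) : ℂ) * ell D.ρ z X + A * ell nsq z X‖ ≤
          (t - D.ρ z)⁻¹ * ‖ell D.ρ z X‖ + A * ‖ell nsq z X‖ := by
        refine (norm_add_le _ _).trans (le_of_eq ?_)
        rw [norm_mul, norm_mul, Complex.norm_real, Complex.norm_real, Real.norm_of_nonneg (inv_pos.2 hr).le,
          Real.norm_of_nonneg hApos.le]
      have a2 := pow_le_pow_left₀ (norm_nonneg _) a1 2
      refine a2.trans ?_
      nlinarith [sq_nonneg ((t - D.ρ z)⁻¹ * ‖ell D.ρ z X‖ - A * ‖ell nsq z X‖)]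
    have hzL : ‖z‖ < D.L := D.norm_lt_of_le ht1' (hlt z hz).le
    have e2 : nsq z ≤ n * D.L ^ 2 := by
      refine (nsq_le_norm_sq z).trans ?_
      refine mul_le_mul_of_nonneg_left ?_ (Nat.cast_nonneg n)
      exact pow_le_pow_left₀ (norm_nonneg _) hzL.le 2
    have e3 : ‖ell nsq z X‖ ^ 2 ≤ (n * D.L ^ 2) * nsq X :=
      (B11a_ell_nsq z X).trans (mul_le_mul_of_nonneg_right e2 (hnsq0 X))
    have e4 : 2 * (A ^ 2 * ‖ell nsq z X‖ ^ 2) ≤ 4 * A * (n * D.L ^ 2) * (A / 2 * nsq X) := by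
      have : 2 * (A ^ 2 * ‖ell nsq z X‖ ^ 2) ≤ 2 * (A ^ 2 * ((n * D.L ^ 2) * nsq X)) := by
        have := mul_le_mul_of_nonneg_left e3 (sq_nonneg A)
        linarith
      refine this.trans (le_of_eq ?_)
      ring
    have e5 : 4 * A * (n * D.L ^ 2) * (A / 2 * nsq X) ≤ 4 * A * (n * D.L ^ 2) * levi g z X :=
      mul_le_mul_of_nonneg_left (hlow0 z hz X) (by positivity)
    have e6 : ((t - D.ρ z)⁻¹) ^ 2 * ‖ell D.ρ z X‖ ^ 2 ≤ levi g z X := by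
      have h1 := hlow z hz X
      have h2 : 0 ≤ D.c * ‖X‖ ^ 2 * (t - D.ρ z)⁻¹ := by positivity
      have h3 : 0 ≤ A / 2 * nsq X := mul_nonneg (by positivity) (hnsq0 X)
      linarith
    rw [hC₂]
    nlinarith
  refine ⟨φ, ?_, ?_, ?_, ?_, ?_⟩
  · intro z hz
    exact (hφAt z hz).contDiffWithinAt
  · intro c
    have hset : {z | z ∈ D.out' t ∧ φ z ≤ c} =
        {z | D.ρ z ≤ t} ∩ {z | D.ρ z + Real.exp (A * nsq z - 3 * C₂ * c) ≤ t} := by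
      ext z
      simp only [Set.mem_ofPred_eq, mem_inter_iff]
      constructor
      · rintro ⟨hz, hle⟩
        have hz' := hlt z hz
        have hr : 0 < t - D.ρ z := sub_pos.2 hz'
        refine ⟨hz'.le, ?_⟩
        have h1 : g z ≤ 3 * C₂ * c := by
          have : (3 * C₂)⁻¹ * g z ≤ c := hle
          rw [inv_mul_le_iff₀ (by positivity)] at this
          exact this
        have h2 : A * nsq z - 3 * C₂ * c ≤ Real.log (t - D.ρ z) := by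
          have : g z = -Real.log (t - D.ρ z) + A * nsq z := rfl
          linarith
        have h3 := (Real.le_log_iff_exp_le hr).1 h2
        linarith
      · rintro ⟨-, hle⟩
        have he := Real.exp_pos (A * nsq z - 3 * C₂ * c)
        have hz' : D.ρ z < t := by linarith
        have hr : 0 < t - D.ρ z := sub_pos.2 hz'
        refine ⟨hz', ?_⟩
        have h2 : A * nsq z - 3 * C₂ * c ≤ Real.log (t - D.ρ z) :=
          (Real.le_log_iff_exp_le hr).2 (by linarith)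
        have h1 : g z ≤ 3 * C₂ * c := by
          have : g z = -Real.log (t - D.ρ z) + A * nsq z := rfl
          linarith
        change (3 * C₂)⁻¹ * g z ≤ c
        rw [inv_mul_le_iff₀ (by positivity)]
        exact h1
    rw [hset]
    refine (D.isCompact_le ht1').inter_right ?_
    refine isClosed_le ?_ continuous_const
    exact hρC.continuous.add (Real.continuous_exp.comp
      ((continuous_const.mul hnsq.continuous).sub continuous_const))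
  · intro z hz X hX
    rw [hleviφ z hz X]
    have h1 := hlow0 z hz X
    have h2 : 0 < ‖X‖ ^ 2 := by
      have := norm_pos_iff.2 hX
      positivity
    have h3 : 0 < nsq X := h2.trans_le (norm_sq_le_nsq X)
    have h4 : 0 < A / 2 * nsq X := by positivity
    exact mul_pos (by positivity) (h4.trans_le h1)
  · intro z hz X
    rw [hleviφ z hz X, hellφ z hz X, norm_mul, Complex.norm_real,
      Real.norm_of_nonneg (by positivity : (0:ℝ) ≤ (3 * C₂)⁻¹), mul_pow]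
    have h1 := hup z hz X
    have h2 : 3 * (((3 * C₂)⁻¹) ^ 2 * ‖ell g z X‖ ^ 2) ≤ 3 * (((3 * C₂)⁻¹) ^ 2 * (C₂ * levi g z X)) := by
      have := mul_le_mul_of_nonneg_left h1 (sq_nonneg ((3 * C₂)⁻¹))
      linarith
    refine h2.trans (le_of_eq ?_)
    field_simp
  · intro z hz X
    have hr : 0 < t - D.ρ z := sub_pos.2 (hlt z hz)
    rw [hleviφ z hz X]
    have e1 : (‖ell D.ρ z X‖ / (t - D.ρ z) + ‖X‖ / Real.sqrt (t - D.ρ z)) ^ 2 ≤
        2 * (((t - D.ρ z)⁻¹) ^ 2 * ‖ell D.ρ z X‖ ^ 2) + 2 * (‖X‖ ^ 2 * (t - D.ρ z)⁻¹) := by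
      have a1 : (‖X‖ / Real.sqrt (t - D.ρ z)) ^ 2 = ‖X‖ ^ 2 * (t - D.ρ z)⁻¹ := by
        rw [div_pow, Real.sq_sqrt hr.le, div_eq_mul_inv]
      have a2 : (‖ell D.ρ z X‖ / (t - D.ρ z)) ^ 2 = ((t - D.ρ z)⁻¹) ^ 2 * ‖ell D.ρ z X‖ ^ 2 := by
        rw [div_eq_mul_inv, mul_pow, mul_comm]
      rw [← a1, ← a2]
      nlinarith [sq_nonneg (‖ell D.ρ z X‖ / (t - D.ρ z) - ‖X‖ / Real.sqrt (t - D.ρ z))]
    have h1 := hlow z hz X
    have h2 : 0 ≤ D.c * ‖X‖ ^ 2 * (t - D.ρ z)⁻¹ := by positivity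
    have h3 : 0 ≤ ((t - D.ρ z)⁻¹) ^ 2 * ‖ell D.ρ z X‖ ^ 2 := by positivity
    have h4 : 0 ≤ A / 2 * nsq X := mul_nonneg (by positivity) (hnsq0 X)
    have h5 : ((t - D.ρ z)⁻¹) ^ 2 * ‖ell D.ρ z X‖ ^ 2 ≤ levi g z X := by linarith
    have h6 : ‖X‖ ^ 2 * (t - D.ρ z)⁻¹ ≤ 1 / D.c * levi g z X := by
      have : D.c * ‖X‖ ^ 2 * (t - D.ρ z)⁻¹ ≤ levi g z X := by linarith
      rw [one_div, inv_mul_eq_div, le_div_iff₀ hc]
      linarith
    refine e1.trans ?_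
    have h7 : C₁ * (3 * C₂) * ((3 * C₂)⁻¹ * levi g z X) = C₁ * levi g z X := by
      field_simp
    rw [h7, hC₁]
    nlinarith

end Dom

end HankelSPC
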