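import Pool.Agent.Lib.MP_e1cf54_an.B9b
import Pool.Agent.Lib.MP_e1cf54_an.B11a

/-! Row B11b: dbar on the domain -/

open MeasureTheory Set Filter
open scoped ENNReal NNReal Topology ContDiff

namespace HankelSPC

variable {n : ℕ}

namespace Dom

theorem B11b_open (D : Dom n) (t : ℝ) : IsOpen (D.out' t) :=
  isOpen_lt D.smooth.continuous continuous_const

/-- From `donnelly_fefferman` with the weight of `exists_weight` and `q = C κ²`. -/
theorem dbar_general (D : Dom n) : D.DbarProp := by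
  obtain ⟨C, hC, hw⟩ := D.exists_weight
  refine ⟨12 * C, by positivity, ?_⟩
  intro t ht0 ht β κ hβm hcl hκm hκ0 hβ hfin
  obtain ⟨φ, hφ, hex, hpos, hDF, hbd⟩ := hw t ht0 ht
  have hint : ∫⁻ z in D.out' t, ENNReal.ofReal (C * κ z ^ 2)
      = ENNReal.ofReal C * ∫⁻ z in D.out' t, ENNReal.ofReal (κ z ^ 2) := by
    rw [← lintegral_const_mul' _ _ ENNReal.ofReal_ne_top]
    refine lintegral_congr fun z => ?_
    rw [ENNReal.ofReal_mul hC.le]
  obtain ⟨u, hum, hdb, hu⟩ := donnelly_fefferman (D.B11b_open t) (q := fun z => C * κ z ^ 2)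
    hφ hex hpos hDF β hβm hcl ((hκm.pow_const 2).const_mul C)
    (fun z _ => mul_nonneg hC.le (sq_nonneg _))
    (by
      intro z hz X
      have h1 := hβ z hz X
      have h2 := hbd z hz X
      have h3 : ‖formEval (β z) X‖ ^ 2 ≤
          (κ z * (‖ell D.ρ z X‖ / (t - D.ρ z) + ‖X‖ / Real.sqrt (t - D.ρ z))) ^ 2 :=
        pow_le_pow_left₀ (norm_nonneg _) h1 2
      have h4 : κ z ^ 2 * (‖ell D.ρ z X‖ / (t - D.ρ z) + ‖X‖ / Real.sqrt (t - D.ρ z)) ^ 2
          ≤ κ z ^ 2 * (C * levi φ z X) := mul_le_mul_of_nonneg_left h2 (sq_nonneg _)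
      rw [mul_pow] at h3
      calc ‖formEval (β z) X‖ ^ 2 ≤ κ z ^ 2 * (C * levi φ z X) := h3.trans h4
        _ = C * κ z ^ 2 * levi φ z X := by ring)
    (by rw [hint]; exact ENNReal.mul_ne_top ENNReal.ofReal_ne_top hfin)
  refine ⟨u, hum, hdb, hu.trans (le_of_eq ?_)⟩
  rw [hint, ← mul_assoc, ENNReal.ofReal_mul (by norm_num : (0 : ℝ) ≤ 12)]
  norm_num

end Dom

end HankelSPC
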