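import Pool.Agent.Lib.MP_e1cf54_an.C1a

/-! Row B11c: dbar on the domain, corollaries -/

open MeasureTheory Set Filter
open scoped ENNReal NNReal Topology ContDiff

namespace HankelSPC

variable {n : ℕ}

namespace Dom

/-- On `Ω`, in terms of `nrm`. -/
theorem dbar_nrm (D : Dom n) (hD : D.DbarProp) : ∃ C : ℝ, 0 < C ∧ ∀ (β : Cn n → Fin n → ℂ) (κ : Cn n → ℝ),
      (∀ j, AEStronglyMeasurable (fun z => β z j) (volume.restrict D.Ω)) →
      WeakClosed D.Ω β → AEMeasurable κ (volume.restrict D.Ω) → (∀ z ∈ D.Ω, 0 ≤ κ z) →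
      (∀ z ∈ D.Ω, ∀ X, ‖formEval (β z) X‖ ≤ κ z * D.nrm z X) →
      ∫⁻ z in D.Ω, ENNReal.ofReal (κ z ^ 2) ≠ ⊤ →
      ∃ u : Cn n → ℂ, AEStronglyMeasurable u (volume.restrict D.Ω) ∧ WeakDbar D.Ω u β ∧
        ∫⁻ z in D.Ω, ENNReal.ofReal (‖u z‖ ^ 2)
          ≤ ENNReal.ofReal C * ∫⁻ z in D.Ω, ENNReal.ofReal (κ z ^ 2) := by
  obtain ⟨C, hC, h⟩ := hD
  refine ⟨C, hC, fun β κ hβ hcl hκ hκ0 hle hfin => ?_⟩
  refine h 0 le_rfl (by have := D.η_pos; linarith) β κ hβ hcl hκ hκ0 (fun z hz X => ?_) hfin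
  have hz' : D.ρ z < 0 := hz
  have h1 := hle z hz X
  rw [nrm_apply, abs_of_neg hz'] at h1
  rw [zero_sub]
  exact h1

/-- Plain `L²` estimate on the outer domain. -/
theorem dbar_outer (D : Dom n) (hD : D.DbarProp) : ∃ C : ℝ, 0 < C ∧ ∀ t : ℝ, 0 ≤ t → t ≤ D.η / 2 →
    ∀ β : Cn n → Fin n → ℂ,
      (∀ j, AEStronglyMeasurable (fun z => β z j) (volume.restrict (D.out' t))) →
      WeakClosed (D.out' t) β →
      ∫⁻ z in D.out' t, ENNReal.ofReal (∑ j, ‖β z j‖ ^ 2) ≠ ⊤ →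
      ∃ u : Cn n → ℂ, AEStronglyMeasurable u (volume.restrict (D.out' t)) ∧
        WeakDbar (D.out' t) u β ∧
        ∫⁻ z in D.out' t, ENNReal.ofReal (‖u z‖ ^ 2)
          ≤ ENNReal.ofReal C * ∫⁻ z in D.out' t, ENNReal.ofReal (∑ j, ‖β z j‖ ^ 2) := by
  obtain ⟨C, hC, h⟩ := hD
  have hL := D.L_ge
  set M : ℝ := ((n : ℝ) + 1) * (1 + D.L) with hM
  have hM0 : 0 < M := by positivity
  refine ⟨C * M, by positivity, fun t ht0 ht β hβ hcl hfin => ?_⟩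
  set κ : Cn n → ℝ := fun z => Real.sqrt (M * ∑ j, ‖β z j‖ ^ 2) with hκ
  have hsum0 : ∀ z, 0 ≤ ∑ j, ‖β z j‖ ^ 2 := fun z => Finset.sum_nonneg fun j _ => by positivity
  have hκsq : ∀ z, κ z ^ 2 = M * ∑ j, ‖β z j‖ ^ 2 := fun z =>
    Real.sq_sqrt (mul_nonneg hM0.le (hsum0 z))
  have hint : ∫⁻ z in D.out' t, ENNReal.ofReal (κ z ^ 2) =
      ENNReal.ofReal M * ∫⁻ z in D.out' t, ENNReal.ofReal (∑ j, ‖β z j‖ ^ 2) := by
    rw [← lintegral_const_mul' _ _ ENNReal.ofReal_ne_top]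
    refine lintegral_congr fun z => ?_
    rw [hκsq, ENNReal.ofReal_mul hM0.le]
  have hκm : AEMeasurable κ (volume.restrict (D.out' t)) := by
    have h1 : AEMeasurable (fun z => ∑ j, ‖β z j‖ ^ 2) (volume.restrict (D.out' t)) :=
      Finset.aemeasurable_fun_sum _ fun j _ => ((hβ j).norm.aemeasurable.pow_const 2)
    exact (h1.const_mul M).sqrt
  have hbound : ∀ z ∈ D.out' t, ∀ X, ‖formEval (β z) X‖
      ≤ κ z * (‖ell D.ρ z X‖ / (t - D.ρ z) + ‖X‖ / Real.sqrt (t - D.ρ z)) := by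
    intro z hz X
    have hz' : D.ρ z < t := hz
    have hpos : 0 < t - D.ρ z := by linarith
    have hle2 : t - D.ρ z ≤ 1 + D.L := by
      have h1 := (abs_le.1 (D.bd0 z)).1
      have h2 := D.η_lt
      linarith
    have h1 : ‖formEval (β z) X‖ ≤ ∑ j, ‖β z j‖ * ‖X‖ := by
      refine (norm_sum_le _ _).trans (Finset.sum_le_sum fun j _ => ?_)
      rw [norm_mul, RCLike.norm_conj]
      exact mul_le_mul_of_nonneg_left (norm_le_pi_norm X j) (norm_nonneg _)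
    have h2 : (∑ j, ‖β z j‖) ≤ Real.sqrt ((n : ℝ) + 1) * Real.sqrt (∑ j, ‖β z j‖ ^ 2) := by
      rw [← Real.sqrt_mul (by positivity)]
      refine Real.le_sqrt_of_sq_le ?_
      have h4 := sq_sum_le_card_mul_sum_sq (s := (Finset.univ : Finset (Fin n)))
        (f := fun j => ‖β z j‖)
      rw [Finset.card_univ, Fintype.card_fin] at h4
      refine h4.trans ?_
      refine mul_le_mul_of_nonneg_right ?_ (hsum0 z)
      linarith
    have h5 : ‖X‖ = Real.sqrt (t - D.ρ z) * (‖X‖ / Real.sqrt (t - D.ρ z)) := by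
      rw [mul_div_cancel₀]
      exact (Real.sqrt_pos.2 hpos).ne'
    have h6 : Real.sqrt (t - D.ρ z) ≤ Real.sqrt (1 + D.L) := Real.sqrt_le_sqrt hle2
    have h7 : κ z = Real.sqrt ((n : ℝ) + 1) * Real.sqrt (1 + D.L) *
        Real.sqrt (∑ j, ‖β z j‖ ^ 2) := by
      rw [hκ, ← Real.sqrt_mul (by positivity), ← Real.sqrt_mul (by positivity)]
    have h8 : 0 ≤ ‖X‖ / Real.sqrt (t - D.ρ z) := by positivity
    have h9 : 0 ≤ ‖ell D.ρ z X‖ / (t - D.ρ z) := by positivity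
    calc ‖formEval (β z) X‖ ≤ (∑ j, ‖β z j‖) * ‖X‖ := by rw [Finset.sum_mul]; exact h1
      _ ≤ (Real.sqrt ((n : ℝ) + 1) * Real.sqrt (∑ j, ‖β z j‖ ^ 2)) * ‖X‖ :=
          mul_le_mul_of_nonneg_right h2 (norm_nonneg _)
      _ = (Real.sqrt ((n : ℝ) + 1) * Real.sqrt (∑ j, ‖β z j‖ ^ 2)) *
            (Real.sqrt (t - D.ρ z) * (‖X‖ / Real.sqrt (t - D.ρ z))) := by rw [← h5]
      _ ≤ (Real.sqrt ((n : ℝ) + 1) * Real.sqrt (∑ j, ‖β z j‖ ^ 2)) *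
            (Real.sqrt (1 + D.L) * (‖X‖ / Real.sqrt (t - D.ρ z))) :=
          mul_le_mul_of_nonneg_left (mul_le_mul_of_nonneg_right h6 h8) (by positivity)
      _ = κ z * (‖X‖ / Real.sqrt (t - D.ρ z)) := by rw [h7]; ring
      _ ≤ κ z * (‖ell D.ρ z X‖ / (t - D.ρ z) + ‖X‖ / Real.sqrt (t - D.ρ z)) :=
          mul_le_mul_of_nonneg_left (by linarith) (Real.sqrt_nonneg _)
  obtain ⟨u, hu, hdb, hle⟩ := h t ht0 ht β κ hβ hcl hκm (fun z _ => Real.sqrt_nonneg _)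
    hbound (by rw [hint]; exact ENNReal.mul_ne_top ENNReal.ofReal_ne_top hfin)
  refine ⟨u, hu, hdb, hle.trans_eq ?_⟩
  rw [hint, ENNReal.ofReal_mul hC.le, mul_assoc]

end Dom

end HankelSPC
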