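import Pool.Agent.Lib.MP_e1cf54_an.B2a

/-! Row B2b: classical implies weak; product rule -/

open MeasureTheory Set
open scoped ENNReal NNReal Topology ContDiff

namespace HankelSPC

variable {n : ℕ}

theorem B2b_cont {U : Set (Cn n)} (hU : IsOpen U) {u φ : Cn n → ℂ}
    (hu : ContinuousOn u U) (hφ : Continuous φ) (hs : tsupport φ ⊆ U) :
    Continuous fun z => u z * φ z := by
  refine continuous_iff_continuousAt.2 fun z => ?_
  by_cases hz : z ∈ U
  · exact (hu.continuousAt (hU.mem_nhds hz)).mul hφ.continuousAt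
  · have hz' : z ∉ tsupport φ := fun h => hz (hs h)
    have h1 : φ =ᶠ[𝓝 z] 0 := notMem_tsupport_iff_eventuallyEq.1 hz'
    have h2 : (fun z => u z * φ z) =ᶠ[𝓝 z] fun _ => 0 := by
      filter_upwards [h1] with w hw
      simp [hw]
    exact (continuousAt_const (y := (0 : ℂ))).congr h2.symm

theorem B2b_int {U : Set (Cn n)} (hU : IsOpen U) {u φ : Cn n → ℂ}
    (hu : ContinuousOn u U) (hφ : Continuous φ) (hc : HasCompactSupport φ) (hs : tsupport φ ⊆ U) :
    Integrable fun z => u z * φ z :=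
  (B2b_cont hU hu hφ hs).integrable_of_hasCompactSupport hc.mul_left

theorem B2b_tsupport_fderiv (φ : Cn n → ℂ) (v : Cn n) :
    tsupport (fun z => fderiv ℝ φ z v) ⊆ tsupport φ :=
  tsupport_fderiv_apply_subset ℝ v

theorem B2b_ibp {U : Set (Cn n)} (hU : IsOpen U) {u φ : Cn n → ℂ}
    (hu : ∀ z ∈ U, DifferentiableAt ℝ u z) (hφ : IsTest U φ) (v : Cn n) (M : ℝ)
    (hM : ∀ z ∈ tsupport φ, ‖fderiv ℝ u z v‖ ≤ M) :
    Integrable (fun z => fderiv ℝ u z v * φ z) ∧ Integrable (fun z => u z * fderiv ℝ φ z v) ∧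
    ∫ z, u z * fderiv ℝ φ z v = - ∫ z, fderiv ℝ u z v * φ z := by
  have huc : ContinuousOn u U := fun z hz => (hu z hz).continuousAt.continuousWithinAt
  have hφc : Continuous φ := hφ.1.continuous
  have hφ' : Continuous fun z => fderiv ℝ φ z v :=
    (hφ.1.continuous_fderiv (by simp)).clm_apply continuous_const
  have hi1 : Integrable fun z => u z * φ z := B2b_int hU huc hφc hφ.2.1 hφ.2.2
  have hi2 : Integrable fun z => u z * fderiv ℝ φ z v :=
    B2b_int hU huc hφ' (hφ.2.1.fderiv_apply ℝ v) ((B2b_tsupport_fderiv φ v).trans hφ.2.2)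
  have hi0 : Integrable φ := hφc.integrable_of_hasCompactSupport hφ.2.1
  have hi3 : Integrable fun z => fderiv ℝ u z v * φ z := by
    refine Integrable.mono' (hi0.norm.const_mul M) ?_ (Filter.Eventually.of_forall fun z => ?_)
    · exact ((measurable_fderiv_apply_const ℝ u v).mul hφc.measurable).aestronglyMeasurable
    · rw [norm_mul]
      by_cases hz : z ∈ tsupport φ
      · exact mul_le_mul_of_nonneg_right (hM z hz) (norm_nonneg _)
      · simp [image_eq_zero_of_notMem_tsupport hz]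
  refine ⟨hi3, hi2, ?_⟩
  exact integral_mul_fderiv_eq_neg_fderiv_mul_of_integrable hi3 hi2 hi1
    (fun z hz => hu z (hφ.2.2 hz)) (fun z _ => (hφ.1.differentiable (by simp)).differentiableAt)

theorem B2b_weak {U : Set (Cn n)} (hU : IsOpen U) {u φ : Cn n → ℂ}
    (hu : ∀ z ∈ U, DifferentiableAt ℝ u z) (hφ : IsTest U φ)
    (hM : ∀ v : Cn n, ∃ M : ℝ, ∀ z ∈ tsupport φ, ‖fderiv ℝ u z v‖ ≤ M) (j : Fin n) :
    ∫ z, u z * dzb φ z (ee j) = - ∫ z, φ z * dzb u z (ee j) := by
  obtain ⟨M1, h1⟩ := hM (ee j)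
  obtain ⟨M2, h2⟩ := hM (Complex.I • ee j)
  obtain ⟨a1, a2, a3⟩ := B2b_ibp hU hu hφ _ M1 h1
  obtain ⟨b1, b2, b3⟩ := B2b_ibp hU hu hφ _ M2 h2
  have e1 : (fun z => u z * dzb φ z (ee j)) = fun z => (1 / 2) * (u z * fderiv ℝ φ z (ee j))
      + (1 / 2 * Complex.I) * (u z * fderiv ℝ φ z (Complex.I • ee j)) := by
    ext z; simp only [dzb]; ring
  have e2 : (fun z => φ z * dzb u z (ee j)) = fun z => (1 / 2) * (fderiv ℝ u z (ee j) * φ z)
      + (1 / 2 * Complex.I) * (fderiv ℝ u z (Complex.I • ee j) * φ z) := by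
    ext z; simp only [dzb]; ring
  rw [e1, e2, integral_add (a2.const_mul _) (b2.const_mul _), integral_add (a1.const_mul _) (b1.const_mul _)]
  simp only [integral_const_mul]
  rw [a3, b3]
  ring

/-- Classical solutions are weak solutions (integration by parts:
`integral_mul_fderiv_eq_neg_fderiv_mul_of_integrable`). -/
theorem weakDbar_of_contDiffOn {U : Set (Cn n)} (hU : IsOpen U) {u : Cn n → ℂ}
    (hu : ContDiffOn ℝ 1 u U) : WeakDbar U u fun z j => dzb u z (ee j) := by
  intro φ hφ j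
  refine B2b_weak hU (fun z hz => (hu.contDiffAt (hU.mem_nhds hz)).differentiableAt (by norm_num)) hφ ?_ j
  intro v
  have hc : ContinuousOn (fun z => fderiv ℝ u z v) (tsupport φ) :=
    ((hu.continuousOn_fderiv_of_isOpen hU (by norm_num)).mono hφ.2.2).clm_apply continuousOn_const
  obtain ⟨M, hM⟩ := (show IsCompact (tsupport φ) from hφ.2.1).exists_bound_of_continuousOn hc
  exact ⟨M, hM⟩

theorem weakDbar_of_holomorphic {U : Set (Cn n)} (hU : IsOpen U) {u : Cn n → ℂ}
    (hu : DifferentiableOn ℂ u U) : WeakDbar U u fun _ _ => 0 := by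
  intro φ hφ j
  have hd : ∀ z ∈ U, DifferentiableAt ℂ u z := fun z hz => (hu z hz).differentiableAt (hU.mem_nhds hz)
  have hK : IsCompact (tsupport φ) := hφ.2.1
  have hM : ∀ v : Cn n, ∃ M : ℝ, ∀ z ∈ tsupport φ, ‖fderiv ℝ u z v‖ ≤ M := by
    obtain ⟨δ₁, hδ₁, hδU⟩ := hK.exists_cthickening_subset_open hU hφ.2.2
    obtain ⟨δ₂, hδ₂, hδc⟩ := hK.exists_isCompact_cthickening
    set δ := min δ₁ δ₂ with hδ
    have hδ0 : 0 < δ := lt_min hδ₁ hδ₂
    have hsub : Metric.cthickening δ (tsupport φ) ⊆ U :=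
      (Metric.cthickening_mono (min_le_left _ _) _).trans hδU
    have hcomp : IsCompact (Metric.cthickening δ (tsupport φ)) :=
      hδc.of_isClosed_subset Metric.isClosed_cthickening (Metric.cthickening_mono (min_le_right _ _) _)
    obtain ⟨C, hC⟩ := hcomp.exists_bound_of_continuousOn
      (f := u) (fun z hz => (hd z (hsub hz)).continuousAt.continuousWithinAt)
    intro v
    by_cases hv : v = 0
    · exact ⟨0, fun z _ => by simp [hv]⟩
    have hv' : 0 < ‖v‖ := norm_pos_iff.2 hv
    refine ⟨C / (δ / ‖v‖), fun z hz => ?_⟩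
    have hR : 0 < δ / ‖v‖ := div_pos hδ0 hv'
    have hmem : ∀ ζ : ℂ, ‖ζ‖ ≤ δ / ‖v‖ → z + ζ • v ∈ Metric.cthickening δ (tsupport φ) := by
      intro ζ hζ
      refine Metric.mem_cthickening_of_dist_le (z + ζ • v) z δ _ hz ?_
      rw [dist_eq_norm, add_sub_cancel_left, norm_smul]
      rwa [le_div_iff₀ hv'] at hζ
    have hφd : ∀ ζ : ℂ, HasDerivAt (fun ζ : ℂ => z + ζ • v) v ζ := by
      intro ζ
      simpa using ((hasDerivAt_id ζ).smul_const v).const_add z
    have hdiff : ∀ ζ : ℂ, ‖ζ‖ ≤ δ / ‖v‖ → DifferentiableAt ℂ (fun ζ : ℂ => u (z + ζ • v)) ζ := by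
      intro ζ hζ
      exact (hd _ (hsub (hmem ζ hζ))).comp ζ (hφd ζ).differentiableAt
    have hcl : DiffContOnCl ℂ (fun ζ : ℂ => u (z + ζ • v)) (Metric.ball 0 (δ / ‖v‖)) := by
      apply DifferentiableOn.diffContOnCl
      intro ζ hζ
      rw [closure_ball _ hR.ne', mem_closedBall_zero_iff] at hζ
      exact (hdiff ζ hζ).differentiableWithinAt
    have hb := Complex.norm_deriv_le_of_forall_mem_sphere_norm_le hR hcl (C := C) (by
      intro ζ hζ
      rw [mem_sphere_zero_iff_norm] at hζ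
      exact hC _ (hmem ζ hζ.le))
    have hder : deriv (fun ζ : ℂ => u (z + ζ • v)) 0 = fderiv ℝ u z v := by
      have hz0 : DifferentiableAt ℂ u z := hd z (hφ.2.2 hz)
      have h1 : HasFDerivAt u (fderiv ℂ u z) (z + (0 : ℂ) • v) := by simpa using hz0.hasFDerivAt
      have h2 : deriv (fun ζ : ℂ => u (z + ζ • v)) 0 = (fderiv ℂ u z) v :=
        (h1.comp_hasDerivAt (0 : ℂ) (hφd 0)).deriv
      rw [hz0.fderiv_restrictScalars ℝ, h2]
      rfl
    rwa [hder] at hb
  have h := B2b_weak hU (fun z hz => (hd z hz).restrictScalars ℝ) hφ hM j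
  rw [h]
  congr 1
  apply integral_congr_ae
  refine Filter.Eventually.of_forall fun z => ?_
  by_cases hz : z ∈ U
  · simp only [(dzb_comp_mul (hd z hz) (ee j)).1]
  · have hz' : z ∉ tsupport φ := fun h => hz (hφ.2.2 h)
    simp [image_eq_zero_of_notMem_tsupport hz']

theorem B2b_dzb_zero {φ : Cn n → ℂ} {z : Cn n} (h : φ =ᶠ[𝓝 z] 0) (X : Cn n) : dzb φ z X = 0 := by
  have : fderiv ℝ φ z = 0 := by
    rw [h.fderiv_eq]
    exact fderiv_const_apply (0 : ℂ)
  simp [dzb, this]

theorem B2b_dzb_mul {U : Set (Cn n)} {a φ : Cn n → ℂ} (ha : ∀ z ∈ U, DifferentiableAt ℝ a z)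
    (hφ : IsTest U φ) (z X : Cn n) :
    dzb (fun w => a w * φ w) z X = a z * dzb φ z X + φ z * dzb a z X := by
  by_cases hz : z ∈ U
  · exact dzb_mul (ha z hz) (hφ.1.differentiable (by simp)).differentiableAt X
  · have hz' : z ∉ tsupport φ := fun h => hz (hφ.2.2 h)
    have h1 : φ =ᶠ[𝓝 z] 0 := notMem_tsupport_iff_eventuallyEq.1 hz'
    have h2 : (fun w => a w * φ w) =ᶠ[𝓝 z] 0 := by
      filter_upwards [h1] with w hw
      simp [hw]
    rw [B2b_dzb_zero h1, B2b_dzb_zero h2, h1.eq_of_nhds]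
    simp

theorem B2b_locL2_int {U : Set (Cn n)} {u g : Cn n → ℂ} (hu : LocL2 U u)
    (hg : Continuous g) (hc : HasCompactSupport g) (hs : tsupport g ⊆ U) :
    Integrable fun z => u z * g z := by
  have hK : IsCompact (tsupport g) := hc
  have h1 : MemLp u 2 (volume.restrict (tsupport g)) := hu _ hs hK
  have : IsFiniteMeasure (volume.restrict (tsupport g)) := ⟨by simpa using hK.measure_lt_top⟩
  have h2 : IntegrableOn u (tsupport g) := h1.integrable (by norm_num)
  obtain ⟨C, hC⟩ := hg.bounded_above_of_compact_support hc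
  have h3 : IntegrableOn (fun z => u z * g z) (tsupport g) :=
    h2.mul_bdd hg.aestronglyMeasurable (Filter.Eventually.of_forall hC)
  refine (integrableOn_iff_integrable_of_support_subset ?_).1 h3
  intro z hz
  by_contra hz'
  exact hz (by simp [image_eq_zero_of_notMem_tsupport hz'])

/-- Product rule. -/
theorem WeakDbar.mul {U : Set (Cn n)} (hU : IsOpen U) {u a : Cn n → ℂ} {β : Cn n → Fin n → ℂ}
    (hu : LocL2 U u) (hβ : ∀ j, LocL2 U fun z => β z j) (h : WeakDbar U u β)
    (ha : ContDiffOn ℝ 1 a U) :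
    WeakDbar U (fun z => a z * u z) (fun z j => a z * β z j + u z * dzb a z (ee j)) := by
  intro φ hφ j
  have had : ∀ z ∈ U, DifferentiableAt ℝ a z := fun z hz =>
    (ha.contDiffAt (hU.mem_nhds hz)).differentiableAt (by norm_num)
  have hac : ContinuousOn a U := ha.continuousOn
  -- `a φ` is a `C¹` test function
  have haφ : ContDiff ℝ 1 (fun z => a z * φ z) := by
    rw [contDiff_iff_contDiffAt]
    intro z
    by_cases hz : z ∈ U
    · exact (ha.contDiffAt (hU.mem_nhds hz)).mul (hφ.1.contDiffAt.of_le (by simp))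
    · have hz' : z ∉ tsupport φ := fun h => hz (hφ.2.2 h)
      have h1 : φ =ᶠ[𝓝 z] 0 := notMem_tsupport_iff_eventuallyEq.1 hz'
      have h2 : (fun w => a w * φ w) =ᶠ[𝓝 z] fun _ => 0 := by
        filter_upwards [h1] with w hw
        simp [hw]
      exact contDiffAt_const.congr_of_eventuallyEq h2
  have hcs : HasCompactSupport (fun z => a z * φ z) := hφ.2.1.mul_left
  have hsub : tsupport (fun z => a z * φ z) ⊆ U := (tsupport_mul_subset_right).trans hφ.2.2
  have h1 := h.test1 hU hu hβ haφ hcs hsub j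
  -- the other term
  have hda : ContinuousOn (fun z => dzb a z (ee j)) U := by
    have hf := ha.continuousOn_fderiv_of_isOpen hU (by norm_num)
    have h1 : ContinuousOn (fun z => fderiv ℝ a z (ee j)) U := hf.clm_apply continuousOn_const
    have h2 : ContinuousOn (fun z => fderiv ℝ a z (Complex.I • ee j)) U := hf.clm_apply continuousOn_const
    exact continuousOn_const.mul (h1.add (continuousOn_const.mul h2))
  have hφc : Continuous φ := hφ.1.continuous
  have i1 : Integrable fun z => u z * (dzb a z (ee j) * φ z) := by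
    refine B2b_locL2_int hu (B2b_cont hU hda hφc hφ.2.2) hφ.2.1.mul_left ?_
    exact (tsupport_mul_subset_right).trans hφ.2.2
  have hdφ : Continuous fun z => dzb (fun w => a w * φ w) z (ee j) := by
    have hf := haφ.continuous_fderiv (by norm_num)
    exact continuous_const.mul ((hf.clm_apply continuous_const).add
      (continuous_const.mul (hf.clm_apply continuous_const)))
  have hts : tsupport (fun z => dzb (fun w => a w * φ w) z (ee j)) ⊆ tsupport (fun w => a w * φ w) := by
    refine closure_minimal ?_ (isClosed_tsupport _)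
    intro z hz
    by_contra hz'
    exact hz (B2b_dzb_zero (notMem_tsupport_iff_eventuallyEq.1 hz') _)
  have i2 : Integrable fun z => u z * dzb (fun w => a w * φ w) z (ee j) := by
    refine B2b_locL2_int hu hdφ ?_ (hts.trans hsub)
    exact HasCompactSupport.of_support_subset_isCompact hcs ((subset_tsupport _).trans hts)
  have i3 : Integrable fun z => (a z * φ z) * β z j := by
    have := B2b_locL2_int (hβ j) haφ.continuous hcs hsub
    refine this.congr (Filter.Eventually.of_forall fun z => ?_)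
    simp only; ring
  have e1 : (fun z => a z * u z * dzb φ z (ee j)) = fun z =>
      u z * dzb (fun w => a w * φ w) z (ee j) - u z * (dzb a z (ee j) * φ z) := by
    ext z
    rw [B2b_dzb_mul had hφ]
    ring
  have e2 : (fun z => φ z * (a z * β z j + u z * dzb a z (ee j))) = fun z =>
      (a z * φ z) * β z j + u z * (dzb a z (ee j) * φ z) := by
    ext z; ring
  rw [e1, e2, integral_sub i2 i1, integral_add i3 i1, h1]
  ring

/-- A `C¹` form which is closed in the classical sense is weakly closed. -/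
theorem weakClosed_of_contDiffOn {U : Set (Cn n)} (hU : IsOpen U) {β : Cn n → Fin n → ℂ}
    (hβ : ∀ j, ContDiffOn ℝ 1 (fun z => β z j) U)
    (h : ∀ z ∈ U, ∀ j k, dzb (fun w => β w j) z (ee k) = dzb (fun w => β w k) z (ee j)) :
    WeakClosed U β := by
  intro φ hφ j k
  have h1 := weakDbar_of_contDiffOn hU (hβ j) φ hφ k
  have h2 := weakDbar_of_contDiffOn hU (hβ k) φ hφ j
  simp only at h1 h2
  rw [h1, h2]
  congr 1
  apply integral_congr_ae
  refine Filter.Eventually.of_forall fun z => ?_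
  by_cases hz : z ∈ U
  · simp only [h z hz j k]
  · have hz' : z ∉ tsupport φ := fun h => hz (hφ.2.2 h)
    simp [image_eq_zero_of_notMem_tsupport hz']

end HankelSPC
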