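import Pool.Agent.Lib.MP_e1cf54_an.L1a

/-! Row L1b: calculus of dz, dzb -/

open MeasureTheory Set
open scoped ENNReal NNReal Topology ContDiff

namespace HankelSPC

variable {n : ℕ}

private lemma L1b_ofReal {ρ : Cn n → ℝ} {z : Cn n} (hρ : DifferentiableAt ℝ ρ z) :
    HasFDerivAt (fun w => (ρ w : ℂ)) (Complex.ofRealCLM.comp (fderiv ℝ ρ z)) z :=
  Complex.ofRealCLM.hasFDerivAt.comp z hρ.hasFDerivAt

/-- `∂̄ρ(X) = conj (∂ρ(X))` and `∂ρ(X)` for real valued `ρ`. -/
lemma dzb_ofReal {ρ : Cn n → ℝ} {z : Cn n} (hρ : DifferentiableAt ℝ ρ z) (X : Cn n) :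
    dzb (fun w => (ρ w : ℂ)) z X = (starRingEnd ℂ) (ell ρ z X) := by
  unfold dzb ell
  rw [(L1b_ofReal hρ).fderiv]
  simp only [ContinuousLinearMap.comp_apply, Complex.ofRealCLM_apply, map_mul, map_sub,
    Complex.conj_ofReal, Complex.conj_I, map_div₀, map_one]
  rw [show (starRingEnd ℂ) 2 = 2 from Complex.conj_ofNat 2]
  ring

lemma dz_ofReal {ρ : Cn n → ℝ} {z : Cn n} (hρ : DifferentiableAt ℝ ρ z) (X : Cn n) :
    dz (fun w => (ρ w : ℂ)) z X = ell ρ z X := by
  unfold dz ell
  rw [(L1b_ofReal hρ).fderiv]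
  simp only [ContinuousLinearMap.comp_apply, Complex.ofRealCLM_apply]

lemma dzb_add {u v : Cn n → ℂ} {z : Cn n} (hu : DifferentiableAt ℝ u z)
    (hv : DifferentiableAt ℝ v z) (X : Cn n) :
    dzb (fun w => u w + v w) z X = dzb u z X + dzb v z X := by
  have h1 : HasFDerivAt (fun w => u w + v w) (fderiv ℝ u z + fderiv ℝ v z) z :=
    hu.hasFDerivAt.add hv.hasFDerivAt
  unfold dzb
  rw [h1.fderiv]
  simp only [_root_.add_apply]
  ring

lemma dzb_mul {u v : Cn n → ℂ} {z : Cn n} (hu : DifferentiableAt ℝ u z)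
    (hv : DifferentiableAt ℝ v z) (X : Cn n) :
    dzb (fun w => u w * v w) z X = u z * dzb v z X + v z * dzb u z X := by
  have h1 : HasFDerivAt (fun w => u w * v w) (u z • fderiv ℝ v z + v z • fderiv ℝ u z) z :=
    hu.hasFDerivAt.mul hv.hasFDerivAt
  unfold dzb
  rw [h1.fderiv]
  simp only [_root_.add_apply, _root_.smul_apply, smul_eq_mul]
  ring

lemma dz_mul {u v : Cn n → ℂ} {z : Cn n} (hu : DifferentiableAt ℝ u z)
    (hv : DifferentiableAt ℝ v z) (X : Cn n) :
    dz (fun w => u w * v w) z X = u z * dz v z X + v z * dz u z X := by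
  have h1 : HasFDerivAt (fun w => u w * v w) (u z • fderiv ℝ v z + v z • fderiv ℝ u z) z :=
    hu.hasFDerivAt.mul hv.hasFDerivAt
  unfold dz
  rw [h1.fderiv]
  simp only [_root_.add_apply, _root_.smul_apply, smul_eq_mul]
  ring

/-- `conj (∂̄u(X)) = ∂ū(X)`. -/
lemma conj_dzb {u : Cn n → ℂ} {z : Cn n} (hu : DifferentiableAt ℝ u z) (X : Cn n) :
    (starRingEnd ℂ) (dzb u z X) = dz (fun w => (starRingEnd ℂ) (u w)) z X := by
  have h1 : HasFDerivAt (fun w => (starRingEnd ℂ) (u w))
      ((Complex.conjCLE : ℂ →L[ℝ] ℂ).comp (fderiv ℝ u z)) z :=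
    (Complex.conjCLE : ℂ →L[ℝ] ℂ).hasFDerivAt.comp z hu.hasFDerivAt
  unfold dzb dz
  rw [h1.fderiv]
  simp only [ContinuousLinearMap.comp_apply, map_mul, map_add, Complex.conj_I, map_div₀, map_one]
  rw [show (starRingEnd ℂ) 2 = 2 from Complex.conj_ofNat 2]
  simp only [ContinuousLinearEquiv.coe_coe, Complex.conjCLE_apply]
  ring

lemma L1b_dzb_add_right (u : Cn n → ℂ) (z X Y : Cn n) :
    dzb u z (X + Y) = dzb u z X + dzb u z Y := by
  simp only [dzb, smul_add, map_add]; ring

lemma L1b_dzb_smul (u : Cn n → ℂ) (z : Cn n) (c : ℂ) (X : Cn n) :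
    dzb u z (c • X) = (starRingEnd ℂ) c * dzb u z X := by
  have hc : (c • X : Cn n) = c.re • X + c.im • (Complex.I • X) := by
    ext i
    simp only [Pi.smul_apply, Pi.add_apply, smul_eq_mul, Complex.real_smul]
    conv_lhs => rw [← Complex.re_add_im c]
    ring
  have hc' : (Complex.I • (c • X) : Cn n) = c.re • (Complex.I • X) - c.im • X := by
    ext i
    simp only [Pi.smul_apply, Pi.sub_apply, smul_eq_mul, Complex.real_smul]
    conv_lhs => rw [← Complex.re_add_im c]
    ring_nf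
    simp only [Complex.I_sq]
    ring
  have hcc : (starRingEnd ℂ) c = (c.re : ℂ) - c.im * Complex.I := by
    apply Complex.ext <;> simp
  simp only [dzb]
  rw [hc', hc, hcc]
  simp only [map_add, map_sub, map_smul, Complex.real_smul]
  ring_nf
  simp only [Complex.I_sq]
  ring

lemma dzb_sum (u : Cn n → ℂ) (z X : Cn n) :
    dzb u z X = ∑ j, (starRingEnd ℂ) (X j) * dzb u z (ee j) := by
  let L : Cn n →+ ℂ := ⟨⟨dzb u z, by simp [dzb]⟩, L1b_dzb_add_right u z⟩
  have h1 : L X = ∑ j, (starRingEnd ℂ) (X j) * L (ee j) := by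
    conv_lhs => rw [← Finset.univ_sum_single X, map_sum]
    refine Finset.sum_congr rfl fun j _ => ?_
    have h2 : (Pi.single j (X j) : Cn n) = X j • (ee j : Cn n) := by
      unfold ee
      rw [← Pi.single_smul, smul_eq_mul, mul_one]
    rw [h2]
    exact L1b_dzb_smul u z (X j) (ee j)
  exact h1

lemma norm_dzb_le (u : Cn n → ℂ) (z X : Cn n) : ‖dzb u z X‖ ≤ ‖fderiv ℝ u z‖ * ‖X‖ := by
  unfold dzb
  have h1 : ‖fderiv ℝ u z X‖ ≤ ‖fderiv ℝ u z‖ * ‖X‖ := (fderiv ℝ u z).le_opNorm X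
  have h2 : ‖fderiv ℝ u z (Complex.I • X)‖ ≤ ‖fderiv ℝ u z‖ * ‖X‖ := by
    have := (fderiv ℝ u z).le_opNorm (Complex.I • X)
    rwa [norm_smul, Complex.norm_I, one_mul] at this
  calc ‖(1 / 2 : ℂ) * (fderiv ℝ u z X + Complex.I * fderiv ℝ u z (Complex.I • X))‖
      = 1 / 2 * ‖fderiv ℝ u z X + Complex.I * fderiv ℝ u z (Complex.I • X)‖ := by
        rw [norm_mul]; norm_num
    _ ≤ 1 / 2 * (‖fderiv ℝ u z X‖ + ‖fderiv ℝ u z (Complex.I • X)‖) := by
        gcongr
        refine (norm_add_le _ _).trans ?_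
        rw [norm_mul, Complex.norm_I, one_mul]
    _ ≤ ‖fderiv ℝ u z‖ * ‖X‖ := by linarith

/-- A real differentiable function is complex differentiable iff `∂̄u = 0`. -/
lemma dzb_eq_zero_iff {u : Cn n → ℂ} {z : Cn n} (hu : DifferentiableAt ℝ u z) :
    (∀ j, dzb u z (ee j) = 0) ↔ DifferentiableAt ℂ u z := by
  constructor
  · intro h
    have h1 : ∀ X, dzb u z X = 0 := by
      intro X
      rw [dzb_sum]
      exact Finset.sum_eq_zero fun j _ => by rw [h j, mul_zero]
    have h2 : ∀ X, fderiv ℝ u z (Complex.I • X) = Complex.I * fderiv ℝ u z X := by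
      intro X
      have h3 := h1 X
      unfold dzb at h3
      have h4 : fderiv ℝ u z X + Complex.I * fderiv ℝ u z (Complex.I • X) = 0 := by
        rcases mul_eq_zero.mp h3 with h5 | h5
        · norm_num at h5
        · exact h5
      have h6 : Complex.I * (fderiv ℝ u z X + Complex.I * fderiv ℝ u z (Complex.I • X)) = 0 := by
        rw [h4, mul_zero]
      rw [mul_add, ← mul_assoc, Complex.I_mul_I] at h6
      linear_combination -h6
    have h3 : ∀ (c : ℂ) X, fderiv ℝ u z (c • X) = c • fderiv ℝ u z X := by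
      intro c X
      have hc : (c • X : Cn n) = c.re • X + c.im • (Complex.I • X) := by
        ext i
        simp only [Pi.smul_apply, Pi.add_apply, smul_eq_mul, Complex.real_smul]
        conv_lhs => rw [← Complex.re_add_im c]
        ring
      rw [hc, map_add, map_smul, map_smul, h2, smul_eq_mul, Complex.real_smul, Complex.real_smul]
      conv_rhs => rw [← Complex.re_add_im c]
      ring
    let L : Cn n →L[ℂ] ℂ :=
      { toFun := fderiv ℝ u z
        map_add' := map_add _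
        map_smul' := h3
        cont := (fderiv ℝ u z).continuous }
    have h4 : HasFDerivAt u L z := by
      have h5 := hu.hasFDerivAt
      rw [hasFDerivAt_iff_isLittleO_nhds_zero] at h5 ⊢
      exact h5
    exact h4.differentiableAt
  · intro h j
    have h1 : fderiv ℝ u z = (fderiv ℂ u z).restrictScalars ℝ :=
      (h.hasFDerivAt.restrictScalars ℝ).fderiv
    unfold dzb
    rw [h1]
    simp only [ContinuousLinearMap.coe_restrictScalars', map_smul, smul_eq_mul]
    rw [← mul_assoc Complex.I, Complex.I_mul_I]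
    ring

lemma dzb_comp_mul {u : Cn n → ℂ} {z : Cn n} (hu : DifferentiableAt ℂ u z) (X : Cn n) :
    dzb u z X = 0 ∧ dz u z X = fderiv ℂ u z X := by
  have h1 : fderiv ℝ u z = (fderiv ℂ u z).restrictScalars ℝ :=
    (hu.hasFDerivAt.restrictScalars ℝ).fderiv
  unfold dzb dz
  rw [h1]
  simp only [ContinuousLinearMap.coe_restrictScalars', map_smul, smul_eq_mul]
  rw [← mul_assoc Complex.I, Complex.I_mul_I]
  constructor <;> ring

end HankelSPC
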