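import Pool.Agent.Lib.MP_e1cf54_an.L2a
import Pool.Agent.Lib.MP_e1cf54_an.L1b

/-! Row B3a: adjoint and commutator formulas -/

open MeasureTheory Set
open scoped ENNReal NNReal Topology ContDiff

namespace HankelSPC

variable {n : ℕ}

/-- the first derivatives of a `C²` function are differentiable -/
lemma B3a_hasFDerivAt {E : Type*} [NormedAddCommGroup E] [NormedSpace ℝ E] {f : Cn n → E}
    {z : Cn n} (hf : ContDiffAt ℝ 2 f z) (Y : Cn n) :
    HasFDerivAt (fun w => fderiv ℝ f w Y)
      ((ContinuousLinearMap.apply ℝ E Y).comp (fderiv ℝ (fderiv ℝ f) z)) z := by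
  have h1 : DifferentiableAt ℝ (fderiv ℝ f) z :=
    (hf.fderiv_right (m := 1) (by norm_num)).differentiableAt (by norm_num)
  exact (ContinuousLinearMap.apply ℝ E Y).hasFDerivAt.comp z h1.hasFDerivAt

lemma B3a_dz_hasFDerivAt {f : Cn n → ℂ} {z : Cn n} (hf : ContDiffAt ℝ 2 f z) (Y : Cn n) :
    HasFDerivAt (fun w => dz f w Y)
      ((1 / 2 : ℂ) • ((ContinuousLinearMap.apply ℝ ℂ Y).comp (fderiv ℝ (fderiv ℝ f) z) -
        Complex.I • (ContinuousLinearMap.apply ℝ ℂ (Complex.I • Y)).comp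
          (fderiv ℝ (fderiv ℝ f) z))) z :=
  ((B3a_hasFDerivAt hf Y).sub ((B3a_hasFDerivAt hf (Complex.I • Y)).const_mul _)).const_mul _

lemma B3a_dzb_hasFDerivAt {f : Cn n → ℂ} {z : Cn n} (hf : ContDiffAt ℝ 2 f z) (Y : Cn n) :
    HasFDerivAt (fun w => dzb f w Y)
      ((1 / 2 : ℂ) • ((ContinuousLinearMap.apply ℝ ℂ Y).comp (fderiv ℝ (fderiv ℝ f) z) +
        Complex.I • (ContinuousLinearMap.apply ℝ ℂ (Complex.I • Y)).comp
          (fderiv ℝ (fderiv ℝ f) z))) z :=
  ((B3a_hasFDerivAt hf Y).add ((B3a_hasFDerivAt hf (Complex.I • Y)).const_mul _)).const_mul _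

lemma B3a_ell_differentiableAt {φ : Cn n → ℝ} {z : Cn n} (hφ : ContDiffAt ℝ 2 φ z) (Y : Cn n) :
    DifferentiableAt ℝ (fun w => ell φ w Y) z := by
  have h1 := (B3a_hasFDerivAt hφ Y).differentiableAt
  have h2 := (B3a_hasFDerivAt hφ (Complex.I • Y)).differentiableAt
  have h3 : DifferentiableAt ℝ (fun w => ((fderiv ℝ φ w Y : ℝ) : ℂ)) z :=
    Complex.ofRealCLM.differentiableAt.comp z h1
  have h4 : DifferentiableAt ℝ (fun w => ((fderiv ℝ φ w (Complex.I • Y) : ℝ) : ℂ)) z :=
    Complex.ofRealCLM.differentiableAt.comp z h2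
  exact (h3.sub (h4.const_mul _)).const_mul _

/-- `∂_X ∂̄_Y f = ∂̄_Y ∂_X f` -/
lemma B3a_comm {f : Cn n → ℂ} {z : Cn n} (hf : ContDiffAt ℝ 2 f z) (X Y : Cn n) :
    dz (fun w => dzb f w Y) z X = dzb (fun w => dz f w X) z Y := by
  have hs : IsSymmSndFDerivAt ℝ f z := hf.isSymmSndFDerivAt (by simp)
  have h1 := (B3a_dzb_hasFDerivAt hf Y).fderiv
  have h2 := (B3a_dz_hasFDerivAt hf X).fderiv
  have e1 := hs.eq X Y
  have e2 := hs.eq X (Complex.I • Y)
  have e3 := hs.eq (Complex.I • X) Y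
  have e4 := hs.eq (Complex.I • X) (Complex.I • Y)
  unfold dz at h2 ⊢
  unfold dzb at h1 ⊢
  rw [h1, h2]
  simp only [_root_.smul_apply, _root_.add_apply,
    _root_.sub_apply, ContinuousLinearMap.comp_apply,
    ContinuousLinearMap.apply_apply, smul_eq_mul]
  rw [e1, e2, e3, e4]
  ring

lemma B3a_contDiff_of {U K : Set (Cn n)} (hKU : K ⊆ U) (hK : IsClosed K) (hU : IsOpen U)
    {F : Cn n → ℂ} (hF : ContDiffOn ℝ 1 F U) (h0 : ∀ z, z ∉ K → F z = 0) : ContDiff ℝ 1 F := by
  rw [contDiff_iff_contDiffAt]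
  intro z
  by_cases hz : z ∈ K
  · exact hF.contDiffAt (hU.mem_nhds (hKU hz))
  · have h1 : F =ᶠ[𝓝 z] fun _ => 0 := by
      filter_upwards [hK.isOpen_compl.mem_nhds hz] with w hw
      exact h0 w hw
    exact contDiffAt_const.congr_of_eventuallyEq h1

lemma B3a_integrable_of {U K : Set (Cn n)} (hKU : K ⊆ U) (hK : IsCompact K) (hU : IsOpen U)
    {F : Cn n → ℂ} (hF : ContinuousOn F U) (h0 : ∀ z, z ∉ K → F z = 0) : Integrable F := by
  have h1 : tsupport F ⊆ K := closure_minimal (fun w hw => by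
    by_contra h; exact hw (h0 w h)) hK.isClosed
  have h2 : Continuous F := continuous_of_tsupport fun z hz =>
    hF.continuousAt (hU.mem_nhds (hKU (h1 hz)))
  exact h2.integrable_of_hasCompactSupport (hK.of_isClosed_subset (isClosed_tsupport F) h1)

lemma B3a_integral_fderiv {F : Cn n → ℂ} (hF : ContDiff ℝ 1 F) (hc : HasCompactSupport F)
    (v : Cn n) : ∫ z, fderiv ℝ F z v = 0 := by
  have h1 : Integrable F := hF.continuous.integrable_of_hasCompactSupport hc
  have h2 : Continuous fun z => fderiv ℝ F z v :=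
    (hF.continuous_fderiv (by norm_num)).clm_apply continuous_const
  have h3 : Integrable fun z => fderiv ℝ F z v :=
    h2.integrable_of_hasCompactSupport (hc.fderiv_apply ℝ v)
  have h4 := integral_mul_fderiv_eq_neg_fderiv_mul_of_integrable (μ := volume)
    (f := fun _ : Cn n => (1 : ℂ)) (g := F) (v := v) (by simp) (by simpa using h3)
    (by simpa using h1) (fun x _ => differentiableAt_const _)
    (fun x _ => hF.differentiable (by norm_num) x)
  simpa using h4

lemma B3a_continuousOn_dzb {U : Set (Cn n)} (hU : IsOpen U) {f : Cn n → ℂ}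
    (hf : ContDiffOn ℝ 1 f U) (X : Cn n) : ContinuousOn (fun z => dzb f z X) U := by
  have h1 := hf.continuousOn_fderiv_of_isOpen hU le_rfl
  unfold dzb
  exact continuousOn_const.mul ((h1.clm_apply continuousOn_const).add
    (continuousOn_const.mul (h1.clm_apply continuousOn_const)))

lemma B3a_continuousOn_dz {U : Set (Cn n)} (hU : IsOpen U) {f : Cn n → ℂ}
    (hf : ContDiffOn ℝ 1 f U) (X : Cn n) : ContinuousOn (fun z => dz f z X) U := by
  have h1 := hf.continuousOn_fderiv_of_isOpen hU le_rfl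
  unfold dz
  exact continuousOn_const.mul ((h1.clm_apply continuousOn_const).sub
    (continuousOn_const.mul (h1.clm_apply continuousOn_const)))

lemma B3a_continuousOn_ell {U : Set (Cn n)} (hU : IsOpen U) {φ : Cn n → ℝ}
    (hφ : ContDiffOn ℝ 1 φ U) (X : Cn n) : ContinuousOn (fun z => ell φ z X) U := by
  have h1 := hφ.continuousOn_fderiv_of_isOpen hU le_rfl
  unfold ell
  exact continuousOn_const.mul ((Complex.continuous_ofReal.comp_continuousOn
    (h1.clm_apply continuousOn_const)).sub (continuousOn_const.mul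
      (Complex.continuous_ofReal.comp_continuousOn (h1.clm_apply continuousOn_const))))

lemma B3a_conj_dz {g : Cn n → ℂ} {z : Cn n} (hg : DifferentiableAt ℝ g z) (X : Cn n) :
    dzb (fun w => (starRingEnd ℂ) (g w)) z X = (starRingEnd ℂ) (dz g z X) := by
  have h1 : HasFDerivAt (fun w => (starRingEnd ℂ) (g w))
      ((Complex.conjCLE : ℂ →L[ℝ] ℂ).comp (fderiv ℝ g z)) z :=
    (Complex.conjCLE : ℂ →L[ℝ] ℂ).hasFDerivAt.comp z hg.hasFDerivAt
  unfold dzb dz
  rw [h1.fderiv]
  simp only [ContinuousLinearMap.comp_apply, ContinuousLinearEquiv.coe_coe,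
    Complex.conjCLE_apply, map_mul, map_sub, map_div₀, map_one, Complex.conj_I, Complex.conj_ofNat]
  ring

lemma B3a_dzb_exp {φ : Cn n → ℝ} {z : Cn n} (hφ : DifferentiableAt ℝ φ z) (X : Cn n) :
    dzb (fun w => ((Real.exp (-φ w) : ℝ) : ℂ)) z X =
      - (starRingEnd ℂ) (ell φ z X) * Real.exp (-φ z) := by
  have h1 : HasFDerivAt (fun w => ((Real.exp (-φ w) : ℝ) : ℂ))
      (Complex.ofRealCLM.comp (Real.exp (-φ z) • (-fderiv ℝ φ z))) z :=
    Complex.ofRealCLM.hasFDerivAt.comp z (hφ.hasFDerivAt.neg.exp)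
  unfold dzb ell
  rw [h1.fderiv]
  simp only [ContinuousLinearMap.comp_apply, _root_.smul_apply,
    _root_.neg_apply, Complex.ofRealCLM_apply, smul_eq_mul, map_mul, map_sub,
    map_div₀, map_one, Complex.conj_I, Complex.conj_ofNat, Complex.conj_ofReal]
  push_cast
  ring

/-- Adjoint formula: `∫ ∂̄_j f · conj g · e^{-φ} = - ∫ f · conj (∂_j g - g ∂_jφ) e^{-φ}`. -/
theorem adjoint_formula {U : Set (Cn n)} (hU : IsOpen U) {φ : Cn n → ℝ} (hφ : ContDiffOn ℝ 1 φ U)
    {f g : Cn n → ℂ} (hf : ContDiffOn ℝ 1 f U) (hg : ContDiffOn ℝ 1 g U)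
    (hc : HasCompactSupport g) (hs : tsupport g ⊆ U) (j : Fin n) :
    ∫ z in U, dzb f z (ee j) * (starRingEnd ℂ) (g z) * Real.exp (-φ z)
      = - ∫ z in U, f z * (starRingEnd ℂ) (dz g z (ee j) - g z * ell φ z (ee j))
          * Real.exp (-φ z) := by
  have hexp : ContDiffOn ℝ 1 (fun z => ((Real.exp (-φ z) : ℝ) : ℂ)) U :=
    Complex.ofRealCLM.contDiff.comp_contDiffOn hφ.neg.exp
  have hgc : ContDiffOn ℝ 1 (fun z => (starRingEnd ℂ) (g z)) U :=
    (Complex.conjCLE : ℂ →L[ℝ] ℂ).contDiff.comp_contDiffOn hg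
  set F : Cn n → ℂ := fun z => f z * ((starRingEnd ℂ) (g z) * ((Real.exp (-φ z) : ℝ) : ℂ)) with hFdef
  have hFU : ContDiffOn ℝ 1 F U := hf.mul (hgc.mul hexp)
  have hg0 : ∀ z, z ∉ tsupport g → g z = 0 := fun z hz => image_eq_zero_of_notMem_tsupport hz
  have hF0 : ∀ z, z ∉ tsupport g → F z = 0 := fun z hz => by
    simp only [hFdef, hg0 z hz, map_zero, zero_mul, mul_zero]
  have hF : ContDiff ℝ 1 F := B3a_contDiff_of hs (isClosed_tsupport g) hU hFU hF0
  have hFc : HasCompactSupport F := by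
    refine HasCompactSupport.of_support_subset_isCompact hc ?_
    intro z hz
    by_contra h
    exact hz (hF0 z h)
  have hI : ∫ z, dzb F z (ee j) = 0 := by
    have h1 : Integrable fun z => fderiv ℝ F z (ee j) :=
      ((hF.continuous_fderiv (by norm_num)).clm_apply continuous_const).integrable_of_hasCompactSupport
        (hFc.fderiv_apply ℝ _)
    have h2 : Integrable fun z => fderiv ℝ F z (Complex.I • ee j) :=
      ((hF.continuous_fderiv (by norm_num)).clm_apply continuous_const).integrable_of_hasCompactSupport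
        (hFc.fderiv_apply ℝ _)
    unfold dzb
    rw [integral_const_mul, integral_add h1 (h2.const_mul _), integral_const_mul,
      B3a_integral_fderiv hF hFc, B3a_integral_fderiv hF hFc]
    simp
  have hIU : ∫ z in U, dzb F z (ee j) = 0 := by
    rw [← hI]
    refine setIntegral_eq_integral_of_forall_compl_eq_zero fun z hz => ?_
    have h1 : z ∉ tsupport F := fun h => by
      have h2 : tsupport F ⊆ tsupport g := closure_minimal (fun w hw => by
        by_contra h'; exact hw (hF0 w h')) (isClosed_tsupport g)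
      exact hz (hs (h2 h))
    have h2 : fderiv ℝ F z = 0 := by
      by_contra h3
      exact h1 (support_fderiv_subset ℝ h3)
    simp [dzb, h2]
  -- the two parts
  have hA : Integrable fun z => dzb f z (ee j) * (starRingEnd ℂ) (g z) * Real.exp (-φ z) := by
    refine B3a_integrable_of hs hc hU ?_ fun z hz => ?_
    · exact ((B3a_continuousOn_dzb hU hf _).mul hgc.continuousOn).mul hexp.continuousOn
    · simp [hg0 z hz]
  have hB : Integrable fun z => f z * (starRingEnd ℂ) (dz g z (ee j) - g z * ell φ z (ee j))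
          * Real.exp (-φ z) := by
    refine B3a_integrable_of hs hc hU ?_ fun z hz => ?_
    · refine (hf.continuousOn.mul ?_).mul hexp.continuousOn
      exact Complex.continuous_conj.comp_continuousOn ((B3a_continuousOn_dz hU hg _).sub
        (hg.continuousOn.mul (B3a_continuousOn_ell hU hφ _)))
    · have h2 : fderiv ℝ g z = 0 := by
        by_contra h3
        exact hz (support_fderiv_subset ℝ h3)
      simp [dz, h2, hg0 z hz]
  have hsum : ∀ z ∈ U, dzb F z (ee j) =
      dzb f z (ee j) * (starRingEnd ℂ) (g z) * Real.exp (-φ z) +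
      f z * (starRingEnd ℂ) (dz g z (ee j) - g z * ell φ z (ee j)) * Real.exp (-φ z) := by
    intro z hz
    have hfz : DifferentiableAt ℝ f z :=
      (hf.contDiffAt (hU.mem_nhds hz)).differentiableAt (by norm_num)
    have hgz : DifferentiableAt ℝ g z :=
      (hg.contDiffAt (hU.mem_nhds hz)).differentiableAt (by norm_num)
    have hφz : DifferentiableAt ℝ φ z :=
      (hφ.contDiffAt (hU.mem_nhds hz)).differentiableAt (by norm_num)
    have hgcz : DifferentiableAt ℝ (fun z => (starRingEnd ℂ) (g z)) z :=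
      (hgc.contDiffAt (hU.mem_nhds hz)).differentiableAt (by norm_num)
    have hez : DifferentiableAt ℝ (fun z => ((Real.exp (-φ z) : ℝ) : ℂ)) z :=
      (hexp.contDiffAt (hU.mem_nhds hz)).differentiableAt (by norm_num)
    rw [hFdef, dzb_mul hfz (hgcz.fun_mul hez), dzb_mul hgcz hez, B3a_conj_dz hgz, B3a_dzb_exp hφz]
    simp only [map_sub, map_mul]
    ring
  rw [setIntegral_congr_fun hU.measurableSet hsum, integral_add hA.integrableOn
    hB.integrableOn] at hIU
  exact eq_neg_of_add_eq_zero_left hIU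

/-- Commutator: `δ_j ∂̄_k f - ∂̄_k δ_j f = (∂²φ/∂z_j∂z̄_k) f`, `δ_j f = ∂_j f - f ∂_jφ`. -/
theorem commutator_formula {φ : Cn n → ℝ} {f : Cn n → ℂ} {z : Cn n} (hφ : ContDiffAt ℝ 2 φ z)
    (hf : ContDiffAt ℝ 2 f z) (j k : Fin n) :
    (dz (fun w => dzb f w (ee k)) z (ee j) - dzb f z (ee k) * ell φ z (ee j))
      - dzb (fun w => dz f w (ee j) - f w * ell φ w (ee j)) z (ee k) = mix φ z j k * f z := by
  have hfd : DifferentiableAt ℝ f z := hf.differentiableAt (by norm_num)
  have hed := B3a_ell_differentiableAt hφ (ee j)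
  have h1 : DifferentiableAt ℝ (fun w => dz f w (ee j)) z :=
    (B3a_dz_hasFDerivAt hf (ee j)).differentiableAt
  have h2 : dzb (fun w => dz f w (ee j) - f w * ell φ w (ee j)) z (ee k) =
      dzb (fun w => dz f w (ee j)) z (ee k) - dzb (fun w => f w * ell φ w (ee j)) z (ee k) := by
    unfold dzb
    rw [fderiv_fun_sub h1 (hfd.fun_mul hed)]
    simp only [_root_.sub_apply]
    ring
  rw [h2, dzb_mul hfd hed, B3a_comm hf]
  unfold mix
  ring

end HankelSPC
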