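import Pool.Agent.Lib.MP_e1cf54_an.B3a
import Pool.Agent.Lib.MP_e1cf54_an.L2b

/-! Row B3b: basic inequality, three weights -/

open MeasureTheory Set
open scoped ENNReal NNReal Topology ContDiff

namespace HankelSPC

variable {n : ℕ}

theorem B3b_fd {E : Type*} [NormedAddCommGroup E] [NormedSpace ℝ E] {U : Set (Cn n)}
    (hU : IsOpen U) {m k : WithTop ℕ∞} (h : m + 1 ≤ k) {u : Cn n → E} (hu : ContDiffOn ℝ k u U)
    (X : Cn n) : ContDiffOn ℝ m (fun z => fderiv ℝ u z X) U :=
  (hu.fderiv_of_isOpen hU h).clm_apply contDiffOn_const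

theorem B3b_dzb {U : Set (Cn n)} (hU : IsOpen U) {m k : WithTop ℕ∞} (h : m + 1 ≤ k)
    {u : Cn n → ℂ} (hu : ContDiffOn ℝ k u U) (X : Cn n) :
    ContDiffOn ℝ m (fun z => dzb u z X) U := by
  unfold dzb
  exact contDiffOn_const.mul ((B3b_fd hU h hu X).add (contDiffOn_const.mul (B3b_fd hU h hu _)))

theorem B3b_dz {U : Set (Cn n)} (hU : IsOpen U) {m k : WithTop ℕ∞} (h : m + 1 ≤ k)
    {u : Cn n → ℂ} (hu : ContDiffOn ℝ k u U) (X : Cn n) :
    ContDiffOn ℝ m (fun z => dz u z X) U := by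
  unfold dz
  exact contDiffOn_const.mul ((B3b_fd hU h hu X).sub (contDiffOn_const.mul (B3b_fd hU h hu _)))

theorem B3b_ell {U : Set (Cn n)} (hU : IsOpen U) {m k : WithTop ℕ∞} (h : m + 1 ≤ k)
    {u : Cn n → ℝ} (hu : ContDiffOn ℝ k u U) (X : Cn n) :
    ContDiffOn ℝ m (fun z => ell u z X) U := by
  unfold ell
  exact contDiffOn_const.mul ((Complex.ofRealCLM.contDiff.comp_contDiffOn (B3b_fd hU h hu X)).sub
    (contDiffOn_const.mul (Complex.ofRealCLM.contDiff.comp_contDiffOn (B3b_fd hU h hu _))))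

theorem B3b_int {E : Type*} [NormedAddCommGroup E] {U K : Set (Cn n)} (hU : IsOpen U)
    {g : Cn n → E} (hg : ContinuousOn g U) (hK : IsCompact K) (hKU : K ⊆ U)
    (h0 : ∀ z ∈ U, z ∉ K → g z = 0) : IntegrableOn g U :=
  ((hg.mono hKU).integrableOn_compact hK).of_forall_sdiff_eq_zero hU.measurableSet
    fun z hz => h0 z hz.1 hz.2

theorem B3b_fderiv_zero {u : Cn n → ℂ} {z : Cn n} (hz : z ∉ tsupport u) : fderiv ℝ u z = 0 := by
  by_contra h
  exact hz (support_fderiv_subset ℝ h)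

theorem B3b_dzb_zero {u : Cn n → ℂ} {z : Cn n} (hz : z ∉ tsupport u) (X : Cn n) :
    dzb u z X = 0 := by
  unfold dzb
  rw [B3b_fderiv_zero hz]
  simp

theorem B3b_dz_zero {u : Cn n → ℂ} {z : Cn n} (hz : z ∉ tsupport u) (X : Cn n) :
    dz u z X = 0 := by
  unfold dz
  rw [B3b_fderiv_zero hz]
  simp

theorem B3b_tsupport {u : Cn n → ℂ} (X : Cn n) : tsupport (fun z => dzb u z X) ⊆ tsupport u := by
  refine closure_minimal ?_ (isClosed_tsupport u)
  intro z hz
  by_contra h
  exact hz (B3b_dzb_zero h X)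

theorem B3b_W {U : Set (Cn n)} {φ : Cn n → ℝ} (hφ : ContinuousOn φ U) :
    ContinuousOn (fun z => ((Real.exp (-φ z) : ℝ) : ℂ)) U :=
  Complex.continuous_ofReal.comp_continuousOn (Real.continuous_exp.comp_continuousOn hφ.neg)

/-- the key identity for two indices -/
theorem B3b_key {U : Set (Cn n)} (hU : IsOpen U) {φ : Cn n → ℝ}
    (hφ : ContDiffOn ℝ 2 φ U) {f g : Cn n → ℂ} (hf : ContDiff ℝ 2 f) (hg : ContDiff ℝ 2 g)
    (hfc : HasCompactSupport f) (hgc : HasCompactSupport g) (hfs : tsupport f ⊆ U)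
    (hgs : tsupport g ⊆ U) (j k : Fin n) :
    (∫ z in U, (dz f z (ee j) - f z * ell φ z (ee j)) *
        (starRingEnd ℂ) (dz g z (ee k) - g z * ell φ z (ee k)) * Real.exp (-φ z))
      - ∫ z in U, dzb f z (ee k) * (starRingEnd ℂ) (dzb g z (ee j)) * Real.exp (-φ z)
      = ∫ z in U, mix φ z j k * f z * (starRingEnd ℂ) (g z) * Real.exp (-φ z) := by
  have h12 : (1 : WithTop ℕ∞) + 1 ≤ 2 := by norm_num
  have h01 : (0 : WithTop ℕ∞) + 1 ≤ 1 := by norm_num
  have hφ1 : ContDiffOn ℝ 1 φ U := hφ.of_le (by norm_num)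
  have hfU : ContDiffOn ℝ 2 f U := hf.contDiffOn
  have hgU : ContDiffOn ℝ 2 g U := hg.contDiffOn
  have hA : ContDiffOn ℝ 1 (fun z => dz f z (ee j) - f z * ell φ z (ee j)) U :=
    (B3b_dz hU h12 hfU _).sub ((hfU.of_le (by norm_num)).mul (B3b_ell hU h12 hφ _))
  have ha : ContDiffOn ℝ 1 (fun z => dzb f z (ee k)) U := B3b_dzb hU h12 hfU _
  have h1 := adjoint_formula hU hφ1 (f := fun z => dz f z (ee j) - f z * ell φ z (ee j)) (g := g)
    hA (hgU.of_le (by norm_num)) hgc hgs k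
  have h2 := adjoint_formula hU hφ1 (f := g) (g := fun z => dzb f z (ee k))
    (hgU.of_le (by norm_num)) ha
    (IsCompact.of_isClosed_subset hfc (isClosed_tsupport _) (B3b_tsupport _))
    ((B3b_tsupport _).trans hfs) j
  have h3 : ∫ z in U, dzb f z (ee k) * (starRingEnd ℂ) (dzb g z (ee j)) * Real.exp (-φ z)
      = - ∫ z in U, (starRingEnd ℂ) (g z) * (dz (fun w => dzb f w (ee k)) z (ee j) -
          dzb f z (ee k) * ell φ z (ee j)) * Real.exp (-φ z) := by
    have h4 := congrArg (starRingEnd ℂ) h2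
    rw [map_neg, ← integral_conj, ← integral_conj] at h4
    have h5 : ∀ z, (starRingEnd ℂ) (dzb g z (ee j) * (starRingEnd ℂ) (dzb f z (ee k)) *
        Real.exp (-φ z)) = dzb f z (ee k) * (starRingEnd ℂ) (dzb g z (ee j)) * Real.exp (-φ z) := by
      intro z
      simp only [map_mul, Complex.conj_conj, Complex.conj_ofReal]
      ring
    have h6 : ∀ z, (starRingEnd ℂ) (g z * (starRingEnd ℂ) (dz (fun w => dzb f w (ee k)) z (ee j) -
          dzb f z (ee k) * ell φ z (ee j)) * Real.exp (-φ z)) =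
        (starRingEnd ℂ) (g z) * (dz (fun w => dzb f w (ee k)) z (ee j) -
          dzb f z (ee k) * ell φ z (ee j)) * Real.exp (-φ z) := by
      intro z
      simp only [map_mul, Complex.conj_conj, Complex.conj_ofReal]
    simp only [h5, h6] at h4
    exact h4
  have hW := B3b_W (U := U) hφ1.continuousOn
  have hgcont : ContinuousOn (fun z => (starRingEnd ℂ) (g z)) U :=
    Complex.continuous_conj.comp_continuousOn hgU.continuousOn
  have hzero : ∀ z ∈ U, z ∉ tsupport g → g z = 0 := fun z _ hz => image_eq_zero_of_notMem_tsupport hz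
  have i1 : IntegrableOn (fun z => dzb (fun w => dz f w (ee j) - f w * ell φ w (ee j)) z (ee k) *
      (starRingEnd ℂ) (g z) * ((Real.exp (-φ z) : ℝ) : ℂ)) U := by
    refine B3b_int hU (((B3b_dzb hU h01 hA _).continuousOn.mul hgcont).mul hW) hgc hgs ?_
    intro z hz hz'
    simp only [hzero z hz hz', map_zero, mul_zero, zero_mul]
  have i2 : IntegrableOn (fun z => (starRingEnd ℂ) (g z) *
      (dz (fun w => dzb f w (ee k)) z (ee j) - dzb f z (ee k) * ell φ z (ee j)) *
      ((Real.exp (-φ z) : ℝ) : ℂ)) U := by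
    refine B3b_int hU ((hgcont.mul ((B3b_dz hU h01 ha _).continuousOn.sub
      (ha.continuousOn.mul (B3b_ell hU h01 hφ1 _).continuousOn))).mul hW) hgc hgs ?_
    intro z hz hz'
    simp only [hzero z hz hz', map_zero, mul_zero, zero_mul]
  rw [h3, sub_neg_eq_add]
  have h7 : ∫ z in U, (dz f z (ee j) - f z * ell φ z (ee j)) *
        (starRingEnd ℂ) (dz g z (ee k) - g z * ell φ z (ee k)) * Real.exp (-φ z)
      = - ∫ z in U, dzb (fun w => dz f w (ee j) - f w * ell φ w (ee j)) z (ee k) *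
      (starRingEnd ℂ) (g z) * ((Real.exp (-φ z) : ℝ) : ℂ) := by
    rw [h1, neg_neg]
  rw [h7, neg_add_eq_sub, ← integral_sub i2 i1]
  refine setIntegral_congr_fun hU.measurableSet fun z hz => ?_
  have h8 := commutator_formula (hφ.contDiffAt (hU.mem_nhds hz)) hf.contDiffAt j k
  rw [← h8]
  ring

/-- the identity behind the basic inequality -/
theorem B3b_identity {U : Set (Cn n)} (hU : IsOpen U) {φ : Cn n → ℝ}
    (hφ : ContDiffOn ℝ 2 φ U) (α : Cn n → Fin n → ℂ)
    (hα : ∀ j, ContDiff ℝ 2 fun z => α z j) (hc : ∀ j, HasCompactSupport fun z => α z j)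
    (hs : ∀ j, (tsupport fun z => α z j) ⊆ U) :
    ∫ z in U, levi φ z (α z) * Real.exp (-φ z)
      = ∫ z in U, (‖∑ j, (dz (fun w => α w j) z (ee j) - α z j * ell φ z (ee j))‖ ^ 2
        - ∑ j, ∑ k, (dzb (fun w => α w j) z (ee k) *
            (starRingEnd ℂ) (dzb (fun w => α w k) z (ee j))).re) * Real.exp (-φ z) := by
  have h12 : (1 : WithTop ℕ∞) + 1 ≤ 2 := by norm_num
  have hφ1 : ContDiffOn ℝ 1 φ U := hφ.of_le (by norm_num)
  have hW := B3b_W (U := U) hφ1.continuousOn
  have hαU : ∀ j, ContDiffOn ℝ 2 (fun z => α z j) U := fun j => (hα j).contDiffOn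
  have hA : ∀ j, ContinuousOn (fun z => dz (fun w => α w j) z (ee j) - α z j * ell φ z (ee j)) U :=
    fun j => (B3b_dz hU h12 (hαU j) _).continuousOn.sub
      ((hαU j).continuousOn.mul (B3b_ell hU h12 hφ _).continuousOn)
  have ha : ∀ j k, ContinuousOn (fun z => dzb (fun w => α w j) z (ee k)) U :=
    fun j k => (B3b_dzb hU h12 (hαU j) _).continuousOn
  have hconj : ∀ {u : Cn n → ℂ}, ContinuousOn u U → ContinuousOn (fun z => (starRingEnd ℂ) (u z)) U :=
    fun hu => Complex.continuous_conj.comp_continuousOn hu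
  have i1 : ∀ j k, IntegrableOn (fun z => (dz (fun w => α w j) z (ee j) - α z j * ell φ z (ee j)) *
        (starRingEnd ℂ) (dz (fun w => α w k) z (ee k) - α z k * ell φ z (ee k)) *
          ((Real.exp (-φ z) : ℝ) : ℂ)) U := by
    intro j k
    refine B3b_int hU (((hA j).mul (hconj (hA k))).mul hW) (hc j) (hs j) ?_
    intro z _ hz'
    have h1 : α z j = 0 := image_eq_zero_of_notMem_tsupport (f := fun z => α z j) hz'
    simp only [B3b_dz_zero hz', h1, zero_mul, sub_zero]
  have i2 : ∀ j k, IntegrableOn (fun z => dzb (fun w => α w j) z (ee k) *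
      (starRingEnd ℂ) (dzb (fun w => α w k) z (ee j)) * ((Real.exp (-φ z) : ℝ) : ℂ)) U := by
    intro j k
    refine B3b_int hU (((ha j k).mul (hconj (ha k j))).mul hW) (hc j) (hs j) ?_
    intro z _ hz'
    simp only [B3b_dzb_zero hz', zero_mul]
  have i3 : ∀ j k, IntegrableOn (fun z => mix φ z j k * α z j * (starRingEnd ℂ) (α z k) *
      ((Real.exp (-φ z) : ℝ) : ℂ)) U := by
    intro j k
    have hmix : ContinuousOn (fun z => mix φ z j k) U := by
      have h1 : ContDiffOn ℝ 1 (fun w => ell φ w (ee j)) U := B3b_ell hU h12 hφ _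
      exact (B3b_dzb (m := 0) hU (by norm_num) h1 _).continuousOn
    refine B3b_int hU (((hmix.mul (hαU j).continuousOn).mul (hconj (hαU k).continuousOn)).mul hW)
      (hc j) (hs j) ?_
    intro z _ hz'
    have h1 : α z j = 0 := image_eq_zero_of_notMem_tsupport (f := fun z => α z j) hz'
    simp only [h1, mul_zero, zero_mul]
  -- the complex identity
  have key : (∫ z in U, ((levi φ z (α z) * Real.exp (-φ z) : ℝ) : ℂ))
      = ∫ z in U, ((∑ j, ∑ k, (dz (fun w => α w j) z (ee j) - α z j * ell φ z (ee j)) *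
        (starRingEnd ℂ) (dz (fun w => α w k) z (ee k) - α z k * ell φ z (ee k)) *
          ((Real.exp (-φ z) : ℝ) : ℂ)) - ∑ j, ∑ k, dzb (fun w => α w j) z (ee k) *
      (starRingEnd ℂ) (dzb (fun w => α w k) z (ee j)) * ((Real.exp (-φ z) : ℝ) : ℂ)) := by
    have e1 : ∫ z in U, ((levi φ z (α z) * Real.exp (-φ z) : ℝ) : ℂ)
        = ∫ z in U, ∑ j, ∑ k, mix φ z j k * α z j * (starRingEnd ℂ) (α z k) *
      ((Real.exp (-φ z) : ℝ) : ℂ) := by
      refine setIntegral_congr_fun hU.measurableSet fun z hz => ?_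
      rw [Complex.ofReal_mul, levi_eq_mix (hφ.contDiffAt (hU.mem_nhds hz)), Finset.sum_mul]
      refine Finset.sum_congr rfl fun j _ => ?_
      rw [Finset.sum_mul]
    rw [e1, integral_sub (integrable_finsetSum _ fun j _ => integrable_finsetSum _ fun k _ => i1 j k)
      (integrable_finsetSum _ fun j _ => integrable_finsetSum _ fun k _ => i2 j k),
      integral_finsetSum _ (fun j _ => integrable_finsetSum _ fun k _ => i3 j k),
      integral_finsetSum _ (fun j _ => integrable_finsetSum _ fun k _ => i1 j k),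
      integral_finsetSum _ (fun j _ => integrable_finsetSum _ fun k _ => i2 j k),
      ← Finset.sum_sub_distrib]
    refine Finset.sum_congr rfl fun j _ => ?_
    rw [integral_finsetSum _ (fun k _ => i3 j k), integral_finsetSum _ (fun k _ => i1 j k),
      integral_finsetSum _ (fun k _ => i2 j k), ← Finset.sum_sub_distrib]
    refine Finset.sum_congr rfl fun k _ => ?_
    exact (B3b_key hU hφ (hα j) (hα k) (hc j) (hc k) (hs j) (hs k) j k).symm
  have e2 : ∀ z, ((∑ j, ∑ k, (dz (fun w => α w j) z (ee j) - α z j * ell φ z (ee j)) *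
        (starRingEnd ℂ) (dz (fun w => α w k) z (ee k) - α z k * ell φ z (ee k)) *
          ((Real.exp (-φ z) : ℝ) : ℂ)) - ∑ j, ∑ k, dzb (fun w => α w j) z (ee k) *
      (starRingEnd ℂ) (dzb (fun w => α w k) z (ee j)) * ((Real.exp (-φ z) : ℝ) : ℂ)) =
      (((‖∑ j, (dz (fun w => α w j) z (ee j) - α z j * ell φ z (ee j))‖ ^ 2
        - ∑ j, ∑ k, (dzb (fun w => α w j) z (ee k) *
            (starRingEnd ℂ) (dzb (fun w => α w k) z (ee j))).re) * Real.exp (-φ z) : ℝ) : ℂ) := by
    intro z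
    have s1 : ∑ j, ∑ k, (dz (fun w => α w j) z (ee j) - α z j * ell φ z (ee j)) *
        (starRingEnd ℂ) (dz (fun w => α w k) z (ee k) - α z k * ell φ z (ee k)) *
          ((Real.exp (-φ z) : ℝ) : ℂ) =
        ((‖∑ j, (dz (fun w => α w j) z (ee j) - α z j * ell φ z (ee j))‖ ^ 2 : ℝ) : ℂ) *
          ((Real.exp (-φ z) : ℝ) : ℂ) := by
      rw [Complex.ofReal_pow, ← Complex.mul_conj', map_sum, Finset.sum_mul_sum, Finset.sum_mul]
      refine Finset.sum_congr rfl fun j _ => ?_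
      rw [Finset.sum_mul]
    have s2 : ∑ j, ∑ k, dzb (fun w => α w j) z (ee k) *
        (starRingEnd ℂ) (dzb (fun w => α w k) z (ee j)) * ((Real.exp (-φ z) : ℝ) : ℂ) =
        ((∑ j, ∑ k, (dzb (fun w => α w j) z (ee k) *
            (starRingEnd ℂ) (dzb (fun w => α w k) z (ee j))).re : ℝ) : ℂ) *
          ((Real.exp (-φ z) : ℝ) : ℂ) := by
      have s3 : (∑ j, ∑ k, dzb (fun w => α w j) z (ee k) *
          (starRingEnd ℂ) (dzb (fun w => α w k) z (ee j))) =
          ((∑ j, ∑ k, (dzb (fun w => α w j) z (ee k) *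
            (starRingEnd ℂ) (dzb (fun w => α w k) z (ee j))).re : ℝ) : ℂ) := by
        apply Complex.ext
        · rw [Complex.ofReal_re, Complex.re_sum]
          refine Finset.sum_congr rfl fun j _ => ?_
          rw [Complex.re_sum]
        · rw [Complex.ofReal_im]
          have s4 : (starRingEnd ℂ) (∑ j, ∑ k, dzb (fun w => α w j) z (ee k) *
              (starRingEnd ℂ) (dzb (fun w => α w k) z (ee j))) = ∑ j, ∑ k,
              dzb (fun w => α w j) z (ee k) * (starRingEnd ℂ) (dzb (fun w => α w k) z (ee j)) := by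
            simp only [map_sum, map_mul, Complex.conj_conj]
            rw [Finset.sum_comm]
            refine Finset.sum_congr rfl fun j _ => Finset.sum_congr rfl fun k _ => ?_
            ring
          exact Complex.conj_eq_iff_im.1 s4
      rw [← s3, Finset.sum_mul]
      refine Finset.sum_congr rfl fun j _ => ?_
      rw [Finset.sum_mul]
    rw [s1, s2, ← sub_mul, ← Complex.ofReal_sub, ← Complex.ofReal_mul]
  simp only [e2] at key
  rw [integral_complex_ofReal, integral_complex_ofReal] at key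
  exact Complex.ofReal_injective key

theorem B3b_alg (a : Fin n → Fin n → ℂ) :
    - ∑ j, ∑ k, (a j k * (starRingEnd ℂ) (a k j)).re ≤
      (1 / 2) * ∑ j, ∑ k, ‖a j k - a k j‖ ^ 2 := by
  have h1 : ∀ j k, ‖a j k - a k j‖ ^ 2 = ‖a j k‖ ^ 2 + ‖a k j‖ ^ 2 -
      2 * (a j k * (starRingEnd ℂ) (a k j)).re := by
    intro j k
    rw [← Complex.normSq_eq_norm_sq, ← Complex.normSq_eq_norm_sq, ← Complex.normSq_eq_norm_sq,
      Complex.normSq_sub]
  have h2 : ∑ j, ∑ k, ‖a j k - a k j‖ ^ 2 = ∑ j, ∑ k, ‖a j k‖ ^ 2 + ∑ j, ∑ k, ‖a k j‖ ^ 2 -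
      2 * ∑ j, ∑ k, (a j k * (starRingEnd ℂ) (a k j)).re := by
    simp only [h1, Finset.sum_sub_distrib, Finset.sum_add_distrib, Finset.mul_sum]
  have h3 : 0 ≤ ∑ j, ∑ k, ‖a j k‖ ^ 2 := Finset.sum_nonneg fun j _ =>
    Finset.sum_nonneg fun k _ => by positivity
  have h4 : 0 ≤ ∑ j, ∑ k, ‖a k j‖ ^ 2 := Finset.sum_nonneg fun j _ =>
    Finset.sum_nonneg fun k _ => by positivity
  rw [h2]
  linarith

/-- The basic inequality. Proof: expand
`½ ∑ |∂̄_kα_j - ∂̄_jα_k|² = ∑ |∂̄_kα_j|² - ∑ ∂̄_kα_j conj(∂̄_jα_k)`, and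
`∫ δ_jα_j conj(δ_kα_k) e^{-φ} - ∫ ∂̄_kα_j conj(∂̄_jα_k) e^{-φ} = ∫ φ_{j k̄} α_j conj(α_k) e^{-φ}` by
`adjoint_formula` twice and `commutator_formula`; then `levi_eq_mix`. -/
theorem basic_inequality {U : Set (Cn n)} (hU : IsOpen U) {φ : Cn n → ℝ}
    (hφ : ContDiffOn ℝ 2 φ U) (α : Cn n → Fin n → ℂ)
    (hα : ∀ j, ContDiff ℝ 2 fun z => α z j) (hc : ∀ j, HasCompactSupport fun z => α z j)
    (hs : ∀ j, (tsupport fun z => α z j) ⊆ U) :
    ∫ z in U, levi φ z (α z) * Real.exp (-φ z)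
      ≤ ∫ z in U, (‖∑ j, (dz (fun w => α w j) z (ee j) - α z j * ell φ z (ee j))‖ ^ 2
        + (1 / 2) * ∑ j, ∑ k, ‖dzb (fun w => α w j) z (ee k) - dzb (fun w => α w k) z (ee j)‖ ^ 2)
          * Real.exp (-φ z) := by
  rw [B3b_identity hU hφ α hα hc hs]
  have h12 : (1 : WithTop ℕ∞) + 1 ≤ 2 := by norm_num
  have hφ1 : ContDiffOn ℝ 1 φ U := hφ.of_le (by norm_num)
  have hW : ContinuousOn (fun z => Real.exp (-φ z)) U :=
    Real.continuous_exp.comp_continuousOn hφ1.continuousOn.neg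
  have hαU : ∀ j, ContDiffOn ℝ 2 (fun z => α z j) U := fun j => (hα j).contDiffOn
  have hA : ∀ j, ContinuousOn (fun z => dz (fun w => α w j) z (ee j) - α z j * ell φ z (ee j)) U :=
    fun j => (B3b_dz hU h12 (hαU j) _).continuousOn.sub
      ((hαU j).continuousOn.mul (B3b_ell hU h12 hφ _).continuousOn)
  have ha : ∀ j k, ContinuousOn (fun z => dzb (fun w => α w j) z (ee k)) U :=
    fun j k => (B3b_dzb hU h12 (hαU j) _).continuousOn
  have hK : IsCompact (⋃ j, tsupport fun z => α z j) := isCompact_iUnion fun j => hc j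
  have hKU : (⋃ j, tsupport fun z => α z j) ⊆ U := iUnion_subset hs
  have h0 : ∀ z, z ∉ (⋃ j, tsupport fun z => α z j) → (∀ j, α z j = 0) ∧
      (∀ j X, dz (fun w => α w j) z X = 0) ∧ ∀ j X, dzb (fun w => α w j) z X = 0 := by
    intro z hz
    rw [mem_iUnion, not_exists] at hz
    exact ⟨fun j => image_eq_zero_of_notMem_tsupport (f := fun z => α z j) (hz j),
      fun j X => B3b_dz_zero (hz j) X, fun j X => B3b_dzb_zero (hz j) X⟩
  refine setIntegral_mono_on ?_ ?_ hU.measurableSet ?_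
  · refine B3b_int hU (ContinuousOn.mul (ContinuousOn.sub ?_ ?_) hW) hK hKU ?_
    · exact (continuousOn_finsetSum _ fun j _ => hA j).norm.pow 2
    · refine continuousOn_finsetSum _ fun j _ => continuousOn_finsetSum _ fun k _ => ?_
      exact Complex.continuous_re.comp_continuousOn
        ((ha j k).mul (Complex.continuous_conj.comp_continuousOn (ha k j)))
    · intro z _ hz
      obtain ⟨h1, h2, h3⟩ := h0 z hz
      simp [h1, h2, h3]
  · refine B3b_int hU (ContinuousOn.mul (ContinuousOn.add ?_ ?_) hW) hK hKU ?_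
    · exact (continuousOn_finsetSum _ fun j _ => hA j).norm.pow 2
    · refine continuousOn_const.mul ?_
      refine continuousOn_finsetSum _ fun j _ => continuousOn_finsetSum _ fun k _ => ?_
      exact ((ha j k).sub (ha k j)).norm.pow 2
    · intro z _ hz
      obtain ⟨h1, h2, h3⟩ := h0 z hz
      simp [h1, h2, h3]
  · intro z _
    refine mul_le_mul_of_nonneg_right ?_ (Real.exp_pos _).le
    have := B3b_alg (fun j k => dzb (fun w => α w j) z (ee k))
    linarith

theorem B3b_combine {U : Set (Cn n)} (hU : MeasurableSet U) {P Q R S T : Cn n → ℝ}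
    (iP : IntegrableOn P U) (iQ : IntegrableOn Q U) (iR : IntegrableOn R U)
    (iS : IntegrableOn S U) (iT : IntegrableOn T U) (h1 : ∀ z ∈ U, P z + T z ≤ Q z)
    (hb : ∫ z in U, Q z ≤ ∫ z in U, R z) (h2 : ∀ z ∈ U, R z ≤ S z + T z) :
    ∫ z in U, P z ≤ ∫ z in U, S z := by
  have e1 : (∫ z in U, P z) + ∫ z in U, T z ≤ ∫ z in U, Q z := by
    rw [← integral_add iP iT]
    exact setIntegral_mono_on (iP.add iT) iQ hU h1
  have e2 : ∫ z in U, R z ≤ (∫ z in U, S z) + ∫ z in U, T z := by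
    rw [← integral_add iS iT]
    exact setIntegral_mono_on iR (iS.add iT) hU h2
  linarith

theorem B3b_sq (a b : ℂ) : ‖a - b‖ ^ 2 ≤ 2 * ‖a‖ ^ 2 + 2 * ‖b‖ ^ 2 := by
  have h3 := norm_sub_le a b
  have h5 := norm_nonneg (a - b)
  nlinarith [sq_nonneg (‖a‖ - ‖b‖), norm_nonneg a, norm_nonneg b]

/-- integrability of the terms -/
theorem B3b_data {U : Set (Cn n)} (hU : IsOpen U) {φ τ : Cn n → ℝ}
    (hφ : ContDiffOn ℝ 2 φ U) (hτ : ContDiffOn ℝ 2 τ U) (α : Cn n → Fin n → ℂ)
    (hα : ∀ j, ContDiff ℝ 2 fun z => α z j) (hc : ∀ j, HasCompactSupport fun z => α z j)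
    (hs : ∀ j, (tsupport fun z => α z j) ⊆ U) (c : ℂ) (r : ℝ) :
    IntegrableOn (fun z => (r * ‖∑ j, (dz (fun w => α w j) z (ee j) - α z j * ell φ z (ee j)
            + c * (α z j * ell τ z (ee j)))‖ ^ 2
        + (1 / 2) * ∑ j, ∑ k, ‖dzb (fun w => α w j) z (ee k) - dzb (fun w => α w k) z (ee j)‖ ^ 2)
          * Real.exp (-φ z)) U := by
  have h12 : (1 : WithTop ℕ∞) + 1 ≤ 2 := by norm_num
  have hφ1 : ContDiffOn ℝ 1 φ U := hφ.of_le (by norm_num)
  have hW : ContinuousOn (fun z => Real.exp (-φ z)) U :=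
    Real.continuous_exp.comp_continuousOn hφ1.continuousOn.neg
  have hαU : ∀ j, ContDiffOn ℝ 2 (fun z => α z j) U := fun j => (hα j).contDiffOn
  have hA : ∀ j, ContinuousOn (fun z => dz (fun w => α w j) z (ee j) - α z j * ell φ z (ee j)) U :=
    fun j => (B3b_dz hU h12 (hαU j) _).continuousOn.sub
      ((hαU j).continuousOn.mul (B3b_ell hU h12 hφ _).continuousOn)
  have hT : ∀ j, ContinuousOn (fun z => α z j * ell τ z (ee j)) U :=
    fun j => (hαU j).continuousOn.mul (B3b_ell hU h12 hτ _).continuousOn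
  have ha : ∀ j k, ContinuousOn (fun z => dzb (fun w => α w j) z (ee k)) U :=
    fun j k => (B3b_dzb hU h12 (hαU j) _).continuousOn
  have hK : IsCompact (⋃ j, tsupport fun z => α z j) := isCompact_iUnion fun j => hc j
  have hKU : (⋃ j, tsupport fun z => α z j) ⊆ U := iUnion_subset hs
  refine B3b_int hU (ContinuousOn.mul (ContinuousOn.add ?_ ?_) hW) hK hKU ?_
  · exact continuousOn_const.mul ((continuousOn_finsetSum _ fun j _ =>
      (hA j).add (continuousOn_const.mul (hT j))).norm.pow 2)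
  · refine continuousOn_const.mul ?_
    refine continuousOn_finsetSum _ fun j _ => continuousOn_finsetSum _ fun k _ => ?_
    exact ((ha j k).sub (ha k j)).norm.pow 2
  · intro z _ hz
    rw [mem_iUnion, not_exists] at hz
    have h1 : ∀ j, α z j = 0 := fun j => image_eq_zero_of_notMem_tsupport (f := fun z => α z j) (hz j)
    have h2 : ∀ j X, dz (fun w => α w j) z X = 0 := fun j X => B3b_dz_zero (hz j) X
    have h3 : ∀ j X, dzb (fun w => α w j) z X = 0 := fun j X => B3b_dzb_zero (hz j) X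
    simp [h1, h2, h3]

/-- The three weights inequality. -/
theorem three_weights {U : Set (Cn n)} (hU : IsOpen U) {Φ φ τ : Cn n → ℝ}
    (hφ : ContDiffOn ℝ 2 φ U) (hτ : ContDiffOn ℝ 2 τ U) (hΦ : ContDiffOn ℝ 2 Φ U)
    (hle : ∀ z ∈ U, ∀ X, levi Φ z X + 2 * ‖ell τ z X‖ ^ 2 ≤ levi φ z X) (α : Cn n → Fin n → ℂ)
    (hα : ∀ j, ContDiff ℝ 2 fun z => α z j) (hc : ∀ j, HasCompactSupport fun z => α z j)
    (hs : ∀ j, (tsupport fun z => α z j) ⊆ U) :
    ∫ z in U, levi Φ z (α z) * Real.exp (-φ z)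
      ≤ ∫ z in U, (2 * ‖∑ j, (dz (fun w => α w j) z (ee j) - α z j * ell φ z (ee j)
            + α z j * ell τ z (ee j))‖ ^ 2
        + (1 / 2) * ∑ j, ∑ k, ‖dzb (fun w => α w j) z (ee k) - dzb (fun w => α w k) z (ee j)‖ ^ 2)
          * Real.exp (-φ z) := by
  have hbasic := basic_inequality hU hφ α hα hc hs
  have hφ1 : ContDiffOn ℝ 1 φ U := hφ.of_le (by norm_num)
  have hτ1 : ContDiffOn ℝ 1 τ U := hτ.of_le (by norm_num)
  have hW : ContinuousOn (fun z => Real.exp (-φ z)) U :=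
    Real.continuous_exp.comp_continuousOn hφ1.continuousOn.neg
  have hαU : ∀ j, ContDiffOn ℝ 2 (fun z => α z j) U := fun j => (hα j).contDiffOn
  have hK : IsCompact (⋃ j, tsupport fun z => α z j) := isCompact_iUnion fun j => hc j
  have hKU : (⋃ j, tsupport fun z => α z j) ⊆ U := iUnion_subset hs
  have h0 : ∀ z, z ∉ (⋃ j, tsupport fun z => α z j) → α z = (0 : Cn n) := by
    intro z hz
    rw [mem_iUnion, not_exists] at hz
    funext j
    exact image_eq_zero_of_notMem_tsupport (f := fun z => α z j) (hz j)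
  have hαc : ContinuousOn (fun z => (z, α z)) U :=
    continuousOn_id.prodMk (continuousOn_pi.2 fun j => (hαU j).continuousOn)
  have hmaps : MapsTo (fun z => (z, α z)) U (U ×ˢ (univ : Set (Cn n))) :=
    fun z hz => ⟨hz, mem_univ _⟩
  have hell0 : ∀ z, ell τ z (0 : Cn n) = 0 := by
    intro z
    have := ell_smul τ z 0 (0 : Cn n)
    rwa [smul_zero, zero_mul] at this
  have iφ : IntegrableOn (fun z => levi φ z (α z) * Real.exp (-φ z)) U := by
    refine B3b_int hU (((continuousOn_levi hU hφ).comp hαc hmaps).mul hW) hK hKU ?_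
    intro z _ hz
    rw [h0 z hz, levi_zero, zero_mul]
  have iΦ : IntegrableOn (fun z => levi Φ z (α z) * Real.exp (-φ z)) U := by
    refine B3b_int hU (((continuousOn_levi hU hΦ).comp hαc hmaps).mul hW) hK hKU ?_
    intro z _ hz
    rw [h0 z hz, levi_zero, zero_mul]
  have iτ : IntegrableOn (fun z => 2 * ‖ell τ z (α z)‖ ^ 2 * Real.exp (-φ z)) U := by
    refine B3b_int hU ((continuousOn_const.mul
      (((continuousOn_ell hU hτ1).comp hαc hmaps).norm.pow 2)).mul hW) hK hKU ?_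
    intro z _ hz
    rw [h0 z hz, hell0]
    simp
  have iS := B3b_data hU hφ hτ α hα hc hs 1 2
  have iR := B3b_data hU hφ hτ α hα hc hs 0 1
  simp only [one_mul, zero_mul, add_zero] at iS iR
  refine B3b_combine hU.measurableSet iΦ iφ iR iS iτ ?_ hbasic ?_
  · intro z hz
    have := mul_le_mul_of_nonneg_right (hle z hz (α z)) (Real.exp_pos (-φ z)).le
    linarith
  · intro z _
    rw [← add_mul]
    refine mul_le_mul_of_nonneg_right ?_ (Real.exp_pos _).le
    have h1 : ∑ j, (dz (fun w => α w j) z (ee j) - α z j * ell φ z (ee j)) =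
        ∑ j, (dz (fun w => α w j) z (ee j) - α z j * ell φ z (ee j) + α z j * ell τ z (ee j)) -
          ell τ z (α z) := by
      rw [ell_sum τ z (α z), ← Finset.sum_sub_distrib]
      refine Finset.sum_congr rfl fun j _ => ?_
      ring
    rw [h1]
    have h2 := B3b_sq (∑ j, (dz (fun w => α w j) z (ee j) - α z j * ell φ z (ee j)
            + α z j * ell τ z (ee j))) (ell τ z (α z))
    linarith

end HankelSPC
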