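import Pool.Agent.Lib.MP_e1cf54_an.BDefs
import Pool.Agent.Lib.MP_e1cf54_an.L1b

/-! Row B4a: mollification of forms -/

open MeasureTheory Set Filter
open scoped ENNReal NNReal Topology ContDiff Convolution

namespace HankelSPC

variable {n : ℕ}

/-- the mollification operator -/
noncomputable def B4a_moll (φ : ContDiffBump (0 : Cn n)) (u : Cn n → ℂ) : Cn n → ℂ :=
  φ.normed volume ⋆[ContinuousLinearMap.lsmul ℝ ℝ, volume] u

lemma B4a_sq_le {Ω : Type*} [MeasurableSpace Ω] (ν : Measure Ω) [IsProbabilityMeasure ν]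
    (f : Ω → ℝ≥0∞) (hf : AEMeasurable f ν) :
    (∫⁻ x, f x ∂ν) ^ (2 : ℝ) ≤ ∫⁻ x, f x ^ (2 : ℝ) ∂ν := by
  have h := ENNReal.lintegral_mul_le_Lp_mul_Lq ν
    (Real.HolderConjugate.two_two) (f := fun _ => (1 : ℝ≥0∞)) (g := f)
    aemeasurable_const hf
  simp only [Pi.mul_apply, one_mul, ENNReal.one_rpow, lintegral_const, measure_univ, mul_one] at h
  calc (∫⁻ x, f x ∂ν) ^ (2 : ℝ) ≤ ((∫⁻ x, f x ^ (2 : ℝ) ∂ν) ^ (1 / (2 : ℝ))) ^ (2 : ℝ) :=
        ENNReal.rpow_le_rpow h (by norm_num)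
    _ = _ := by rw [← ENNReal.rpow_mul]; norm_num

lemma B4a_young_meas (φ : ContDiffBump (0 : Cn n)) (u : Cn n → ℂ) (hu : Measurable u) :
    ∫⁻ z, ‖B4a_moll φ u z‖ₑ ^ (2 : ℝ) ≤ ∫⁻ z, ‖u z‖ₑ ^ (2 : ℝ) := by
  set η := φ.normed (volume : Measure (Cn n)) with hη
  set ν : Measure (Cn n) := volume.withDensity (fun t => ENNReal.ofReal (η t)) with hν
  have hηm : Measurable fun t => ENNReal.ofReal (η t) :=
    (φ.continuous_normed.measurable).ennreal_ofReal
  have hprob : IsProbabilityMeasure ν := by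
    constructor
    rw [hν, withDensity_apply _ MeasurableSet.univ, Measure.restrict_univ,
      ← ofReal_integral_eq_lintegral_ofReal φ.integrable_normed
        (Filter.Eventually.of_forall fun t => φ.nonneg_normed t), φ.integral_normed]
    simp
  have h1 : ∀ z, ‖B4a_moll φ u z‖ₑ ≤ ∫⁻ t, ‖u (z - t)‖ₑ ∂ν := by
    intro z
    have hm : Measurable fun t => ‖u (z - t)‖ₑ := by fun_prop
    rw [hν, lintegral_withDensity_eq_lintegral_mul _ hηm hm]
    unfold B4a_moll
    rw [convolution_def]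
    refine (enorm_integral_le_lintegral_enorm _).trans (lintegral_mono fun t => ?_)
    simp only [ContinuousLinearMap.lsmul_apply, Pi.mul_apply, enorm_smul]
    rw [← hη, Real.enorm_eq_ofReal (φ.nonneg_normed t)]
  have h2 : ∀ z, ‖B4a_moll φ u z‖ₑ ^ (2 : ℝ) ≤ ∫⁻ t, ‖u (z - t)‖ₑ ^ (2 : ℝ) ∂ν := fun z =>
    (ENNReal.rpow_le_rpow (h1 z) (by norm_num)).trans
      (B4a_sq_le ν _ ((hu.comp (measurable_const.sub measurable_id)).enorm.aemeasurable))
  calc ∫⁻ z, ‖B4a_moll φ u z‖ₑ ^ (2 : ℝ)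
      ≤ ∫⁻ z, ∫⁻ t, ‖u (z - t)‖ₑ ^ (2 : ℝ) ∂ν := lintegral_mono h2
    _ = ∫⁻ t, (∫⁻ z, ‖u (z - t)‖ₑ ^ (2 : ℝ)) ∂ν := by
        apply lintegral_lintegral_swap
        exact (((hu.comp (measurable_fst.sub measurable_snd)).enorm).pow_const _).aemeasurable
    _ = ∫⁻ t, (∫⁻ z, ‖u z‖ₑ ^ (2 : ℝ)) ∂ν := by
        congr 1; funext t
        exact lintegral_sub_right_eq_self (fun z => ‖u z‖ₑ ^ (2 : ℝ)) t
    _ = ∫⁻ z, ‖u z‖ₑ ^ (2 : ℝ) := by
        rw [lintegral_const, measure_univ, mul_one]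

lemma B4a_young (φ : ContDiffBump (0 : Cn n)) (u : Cn n → ℂ) (hu : AEStronglyMeasurable u volume) :
    eLpNorm (B4a_moll φ u) 2 volume ≤ eLpNorm u 2 volume := by
  have hc : B4a_moll φ u = B4a_moll φ (hu.mk u) := by
    unfold B4a_moll
    exact convolution_congr _ (Filter.EventuallyEq.rfl) hu.ae_eq_mk
  rw [hc, eLpNorm_congr_ae hu.ae_eq_mk]
  rw [eLpNorm_eq_lintegral_rpow_enorm_toReal (by norm_num) (by norm_num),
    eLpNorm_eq_lintegral_rpow_enorm_toReal (by norm_num) (by norm_num)]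
  apply ENNReal.rpow_le_rpow _ (by norm_num)
  simpa using B4a_young_meas φ _ hu.stronglyMeasurable_mk.measurable

lemma B4a_tendsto_cont (φ : ℕ → ContDiffBump (0 : Cn n))
    (hφ : Tendsto (fun m => (φ m).rOut) atTop (𝓝 0)) (g : Cn n → ℂ) (hg : Continuous g)
    (hgc : HasCompactSupport g) :
    Tendsto (fun m => eLpNorm (B4a_moll (φ m) g - g) 2 volume) atTop (𝓝 0) := by
  have hS : IsCompact (Metric.cthickening 1 (tsupport g)) := hgc.isCompact.cthickening
  set S := Metric.cthickening 1 (tsupport g) with hSdef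
  have hvol : volume S ≠ ⊤ := hS.measure_lt_top.ne
  have huc : UniformContinuous g := hgc.uniformContinuous_of_continuous hg
  have key : ∀ ε : ℝ≥0, 0 < ε → ∀ᶠ m in atTop,
      eLpNorm (B4a_moll (φ m) g - g) 2 volume ≤ ε * volume S ^ (1 / (2 : ℝ≥0∞).toReal) := by
    intro ε hε
    obtain ⟨d, hd, hdd⟩ := Metric.uniformContinuous_iff.mp huc ε (by exact_mod_cast hε)
    have hev : ∀ᶠ m in atTop, (φ m).rOut < min d 1 :=
      hφ.eventually (gt_mem_nhds (lt_min hd one_pos))
    filter_upwards [hev] with m hm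
    have hm1 : (φ m).rOut < d := lt_of_lt_of_le hm (min_le_left _ _)
    have hm2 : (φ m).rOut < 1 := lt_of_lt_of_le hm (min_le_right _ _)
    have hb : ∀ z, ‖(B4a_moll (φ m) g - g) z‖ ≤ ‖S.indicator (fun _ => (ε : ℝ)) z‖ := by
      intro z
      by_cases hz : z ∈ S
      · rw [Set.indicator_of_mem hz, Pi.sub_apply, ← dist_eq_norm]
        refine (ContDiffBump.dist_normed_convolution_le (ε := (ε : ℝ)) hg.aestronglyMeasurable
          ?_).trans (le_of_eq (by simp))
        intro x hx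
        exact (hdd (lt_trans (Metric.mem_ball.mp hx) hm1)).le
      · have h0 : ∀ x ∈ Metric.ball z (φ m).rOut, g x = 0 := by
          intro x hx
          by_contra hne
          apply hz
          have hxs : x ∈ tsupport g := subset_tsupport g hne
          apply Metric.mem_cthickening_of_dist_le z x 1 _ hxs
          rw [dist_comm]
          exact (lt_trans (Metric.mem_ball.mp hx) hm2).le
        have hzz : g z = 0 := h0 z (Metric.mem_ball_self (φ m).rOut_pos)
        rw [Set.indicator_of_notMem hz, Pi.sub_apply, hzz]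
        have : B4a_moll (φ m) g z = g z := by
          unfold B4a_moll
          apply ContDiffBump.normed_convolution_eq_right
          intro x hx
          rw [h0 x hx, hzz]
        rw [this, hzz]
        simp
    refine (eLpNorm_mono hb).trans ?_
    rw [eLpNorm_indicator_const (hS.isClosed.measurableSet) (by norm_num) (by norm_num)]
    gcongr
    simp
  rw [ENNReal.tendsto_nhds_zero]
  intro ε hε
  have hfin : volume S ^ (1 / (2 : ℝ≥0∞).toReal) ≠ ⊤ :=
    ENNReal.rpow_ne_top_of_nonneg (by positivity) hvol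
  by_cases htop : ε = ⊤
  · filter_upwards with m; rw [htop]; exact le_top
  obtain ⟨C, hC⟩ : ∃ C : ℝ≥0, (C : ℝ≥0∞) = volume S ^ (1 / (2 : ℝ≥0∞).toReal) :=
    ⟨_, ENNReal.coe_toNNReal hfin⟩
  obtain ⟨e, he⟩ : ∃ e : ℝ≥0, (e : ℝ≥0∞) = ε := ⟨_, ENNReal.coe_toNNReal htop⟩
  have hepos : 0 < e := by
    rw [← he] at hε; exact_mod_cast hε
  have h1 := key (e / (C + 1)) (by positivity)
  filter_upwards [h1] with m hm
  refine hm.trans ?_
  rw [← hC, ← he, ← ENNReal.coe_mul]
  norm_cast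
  calc e / (C + 1) * C ≤ e / (C + 1) * (C + 1) := by gcongr; exact le_self_add
    _ = e := by field_simp

lemma B4a_integrable {u : Cn n → ℂ} (hu : MemLp u 2 volume) : LocallyIntegrable u volume :=
  hu.locallyIntegrable (by norm_num)

lemma B4a_moll_sub (φ : ContDiffBump (0 : Cn n)) {u v : Cn n → ℂ}
    (hu : LocallyIntegrable u volume) (hv : LocallyIntegrable v volume) :
    B4a_moll φ (u - v) = B4a_moll φ u - B4a_moll φ v := by
  have hex : ∀ w : Cn n → ℂ, LocallyIntegrable w volume → ConvolutionExists (φ.normed volume) w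
      (ContinuousLinearMap.lsmul ℝ ℝ) volume := fun w hw =>
    φ.hasCompactSupport_normed.convolutionExists_left _ φ.continuous_normed hw
  have h : u = (u - v) + v := by simp
  have h2 : B4a_moll φ u = B4a_moll φ (u - v) + B4a_moll φ v := by
    conv_lhs => rw [h]
    unfold B4a_moll
    exact (hex (u - v) (hu.sub hv)).distrib_add (hex v hv)
  rw [h2]; simp

lemma B4a_tendsto (φ : ℕ → ContDiffBump (0 : Cn n))
    (hφ : Tendsto (fun m => (φ m).rOut) atTop (𝓝 0)) (u : Cn n → ℂ) (hu : MemLp u 2 volume) :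
    Tendsto (fun m => eLpNorm (fun z => B4a_moll (φ m) u z - u z) 2 volume) atTop (𝓝 0) := by
  rw [ENNReal.tendsto_nhds_zero]
  intro ε hε
  have hε3 : ε / 3 ≠ 0 := (ENNReal.div_pos hε.ne' (by norm_num)).ne'
  obtain ⟨g, hgc, hgle, hg, hgm⟩ := hu.exists_hasCompactSupport_eLpNorm_sub_le
    (p := 2) (by norm_num) hε3
  have h1 := (ENNReal.tendsto_nhds_zero.mp (B4a_tendsto_cont φ hφ g hg hgc)) (ε / 3)
    (pos_iff_ne_zero.mpr hε3)
  filter_upwards [h1] with m hm
  have hcm : AEStronglyMeasurable (B4a_moll (φ m) (u - g)) volume := by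
    have : ContDiff ℝ 0 (B4a_moll (φ m) (u - g)) := by
      unfold B4a_moll
      exact (φ m).hasCompactSupport_normed.contDiff_convolution_left _ ((φ m).contDiff_normed (n := 0))
        (B4a_integrable (hu.sub hgm))
    exact this.continuous.aestronglyMeasurable
  have hcm2 : AEStronglyMeasurable (B4a_moll (φ m) g) volume := by
    have : ContDiff ℝ 0 (B4a_moll (φ m) g) := by
      unfold B4a_moll
      exact (φ m).hasCompactSupport_normed.contDiff_convolution_left _ ((φ m).contDiff_normed (n := 0))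
        (B4a_integrable hgm)
    exact this.continuous.aestronglyMeasurable
  have hdec : (fun z => B4a_moll (φ m) u z - u z) =
      (B4a_moll (φ m) (u - g) + (B4a_moll (φ m) g - g)) + (g - u) := by
    rw [B4a_moll_sub (φ m) (B4a_integrable hu) (B4a_integrable hgm)]
    funext z
    simp only [Pi.add_apply, Pi.sub_apply]
    ring
  rw [hdec]
  calc eLpNorm ((B4a_moll (φ m) (u - g) + (B4a_moll (φ m) g - g)) + (g - u)) 2 volume
      ≤ eLpNorm (B4a_moll (φ m) (u - g) + (B4a_moll (φ m) g - g)) 2 volume +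
        eLpNorm (g - u) 2 volume :=
        eLpNorm_add_le (hcm.add (hcm2.sub hg.aestronglyMeasurable))
          (hgm.aestronglyMeasurable.sub hu.aestronglyMeasurable) (by norm_num)
    _ ≤ (eLpNorm (B4a_moll (φ m) (u - g)) 2 volume + eLpNorm (B4a_moll (φ m) g - g) 2 volume) +
        eLpNorm (g - u) 2 volume := by
        gcongr
        exact eLpNorm_add_le hcm (hcm2.sub hg.aestronglyMeasurable) (by norm_num)
    _ ≤ (ε / 3 + ε / 3) + ε / 3 := by
        gcongr
        · exact (B4a_young _ _ (hu.sub hgm).aestronglyMeasurable).trans hgle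
        · rw [eLpNorm_sub_comm]; exact hgle
    _ = ε := by
        rw [ENNReal.add_thirds]

lemma B4a_fderiv (φ : ContDiffBump (0 : Cn n)) {u : Cn n → ℂ} (hu : LocallyIntegrable u volume)
    (z X : Cn n) : Integrable (fun w => (fderiv ℝ (φ.normed volume) (z - w) X) • u w) volume ∧
    fderiv ℝ (B4a_moll φ u) z X = ∫ w, (fderiv ℝ (φ.normed volume) (z - w) X) • u w := by
  have hc1 : ContDiff ℝ 1 (φ.normed (volume : Measure (Cn n))) := φ.contDiff_normed (n := 1)
  have h := φ.hasCompactSupport_normed.hasFDerivAt_convolution_left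
    (ContinuousLinearMap.lsmul ℝ ℝ) hc1 hu z
  have hcomp : HasCompactSupport (fderiv ℝ (φ.normed (volume : Measure (Cn n)))) :=
    φ.hasCompactSupport_normed.fderiv ℝ
  have hcont : Continuous (fderiv ℝ (φ.normed (volume : Measure (Cn n)))) :=
    hc1.continuous_fderiv (by norm_num)
  have hint := (hcomp.convolutionExists_left
    ((ContinuousLinearMap.lsmul ℝ ℝ : ℝ →L[ℝ] ℂ →L[ℝ] ℂ).precompL (Cn n)) hcont hu z).integrable_swap
  have hf : fderiv ℝ (B4a_moll φ u) z = ∫ w,
      ((ContinuousLinearMap.lsmul ℝ ℝ : ℝ →L[ℝ] ℂ →L[ℝ] ℂ).precompL (Cn n))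
        (fderiv ℝ (φ.normed volume) (z - w)) (u w) := by
    rw [← convolution_eq_swap]
    exact h.fderiv
  refine ⟨?_, ?_⟩
  · have := hint.apply_continuousLinearMap X
    simpa [ContinuousLinearMap.precompL_apply] using this
  · rw [hf, ContinuousLinearMap.integral_apply hint]
    simp [ContinuousLinearMap.precompL_apply]

lemma B4a_dz (φ : ContDiffBump (0 : Cn n)) {u : Cn n → ℂ} (hu : LocallyIntegrable u volume)
    (z X : Cn n) : Integrable (fun w => ell (φ.normed volume) (z - w) X * u w) volume ∧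
    dz (B4a_moll φ u) z X = ∫ w, ell (φ.normed volume) (z - w) X * u w := by
  obtain ⟨i1, e1⟩ := B4a_fderiv φ hu z X
  obtain ⟨i2, e2⟩ := B4a_fderiv φ hu z (Complex.I • X)
  have hfun : (fun w => ell (φ.normed volume) (z - w) X * u w) = fun w => (1 / 2 : ℂ) *
      ((fderiv ℝ (φ.normed volume) (z - w) X) • u w - Complex.I *
        ((fderiv ℝ (φ.normed volume) (z - w) (Complex.I • X)) • u w)) := by
    funext w
    simp only [ell, Complex.real_smul]
    ring
  refine ⟨?_, ?_⟩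
  · rw [hfun]
    exact (i1.sub (i2.const_mul _)).const_mul _
  · rw [hfun, integral_const_mul, integral_sub i1 (i2.const_mul _), integral_const_mul, dz, e1, e2]

lemma B4a_dzb (φ : ContDiffBump (0 : Cn n)) {u : Cn n → ℂ} (hu : LocallyIntegrable u volume)
    (z X : Cn n) :
    Integrable (fun w => (starRingEnd ℂ) (ell (φ.normed volume) (z - w) X) * u w) volume ∧
    dzb (B4a_moll φ u) z X =
      ∫ w, (starRingEnd ℂ) (ell (φ.normed volume) (z - w) X) * u w := by
  obtain ⟨i1, e1⟩ := B4a_fderiv φ hu z X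
  obtain ⟨i2, e2⟩ := B4a_fderiv φ hu z (Complex.I • X)
  have hfun : (fun w => (starRingEnd ℂ) (ell (φ.normed volume) (z - w) X) * u w) =
      fun w => (1 / 2 : ℂ) *
      ((fderiv ℝ (φ.normed volume) (z - w) X) • u w + Complex.I *
        ((fderiv ℝ (φ.normed volume) (z - w) (Complex.I • X)) • u w)) := by
    funext w
    simp only [ell, Complex.real_smul, map_mul, map_sub, Complex.conj_ofReal, Complex.conj_I,
      map_div₀, map_one, map_ofNat]
    ring
  refine ⟨?_, ?_⟩
  · rw [hfun]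
    exact (i1.add (i2.const_mul _)).const_mul _
  · rw [hfun, integral_const_mul, integral_add i1 (i2.const_mul _), integral_const_mul, dzb, e1, e2]

lemma B4a_moll_eq (φ : ContDiffBump (0 : Cn n)) (u : Cn n → ℂ) (z : Cn n) :
    B4a_moll φ u z = ∫ w, (φ.normed volume (z - w) : ℂ) * u w := by
  unfold B4a_moll
  rw [convolution_eq_swap]
  simp [Complex.real_smul]

/-- cutoff -/
lemma B4a_cutoff {U K : Set (Cn n)} (hU : IsOpen U) (hK : IsCompact K) (hKU : K ⊆ U) :
    ∃ χ : Cn n → ℝ, ContDiff ℝ ∞ χ ∧ HasCompactSupport χ ∧ tsupport χ ⊆ U ∧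
      ∀ z ∈ K, χ =ᶠ[𝓝 z] fun _ => 1 := by
  obtain ⟨d, hd, hdU⟩ := hK.exists_cthickening_subset_open hU hKU
  have hK' : IsCompact (Metric.cthickening d K) := hK.cthickening
  have hint : K ⊆ interior (Metric.cthickening d K) :=
    (Metric.self_subset_thickening hd K).trans
      (interior_maximal (Metric.thickening_subset_cthickening d K) Metric.isOpen_thickening)
  obtain ⟨f, hf1, hf0, hf⟩ := exists_contMDiffMap_one_nhds_of_subset_interior
    (modelWithCornersSelf ℝ (Cn n)) (n := ⊤) hK.isClosed hint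
  have hts : tsupport f ⊆ Metric.cthickening d K := by
    apply closure_minimal _ Metric.isClosed_cthickening
    intro x hx
    by_contra hxn
    exact hx (hf0 x hxn)
  refine ⟨f, f.contMDiff.contDiff, ?_, hts.trans hdU, ?_⟩
  · exact hK'.of_isClosed_subset (isClosed_tsupport _) hts
  · intro z hz
    have := (eventually_nhdsSet_iff_forall.mp hf1) z hz
    exact this

/-- the test function `w ↦ χ(w) η(z - w)`. -/
noncomputable def B4a_tf (φ : ContDiffBump (0 : Cn n)) (χ : Cn n → ℝ) (z w : Cn n) : ℂ :=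
  ((χ w * φ.normed volume (z - w) : ℝ) : ℂ)

lemma B4a_tf_test {U : Set (Cn n)} (φ : ContDiffBump (0 : Cn n)) {χ : Cn n → ℝ}
    (h1 : ContDiff ℝ ∞ χ) (h2 : HasCompactSupport χ) (h3 : tsupport χ ⊆ U) (z : Cn n) :
    IsTest U (B4a_tf φ χ z) := by
  have hη : ContDiff ℝ ∞ (φ.normed (volume : Measure (Cn n))) := φ.contDiff_normed (n := ⊤)
  have hsupp : Function.support (B4a_tf φ χ z) ⊆ Function.support χ := by
    intro w hw hχ
    apply hw
    simp [B4a_tf, hχ]
  refine ⟨?_, ?_, ?_⟩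
  · unfold B4a_tf
    apply Complex.ofRealCLM.contDiff.comp
    exact h1.mul (hη.comp (contDiff_const.sub contDiff_id))
  · exact h2.mono hsupp
  · exact (closure_mono hsupp).trans h3

lemma B4a_tf_fderiv (φ : ContDiffBump (0 : Cn n)) {χ : Cn n → ℝ} (z w Y : Cn n)
    (h : χ =ᶠ[𝓝 w] fun _ => 1) : fderiv ℝ (B4a_tf φ χ z) w Y =
      -((fderiv ℝ (φ.normed volume) (z - w) Y : ℝ) : ℂ) := by
  have hη : ContDiff ℝ 1 (φ.normed (volume : Measure (Cn n))) := φ.contDiff_normed (n := 1)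
  have he : B4a_tf φ χ z =ᶠ[𝓝 w] fun w' => ((φ.normed volume (z - w') : ℝ) : ℂ) := by
    filter_upwards [h] with w' hw'
    simp [B4a_tf, hw']
  rw [he.fderiv_eq]
  have hd : HasFDerivAt (fun w' => φ.normed volume (z - w'))
      ((fderiv ℝ (φ.normed volume) (z - w)).comp (-(ContinuousLinearMap.id ℝ (Cn n)))) w := by
    have h1 : HasFDerivAt (φ.normed (volume : Measure (Cn n)))
        (fderiv ℝ (φ.normed volume) (z - w)) (z - w) :=
      (hη.differentiable (by norm_num) _).hasFDerivAt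
    exact h1.comp w ((hasFDerivAt_id w).const_sub z)
  have hd2 := (Complex.ofRealCLM.hasFDerivAt).comp w hd
  have : fderiv ℝ (fun w' => ((φ.normed volume (z - w') : ℝ) : ℂ)) w = _ := hd2.fderiv
  rw [this]
  simp

lemma B4a_tf_dz (φ : ContDiffBump (0 : Cn n)) {χ : Cn n → ℝ} (z w X : Cn n)
    (h : χ =ᶠ[𝓝 w] fun _ => 1) : dz (B4a_tf φ χ z) w X = - ell (φ.normed volume) (z - w) X := by
  rw [dz, B4a_tf_fderiv φ z w X h, B4a_tf_fderiv φ z w _ h, ell]
  ring

lemma B4a_tf_dzb (φ : ContDiffBump (0 : Cn n)) {χ : Cn n → ℝ} (z w X : Cn n)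
    (h : χ =ᶠ[𝓝 w] fun _ => 1) : dzb (B4a_tf φ χ z) w X =
      - (starRingEnd ℂ) (ell (φ.normed volume) (z - w) X) := by
  rw [dzb, B4a_tf_fderiv φ z w X h, B4a_tf_fderiv φ z w _ h, ell]
  simp only [map_mul, map_sub, Complex.conj_ofReal, Complex.conj_I,
      map_div₀, map_one, map_ofNat]
  ring

lemma B4a_int_g (φ : ContDiffBump (0 : Cn n)) {K : Set (Cn n)} {χ : Cn n → ℝ}
    (hχ : ∀ z ∈ K, χ =ᶠ[𝓝 z] fun _ => 1) (g : Cn n → ℂ) (hg : ∀ z, z ∉ K → g z = 0) (z : Cn n) :
    ∫ w, g w * B4a_tf φ χ z w = B4a_moll φ g z := by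
  rw [B4a_moll_eq]
  congr 1
  funext w
  by_cases hw : w ∈ K
  · rw [B4a_tf, (hχ w hw).eq_of_nhds]
    push_cast
    ring
  · rw [hg w hw]; simp

/-- Mollification. `α`, `g₀`, `h` vanish off the compact set `K ⊆ U` and are square integrable;
`∑ ∂_jα_j = g₀` and `∂̄_kα_j - ∂̄_jα_k = h_jk` weakly (tested with smooth functions supported in
`U`). Then the mollifications `α ⋆ η_m` do the job (use circled or not: any bump; `u ↦ u ⋆ η_m`
converges in `L²`, e.g. via density of continuous compactly supported functions and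
`‖u ⋆ η‖₂ ≤ ‖u‖₂`). -/
theorem mollify_form {U K : Set (Cn n)} (hU : IsOpen U) (hK : IsCompact K) (hKU : K ⊆ U)
    (α : Cn n → Fin n → ℂ) (g₀ : Cn n → ℂ) (h : Cn n → Fin n → Fin n → ℂ)
    (hα : ∀ j, MemLp (fun z => α z j) 2 volume) (hg : MemLp g₀ 2 volume)
    (hh : ∀ j k, MemLp (fun z => h z j k) 2 volume)
    (hαK : ∀ z, z ∉ K → α z = 0) (hgK : ∀ z, z ∉ K → g₀ z = 0) (hhK : ∀ z, z ∉ K → h z = 0)
    (hdiv : ∀ v, IsTest U v → ∫ z, ∑ j, α z j * dz v z (ee j) = - ∫ z, g₀ z * v z)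
    (hcurl : ∀ v, IsTest U v → ∀ j k, ∫ z, (α z j * dzb v z (ee k) - α z k * dzb v z (ee j))
      = - ∫ z, h z j k * v z) :
    ∃ K', IsCompact K' ∧ K' ⊆ U ∧ ∃ a : ℕ → Cn n → Fin n → ℂ,
      (∀ m j, ContDiff ℝ ∞ fun z => a m z j) ∧ (∀ m z, z ∉ K' → a m z = 0) ∧
      (∀ j, Tendsto (fun m => eLpNorm (fun z => a m z j - α z j) 2 volume) atTop (𝓝 0)) ∧
      Tendsto (fun m => eLpNorm (fun z => ∑ j, dz (fun w => a m w j) z (ee j) - g₀ z) 2 volume)
        atTop (𝓝 0) ∧
      ∀ j k, Tendsto (fun m => eLpNorm (fun z => dzb (fun w => a m w j) z (ee k)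
        - dzb (fun w => a m w k) z (ee j) - h z j k) 2 volume) atTop (𝓝 0) := by
  obtain ⟨χ, hχ1, hχ2, hχ3, hχ4⟩ := B4a_cutoff hU hK hKU
  obtain ⟨d, hd, hdU⟩ := hK.exists_cthickening_subset_open hU hKU
  have hpos : ∀ m : ℕ, 0 < d / (m + 1 : ℝ) := fun m => by positivity
  let φ : ℕ → ContDiffBump (0 : Cn n) := fun m =>
    ⟨d / (m + 1) / 2, d / (m + 1), half_pos (hpos m), half_lt_self (hpos m)⟩
  have hφr : ∀ m, (φ m).rOut = d / (m + 1) := fun m => rfl
  have hφle : ∀ m, (φ m).rOut ≤ d := by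
    intro m
    rw [hφr]
    apply div_le_self hd.le
    have : (0 : ℝ) ≤ m := Nat.cast_nonneg m
    linarith
  have hφ0 : Tendsto (fun m => (φ m).rOut) atTop (𝓝 0) := by
    have : Tendsto (fun m : ℕ => d * (1 / ((m : ℝ) + 1))) atTop (𝓝 (d * 0)) :=
      (tendsto_one_div_add_atTop_nhds_zero_nat).const_mul d
    rw [mul_zero] at this
    refine this.congr fun m => ?_
    rw [hφr]; ring
  have hloc : ∀ j, LocallyIntegrable (fun z => α z j) volume := fun j => B4a_integrable (hα j)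
  have hdz : ∀ m z, ∑ j, dz (B4a_moll (φ m) fun w => α w j) z (ee j) = B4a_moll (φ m) g₀ z := by
    intro m z
    have h1 := hdiv _ (B4a_tf_test (φ m) hχ1 hχ2 hχ3 z)
    rw [B4a_int_g (φ m) hχ4 g₀ hgK z] at h1
    have h2 : ∀ j, dz (B4a_moll (φ m) fun w => α w j) z (ee j) = _ := fun j =>
      (B4a_dz (φ m) (hloc j) z (ee j)).2
    simp_rw [h2]
    rw [← integral_finsetSum _ (fun j _ => (B4a_dz (φ m) (hloc j) z (ee j)).1)]
    rw [← neg_eq_iff_eq_neg.mpr h1, ← integral_neg]
    congr 1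
    funext w
    rw [← Finset.sum_neg_distrib]
    apply Finset.sum_congr rfl
    intro j _
    by_cases hw : w ∈ K
    · rw [B4a_tf_dz (φ m) z w (ee j) (hχ4 w hw)]; ring
    · rw [hαK w hw]; simp
  have hdzb : ∀ m z j k, dzb (B4a_moll (φ m) fun w => α w j) z (ee k) -
      dzb (B4a_moll (φ m) fun w => α w k) z (ee j) = B4a_moll (φ m) (fun w => h w j k) z := by
    intro m z j k
    have h1 := hcurl _ (B4a_tf_test (φ m) hχ1 hχ2 hχ3 z) j k
    rw [B4a_int_g (φ m) hχ4 (fun w => h w j k) (fun w hw => by simp [hhK w hw]) z] at h1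
    rw [(B4a_dzb (φ m) (hloc j) z (ee k)).2, (B4a_dzb (φ m) (hloc k) z (ee j)).2,
      ← integral_sub (B4a_dzb (φ m) (hloc j) z (ee k)).1 (B4a_dzb (φ m) (hloc k) z (ee j)).1]
    rw [← neg_eq_iff_eq_neg.mpr h1, ← integral_neg]
    congr 1
    funext w
    by_cases hw : w ∈ K
    · rw [B4a_tf_dzb (φ m) z w (ee j) (hχ4 w hw), B4a_tf_dzb (φ m) z w (ee k) (hχ4 w hw)]; ring
    · rw [hαK w hw]; simp
  refine ⟨Metric.cthickening d K, hK.cthickening, hdU,
    fun m z j => B4a_moll (φ m) (fun w => α w j) z, ?_, ?_, ?_, ?_, ?_⟩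
  · intro m j
    exact (φ m).hasCompactSupport_normed.contDiff_convolution_left _
      ((φ m).contDiff_normed (n := ⊤)) (hloc j)
  · intro m z hz
    funext j
    change B4a_moll (φ m) (fun w => α w j) z = 0
    have h0 : ∀ x ∈ Metric.ball z (φ m).rOut, (fun w => α w j) x = 0 := by
      intro x hx
      by_contra hne
      apply hz
      have hxK : x ∈ K := by
        by_contra hxK
        apply hne
        simp [hαK x hxK]
      apply Metric.mem_cthickening_of_dist_le z x d _ hxK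
      rw [dist_comm]
      exact ((Metric.mem_ball.mp hx).le).trans (hφle m)
    have hz0 : (fun w => α w j) z = 0 := h0 z (Metric.mem_ball_self (φ m).rOut_pos)
    have : B4a_moll (φ m) (fun w => α w j) z = (fun w => α w j) z := by
      unfold B4a_moll
      apply ContDiffBump.normed_convolution_eq_right
      intro x hx
      exact (h0 x hx).trans hz0.symm
    rw [this, hz0]
  · intro j
    exact B4a_tendsto φ hφ0 _ (hα j)
  · simp only [hdz]
    exact B4a_tendsto φ hφ0 _ hg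
  · intro j k
    simp only [hdzb]
    exact B4a_tendsto φ hφ0 _ (hh j k)

end HankelSPC
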