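import Pool.Agent.Lib.MP_e1cf54_an.BDefs
import Pool.Agent.Lib.MP_e1cf54_an.B1
import Pool.Agent.Lib.MP_e1cf54_an.B3b
import Pool.Agent.Lib.MP_e1cf54_an.B4a

/-! Row B4b: estimate for compactly supported forms -/

open MeasureTheory Set Filter
open scoped ENNReal NNReal Topology ContDiff

namespace HankelSPC

variable {n : ℕ}

/-! #### Multipliers -/

lemma B4b_mulR {K : Set (Cn n)} (hK : IsCompact K) {b u : Cn n → ℂ} (hb : ContinuousOn b K)
    (hu : MemLp u 2 (volume.restrict K)) : MemLp (fun z => b z * u z) 2 (volume.restrict K) := by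
  obtain ⟨C, hC⟩ := hK.exists_bound_of_continuousOn hb
  refine hu.of_le_mul (c := C) ((hb.aestronglyMeasurable hK.measurableSet).mul hu.1) ?_
  filter_upwards [ae_restrict_mem hK.measurableSet] with z hz
  rw [norm_mul]
  exact mul_le_mul_of_nonneg_right (hC z hz) (norm_nonneg _)

lemma B4b_contR {K : Set (Cn n)} (hK : IsCompact K) {b : Cn n → ℂ} (hb : ContinuousOn b K) :
    MemLp b 2 (volume.restrict K) := by
  have : IsFiniteMeasure ((volume : Measure (Cn n)).restrict K) :=
    ⟨by rw [Measure.restrict_apply_univ]; exact hK.measure_lt_top⟩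
  obtain ⟨C, hC⟩ := hK.exists_bound_of_continuousOn hb
  refine MemLp.of_bound (hb.aestronglyMeasurable hK.measurableSet) C ?_
  filter_upwards [ae_restrict_mem hK.measurableSet] with z hz
  exact hC z hz

lemma B4b_global {K : Set (Cn n)} (hK : IsCompact K) {u : Cn n → ℂ}
    (hu : MemLp u 2 (volume.restrict K)) (h0 : ∀ z, z ∉ K → u z = 0) : MemLp u 2 volume := by
  have h : u = K.indicator u := by
    funext z; by_cases hz : z ∈ K
    · rw [indicator_of_mem hz]
    · rw [indicator_of_notMem hz, h0 z hz]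
  rw [h, memLp_indicator_iff_restrict hK.measurableSet]
  exact hu

/-! #### `L²` convergence -/

/-- `u m → u'` in `L²(ν)`. -/
def B4b_T2 (ν : Measure (Cn n)) (u : ℕ → Cn n → ℂ) (u' : Cn n → ℂ) : Prop :=
  (∀ m, MemLp (u m) 2 ν) ∧ MemLp u' 2 ν ∧
    Tendsto (fun m => eLpNorm (fun z => u m z - u' z) 2 ν) atTop (𝓝 0)

lemma B4b_T2_restrict {K : Set (Cn n)} {u : ℕ → Cn n → ℂ} {u' : Cn n → ℂ}
    (h1 : ∀ m, MemLp (u m) 2 (volume.restrict K)) (h2 : MemLp u' 2 (volume.restrict K))
    (h3 : Tendsto (fun m => eLpNorm (fun z => u m z - u' z) 2 volume) atTop (𝓝 0)) :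
    B4b_T2 (volume.restrict K) u u' := by
  refine ⟨h1, h2, ?_⟩
  exact tendsto_of_tendsto_of_tendsto_of_le_of_le tendsto_const_nhds h3 (fun m => zero_le)
    (fun m => eLpNorm_mono_measure _ Measure.restrict_le_self)

lemma B4b_T2_add {ν : Measure (Cn n)} {u v : ℕ → Cn n → ℂ} {u' v' : Cn n → ℂ}
    (hu : B4b_T2 ν u u') (hv : B4b_T2 ν v v') :
    B4b_T2 ν (fun m z => u m z + v m z) (fun z => u' z + v' z) := by
  refine ⟨fun m => (hu.1 m).add (hv.1 m), hu.2.1.add hv.2.1, ?_⟩
  have h : Tendsto (fun m => eLpNorm (fun z => u m z - u' z) 2 ν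
      + eLpNorm (fun z => v m z - v' z) 2 ν) atTop (𝓝 0) := by
    simpa using hu.2.2.add hv.2.2
  refine tendsto_of_tendsto_of_tendsto_of_le_of_le tendsto_const_nhds h (fun m => zero_le)
    (fun m => ?_)
  have e : (fun z => u m z + v m z - (u' z + v' z))
      = (fun z => u m z - u' z) + (fun z => v m z - v' z) := by
    funext z; simp only [Pi.add_apply]; ring
  show eLpNorm (fun z => u m z + v m z - (u' z + v' z)) 2 ν ≤ _
  rw [e]
  exact eLpNorm_add_le ((hu.1 m).sub hu.2.1).1 ((hv.1 m).sub hv.2.1).1 (by norm_num)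

lemma B4b_T2_mul {K : Set (Cn n)} (hK : IsCompact K) {b : Cn n → ℂ} (hb : ContinuousOn b K)
    {u : ℕ → Cn n → ℂ} {u' : Cn n → ℂ} (hu : B4b_T2 (volume.restrict K) u u') :
    B4b_T2 (volume.restrict K) (fun m z => b z * u m z) (fun z => b z * u' z) := by
  refine ⟨fun m => B4b_mulR hK hb (hu.1 m), B4b_mulR hK hb hu.2.1, ?_⟩
  obtain ⟨C, hC⟩ := hK.exists_bound_of_continuousOn hb
  have h : Tendsto (fun m => ENNReal.ofReal C
      * eLpNorm (fun z => u m z - u' z) 2 (volume.restrict K)) atTop (𝓝 0) := by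
    have := ENNReal.Tendsto.const_mul (a := ENNReal.ofReal C) hu.2.2
      (Or.inr ENNReal.ofReal_ne_top)
    simpa using this
  refine tendsto_of_tendsto_of_tendsto_of_le_of_le tendsto_const_nhds h (fun m => zero_le)
    (fun m => ?_)
  refine eLpNorm_le_mul_eLpNorm_of_ae_le_mul ?_ 2
  filter_upwards [ae_restrict_mem hK.measurableSet] with z hz
  rw [← mul_sub, norm_mul]
  exact mul_le_mul_of_nonneg_right (hC z hz) (norm_nonneg _)

lemma B4b_T2_sum {ι : Type*} {ν : Measure (Cn n)} (s : Finset ι)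
    {u : ι → ℕ → Cn n → ℂ} {u' : ι → Cn n → ℂ} (h : ∀ i ∈ s, B4b_T2 ν (u i) (u' i)) :
    B4b_T2 ν (fun m z => ∑ i ∈ s, u i m z) (fun z => ∑ i ∈ s, u' i z) := by
  classical
  induction s using Finset.induction_on with
  | empty =>
    refine ⟨fun m => ?_, ?_, ?_⟩
    · simp
    · simp
    · simp
  | insert a s ha ih =>
    have h1 := B4b_T2_add (h a (Finset.mem_insert_self _ _))
      (ih fun i hi => h i (Finset.mem_insert_of_mem hi))
    simpa only [Finset.sum_insert ha] using h1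

lemma B4b_T2_congr {ν : Measure (Cn n)} {u v : ℕ → Cn n → ℂ} {u' v' : Cn n → ℂ}
    (hu : B4b_T2 ν u u') (h1 : ∀ m, u m =ᵐ[ν] v m) (h2 : u' =ᵐ[ν] v') : B4b_T2 ν v v' := by
  refine ⟨fun m => (memLp_congr_ae (h1 m)).1 (hu.1 m), (memLp_congr_ae h2).1 hu.2.1, ?_⟩
  refine hu.2.2.congr fun m => ?_
  refine eLpNorm_congr_ae ?_
  filter_upwards [h1 m, h2] with z e1 e2
  rw [e1, e2]

lemma B4b_inner_lim {ν : Measure (Cn n)} {u v : ℕ → Cn n → ℂ} {u' v' : Cn n → ℂ}
    (hu : B4b_T2 ν u u') (hv : B4b_T2 ν v v') :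
    Tendsto (fun m => ∫ z, u m z * (starRingEnd ℂ) (v m z) ∂ν) atTop
      (𝓝 (∫ z, u' z * (starRingEnd ℂ) (v' z) ∂ν)) := by
  have key : ∀ (f g : Cn n → ℂ) (hf : MemLp f 2 ν) (hg : MemLp g 2 ν),
      inner ℂ (hg.toLp g) (hf.toLp f) = ∫ z, f z * (starRingEnd ℂ) (g z) ∂ν := by
    intro f g hf hg
    rw [L2.inner_def]
    refine integral_congr_ae ?_
    filter_upwards [hf.coeFn_toLp, hg.coeFn_toLp] with z e1 e2
    rw [e1, e2, RCLike.inner_apply]
  have hU := (Lp.tendsto_Lp_iff_tendsto_eLpNorm'' u hu.1 u' hu.2.1).2 hu.2.2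
  have hV := (Lp.tendsto_Lp_iff_tendsto_eLpNorm'' v hv.1 v' hv.2.1).2 hv.2.2
  have h := hV.inner (𝕜 := ℂ) hU
  rw [key u' v' hu.2.1 hv.2.1] at h
  refine h.congr fun m => ?_
  exact key (u m) (v m) (hu.1 m) (hv.1 m)

/-- Limits of weighted squares. -/
lemma B4b_limsq {K : Set (Cn n)} (hK : IsCompact K) {ψ : Cn n → ℝ} (hψ : ContinuousOn ψ K)
    {u : ℕ → Cn n → ℂ} {u' : Cn n → ℂ} (hu : B4b_T2 (volume.restrict K) u u') :
    Tendsto (fun m => ∫ z in K, ‖u m z‖ ^ 2 * ψ z) atTop (𝓝 (∫ z in K, ‖u' z‖ ^ 2 * ψ z)) := by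
  have hψ' : ContinuousOn (fun z => (ψ z : ℂ)) K := Complex.continuous_ofReal.comp_continuousOn hψ
  have h := B4b_inner_lim (B4b_T2_mul hK hψ' hu) hu
  have key : ∀ f : Cn n → ℂ, ∫ z in K, ‖f z‖ ^ 2 * ψ z
      = (∫ z in K, (ψ z : ℂ) * f z * (starRingEnd ℂ) (f z)).re := by
    intro f
    have : ∀ z, (ψ z : ℂ) * f z * (starRingEnd ℂ) (f z) = ((‖f z‖ ^ 2 * ψ z : ℝ) : ℂ) := by
      intro z
      rw [mul_assoc, Complex.mul_conj, Complex.normSq_eq_norm_sq]
      push_cast; ring
    simp_rw [this]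
    rw [integral_complex_ofReal, Complex.ofReal_re]
  rw [key]
  refine ((Complex.continuous_re.tendsto _).comp h).congr fun m => ?_
  rw [key]; rfl

lemma B4b_intsq {K : Set (Cn n)} (hK : IsCompact K) {ψ : Cn n → ℝ} (hψ : ContinuousOn ψ K)
    {u : Cn n → ℂ} (hu : MemLp u 2 (volume.restrict K)) :
    IntegrableOn (fun z => ‖u z‖ ^ 2 * ψ z) K := by
  have hψ' : ContinuousOn (fun z => (ψ z : ℂ)) K := Complex.continuous_ofReal.comp_continuousOn hψ
  have h := (B4b_mulR hK hψ' hu).integrable_mul hu.star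
  have h2 := h.re
  refine h2.congr ?_
  filter_upwards with z
  have : (ψ z : ℂ) * u z * (starRingEnd ℂ) (u z) = ((‖u z‖ ^ 2 * ψ z : ℝ) : ℂ) := by
    rw [mul_assoc, Complex.mul_conj, Complex.normSq_eq_norm_sq]
    push_cast; ring
  show RCLike.re ((ψ z : ℂ) * u z * (starRingEnd ℂ) (u z)) = _
  rw [this]
  exact Complex.ofReal_re _

/-! #### Continuity of the coefficients -/

lemma B4b_ell_cont {U K : Set (Cn n)} (hU : IsOpen U) (hKU : K ⊆ U) {u : Cn n → ℝ}
    (hu : ContDiffOn ℝ 1 u U) (X : Cn n) : ContinuousOn (fun z => ell u z X) K := by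
  have h1 : ContDiffOn ℝ 0 (fderiv ℝ u) U := hu.fderiv_of_isOpen hU (by norm_num)
  have h1' := h1.continuousOn.mono hKU
  unfold ell
  have e1 : ContinuousOn (fun w => fderiv ℝ u w X) K := h1'.clm_apply continuousOn_const
  have e2 : ContinuousOn (fun w => fderiv ℝ u w (Complex.I • X)) K :=
    h1'.clm_apply continuousOn_const
  exact continuousOn_const.mul ((Complex.continuous_ofReal.comp_continuousOn e1).sub
    (continuousOn_const.mul (Complex.continuous_ofReal.comp_continuousOn e2)))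

lemma B4b_dz_cont {u : Cn n → ℂ} (hu : ContDiff ℝ 1 u) (X : Cn n) :
    Continuous fun z => dz u z X := by
  have h := hu.continuous_fderiv one_ne_zero
  unfold dz
  fun_prop

lemma B4b_dzb_cont {u : Cn n → ℂ} (hu : ContDiff ℝ 1 u) (X : Cn n) :
    Continuous fun z => dzb u z X := by
  have h := hu.continuous_fderiv one_ne_zero
  unfold dzb
  fun_prop

lemma B4b_mix_cont {U K : Set (Cn n)} (hU : IsOpen U) (hKU : K ⊆ U) {u : Cn n → ℝ}
    (hu : ContDiffOn ℝ 2 u U) (j k : Fin n) : ContinuousOn (fun z => mix u z j k) K := by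
  have h1 : ContDiffOn ℝ 1 (fderiv ℝ u) U := hu.fderiv_of_isOpen hU (by norm_num)
  have h2 : ContDiffOn ℝ 1 (fun w => ell u w (ee j)) U := by
    unfold ell
    have e1 : ContDiffOn ℝ 1 (fun w => fderiv ℝ u w (ee j)) U := h1.clm_apply contDiffOn_const
    have e2 : ContDiffOn ℝ 1 (fun w => fderiv ℝ u w (Complex.I • ee j)) U :=
      h1.clm_apply contDiffOn_const
    have e3 : ContDiffOn ℝ 1 (fun w => ((fderiv ℝ u w (ee j) : ℝ) : ℂ)) U :=
      Complex.ofRealCLM.contDiff.comp_contDiffOn e1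
    have e4 : ContDiffOn ℝ 1 (fun w => ((fderiv ℝ u w (Complex.I • ee j) : ℝ) : ℂ)) U :=
      Complex.ofRealCLM.contDiff.comp_contDiffOn e2
    exact contDiffOn_const.mul (e3.sub (contDiffOn_const.mul e4))
  have h3 : ContinuousOn (fderiv ℝ (fun w => ell u w (ee j))) U :=
    h2.continuousOn_fderiv_of_isOpen hU le_rfl
  have h4 : ContinuousOn (fun z => mix u z j k) U := by
    unfold mix dzb
    have e1 := h3.clm_apply (continuousOn_const (c := ee k))
    have e2 := h3.clm_apply (continuousOn_const (c := Complex.I • ee k))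
    exact continuousOn_const.mul (e1.add (continuousOn_const.mul e2))
  exact h4.mono hKU

/-! #### The weak divergence -/

lemma B4b_intK {K : Set (Cn n)} (hK : IsCompact K) {u b : Cn n → ℂ} (hu : MemLp u 2 volume)
    (h0 : ∀ z, z ∉ K → u z = 0) (hb : ContinuousOn b K) : Integrable fun z => u z * b z := by
  have h1 : MemLp u 2 (volume.restrict K) := hu.restrict K
  have h2 : MemLp b 2 (volume.restrict K) := B4b_contR hK hb
  have h3 : Integrable (fun z => u z * b z) (volume.restrict K) := h1.integrable_mul h2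
  exact IntegrableOn.integrable_of_forall_notMem_eq_zero h3 fun z hz => by rw [h0 z hz, zero_mul]

lemma B4b_locL2 {U : Set (Cn n)} {u b : Cn n → ℂ} (hu : MemLp u 2 volume)
    (hb : ContinuousOn b U) : LocL2 U fun z => b z * u z := by
  intro K hKU hK
  exact B4b_mulR hK (hb.mono hKU) (hu.restrict K)

lemma B4b_conj_memLp {ν : Measure (Cn n)} {u : Cn n → ℂ} (hu : MemLp u 2 ν) :
    MemLp (fun z => (starRingEnd ℂ) (u z)) 2 ν := hu.star

lemma B4b_dz_add {u v : Cn n → ℂ} {z : Cn n} (hu : DifferentiableAt ℝ u z)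
    (hv : DifferentiableAt ℝ v z) (X : Cn n) :
    dz (fun w => u w + v w) z X = dz u z X + dz v z X := by
  unfold dz
  rw [fderiv_fun_add hu hv]
  simp only [add_apply]
  ring

/-- The weak divergence, from `WeakAdj`. -/
lemma B4b_div {U K : Set (Cn n)} {Φ φ τ : Cn n → ℝ} (W : Wt U Φ φ τ)
    (hK : IsCompact K) (hKU : K ⊆ U) (α : Cn n → Fin n → ℂ) (g : Cn n → ℂ)
    (hα : ∀ j, MemLp (fun z => α z j) 2 volume) (hg : MemLp g 2 volume)
    (hαK : ∀ z, z ∉ K → α z = 0) (hgK : ∀ z, z ∉ K → g z = 0)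
    (hadj : WeakAdj U φ τ α g) (w : Cn n → ℂ) (hw : IsTest U w) :
    ∫ z, ∑ j, α z j * dz w z (ee j)
      = - ∫ z, (-((Real.exp (τ z) : ℂ) * g z)
        + ∑ j, (ell φ z (ee j) - ell τ z (ee j)) * α z j) * w z := by
  have hU := W.isOpen
  have cφ1 : ContDiffOn ℝ 1 φ U := W.cφ.of_le (by norm_num)
  have cτ1 : ContDiffOn ℝ 1 τ U := W.cτ.of_le (by norm_num)
  -- the multipliers
  set e1 : Cn n → ℂ := fun z => ((Real.exp (-(φ z - τ z)) : ℝ) : ℂ) with he1
  set e2 : Cn n → ℂ := fun z => ((Real.exp (-(φ z - 2 * τ z)) : ℝ) : ℂ) with he2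
  have ce1 : ContinuousOn e1 U := Complex.continuous_ofReal.comp_continuousOn
    (Real.continuous_exp.comp_continuousOn (cφ1.continuousOn.sub cτ1.continuousOn).neg)
  have ce2 : ContinuousOn e2 U := Complex.continuous_ofReal.comp_continuousOn
    (Real.continuous_exp.comp_continuousOn
      (cφ1.continuousOn.sub (continuousOn_const.mul cτ1.continuousOn)).neg)
  have hF : ∀ j, LocL2 U fun z => e1 z * (starRingEnd ℂ) (α z j) := fun j =>
    B4b_locL2 (B4b_conj_memLp (hα j)) ce1
  have hG : LocL2 U fun z => e2 z * (starRingEnd ℂ) (g z) := B4b_locL2 (B4b_conj_memLp hg) ce2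
  have h0 : ∀ v, IsTest U v → ∫ z, ∑ j, (e1 z * (starRingEnd ℂ) (α z j)) * dzb v z (ee j)
      = ∫ z, (e2 z * (starRingEnd ℂ) (g z)) * v z := by
    intro v hv
    have h := hadj v hv
    rw [setIntegral_eq_integral_of_forall_compl_eq_zero, 
      setIntegral_eq_integral_of_forall_compl_eq_zero] at h
    · calc _ = ∫ z, (∑ j, dzb v z (ee j) * (starRingEnd ℂ) (α z j)) * Real.exp (-(φ z - τ z)) := by
            refine integral_congr_ae (Eventually.of_forall fun z => ?_)
            simp only [he1, Finset.sum_mul]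
            exact Finset.sum_congr rfl fun j _ => by ring
        _ = _ := h
        _ = _ := by
            refine integral_congr_ae (Eventually.of_forall fun z => ?_)
            simp only [he2]; ring
    · intro z hz
      rw [hgK z fun h => hz (hKU h)]; simp
    · intro z hz
      rw [hαK z fun h => hz (hKU h)]; simp
  -- the test function
  set v : Cn n → ℂ := fun z => (starRingEnd ℂ) (w z) * ((Real.exp (φ z - τ z) : ℝ) : ℂ) with hv
  have hwd : ContDiff ℝ 1 w := hw.1.of_le (by exact_mod_cast le_top)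
  have hwcd : ContDiff ℝ 1 fun z => (starRingEnd ℂ) (w z) := Complex.conjCLE.contDiff.comp hwd
  have hρ : ∀ z ∈ U, ContDiffAt ℝ 1 (fun z => φ z - τ z) z := fun z hz =>
    (cφ1.contDiffAt (hU.mem_nhds hz)).sub (cτ1.contDiffAt (hU.mem_nhds hz))
  have hsupp : Function.support v ⊆ Function.support w := by
    intro z hz hz'
    apply hz
    simp only [hv, hz', map_zero, zero_mul]
  have hts : tsupport v ⊆ tsupport w := closure_mono hsupp
  have hvd : ContDiff ℝ 1 v := by
    rw [contDiff_iff_contDiffAt]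
    intro z
    by_cases hz : z ∈ tsupport w
    · have h1 := hρ z (hw.2.2 hz)
      exact hwcd.contDiffAt.mul (Complex.ofRealCLM.contDiff.contDiffAt.comp z
        (Real.contDiff_exp.contDiffAt.comp z h1))
    · have : v =ᶠ[𝓝 z] fun _ => 0 := by
        have h1 : (tsupport w)ᶜ ∈ 𝓝 z := (isClosed_tsupport w).isOpen_compl.mem_nhds hz
        filter_upwards [h1] with y hy
        have : w y = 0 := image_eq_zero_of_notMem_tsupport hy
        simp only [hv, this, map_zero, zero_mul]
      exact contDiffAt_const.congr_of_eventuallyEq this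
  have hvc : HasCompactSupport v := by
    have := hw.2.1
    exact IsCompact.of_isClosed_subset this (isClosed_tsupport v) hts
  have h1 := div_test1 hU hF hG h0 hvd hvc (hts.trans hw.2.2)
  -- pointwise computation
  have hpt : ∀ z, ∑ j, (e1 z * (starRingEnd ℂ) (α z j)) * dzb v z (ee j)
      = (starRingEnd ℂ) (∑ j, α z j * dz w z (ee j)
        + (∑ j, (ell φ z (ee j) - ell τ z (ee j)) * α z j) * w z) := by
    intro z
    by_cases hz : z ∈ U
    · have hφz : DifferentiableAt ℝ φ z :=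
        (cφ1.contDiffAt (hU.mem_nhds hz)).differentiableAt one_ne_zero
      have hτz : DifferentiableAt ℝ τ z :=
        (cτ1.contDiffAt (hU.mem_nhds hz)).differentiableAt one_ne_zero
      have hnτz : DifferentiableAt ℝ (fun w => (-1) * τ w) z := hτz.const_mul _
      have hρz : DifferentiableAt ℝ (fun z => φ z + (-1) * τ z) z := hφz.add hnτz
      have hexp : DifferentiableAt ℝ (fun z => Real.exp (φ z + (-1) * τ z)) z := hρz.exp
      have hexpC : DifferentiableAt ℝ (fun z => ((Real.exp (φ z + (-1) * τ z) : ℝ) : ℂ)) z :=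
        Complex.ofRealCLM.differentiableAt.comp z hexp
      have hwz : DifferentiableAt ℝ w z := hwd.differentiable one_ne_zero z
      have hwcz : DifferentiableAt ℝ (fun z => (starRingEnd ℂ) (w z)) z :=
        hwcd.differentiable one_ne_zero z
      have hv' : v = fun z => (starRingEnd ℂ) (w z) * ((Real.exp (φ z + (-1) * τ z) : ℝ) : ℂ) := by
        funext z; simp only [hv]; congr 3; ring
      have hdzb : ∀ j, dzb v z (ee j)
          = ((Real.exp (φ z - τ z) : ℝ) : ℂ) * (starRingEnd ℂ) (dz w z (ee j)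
            + w z * (ell φ z (ee j) - ell τ z (ee j))) := by
        intro j
        rw [hv', dzb_mul hwcz hexpC, dzb_ofReal hexp]
        have a1 : dzb (fun z => (starRingEnd ℂ) (w z)) z (ee j)
            = (starRingEnd ℂ) (dz w z (ee j)) := by
          have := conj_dzb hwcz (ee j)
          have h2 : (fun y => (starRingEnd ℂ) ((starRingEnd ℂ) (w y))) = w := by
            funext y; exact Complex.conj_conj _
          rw [h2] at this
          rw [← this, Complex.conj_conj]
        have a2 : ell (fun z => Real.exp (φ z + (-1) * τ z)) z (ee j)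
            = ((Real.exp (φ z - τ z) : ℝ) : ℂ) * (ell φ z (ee j) - ell τ z (ee j)) := by
          have b1 := ell_comp (h := Real.exp) hρz Real.differentiableAt_exp (ee j)
          rw [Real.deriv_exp] at b1
          rw [b1, ell_fun_add hφz hnτz, ell_const_mul hτz]
          have : φ z + -1 * τ z = φ z - τ z := by ring
          rw [this]; push_cast; ring
        rw [a1, a2]
        have : φ z + -1 * τ z = φ z - τ z := by ring
        rw [this]
        simp only [map_mul, map_add, map_sub, Complex.conj_ofReal]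
        ring
      have hee : ((Real.exp (-(φ z - τ z)) : ℝ) : ℂ) * ((Real.exp (φ z - τ z) : ℝ) : ℂ) = 1 := by
        rw [← Complex.ofReal_mul, ← Real.exp_add]; simp
      rw [map_add, map_sum, map_mul, map_sum, Finset.sum_mul, ← Finset.sum_add_distrib]
      refine Finset.sum_congr rfl fun j _ => ?_
      rw [hdzb j]
      simp only [he1, map_mul, map_add, map_sub]
      linear_combination ((starRingEnd ℂ) (α z j) * ((starRingEnd ℂ) (dz w z (ee j))
        + (starRingEnd ℂ) (w z) * ((starRingEnd ℂ) (ell φ z (ee j))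
          - (starRingEnd ℂ) (ell τ z (ee j))))) * hee
    · have h2 : α z = 0 := hαK z fun h => hz (hKU h)
      simp [h2]
  have hpt2 : ∀ z, (e2 z * (starRingEnd ℂ) (g z)) * v z
      = (starRingEnd ℂ) (((Real.exp (τ z) : ℝ) : ℂ) * g z * w z) := by
    intro z
    have hee : ((Real.exp (-(φ z - 2 * τ z)) : ℝ) : ℂ) * ((Real.exp (φ z - τ z) : ℝ) : ℂ)
        = ((Real.exp (τ z) : ℝ) : ℂ) := by
      rw [← Complex.ofReal_mul, ← Real.exp_add]; congr 2; ring
    simp only [he2, hv, map_mul, Complex.conj_ofReal]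
    linear_combination ((starRingEnd ℂ) (g z) * (starRingEnd ℂ) (w z)) * hee
  simp_rw [hpt, hpt2] at h1
  rw [integral_conj, integral_conj] at h1
  have h2 : ∫ z, (∑ j, α z j * dz w z (ee j)
        + (∑ j, (ell φ z (ee j) - ell τ z (ee j)) * α z j) * w z)
      = ∫ z, ((Real.exp (τ z) : ℝ) : ℂ) * g z * w z := by
    have := congrArg (starRingEnd ℂ) h1
    rwa [Complex.conj_conj, Complex.conj_conj] at this
  -- integrability
  have hwK : ContinuousOn w K := hwd.continuous.continuousOn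
  have i1 : Integrable fun z => ∑ j, α z j * dz w z (ee j) :=
    integrable_finsetSum _ fun j _ => B4b_intK hK (hα j)
      (fun z hz => by rw [hαK z hz]; rfl) (B4b_dz_cont hwd _).continuousOn
  have i2 : Integrable fun z => (∑ j, (ell φ z (ee j) - ell τ z (ee j)) * α z j) * w z := by
    simp_rw [Finset.sum_mul]
    refine integrable_finsetSum _ fun j _ => ?_
    have := B4b_intK hK (hα j) (fun z hz => by rw [hαK z hz]; rfl)
      (b := fun z => (ell φ z (ee j) - ell τ z (ee j)) * w z)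
      (((B4b_ell_cont hU hKU cφ1 _).sub (B4b_ell_cont hU hKU cτ1 _)).mul hwK)
    refine this.congr (Eventually.of_forall fun z => ?_)
    simp only []; ring
  have i3 : Integrable fun z => ((Real.exp (τ z) : ℝ) : ℂ) * g z * w z := by
    have := B4b_intK hK hg hgK
      (b := fun z => ((Real.exp (τ z) : ℝ) : ℂ) * w z)
      ((Complex.continuous_ofReal.comp_continuousOn (Real.continuous_exp.comp_continuousOn
        (cτ1.continuousOn.mono hKU))).mul hwK)
    refine this.congr (Eventually.of_forall fun z => ?_)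
    simp only []; ring
  rw [integral_add i1 i2] at h2
  have h3 : ∫ z, (-((Real.exp (τ z) : ℂ) * g z)
        + ∑ j, (ell φ z (ee j) - ell τ z (ee j)) * α z j) * w z
      = (∫ z, (∑ j, (ell φ z (ee j) - ell τ z (ee j)) * α z j) * w z)
        - ∫ z, ((Real.exp (τ z) : ℝ) : ℂ) * g z * w z := by
    rw [← integral_sub i2 i3]
    refine integral_congr_ae (Eventually.of_forall fun z => ?_)
    simp only [Complex.ofReal_exp]; ring
  rw [h3]
  linear_combination h2

/-! #### The limit -/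

lemma B4b_levi_lim {U L : Set (Cn n)} (hU : IsOpen U) (hL : IsCompact L) (hLU : L ⊆ U)
    {Φ ψ : Cn n → ℝ} (cΦ : ContDiffOn ℝ 2 Φ U) (hψ : ContinuousOn ψ L)
    {a : ℕ → Cn n → Fin n → ℂ} {α : Cn n → Fin n → ℂ}
    (h : ∀ j, B4b_T2 (volume.restrict L) (fun m z => a m z j) (fun z => α z j)) :
    Tendsto (fun m => ∫ z in L, levi Φ z (a m z) * ψ z) atTop
      (𝓝 (∫ z in L, levi Φ z (α z) * ψ z)) := by
  have hψ' : ContinuousOn (fun z => (ψ z : ℂ)) L := Complex.continuous_ofReal.comp_continuousOn hψ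
  have hb : ∀ j k, ContinuousOn (fun z => mix Φ z j k * (ψ z : ℂ)) L := fun j k =>
    (B4b_mix_cont hU hLU cΦ j k).mul hψ'
  have key : ∀ β : Cn n → Fin n → ℂ, (∀ j, MemLp (fun z => β z j) 2 (volume.restrict L)) →
      ∫ z in L, levi Φ z (β z) * ψ z = (∑ j, ∑ k, ∫ z in L,
        ((mix Φ z j k * (ψ z : ℂ)) * β z j) * (starRingEnd ℂ) (β z k)).re := by
    intro β hβ
    have hint : ∀ j k, Integrable (fun z => ((mix Φ z j k * (ψ z : ℂ)) * β z j)
        * (starRingEnd ℂ) (β z k)) (volume.restrict L) := fun j k =>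
      (B4b_mulR hL (hb j k) (hβ j)).integrable_mul (B4b_conj_memLp (hβ k))
    have e : ∑ j, ∑ k, ∫ z in L, ((mix Φ z j k * (ψ z : ℂ)) * β z j) * (starRingEnd ℂ) (β z k)
        = ((∫ z in L, levi Φ z (β z) * ψ z : ℝ) : ℂ) := by
      rw [← integral_complex_ofReal]
      have e1 : ∀ j, ∑ k, ∫ z in L, ((mix Φ z j k * (ψ z : ℂ)) * β z j) * (starRingEnd ℂ) (β z k)
          = ∫ z in L, ∑ k, ((mix Φ z j k * (ψ z : ℂ)) * β z j) * (starRingEnd ℂ) (β z k) :=
        fun j => (integral_finsetSum _ fun k _ => hint j k).symm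
      simp_rw [e1]
      rw [← integral_finsetSum _ fun j _ => integrable_finsetSum _ fun k _ => hint j k]
      refine integral_congr_ae ?_
      filter_upwards [ae_restrict_mem hL.measurableSet] with z hz
      rw [Complex.ofReal_mul, levi_eq_mix (cΦ.contDiffAt (hU.mem_nhds (hLU hz))) (β z),
        Finset.sum_mul]
      refine Finset.sum_congr rfl fun j _ => ?_
      rw [Finset.sum_mul]
      refine Finset.sum_congr rfl fun k _ => ?_
      ring
    rw [e, Complex.ofReal_re]
  rw [key α fun j => (h j).2.1]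
  have hT : Tendsto (fun m => ∑ j, ∑ k, ∫ z in L, ((mix Φ z j k * (ψ z : ℂ)) * a m z j)
      * (starRingEnd ℂ) (a m z k)) atTop (𝓝 (∑ j, ∑ k, ∫ z in L,
        ((mix Φ z j k * (ψ z : ℂ)) * α z j) * (starRingEnd ℂ) (α z k))) :=
    tendsto_finsetSum _ fun j _ => tendsto_finsetSum _ fun k _ =>
      B4b_inner_lim (B4b_T2_mul hL (hb j k) (h j)) (h k)
  refine ((Complex.continuous_re.tendsto _).comp hT).congr fun m => ?_
  exact (key (a m) fun j => (h j).1 m).symm

lemma B4b_split {L : Set (Cn n)} (hL : IsCompact L) {ψ : Cn n → ℝ} (hψ : ContinuousOn ψ L)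
    {G : Cn n → ℂ} {c : Fin n → Fin n → Cn n → ℂ} (hG : MemLp G 2 (volume.restrict L))
    (hc : ∀ j k, MemLp (c j k) 2 (volume.restrict L)) :
    ∫ z in L, (2 * ‖G z‖ ^ 2 + (1 / 2) * ∑ j, ∑ k, ‖c j k z‖ ^ 2) * ψ z
      = 2 * (∫ z in L, ‖G z‖ ^ 2 * ψ z)
        + (1 / 2) * ∑ j, ∑ k, ∫ z in L, ‖c j k z‖ ^ 2 * ψ z := by
  have i1 : Integrable (fun z => ‖G z‖ ^ 2 * ψ z) (volume.restrict L) := B4b_intsq hL hψ hG
  have i2 : ∀ j k, Integrable (fun z => ‖c j k z‖ ^ 2 * ψ z) (volume.restrict L) :=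
    fun j k => B4b_intsq hL hψ (hc j k)
  have e1 : ∀ j, ∑ k, ∫ z in L, ‖c j k z‖ ^ 2 * ψ z
      = ∫ z in L, ∑ k, ‖c j k z‖ ^ 2 * ψ z := fun j =>
    (integral_finsetSum _ fun k _ => i2 j k).symm
  simp_rw [e1]
  rw [← integral_finsetSum _ fun j _ => integrable_finsetSum _ fun k _ => i2 j k,
    ← integral_const_mul, ← integral_const_mul, ← integral_add (i1.const_mul _)
      ((integrable_finsetSum _ fun j _ => integrable_finsetSum _ fun k _ => i2 j k).const_mul _)]
  refine integral_congr_ae (Eventually.of_forall fun z => ?_)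
  simp only [Finset.sum_mul, add_mul, mul_assoc, Finset.mul_sum]

/-- The three weights inequality for compactly supported square integrable forms with
`T*α = g` and `∂̄_kα_j - ∂̄_jα_k = h_jk` in the weak sense.
From `WeakAdj` one gets (conjugating, and testing with `v · e^{φ-τ}`, `C²` tests, `B1.div_test1`)
`∑_j ∂_jα_j = g₀ := -(e^τ g) + ∑ α_j (∂_jφ - ∂_jτ)` weakly. Then `mollify_form`, `three_weights`
and passing to the limit (all functions supported in `K'`, where the weights and their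
derivatives are bounded). -/
theorem compact_estimate {U K : Set (Cn n)} {Φ φ τ : Cn n → ℝ} (W : Wt U Φ φ τ)
    (hK : IsCompact K) (hKU : K ⊆ U) (α : Cn n → Fin n → ℂ) (g : Cn n → ℂ)
    (h : Cn n → Fin n → Fin n → ℂ) (hα : ∀ j, MemLp (fun z => α z j) 2 volume)
    (hg : MemLp g 2 volume) (hh : ∀ j k, MemLp (fun z => h z j k) 2 volume)
    (hαK : ∀ z, z ∉ K → α z = 0) (hgK : ∀ z, z ∉ K → g z = 0) (hhK : ∀ z, z ∉ K → h z = 0)
    (hadj : WeakAdj U φ τ α g) (hcurl : WeakCurl U α h) :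
    ∫ z in U, levi Φ z (α z) * Real.exp (-φ z)
      ≤ (2 * ∫ z in U, ‖g z‖ ^ 2 * Real.exp (-(φ z - 2 * τ z)))
        + (1 / 2) * ∑ j, ∑ k, ∫ z in U, ‖h z j k‖ ^ 2 * Real.exp (-φ z) := by
  have hU := W.isOpen
  have cφ1 : ContDiffOn ℝ 1 φ U := W.cφ.of_le (by norm_num)
  have cτ1 : ContDiffOn ℝ 1 τ U := W.cτ.of_le (by norm_num)
  have hα0 : ∀ j z, z ∉ K → α z j = 0 := fun j z hz => by rw [hαK z hz]; rfl
  have hh0 : ∀ j k z, z ∉ K → h z j k = 0 := fun j k z hz => by rw [hhK z hz]; rfl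
  set g₀ : Cn n → ℂ := fun z => -((Real.exp (τ z) : ℂ) * g z)
        + ∑ j, (ell φ z (ee j) - ell τ z (ee j)) * α z j with hg₀
  have hg₀K : ∀ z, z ∉ K → g₀ z = 0 := by
    intro z hz
    simp [hg₀, hgK z hz, hα0 _ z hz]
  have cexp : ∀ {S : Set (Cn n)}, S ⊆ U → ContinuousOn (fun z => (Real.exp (τ z) : ℂ)) S :=
    fun hS => Complex.continuous_ofReal.comp_continuousOn (Real.continuous_exp.comp_continuousOn
        (cτ1.continuousOn.mono hS))
  have hg₀L : MemLp g₀ 2 volume := by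
    refine B4b_global hK ?_ hg₀K
    refine (B4b_mulR hK (cexp hKU) (hg.restrict K)).neg.add ?_
    refine memLp_finsetSum _ fun j _ => ?_
    exact B4b_mulR hK ((B4b_ell_cont hU hKU cφ1 _).sub (B4b_ell_cont hU hKU cτ1 _))
      ((hα j).restrict K)
  have hdiv : ∀ v, IsTest U v → ∫ z, ∑ j, α z j * dz v z (ee j) = - ∫ z, g₀ z * v z :=
    fun v hv => B4b_div W hK hKU α g hα hg hαK hgK hadj v hv
  have hcurl' : ∀ v, IsTest U v → ∀ j k,
      ∫ z, (α z j * dzb v z (ee k) - α z k * dzb v z (ee j)) = - ∫ z, h z j k * v z := by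
    intro v hv j k
    have := hcurl v hv j k
    rwa [setIntegral_eq_integral_of_forall_compl_eq_zero,
      setIntegral_eq_integral_of_forall_compl_eq_zero] at this
    · intro z hz
      rw [hh0 j k z fun h => hz (hKU h), zero_mul]
    · intro z hz
      rw [hα0 j z fun h => hz (hKU h), hα0 k z fun h => hz (hKU h)]; ring
  obtain ⟨K', hK', hK'U, a, ha, haK, hlim1, hlim2, hlim3⟩ :=
    mollify_form hU hK hKU α g₀ h hα hg₀L hh hαK hg₀K hhK hdiv hcurl'
  set L := K ∪ K' with hLdef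
  have hL : IsCompact L := hK.union hK'
  have hLU : L ⊆ U := union_subset hKU hK'U
  have ha0 : ∀ m j z, z ∉ K' → a m z j = 0 := fun m j z hz => by rw [haK m z hz]; rfl
  have hsup : ∀ m j, (tsupport fun z => a m z j) ⊆ K' := by
    intro m j
    refine closure_minimal ?_ hK'.isClosed
    intro z hz
    by_contra hz'
    exact hz (ha0 m j z hz')
  have hfd : ∀ m j z, z ∉ K' → fderiv ℝ (fun w => a m w j) z = 0 := by
    intro m j z hz
    exact fderiv_of_notMem_tsupport (𝕜 := ℝ) fun h' => hz (hsup m j h')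
  have hdz0 : ∀ m j z X, z ∉ K' → dz (fun w => a m w j) z X = 0 := by
    intro m j z X hz
    simp [dz, hfd m j z hz]
  have hdzb0 : ∀ m j z X, z ∉ K' → dzb (fun w => a m w j) z X = 0 := by
    intro m j z X hz
    simp [dzb, hfd m j z hz]
  have ha1 : ∀ m j, ContDiff ℝ 1 fun z => a m z j := fun m j =>
    (ha m j).of_le (by exact_mod_cast le_top)
  have ha2 : ∀ m j, ContDiff ℝ 2 fun z => a m z j := fun m j =>
    (contDiff_infty.1 (ha m j)) 2
  have h3w := fun m => three_weights hU W.cφ W.cτ W.cΦ W.levi_le (a m) (ha2 m)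
    (fun j => HasCompactSupport.intro hK' fun z hz => ha0 m j z hz)
    (fun j => (hsup m j).trans hK'U)
  -- restriction to `L`
  have hconv : ∀ f : Cn n → ℝ, (∀ z, z ∉ L → f z = 0) → ∫ z in U, f z = ∫ z in L, f z := by
    intro f hf
    exact setIntegral_eq_of_subset_of_forall_sdiff_eq_zero hU.measurableSet hLU
      fun z hz => hf z hz.2
  set G : ℕ → Cn n → ℂ := fun m z => ∑ j, (dz (fun w => a m w j) z (ee j)
    - a m z j * ell φ z (ee j) + a m z j * ell τ z (ee j)) with hGdef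
  set c : ℕ → Fin n → Fin n → Cn n → ℂ := fun m j k z =>
    dzb (fun w => a m w j) z (ee k) - dzb (fun w => a m w k) z (ee j) with hcdef
  set ψ : Cn n → ℝ := fun z => Real.exp (-φ z) with hψdef
  have hψ : ContinuousOn ψ L :=
    Real.continuous_exp.comp_continuousOn (cφ1.continuousOn.mono hLU).neg
  -- convergences
  have T1 : ∀ j, B4b_T2 (volume.restrict L) (fun m z => a m z j) (fun z => α z j) := fun j =>
    B4b_T2_restrict (fun m => B4b_contR hL (ha1 m j).continuous.continuousOn)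
      ((hα j).restrict L) (hlim1 j)
  have T2 : B4b_T2 (volume.restrict L) (fun m z => ∑ j, dz (fun w => a m w j) z (ee j)) g₀ :=
    B4b_T2_restrict (fun m => B4b_contR hL (continuous_finsetSum _ fun j _ =>
      B4b_dz_cont (ha1 m j) (ee j)).continuousOn) (hg₀L.restrict L) hlim2
  have T3 : ∀ j k, B4b_T2 (volume.restrict L) (fun m => c m j k) (fun z => h z j k) := fun j k =>
    B4b_T2_restrict (fun m => B4b_contR hL ((B4b_dzb_cont (ha1 m j) (ee k)).sub
      (B4b_dzb_cont (ha1 m k) (ee j))).continuousOn) ((hh j k).restrict L) (hlim3 j k)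
  have T4 : B4b_T2 (volume.restrict L) G (fun z => -((Real.exp (τ z) : ℂ) * g z)) := by
    have hs : B4b_T2 (volume.restrict L)
        (fun m z => ∑ j, (-(ell φ z (ee j) - ell τ z (ee j))) * a m z j)
        (fun z => ∑ j, (-(ell φ z (ee j) - ell τ z (ee j))) * α z j) :=
      B4b_T2_sum _ fun j _ => B4b_T2_mul hL
        ((B4b_ell_cont hU hLU cφ1 _).sub (B4b_ell_cont hU hLU cτ1 _)).neg (T1 j)
    refine B4b_T2_congr (B4b_T2_add T2 hs) (fun m => Eventually.of_forall fun z => ?_)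
      (Eventually.of_forall fun z => ?_)
    · simp only [hGdef]
      rw [← Finset.sum_add_distrib]
      exact Finset.sum_congr rfl fun j _ => by ring
    · simp only [hg₀, neg_mul, Finset.sum_neg_distrib]
      ring
  have hleft := B4b_levi_lim hU hL hLU W.cΦ hψ T1
  have hright : Tendsto (fun m => 2 * (∫ z in L, ‖G m z‖ ^ 2 * ψ z)
        + (1 / 2) * ∑ j, ∑ k, ∫ z in L, ‖c m j k z‖ ^ 2 * ψ z) atTop
      (𝓝 (2 * (∫ z in L, ‖-((Real.exp (τ z) : ℂ) * g z)‖ ^ 2 * ψ z)
        + (1 / 2) * ∑ j, ∑ k, ∫ z in L, ‖h z j k‖ ^ 2 * ψ z)) :=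
    ((B4b_limsq hL hψ T4).const_mul 2).add ((tendsto_finsetSum _ fun j _ =>
      tendsto_finsetSum _ fun k _ => B4b_limsq hL hψ (T3 j k)).const_mul (1 / 2))
  have hle : ∫ z in L, levi Φ z (α z) * ψ z
      ≤ 2 * (∫ z in L, ‖-((Real.exp (τ z) : ℂ) * g z)‖ ^ 2 * ψ z)
        + (1 / 2) * ∑ j, ∑ k, ∫ z in L, ‖h z j k‖ ^ 2 * ψ z := by
    refine le_of_tendsto_of_tendsto' hleft hright fun m => ?_
    have h1 := h3w m
    rw [hconv, hconv] at h1
    · rw [← B4b_split hL hψ (T4.1 m) fun j k => (T3 j k).1 m]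
      exact h1
    · intro z hz
      have hz' : z ∉ K' := fun h' => hz (Or.inr h')
      simp [hdz0 m _ z _ hz', hdzb0 m _ z _ hz', ha0 m _ z hz']
    · intro z hz
      have hz' : z ∉ K' := fun h' => hz (Or.inr h')
      rw [haK m z hz', levi_zero, zero_mul]
  rw [hconv _ fun z hz => ?_, hconv (fun z => ‖g z‖ ^ 2 * Real.exp (-(φ z - 2 * τ z)))
    fun z hz => ?_]
  · have e1 : ∀ j k, ∫ z in U, ‖h z j k‖ ^ 2 * Real.exp (-φ z)
        = ∫ z in L, ‖h z j k‖ ^ 2 * ψ z := fun j k => hconv _ fun z hz => by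
      rw [hh0 j k z fun h' => hz (Or.inl h')]; simp
    simp_rw [e1]
    have e2 : ∫ z in L, ‖g z‖ ^ 2 * Real.exp (-(φ z - 2 * τ z))
        = ∫ z in L, ‖-((Real.exp (τ z) : ℂ) * g z)‖ ^ 2 * ψ z := by
      refine integral_congr_ae (Eventually.of_forall fun z => ?_)
      have : Real.exp (-(φ z - 2 * τ z)) = Real.exp (τ z) ^ 2 * Real.exp (-φ z) := by
        rw [← Real.exp_nat_mul, ← Real.exp_add]; congr 1; push_cast; ring
      simp only [hψdef]
      rw [norm_neg, norm_mul, this, mul_pow]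
      simp only [Complex.norm_real, Real.norm_eq_abs, Real.abs_exp]
      ring
    rw [e2]
    exact hle
  · rw [hgK z fun h' => hz (Or.inl h')]; simp
  · rw [hαK z fun h' => hz (Or.inl h'), levi_zero, zero_mul]

end HankelSPC
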