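import Pool.Agent.Lib.MP_e1cf54_an.BDefs
import Pool.Agent.Lib.MP_e1cf54_an.B1
import Pool.Agent.Lib.MP_e1cf54_an.B2a

/-! Row B5a: cutting off -/

open MeasureTheory Set Filter
open scoped ENNReal NNReal Topology ContDiff

namespace HankelSPC

variable {n : ℕ}

lemma B5a_dzb_cont {v : Cn n → ℂ} (hv : ContDiff ℝ 1 v) (X : Cn n) :
    Continuous fun z => dzb v z X := by
  have h := hv.continuous_fderiv (by norm_num)
  unfold dzb
  exact continuous_const.mul ((h.clm_apply continuous_const).add
    (continuous_const.mul (h.clm_apply continuous_const)))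

lemma B5a_ell_cont {θ : Cn n → ℝ} (hθ : ContDiff ℝ 1 θ) (X : Cn n) :
    Continuous fun z => ell θ z X := by
  have h := hθ.continuous_fderiv (by norm_num)
  unfold ell
  exact continuous_const.mul ((Complex.continuous_ofReal.comp (h.clm_apply continuous_const)).sub
    (continuous_const.mul (Complex.continuous_ofReal.comp (h.clm_apply continuous_const))))

lemma B5a_dzb_off {v : Cn n → ℂ} {z : Cn n} (hz : z ∉ tsupport v) (X : Cn n) :
    dzb v z X = 0 := by
  have h3 : fderiv ℝ v z = 0 := by
    have h4 : z ∉ tsupport (fderiv ℝ v) := fun h => hz (tsupport_fderiv_subset ℝ h)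
    exact image_eq_zero_of_notMem_tsupport h4
  simp [dzb, h3]

lemma B5a_int {U K : Set (Cn n)} (hU : IsOpen U) (hK : IsCompact K) (hKU : K ⊆ U)
    {u a : Cn n → ℂ} (hu : LocL2 U u) (ha : ContinuousOn a U) (h0 : ∀ z, z ∉ K → a z = 0) :
    Integrable (fun z => a z * u z) volume := by
  have h := hu.mul_continuousOn ha hU K hKU hK
  have : IsFiniteMeasure (volume.restrict K) := isFiniteMeasure_restrict.2 hK.measure_lt_top.ne
  have h2 : IntegrableOn (fun z => a z * u z) K volume := h.integrable one_le_two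
  refine (integrableOn_iff_integrable_of_support_subset ?_).1 h2
  intro z hz
  by_contra hzK
  exact hz (by simp [h0 z hzK])

lemma B5a_locL2_conj {U : Set (Cn n)} {u : Cn n → ℂ} (hu : LocL2 U u) :
    LocL2 U fun z => (starRingEnd ℂ) (u z) := by
  intro K hK hc
  exact (hu K hK hc).star

/-- Cutting off: if `T*α = g` weakly and `α` is weakly closed then for a `C²` cutoff `θ`
(compact support in `U`) `T*(θα) = θ g - e^{-τ} ∑ α_j ∂_jθ` and `curl (θα) = ∂̄_kθ α_j - ∂̄_jθ α_k`.
(test `T*α = g` with `θ v`: `∂̄_j(θv) = θ ∂̄_jv + v ∂̄_jθ`; upgrade to `C²` tests by `B1`.) -/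
theorem cutoff_form {U : Set (Cn n)} {Φ φ τ : Cn n → ℝ} (W : Wt U Φ φ τ)
    (α : Cn n → Fin n → ℂ) (g : Cn n → ℂ) (hα : ∀ j, LocL2 U fun z => α z j) (hg : LocL2 U g)
    (hadj : WeakAdj U φ τ α g) (hcl : WeakClosed U α) {θ : Cn n → ℝ} (hθ : ContDiff ℝ 2 θ)
    (hc : HasCompactSupport θ) (hs : tsupport θ ⊆ U) :
    WeakAdj U φ τ (fun z j => θ z * α z j)
        (fun z => θ z * g z - Real.exp (-τ z) * ∑ j, α z j * ell θ z (ee j)) ∧
      WeakCurl U (fun z j => θ z * α z j) (fun z j k => (starRingEnd ℂ) (ell θ z (ee k)) * α z j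
        - (starRingEnd ℂ) (ell θ z (ee j)) * α z k) := by
  classical
  have hU := W.isOpen
  have cφ : ContinuousOn φ U := W.cφ.continuousOn
  have cτ : ContinuousOn τ U := W.cτ.continuousOn
  have hθ1 : ContDiff ℝ 1 θ := hθ.of_le (by norm_num)
  have hθC : ContDiff ℝ 1 (fun z => (θ z : ℂ)) := Complex.ofRealCLM.contDiff.comp hθ1
  have w1 : ContinuousOn (fun z => ((Real.exp (-(φ z - τ z)) : ℝ) : ℂ)) U :=
    Complex.continuous_ofReal.comp_continuousOn ((cφ.sub cτ).neg.rexp)
  have w2 : ContinuousOn (fun z => ((Real.exp (-(φ z - 2 * τ z)) : ℝ) : ℂ)) U :=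
    Complex.continuous_ofReal.comp_continuousOn ((cφ.sub (continuousOn_const.mul cτ)).neg.rexp)
  have lα : ∀ j, LocL2 U fun z => (starRingEnd ℂ) (α z j) := fun j => B5a_locL2_conj (hα j)
  have lg := B5a_locL2_conj hg
  -- the product with a test function
  have prod : ∀ v, IsTest U v → ContDiff ℝ 1 (fun z => (θ z : ℂ) * v z) ∧
      HasCompactSupport (fun z => (θ z : ℂ) * v z) ∧
      tsupport (fun z => (θ z : ℂ) * v z) ⊆ U ∧
      ∀ z X, dzb (fun z => (θ z : ℂ) * v z) z X
        = θ z * dzb v z X + v z * (starRingEnd ℂ) (ell θ z X) := by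
    intro v hv
    have hv1 : ContDiff ℝ 1 v := hv.1.of_le (by exact_mod_cast le_top)
    refine ⟨hθC.mul hv1, hv.2.1.mul_left, (tsupport_mul_subset_right).trans hv.2.2, ?_⟩
    intro z X
    rw [dzb_mul (hθC.differentiable (by norm_num) z) (hv1.differentiable (by norm_num) z),
      dzb_ofReal (hθ1.differentiable (by norm_num) z)]
  constructor
  · intro v hv
    have hv1 : ContDiff ℝ 1 v := hv.1.of_le (by exact_mod_cast le_top)
    obtain ⟨p1, p2, p3, p4⟩ := prod v hv
    have hvoff : ∀ z, z ∉ tsupport v → v z = 0 := fun z hz =>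
      image_eq_zero_of_notMem_tsupport hz
    have hvU : ∀ z, z ∉ U → z ∉ tsupport v := fun z hz h => hz (hv.2.2 h)
    -- the adjoint identity for the product
    have E := div_test1 hU
      (F := fun z j => ((Real.exp (-(φ z - τ z)) : ℝ) : ℂ) * (starRingEnd ℂ) (α z j))
      (G := fun z => ((Real.exp (-(φ z - 2 * τ z)) : ℝ) : ℂ) * (starRingEnd ℂ) (g z))
      (fun j => (lα j).mul_continuousOn w1 hU) (lg.mul_continuousOn w2 hU)
      (by
        intro w hw
        have hwU : ∀ z, z ∉ U → z ∉ tsupport w := fun z hz h => hz (hw.2.2 h)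
        have h1 := hadj w hw
        rw [setIntegral_eq_integral_of_forall_compl_eq_zero,
          setIntegral_eq_integral_of_forall_compl_eq_zero] at h1
        · refine Eq.trans ?_ (h1.trans ?_)
          · refine integral_congr_ae (ae_of_all _ fun z => ?_)
            simp only [Finset.sum_mul]
            refine Finset.sum_congr rfl fun j _ => ?_
            ring
          · refine integral_congr_ae (ae_of_all _ fun z => ?_)
            simp only
            ring
        · intro z hz
          rw [image_eq_zero_of_notMem_tsupport (hwU z hz)]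
          simp
        · intro z hz
          simp [B5a_dzb_off (hwU z hz)])
      p1 p2 p3
    -- rewrite everything over the whole space
    rw [setIntegral_eq_integral_of_forall_compl_eq_zero,
      setIntegral_eq_integral_of_forall_compl_eq_zero]
    rotate_left
    · intro z hz
      rw [hvoff z (hvU z hz)]
      simp
    · intro z hz
      simp [B5a_dzb_off (hvU z hz)]
    have i1 : Integrable (fun z => ∑ j, (v z * (starRingEnd ℂ) (ell θ z (ee j))
        * ((Real.exp (-(φ z - τ z)) : ℝ) : ℂ)) * (starRingEnd ℂ) (α z j)) volume := by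
      refine integrable_finsetSum _ fun j _ => B5a_int hU hv.2.1 hv.2.2 (lα j) ?_ ?_
      · exact ((hv1.continuous.mul (Complex.continuous_conj.comp
          (B5a_ell_cont hθ1 _))).continuousOn).mul w1
      · intro z hz
        rw [hvoff z hz]
        simp
    have i2 : Integrable (fun z => ∑ j, (dzb (fun z => (θ z : ℂ) * v z) z (ee j)
        * ((Real.exp (-(φ z - τ z)) : ℝ) : ℂ)) * (starRingEnd ℂ) (α z j)) volume := by
      refine integrable_finsetSum _ fun j _ => B5a_int hU hv.2.1 hv.2.2 (lα j) ?_ ?_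
      · exact ((B5a_dzb_cont p1 _).continuousOn).mul w1
      · intro z hz
        rw [p4, hvoff z hz, B5a_dzb_off hz]
        simp
    have i3 : Integrable (fun z => (((Real.exp (-(φ z - 2 * τ z)) : ℝ) : ℂ) * ((θ z : ℂ) * v z))
        * (starRingEnd ℂ) (g z)) volume := by
      refine B5a_int hU hv.2.1 hv.2.2 lg ?_ ?_
      · exact w2.mul ((hθC.continuous.mul hv1.continuous).continuousOn)
      · intro z hz
        rw [hvoff z hz]
        simp
    have e1 : ∫ z, (∑ j, dzb v z (ee j) * (starRingEnd ℂ) (θ z * α z j))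
        * ((Real.exp (-(φ z - τ z)) : ℝ) : ℂ)
        = (∫ z, ∑ j, (dzb (fun z => (θ z : ℂ) * v z) z (ee j)
          * ((Real.exp (-(φ z - τ z)) : ℝ) : ℂ)) * (starRingEnd ℂ) (α z j))
          - ∫ z, ∑ j, (v z * (starRingEnd ℂ) (ell θ z (ee j))
            * ((Real.exp (-(φ z - τ z)) : ℝ) : ℂ)) * (starRingEnd ℂ) (α z j) := by
      rw [← integral_sub i2 i1]
      refine integral_congr_ae (ae_of_all _ fun z => ?_)
      simp only [Finset.sum_mul, ← Finset.sum_sub_distrib]
      refine Finset.sum_congr rfl fun j _ => ?_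
      rw [p4, map_mul, Complex.conj_ofReal]
      ring
    have e2 : ∫ z, v z * (starRingEnd ℂ) (θ z * g z - Real.exp (-τ z)
          * ∑ j, α z j * ell θ z (ee j)) * ((Real.exp (-(φ z - 2 * τ z)) : ℝ) : ℂ)
        = (∫ z, (((Real.exp (-(φ z - 2 * τ z)) : ℝ) : ℂ) * ((θ z : ℂ) * v z))
        * (starRingEnd ℂ) (g z))
          - ∫ z, ∑ j, (v z * (starRingEnd ℂ) (ell θ z (ee j))
            * ((Real.exp (-(φ z - τ z)) : ℝ) : ℂ)) * (starRingEnd ℂ) (α z j) := by
      rw [← integral_sub i3 i1]
      refine integral_congr_ae (ae_of_all _ fun z => ?_)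
      have s7 : ((Real.exp (-(φ z - τ z)) : ℝ) : ℂ)
          = ((Real.exp (-τ z) : ℝ) : ℂ) * ((Real.exp (-(φ z - 2 * τ z)) : ℝ) : ℂ) := by
        rw [← Complex.ofReal_mul, ← Real.exp_add]
        congr 2
        ring
      simp only [s7, map_sub, map_mul, map_sum, Complex.conj_ofReal, mul_sub, sub_mul,
        Finset.mul_sum, Finset.sum_mul]
      congr 1
      · ring
      · refine Finset.sum_congr rfl fun j _ => ?_
        ring
    rw [e1, e2]
    congr 1
    refine Eq.trans ?_ (E.trans ?_)
    · refine integral_congr_ae (ae_of_all _ fun z => ?_)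
      refine Finset.sum_congr rfl fun j _ => ?_
      ring
    · refine integral_congr_ae (ae_of_all _ fun z => ?_)
      simp only
      ring
  · intro v hv j k
    have hv1 : ContDiff ℝ 1 v := hv.1.of_le (by exact_mod_cast le_top)
    obtain ⟨p1, p2, p3, p4⟩ := prod v hv
    have hvoff : ∀ z, z ∉ tsupport v → v z = 0 := fun z hz =>
      image_eq_zero_of_notMem_tsupport hz
    have hvU : ∀ z, z ∉ U → z ∉ tsupport v := fun z hz h => hz (hv.2.2 h)
    have E := WeakClosed.test1 hU hα hcl p1 p2 p3 j k
    rw [setIntegral_eq_integral_of_forall_compl_eq_zero,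
      setIntegral_eq_integral_of_forall_compl_eq_zero]
    rotate_left
    · intro z hz
      rw [hvoff z (hvU z hz)]
      simp
    · intro z hz
      simp [B5a_dzb_off (hvU z hz)]
    have i1 : ∀ i l, Integrable (fun z => dzb (fun z => (θ z : ℂ) * v z) z (ee l) * α z i)
        volume := by
      intro i l
      refine B5a_int hU hv.2.1 hv.2.2 (hα i) (B5a_dzb_cont p1 _).continuousOn ?_
      intro z hz
      rw [p4, hvoff z hz, B5a_dzb_off hz]
      simp
    have i2 : ∀ i l, Integrable (fun z => (v z * (starRingEnd ℂ) (ell θ z (ee l))) * α z i)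
        volume := by
      intro i l
      refine B5a_int hU hv.2.1 hv.2.2 (hα i) ?_ ?_
      · exact (hv1.continuous.mul (Complex.continuous_conj.comp
          (B5a_ell_cont hθ1 _))).continuousOn
      · intro z hz
        rw [hvoff z hz]
        simp
    have e1 : ∫ z, (θ z * α z j * dzb v z (ee k) - θ z * α z k * dzb v z (ee j))
        = ((∫ z, dzb (fun z => (θ z : ℂ) * v z) z (ee k) * α z j)
            - ∫ z, dzb (fun z => (θ z : ℂ) * v z) z (ee j) * α z k)
          - ((∫ z, (v z * (starRingEnd ℂ) (ell θ z (ee k))) * α z j)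
            - ∫ z, (v z * (starRingEnd ℂ) (ell θ z (ee j))) * α z k) := by
      have j1 : Integrable (fun z => dzb (fun z => (θ z : ℂ) * v z) z (ee k) * α z j
          - dzb (fun z => (θ z : ℂ) * v z) z (ee j) * α z k) volume := (i1 j k).sub (i1 k j)
      have j2 : Integrable (fun z => (v z * (starRingEnd ℂ) (ell θ z (ee k))) * α z j
          - (v z * (starRingEnd ℂ) (ell θ z (ee j))) * α z k) volume := (i2 j k).sub (i2 k j)
      rw [← integral_sub (i1 j k) (i1 k j), ← integral_sub (i2 j k) (i2 k j),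
        ← integral_sub j1 j2]
      refine integral_congr_ae (ae_of_all _ fun z => ?_)
      simp only [p4]
      ring
    have e2 : ∫ z, ((starRingEnd ℂ) (ell θ z (ee k)) * α z j
          - (starRingEnd ℂ) (ell θ z (ee j)) * α z k) * v z
        = (∫ z, (v z * (starRingEnd ℂ) (ell θ z (ee k))) * α z j)
            - ∫ z, (v z * (starRingEnd ℂ) (ell θ z (ee j))) * α z k := by
      rw [← integral_sub (i2 j k) (i2 k j)]
      refine integral_congr_ae (ae_of_all _ fun z => ?_)
      simp only
      ring
    have e3 : (∫ z, dzb (fun z => (θ z : ℂ) * v z) z (ee k) * α z j)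
        = ∫ z, dzb (fun z => (θ z : ℂ) * v z) z (ee j) * α z k := by
      simpa only [mul_comm] using E
    rw [e1, e2, e3]
    ring

end HankelSPC
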