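import Pool.Agent.Lib.MP_e1cf54_an.B4b
import Pool.Agent.Lib.MP_e1cf54_an.B5a
import Pool.Agent.Lib.MP_e1cf54_an.B2a

/-! Row B5b: a priori estimate -/

open MeasureTheory Set Filter
open scoped ENNReal NNReal Topology ContDiff

namespace HankelSPC

variable {n : ℕ}

lemma B5b_nsq_nonneg (X : Cn n) : 0 ≤ nsq X := Finset.sum_nonneg fun _ _ => sq_nonneg _

lemma B5b_le_nsq (X : Cn n) (j : Fin n) : ‖X j‖ ^ 2 ≤ nsq X :=
  Finset.single_le_sum (f := fun j => ‖X j‖ ^ 2) (fun _ _ => sq_nonneg _) (Finset.mem_univ j)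

lemma B5b_memLp {U K : Set (Cn n)} {v : Cn n → ℂ} (hK : IsCompact K) (hKU : K ⊆ U)
    (hv : LocL2 U v) (h0 : ∀ z, z ∉ K → v z = 0) : MemLp v 2 volume := by
  have h1 : MemLp (K.indicator v) 2 volume :=
    (memLp_indicator_iff_restrict hK.measurableSet).2 (hv K hKU hK)
  have h2 : K.indicator v = v := by
    funext z
    by_cases hz : z ∈ K
    · rw [indicator_of_mem hz]
    · rw [indicator_of_notMem hz, h0 z hz]
  rwa [h2] at h1

lemma B5b_locL2_sum {U : Set (Cn n)} {v : Fin n → Cn n → ℂ} (hv : ∀ j, LocL2 U (v j)) :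
    LocL2 U (fun z => ∑ j, v j z) := fun K hK hc =>
  memLp_finsetSum _ fun j _ => hv j K hK hc

lemma B5b_cont_ell {θ : Cn n → ℝ} {U : Set (Cn n)} (hU : IsOpen U) (hθ : ContDiffOn ℝ 1 θ U)
    (X : Cn n) : ContinuousOn (fun z => ell θ z X) U :=
  (continuousOn_ell hU hθ).comp (f := fun z => (z, X)) (by fun_prop)
    fun z hz => ⟨hz, mem_univ _⟩

/-- eventually constant near the point -/
lemma B5b_event {U : Set (Cn n)} (hU : IsOpen U) {θ : ℕ → Cn n → ℝ}
    (h1 : ∀ K, K ⊆ U → IsCompact K → ∀ᶠ m in Filter.atTop, ∀ z ∈ K, θ m z = 1) {z : Cn n}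
    (hz : z ∈ U) : ∀ᶠ m in atTop, θ m z = 1 ∧ ∀ X, ell (θ m) z X = 0 := by
  obtain ⟨K, hK, hzK, hKU⟩ := exists_compact_subset hU hz
  filter_upwards [h1 K hKU hK] with m hm
  refine ⟨hm z (interior_subset hzK), fun X => ?_⟩
  have h2 : θ m =ᶠ[𝓝 z] fun _ => (1 : ℝ) := by
    filter_upwards [isOpen_interior.mem_nhds hzK] with w hw using hm w (interior_subset hw)
  have h3 : fderiv ℝ (θ m) z = 0 := by
    rw [h2.fderiv_eq]
    simp
  simp [ell, h3]

lemma B5b_ell_off {θ : Cn n → ℝ} {z : Cn n} (hz : z ∉ tsupport θ) (X : Cn n) :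
    θ z = 0 ∧ ell θ z X = 0 := by
  refine ⟨image_eq_zero_of_notMem_tsupport hz, ?_⟩
  have h3 : fderiv ℝ θ z = 0 := by
    have h4 : z ∉ tsupport (fderiv ℝ θ) := fun h => hz (tsupport_fderiv_subset ℝ h)
    exact image_eq_zero_of_notMem_tsupport h4
  simp [ell, h3]

/-- measurability of the Levi form of a measurable field -/
lemma B5b_meas_levi {U : Set (Cn n)} (hU : IsOpen U) {Φ : Cn n → ℝ} (hΦ : ContDiffOn ℝ 2 Φ U)
    {α : Cn n → Fin n → ℂ}
    (hα : ∀ j, AEStronglyMeasurable (fun z => α z j) (volume.restrict U)) :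
    AEStronglyMeasurable (fun z => levi Φ z (α z)) (volume.restrict U) := by
  classical
  have h1 : Measurable ((U ×ˢ (univ : Set (Cn n))).piecewise
      (fun p : Cn n × Cn n => levi Φ p.1 p.2) (fun _ => (0 : ℝ))) :=
    (continuousOn_levi hU hΦ).measurable_piecewise continuousOn_const
      (hU.measurableSet.prod MeasurableSet.univ)
  have h2 : AEMeasurable (fun z => (z, α z)) (volume.restrict U) :=
    aemeasurable_id.prodMk (aemeasurable_pi_lambda _ fun j => (hα j).aemeasurable)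
  have h3 := h1.comp_aemeasurable h2
  have h4 : AEMeasurable (fun z => levi Φ z (α z)) (volume.restrict U) := by
    refine h3.congr ?_
    filter_upwards [ae_restrict_mem hU.measurableSet] with z hz
    show (U ×ˢ (univ : Set (Cn n))).piecewise (fun p : Cn n × Cn n => levi Φ p.1 p.2)
      (fun _ => (0 : ℝ)) (z, α z) = _
    rw [piecewise_eq_of_mem _ _ _ (show (z, α z) ∈ U ×ˢ (univ : Set (Cn n)) from ⟨hz, mem_univ _⟩)]
  exact h4.aestronglyMeasurable

lemma B5b_meas_exp {U : Set (Cn n)} (hU : IsOpen U) {φ : Cn n → ℝ} (hφ : ContinuousOn φ U) :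
    AEStronglyMeasurable (fun z => Real.exp (-φ z)) (volume.restrict U) :=
  (hφ.neg.rexp).aestronglyMeasurable hU.measurableSet

lemma B5b_integrable {U : Set (Cn n)} {f : Cn n → ℝ} (h0 : ∀ z, 0 ≤ f z)
    (hm : AEStronglyMeasurable f (volume.restrict U))
    (h : ∫⁻ z in U, ENNReal.ofReal (f z) ≠ ⊤) : Integrable f (volume.restrict U) :=
  ⟨hm, (hasFiniteIntegral_iff_ofReal (ae_of_all _ h0)).2 h.lt_top⟩

/-- Main a priori estimate: apply `compact_estimate` to `θ_m α` and let `m → ∞` (dominated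
convergence for the error terms: `∫ |∂θ_m|²|α|² e^{-φ} ≤ M ∫ |α|² e^{-φ+τ}` and `∂θ_m → 0`
pointwise; monotone convergence/Fatou on the left). -/
theorem apriori {U : Set (Cn n)} {Φ φ τ : Cn n → ℝ} (W : Wt U Φ φ τ)
    (α : Cn n → Fin n → ℂ) (g : Cn n → ℂ)
    (hαm : ∀ j, AEStronglyMeasurable (fun z => α z j) (volume.restrict U))
    (hgm : AEStronglyMeasurable g (volume.restrict U))
    (hα : ∀ j, ∫⁻ z in U, ENNReal.ofReal (‖α z j‖ ^ 2 * Real.exp (-(φ z - τ z))) ≠ ⊤)
    (hg : ∫⁻ z in U, ENNReal.ofReal (‖g z‖ ^ 2 * Real.exp (-(φ z - 2 * τ z))) ≠ ⊤)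
    (hadj : WeakAdj U φ τ α g) (hcl : WeakClosed U α) :
    ∫⁻ z in U, ENNReal.ofReal (levi Φ z (α z) * Real.exp (-φ z))
      ≤ 2 * ∫⁻ z in U, ENNReal.ofReal (‖g z‖ ^ 2 * Real.exp (-(φ z - 2 * τ z))) := by
  classical
  have hU := W.isOpen
  have cφ : ContinuousOn φ U := W.cφ.continuousOn
  have cτ : ContinuousOn τ U := W.cτ.continuousOn
  have c1 : ContinuousOn (fun z => φ z - τ z) U := cφ.sub cτ
  have c2 : ContinuousOn (fun z => φ z - 2 * τ z) U := cφ.sub (continuousOn_const.mul cτ)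
  have lα : ∀ j, LocL2 U fun z => α z j := fun j => locL2_of_lintegral hU c1 (hαm j) (hα j)
  have lg : LocL2 U g := locL2_of_lintegral hU c2 hgm hg
  obtain ⟨M, θ, hθ, hθc, hθs, hθ01, hθ1, hθM⟩ := W.cutoff
  have e1 := B5b_meas_exp hU cφ
  have e2 := B5b_meas_exp hU c1
  have e3 := B5b_meas_exp hU c2
  have cell : ∀ m X, ContinuousOn (fun z => ell (θ m) z X) U := fun m X =>
    B5b_cont_ell hU (((hθ m).of_le (by norm_num)).contDiffOn) X
  have cθ : ∀ m, ContinuousOn (fun z => (θ m z : ℂ)) U := fun m =>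
    (Complex.continuous_ofReal.comp (hθ m).continuous).continuousOn
  -- the cut off forms
  set gm : ℕ → Cn n → ℂ := fun m z =>
    θ m z * g z - Real.exp (-τ z) * ∑ j, α z j * ell (θ m) z (ee j) with hgm'
  set hm : ℕ → Cn n → Fin n → Fin n → ℂ := fun m z j k =>
    (starRingEnd ℂ) (ell (θ m) z (ee k)) * α z j - (starRingEnd ℂ) (ell (θ m) z (ee j)) * α z k
    with hhm'
  have key : ∀ m, ∫ z in U, levi Φ z (fun j => θ m z * α z j) * Real.exp (-φ z)
      ≤ (2 * ∫ z in U, ‖gm m z‖ ^ 2 * Real.exp (-(φ z - 2 * τ z)))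
        + (1 / 2) * ∑ j, ∑ k, ∫ z in U, ‖hm m z j k‖ ^ 2 * Real.exp (-φ z) := by
    intro m
    obtain ⟨q1, q2⟩ := cutoff_form W α g lα lg hadj hcl (hθ m) (hθc m) (hθs m)
    refine compact_estimate W (hθc m) (hθs m) (fun z j => θ m z * α z j) (gm m) (hm m)
      ?_ ?_ ?_ ?_ ?_ ?_ q1 q2
    · intro j
      refine B5b_memLp (hθc m) (hθs m) ((lα j).mul_continuousOn (cθ m) hU) ?_
      intro z hz
      rw [(B5b_ell_off hz 0).1]
      simp
    · refine B5b_memLp (hθc m) (hθs m) ?_ ?_
      · have r1 : LocL2 U fun z => (θ m z : ℂ) * g z := lg.mul_continuousOn (cθ m) hU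
        have r2 : LocL2 U fun z => ∑ j, (-(Real.exp (-τ z) : ℂ) * ell (θ m) z (ee j)) * α z j := by
          refine B5b_locL2_sum fun j => (lα j).mul_continuousOn ?_ hU
          refine ContinuousOn.mul ?_ (cell m _)
          exact (Complex.continuous_ofReal.comp_continuousOn (cτ.neg.rexp)).neg
        have r3 := r1.add r2
        have r4 : (fun z => (θ m z : ℂ) * g z
            + ∑ j, (-(Real.exp (-τ z) : ℂ) * ell (θ m) z (ee j)) * α z j) = gm m := by
          funext z
          simp only [hgm', Finset.mul_sum]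
          rw [sub_eq_add_neg, ← Finset.sum_neg_distrib]
          congr 1
          refine Finset.sum_congr rfl fun j _ => ?_
          ring
        rwa [r4] at r3
      · intro z hz
        have := fun X => (B5b_ell_off hz X).2
        simp [hgm', this, (B5b_ell_off hz 0).1]
    · intro j k
      refine B5b_memLp (hθc m) (hθs m) ?_ ?_
      · have r1 : LocL2 U fun z => (starRingEnd ℂ) (ell (θ m) z (ee k)) * α z j :=
          (lα j).mul_continuousOn (Complex.continuous_conj.comp_continuousOn (cell m _)) hU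
        have r2 : LocL2 U fun z => (-(starRingEnd ℂ) (ell (θ m) z (ee j))) * α z k :=
          (lα k).mul_continuousOn (Complex.continuous_conj.comp_continuousOn (cell m _)).neg hU
        have r3 := r1.add r2
        have r4 : (fun z => (starRingEnd ℂ) (ell (θ m) z (ee k)) * α z j
            + (-(starRingEnd ℂ) (ell (θ m) z (ee j))) * α z k) = fun z => hm m z j k := by
          funext z
          simp only [hhm']
          ring
        rwa [r4] at r3
      · intro z hz
        have := fun X => B5b_ell_off hz X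
        simp [hhm', this]
    · intro z hz
      funext j
      rw [(B5b_ell_off hz 0).1]
      simp
    · intro z hz
      have := fun X => (B5b_ell_off hz X).2
      simp [hgm', this, (B5b_ell_off hz 0).1]
    · intro z hz
      have := fun X => B5b_ell_off hz X
      funext j k
      simp [hhm', this]
  -- integrability of the data
  have iα : ∀ j, Integrable (fun z => ‖α z j‖ ^ 2 * Real.exp (-(φ z - τ z)))
      (volume.restrict U) := fun j =>
    B5b_integrable (fun z => mul_nonneg (sq_nonneg _) (Real.exp_nonneg _))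
      (((hαm j).norm.pow 2).mul e2) (hα j)
  have ig : Integrable (fun z => ‖g z‖ ^ 2 * Real.exp (-(φ z - 2 * τ z))) (volume.restrict U) :=
    B5b_integrable (fun z => mul_nonneg (sq_nonneg _) (Real.exp_nonneg _))
      ((hgm.norm.pow 2).mul e3) hg
  have iN : Integrable (fun z => nsq (α z) * Real.exp (-(φ z - τ z))) (volume.restrict U) := by
    have := integrable_finsetSum Finset.univ fun j (_ : j ∈ Finset.univ) => iα j
    refine this.congr (ae_of_all _ fun z => ?_)
    simp only [nsq, Finset.sum_mul]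
  -- measurability of the cut off forms
  have mell : ∀ m X, AEStronglyMeasurable (fun z => ell (θ m) z X) (volume.restrict U) :=
    fun m X => (cell m X).aestronglyMeasurable hU.measurableSet
  have mτ : AEStronglyMeasurable (fun z => (Real.exp (-τ z) : ℂ)) (volume.restrict U) :=
    (Complex.continuous_ofReal.comp_continuousOn (cτ.neg.rexp)).aestronglyMeasurable
      hU.measurableSet
  have mgm : ∀ m, AEStronglyMeasurable (gm m) (volume.restrict U) := by
    intro m
    refine (((cθ m).aestronglyMeasurable hU.measurableSet).mul hgm).sub (mτ.mul ?_)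
    exact Finset.aestronglyMeasurable_fun_sum _ fun j _ => (hαm j).mul (mell m _)
  have mhm : ∀ m j k, AEStronglyMeasurable (fun z => hm m z j k) (volume.restrict U) := by
    intro m j k
    exact ((Complex.continuous_conj.comp_aestronglyMeasurable (mell m _)).mul (hαm j)).sub
      ((Complex.continuous_conj.comp_aestronglyMeasurable (mell m _)).mul (hαm k))
  -- limits
  have lim1 : Tendsto (fun m => ∫ z in U, ‖gm m z‖ ^ 2 * Real.exp (-(φ z - 2 * τ z))) atTop
      (𝓝 (∫ z in U, ‖g z‖ ^ 2 * Real.exp (-(φ z - 2 * τ z)))) := by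
    refine tendsto_integral_of_dominated_convergence
      (fun z => 2 * (‖g z‖ ^ 2 * Real.exp (-(φ z - 2 * τ z)))
        + 2 * M * (nsq (α z) * Real.exp (-(φ z - τ z)))) ?_ ?_ ?_ ?_
    · intro m
      exact ((mgm m).norm.pow 2).mul e3
    · exact (ig.const_mul 2).add (iN.const_mul (2 * M))
    · intro m
      filter_upwards [ae_restrict_mem hU.measurableSet] with z hz
      rw [Real.norm_of_nonneg (mul_nonneg (sq_nonneg _) (Real.exp_nonneg _))]
      have s1 : ∑ j, α z j * ell (θ m) z (ee j) = ell (θ m) z (α z) := (ell_sum _ _ _).symm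
      have s2 : ‖gm m z‖ ≤ ‖g z‖ + Real.exp (-τ z) * ‖ell (θ m) z (α z)‖ := by
        simp only [hgm', s1]
        refine (norm_sub_le _ _).trans (add_le_add ?_ ?_)
        · rw [norm_mul, Complex.norm_real, Real.norm_of_nonneg (hθ01 m z).1]
          exact mul_le_of_le_one_left (norm_nonneg _) (hθ01 m z).2
        · rw [norm_mul, Complex.norm_real, Real.norm_of_nonneg (Real.exp_nonneg _)]
      have s3 : ‖ell (θ m) z (α z)‖ ^ 2 ≤ M * Real.exp (τ z) * nsq (α z) :=
        (ell_sq_le _ _ _).trans (mul_le_mul_of_nonneg_right (hθM m z hz) (B5b_nsq_nonneg _))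
      have s4 : ‖gm m z‖ ^ 2 ≤ 2 * ‖g z‖ ^ 2
          + 2 * (Real.exp (-τ z) ^ 2 * ‖ell (θ m) z (α z)‖ ^ 2) := by
        have s5 : ‖gm m z‖ ^ 2 ≤ (‖g z‖ + Real.exp (-τ z) * ‖ell (θ m) z (α z)‖) ^ 2 :=
          pow_le_pow_left₀ (norm_nonneg _) s2 2
        nlinarith [sq_nonneg (‖g z‖ - Real.exp (-τ z) * ‖ell (θ m) z (α z)‖)]
      have s6 : Real.exp (-τ z) ^ 2 * (M * Real.exp (τ z) * nsq (α z))
          * Real.exp (-(φ z - 2 * τ z)) = M * (nsq (α z) * Real.exp (-(φ z - τ z))) := by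
        have s7 : Real.exp (-τ z) ^ 2 * Real.exp (τ z) * Real.exp (-(φ z - 2 * τ z))
            = Real.exp (-(φ z - τ z)) := by
          rw [pow_two, ← Real.exp_add, ← Real.exp_add, ← Real.exp_add]
          congr 1
          ring
        rw [← s7]
        ring
      have s8 : Real.exp (-τ z) ^ 2 * ‖ell (θ m) z (α z)‖ ^ 2
          ≤ Real.exp (-τ z) ^ 2 * (M * Real.exp (τ z) * nsq (α z)) :=
        mul_le_mul_of_nonneg_left s3 (sq_nonneg _)
      calc ‖gm m z‖ ^ 2 * Real.exp (-(φ z - 2 * τ z))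
          ≤ (2 * ‖g z‖ ^ 2 + 2 * (Real.exp (-τ z) ^ 2 * (M * Real.exp (τ z) * nsq (α z))))
            * Real.exp (-(φ z - 2 * τ z)) :=
            mul_le_mul_of_nonneg_right (by linarith) (Real.exp_nonneg _)
        _ = 2 * (‖g z‖ ^ 2 * Real.exp (-(φ z - 2 * τ z)))
            + 2 * (Real.exp (-τ z) ^ 2 * (M * Real.exp (τ z) * nsq (α z))
              * Real.exp (-(φ z - 2 * τ z))) := by ring
        _ = _ := by rw [s6]; ring
    · filter_upwards [ae_restrict_mem hU.measurableSet] with z hz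
      refine tendsto_const_nhds.congr' ?_
      filter_upwards [B5b_event hU hθ1 hz] with m hm1
      simp [hgm', hm1.1, hm1.2]
  have lim2 : ∀ j k, Tendsto (fun m => ∫ z in U, ‖hm m z j k‖ ^ 2 * Real.exp (-φ z)) atTop
      (𝓝 0) := by
    intro j k
    have h0 : (0 : ℝ) = ∫ _ in U, (0 : ℝ) := by simp
    rw [h0]
    refine tendsto_integral_of_dominated_convergence
      (fun z => 4 * M * (nsq (α z) * Real.exp (-(φ z - τ z)))) ?_ ?_ ?_ ?_
    · intro m
      exact ((mhm m j k).norm.pow 2).mul e1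
    · exact iN.const_mul (4 * M)
    · intro m
      filter_upwards [ae_restrict_mem hU.measurableSet] with z hz
      rw [Real.norm_of_nonneg (mul_nonneg (sq_nonneg _) (Real.exp_nonneg _))]
      have t0 : ∀ i, ‖ell (θ m) z (ee i)‖ ^ 2 ≤ M * Real.exp (τ z) := fun i =>
        (Finset.single_le_sum (f := fun i => ‖ell (θ m) z (ee i)‖ ^ 2) (fun _ _ => sq_nonneg _)
          (Finset.mem_univ i)).trans (hθM m z hz)
      have t1 : ‖hm m z j k‖ ≤ ‖ell (θ m) z (ee k)‖ * ‖α z j‖
          + ‖ell (θ m) z (ee j)‖ * ‖α z k‖ := by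
        simp only [hhm']
        refine (norm_sub_le _ _).trans ?_
        rw [norm_mul, norm_mul, RCLike.norm_conj, RCLike.norm_conj]
      have t2 : ‖hm m z j k‖ ^ 2 ≤ 2 * (‖ell (θ m) z (ee k)‖ ^ 2 * ‖α z j‖ ^ 2)
          + 2 * (‖ell (θ m) z (ee j)‖ ^ 2 * ‖α z k‖ ^ 2) := by
        have t3 : ‖hm m z j k‖ ^ 2 ≤ (‖ell (θ m) z (ee k)‖ * ‖α z j‖
          + ‖ell (θ m) z (ee j)‖ * ‖α z k‖) ^ 2 := pow_le_pow_left₀ (norm_nonneg _) t1 2
        nlinarith [sq_nonneg (‖ell (θ m) z (ee k)‖ * ‖α z j‖ - ‖ell (θ m) z (ee j)‖ * ‖α z k‖)]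
      have t4 : ∀ i l, ‖ell (θ m) z (ee i)‖ ^ 2 * ‖α z l‖ ^ 2
          ≤ M * Real.exp (τ z) * nsq (α z) := fun i l =>
        mul_le_mul (t0 i) (B5b_le_nsq _ l) (sq_nonneg _) ((sq_nonneg _).trans (t0 i))
      have t5 : ‖hm m z j k‖ ^ 2 ≤ 4 * (M * Real.exp (τ z) * nsq (α z)) := by
        have := t4 k j
        have := t4 j k
        linarith
      calc ‖hm m z j k‖ ^ 2 * Real.exp (-φ z)
          ≤ 4 * (M * Real.exp (τ z) * nsq (α z)) * Real.exp (-φ z) :=
            mul_le_mul_of_nonneg_right t5 (Real.exp_nonneg _)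
        _ = 4 * M * (nsq (α z) * (Real.exp (τ z) * Real.exp (-φ z))) := by ring
        _ = _ := by
          rw [← Real.exp_add]
          congr 4
          ring
    · filter_upwards [ae_restrict_mem hU.measurableSet] with z hz
      refine tendsto_const_nhds.congr' ?_
      filter_upwards [B5b_event hU hθ1 hz] with m hm1
      simp [hhm', hm1.2]
  have lim : Tendsto (fun m => (2 * ∫ z in U, ‖gm m z‖ ^ 2 * Real.exp (-(φ z - 2 * τ z)))
        + (1 / 2) * ∑ j, ∑ k, ∫ z in U, ‖hm m z j k‖ ^ 2 * Real.exp (-φ z)) atTop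
      (𝓝 (2 * ∫ z in U, ‖g z‖ ^ 2 * Real.exp (-(φ z - 2 * τ z)))) := by
    have l1 := lim1.const_mul 2
    have l2 : Tendsto (fun m => ∑ j, ∑ k, ∫ z in U, ‖hm m z j k‖ ^ 2 * Real.exp (-φ z)) atTop
        (𝓝 (∑ _j : Fin n, ∑ _k : Fin n, (0 : ℝ))) :=
      tendsto_finsetSum _ fun j _ => tendsto_finsetSum _ fun k _ => lim2 j k
    have l3 := l1.add (l2.const_mul (1 / 2))
    simpa using l3
  -- the left hand side
  have hlev : ∀ m z, z ∈ U → levi Φ z (fun j => θ m z * α z j)
      = θ m z ^ 2 * levi Φ z (α z) := by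
    intro m z hz
    have h1 : (fun j => (θ m z : ℂ) * α z j) = (θ m z : ℂ) • α z := rfl
    rw [h1, levi_smul (W.cΦ.contDiffAt (hU.mem_nhds hz))]
    rw [Complex.norm_real, Real.norm_eq_abs, sq_abs]
  have mL : ∀ m, AEStronglyMeasurable
      (fun z => levi Φ z (fun j => θ m z * α z j) * Real.exp (-φ z)) (volume.restrict U) := by
    intro m
    refine AEStronglyMeasurable.mul ?_ e1
    exact B5b_meas_levi hU W.cΦ (α := fun z j => θ m z * α z j) fun j =>
      ((cθ m).aestronglyMeasurable hU.measurableSet).mul (hαm j)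
  have iL : ∀ m, Integrable (fun z => levi Φ z (fun j => θ m z * α z j) * Real.exp (-φ z))
      (volume.restrict U) := by
    intro m
    obtain ⟨C, hC, hC1⟩ := levi_bdd hU W.cΦ (hθc m) (hθs m)
    have cexp : ContinuousOn (fun z => Real.exp (-φ z)) (tsupport (θ m)) :=
      (cφ.neg.rexp).mono (hθs m)
    obtain ⟨E, hE⟩ := (hθc m).exists_bound_of_continuousOn cexp
    have h1 : ∀ j, Integrable (fun z => ‖(θ m z : ℂ) * α z j‖ ^ 2) (volume.restrict U) := by
      intro j
      have h2 : MemLp (fun z => (θ m z : ℂ) * α z j) 2 volume := by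
        refine B5b_memLp (hθc m) (hθs m) ((lα j).mul_continuousOn (cθ m) hU) ?_
        intro z hz
        rw [(B5b_ell_off hz 0).1]
        simp
      exact (h2.integrable_norm_pow (by norm_num)).restrict
    have h3 := (integrable_finsetSum Finset.univ fun j (_ : j ∈ Finset.univ) => h1 j).const_mul
      (C * E)
    refine h3.mono' (mL m) ?_
    filter_upwards with z
    by_cases hz : z ∈ tsupport (θ m)
    · rw [norm_mul, Real.norm_eq_abs]
      have h4 := (hC1 z hz (fun j => θ m z * α z j)).1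
      have h5 := hE z hz
      calc |levi Φ z fun j => ↑(θ m z) * α z j| * ‖Real.exp (-φ z)‖
          ≤ (C * nsq (fun j => (θ m z : ℂ) * α z j)) * E :=
            mul_le_mul h4 h5 (norm_nonneg _) (mul_nonneg hC.le (B5b_nsq_nonneg _))
        _ = _ := by simp only [nsq]; ring
    · have h6 : (fun j => (θ m z : ℂ) * α z j) = 0 := by
        funext j
        rw [(B5b_ell_off hz 0).1]
        simp
      rw [h6, levi_zero]
      have h7 : ∀ j, (θ m z : ℂ) * α z j = 0 := fun j => congrFun h6 j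
      simp [h7]
  have step : ∀ m, ∫⁻ z in U, ENNReal.ofReal
      (levi Φ z (fun j => θ m z * α z j) * Real.exp (-φ z))
      ≤ ENNReal.ofReal ((2 * ∫ z in U, ‖gm m z‖ ^ 2 * Real.exp (-(φ z - 2 * τ z)))
        + (1 / 2) * ∑ j, ∑ k, ∫ z in U, ‖hm m z j k‖ ^ 2 * Real.exp (-φ z)) := by
    intro m
    rw [← ofReal_integral_eq_lintegral_ofReal (iL m)]
    · exact ENNReal.ofReal_le_ofReal (key m)
    · filter_upwards [ae_restrict_mem hU.measurableSet] with z hz
      exact mul_nonneg (W.nonneg z hz _) (Real.exp_nonneg _)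
  calc ∫⁻ z in U, ENNReal.ofReal (levi Φ z (α z) * Real.exp (-φ z))
      = ∫⁻ z in U, liminf (fun m => ENNReal.ofReal
          (levi Φ z (fun j => θ m z * α z j) * Real.exp (-φ z))) atTop := by
        refine lintegral_congr_ae ?_
        filter_upwards [ae_restrict_mem hU.measurableSet] with z hz
        refine (Tendsto.liminf_eq ?_).symm
        refine tendsto_const_nhds.congr' ?_
        filter_upwards [B5b_event hU hθ1 hz] with m hm1
        rw [hm1.1]
        simp
    _ ≤ liminf (fun m => ∫⁻ z in U, ENNReal.ofReal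
          (levi Φ z (fun j => θ m z * α z j) * Real.exp (-φ z))) atTop :=
        lintegral_liminf_le' fun m => (mL m).aemeasurable.ennreal_ofReal
    _ ≤ liminf (fun m => ENNReal.ofReal ((2 * ∫ z in U, ‖gm m z‖ ^ 2
          * Real.exp (-(φ z - 2 * τ z)))
        + (1 / 2) * ∑ j, ∑ k, ∫ z in U, ‖hm m z j k‖ ^ 2 * Real.exp (-φ z))) atTop :=
        liminf_le_liminf (Eventually.of_forall step)
    _ = ENNReal.ofReal (2 * ∫ z in U, ‖g z‖ ^ 2 * Real.exp (-(φ z - 2 * τ z))) :=
        (ENNReal.tendsto_ofReal lim).liminf_eq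
    _ = 2 * ∫⁻ z in U, ENNReal.ofReal (‖g z‖ ^ 2 * Real.exp (-(φ z - 2 * τ z))) := by
        rw [ENNReal.ofReal_mul (by norm_num), ofReal_integral_eq_lintegral_ofReal ig
          (ae_of_all _ fun z => mul_nonneg (sq_nonneg _) (Real.exp_nonneg _))]
        simp

end HankelSPC
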