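import Pool.Agent.Lib.MP_e1cf54_an.BDefs
import Pool.Agent.Lib.MP_e1cf54_an.B3a

/-! Row B6a: adjoint of smooth forms -/

open MeasureTheory Set Filter
open scoped ENNReal NNReal Topology ContDiff

namespace HankelSPC

variable {n : ℕ}

lemma B6a_int {U K : Set (Cn n)} (hU : IsOpen U)
    {g : Cn n → ℂ} (hg : ContinuousOn g U) (hK : IsCompact K) (hKU : K ⊆ U)
    (h0 : ∀ z ∈ U, z ∉ K → g z = 0) : IntegrableOn g U :=
  ((hg.mono hKU).integrableOn_compact hK).of_forall_sdiff_eq_zero hU.measurableSet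
    fun z hz => h0 z hz.1 hz.2

/-- For a `C²` form `a` with compact support in `U`, `T* a` is given by the explicit formula
`- e^{-τ} ∑ (∂_ja_j - a_j ∂_jφ + a_j ∂_jτ)`. -/
theorem weakAdj_smooth {U : Set (Cn n)} {Φ φ τ : Cn n → ℝ} (W : Wt U Φ φ τ)
    (a : Cn n → Fin n → ℂ) (ha : ∀ j, ContDiff ℝ 2 fun z => a z j)
    (hc : ∀ j, HasCompactSupport fun z => a z j) (hs : ∀ j, (tsupport fun z => a z j) ⊆ U) :
    WeakAdj U φ τ a (fun z => - (Real.exp (-τ z) * ∑ j, (dz (fun w => a w j) z (ee j)
      - a z j * ell φ z (ee j) + a z j * ell τ z (ee j)))) := by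
  intro v hv
  have hU := W.isOpen
  have hφ1 : ContDiffOn ℝ 1 φ U := W.cφ.of_le (by norm_num)
  have hτ1 : ContDiffOn ℝ 1 τ U := W.cτ.of_le (by norm_num)
  have hφτ : ContDiffOn ℝ 1 (fun z => φ z - τ z) U := hφ1.sub hτ1
  have hv1 : ContDiff ℝ 1 v := hv.1.of_le (by norm_cast)
  have ha1 : ∀ j, ContDiff ℝ 1 fun z => a z j := fun j => (ha j).of_le (by norm_num)
  have hexp : ContinuousOn (fun z => ((Real.exp (-(φ z - τ z)) : ℝ) : ℂ)) U :=
    Complex.continuous_ofReal.comp_continuousOn
      (Real.continuous_exp.comp_continuousOn hφτ.continuousOn.neg)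
  have hconj : ∀ {g : Cn n → ℂ}, ContinuousOn g U →
      ContinuousOn (fun z => (starRingEnd ℂ) (g z)) U := fun hg =>
    Complex.continuous_conj.comp_continuousOn hg
  have hsupp : ∀ z, z ∉ tsupport v → v z = 0 ∧ ∀ j, dzb v z (ee j) = 0 := by
    intro z hz
    refine ⟨image_eq_zero_of_notMem_tsupport hz, fun j => ?_⟩
    have h1 : fderiv ℝ v z = 0 := by
      by_contra h
      exact hz (support_fderiv_subset ℝ h)
    unfold dzb; rw [h1]; simp
  -- the identity for each component
  have hell : ∀ z ∈ U, ∀ j, ell (fun z => φ z - τ z) z (ee j) = ell φ z (ee j) - ell τ z (ee j) := by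
    intro z hz j
    have h1 : DifferentiableAt ℝ φ z :=
      (hφ1.differentiableOn (by norm_num) z hz).differentiableAt (hU.mem_nhds hz)
    have h2 : DifferentiableAt ℝ τ z :=
      (hτ1.differentiableOn (by norm_num) z hz).differentiableAt (hU.mem_nhds hz)
    unfold ell
    have h3 : fderiv ℝ (fun z => φ z - τ z) z = fderiv ℝ φ z - fderiv ℝ τ z := fderiv_fun_sub h1 h2
    rw [h3]
    simp only [sub_apply, Complex.ofReal_sub]
    ring
  have key : ∀ j, ∫ z in U, dzb v z (ee j) * (starRingEnd ℂ) (a z j)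
        * Real.exp (-(φ z - τ z))
      = - ∫ z in U, v z * (starRingEnd ℂ) (dz (fun w => a w j) z (ee j)
          - a z j * ell (fun z => φ z - τ z) z (ee j)) * Real.exp (-(φ z - τ z)) :=
    fun j => adjoint_formula hU hφτ hv1.contDiffOn (ha1 j).contDiffOn (hc j) (hs j) j
  have hK : IsCompact (tsupport v) := hv.2.1
  have i1 : ∀ j, IntegrableOn (fun z => dzb v z (ee j) * (starRingEnd ℂ) (a z j)
      * ((Real.exp (-(φ z - τ z)) : ℝ) : ℂ)) U := by
    intro j
    refine B6a_int hU (((B3a_continuousOn_dzb hU hv1.contDiffOn _).mul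
      (hconj (ha1 j).continuous.continuousOn)).mul hexp) hK hv.2.2 ?_
    intro z _ hz'
    simp only [(hsupp z hz').2 j, zero_mul]
  have i2 : ∀ j, IntegrableOn (fun z => v z * (starRingEnd ℂ) (dz (fun w => a w j) z (ee j)
          - a z j * ell (fun z => φ z - τ z) z (ee j)) * ((Real.exp (-(φ z - τ z)) : ℝ) : ℂ)) U := by
    intro j
    refine B6a_int hU ((hv1.continuous.continuousOn.mul (hconj
      ((B3a_continuousOn_dz hU (ha1 j).contDiffOn _).sub
        ((ha1 j).continuous.continuousOn.mul (B3a_continuousOn_ell hU hφτ _))))).mul hexp)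
      hK hv.2.2 ?_
    intro z _ hz'
    simp only [(hsupp z hz').1, zero_mul]
  calc ∫ z in U, (∑ j, dzb v z (ee j) * (starRingEnd ℂ) (a z j)) * Real.exp (-(φ z - τ z))
      = ∫ z in U, ∑ j, dzb v z (ee j) * (starRingEnd ℂ) (a z j)
          * Real.exp (-(φ z - τ z)) := by
        refine integral_congr_ae (Eventually.of_forall fun z => ?_)
        simp only [Finset.sum_mul]
    _ = ∑ j, ∫ z in U, dzb v z (ee j) * (starRingEnd ℂ) (a z j)
          * Real.exp (-(φ z - τ z)) := integral_finsetSum _ fun j _ => i1 j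
    _ = ∑ j, - ∫ z in U, v z * (starRingEnd ℂ) (dz (fun w => a w j) z (ee j)
          - a z j * ell (fun z => φ z - τ z) z (ee j)) * Real.exp (-(φ z - τ z)) :=
        Finset.sum_congr rfl fun j _ => key j
    _ = - ∫ z in U, ∑ j, v z * (starRingEnd ℂ) (dz (fun w => a w j) z (ee j)
          - a z j * ell (fun z => φ z - τ z) z (ee j)) * Real.exp (-(φ z - τ z)) := by
        rw [Finset.sum_neg_distrib, integral_finsetSum _ fun j _ => i2 j]
    _ = ∫ z in U, v z * (starRingEnd ℂ) (- (Real.exp (-τ z) * ∑ j, (dz (fun w => a w j) z (ee j)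
          - a z j * ell φ z (ee j) + a z j * ell τ z (ee j))))
          * Real.exp (-(φ z - 2 * τ z)) := by
        rw [← integral_neg]
        refine setIntegral_congr_fun hU.measurableSet fun z hz => ?_
        have e1 : ((Real.exp (-(φ z - τ z)) : ℝ) : ℂ)
            = ((Real.exp (-τ z) : ℝ) : ℂ) * ((Real.exp (-(φ z - 2 * τ z)) : ℝ) : ℂ) := by
          rw [← Complex.ofReal_mul, ← Real.exp_add]
          congr 2; ring
        simp only [hell z hz]
        rw [e1, map_neg, map_mul, Complex.conj_ofReal, map_sum]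
        rw [← Finset.sum_neg_distrib]
        rw [mul_neg, neg_mul, Finset.mul_sum, Finset.mul_sum, Finset.sum_mul,
          ← Finset.sum_neg_distrib]
        refine Finset.sum_congr rfl fun j _ => ?_
        rw [show dz (fun w => a w j) z (ee j) - a z j * (ell φ z (ee j) - ell τ z (ee j))
          = dz (fun w => a w j) z (ee j) - a z j * ell φ z (ee j) + a z j * ell τ z (ee j) by ring]
        ring

end HankelSPC
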