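import Pool.Agent.Lib.MP_e1cf54_an.B5b
import Pool.Agent.Lib.MP_e1cf54_an.B6a
import Pool.Agent.Lib.MP_e1cf54_an.B1
import Pool.Agent.Lib.MP_e1cf54_an.B2b
import Pool.Agent.Lib.MP_e1cf54_an.A5a

/-! Row B6b: existence with three weights -/

open MeasureTheory Set Filter
open scoped ENNReal NNReal Topology ContDiff

namespace HankelSPC

variable {n : ℕ}

theorem B6b_norm_sq {μ : Measure (Cn n)} (f : Lp ℂ 2 μ) :
    ENNReal.ofReal (‖f‖ ^ 2) = ∫⁻ z, ENNReal.ofReal (‖f z‖ ^ 2) ∂μ := by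
  rw [Lp.norm_def, ENNReal.ofReal_pow ENNReal.toReal_nonneg,
    ENNReal.ofReal_toReal (Lp.eLpNorm_ne_top f)]
  have h := eLpNorm_nnreal_pow_eq_lintegral (f := (f : Cn n → ℂ)) (μ := μ) (p := 2) (by norm_num)
  have h2 : eLpNorm (f : Cn n → ℂ) 2 μ ^ 2 = eLpNorm (f : Cn n → ℂ) (2 : ℝ≥0) μ ^ ((2 : ℝ≥0) : ℝ) := by
    norm_num
  rw [h2, h]
  refine lintegral_congr fun z => ?_
  rw [ENNReal.ofReal_pow (norm_nonneg _), ofReal_norm]
  norm_num

theorem B6b_norm_sq' {μ : Measure (Cn n)} {f : Lp ℂ 2 μ} {F : Cn n → ℂ} (h : f =ᵐ[μ] F) :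
    ENNReal.ofReal (‖f‖ ^ 2) = ∫⁻ z, ENNReal.ofReal (‖F z‖ ^ 2) ∂μ := by
  rw [B6b_norm_sq]
  refine lintegral_congr_ae ?_
  filter_upwards [h] with z hz
  rw [hz]

theorem B6b_inner {μ : Measure (Cn n)} {f g : Lp ℂ 2 μ} {F G : Cn n → ℂ}
    (hf : f =ᵐ[μ] F) (hg : g =ᵐ[μ] G) :
    inner ℂ f g = ∫ z, (starRingEnd ℂ) (F z) * G z ∂μ := by
  rw [L2.inner_def]
  refine integral_congr_ae ?_
  filter_upwards [hf, hg] with z h1 h2
  rw [h1, h2, RCLike.inner_apply, mul_comm]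

theorem B6b_contOn_ell {φ : Cn n → ℝ} {U : Set (Cn n)} (hU : IsOpen U)
    (hφ : ContDiffOn ℝ 2 φ U) (X : Cn n) : ContinuousOn (fun z => ell φ z X) U := by
  have h1 : ContinuousOn (fun z => fderiv ℝ φ z) U :=
    hφ.continuousOn_fderiv_of_isOpen hU (by norm_num)
  unfold ell
  exact continuousOn_const.mul ((Complex.continuous_ofReal.comp_continuousOn
    (h1.clm_apply continuousOn_const)).sub (continuousOn_const.mul
      (Complex.continuous_ofReal.comp_continuousOn (h1.clm_apply continuousOn_const))))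

theorem B6b_cont {U K : Set (Cn n)} (hU : IsOpen U) {f : Cn n → ℂ} (hf : ContinuousOn f U)
    (hK : IsCompact K) (hKU : K ⊆ U) (h0 : ∀ z, z ∉ K → f z = 0) :
    Continuous f ∧ HasCompactSupport f ∧ tsupport f ⊆ K := by
  have hs : tsupport f ⊆ K := by
    refine closure_minimal ?_ hK.isClosed
    intro z hz
    by_contra h
    exact hz (h0 z h)
  refine ⟨?_, ?_, hs⟩
  · exact hf.continuous_of_tsupport_subset hU (hs.trans hKU)
  · exact hK.of_isClosed_subset (isClosed_tsupport f) hs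

theorem B6b_memLp {U K : Set (Cn n)} (hU : IsOpen U) {f : Cn n → ℂ} (hf : ContinuousOn f U)
    (hK : IsCompact K) (hKU : K ⊆ U) (h0 : ∀ z, z ∉ K → f z = 0) :
    MemLp f 2 (volume.restrict U) := by
  obtain ⟨h1, h2, -⟩ := B6b_cont hU hf hK hKU h0
  exact (h1.memLp_of_hasCompactSupport h2).restrict U

/-- linear maps into `L²`. -/
noncomputable def B6b_lin {V : Type*} [AddCommGroup V] [Module ℂ V] {μ : Measure (Cn n)}
    (f : V → Cn n → ℂ) (hm : ∀ a, MemLp (f a) 2 μ)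
    (ha : ∀ a b z, f (a + b) z = f a z + f b z)
    (hs : ∀ (c : ℂ) a z, f (c • a) z = c * f a z) : V →ₗ[ℂ] Lp ℂ 2 μ where
  toFun a := (hm a).toLp (f a)
  map_add' a b := by
    rw [← MemLp.toLp_add]
    exact MemLp.toLp_congr _ _ (ae_of_all _ (fun z => ha a b z))
  map_smul' c a := by
    rw [RingHom.id_apply, ← MemLp.toLp_const_smul]
    exact MemLp.toLp_congr _ _ (ae_of_all _ (fun z => hs c a z))

theorem B6b_lin_ae {V : Type*} [AddCommGroup V] [Module ℂ V] {μ : Measure (Cn n)}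
    (f : V → Cn n → ℂ) (hm : ∀ a, MemLp (f a) 2 μ)
    (ha : ∀ a b z, f (a + b) z = f a z + f b z)
    (hs : ∀ (c : ℂ) a z, f (c • a) z = c * f a z) (a : V) :
    B6b_lin f hm ha hs a =ᵐ[μ] f a := (hm a).coeFn_toLp

/-- The space of `C²` forms with compact support. -/
def B6b_D (U : Set (Cn n)) : Submodule ℂ (Cn n → Fin n → ℂ) where
  carrier := {a | (∀ j, ContDiff ℝ 2 fun z => a z j) ∧
    ∃ K, IsCompact K ∧ K ⊆ U ∧ ∀ z, z ∉ K → a z = 0}
  zero_mem' := ⟨fun j => contDiff_const, ∅, isCompact_empty, empty_subset _, fun z _ => rfl⟩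
  add_mem' := by
    rintro a b ⟨ha, K, hK, hKU, hK0⟩ ⟨hb, L, hL, hLU, hL0⟩
    refine ⟨fun j => (ha j).add (hb j), K ∪ L, hK.union hL, union_subset hKU hLU, ?_⟩
    intro z hz
    rw [mem_union, not_or] at hz
    simp [Pi.add_apply, hK0 z hz.1, hL0 z hz.2]
  smul_mem' := by
    rintro c a ⟨ha, K, hK, hKU, hK0⟩
    refine ⟨fun j => contDiff_const.mul (ha j), K, hK, hKU, ?_⟩
    intro z hz
    simp [Pi.smul_apply, hK0 z hz]

/-- explicit `T*`. -/
noncomputable def B6b_T (φ τ : Cn n → ℝ) (a : Cn n → Fin n → ℂ) (z : Cn n) : ℂ :=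
  - (Real.exp (-τ z) * ∑ j, (dz (fun w => a w j) z (ee j)
      - a z j * ell φ z (ee j) + a z j * ell τ z (ee j)))

theorem B6b_dz_add {u v : Cn n → ℂ} {z : Cn n} (hu : DifferentiableAt ℝ u z)
    (hv : DifferentiableAt ℝ v z) (X : Cn n) :
    dz (fun w => u w + v w) z X = dz u z X + dz v z X := by
  unfold dz
  rw [fderiv_fun_add hu hv]
  simp only [add_apply]
  ring

theorem B6b_dz_const_mul {u : Cn n → ℂ} {z : Cn n} (hu : DifferentiableAt ℝ u z) (c : ℂ)
    (X : Cn n) : dz (fun w => c * u w) z X = c * dz u z X := by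
  unfold dz
  rw [fderiv_const_mul hu]
  simp only [smul_apply, smul_eq_mul]
  ring

theorem B6b_T_add (φ τ : Cn n → ℝ) {a b : Cn n → Fin n → ℂ} (ha : ∀ j, ContDiff ℝ 2 fun z => a z j)
    (hb : ∀ j, ContDiff ℝ 2 fun z => b z j) (z : Cn n) :
    B6b_T φ τ (a + b) z = B6b_T φ τ a z + B6b_T φ τ b z := by
  unfold B6b_T
  have h1 : ∀ j, dz (fun w => (a + b) w j) z (ee j)
      = dz (fun w => a w j) z (ee j) + dz (fun w => b w j) z (ee j) := by
    intro j
    exact B6b_dz_add ((ha j).differentiable (by norm_num) z)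
      ((hb j).differentiable (by norm_num) z) _
  have h2 : ∑ j, (dz (fun w => (a + b) w j) z (ee j)
      - (a + b) z j * ell φ z (ee j) + (a + b) z j * ell τ z (ee j))
      = (∑ j, (dz (fun w => a w j) z (ee j)
      - a z j * ell φ z (ee j) + a z j * ell τ z (ee j))) +
      ∑ j, (dz (fun w => b w j) z (ee j)
      - b z j * ell φ z (ee j) + b z j * ell τ z (ee j)) := by
    rw [← Finset.sum_add_distrib]
    refine Finset.sum_congr rfl fun j _ => ?_
    rw [h1]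
    simp only [Pi.add_apply]
    ring
  rw [h2]
  ring

theorem B6b_T_smul (φ τ : Cn n → ℝ) {a : Cn n → Fin n → ℂ} (ha : ∀ j, ContDiff ℝ 2 fun z => a z j)
    (c : ℂ) (z : Cn n) :
    B6b_T φ τ (c • a) z = c * B6b_T φ τ a z := by
  unfold B6b_T
  have h1 : ∀ j, dz (fun w => (c • a) w j) z (ee j)
      = c * dz (fun w => a w j) z (ee j) := by
    intro j
    exact B6b_dz_const_mul ((ha j).differentiable (by norm_num) z) c _
  have h2 : ∑ j, (dz (fun w => (c • a) w j) z (ee j)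
      - (c • a) z j * ell φ z (ee j) + (c • a) z j * ell τ z (ee j))
      = c * (∑ j, (dz (fun w => a w j) z (ee j)
      - a z j * ell φ z (ee j) + a z j * ell τ z (ee j))) := by
    rw [Finset.mul_sum]
    refine Finset.sum_congr rfl fun j _ => ?_
    rw [h1]
    simp only [Pi.smul_apply, smul_eq_mul]
    ring
  rw [h2]
  ring

theorem B6b_T_zero (φ τ : Cn n → ℝ) {a : Cn n → Fin n → ℂ} {K : Set (Cn n)} (hK : IsClosed K)
    (h0 : ∀ z, z ∉ K → a z = 0) (z : Cn n) (hz : z ∉ K) : B6b_T φ τ a z = 0 := by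
  unfold B6b_T
  have h1 : ∀ j, dz (fun w => a w j) z (ee j) = 0 := by
    intro j
    have h2 : (fun w => a w j) =ᶠ[𝓝 z] fun _ => (0 : ℂ) := by
      filter_upwards [hK.isOpen_compl.mem_nhds hz] with w hw
      rw [h0 w hw]; rfl
    unfold dz
    rw [h2.fderiv_eq]
    simp
  simp [h1, h0 z hz]

theorem B6b_cont_dz {u : Cn n → ℂ} (hu : ContDiff ℝ 2 u) (X : Cn n) :
    Continuous fun z => dz u z X := by
  have h1 : Continuous fun z => fderiv ℝ u z := hu.continuous_fderiv (by norm_num)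
  unfold dz
  exact continuous_const.mul ((h1.clm_apply continuous_const).sub
    (continuous_const.mul (h1.clm_apply continuous_const)))

theorem B6b_T_cont {U : Set (Cn n)} (hU : IsOpen U) {φ τ : Cn n → ℝ} (hφ : ContDiffOn ℝ 2 φ U)
    (hτ : ContDiffOn ℝ 2 τ U) {a : Cn n → Fin n → ℂ} (ha : ∀ j, ContDiff ℝ 2 fun z => a z j) :
    ContinuousOn (B6b_T φ τ a) U := by
  unfold B6b_T
  refine ContinuousOn.neg (ContinuousOn.mul ?_ ?_)
  · exact Complex.continuous_ofReal.comp_continuousOn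
      (Real.continuous_exp.comp_continuousOn hτ.continuousOn.neg)
  · refine continuousOn_finsetSum _ fun j _ => ?_
    have h1 := (ha j).continuous.continuousOn (s := U)
    exact (((B6b_cont_dz (ha j) _).continuousOn).sub (h1.mul (B6b_contOn_ell hU hφ _))).add
      (h1.mul (B6b_contOn_ell hU hτ _))


/-- weights. -/
noncomputable def B6b_w (φ τ : Cn n → ℝ) (z : Cn n) : ℝ := Real.exp (-(φ z - τ z) / 2)

noncomputable def B6b_v (φ τ : Cn n → ℝ) (z : Cn n) : ℝ := Real.exp (-(φ z - 2 * τ z) / 2)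

theorem B6b_w_pos (φ τ : Cn n → ℝ) (z : Cn n) : 0 < B6b_w φ τ z := Real.exp_pos _

theorem B6b_v_pos (φ τ : Cn n → ℝ) (z : Cn n) : 0 < B6b_v φ τ z := Real.exp_pos _

theorem B6b_w_sq (φ τ : Cn n → ℝ) (z : Cn n) :
    B6b_w φ τ z * B6b_w φ τ z = Real.exp (-(φ z - τ z)) := by
  unfold B6b_w
  rw [← Real.exp_add]
  congr 1; ring

theorem B6b_v_sq (φ τ : Cn n → ℝ) (z : Cn n) :
    B6b_v φ τ z * B6b_v φ τ z = Real.exp (-(φ z - 2 * τ z)) := by
  unfold B6b_v
  rw [← Real.exp_add]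
  congr 1; ring

theorem B6b_w_cont {U : Set (Cn n)} {φ τ : Cn n → ℝ} (hφ : ContinuousOn φ U)
    (hτ : ContinuousOn τ U) : ContinuousOn (B6b_w φ τ) U := by
  unfold B6b_w
  exact Real.continuous_exp.comp_continuousOn ((hφ.sub hτ).neg.div_const 2)

theorem B6b_v_cont {U : Set (Cn n)} {φ τ : Cn n → ℝ} (hφ : ContinuousOn φ U)
    (hτ : ContinuousOn τ U) : ContinuousOn (B6b_v φ τ) U := by
  unfold B6b_v
  exact Real.continuous_exp.comp_continuousOn ((hφ.sub (continuousOn_const.mul hτ)).neg.div_const 2)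

theorem B6b_dzb_zero {v : Cn n → ℂ} {z : Cn n} (hz : z ∉ tsupport v) (X : Cn n) :
    dzb v z X = 0 := by
  have h2 : v =ᶠ[𝓝 z] fun _ => (0 : ℂ) := by
    filter_upwards [(isClosed_tsupport v).isOpen_compl.mem_nhds hz] with w hw
    exact image_eq_zero_of_notMem_tsupport hw
  unfold dzb
  rw [h2.fderiv_eq]
  simp

theorem B6b_cont_dzb {u : Cn n → ℂ} (hu : ContDiff ℝ 1 u) (X : Cn n) :
    Continuous fun z => dzb u z X := by
  have h1 : Continuous fun z => fderiv ℝ u z := hu.continuous_fderiv (by norm_num)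
  unfold dzb
  exact continuous_const.mul ((h1.clm_apply continuous_const).add
    (continuous_const.mul (h1.clm_apply continuous_const)))

/-- the closed subspace of weakly closed forms. -/
noncomputable def B6b_N (U : Set (Cn n)) (φ τ : Cn n → ℝ) :
    Submodule ℂ (PiLp 2 (fun _ : Fin n => Lp ℂ 2 (volume.restrict U))) where
  carrier := {F | ∀ g : Fin n → Lp ℂ 2 (volume.restrict U), (∃ v, IsTest U v ∧ ∀ k,
    g k =ᵐ[volume.restrict U] fun z => (starRingEnd ℂ) ((B6b_w φ τ z : ℂ)⁻¹ * dzb v z (ee k))) →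
    ∀ j k, inner ℂ (g k) (F j) = inner ℂ (g j) (F k)}
  zero_mem' := by
    intro g _ j k
    simp
  add_mem' := by
    intro a b ha hb g hg j k
    have h1 := ha g hg j k
    have h2 := hb g hg j k
    simp only [PiLp.add_apply, inner_add_right, h1, h2]
  smul_mem' := by
    intro c a ha g hg j k
    have h1 := ha g hg j k
    simp only [PiLp.smul_apply, inner_smul_right, h1]

theorem B6b_N_closed (U : Set (Cn n)) (φ τ : Cn n → ℝ) :
    IsClosed (B6b_N U φ τ : Set (PiLp 2 (fun _ : Fin n => Lp ℂ 2 (volume.restrict U)))) := by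
  have : (B6b_N U φ τ : Set (PiLp 2 (fun _ : Fin n => Lp ℂ 2 (volume.restrict U)))) =
    {F | ∀ g : Fin n → Lp ℂ 2 (volume.restrict U), (∃ v, IsTest U v ∧ ∀ k,
    g k =ᵐ[volume.restrict U] fun z => (starRingEnd ℂ) ((B6b_w φ τ z : ℂ)⁻¹ * dzb v z (ee k))) →
    ∀ j k, inner ℂ (g k) (F j) = inner ℂ (g j) (F k)} := rfl
  rw [this]
  simp only [ofPred_forall]
  refine isClosed_iInter fun g => isClosed_iInter fun _ => isClosed_iInter fun j =>
    isClosed_iInter fun k => ?_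
  exact isClosed_eq (by fun_prop) (by fun_prop)

theorem B6b_test_memLp {U : Set (Cn n)} (hU : IsOpen U) {v : Cn n → ℂ} (hv : IsTest U v)
    {c : Cn n → ℝ} (hc : ContinuousOn c U) (k : Fin n) :
    MemLp (fun z => (c z : ℂ) * dzb v z (ee k)) 2 (volume.restrict U) := by
  refine B6b_memLp hU ?_ hv.2.1 hv.2.2 ?_
  · exact (Complex.continuous_ofReal.comp_continuousOn hc).mul
      (B6b_cont_dzb (hv.1.of_le (by exact_mod_cast le_top)) _).continuousOn
  · intro z hz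
    rw [B6b_dzb_zero hz, mul_zero]

theorem B6b_setInt {U : Set (Cn n)} {f : Cn n → ℂ} (h : ∀ z, z ∉ U → f z = 0) :
    ∫ z, f z = ∫ z in U, f z :=
  (setIntegral_eq_integral_of_forall_compl_eq_zero (fun z hz => h z hz)).symm

theorem B6b_mem_N {U : Set (Cn n)} (hU : IsOpen U) {φ τ : Cn n → ℝ} (hφ : ContinuousOn φ U)
    (hτ : ContinuousOn τ U) {F : PiLp 2 (fun _ : Fin n => Lp ℂ 2 (volume.restrict U))}
    (hF : F ∈ B6b_N U φ τ) :
    WeakClosed U (fun z j => (B6b_w φ τ z : ℂ)⁻¹ * (F j : Cn n → ℂ) z) := by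
  intro v hv j k
  have hwc := B6b_w_cont hφ hτ
  have hinv : ContinuousOn (fun z => (B6b_w φ τ z)⁻¹) U :=
    hwc.inv₀ fun z _ => (B6b_w_pos φ τ z).ne'
  have hm : ∀ k, MemLp (fun z => (starRingEnd ℂ) ((B6b_w φ τ z : ℂ)⁻¹ * dzb v z (ee k))) 2
      (volume.restrict U) := by
    intro k
    have h := (B6b_test_memLp hU hv hinv k).star
    refine h.ae_eq (ae_of_all _ fun z => ?_)
    simp
  have hg : ∀ k, (hm k).toLp _ =ᵐ[volume.restrict U] fun z =>
      (starRingEnd ℂ) ((B6b_w φ τ z : ℂ)⁻¹ * dzb v z (ee k)) := fun k => (hm k).coeFn_toLp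
  have key := hF (fun k => (hm k).toLp _) ⟨v, hv, hg⟩ j k
  rw [B6b_inner (hg k) (EventuallyEq.refl _ _), B6b_inner (hg j) (EventuallyEq.refl _ _)] at key
  have h0 : ∀ (k : Fin n) (z : Cn n), z ∉ U → dzb v z (ee k) = 0 :=
    fun k z hz => B6b_dzb_zero (fun h => hz (hv.2.2 h)) _
  rw [B6b_setInt (U := U) (fun z hz => by rw [h0 k z hz, mul_zero]),
    B6b_setInt (U := U) (fun z hz => by rw [h0 j z hz, mul_zero])]
  simp only [Complex.conj_conj] at key
  convert key using 1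
  · refine integral_congr_ae (ae_of_all _ fun z => ?_)
    ring
  · refine integral_congr_ae (ae_of_all _ fun z => ?_)
    ring

theorem B6b_test_mem_N {U : Set (Cn n)} (hU : IsOpen U) {φ τ : Cn n → ℝ}
    {v : Cn n → ℂ} (hv : IsTest U v)
    {X : PiLp 2 (fun _ : Fin n => Lp ℂ 2 (volume.restrict U))}
    (hX : ∀ j, X j =ᵐ[volume.restrict U] fun z => (B6b_w φ τ z : ℂ) * dzb v z (ee j)) :
    X ∈ B6b_N U φ τ := by
  rintro g ⟨u, hu, hg⟩ j k
  rw [B6b_inner (hg k) (hX j), B6b_inner (hg j) (hX k)]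
  have h1 : WeakClosed U fun z j => dzb v z (ee j) :=
    (weakDbar_of_contDiffOn hU ((hv.1.of_le (by exact_mod_cast le_top)).contDiffOn)).closed
  have h2 := h1 u hu j k
  have h0 : ∀ (k : Fin n) (z : Cn n), z ∉ U → dzb u z (ee k) = 0 :=
    fun k z hz => B6b_dzb_zero (fun h => hz (hu.2.2 h)) _
  rw [B6b_setInt (U := U) (fun z hz => by rw [h0 k z hz, mul_zero]),
    B6b_setInt (U := U) (fun z hz => by rw [h0 j z hz, mul_zero])] at h2
  convert h2 using 1
  · refine integral_congr_ae (ae_of_all _ fun z => ?_)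
    have : (B6b_w φ τ z : ℂ) ≠ 0 := by exact_mod_cast (B6b_w_pos φ τ z).ne'
    simp only [Complex.conj_conj]
    field_simp
  · refine integral_congr_ae (ae_of_all _ fun z => ?_)
    have : (B6b_w φ τ z : ℂ) ≠ 0 := by exact_mod_cast (B6b_w_pos φ τ z).ne'
    simp only [Complex.conj_conj]
    field_simp

theorem B6b_sum_inner {μ : Measure (Cn n)} (A X : Fin n → Lp ℂ 2 μ) :
    ∑ j, inner ℂ (A j) (X j) = ∫ z, ∑ j, inner ℂ (A j z) (X j z) ∂μ := by
  rw [integral_finsetSum]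
  · rfl
  · intro j _
    exact L2.integrable_inner (A j) (X j)

theorem B6b_CS {μ : Measure (Cn n)} {G A B : Cn n → ℝ≥0∞} (hG : AEMeasurable G μ)
    (hA : AEMeasurable A μ) (hAt : ∀ z, A z ≠ ⊤) (h : ∀ᵐ z ∂μ, G z ^ 2 ≤ A z * B z) :
    (∫⁻ z, G z ∂μ) ^ 2 ≤ (∫⁻ z, A z ∂μ) * ∫⁻ z, B z ∂μ := by
  have hf : AEMeasurable (fun z => A z ^ (1 / 2 : ℝ)) μ := hA.pow_const _
  have hg : AEMeasurable (fun z => G z / A z ^ (1 / 2 : ℝ)) μ := hG.div hf
  have h1 := ENNReal.lintegral_mul_le_Lp_mul_Lq μ Real.HolderConjugate.two_two hf hg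
  have h2 : ∫⁻ z, G z ∂μ ≤ ∫⁻ z, ((fun z => A z ^ (1 / 2 : ℝ)) *
      fun z => G z / A z ^ (1 / 2 : ℝ)) z ∂μ := by
    refine lintegral_mono_ae ?_
    filter_upwards [h] with z hz
    simp only [Pi.mul_apply]
    by_cases h0 : A z = 0
    · rw [h0, zero_mul] at hz
      have : G z = 0 := by simpa using hz
      rw [this]; exact zero_le
    · have ha : A z ^ (1 / 2 : ℝ) ≠ 0 := by
        simp [h0]
      have hb : A z ^ (1 / 2 : ℝ) ≠ ⊤ := ENNReal.rpow_ne_top_of_nonneg (by norm_num) (hAt z)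
      rw [ENNReal.mul_div_cancel ha hb]
  have h3 : ∫⁻ z, (A z ^ (1 / 2 : ℝ)) ^ (2 : ℝ) ∂μ = ∫⁻ z, A z ∂μ := by
    refine lintegral_congr fun z => ?_
    rw [← ENNReal.rpow_mul]; norm_num
  have h4 : ∫⁻ z, (G z / A z ^ (1 / 2 : ℝ)) ^ (2 : ℝ) ∂μ ≤ ∫⁻ z, B z ∂μ := by
    refine lintegral_mono_ae ?_
    filter_upwards [h] with z hz
    rw [ENNReal.div_rpow_of_nonneg _ _ (by norm_num), ← ENNReal.rpow_mul]
    norm_num
    refine ENNReal.div_le_of_le_mul' hz
  rw [h3] at h1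
  calc (∫⁻ z, G z ∂μ) ^ 2 ≤ ((∫⁻ z, A z ∂μ) ^ (1 / (2:ℝ)) *
        (∫⁻ z, (G z / A z ^ (1 / 2 : ℝ)) ^ (2 : ℝ) ∂μ) ^ (1 / (2:ℝ))) ^ 2 :=
        pow_le_pow_left' (h2.trans h1) 2
    _ = (∫⁻ z, A z ∂μ) * ∫⁻ z, (G z / A z ^ (1 / 2 : ℝ)) ^ (2 : ℝ) ∂μ := by
        rw [mul_pow, ← ENNReal.rpow_natCast, ← ENNReal.rpow_natCast, ← ENNReal.rpow_mul,
          ← ENNReal.rpow_mul]
        norm_num
    _ ≤ _ := by gcongr


theorem B6b_adj {U : Set (Cn n)} {Φ φ τ : Cn n → ℝ} (W : Wt U Φ φ τ)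
    {α : Cn n → Fin n → ℂ} (hα : α ∈ B6b_D U)
    {A F : PiLp 2 (fun _ : Fin n => Lp ℂ 2 (volume.restrict U))}
    (hA : ∀ j, A j =ᵐ[volume.restrict U] fun z => (B6b_w φ τ z : ℂ) * α z j)
    (hAF : A - F ∈ (B6b_N U φ τ)ᗮ) :
    WeakAdj U φ τ (fun z j => (B6b_w φ τ z : ℂ)⁻¹ * (F j : Cn n → ℂ) z) (B6b_T φ τ α) := by
  have hU := W.isOpen
  have hwc := B6b_w_cont W.cφ.continuousOn W.cτ.continuousOn
  obtain ⟨hαc, K, hK, hKU, hK0⟩ := hα
  have hcs : ∀ j, HasCompactSupport (fun z => α z j) ∧ tsupport (fun z => α z j) ⊆ U := by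
    intro j
    obtain ⟨-, h2, h3⟩ := B6b_cont hU (hαc j).continuous.continuousOn hK hKU
      (fun z hz => by rw [hK0 z hz]; rfl)
    exact ⟨h2, h3.trans hKU⟩
  have h1 : WeakAdj U φ τ α (B6b_T φ τ α) :=
    weakAdj_smooth W α hαc (fun j => (hcs j).1) (fun j => (hcs j).2)
  intro v hv
  rw [← h1 v hv]
  have hm : ∀ j, MemLp (fun z => (B6b_w φ τ z : ℂ) * dzb v z (ee j)) 2 (volume.restrict U) :=
    fun j => B6b_test_memLp hU hv hwc j
  set X : PiLp 2 (fun _ : Fin n => Lp ℂ 2 (volume.restrict U)) :=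
    WithLp.toLp 2 (fun j => (hm j).toLp _) with hXdef
  have hX : ∀ j, X j =ᵐ[volume.restrict U] fun z => (B6b_w φ τ z : ℂ) * dzb v z (ee j) :=
    fun j => (hm j).coeFn_toLp
  have hXN := B6b_test_mem_N hU hv hX
  have h2 : inner ℂ X (A - F) = 0 := (Submodule.mem_orthogonal _ _).1 hAF X hXN
  have h3 : inner ℂ (A - F) X = 0 := inner_eq_zero_symm.1 h2
  rw [inner_sub_left, sub_eq_zero, PiLp.inner_apply, PiLp.inner_apply,
    B6b_sum_inner (fun j => A j) (fun j => X j), B6b_sum_inner (fun j => F j) (fun j => X j)] at h3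
  have hAall : ∀ᵐ z ∂(volume.restrict U), ∀ j, (A j : Cn n → ℂ) z = (B6b_w φ τ z : ℂ) * α z j :=
    ae_all_iff.2 hA
  have hXall : ∀ᵐ z ∂(volume.restrict U), ∀ j, (X j : Cn n → ℂ) z
      = (B6b_w φ τ z : ℂ) * dzb v z (ee j) := ae_all_iff.2 hX
  have e1 : ∫ z in U, (∑ j, dzb v z (ee j) * (starRingEnd ℂ) (α z j)) * Real.exp (-(φ z - τ z))
      = ∫ z in U, ∑ j, inner ℂ ((A j : Cn n → ℂ) z) ((X j : Cn n → ℂ) z) := by
    refine integral_congr_ae ?_
    filter_upwards [hAall, hXall] with z h4 h5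
    rw [← B6b_w_sq, Finset.sum_mul]
    refine Finset.sum_congr rfl fun j _ => ?_
    rw [h4, h5, RCLike.inner_apply, map_mul, Complex.conj_ofReal]
    push_cast
    ring
  have e2 : ∫ z in U, (∑ j, dzb v z (ee j) * (starRingEnd ℂ)
      ((B6b_w φ τ z : ℂ)⁻¹ * (F j : Cn n → ℂ) z)) * Real.exp (-(φ z - τ z))
      = ∫ z in U, ∑ j, inner ℂ ((F j : Cn n → ℂ) z) ((X j : Cn n → ℂ) z) := by
    refine integral_congr_ae ?_
    filter_upwards [hXall] with z h5
    have hw : (B6b_w φ τ z : ℂ) ≠ 0 := by exact_mod_cast (B6b_w_pos φ τ z).ne'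
    rw [← B6b_w_sq, Finset.sum_mul]
    refine Finset.sum_congr rfl fun j _ => ?_
    rw [h5, RCLike.inner_apply, map_mul, map_inv₀, Complex.conj_ofReal]
    push_cast
    field_simp
  rw [e1, e2]
  exact h3.symm

theorem B6b_est {U : Set (Cn n)} {Φ φ τ : Cn n → ℝ} (W : Wt U Φ φ τ)
    (β : Cn n → Fin n → ℂ) (q : Cn n → ℝ)
    (hqm : AEMeasurable q (volume.restrict U)) (hq0 : ∀ z ∈ U, 0 ≤ q z)
    (hq : ∀ z ∈ U, ∀ X, ‖formEval (β z) X‖ ^ 2 ≤ q z * levi Φ z X)
    (hfin : ∫⁻ z in U, ENNReal.ofReal (q z * Real.exp (-(φ z - 2 * τ z))) ≠ ⊤)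
    {α : Cn n → Fin n → ℂ} (hα : α ∈ B6b_D U)
    {A F B : PiLp 2 (fun _ : Fin n => Lp ℂ 2 (volume.restrict U))}
    {T : Lp ℂ 2 (volume.restrict U)}
    (hA : ∀ j, A j =ᵐ[volume.restrict U] fun z => (B6b_w φ τ z : ℂ) * α z j)
    (hB : ∀ j, B j =ᵐ[volume.restrict U] fun z => (B6b_w φ τ z : ℂ) * β z j)
    (hT : T =ᵐ[volume.restrict U] fun z => (B6b_v φ τ z : ℂ) * B6b_T φ τ α z)
    (hF : F ∈ B6b_N U φ τ) (hAF : A - F ∈ (B6b_N U φ τ)ᗮ) :
    ‖inner ℂ B F‖ ^ 2 ≤ (2 * (∫⁻ z in U, ENNReal.ofReal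
      (q z * Real.exp (-(φ z - 2 * τ z)))).toReal) * ‖T‖ ^ 2 := by
  have hU := W.isOpen
  have hUm := hU.measurableSet
  have hwc := B6b_w_cont W.cφ.continuousOn W.cτ.continuousOn
  have hadj := B6b_adj W hα hA hAF
  have hWC := B6b_mem_N hU W.cφ.continuousOn W.cτ.continuousOn hF
  have hinv : ContinuousOn (fun z => (B6b_w φ τ z)⁻¹) U :=
    hwc.inv₀ fun z _ => (B6b_w_pos φ τ z).ne'
  have hinvm : AEStronglyMeasurable (fun z => (B6b_w φ τ z : ℂ)⁻¹) (volume.restrict U) := by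
    have := (Complex.continuous_ofReal.comp_continuousOn hinv).aestronglyMeasurable hUm
      (μ := volume)
    simpa [Function.comp_def] using this
  have hTn : ENNReal.ofReal (‖T‖ ^ 2) = ∫⁻ z in U, ENNReal.ofReal (‖B6b_T φ τ α z‖ ^ 2
      * Real.exp (-(φ z - 2 * τ z))) := by
    rw [B6b_norm_sq' hT]
    refine lintegral_congr fun z => ?_
    rw [norm_mul, mul_pow, ← B6b_v_sq, Complex.norm_real, Real.norm_eq_abs, sq_abs]
    ring_nf
  have hap := apriori W (fun z j => (B6b_w φ τ z : ℂ)⁻¹ * (F j : Cn n → ℂ) z) (B6b_T φ τ α)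
    (fun j => hinvm.mul (Lp.aestronglyMeasurable (F j)))
    ((B6b_T_cont hU W.cφ W.cτ hα.1).aestronglyMeasurable hUm)
    (by
      intro j
      have h1 : ∫⁻ z in U, ENNReal.ofReal (‖(B6b_w φ τ z : ℂ)⁻¹ * (F j : Cn n → ℂ) z‖ ^ 2 *
          Real.exp (-(φ z - τ z))) = ENNReal.ofReal (‖F j‖ ^ 2) := by
        rw [B6b_norm_sq]
        refine lintegral_congr fun z => ?_
        have hw := (B6b_w_pos φ τ z).ne'
        rw [norm_mul, mul_pow, ← B6b_w_sq, norm_inv, Complex.norm_real, Real.norm_eq_abs,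
          inv_pow, sq_abs]
        congr 1
        field_simp
      rw [h1]; exact ENNReal.ofReal_ne_top)
    (by rw [← hTn]; exact ENNReal.ofReal_ne_top) hadj hWC
  rw [← hTn] at hap
  have hBall : ∀ᵐ z ∂(volume.restrict U), ∀ j, (B j : Cn n → ℂ) z = (B6b_w φ τ z : ℂ) * β z j :=
    ae_all_iff.2 hB
  have hint : Integrable (fun z => ∑ j, inner ℂ ((B j : Cn n → ℂ) z) ((F j : Cn n → ℂ) z))
      (volume.restrict U) :=
    integrable_finsetSum _ fun j _ => L2.integrable_inner (B j) (F j)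
  have hin : inner ℂ B F = ∫ z in U, ∑ j, inner ℂ ((B j : Cn n → ℂ) z) ((F j : Cn n → ℂ) z) := by
    rw [PiLp.inner_apply, B6b_sum_inner (fun j => B j) (fun j => F j)]
  have hmem : ∀ᵐ z ∂(volume.restrict U), z ∈ U := ae_restrict_mem hUm
  have hqm' : AEMeasurable (fun z => ENNReal.ofReal (q z * Real.exp (-(φ z - 2 * τ z))))
      (volume.restrict U) := by
    refine ENNReal.measurable_ofReal.comp_aemeasurable (hqm.mul ?_)
    have : ContinuousOn (fun z => Real.exp (-(φ z - 2 * τ z))) U :=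
      Real.continuous_exp.comp_continuousOn
        (W.cφ.continuousOn.sub (continuousOn_const.mul W.cτ.continuousOn)).neg
    exact this.aemeasurable hUm
  have hcs := B6b_CS (μ := volume.restrict U)
    (G := fun z => ‖∑ j, inner ℂ ((B j : Cn n → ℂ) z) ((F j : Cn n → ℂ) z)‖ₑ)
    (A := fun z => ENNReal.ofReal (q z * Real.exp (-(φ z - 2 * τ z))))
    (B := fun z => ENNReal.ofReal (levi Φ z (fun j => (B6b_w φ τ z : ℂ)⁻¹ * (F j : Cn n → ℂ) z)
      * Real.exp (-φ z))) hint.aestronglyMeasurable.enorm hqm' (fun z => ENNReal.ofReal_ne_top)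
    (by
      filter_upwards [hBall, hmem] with z h1 hz
      have hw := (B6b_w_pos φ τ z).ne'
      have hw' : (B6b_w φ τ z : ℂ) ≠ 0 := by exact_mod_cast hw
      have e1 : (∑ j, inner ℂ ((B j : Cn n → ℂ) z) ((F j : Cn n → ℂ) z))
          = (starRingEnd ℂ) ((Real.exp (-(φ z - τ z)) : ℂ) * formEval (β z)
            (fun j => (B6b_w φ τ z : ℂ)⁻¹ * (F j : Cn n → ℂ) z)) := by
        unfold formEval
        rw [map_mul, map_sum, Complex.conj_ofReal, ← B6b_w_sq, Finset.mul_sum]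
        refine Finset.sum_congr rfl fun j _ => ?_
        rw [h1, RCLike.inner_apply]
        simp only [map_mul, map_inv₀, Complex.conj_conj, Complex.conj_ofReal]
        push_cast
        field_simp
      rw [← ofReal_norm, ← ENNReal.ofReal_pow (norm_nonneg _), e1, RCLike.norm_conj, norm_mul,
        Complex.norm_real, Real.norm_eq_abs, mul_pow, sq_abs,
        ← ENNReal.ofReal_mul (mul_nonneg (hq0 z hz) (Real.exp_pos _).le)]
      refine ENNReal.ofReal_le_ofReal ?_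
      have h2 := hq z hz (fun j => (B6b_w φ τ z : ℂ)⁻¹ * (F j : Cn n → ℂ) z)
      have h3 : Real.exp (-(φ z - τ z)) ^ 2 = Real.exp (-(φ z - 2 * τ z)) * Real.exp (-φ z) := by
        rw [← Real.exp_add, sq, ← Real.exp_add]
        congr 1; ring
      rw [h3]
      calc _ ≤ Real.exp (-(φ z - 2 * τ z)) * Real.exp (-φ z) * (q z * levi Φ z
            (fun j => (B6b_w φ τ z : ℂ)⁻¹ * (F j : Cn n → ℂ) z)) := by gcongr
        _ = _ := by ring)
  have h5 : ‖inner ℂ B F‖ₑ ≤ ∫⁻ z in U,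
      ‖∑ j, inner ℂ ((B j : Cn n → ℂ) z) ((F j : Cn n → ℂ) z)‖ₑ := by
    rw [hin]; exact enorm_integral_le_lintegral_enorm _
  have h6 : ENNReal.ofReal (‖inner ℂ B F‖ ^ 2) ≤ (∫⁻ z in U, ENNReal.ofReal
      (q z * Real.exp (-(φ z - 2 * τ z)))) * (2 * ENNReal.ofReal (‖T‖ ^ 2)) := by
    rw [ENNReal.ofReal_pow (norm_nonneg _), ofReal_norm]
    calc _ ≤ (∫⁻ z in U, ‖∑ j, inner ℂ ((B j : Cn n → ℂ) z) ((F j : Cn n → ℂ) z)‖ₑ) ^ 2 :=
          pow_le_pow_left' h5 2
      _ ≤ _ := hcs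
      _ ≤ _ := by gcongr
  have h7 := ENNReal.toReal_mono (ENNReal.mul_ne_top hfin
    (ENNReal.mul_ne_top (by norm_num) ENNReal.ofReal_ne_top)) h6
  have h8 : (2 : ℝ≥0∞).toReal = 2 := by norm_num
  rw [ENNReal.toReal_ofReal (by positivity), ENNReal.toReal_mul, ENNReal.toReal_mul,
    ENNReal.toReal_ofReal (by positivity), h8] at h7
  linarith


/-- Existence. `H₁ = L²(U, e^{-(φ-2τ)})`, `H₂ = L²(U, e^{-(φ-τ)}; ℂⁿ)` (as `Lp` of the measures
`(volume.restrict U).withDensity …`, values in `EuclideanSpace ℂ (Fin n)`), `N ⊆ H₂` the closed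
subspace of weakly closed forms, `D` = the space of `C²` forms with compact support in `U`,
`t` = explicit `T*`, `a` = inclusion; apply `riesz_lemma`: for `α' ∈ N` with `a α - α' ⊥ N` one has
`WeakAdj U φ τ α' (t α)` (since `∂̄v ∈ N` for test functions `v`), so by `apriori`
`∫ levi Φ (α') e^{-φ} ≤ 2 ‖t α‖²`, and
`|⟪β,α'⟫|² ≤ (∫ √q √(levi Φ(α')) e^{-(φ-τ)})² ≤ ∫ q e^{-(φ-2τ)} · ∫ levi Φ(α') e^{-φ}`
(note `formEval (β z) (α' z) = ∑ β_j conj α'_j`). The identity `⟪u, t α⟫ = ⟪β, a α⟫` with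
`a = conj(v) e^{φ-τ} e_j` is `WeakDbar U u β`. -/
theorem exists_three_weights {U : Set (Cn n)} {Φ φ τ : Cn n → ℝ} (W : Wt U Φ φ τ)
    (β : Cn n → Fin n → ℂ) (q : Cn n → ℝ)
    (hβm : ∀ j, AEStronglyMeasurable (fun z => β z j) (volume.restrict U))
    (hβ : ∀ j, ∫⁻ z in U, ENNReal.ofReal (‖β z j‖ ^ 2 * Real.exp (-(φ z - τ z))) ≠ ⊤)
    (hcl : WeakClosed U β) (hqm : AEMeasurable q (volume.restrict U)) (hq0 : ∀ z ∈ U, 0 ≤ q z)
    (hq : ∀ z ∈ U, ∀ X, ‖formEval (β z) X‖ ^ 2 ≤ q z * levi Φ z X)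
    (hfin : ∫⁻ z in U, ENNReal.ofReal (q z * Real.exp (-(φ z - 2 * τ z))) ≠ ⊤) :
    ∃ u : Cn n → ℂ, AEStronglyMeasurable u (volume.restrict U) ∧ WeakDbar U u β ∧
      ∫⁻ z in U, ENNReal.ofReal (‖u z‖ ^ 2 * Real.exp (-(φ z - 2 * τ z)))
        ≤ 2 * ∫⁻ z in U, ENNReal.ofReal (q z * Real.exp (-(φ z - 2 * τ z))) := by
  have hU := W.isOpen
  have hUm := hU.measurableSet
  have hwc := B6b_w_cont W.cφ.continuousOn W.cτ.continuousOn
  have hvc := B6b_v_cont W.cφ.continuousOn W.cτ.continuousOn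
  have hwc' : ContinuousOn (fun z => (B6b_w φ τ z : ℂ)) U :=
    Complex.continuous_ofReal.comp_continuousOn hwc
  have hvc' : ContinuousOn (fun z => (B6b_v φ τ z : ℂ)) U :=
    Complex.continuous_ofReal.comp_continuousOn hvc
  -- membership
  have hma : ∀ (j : Fin n) (α : B6b_D U),
      MemLp (fun z => (B6b_w φ τ z : ℂ) * (α : Cn n → Fin n → ℂ) z j) 2 (volume.restrict U) := by
    rintro j ⟨α, hαc, K, hK, hKU, hK0⟩
    refine B6b_memLp hU (hwc'.mul (hαc j).continuous.continuousOn) hK hKU ?_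
    intro z hz
    simp [hK0 z hz]
  have hmt : ∀ (α : B6b_D U),
      MemLp (fun z => (B6b_v φ τ z : ℂ) * B6b_T φ τ (α : Cn n → Fin n → ℂ) z) 2
        (volume.restrict U) := by
    rintro ⟨α, hαc, K, hK, hKU, hK0⟩
    refine B6b_memLp hU (hvc'.mul (B6b_T_cont hU W.cφ W.cτ hαc)) hK hKU ?_
    intro z hz
    simp [B6b_T_zero φ τ hK.isClosed hK0 z hz]
  have hmβ : ∀ j, MemLp (fun z => (B6b_w φ τ z : ℂ) * β z j) 2 (volume.restrict U) := by
    intro j
    have hsm : AEStronglyMeasurable (fun z => (B6b_w φ τ z : ℂ) * β z j) (volume.restrict U) :=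
      (hwc'.aestronglyMeasurable hUm).mul (hβm j)
    refine (memLp_two_iff_integrable_sq_norm hsm).2 ?_
    have h1 : ∀ z, ‖(B6b_w φ τ z : ℂ) * β z j‖ ^ 2 = ‖β z j‖ ^ 2 * Real.exp (-(φ z - τ z)) := by
      intro z
      rw [norm_mul, mul_pow, ← B6b_w_sq, Complex.norm_real, Real.norm_eq_abs, sq_abs]
      ring
    refine ⟨hsm.norm.pow 2, ?_⟩
    rw [hasFiniteIntegral_iff_norm]
    refine lt_of_le_of_lt (le_of_eq ?_) (lt_top_iff_ne_top.2 (hβ j))
    refine lintegral_congr fun z => ?_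
    rw [h1, Real.norm_of_nonneg (by positivity)]
  -- linear maps
  let t : B6b_D U →ₗ[ℂ] Lp ℂ 2 (volume.restrict U) :=
    B6b_lin (fun (α : B6b_D U) z => (B6b_v φ τ z : ℂ) * B6b_T φ τ (α : Cn n → Fin n → ℂ) z) hmt
      (fun a b z => by
        have := B6b_T_add φ τ a.2.1 b.2.1 z
        simp only [Submodule.coe_add, this]
        ring)
      (fun c a z => by
        have := B6b_T_smul φ τ a.2.1 c z
        simp only [Submodule.coe_smul, this]
        ring)
  let aj : Fin n → (B6b_D U →ₗ[ℂ] Lp ℂ 2 (volume.restrict U)) := fun j =>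
    B6b_lin (fun (α : B6b_D U) z => (B6b_w φ τ z : ℂ) * (α : Cn n → Fin n → ℂ) z j) (hma j)
      (fun a b z => by
        simp only [Submodule.coe_add, Pi.add_apply]
        ring)
      (fun c a z => by
        simp only [Submodule.coe_smul, Pi.smul_apply, smul_eq_mul]
        ring)
  let a : B6b_D U →ₗ[ℂ] PiLp 2 (fun _ : Fin n => Lp ℂ 2 (volume.restrict U)) :=
    (WithLp.linearEquiv 2 ℂ (Fin n → Lp ℂ 2 (volume.restrict U))).symm.toLinearMap ∘ₗ
      LinearMap.pi aj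
  have ht : ∀ α : B6b_D U, t α =ᵐ[volume.restrict U] fun z =>
      (B6b_v φ τ z : ℂ) * B6b_T φ τ (α : Cn n → Fin n → ℂ) z := fun α => B6b_lin_ae _ _ _ _ α
  have ha : ∀ (α : B6b_D U) (j : Fin n), ((a α) j : Cn n → ℂ) =ᵐ[volume.restrict U] fun z =>
      (B6b_w φ τ z : ℂ) * (α : Cn n → Fin n → ℂ) z j := by
    intro α j
    exact (hma j α).coeFn_toLp
  let b : PiLp 2 (fun _ : Fin n => Lp ℂ 2 (volume.restrict U)) :=
    WithLp.toLp 2 (fun j => (hmβ j).toLp _)
  have hb : ∀ j, b j =ᵐ[volume.restrict U] fun z => (B6b_w φ τ z : ℂ) * β z j :=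
    fun j => (hmβ j).coeFn_toLp
  have hbN : b ∈ B6b_N U φ τ := by
    rintro g ⟨u, hu, hg⟩ j k
    rw [B6b_inner (hg k) (hb j), B6b_inner (hg j) (hb k)]
    have h2 := hcl u hu j k
    have h0 : ∀ (k : Fin n) (z : Cn n), z ∉ U → dzb u z (ee k) = 0 :=
      fun k z hz => B6b_dzb_zero (fun h => hz (hu.2.2 h)) _
    rw [B6b_setInt (U := U) (fun z hz => by rw [h0 k z hz, mul_zero]),
      B6b_setInt (U := U) (fun z hz => by rw [h0 j z hz, mul_zero])] at h2
    convert h2 using 1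
    · refine integral_congr_ae (ae_of_all _ fun z => ?_)
      have : (B6b_w φ τ z : ℂ) ≠ 0 := by exact_mod_cast (B6b_w_pos φ τ z).ne'
      simp only [Complex.conj_conj]
      field_simp
    · refine integral_congr_ae (ae_of_all _ fun z => ?_)
      have : (B6b_w φ τ z : ℂ) ≠ 0 := by exact_mod_cast (B6b_w_pos φ τ z).ne'
      simp only [Complex.conj_conj]
      field_simp
  obtain ⟨u₀, hu₀, hid⟩ := riesz_lemma t a (B6b_N U φ τ) (B6b_N_closed U φ τ) b hbN
    (C := 2 * (∫⁻ z in U, ENNReal.ofReal (q z * Real.exp (-(φ z - 2 * τ z)))).toReal)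
    (by positivity)
    (fun α α' hα' hort => B6b_est W β q hqm hq0 hq hfin α.2 (ha α) hb (ht α) hα' hort)
  have hvinv : ContinuousOn (fun z => (B6b_v φ τ z : ℂ)⁻¹) U :=
    hvc'.inv₀ fun z _ => by exact_mod_cast (B6b_v_pos φ τ z).ne'
  refine ⟨fun z => (B6b_v φ τ z : ℂ)⁻¹ * (u₀ : Cn n → ℂ) z,
    (hvinv.aestronglyMeasurable hUm).mul (Lp.aestronglyMeasurable u₀), ?_, ?_⟩
  · -- weak dbar
    intro ψ hψ j
    classical
    -- the test form
    have hK : IsCompact (tsupport ψ) := hψ.2.1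
    have hKU : tsupport ψ ⊆ U := hψ.2.2
    have hψ2 : ContDiff ℝ 2 ψ := by exact_mod_cast (contDiff_infty.1 hψ.1 2)
    have hexp : ContDiffOn ℝ 2 (fun z => ((Real.exp (φ z - τ z) : ℝ) : ℂ)) U := by
      have h1 : ContDiffOn ℝ 2 (fun z => Real.exp (φ z - τ z)) U := (W.cφ.sub W.cτ).exp
      exact Complex.ofRealCLM.contDiff.comp_contDiffOn h1
    set s : Cn n → ℂ := fun z => (starRingEnd ℂ) (ψ z) * (Real.exp (φ z - τ z) : ℝ) with hs
    have hs0 : ∀ z, z ∉ tsupport ψ → s z = 0 := by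
      intro z hz
      simp [hs, image_eq_zero_of_notMem_tsupport hz]
    have hconj : ContDiff ℝ 2 fun z => (starRingEnd ℂ) (ψ z) := by
      exact Complex.conjCLE.contDiff.comp hψ2
    have hsU : ContDiffOn ℝ 2 s U := hconj.contDiffOn.mul hexp
    have hsC : ContDiff ℝ 2 s := by
      rw [contDiff_iff_contDiffAt]
      intro z
      by_cases hz : z ∈ tsupport ψ
      · exact (hsU z (hKU hz)).contDiffAt (hU.mem_nhds (hKU hz))
      · have h2 : s =ᶠ[𝓝 z] fun _ => (0 : ℂ) := by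
          filter_upwards [(isClosed_tsupport ψ).isOpen_compl.mem_nhds hz] with w hw
          exact hs0 w hw
        exact contDiffAt_const.congr_of_eventuallyEq h2
    let α : B6b_D U := ⟨fun z => Pi.single j (s z), by
      refine ⟨fun k => ?_, tsupport ψ, hK, hKU, fun z hz => by simp [hs0 z hz]⟩
      by_cases hk : k = j
      · subst hk; simpa using hsC
      · simpa [Pi.single_apply, hk] using contDiff_const⟩
    have h1 := hid α
    rw [PiLp.inner_apply] at h1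
    have hαj : ∀ z, (α : Cn n → Fin n → ℂ) z j = s z := fun z => by simp [α]
    have hαk : ∀ z k, k ≠ j → (α : Cn n → Fin n → ℂ) z k = 0 := fun z k hk => by
      simp [α, Pi.single_apply, hk]
    rw [Finset.sum_eq_single j (fun k _ hk => ?_) (fun h => absurd (Finset.mem_univ j) h)] at h1
    swap
    · rw [B6b_inner (hb k) (ha α k)]
      simp [hαk _ k hk]
    rw [B6b_inner (hb j) (ha α j), B6b_inner (EventuallyEq.refl _ _) (ht α)] at h1
    have hT : ∀ z ∈ U, B6b_T φ τ (α : Cn n → Fin n → ℂ) z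
        = - ((Real.exp (φ z - 2 * τ z) : ℝ) * (starRingEnd ℂ) (dzb ψ z (ee j))) := by
      intro z hz
      unfold B6b_T
      rw [Finset.sum_eq_single j (fun k _ hk => ?_) (fun h => absurd (Finset.mem_univ j) h)]
      swap
      · have h3 : (fun w => (α : Cn n → Fin n → ℂ) w k) = fun _ => (0 : ℂ) := by
          funext w; exact hαk w k hk
        rw [h3, hαk z k hk]
        simp [dz]
      have h3 : (fun w => (α : Cn n → Fin n → ℂ) w j) = s := by
        funext w; exact hαj w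
      have hφd : DifferentiableAt ℝ φ z :=
        ((W.cφ z hz).contDiffAt (hU.mem_nhds hz)).differentiableAt (by norm_num)
      have hτd : DifferentiableAt ℝ τ z :=
        ((W.cτ z hz).contDiffAt (hU.mem_nhds hz)).differentiableAt (by norm_num)
      have hψd : DifferentiableAt ℝ ψ z := hψ2.differentiable (by norm_num) z
      have hcd : DifferentiableAt ℝ (fun z => (starRingEnd ℂ) (ψ z)) z :=
        hconj.differentiable (by norm_num) z
      have hed : DifferentiableAt ℝ (fun z => Real.exp (φ z - τ z)) z := (hφd.sub hτd).exp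
      have hed' : DifferentiableAt ℝ (fun z => ((Real.exp (φ z - τ z) : ℝ) : ℂ)) z :=
        Complex.ofRealCLM.differentiableAt.comp z hed
      have h4 : dz s z (ee j) = (starRingEnd ℂ) (ψ z) * dz (fun z =>
          ((Real.exp (φ z - τ z) : ℝ) : ℂ)) z (ee j)
          + (Real.exp (φ z - τ z) : ℝ) * dz (fun z => (starRingEnd ℂ) (ψ z)) z (ee j) :=
        dz_mul hcd hed' _
      have h5 : dz (fun z => ((Real.exp (φ z - τ z) : ℝ) : ℂ)) z (ee j)
          = (Real.exp (φ z - τ z) : ℝ) * (ell φ z (ee j) - ell τ z (ee j)) := by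
        rw [dz_ofReal hed]
        unfold ell
        have h6 : fderiv ℝ (fun z => Real.exp (φ z - τ z)) z
            = Real.exp (φ z - τ z) • (fderiv ℝ φ z - fderiv ℝ τ z) := by
          have h7 : HasFDerivAt (fun z => φ z - τ z) (fderiv ℝ φ z - fderiv ℝ τ z) z :=
            hφd.hasFDerivAt.sub hτd.hasFDerivAt
          exact h7.exp.fderiv
        rw [h6]
        simp only [smul_apply, sub_apply, smul_eq_mul]
        push_cast
        ring
      rw [h3, hαj z, h4, h5, ← conj_dzb hψd]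
      simp only [hs]
      have h8 : (Real.exp (φ z - 2 * τ z) : ℂ) = (Real.exp (-τ z) : ℂ) * (Real.exp (φ z - τ z) : ℂ)
          := by
        rw [← Complex.ofReal_mul, ← Real.exp_add]
        congr 2; ring
      rw [h8]
      ring
    have hL : ∫ z in U, (starRingEnd ℂ) ((u₀ : Cn n → ℂ) z) * ((B6b_v φ τ z : ℂ)
        * B6b_T φ τ (α : Cn n → Fin n → ℂ) z)
        = - (starRingEnd ℂ) (∫ z in U, (B6b_v φ τ z : ℂ)⁻¹ * (u₀ : Cn n → ℂ) z
          * dzb ψ z (ee j)) := by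
      rw [← integral_conj, ← integral_neg]
      refine setIntegral_congr_fun hUm fun z hz => ?_
      have hv0 : (B6b_v φ τ z : ℂ) ≠ 0 := by exact_mod_cast (B6b_v_pos φ τ z).ne'
      have h9 : (Real.exp (φ z - 2 * τ z) : ℂ) = (B6b_v φ τ z : ℂ)⁻¹ * (B6b_v φ τ z : ℂ)⁻¹ := by
        rw [← mul_inv, ← Complex.ofReal_mul, B6b_v_sq, ← Complex.ofReal_inv, ← Real.exp_neg,
          neg_neg]
      simp only [map_mul, map_inv₀, Complex.conj_ofReal]
      rw [hT z hz, h9]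
      field_simp
    have hR : ∫ z in U, (starRingEnd ℂ) ((B6b_w φ τ z : ℂ) * β z j) * ((B6b_w φ τ z : ℂ)
        * (α : Cn n → Fin n → ℂ) z j)
        = (starRingEnd ℂ) (∫ z in U, ψ z * β z j) := by
      rw [← integral_conj]
      refine setIntegral_congr_fun hUm fun z hz => ?_
      have hw0 : (B6b_w φ τ z : ℂ) ≠ 0 := by exact_mod_cast (B6b_w_pos φ τ z).ne'
      have h9 : (Real.exp (φ z - τ z) : ℂ) = (B6b_w φ τ z : ℂ)⁻¹ * (B6b_w φ τ z : ℂ)⁻¹ := by
        rw [← mul_inv, ← Complex.ofReal_mul, B6b_w_sq, ← Complex.ofReal_inv, ← Real.exp_neg,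
          neg_neg]
      simp only [map_mul, Complex.conj_ofReal]
      rw [hαj z]
      simp only [hs]
      rw [h9]
      field_simp
    rw [hL, hR] at h1
    have h10 := congrArg (starRingEnd ℂ) h1
    rw [map_neg, Complex.conj_conj, Complex.conj_conj] at h10
    rw [B6b_setInt (U := U) (f := fun z => (B6b_v φ τ z : ℂ)⁻¹ * (u₀ : Cn n → ℂ) z
        * dzb ψ z (ee j)) (fun z hz => by
          rw [B6b_dzb_zero (fun h => hz (hKU h)), mul_zero]),
      B6b_setInt (U := U) (f := fun z => ψ z * β z j) (fun z hz => by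
          rw [image_eq_zero_of_notMem_tsupport (fun h => hz (hKU h)), zero_mul])]
    rw [← h10, neg_neg]
  · have h1 : ∫⁻ z in U, ENNReal.ofReal (‖(B6b_v φ τ z : ℂ)⁻¹ * (u₀ : Cn n → ℂ) z‖ ^ 2 *
          Real.exp (-(φ z - 2 * τ z))) = ENNReal.ofReal (‖u₀‖ ^ 2) := by
      rw [B6b_norm_sq]
      refine lintegral_congr fun z => ?_
      have hw := (B6b_v_pos φ τ z).ne'
      rw [norm_mul, mul_pow, ← B6b_v_sq, norm_inv, Complex.norm_real, Real.norm_eq_abs,
        inv_pow, sq_abs]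
      congr 1
      field_simp
    rw [h1]
    calc ENNReal.ofReal (‖u₀‖ ^ 2) ≤ ENNReal.ofReal (2 * (∫⁻ z in U, ENNReal.ofReal
          (q z * Real.exp (-(φ z - 2 * τ z)))).toReal) := ENNReal.ofReal_le_ofReal hu₀
      _ = _ := by
        rw [ENNReal.ofReal_mul (by norm_num), ENNReal.ofReal_toReal hfin]
        norm_num

end HankelSPC
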