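import Pool.Agent.Lib.MP_e1cf54_an.B2a
import Pool.Agent.Lib.MP_e1cf54_an.A5a

/-! Row B7: limits of solutions on an exhaustion (weak compactness). -/

open MeasureTheory Set Filter
open scoped ENNReal NNReal Topology ContDiff

namespace HankelSPC

variable {n : ℕ}

private lemma B7_eLpNorm_sq (μ : Measure (Cn n)) (f : Cn n → ℂ) :
    eLpNorm f 2 μ ^ 2 = ∫⁻ z, ENNReal.ofReal (‖f z‖ ^ 2) ∂μ := by
  rw [eLpNorm_eq_lintegral_rpow_enorm_toReal (by norm_num) (by norm_num)]
  rw [← ENNReal.rpow_natCast, ← ENNReal.rpow_mul]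
  have h1 : (1 / (2:ℝ≥0∞).toReal * ((2:ℕ):ℝ)) = 1 := by
    rw [ENNReal.toReal_ofNat]
    norm_num
  rw [h1, ENNReal.rpow_one]
  congr 1
  ext z
  rw [ENNReal.toReal_ofNat, ENNReal.ofReal_pow (norm_nonneg _), ofReal_norm]
  exact ENNReal.rpow_natCast _ 2

private lemma B7_dzb_cont {φ : Cn n → ℂ} (hφ : ContDiff ℝ ∞ φ) (X : Cn n) :
    Continuous fun z => dzb φ z X := by
  have h1 : Continuous (fderiv ℝ φ) := hφ.continuous_fderiv (by norm_num)
  unfold dzb
  have h2 : Continuous fun z => fderiv ℝ φ z X := h1.clm_apply continuous_const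
  have h3 : Continuous fun z => fderiv ℝ φ z (Complex.I • X) := h1.clm_apply continuous_const
  fun_prop

private lemma B7_dzb_zero {φ : Cn n → ℂ} {z : Cn n} (hz : z ∉ tsupport φ) (X : Cn n) :
    dzb φ z X = 0 := by
  unfold dzb
  rw [fderiv_of_notMem_tsupport ℝ hz]
  simp

private lemma B7_psi_cont {U : Set (Cn n)} (hU : IsOpen U) {Φ : Cn n → ℝ} (hΦ : ContinuousOn Φ U)
    {φ : Cn n → ℂ} (hφ : IsTest U φ) (X : Cn n) :
    Continuous fun z => ((Real.exp (Φ z / 2) : ℝ) : ℂ) * dzb φ z X := by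
  rw [continuous_iff_continuousAt]
  intro z
  by_cases hz : z ∈ U
  · have h1 : ContinuousAt Φ z := hΦ.continuousAt (hU.mem_nhds hz)
    have h2 : ContinuousAt (fun z => ((Real.exp (Φ z / 2) : ℝ) : ℂ)) z := by
      apply Complex.continuous_ofReal.continuousAt.comp
      apply Real.continuous_exp.continuousAt.comp
      exact h1.div_const 2
    exact h2.mul (B7_dzb_cont hφ.1 X).continuousAt
  · have hz' : z ∉ tsupport φ := fun h => hz (hφ.2.2 h)
    have hev : (fun z => ((Real.exp (Φ z / 2) : ℝ) : ℂ) * dzb φ z X) =ᶠ[𝓝 z] fun _ => 0 := by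
      filter_upwards [(isClosed_tsupport φ).isOpen_compl.mem_nhds hz'] with y hy
      rw [B7_dzb_zero hy, mul_zero]
    exact (continuousAt_congr hev).mpr continuousAt_const

private lemma B7_psi_supp {Φ : Cn n → ℝ} {φ : Cn n → ℂ} (hφ : HasCompactSupport φ) (X : Cn n) :
    HasCompactSupport fun z => ((Real.exp (Φ z / 2) : ℝ) : ℂ) * dzb φ z X := by
  apply HasCompactSupport.intro hφ
  intro z hz
  rw [B7_dzb_zero hz, mul_zero]

/-- If `∂̄u = β` can be solved on each `U_m ↑ U` with `∫_{U_m} |u|² e^{-Φ} ≤ C`, it can be solved on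
`U` with `∫_U |u|² e^{-Φ} ≤ C`. Proof: extend `u_m` by `0`, `u_m e^{-Φ/2}` is bounded in `L²(U)`;
take the weak limit `w` along an ultrafilter (`weak_limit`), `u = w e^{Φ/2}`; for a test function
`v` one has `tsupport v ⊆ U_m` eventually and `∂̄_jv e^{Φ/2} ∈ L²`. -/
theorem exhaustion_limit {U : Set (Cn n)} (V : ℕ → Set (Cn n)) (hVo : ∀ m, IsOpen (V m))
    (hmono : Monotone V) (hUV : (⋃ m, V m) = U) {Φ : Cn n → ℝ} (hΦ : ContinuousOn Φ U)
    (β : Cn n → Fin n → ℂ) {C : ℝ≥0∞} (hC : C ≠ ⊤)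
    (h : ∀ m, ∃ u : Cn n → ℂ, AEStronglyMeasurable u (volume.restrict (V m)) ∧
      WeakDbar (V m) u β ∧ ∫⁻ z in V m, ENNReal.ofReal (‖u z‖ ^ 2 * Real.exp (-Φ z)) ≤ C) :
    ∃ u : Cn n → ℂ, AEStronglyMeasurable u (volume.restrict U) ∧
      WeakDbar U u β ∧ ∫⁻ z in U, ENNReal.ofReal (‖u z‖ ^ 2 * Real.exp (-Φ z)) ≤ C := by
  have hU : IsOpen U := by
    rw [← hUV]
    exact isOpen_iUnion hVo
  have hVU : ∀ m, V m ⊆ U := fun m => by
    rw [← hUV]
    exact subset_iUnion V m
  choose u hum hud hub using h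
  -- the normalised functions
  set f : ℕ → Cn n → ℂ := fun m => (V m).indicator (fun z => u m z * ((Real.exp (-Φ z / 2) : ℝ) : ℂ)) with hf
  have hexpm : ∀ m, AEStronglyMeasurable (fun z => ((Real.exp (-Φ z / 2) : ℝ) : ℂ)) (volume.restrict (V m)) := by
    intro m
    apply ContinuousOn.aestronglyMeasurable _ (hVo m).measurableSet
    apply Complex.continuous_ofReal.comp_continuousOn
    apply Real.continuous_exp.comp_continuousOn
    exact ((hΦ.mono (hVU m)).neg).div_const 2
  have hfm : ∀ m, AEStronglyMeasurable (f m) (volume.restrict U) := by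
    intro m
    have h1 : AEStronglyMeasurable (f m) volume := by
      rw [hf]
      rw [aestronglyMeasurable_indicator_iff (hVo m).measurableSet]
      exact (hum m).mul (hexpm m)
    exact h1.restrict
  have hfn : ∀ m, eLpNorm (f m) 2 (volume.restrict U) ^ 2 ≤ C := by
    intro m
    rw [B7_eLpNorm_sq]
    refine le_trans ?_ (hub m)
    have e1 : ∀ z, ENNReal.ofReal (‖f m z‖ ^ 2) =
        (V m).indicator (fun z => ENNReal.ofReal (‖u m z‖ ^ 2 * Real.exp (-Φ z))) z := by
      intro z
      by_cases hz : z ∈ V m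
      · simp only [hf, indicator_of_mem hz]
        congr 1
        rw [norm_mul, mul_pow, Complex.norm_real, Real.norm_eq_abs, abs_of_pos (Real.exp_pos _),
          ← Real.exp_nat_mul]
        congr 2
        push_cast
        ring
      · simp only [hf, indicator_of_notMem hz]
        simp
    simp_rw [e1]
    rw [lintegral_indicator (hVo m).measurableSet, Measure.restrict_restrict (hVo m).measurableSet,
      inter_eq_left.mpr (hVU m)]
  have hfL : ∀ m, MemLp (f m) 2 (volume.restrict U) := by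
    intro m
    refine ⟨hfm m, ?_⟩
    by_contra hcon
    have h1 : eLpNorm (f m) 2 (volume.restrict U) = ⊤ := by
      rw [not_lt, top_le_iff] at hcon
      exact hcon
    have h2 := hfn m
    rw [h1] at h2
    simp only [ne_eq, OfNat.ofNat_ne_zero, not_false_eq_true, ENNReal.top_pow, top_le_iff] at h2
    exact hC h2
  set F : ℕ → Lp ℂ 2 (volume.restrict U) := fun m => (hfL m).toLp (f m) with hF
  have hFn : ∀ m, ‖F m‖ ≤ Real.sqrt C.toReal := by
    intro m
    rw [hF]
    simp only
    rw [Lp.norm_toLp]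
    apply Real.le_sqrt_of_sq_le
    rw [← ENNReal.toReal_pow]
    exact ENNReal.toReal_mono hC (hfn m)
  obtain ⟨w, hw, hlim⟩ := weak_limit F hFn
  refine ⟨fun z => w z * ((Real.exp (Φ z / 2) : ℝ) : ℂ), ?_, ?_, ?_⟩
  · apply (Lp.aestronglyMeasurable w).mul
    apply ContinuousOn.aestronglyMeasurable _ hU.measurableSet
    apply Complex.continuous_ofReal.comp_continuousOn
    apply Real.continuous_exp.comp_continuousOn
    exact hΦ.div_const 2
  · -- weak dbar
    intro φ hφ j
    set ψ : Cn n → ℂ := fun z => ((Real.exp (Φ z / 2) : ℝ) : ℂ) * dzb φ z (ee j) with hψ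
    have hψc : Continuous ψ := B7_psi_cont hU hΦ hφ (ee j)
    have hψs : HasCompactSupport ψ := B7_psi_supp hφ.2.1 (ee j)
    have hψz : ∀ z, z ∉ tsupport φ → ψ z = 0 := fun z hz => by
      simp only [hψ, B7_dzb_zero hz, mul_zero]
    have hcψL : MemLp (fun z => (starRingEnd ℂ) (ψ z)) 2 (volume.restrict U) := by
      apply MemLp.restrict
      apply Continuous.memLp_of_hasCompactSupport
      · exact Complex.continuous_conj.comp hψc
      · exact hψs.comp_left (map_zero _)
    set G : Lp ℂ 2 (volume.restrict U) := hcψL.toLp _ with hG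
    -- inner products
    have hinner : ∀ (T : Lp ℂ 2 (volume.restrict U)), inner ℂ T G =
        (starRingEnd ℂ) (∫ z in U, T z * ψ z) := by
      intro T
      rw [MeasureTheory.L2.inner_def, ← integral_conj]
      apply integral_congr_ae
      filter_upwards [hcψL.coeFn_toLp] with z hz
      rw [hG, hz, RCLike.inner_apply, ← map_mul, mul_comm]
    -- integral of the limit
    have hIw : ∫ z, (w z * ((Real.exp (Φ z / 2) : ℝ) : ℂ)) * dzb φ z (ee j) = ∫ z in U, w z * ψ z := by
      have e1 : ∀ z, (w z * ((Real.exp (Φ z / 2) : ℝ) : ℂ)) * dzb φ z (ee j) = w z * ψ z := by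
        intro z
        simp only [hψ]
        ring
      simp_rw [e1]
      symm
      apply setIntegral_eq_integral_of_forall_compl_eq_zero
      intro z hz
      rw [hψz z (fun hh => hz (hφ.2.2 hh)), mul_zero]
    -- tsupport φ is contained in some V m₀
    obtain ⟨m₀, hm₀⟩ : ∃ m₀, tsupport φ ⊆ V m₀ := by
      have hcomp : IsCompact (tsupport φ) := hφ.2.1
      obtain ⟨m₀, hm₀⟩ := hcomp.elim_directed_cover V hVo (by
        rw [hUV]
        exact hφ.2.2) (hmono.directed_le)
      exact ⟨m₀, hm₀⟩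
    have hIm : ∀ m, m₀ ≤ m → ∫ z in U, F m z * ψ z = - ∫ z, φ z * β z j := by
      intro m hm
      have hsub : tsupport φ ⊆ V m := hm₀.trans (hmono hm)
      rw [← hud m φ ⟨hφ.1, hφ.2.1, hsub⟩ j]
      have e1 : ∫ z in U, F m z * ψ z = ∫ z in U, f m z * ψ z := by
        apply integral_congr_ae
        filter_upwards [(hfL m).coeFn_toLp] with z hz
        rw [hF]
        simp only
        rw [hz]
      rw [e1]
      have e2 : ∀ z, f m z * ψ z = u m z * dzb φ z (ee j) := by
        intro z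
        by_cases hz : z ∈ V m
        · simp only [hf, indicator_of_mem hz, hψ]
          have e3 : ((Real.exp (-Φ z / 2) : ℝ) : ℂ) * ((Real.exp (Φ z / 2) : ℝ) : ℂ) = 1 := by
            rw [← Complex.ofReal_mul, ← Real.exp_add]
            have : -Φ z / 2 + Φ z / 2 = 0 := by ring
            rw [this, Real.exp_zero, Complex.ofReal_one]
          calc u m z * ((Real.exp (-Φ z / 2) : ℝ) : ℂ) * (((Real.exp (Φ z / 2) : ℝ) : ℂ) * dzb φ z (ee j))
              = u m z * (((Real.exp (-Φ z / 2) : ℝ) : ℂ) * ((Real.exp (Φ z / 2) : ℝ) : ℂ)) * dzb φ z (ee j) := by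
                ring
            _ = u m z * dzb φ z (ee j) := by rw [e3, mul_one]
        · have hz' : z ∉ tsupport φ := fun hh => hz (hsub hh)
          rw [hψz z hz', B7_dzb_zero hz', mul_zero, mul_zero]
      simp_rw [e2]
      apply setIntegral_eq_integral_of_forall_compl_eq_zero
      intro z hz
      have hz' : z ∉ tsupport φ := fun hh => hz (hφ.2.2 hh)
      rw [B7_dzb_zero hz', mul_zero]
    rw [hIw]
    have hl := hlim G
    rw [hinner w] at hl
    simp_rw [hinner] at hl
    have hev : ∀ᶠ m in (Filter.hyperfilter ℕ : Filter ℕ), (starRingEnd ℂ) (∫ z in U, F m z * ψ z) =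
        (starRingEnd ℂ) (- ∫ z, φ z * β z j) := by
      have hle : (Filter.hyperfilter ℕ : Filter ℕ) ≤ atTop := by
        rw [← Nat.cofinite_eq_atTop]
        exact Filter.hyperfilter_le_cofinite
      apply hle
      filter_upwards [eventually_ge_atTop m₀] with m hm
      rw [hIm m hm]
    have hconst : Tendsto (fun m => (starRingEnd ℂ) (∫ z in U, F m z * ψ z)) (Filter.hyperfilter ℕ : Filter ℕ)
        (𝓝 ((starRingEnd ℂ) (- ∫ z, φ z * β z j))) := by
      apply Tendsto.congr' _ tendsto_const_nhds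
      filter_upwards [hev] with m hm
      exact hm.symm
    have := tendsto_nhds_unique hl hconst
    exact (starRingEnd ℂ).injective this
  · -- the bound
    have e1 : ∀ z, ENNReal.ofReal (‖w z * ((Real.exp (Φ z / 2) : ℝ) : ℂ)‖ ^ 2 * Real.exp (-Φ z)) =
        ENNReal.ofReal (‖w z‖ ^ 2) := by
      intro z
      congr 1
      rw [norm_mul, mul_pow, Complex.norm_real, Real.norm_eq_abs, abs_of_pos (Real.exp_pos _),
          ← Real.exp_nat_mul, mul_assoc, ← Real.exp_add]
      have : ((2:ℕ):ℝ) * (Φ z / 2) + -Φ z = 0 := by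
        push_cast
        ring
      rw [this, Real.exp_zero, mul_one]
    simp_rw [e1]
    rw [← B7_eLpNorm_sq]
    have h2 : eLpNorm w 2 (volume.restrict U) = ENNReal.ofReal ‖w‖ := by
      rw [Lp.norm_def, ENNReal.ofReal_toReal (Lp.eLpNorm_ne_top w)]
    rw [h2, ← ENNReal.ofReal_pow (norm_nonneg _)]
    have h3 : ‖w‖ ^ 2 ≤ C.toReal := by
      have h4 : ‖w‖ ^ 2 ≤ (Real.sqrt C.toReal) ^ 2 := pow_le_pow_left₀ (norm_nonneg _) hw 2
      rwa [Real.sq_sqrt ENNReal.toReal_nonneg] at h4
    exact (ENNReal.ofReal_le_ofReal h3).trans (ENNReal.ofReal_toReal hC).le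

end HankelSPC
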