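import Pool.Agent.Lib.MP_e1cf54_an.BDefs
import Pool.Agent.Lib.MP_e1cf54_an.L2b

/-! Row B8a: admissible weights -/

open MeasureTheory Set Filter
open scoped ENNReal NNReal Topology ContDiff

namespace HankelSPC

variable {n : ℕ}

lemma B8a_deriv_exp (t : ℝ) : deriv (fun s : ℝ => Real.exp (2 * s)) t = 2 * Real.exp (2 * t) := by
  have h : HasDerivAt (fun s : ℝ => Real.exp (2 * s)) (Real.exp (2 * t) * (2 * 1)) t :=
    ((hasDerivAt_id t).const_mul 2).exp
  rw [h.deriv]; ring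

lemma B8a_deriv_deriv_exp (t : ℝ) :
    deriv (deriv (fun s : ℝ => Real.exp (2 * s))) t = 4 * Real.exp (2 * t) := by
  have h0 : deriv (fun s : ℝ => Real.exp (2 * s)) = fun t => 2 * Real.exp (2 * t) := by
    funext s; exact B8a_deriv_exp s
  rw [h0]
  have h : HasDerivAt (fun s : ℝ => 2 * Real.exp (2 * s)) (2 * (Real.exp (2 * t) * (2 * 1))) t :=
    (((hasDerivAt_id t).const_mul 2).exp).const_mul 2
  rw [h.deriv]; ring

lemma B8a_hasDeriv_log {ε : ℝ} (hε : 0 < ε) (t : ℝ) :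
    HasDerivAt (fun s : ℝ => Real.log (1 + ε * Real.exp (2 * s)))
      (2 * (ε * Real.exp (2 * t)) / (1 + ε * Real.exp (2 * t))) t := by
  have hpos : 0 < 1 + ε * Real.exp (2 * t) := by positivity
  have h : HasDerivAt (fun s : ℝ => 1 + ε * Real.exp (2 * s)) (ε * (Real.exp (2 * t) * (2 * 1))) t :=
    (((((hasDerivAt_id t).const_mul 2).exp).const_mul ε)).const_add 1
  have h2 := h.log hpos.ne'
  convert h2 using 1
  ring

lemma B8a_deriv_log {ε : ℝ} (hε : 0 < ε) (t : ℝ) :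
    deriv (fun s : ℝ => Real.log (1 + ε * Real.exp (2 * s))) t
      = 2 * (ε * Real.exp (2 * t)) / (1 + ε * Real.exp (2 * t)) := (B8a_hasDeriv_log hε t).deriv

/-- The elementary inequality. -/
lemma B8a_ineq {ε C₁ c₂ t N e l : ℝ} (hε : 0 < ε) (hC₁ : 0 < C₁) (hc₂ : 0 < c₂) (hN : 0 ≤ N)
    (he : e ≤ C₁ * Real.exp (2 * t) * N) (he0 : 0 ≤ e) (hl : c₂ * Real.exp t * N ≤ l) :
    2 * ((2 * (ε * Real.exp (2 * t)) / (1 + ε * Real.exp (2 * t))) ^ 2 * e)
      ≤ 4 * C₁ / c₂ * Real.sqrt ε * (2 * Real.exp (2 * t) * l + 4 * Real.exp (2 * t) * e) := by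
  set E := Real.exp (2 * t) with hE
  set x := Real.exp t with hx
  have hxE : E = x ^ 2 := by rw [hE, hx, ← Real.exp_nat_mul]; norm_num
  have hxpos : 0 < x := Real.exp_pos t
  have hEpos : 0 < E := Real.exp_pos _
  set r := Real.sqrt ε with hr
  have hrpos : 0 < r := Real.sqrt_pos.mpr hε
  have hr2 : ε = r ^ 2 := (Real.sq_sqrt hε.le).symm
  set s := r * x with hs
  have hspos : 0 < s := by positivity
  have hεE : ε * E = s ^ 2 := by rw [hr2, hxE, hs]; ring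
  have hs3 : s ^ 3 ≤ (1 + s ^ 2) ^ 2 := by nlinarith [sq_nonneg (s - 1), mul_pos hspos hspos, sq_nonneg (s ^ 2 - s)]
  -- the left hand side
  have hden : 0 < 1 + s ^ 2 := by positivity
  have h1 : (2 * (ε * E) / (1 + ε * E)) ^ 2 ≤ 4 * s := by
    rw [hεE, div_pow, div_le_iff₀ (by positivity)]
    have : (2 * s ^ 2) ^ 2 = 4 * s * s ^ 3 := by ring
    rw [this]
    exact mul_le_mul_of_nonneg_left hs3 (by positivity)
  have h2 : 2 * ((2 * (ε * E) / (1 + ε * E)) ^ 2 * e) ≤ 2 * ((4 * s) * (C₁ * E * N)) := by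
    have := mul_le_mul h1 he he0 (by positivity)
    linarith
  have h3 : 4 * C₁ / c₂ * r * (2 * E * (c₂ * x * N)) ≤ 4 * C₁ / c₂ * r * (2 * E * l + 4 * E * e) := by
    apply mul_le_mul_of_nonneg_left _ (by positivity)
    have h31 : 2 * E * (c₂ * x * N) ≤ 2 * E * l := mul_le_mul_of_nonneg_left hl (by positivity)
    have h32 : 0 ≤ 4 * E * e := by positivity
    linarith
  have h4 : 4 * C₁ / c₂ * r * (2 * E * (c₂ * x * N)) = 2 * ((4 * s) * (C₁ * E * N)) := by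
    rw [hs]; field_simp
  linarith

/-- the cutoff on the line -/
lemma B8a_theta : ∃ (θ : ℝ → ℝ) (M : ℝ), 0 ≤ M ∧ ContDiff ℝ 2 θ ∧ (∀ t, 0 ≤ θ t ∧ θ t ≤ 1) ∧
    (∀ t, t ≤ 0 → θ t = 1) ∧ (∀ t, 1 ≤ t → θ t = 0) ∧ ∀ t, |deriv θ t| ≤ M := by
  have hc : ContDiff ℝ 2 (fun t : ℝ => Real.smoothTransition (1 - t)) :=
    (Real.smoothTransition.contDiff (n := 2)).comp (contDiff_const.sub contDiff_id)
  have hcd : Continuous (deriv (fun t : ℝ => Real.smoothTransition (1 - t))) :=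
    hc.continuous_deriv (by norm_num)
  obtain ⟨M, hM⟩ := (isCompact_Icc (a := (0:ℝ)) (b := 1)).exists_bound_of_continuousOn hcd.continuousOn
  have h0 : ∀ t : ℝ, t ≤ 0 → Real.smoothTransition (1 - t) = 1 := fun t ht =>
    Real.smoothTransition.one_of_one_le (by linarith)
  have h1 : ∀ t : ℝ, 1 ≤ t → Real.smoothTransition (1 - t) = 0 := fun t ht =>
    Real.smoothTransition.zero_of_nonpos (by linarith)
  have hM0 : 0 ≤ M := le_trans (norm_nonneg _) (hM 0 (by simp))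
  refine ⟨fun t => Real.smoothTransition (1 - t), M, hM0, hc,
    fun t => ⟨Real.smoothTransition.nonneg _, Real.smoothTransition.le_one _⟩, h0, h1, ?_⟩
  intro t
  rcases lt_or_ge t 0 with ht | ht
  · have : (fun t : ℝ => Real.smoothTransition (1 - t)) =ᶠ[𝓝 t] fun _ => (1 : ℝ) := by
      filter_upwards [Iio_mem_nhds ht] with s hs
      exact h0 s (le_of_lt hs)
    rw [this.deriv_eq]; simpa using hM0
  · rcases le_or_gt t 1 with ht1 | ht1
    · have := hM t ⟨ht, ht1⟩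
      simpa using this
    · have : (fun t : ℝ => Real.smoothTransition (1 - t)) =ᶠ[𝓝 t] fun _ => (0 : ℝ) := by
        filter_upwards [Ioi_mem_nhds ht1] with s hs
        exact h1 s (le_of_lt hs)
      rw [this.deriv_eq]; simpa using hM0

/-- The weights: `τ = log(1 + ε e^{2ψ})`, `χ = C' √ε e^{2ψ}`, `C' = 4 C₁ / c₂` (and `ε` so small that
`2 √ε ≤ C'`), `φ = Φ + χ` form an admissible triple, and `-χ + 2τ ≤ 0`, `-χ + τ ≤ 0`.
`levi (e^{2ψ}) = e^{2ψ} (2 levi ψ + 4 |∂ψ|²) ≥ 2 c₂ e^{3ψ} nsq X`;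
`|∂τ(X)|² = 4 ε² e^{4ψ} |∂ψ(X)|² / (1+εe^{2ψ})² ≤ 4 C₁ ε² e^{6ψ} nsq X / (1+εe^{2ψ})²`; with
`s = √ε e^ψ` the claim `levi χ ≥ 2 |∂τ|²` reads `2 C' c₂ s³ ≥ 8 C₁ s⁶/(1+s²)²`, true as
`s³ ≤ (1+s²)²`. Cutoffs: `θ_m = θ(ψ - m)`, `θ` smooth, `1` on `(-∞,0]`, `0` on `[1,∞)`:
`∑|∂_jθ_m|² ≤ ‖θ'‖² C₁ e^{2ψ} ≤ ‖θ'‖² (C₁/ε) e^τ`. -/
theorem weights_admissible {U : Set (Cn n)} (hU : IsOpen U) {ψ Φ : Cn n → ℝ}
    (hψ : ContDiffOn ℝ 2 ψ U) (hΦ : ContDiffOn ℝ 2 Φ U)
    (hex : ∀ c : ℝ, IsCompact {z | z ∈ U ∧ ψ z ≤ c}) {C₁ c₂ : ℝ} (hC₁ : 0 < C₁) (hc₂ : 0 < c₂)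
    (h1 : ∀ z ∈ U, ∀ X, ‖ell ψ z X‖ ^ 2 ≤ C₁ * Real.exp (2 * ψ z) * nsq X)
    (h2 : ∀ z ∈ U, ∀ X, c₂ * Real.exp (ψ z) * nsq X ≤ levi ψ z X)
    (h3 : ∀ z ∈ U, ∀ X, 0 ≤ levi Φ z X) {ε : ℝ} (hε : 0 < ε)
    (hε' : 2 * Real.sqrt ε ≤ 4 * C₁ / c₂) :
    Wt U Φ (fun z => Φ z + 4 * C₁ / c₂ * Real.sqrt ε * Real.exp (2 * ψ z))
      (fun z => Real.log (1 + ε * Real.exp (2 * ψ z))) := by
  classical
  have hexp : ContDiff ℝ 2 (fun t : ℝ => Real.exp (2 * t)) :=
    Real.contDiff_exp.comp (contDiff_const.mul contDiff_id)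
  have hpos : ∀ t : ℝ, 1 + ε * Real.exp (2 * t) ≠ 0 := fun t => by positivity
  have hlog : ContDiff ℝ 2 (fun t : ℝ => Real.log (1 + ε * Real.exp (2 * t))) :=
    (contDiff_const.add (contDiff_const.mul hexp)).log hpos
  have hN : ∀ X : Cn n, 0 ≤ nsq X := fun X => Finset.sum_nonneg fun _ _ => by positivity
  refine ⟨hU, hΦ, ?_, ?_, ?_, h3, ?_⟩
  · exact hΦ.add (contDiffOn_const.mul (hexp.comp_contDiffOn hψ))
  · exact hlog.comp_contDiffOn hψ
  · intro z hz X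
    have hψz : ContDiffAt ℝ 2 ψ z := hψ.contDiffAt (hU.mem_nhds hz)
    have hΦz : ContDiffAt ℝ 2 Φ z := hΦ.contDiffAt (hU.mem_nhds hz)
    have hdψ : DifferentiableAt ℝ ψ z := hψz.differentiableAt (by norm_num)
    have e1 : ell (fun z => Real.log (1 + ε * Real.exp (2 * ψ z))) z X
        = ((2 * (ε * Real.exp (2 * ψ z)) / (1 + ε * Real.exp (2 * ψ z)) : ℝ) : ℂ) * ell ψ z X := by
      have := ell_comp (h := fun t : ℝ => Real.log (1 + ε * Real.exp (2 * t))) hdψ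
        (hlog.differentiable (by norm_num)).differentiableAt X
      rw [B8a_deriv_log hε] at this
      exact this
    have e2 : levi (fun z => Real.exp (2 * ψ z)) z X
        = 2 * Real.exp (2 * ψ z) * levi ψ z X + 4 * Real.exp (2 * ψ z) * ‖ell ψ z X‖ ^ 2 := by
      have := levi_comp (h := fun t : ℝ => Real.exp (2 * t)) hψz hexp.contDiffAt X
      rw [B8a_deriv_exp, B8a_deriv_deriv_exp] at this
      exact this
    have hE : ContDiffAt ℝ 2 (fun z => Real.exp (2 * ψ z)) z := hexp.contDiffAt.comp z hψz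
    have e3 : levi (fun z => Φ z + 4 * C₁ / c₂ * Real.sqrt ε * Real.exp (2 * ψ z)) z X
        = levi Φ z X + 4 * C₁ / c₂ * Real.sqrt ε *
          (2 * Real.exp (2 * ψ z) * levi ψ z X + 4 * Real.exp (2 * ψ z) * ‖ell ψ z X‖ ^ 2) := by
      rw [levi_add hΦz (contDiffAt_const.mul hE) X, levi_const_mul hE, e2]
    rw [e3, e1, norm_mul, mul_pow]
    have e4 : ‖((2 * (ε * Real.exp (2 * ψ z)) / (1 + ε * Real.exp (2 * ψ z)) : ℝ) : ℂ)‖ ^ 2
        = (2 * (ε * Real.exp (2 * ψ z)) / (1 + ε * Real.exp (2 * ψ z))) ^ 2 := by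
      rw [Complex.norm_real, Real.norm_eq_abs, sq_abs]
    rw [e4]
    have := B8a_ineq hε hC₁ hc₂ (hN X) (h1 z hz X) (by positivity) (h2 z hz X)
    linarith
  · obtain ⟨θ, M, hM0, hθc, hθ01, hθ0, hθ1, hθM⟩ := B8a_theta
    set Θ : ℕ → Cn n → ℝ := fun m z => if z ∈ U then θ (ψ z - m) else 0 with hΘ
    have hK : ∀ m : ℕ, IsCompact {z | z ∈ U ∧ ψ z ≤ (m : ℝ) + 1} := fun m => hex _
    have hzero : ∀ (m : ℕ) (z : Cn n), z ∉ {z | z ∈ U ∧ ψ z ≤ (m : ℝ) + 1} → Θ m z = 0 := by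
      intro m z hz
      simp only [hΘ]
      split_ifs with hzU
      · apply hθ1
        simp only [mem_setOf_eq, not_and, not_le] at hz
        have := hz hzU
        linarith
      · rfl
    have hloc : ∀ (m : ℕ) (z : Cn n), z ∈ U → Θ m =ᶠ[𝓝 z] fun w => θ (ψ w - m) := by
      intro m z hz
      filter_upwards [hU.mem_nhds hz] with w hw
      simp only [hΘ, if_pos hw]
    have hsupp : ∀ m : ℕ, tsupport (Θ m) ⊆ {z | z ∈ U ∧ ψ z ≤ (m : ℝ) + 1} := by
      intro m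
      apply closure_minimal _ (hK m).isClosed
      intro z hz
      by_contra hcon
      exact hz (hzero m z hcon)
    refine ⟨M ^ 2 * (C₁ / ε), Θ, ?_, ?_, ?_, ?_, ?_, ?_⟩
    · intro m
      rw [contDiff_iff_contDiffAt]
      intro z
      by_cases hz : z ∈ {z | z ∈ U ∧ ψ z ≤ (m : ℝ) + 1}
      · have hzU : z ∈ U := hz.1
        have hψz : ContDiffAt ℝ 2 ψ z := hψ.contDiffAt (hU.mem_nhds hzU)
        have : ContDiffAt ℝ 2 (fun w => θ (ψ w - m)) z :=
          hθc.contDiffAt.comp z (hψz.sub contDiffAt_const)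
        exact this.congr_of_eventuallyEq (hloc m z hzU)
      · have : Θ m =ᶠ[𝓝 z] fun _ => (0 : ℝ) := by
          filter_upwards [(hK m).isClosed.isOpen_compl.mem_nhds hz] with w hw
          exact hzero m w hw
        exact contDiffAt_const.congr_of_eventuallyEq this
    · intro m
      exact HasCompactSupport.intro (hK m) (fun z hz => hzero m z hz)
    · intro m z hz
      exact (hsupp m hz).1
    · intro m z
      simp only [hΘ]
      split_ifs
      · exact hθ01 _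
      · exact ⟨le_refl _, zero_le_one⟩
    · intro K hKU hKc
      obtain ⟨B, hB⟩ := hKc.exists_bound_of_continuousOn (hψ.continuousOn.mono hKU)
      obtain ⟨N, hNB⟩ := exists_nat_ge B
      filter_upwards [eventually_ge_atTop N] with m hm z hz
      simp only [hΘ, if_pos (hKU hz)]
      apply hθ0
      have h5 := hB z hz
      rw [Real.norm_eq_abs] at h5
      have h6 := le_abs_self (ψ z)
      have h7 : (N : ℝ) ≤ m := by exact_mod_cast hm
      linarith
    · intro m z hz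
      have hψz : ContDiffAt ℝ 2 ψ z := hψ.contDiffAt (hU.mem_nhds hz)
      have hdψ : DifferentiableAt ℝ ψ z := hψz.differentiableAt (by norm_num)
      have hd : DifferentiableAt ℝ (fun t : ℝ => θ (t - m)) (ψ z) := by
        have : ContDiff ℝ 2 (fun t : ℝ => θ (t - m)) := hθc.comp (contDiff_id.sub contDiff_const)
        exact (this.differentiable (by norm_num)).differentiableAt
      have e1 : ∀ X, ell (Θ m) z X = ((deriv θ (ψ z - m) : ℝ) : ℂ) * ell ψ z X := by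
        intro X
        have e11 : ell (Θ m) z X = ell (fun w => θ (ψ w - m)) z X := by
          unfold ell
          rw [(hloc m z hz).fderiv_eq]
        rw [e11, ell_comp (h := fun t : ℝ => θ (t - m)) hdψ hd X]
        congr 2
        exact deriv_comp_sub_const (f := θ) (a := (m : ℝ)) (x := ψ z)
      have hE := Real.exp_pos (2 * ψ z)
      have e2 : ∑ j, ‖ell (Θ m) z (ee j)‖ ^ 2 ≤ M ^ 2 * (C₁ * Real.exp (2 * ψ z)) := by
        apply sum_ell_le (by positivity)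
        intro X
        rw [e1 X, norm_mul, mul_pow, Complex.norm_real, Real.norm_eq_abs]
        have h5 : |deriv θ (ψ z - m)| ^ 2 ≤ M ^ 2 := pow_le_pow_left₀ (abs_nonneg _) (hθM _) 2
        calc |deriv θ (ψ z - m)| ^ 2 * ‖ell ψ z X‖ ^ 2
            ≤ M ^ 2 * (C₁ * Real.exp (2 * ψ z) * nsq X) :=
              mul_le_mul h5 (h1 z hz X) (by positivity) (by positivity)
          _ = _ := by ring
      refine e2.trans ?_
      rw [Real.exp_log (by positivity)]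
      have h6 : C₁ * Real.exp (2 * ψ z) ≤ C₁ / ε * (1 + ε * Real.exp (2 * ψ z)) := by
        have : C₁ / ε * (1 + ε * Real.exp (2 * ψ z)) = C₁ / ε + C₁ * Real.exp (2 * ψ z) := by
          field_simp
        rw [this]
        have : 0 < C₁ / ε := by positivity
        linarith
      calc M ^ 2 * (C₁ * Real.exp (2 * ψ z)) ≤ M ^ 2 * (C₁ / ε * (1 + ε * Real.exp (2 * ψ z))) :=
            mul_le_mul_of_nonneg_left h6 (by positivity)
        _ = _ := by ring

end HankelSPC
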