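import Pool.Agent.Lib.MP_e1cf54_an.B6b
import Pool.Agent.Lib.MP_e1cf54_an.B7
import Pool.Agent.Lib.MP_e1cf54_an.B8a

/-! Row B8b: Hormander theorem -/

open MeasureTheory Set Filter
open scoped ENNReal NNReal Topology ContDiff

namespace HankelSPC

variable {n : ℕ}

lemma B8b_nsq_ee (j : Fin n) : nsq (ee j : Cn n) = 1 := by
  unfold nsq ee
  rw [Finset.sum_eq_single j]
  · simp
  · intro b _ hb
    simp [Pi.single_eq_of_ne hb]
  · simp

lemma B8b_formEval_ee (b : Fin n → ℂ) (j : Fin n) : formEval b (ee j) = b j := by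
  unfold formEval ee
  rw [Finset.sum_eq_single j]
  · simp
  · intro i _ hi
    simp [Pi.single_eq_of_ne hi]
  · simp

/-- the choice of `ε` -/
lemma B8b_eps {C' : ℝ} (hC' : 0 < C') (m : ℝ) : ∃ ε : ℝ, 0 < ε ∧ 2 * Real.sqrt ε ≤ C' ∧
    C' * Real.sqrt ε * Real.exp (2 * m) ≤ Real.log (3 / 2) := by
  have hl : 0 < Real.log (3 / 2) := Real.log_pos (by norm_num)
  obtain ⟨s, hs⟩ : ∃ s, s = min (C' / 2) (Real.log (3 / 2) / (C' * Real.exp (2 * m))) := ⟨_, rfl⟩
  have hs0 : 0 < s := by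
    rw [hs]
    exact lt_min (by positivity) (by positivity)
  have h1 : s ≤ C' / 2 := by rw [hs]; exact min_le_left _ _
  have h2 : s ≤ Real.log (3 / 2) / (C' * Real.exp (2 * m)) := by rw [hs]; exact min_le_right _ _
  refine ⟨s ^ 2, by positivity, ?_, ?_⟩
  · rw [Real.sqrt_sq hs0.le]; linarith
  · rw [Real.sqrt_sq hs0.le]
    rw [le_div_iff₀ (by positivity)] at h2
    linarith

/-- Hörmander's theorem: apply `exists_three_weights` with `ε → 0` and `exhaustion_limit` with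
`U_m = {ψ < m}` (on `U_m`, `φ - 2τ ≤ Φ + 4C₁/c₂ √ε e^{2m} ≤ Φ + log (3/2)` for `ε = ε(m)` small). -/
theorem hormander {U : Set (Cn n)} (hU : IsOpen U) {ψ Φ q : Cn n → ℝ}
    (hψ : ContDiffOn ℝ 2 ψ U) (hΦ : ContDiffOn ℝ 2 Φ U)
    (hex : ∀ c : ℝ, IsCompact {z | z ∈ U ∧ ψ z ≤ c}) {C₁ c₂ M : ℝ} (hC₁ : 0 < C₁) (hc₂ : 0 < c₂)
    (h1 : ∀ z ∈ U, ∀ X, ‖ell ψ z X‖ ^ 2 ≤ C₁ * Real.exp (2 * ψ z) * nsq X)
    (h2 : ∀ z ∈ U, ∀ X, c₂ * Real.exp (ψ z) * nsq X ≤ levi ψ z X)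
    (h3 : ∀ z ∈ U, ∀ X, 0 ≤ levi Φ z X) (h4 : ∀ z ∈ U, ∀ X, levi Φ z X ≤ M * nsq X)
    (β : Cn n → Fin n → ℂ) (hβm : ∀ j, AEStronglyMeasurable (fun z => β z j) (volume.restrict U))
    (hcl : WeakClosed U β) (hqm : AEMeasurable q (volume.restrict U)) (hq0 : ∀ z ∈ U, 0 ≤ q z)
    (hq : ∀ z ∈ U, ∀ X, ‖formEval (β z) X‖ ^ 2 ≤ q z * levi Φ z X)
    (hfin : ∫⁻ z in U, ENNReal.ofReal (q z * Real.exp (-Φ z)) ≠ ⊤) :
    ∃ u : Cn n → ℂ, AEStronglyMeasurable u (volume.restrict U) ∧ WeakDbar U u β ∧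
      ∫⁻ z in U, ENNReal.ofReal (‖u z‖ ^ 2 * Real.exp (-Φ z))
        ≤ 3 * ∫⁻ z in U, ENNReal.ofReal (q z * Real.exp (-Φ z)) := by
  obtain ⟨C', hC'def⟩ : ∃ C' : ℝ, C' = 4 * C₁ / c₂ := ⟨_, rfl⟩
  have hC' : 0 < C' := by rw [hC'def]; positivity
  set V : ℕ → Set (Cn n) := fun m => {z | z ∈ U ∧ ψ z < m} with hV
  have hVU : ∀ m, V m ⊆ U := fun m z hz => hz.1
  have hVo : ∀ m, IsOpen (V m) := fun m => hψ.continuousOn.isOpen_inter_preimage hU isOpen_Iio
  refine exhaustion_limit V hVo ?_ ?_ hΦ.continuousOn β (ENNReal.mul_ne_top (by norm_num) hfin) ?_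
  · intro m m' hmm z hz
    exact ⟨hz.1, hz.2.trans_le (by exact_mod_cast hmm)⟩
  · ext z
    simp only [Set.mem_iUnion]
    constructor
    · rintro ⟨m, hm⟩
      exact hm.1
    · intro hz
      obtain ⟨m, hm⟩ := exists_nat_gt (ψ z)
      exact ⟨m, hz, hm⟩
  · intro m
    obtain ⟨ε, hε, hε1, hε2⟩ := B8b_eps hC' m
    have hW := weights_admissible hU hψ hΦ hex hC₁ hc₂ h1 h2 h3 hε (by rw [← hC'def]; exact hε1)
    rw [← hC'def] at hW
    obtain ⟨s, hs⟩ : ∃ s, s = Real.sqrt ε := ⟨_, rfl⟩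
    have hs0 : 0 ≤ s := by rw [hs]; exact Real.sqrt_nonneg _
    have hss : s * s = ε := by rw [hs]; exact Real.mul_self_sqrt hε.le
    rw [← hs] at hε1 hε2 hW
    set φ : Cn n → ℝ := fun z => Φ z + C' * s * Real.exp (2 * ψ z) with hφ
    set τ : Cn n → ℝ := fun z => Real.log (1 + ε * Real.exp (2 * ψ z)) with hτ
    have hτ0 : ∀ z, 0 ≤ τ z := fun z => Real.log_nonneg (by
      have : 0 < ε * Real.exp (2 * ψ z) := by positivity
      linarith)
    have hτ1 : ∀ z, τ z ≤ ε * Real.exp (2 * ψ z) := fun z => by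
      have : 0 < 1 + ε * Real.exp (2 * ψ z) := by positivity
      have := Real.log_le_sub_one_of_pos this
      show Real.log (1 + ε * Real.exp (2 * ψ z)) ≤ _
      linarith
    have hχ : ∀ z, 2 * (ε * Real.exp (2 * ψ z)) ≤ C' * s * Real.exp (2 * ψ z) := fun z => by
      have : 2 * ε ≤ C' * s := by
        rw [← hss]
        calc 2 * (s * s) = (2 * s) * s := by ring
          _ ≤ C' * s := mul_le_mul_of_nonneg_right hε1 hs0
      calc 2 * (ε * Real.exp (2 * ψ z)) = (2 * ε) * Real.exp (2 * ψ z) := by ring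
        _ ≤ C' * s * Real.exp (2 * ψ z) := mul_le_mul_of_nonneg_right this (Real.exp_pos _).le
    -- comparison of the weights
    have hw2 : ∀ z, Real.exp (-(φ z - 2 * τ z)) ≤ Real.exp (-Φ z) := fun z => by
      apply Real.exp_le_exp.2
      have := hτ1 z
      have := hχ z
      show -(Φ z + C' * s * Real.exp (2 * ψ z) - 2 * τ z) ≤ -Φ z
      linarith
    have hw1 : ∀ z, Real.exp (-(φ z - τ z)) ≤ Real.exp (-Φ z) := fun z => by
      apply Real.exp_le_exp.2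
      have := hτ1 z
      have := hτ0 z
      have := hχ z
      show -(Φ z + C' * s * Real.exp (2 * ψ z) - τ z) ≤ -Φ z
      linarith
    have hw3 : ∀ z ∈ V m, Real.exp (-Φ z) ≤ 3 / 2 * Real.exp (-(φ z - 2 * τ z)) := fun z hz => by
      have e : (3 / 2 : ℝ) = Real.exp (Real.log (3 / 2)) := (Real.exp_log (by norm_num)).symm
      rw [e, ← Real.exp_add]
      apply Real.exp_le_exp.2
      have hm : Real.exp (2 * ψ z) ≤ Real.exp (2 * m) := Real.exp_le_exp.2 (by linarith [hz.2])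
      have h5 : C' * s * Real.exp (2 * ψ z) ≤ Real.log (3 / 2) :=
        (mul_le_mul_of_nonneg_left hm (mul_nonneg hC'.le hs0)).trans hε2
      have := hτ0 z
      show -Φ z ≤ Real.log (3 / 2) + -(Φ z + C' * s * Real.exp (2 * ψ z) - 2 * τ z)
      linarith
    have hfin2 : ∫⁻ z in U, ENNReal.ofReal (q z * Real.exp (-(φ z - 2 * τ z))) ≤
        ∫⁻ z in U, ENNReal.ofReal (q z * Real.exp (-Φ z)) := by
      refine setLIntegral_mono' hU.measurableSet fun z hz => ?_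
      exact ENNReal.ofReal_le_ofReal (mul_le_mul_of_nonneg_left (hw2 z) (hq0 z hz))
    have hβfin : ∀ j, ∫⁻ z in U, ENNReal.ofReal (‖β z j‖ ^ 2 * Real.exp (-(φ z - τ z))) ≠ ⊤ := by
      intro j
      have hle : ∫⁻ z in U, ENNReal.ofReal (‖β z j‖ ^ 2 * Real.exp (-(φ z - τ z))) ≤
          ∫⁻ z in U, ENNReal.ofReal |M| * ENNReal.ofReal (q z * Real.exp (-Φ z)) := by
        refine setLIntegral_mono' hU.measurableSet fun z hz => ?_
        rw [← ENNReal.ofReal_mul (abs_nonneg M)]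
        apply ENNReal.ofReal_le_ofReal
        have h5 := hq z hz (ee j)
        rw [B8b_formEval_ee] at h5
        have h6 := h4 z hz (ee j)
        rw [B8b_nsq_ee, mul_one] at h6
        have h7 : ‖β z j‖ ^ 2 ≤ |M| * q z := by
          calc ‖β z j‖ ^ 2 ≤ q z * levi Φ z (ee j) := h5
            _ ≤ q z * |M| := mul_le_mul_of_nonneg_left (h6.trans (le_abs_self M)) (hq0 z hz)
            _ = |M| * q z := mul_comm _ _
        calc ‖β z j‖ ^ 2 * Real.exp (-(φ z - τ z))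
            ≤ (|M| * q z) * Real.exp (-Φ z) :=
              mul_le_mul h7 (hw1 z) (Real.exp_pos _).le (mul_nonneg (abs_nonneg M) (hq0 z hz))
          _ = |M| * (q z * Real.exp (-Φ z)) := by ring
      rw [lintegral_const_mul' _ _ ENNReal.ofReal_ne_top] at hle
      exact (hle.trans_lt (ENNReal.mul_lt_top ENNReal.ofReal_lt_top
        (lt_top_iff_ne_top.2 hfin))).ne
    obtain ⟨u, hum, huW, hub⟩ := exists_three_weights hW β q hβm hβfin hcl hqm hq0 hq
      (hfin2.trans_lt (lt_top_iff_ne_top.2 hfin)).ne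
    refine ⟨u, hum.mono_measure (Measure.restrict_mono (hVU m) le_rfl), huW.mono (hVU m), ?_⟩
    calc ∫⁻ z in V m, ENNReal.ofReal (‖u z‖ ^ 2 * Real.exp (-Φ z))
        ≤ ∫⁻ z in V m, ENNReal.ofReal (3 / 2) *
            ENNReal.ofReal (‖u z‖ ^ 2 * Real.exp (-(φ z - 2 * τ z))) := by
          refine setLIntegral_mono' (hVo m).measurableSet fun z hz => ?_
          rw [← ENNReal.ofReal_mul (by norm_num)]
          apply ENNReal.ofReal_le_ofReal
          calc ‖u z‖ ^ 2 * Real.exp (-Φ z)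
              ≤ ‖u z‖ ^ 2 * (3 / 2 * Real.exp (-(φ z - 2 * τ z))) :=
                mul_le_mul_of_nonneg_left (hw3 z hz) (by positivity)
            _ = 3 / 2 * (‖u z‖ ^ 2 * Real.exp (-(φ z - 2 * τ z))) := by ring
      _ = ENNReal.ofReal (3 / 2) *
            ∫⁻ z in V m, ENNReal.ofReal (‖u z‖ ^ 2 * Real.exp (-(φ z - 2 * τ z))) :=
          lintegral_const_mul' _ _ ENNReal.ofReal_ne_top
      _ ≤ ENNReal.ofReal (3 / 2) *
            ∫⁻ z in U, ENNReal.ofReal (‖u z‖ ^ 2 * Real.exp (-(φ z - 2 * τ z))) := by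
          gcongr
          exact hVU m
      _ ≤ ENNReal.ofReal (3 / 2) *
            (2 * ∫⁻ z in U, ENNReal.ofReal (q z * Real.exp (-Φ z))) := by
          gcongr
          exact hub.trans (by gcongr)
      _ = 3 * ∫⁻ z in U, ENNReal.ofReal (q z * Real.exp (-Φ z)) := by
          rw [← mul_assoc]
          congr 1
          rw [show (2 : ℝ≥0∞) = ENNReal.ofReal 2 by simp, ← ENNReal.ofReal_mul (by norm_num)]
          norm_num

end HankelSPC
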