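import Pool.Agent.Lib.MP_e1cf54_an.B2a

/-! Row B9a: minimal solutions -/

open MeasureTheory Set Filter
open scoped ENNReal NNReal Topology ContDiff

namespace HankelSPC

variable {n : ℕ}

lemma B9a_dzb_continuous {v : Cn n → ℂ} (hv : ContDiff ℝ ∞ v) (X : Cn n) :
    Continuous fun z => dzb v z X := by
  unfold dzb
  have h1 : Continuous (fderiv ℝ v) := hv.continuous_fderiv (by simp)
  have h2 : Continuous fun z => fderiv ℝ v z X := h1.clm_apply continuous_const
  have h3 : Continuous fun z => fderiv ℝ v z (Complex.I • X) := h1.clm_apply continuous_const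
  exact continuous_const.mul (h2.add (continuous_const.mul h3))

lemma B9a_dzb_zero {v : Cn n → ℂ} {z : Cn n} (hz : z ∉ tsupport v) (X : Cn n) :
    dzb v z X = 0 := by
  unfold dzb
  rw [fderiv_of_notMem_tsupport ℝ hz]
  simp

/-- the function dual to the condition `∂̄h = 0` tested with `v` -/
noncomputable def B9a_g (φ : Cn n → ℝ) (v : Cn n → ℂ) (j : Fin n) (z : Cn n) : ℂ :=
  (starRingEnd ℂ) (Real.exp (φ z / 2) * dzb v z (ee j))

lemma B9a_exp_cont {U : Set (Cn n)} {φ : Cn n → ℝ} (hφ : ContinuousOn φ U) (c : ℝ) :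
    ContinuousOn (fun z => ((Real.exp (c * φ z) : ℝ) : ℂ)) U :=
  Complex.continuous_ofReal.comp_continuousOn
    (Real.continuous_exp.comp_continuousOn (continuousOn_const.mul hφ))

lemma B9a_g_memLp {U : Set (Cn n)} (_hU : IsOpen U) {φ : Cn n → ℝ} (hφ : ContinuousOn φ U)
    {v : Cn n → ℂ} (hv : IsTest U v) (j : Fin n) :
    MemLp (B9a_g φ v j) 2 (volume.restrict U) := by
  obtain ⟨h1, h2, h3⟩ := hv
  have hK : IsCompact (tsupport v) := h2
  have hcont : ContinuousOn (B9a_g φ v j) U := by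
    unfold B9a_g
    refine Complex.continuous_conj.comp_continuousOn ?_
    refine ContinuousOn.mul ?_ (B9a_dzb_continuous h1 _).continuousOn
    have := B9a_exp_cont hφ (1 / 2)
    refine this.congr fun z _ => ?_
    simp only
    congr 2
    ring
  have hind : (tsupport v).indicator (B9a_g φ v j) = B9a_g φ v j := by
    rw [Set.indicator_eq_self]
    intro z hz
    by_contra h
    apply hz
    unfold B9a_g
    rw [B9a_dzb_zero h, mul_zero, map_zero]
  rw [← hind, memLp_indicator_iff_restrict hK.measurableSet]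
  have hμ : (volume.restrict U).restrict (tsupport v) = volume.restrict (tsupport v) := by
    rw [Measure.restrict_restrict hK.measurableSet, Set.inter_eq_left.2 h3]
  rw [hμ]
  have : IsFiniteMeasure (volume.restrict (tsupport v)) := ⟨by
    rw [Measure.restrict_apply_univ]; exact hK.measure_lt_top⟩
  obtain ⟨C, hC⟩ := hK.exists_bound_of_continuousOn (hcont.mono h3)
  refine MemLp.of_bound ((hcont.mono h3).aestronglyMeasurable hK.measurableSet) C ?_
  filter_upwards [ae_restrict_mem hK.measurableSet] with z hz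
  exact hC z hz

lemma B9a_memLp_iff {U : Set (Cn n)} (hU : IsOpen U) {φ : Cn n → ℝ} (hφ : ContinuousOn φ U)
    {u : Cn n → ℂ} (hu : AEStronglyMeasurable u (volume.restrict U)) :
    MemLp (fun z => u z * (Real.exp (-φ z / 2) : ℝ)) 2 (volume.restrict U) ↔
      ∫⁻ z in U, ENNReal.ofReal (‖u z‖ ^ 2 * Real.exp (-φ z)) ≠ ⊤ := by
  have haesm : AEStronglyMeasurable (fun z => u z * (Real.exp (-φ z / 2) : ℝ))
      (volume.restrict U) := by
    refine hu.mul (ContinuousOn.aestronglyMeasurable ?_ hU.measurableSet)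
    refine (B9a_exp_cont hφ (-1 / 2)).congr fun z _ => ?_
    simp only
    congr 2
    ring
  have hsq : ∀ z, ‖u z * (Real.exp (-φ z / 2) : ℝ)‖ ^ 2 = ‖u z‖ ^ 2 * Real.exp (-φ z) := by
    intro z
    rw [norm_mul, mul_pow, Complex.norm_real, Real.norm_eq_abs, abs_of_pos (Real.exp_pos _),
      ← Real.exp_nat_mul]
    congr 2
    push_cast
    ring
  rw [memLp_two_iff_integrable_sq_norm haesm]
  simp only [hsq]
  constructor
  · intro h
    have h2 := h.2
    rw [hasFiniteIntegral_iff_ofReal (Filter.Eventually.of_forall fun z => by positivity)] at h2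
    exact h2.ne
  · intro h
    refine ⟨?_, ?_⟩
    · have := haesm.norm.pow 2
      refine this.congr (Filter.Eventually.of_forall fun z => ?_)
      exact hsq z
    · rw [hasFiniteIntegral_iff_ofReal (Filter.Eventually.of_forall fun z => by positivity)]
      exact lt_top_iff_ne_top.2 h

lemma B9a_exp_mul (x : ℝ) : ((Real.exp (-x / 2) : ℝ) : ℂ) * (Real.exp (x / 2) : ℝ) = 1 := by
  rw [← Complex.ofReal_mul, ← Real.exp_add]
  rw [show -x / 2 + x / 2 = 0 by ring, Real.exp_zero, Complex.ofReal_one]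

/-- Minimal solution: if `∂̄u = β` has a solution in `L²(U, e^{-φ/2})` there is one orthogonal to all
weakly holomorphic functions of `L²(U, e^{-φ/2})`. (`φ` continuous on `U`.) -/
theorem exists_minimal {U : Set (Cn n)} (hU : IsOpen U) {φ : Cn n → ℝ} (hφ : ContinuousOn φ U)
    (β : Cn n → Fin n → ℂ) (hβ : ∀ j, LocL2 U fun z => β z j)
    (h : ∃ u : Cn n → ℂ, AEStronglyMeasurable u (volume.restrict U) ∧ WeakDbar U u β ∧
      ∫⁻ z in U, ENNReal.ofReal (‖u z‖ ^ 2 * Real.exp (-φ z)) ≠ ⊤) :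
    ∃ u : Cn n → ℂ, AEStronglyMeasurable u (volume.restrict U) ∧ WeakDbar U u β ∧
      ∫⁻ z in U, ENNReal.ofReal (‖u z‖ ^ 2 * Real.exp (-φ z)) ≠ ⊤ ∧
      ∀ h : Cn n → ℂ, AEStronglyMeasurable h (volume.restrict U) →
        WeakDbar U h (fun _ _ => 0) →
        ∫⁻ z in U, ENNReal.ofReal (‖h z‖ ^ 2 * Real.exp (-φ z)) ≠ ⊤ →
        ∫ z in U, u z * (starRingEnd ℂ) (h z) * Real.exp (-φ z) = 0 := by
  obtain ⟨u0, hu0m, hu0W, hu0fin⟩ := h
  set μ : Measure (Cn n) := volume.restrict U with hμ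
  -- the space of (weighted) weakly holomorphic functions
  set S : Set (Lp ℂ 2 μ) := {f | ∃ (v : Cn n → ℂ) (j : Fin n) (hv : IsTest U v),
    f = (B9a_g_memLp hU hφ hv j).toLp _} with hS
  set K : Submodule ℂ (Lp ℂ 2 μ) := (Submodule.span ℂ S)ᗮ with hK
  have hKmem : ∀ f : Lp ℂ 2 μ, f ∈ K ↔ ∀ (v : Cn n → ℂ) (j : Fin n), IsTest U v →
      ∫ z in U, f z * (Real.exp (φ z / 2) * dzb v z (ee j)) = 0 := by
    intro f
    have hin : ∀ (v : Cn n → ℂ) (j : Fin n) (hv : IsTest U v),
        inner ℂ ((B9a_g_memLp hU hφ hv j).toLp _) f =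
          ∫ z in U, f z * (Real.exp (φ z / 2) * dzb v z (ee j)) := by
      intro v j hv
      rw [MeasureTheory.L2.inner_def]
      refine integral_congr_ae ?_
      filter_upwards [(B9a_g_memLp hU hφ hv j).coeFn_toLp] with z hz
      rw [hz, RCLike.inner_apply]
      unfold B9a_g
      rw [Complex.conj_conj]
    rw [hK, Submodule.mem_orthogonal]
    constructor
    · intro h v j hv
      rw [← hin v j hv]
      exact h _ (Submodule.subset_span ⟨v, j, hv, rfl⟩)
    · intro h g hg
      refine Submodule.span_induction (p := fun g _ => inner ℂ g f = 0) ?_ ?_ ?_ ?_ hg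
      · rintro g ⟨v, j, hv, rfl⟩
        rw [hin v j hv]
        exact h v j hv
      · exact inner_zero_left _
      · intro a b _ _ ha hb
        rw [inner_add_left, ha, hb, add_zero]
      · intro c a _ ha
        rw [inner_smul_left, ha, mul_zero]
  have hU0 := (B9a_memLp_iff hU hφ hu0m).2 hu0fin
  obtain ⟨p, hp, q, hq, hpq⟩ := K.exists_add_mem_mem_orthogonal (hU0.toLp _)
  have hpm : AEStronglyMeasurable (fun z => p z * (Real.exp (φ z / 2) : ℝ)) μ := by
    refine (Lp.aestronglyMeasurable p).mul (ContinuousOn.aestronglyMeasurable ?_ hU.measurableSet)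
    refine (B9a_exp_cont hφ (1 / 2)).congr fun z _ => ?_
    simp only
    congr 2
    ring
  have hpfin : ∫⁻ z in U, ENNReal.ofReal (‖p z * (Real.exp (φ z / 2) : ℝ)‖ ^ 2 *
      Real.exp (-φ z)) ≠ ⊤ := by
    rw [← B9a_memLp_iff hU hφ hpm]
    refine (Lp.memLp p).ae_eq (Filter.Eventually.of_forall fun z => ?_)
    simp only
    rw [mul_assoc, mul_comm ((Real.exp (φ z / 2) : ℝ) : ℂ), B9a_exp_mul, mul_one]
  have hpW : WeakDbar U (fun z => p z * (Real.exp (φ z / 2) : ℝ)) (fun _ _ => 0) := by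
    intro v hv j
    have h1 := (hKmem p).1 hp v j hv
    simp only [mul_zero, integral_zero, neg_zero]
    rw [← h1, setIntegral_eq_integral_of_forall_compl_eq_zero]
    · refine integral_congr_ae (Filter.Eventually.of_forall fun z => ?_)
      simp only
      ring
    · intro z hz
      rw [B9a_dzb_zero (fun h => hz (hv.2.2 h)), mul_zero, mul_zero]
  have hu0L := locL2_of_lintegral hU hφ hu0m hu0fin
  have hpL := locL2_of_lintegral hU hφ hpm hpfin
  have h0L : ∀ j : Fin n, LocL2 U fun z : Cn n => (fun (_ : Cn n) (_ : Fin n) => (0 : ℂ)) z j :=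
    fun j K _ _ => MemLp.zero'
  have hW := WeakDbar.sub hU hu0L hpL hβ h0L hu0W hpW
  simp only [sub_zero] at hW
  have hum : AEStronglyMeasurable (fun z => u0 z - p z * (Real.exp (φ z / 2) : ℝ)) μ :=
    hu0m.sub hpm
  have huq : (fun z => (u0 z - p z * (Real.exp (φ z / 2) : ℝ)) * (Real.exp (-φ z / 2) : ℝ))
      =ᵐ[μ] q := by
    have e1 : (hU0.toLp _ : Lp ℂ 2 μ) - p = q := by rw [hpq]; abel
    have e2 := Lp.coeFn_sub (hU0.toLp _) p
    rw [e1] at e2
    filter_upwards [e2, hU0.coeFn_toLp] with z hz1 hz2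
    rw [hz1, Pi.sub_apply, hz2]
    rw [sub_mul, mul_assoc (p z), mul_comm ((Real.exp (φ z / 2) : ℝ) : ℂ), B9a_exp_mul, mul_one]
  refine ⟨fun z => u0 z - p z * (Real.exp (φ z / 2) : ℝ), hum, hW, ?_, ?_⟩
  · rw [← B9a_memLp_iff hU hφ hum]
    exact (Lp.memLp q).ae_eq huq.symm
  · intro h hhm hhW hhfin
    have hHm := (B9a_memLp_iff hU hφ hhm).2 hhfin
    have hHK : (hHm.toLp _ : Lp ℂ 2 μ) ∈ K := by
      rw [hKmem]
      intro v j hv
      have h1 := hhW v hv j
      simp only [mul_zero, integral_zero, neg_zero] at h1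
      have h3 : ∫ z in U, h z * dzb v z (ee j) = ∫ z, h z * dzb v z (ee j) := by
        refine setIntegral_eq_integral_of_forall_compl_eq_zero fun z hz => ?_
        rw [B9a_dzb_zero (fun h => hz (hv.2.2 h)), mul_zero]
      rw [← h1, ← h3]
      refine integral_congr_ae ?_
      filter_upwards [hHm.coeFn_toLp] with z hz
      rw [hz]
      have := B9a_exp_mul (φ z)
      linear_combination (h z * dzb v z (ee j)) * this
    have h2 : inner ℂ (hHm.toLp _ : Lp ℂ 2 μ) q = 0 :=
      Submodule.inner_right_of_mem_orthogonal hHK hq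
    rw [← h2, MeasureTheory.L2.inner_def]
    refine integral_congr_ae ?_
    filter_upwards [hHm.coeFn_toLp, huq] with z hz1 hz2
    rw [hz1, RCLike.inner_apply, ← hz2]
    rw [map_mul, Complex.conj_ofReal]
    have e : ((Real.exp (-φ z) : ℝ) : ℂ) = (Real.exp (-φ z / 2) : ℝ) * (Real.exp (-φ z / 2) : ℝ) := by
      rw [← Complex.ofReal_mul, ← Real.exp_add]
      congr 2
      ring
    rw [e]
    ring

end HankelSPC
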