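import Pool.Agent.Lib.MP_e1cf54_an.B8b
import Pool.Agent.Lib.MP_e1cf54_an.B9a
import Pool.Agent.Lib.MP_e1cf54_an.B2b

/-! Row B9b: Donnelly-Fefferman -/

open MeasureTheory Set Filter
open scoped ENNReal NNReal Topology ContDiff

namespace HankelSPC

variable {n : ℕ}

theorem B9b_open {U : Set (Cn n)} (hU : IsOpen U) {φ : Cn n → ℝ} (hφ : ContDiffOn ℝ 2 φ U)
    (t : ℝ) : IsOpen {z | z ∈ U ∧ φ z < t} :=
  hφ.continuousOn.isOpen_inter_preimage hU isOpen_Iio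

/-- Hörmander's theorem on a sublevel set. -/
theorem B9b_hor {U : Set (Cn n)} (hU : IsOpen U) {φ q : Cn n → ℝ} (hφ : ContDiffOn ℝ 2 φ U)
    (hex : ∀ c : ℝ, IsCompact {z | z ∈ U ∧ φ z ≤ c})
    (hpos : ∀ z ∈ U, ∀ X : Cn n, X ≠ 0 → 0 < levi φ z X) (t : ℝ)
    (β : Cn n → Fin n → ℂ)
    (hβm : ∀ j, AEStronglyMeasurable (fun z => β z j) (volume.restrict {z | z ∈ U ∧ φ z < t}))
    (hcl : WeakClosed {z | z ∈ U ∧ φ z < t} β)
    (hqm : AEMeasurable q (volume.restrict {z | z ∈ U ∧ φ z < t}))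
    (hq0 : ∀ z ∈ {z | z ∈ U ∧ φ z < t}, 0 ≤ q z)
    (hq : ∀ z ∈ {z | z ∈ U ∧ φ z < t}, ∀ X, ‖formEval (β z) X‖ ^ 2 ≤ q z * levi φ z X)
    (hfin : ∫⁻ z in {z | z ∈ U ∧ φ z < t}, ENNReal.ofReal (q z * Real.exp (-φ z)) ≠ ⊤) :
    ∃ u : Cn n → ℂ, AEStronglyMeasurable u (volume.restrict {z | z ∈ U ∧ φ z < t}) ∧
      WeakDbar {z | z ∈ U ∧ φ z < t} u β ∧
      ∫⁻ z in {z | z ∈ U ∧ φ z < t}, ENNReal.ofReal (‖u z‖ ^ 2 * Real.exp (-φ z))
        ≤ 3 * ∫⁻ z in {z | z ∈ U ∧ φ z < t}, ENNReal.ofReal (q z * Real.exp (-φ z)) := by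
  set V : Set (Cn n) := {z | z ∈ U ∧ φ z < t} with hV
  have hVo : IsOpen V := B9b_open hU hφ t
  have hVU : V ⊆ U := fun z hz => hz.1
  set K : Set (Cn n) := {z | z ∈ U ∧ φ z ≤ t} with hK
  have hVK : V ⊆ K := fun z hz => ⟨hz.1, hz.2.le⟩
  have hKU : K ⊆ U := fun z hz => hz.1
  obtain ⟨C, hC, hCK⟩ := levi_bdd hU hφ (hex t) hKU
  obtain ⟨c, hc, hcK⟩ := levi_uniform hU hφ (hex t) hKU (fun z hz => hpos z hz.1)
  have hφV : ContDiffOn ℝ 2 φ V := hφ.mono hVU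
  have hat : ∀ z ∈ V, ContDiffAt ℝ 2 φ z := fun z hz => hφ.contDiffAt (hU.mem_nhds hz.1)
  have hlog : ∀ s, s < t → ContDiffAt ℝ 2 (fun s => - Real.log (t - s)) s := by
    intro s hs
    exact ((contDiffAt_const.sub contDiffAt_id).log (by simpa using (sub_pos.2 hs).ne')).neg
  have hd1 : ∀ s, s < t → HasDerivAt (fun s => - Real.log (t - s)) ((t - s)⁻¹) s := by
    intro s hs
    have h1 : HasDerivAt (fun s : ℝ => t - s) (-1) s := by
      simpa using (hasDerivAt_id s).const_sub t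
    have h2 := (h1.log (sub_pos.2 hs).ne').neg
    have e : -(-1 / (t - s)) = (t - s)⁻¹ := by rw [neg_div, neg_neg, one_div]
    rw [e] at h2
    exact h2
  have hd1' : ∀ s, s < t → deriv (fun s => - Real.log (t - s)) s = (t - s)⁻¹ :=
    fun s hs => (hd1 s hs).deriv
  have hd2 : ∀ s, s < t → deriv (deriv (fun s => - Real.log (t - s))) s = (t - s)⁻¹ ^ 2 := by
    intro s hs
    have h1 : deriv (fun s => - Real.log (t - s)) =ᶠ[𝓝 s] fun s => (t - s)⁻¹ := by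
      filter_upwards [Iio_mem_nhds hs] with x hx
      exact hd1' x hx
    rw [h1.deriv_eq]
    have h2 : HasDerivAt (fun s : ℝ => t - s) (-1) s := by
      simpa using (hasDerivAt_id s).const_sub t
    have h3 := h2.inv (sub_pos.2 hs).ne'
    have h4 : deriv (fun s => (t - s)⁻¹) s = - -1 / (t - s) ^ 2 := h3.deriv
    rw [h4, neg_neg, inv_pow, one_div]
  have hexp : ∀ s, s < t → Real.exp (- Real.log (t - s)) = (t - s)⁻¹ := by
    intro s hs
    rw [Real.exp_neg, Real.exp_log (sub_pos.2 hs)]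
  refine hormander hVo (ψ := fun z => - Real.log (t - φ z)) (Φ := φ) ?_ hφV ?_ (C₁ := C)
    (c₂ := c) (M := C) hC hc ?_ ?_ ?_ ?_ β hβm hcl hqm hq0 hq hfin
  · intro z hz
    exact ((hlog (φ z) hz.2).comp z (hat z hz)).contDiffWithinAt
  · intro s
    have h1 : {z | z ∈ V ∧ - Real.log (t - φ z) ≤ s} = {z | z ∈ U ∧ φ z ≤ t - Real.exp (-s)} := by
      ext z
      constructor
      · rintro ⟨hz, h⟩
        refine ⟨hz.1, ?_⟩
        have h2 : -s ≤ Real.log (t - φ z) := by linarith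
        have h3 := (Real.le_log_iff_exp_le (sub_pos.2 hz.2)).1 h2
        linarith
      · rintro ⟨hz, h⟩
        have h2 := Real.exp_pos (-s)
        have h3 : φ z < t := by linarith
        refine ⟨⟨hz, h3⟩, ?_⟩
        have h4 := (Real.le_log_iff_exp_le (sub_pos.2 h3)).2 (by linarith : Real.exp (-s) ≤ t - φ z)
        linarith
    rw [h1]
    exact hex _
  · intro z hz X
    rw [ell_comp (h := fun s => - Real.log (t - s)) ((hat z hz).differentiableAt (by norm_num))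
      (hd1 _ hz.2).differentiableAt, hd1' _ hz.2, norm_mul, mul_pow, Complex.norm_real,
      Real.norm_eq_abs, sq_abs]
    have h1 : Real.exp (2 * - Real.log (t - φ z)) = ((t - φ z)⁻¹) ^ 2 := by
      rw [two_mul, Real.exp_add, hexp _ hz.2, sq]
    rw [h1]
    have h2 := (hCK z (hVK hz) X).2
    nlinarith [sq_nonneg (t - φ z)⁻¹]
  · intro z hz X
    rw [levi_comp (h := fun s => - Real.log (t - s)) (hat z hz) (hlog _ hz.2), hd1' _ hz.2,
      hd2 _ hz.2, hexp _ hz.2]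
    have h2 := hcK z (hVK hz) X
    have h3 : 0 < (t - φ z)⁻¹ := inv_pos.2 (sub_pos.2 hz.2)
    have h4 : 0 ≤ (t - φ z)⁻¹ ^ 2 * ‖ell φ z X‖ ^ 2 := by positivity
    nlinarith
  · intro z hz X
    by_cases hX : X = 0
    · rw [hX, levi_zero]
    · exact (hpos z hz.1 X hX).le
  · intro z hz X
    exact (le_abs_self _).trans (hCK z (hVK hz) X).1

/-- the form of the twisted equation -/
theorem B9b_form {φ : Cn n → ℝ} {z : Cn n} (hφ : DifferentiableAt ℝ φ z) (b : Fin n → ℂ) (w : ℂ)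
    {q : ℝ} (hq : ∀ X, ‖formEval b X‖ ^ 2 ≤ q * levi φ z X)
    (hDF : ∀ X, 3 * ‖ell φ z X‖ ^ 2 ≤ levi φ z X) (X : Cn n) :
    ‖formEval (fun j => ((Real.exp (φ z / 2) : ℝ) : ℂ) * b j +
      w * dzb (fun y => ((Real.exp (φ y / 2) : ℝ) : ℂ)) z (ee j)) X‖ ^ 2 ≤
      (Real.exp (φ z) * (2 * q + ‖w‖ ^ 2 / 6)) * levi φ z X := by
  have h1 : formEval (fun j => ((Real.exp (φ z / 2) : ℝ) : ℂ) * b j +
      w * dzb (fun y => ((Real.exp (φ y / 2) : ℝ) : ℂ)) z (ee j)) X =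
      ((Real.exp (φ z / 2) : ℝ) : ℂ) * formEval b X +
        w * dzb (fun y => ((Real.exp (φ y / 2) : ℝ) : ℂ)) z X := by
    rw [dzb_sum _ z X]
    unfold formEval
    rw [Finset.mul_sum, Finset.mul_sum, ← Finset.sum_add_distrib]
    refine Finset.sum_congr rfl fun j _ => ?_
    ring
  have hh : HasDerivAt (fun s : ℝ => Real.exp (s / 2)) (Real.exp (φ z / 2) * (1 / 2)) (φ z) := by
    have h2 : HasDerivAt (fun s : ℝ => s / 2) (1 / 2) (φ z) := (hasDerivAt_id (φ z)).div_const 2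
    exact h2.exp
  have hd : DifferentiableAt ℝ (fun y => Real.exp (φ y / 2)) z := hh.differentiableAt.comp z hφ
  have h2 : dzb (fun y => ((Real.exp (φ y / 2) : ℝ) : ℂ)) z X =
      (starRingEnd ℂ) (((Real.exp (φ z / 2) * (1 / 2) : ℝ) : ℂ) * ell φ z X) := by
    rw [dzb_ofReal hd, ell_comp (h := fun s : ℝ => Real.exp (s / 2)) hφ hh.differentiableAt,
      hh.deriv]
  have he : Real.exp (φ z / 2) ^ 2 = Real.exp (φ z) := by
    rw [← Real.exp_nat_mul]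
    congr 1
    push_cast
    ring
  have h3 : ‖dzb (fun y => ((Real.exp (φ y / 2) : ℝ) : ℂ)) z X‖ ^ 2 =
      Real.exp (φ z) / 4 * ‖ell φ z X‖ ^ 2 := by
    rw [h2, RCLike.norm_conj, norm_mul, Complex.norm_real, Real.norm_eq_abs, mul_pow, sq_abs,
      mul_pow, he]
    ring
  have h4 : ‖((Real.exp (φ z / 2) : ℝ) : ℂ) * formEval b X‖ ^ 2 =
      Real.exp (φ z) * ‖formEval b X‖ ^ 2 := by
    rw [norm_mul, Complex.norm_real, Real.norm_eq_abs, mul_pow, sq_abs, he]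
  have h5 : ‖w * dzb (fun y => ((Real.exp (φ y / 2) : ℝ) : ℂ)) z X‖ ^ 2 =
      ‖w‖ ^ 2 * (Real.exp (φ z) / 4 * ‖ell φ z X‖ ^ 2) := by
    rw [norm_mul, mul_pow, h3]
  rw [h1]
  have h6 := norm_add_le (((Real.exp (φ z / 2) : ℝ) : ℂ) * formEval b X)
    (w * dzb (fun y => ((Real.exp (φ y / 2) : ℝ) : ℂ)) z X)
  set A := ((Real.exp (φ z / 2) : ℝ) : ℂ) * formEval b X with hA
  set B := w * dzb (fun y => ((Real.exp (φ y / 2) : ℝ) : ℂ)) z X with hB
  have h7 : ‖A + B‖ ^ 2 ≤ 2 * ‖A‖ ^ 2 + 2 * ‖B‖ ^ 2 := by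
    have := norm_nonneg (A + B)
    nlinarith [sq_nonneg (‖A‖ - ‖B‖)]
  rw [h4, h5] at h7
  have h8 := hq X
  have h9 := hDF X
  have h10 := Real.exp_pos (φ z)
  have h11 : Real.exp (φ z) * ‖formEval b X‖ ^ 2 ≤ Real.exp (φ z) * (q * levi φ z X) :=
    mul_le_mul_of_nonneg_left h8 h10.le
  have h12 : ‖w‖ ^ 2 * (Real.exp (φ z) / 4 * ‖ell φ z X‖ ^ 2) ≤
      ‖w‖ ^ 2 * (Real.exp (φ z) / 4 * (levi φ z X / 3)) := by
    refine mul_le_mul_of_nonneg_left (mul_le_mul_of_nonneg_left ?_ (by positivity)) (by positivity)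
    linarith
  calc ‖A + B‖ ^ 2 ≤ 2 * (Real.exp (φ z) * ‖formEval b X‖ ^ 2) +
        2 * (‖w‖ ^ 2 * (Real.exp (φ z) / 4 * ‖ell φ z X‖ ^ 2)) := h7
    _ ≤ 2 * (Real.exp (φ z) * (q * levi φ z X)) +
        2 * (‖w‖ ^ 2 * (Real.exp (φ z) / 4 * (levi φ z X / 3))) := by linarith
    _ = (Real.exp (φ z) * (2 * q + ‖w‖ ^ 2 / 6)) * levi φ z X := by ring

/-- bounded weights -/
theorem B9b_fin {V : Set (Cn n)} (hV : MeasurableSet V) {f φ : Cn n → ℝ} {S : ℝ}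
    (hS : ∀ z ∈ V, -S ≤ φ z) (hf : ∀ z ∈ V, 0 ≤ f z)
    (h : ∫⁻ z in V, ENNReal.ofReal (f z) ≠ ⊤) :
    ∫⁻ z in V, ENNReal.ofReal (f z * Real.exp (-φ z)) ≠ ⊤ := by
  have h1 : ∫⁻ z in V, ENNReal.ofReal (f z * Real.exp (-φ z)) ≤
      ∫⁻ z in V, ENNReal.ofReal (Real.exp S) * ENNReal.ofReal (f z) := by
    refine setLIntegral_mono' hV fun z hz => ?_
    rw [← ENNReal.ofReal_mul (Real.exp_pos _).le]
    refine ENNReal.ofReal_le_ofReal ?_
    rw [mul_comm]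
    refine mul_le_mul_of_nonneg_right (Real.exp_le_exp.2 ?_) (hf z hz)
    linarith [hS z hz]
  refine ne_top_of_le_ne_top ?_ h1
  rw [lintegral_const_mul' _ _ ENNReal.ofReal_ne_top]
  exact ENNReal.mul_ne_top ENNReal.ofReal_ne_top h

/-- the inequality from the minimality -/
theorem B9b_min {V : Set (Cn n)} {φ : Cn n → ℝ}
    (hφm : AEMeasurable φ (volume.restrict V)) {u w : Cn n → ℂ}
    (hu : AEStronglyMeasurable u (volume.restrict V))
    (hw : AEStronglyMeasurable w (volume.restrict V))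
    (hu2 : ∫⁻ z in V, ENNReal.ofReal (‖u z‖ ^ 2) ≠ ⊤)
    (hw2 : ∫⁻ z in V, ENNReal.ofReal (‖w z‖ ^ 2 * Real.exp (-φ z)) ≠ ⊤)
    (h : ∫ z in V, u z * (starRingEnd ℂ) (((Real.exp (φ z / 2) : ℝ) : ℂ) * u z - w z) *
      Real.exp (-(φ z / 2)) = 0) :
    ∫⁻ z in V, ENNReal.ofReal (‖u z‖ ^ 2) ≤
      ∫⁻ z in V, ENNReal.ofReal (‖w z‖ ^ 2 * Real.exp (-φ z)) := by
  have he1 : AEMeasurable (fun z => Real.exp (-(φ z / 2))) (volume.restrict V) :=
    Real.measurable_exp.comp_aemeasurable (hφm.div_const 2).neg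
  have he2 : AEMeasurable (fun z => Real.exp (-φ z)) (volume.restrict V) :=
    Real.measurable_exp.comp_aemeasurable hφm.neg
  have hun : AEStronglyMeasurable (fun z => ‖u z‖ ^ 2) (volume.restrict V) := hu.norm.pow 2
  have hwn : AEStronglyMeasurable (fun z => ‖w z‖ ^ 2 * Real.exp (-φ z)) (volume.restrict V) :=
    (hw.norm.pow 2).mul he2.aestronglyMeasurable
  have iu : Integrable (fun z => ‖u z‖ ^ 2) (volume.restrict V) :=
    (lintegral_ofReal_ne_top_iff_integrable hun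
      (Filter.Eventually.of_forall fun z => by positivity)).1 hu2
  have iw : Integrable (fun z => ‖w z‖ ^ 2 * Real.exp (-φ z)) (volume.restrict V) :=
    (lintegral_ofReal_ne_top_iff_integrable hwn
      (Filter.Eventually.of_forall fun z => by positivity)).1 hw2
  have hprod : ∀ z, ‖u z * (starRingEnd ℂ) (w z) * ((Real.exp (-(φ z / 2)) : ℝ) : ℂ)‖ ≤
      (‖u z‖ ^ 2 + ‖w z‖ ^ 2 * Real.exp (-φ z)) / 2 := by
    intro z
    rw [norm_mul, norm_mul, RCLike.norm_conj, Complex.norm_real, Real.norm_eq_abs,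
      abs_of_pos (Real.exp_pos _)]
    have h1 : Real.exp (-φ z) = Real.exp (-(φ z / 2)) ^ 2 := by
      rw [← Real.exp_nat_mul]
      congr 1
      push_cast
      ring
    rw [h1]
    nlinarith [sq_nonneg (‖u z‖ - ‖w z‖ * Real.exp (-(φ z / 2)))]
  have ip : Integrable (fun z => u z * (starRingEnd ℂ) (w z) *
      ((Real.exp (-(φ z / 2)) : ℝ) : ℂ)) (volume.restrict V) := by
    refine ((iu.add iw).div_const 2).mono' ?_ (Filter.Eventually.of_forall hprod)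
    refine (hu.mul ?_).mul ?_
    · exact (Complex.continuous_conj.comp_aestronglyMeasurable hw)
    · exact Complex.continuous_ofReal.comp_aestronglyMeasurable he1.aestronglyMeasurable
  have iuc : Integrable (fun z => ((‖u z‖ ^ 2 : ℝ) : ℂ)) (volume.restrict V) := iu.ofReal
  have key : ∀ z, u z * (starRingEnd ℂ) (((Real.exp (φ z / 2) : ℝ) : ℂ) * u z - w z) *
      Real.exp (-(φ z / 2)) = ((‖u z‖ ^ 2 : ℝ) : ℂ) -
        u z * (starRingEnd ℂ) (w z) * ((Real.exp (-(φ z / 2)) : ℝ) : ℂ) := by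
    intro z
    have h1 : ((Real.exp (φ z / 2) : ℝ) : ℂ) * ((Real.exp (-(φ z / 2)) : ℝ) : ℂ) = 1 := by
      rw [← Complex.ofReal_mul, ← Real.exp_add, add_neg_cancel, Real.exp_zero, Complex.ofReal_one]
    have h2 : u z * (starRingEnd ℂ) (u z) = ((‖u z‖ ^ 2 : ℝ) : ℂ) := by
      rw [Complex.mul_conj, Complex.normSq_eq_norm_sq]
    rw [map_sub, map_mul, Complex.conj_ofReal]
    calc u z * (((Real.exp (φ z / 2) : ℝ) : ℂ) * (starRingEnd ℂ) (u z) - (starRingEnd ℂ) (w z)) *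
          ((Real.exp (-(φ z / 2)) : ℝ) : ℂ)
        = (u z * (starRingEnd ℂ) (u z)) *
          (((Real.exp (φ z / 2) : ℝ) : ℂ) * ((Real.exp (-(φ z / 2)) : ℝ) : ℂ)) -
          u z * (starRingEnd ℂ) (w z) * ((Real.exp (-(φ z / 2)) : ℝ) : ℂ) := by ring
      _ = _ := by rw [h1, h2, mul_one]
  have h1 : ((∫ z in V, ‖u z‖ ^ 2 : ℝ) : ℂ) = ∫ z in V, u z * (starRingEnd ℂ) (w z) *
      ((Real.exp (-(φ z / 2)) : ℝ) : ℂ) := by
    have h2 : ∫ z in V, (((‖u z‖ ^ 2 : ℝ) : ℂ) -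
        u z * (starRingEnd ℂ) (w z) * ((Real.exp (-(φ z / 2)) : ℝ) : ℂ)) = 0 := by
      rw [← h]
      exact integral_congr_ae (Filter.Eventually.of_forall fun z => (key z).symm)
    rw [integral_sub iuc ip, sub_eq_zero] at h2
    rw [← h2]
    exact (integral_ofReal).symm
  have h2 : ∫ z in V, ‖u z‖ ^ 2 ≤ ∫ z in V, (‖u z‖ ^ 2 + ‖w z‖ ^ 2 * Real.exp (-φ z)) / 2 := by
    have h3 : ∫ z in V, ‖u z‖ ^ 2 = ‖((∫ z in V, ‖u z‖ ^ 2 : ℝ) : ℂ)‖ := by
      rw [Complex.norm_real, Real.norm_eq_abs, abs_of_nonneg]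
      exact integral_nonneg fun z => by positivity
    rw [h3, h1]
    refine (norm_integral_le_integral_norm _).trans ?_
    exact integral_mono_ae ip.norm ((iu.add iw).div_const 2) (Filter.Eventually.of_forall hprod)
  have h3 : ∫ z in V, (‖u z‖ ^ 2 + ‖w z‖ ^ 2 * Real.exp (-φ z)) / 2 =
      ((∫ z in V, ‖u z‖ ^ 2) + ∫ z in V, ‖w z‖ ^ 2 * Real.exp (-φ z)) / 2 := by
    rw [integral_div, integral_add iu iw]
  rw [h3] at h2
  have h4 : ∫ z in V, ‖u z‖ ^ 2 ≤ ∫ z in V, ‖w z‖ ^ 2 * Real.exp (-φ z) := by linarith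
  rw [← ofReal_integral_eq_lintegral_ofReal iu (Filter.Eventually.of_forall fun z => by positivity),
    ← ofReal_integral_eq_lintegral_ofReal iw
      (Filter.Eventually.of_forall fun z => by positivity)]
  exact ENNReal.ofReal_le_ofReal h4

theorem B9b_fin2 {V : Set (Cn n)} (hV : MeasurableSet V) {f φ ψ : Cn n → ℝ} {S T : ℝ}
    (hS : ∀ z ∈ V, |φ z| ≤ S) (hT : ∀ z ∈ V, |ψ z| ≤ T) (hf : ∀ z ∈ V, 0 ≤ f z)
    (h : ∫⁻ z in V, ENNReal.ofReal (f z * Real.exp (-φ z)) ≠ ⊤) :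
    ∫⁻ z in V, ENNReal.ofReal (f z * Real.exp (-ψ z)) ≠ ⊤ := by
  have h1 := B9b_fin hV (f := fun z => f z * Real.exp (-φ z)) (φ := fun z => ψ z - φ z)
    (S := S + T) (fun z hz => by
      have h1 := abs_le.1 (hS z hz)
      have h2 := abs_le.1 (hT z hz)
      linarith [h1.2, h2.1]) (fun z hz => mul_nonneg (hf z hz) (Real.exp_pos _).le) h
  have h2 : ∀ z, f z * Real.exp (-φ z) * Real.exp (-(ψ z - φ z)) = f z * Real.exp (-ψ z) := by
    intro z
    rw [mul_assoc, ← Real.exp_add]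
    congr 2
    ring
  simpa only [h2] using h1

theorem B9b_split {V : Set (Cn n)} (hV : MeasurableSet V) {q : Cn n → ℝ} {u : Cn n → ℂ}
    {φ : Cn n → ℝ} (hq0 : ∀ z ∈ V, 0 ≤ q z) (hqm : AEMeasurable q (volume.restrict V)) :
    ∫⁻ z in V, ENNReal.ofReal (Real.exp (φ z) * (2 * q z + ‖u z‖ ^ 2 / 6) * Real.exp (-φ z)) =
      2 * (∫⁻ z in V, ENNReal.ofReal (q z)) +
        ENNReal.ofReal (1 / 6) * ∫⁻ z in V, ENNReal.ofReal (‖u z‖ ^ 2) := by
  have h1 : ∫⁻ z in V, ENNReal.ofReal (Real.exp (φ z) * (2 * q z + ‖u z‖ ^ 2 / 6) *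
      Real.exp (-φ z)) = ∫⁻ z in V, (ENNReal.ofReal 2 * ENNReal.ofReal (q z) +
        ENNReal.ofReal (1 / 6) * ENNReal.ofReal (‖u z‖ ^ 2)) := by
    refine setLIntegral_congr_fun hV fun z hz => ?_
    have h2 : Real.exp (φ z) * (2 * q z + ‖u z‖ ^ 2 / 6) * Real.exp (-φ z) =
        2 * q z + 1 / 6 * ‖u z‖ ^ 2 := by
      rw [mul_comm (Real.exp (φ z)), mul_assoc, ← Real.exp_add, add_neg_cancel, Real.exp_zero]
      ring
    show ENNReal.ofReal _ = _
    rw [h2, ENNReal.ofReal_add (by linarith [hq0 z hz]) (by positivity),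
      ENNReal.ofReal_mul (by norm_num), ENNReal.ofReal_mul (by norm_num)]
  rw [h1, lintegral_add_left' ((hqm.ennreal_ofReal).const_mul _),
    lintegral_const_mul' _ _ ENNReal.ofReal_ne_top, lintegral_const_mul' _ _ ENNReal.ofReal_ne_top]
  congr 2
  exact ENNReal.ofReal_ofNat 2

theorem B9b_arith {A Q : ℝ≥0∞} (hA : A ≠ ⊤) (hQ : Q ≠ ⊤)
    (h : A ≤ 3 * (2 * Q + ENNReal.ofReal (1 / 6) * A)) : A ≤ 12 * Q := by
  have h1 : 2 * Q + ENNReal.ofReal (1 / 6) * A ≠ ⊤ :=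
    ENNReal.add_ne_top.2 ⟨ENNReal.mul_ne_top (by norm_num) hQ,
      ENNReal.mul_ne_top ENNReal.ofReal_ne_top hA⟩
  have h2 : 3 * (2 * Q + ENNReal.ofReal (1 / 6) * A) ≠ ⊤ :=
    ENNReal.mul_ne_top (by norm_num) h1
  have h3 := (ENNReal.toReal_le_toReal hA h2).2 h
  rw [ENNReal.toReal_mul, ENNReal.toReal_add (ENNReal.mul_ne_top (by norm_num) hQ)
    (ENNReal.mul_ne_top ENNReal.ofReal_ne_top hA), ENNReal.toReal_mul, ENNReal.toReal_mul,
    ENNReal.toReal_ofReal (by norm_num)] at h3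
  have e3 : (3 : ℝ≥0∞).toReal = 3 := by norm_num
  have e2 : (2 : ℝ≥0∞).toReal = 2 := by norm_num
  rw [e3, e2] at h3
  rw [← ENNReal.toReal_le_toReal hA (ENNReal.mul_ne_top (by norm_num) hQ), ENNReal.toReal_mul]
  have e12 : (12 : ℝ≥0∞).toReal = 12 := by norm_num
  rw [e12]
  linarith

/-- Step on a sublevel set `U_t = {φ < t}`: `ψ = -log (t - φ)`, `hormander` with `Φ = φ`, minimal
solution `u` in `L²(U_t, e^{-φ/2})`, `v = e^{φ/2} u` is the minimal solution of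
`∂̄v = e^{φ/2}(β + ½ u ∂̄φ)` in `L²(U_t, e^{-φ})`, so by `hormander`
`∫|u|² = ∫|v|²e^{-φ} ≤ 3 ∫ (2q + ½|u|²/3) `, hence `∫ |u|² ≤ 12 ∫ q`. -/
theorem df_step {U : Set (Cn n)} (hU : IsOpen U) {φ q : Cn n → ℝ} (hφ : ContDiffOn ℝ 2 φ U)
    (hex : ∀ c : ℝ, IsCompact {z | z ∈ U ∧ φ z ≤ c})
    (hpos : ∀ z ∈ U, ∀ X : Cn n, X ≠ 0 → 0 < levi φ z X)
    (hDF : ∀ z ∈ U, ∀ X, 3 * ‖ell φ z X‖ ^ 2 ≤ levi φ z X)
    (β : Cn n → Fin n → ℂ) (hβm : ∀ j, AEStronglyMeasurable (fun z => β z j) (volume.restrict U))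
    (hcl : WeakClosed U β) (hqm : AEMeasurable q (volume.restrict U)) (hq0 : ∀ z ∈ U, 0 ≤ q z)
    (hq : ∀ z ∈ U, ∀ X, ‖formEval (β z) X‖ ^ 2 ≤ q z * levi φ z X)
    (hfin : ∫⁻ z in U, ENNReal.ofReal (q z) ≠ ⊤) (t : ℝ) :
    ∃ u : Cn n → ℂ, AEStronglyMeasurable u (volume.restrict {z | z ∈ U ∧ φ z < t}) ∧
      WeakDbar {z | z ∈ U ∧ φ z < t} u β ∧
      ∫⁻ z in {z | z ∈ U ∧ φ z < t}, ENNReal.ofReal (‖u z‖ ^ 2)
        ≤ 12 * ∫⁻ z in U, ENNReal.ofReal (q z) := by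
  have hVo : IsOpen {z | z ∈ U ∧ φ z < t} := B9b_open hU hφ t
  have hor := fun (β : Cn n → Fin n → ℂ) (q : Cn n → ℝ) =>
    B9b_hor (q := q) hU hφ hex hpos t β
  obtain ⟨C, hC, hCK⟩ := levi_bdd hU hφ (hex t) (fun z hz => hz.1)
  obtain ⟨S, hS⟩ := (hex t).exists_bound_of_continuousOn
    (hφ.continuousOn.mono (fun z hz => hz.1 : {z | z ∈ U ∧ φ z ≤ t} ⊆ U))
  set V : Set (Cn n) := {z | z ∈ U ∧ φ z < t} with hV
  have hVm : MeasurableSet V := hVo.measurableSet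
  have hVU : V ⊆ U := fun z hz => hz.1
  have hSV : ∀ z ∈ V, |φ z| ≤ S := fun z hz => hS z ⟨hz.1, hz.2.le⟩
  have hS2 : ∀ z ∈ V, |φ z / 2| ≤ S := by
    intro z hz
    rw [abs_div, abs_of_pos (by norm_num : (0 : ℝ) < 2)]
    have := hSV z hz
    have := abs_nonneg (φ z)
    linarith
  have hφV : ContinuousOn φ V := hφ.continuousOn.mono hVU
  have hφm : AEMeasurable φ (volume.restrict V) := hφV.aemeasurable hVm
  have hres : volume.restrict V ≤ volume.restrict U := Measure.restrict_mono hVU le_rfl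
  have hβm' : ∀ j, AEStronglyMeasurable (fun z => β z j) (volume.restrict V) :=
    fun j => (hβm j).mono_measure hres
  have hqm' : AEMeasurable q (volume.restrict V) := hqm.mono_measure hres
  have hcl' : WeakClosed V β := hcl.mono hVU
  have hfinV : ∫⁻ z in V, ENNReal.ofReal (q z) ≠ ⊤ :=
    ne_top_of_le_ne_top hfin (lintegral_mono_set hVU)
  -- local square integrability of the data
  have hβL : ∀ j, LocL2 V fun z => β z j := by
    intro j
    refine locL2_of_lintegral (φ := fun _ => 0) hVo continuousOn_const (hβm' j) ?_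
    have h1 : ∫⁻ z in V, ENNReal.ofReal (‖β z j‖ ^ 2 * Real.exp (-0)) ≤
        ∫⁻ z in V, ENNReal.ofReal (C * nsq (ee j : Cn n)) * ENNReal.ofReal (q z) := by
      refine setLIntegral_mono' hVm fun z hz => ?_
      have h2 : 0 ≤ C * nsq (ee j : Cn n) :=
        mul_nonneg hC.le (Finset.sum_nonneg fun i _ => by positivity)
      rw [← ENNReal.ofReal_mul h2]
      refine ENNReal.ofReal_le_ofReal ?_
      rw [neg_zero, Real.exp_zero, mul_one]
      have h3 := hq z hz.1 (ee j)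
      have h4 : formEval (β z) (ee j) = β z j := by
        unfold formEval ee
        rw [Finset.sum_eq_single j]
        · rw [Pi.single_eq_same, map_one, mul_one]
        · intro b _ hb
          rw [Pi.single_eq_of_ne hb, map_zero, mul_zero]
        · intro h
          exact absurd (Finset.mem_univ j) h
      rw [h4] at h3
      refine h3.trans ?_
      rw [mul_comm]
      refine mul_le_mul_of_nonneg_right ?_ (hq0 z hz.1)
      exact (le_abs_self _).trans (hCK z ⟨hz.1, hz.2.le⟩ (ee j)).1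
    refine ne_top_of_le_ne_top ?_ h1
    rw [lintegral_const_mul' _ _ ENNReal.ofReal_ne_top]
    exact ENNReal.mul_ne_top ENNReal.ofReal_ne_top hfinV
  -- a first solution
  have hqfin : ∫⁻ z in V, ENNReal.ofReal (q z * Real.exp (-φ z)) ≠ ⊤ :=
    B9b_fin hVm (S := S) (fun z hz => (abs_le.1 (hSV z hz)).1) (fun z hz => hq0 z hz.1) hfinV
  obtain ⟨u0, hu0m, hu0, hu0f⟩ := hor β q hβm' hcl' hqm' (fun z hz => hq0 z hz.1)
    (fun z hz => hq z hz.1) hqfin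
  have hu0f' : ∫⁻ z in V, ENNReal.ofReal (‖u0 z‖ ^ 2 * Real.exp (-φ z)) ≠ ⊤ :=
    ne_top_of_le_ne_top (ENNReal.mul_ne_top (by norm_num) hqfin) hu0f
  -- the minimal solution
  obtain ⟨u, hum, hud, huf, hmin⟩ := exists_minimal hVo (φ := fun z => φ z / 2)
    (hφV.div_const 2) β hβL ⟨u0, hu0m, hu0,
      B9b_fin2 hVm hSV hS2 (fun z _ => by positivity) hu0f'⟩
  have hu2 : ∫⁻ z in V, ENNReal.ofReal (‖u z‖ ^ 2) ≠ ⊤ := by
    have h1 := B9b_fin2 hVm (φ := fun z => φ z / 2) (ψ := fun _ => 0) (T := 0) hS2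
      (fun z _ => by simp) (fun z _ => by positivity) huf
    simpa only [neg_zero, Real.exp_zero, mul_one] using h1
  have huL : LocL2 V u := locL2_of_lintegral hVo (hφV.div_const 2) hum huf
  -- the twisted equation
  have hac : ContDiffOn ℝ 2 (fun z => ((Real.exp (φ z / 2) : ℝ) : ℂ)) V :=
    Complex.ofRealCLM.contDiff.comp_contDiffOn (((hφ.mono hVU).div_const 2).exp)
  have ha1 : ContDiffOn ℝ 1 (fun z => ((Real.exp (φ z / 2) : ℝ) : ℂ)) V := hac.of_le (by norm_num)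
  have hvd := WeakDbar.mul hVo huL hβL hud ha1
  have hda : ∀ j : Fin n, ContinuousOn
      (fun z => dzb (fun y => ((Real.exp (φ y / 2) : ℝ) : ℂ)) z (ee j)) V := by
    intro j
    have h1 := ha1.continuousOn_fderiv_of_isOpen hVo le_rfl
    unfold dzb
    exact continuousOn_const.mul ((h1.clm_apply continuousOn_const).add
      (continuousOn_const.mul (h1.clm_apply continuousOn_const)))
  have hvL : LocL2 V (fun z => ((Real.exp (φ z / 2) : ℝ) : ℂ) * u z) :=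
    huL.mul_continuousOn ha1.continuousOn hVo
  have hγL : ∀ j, LocL2 V (fun z => ((Real.exp (φ z / 2) : ℝ) : ℂ) * β z j +
      u z * dzb (fun y => ((Real.exp (φ y / 2) : ℝ) : ℂ)) z (ee j)) := by
    intro j
    refine LocL2.add ((hβL j).mul_continuousOn ha1.continuousOn hVo) ?_
    have h1 := huL.mul_continuousOn (hda j) hVo
    simpa only [mul_comm] using h1
  have hγm : ∀ j, AEStronglyMeasurable (fun z => ((Real.exp (φ z / 2) : ℝ) : ℂ) * β z j +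
      u z * dzb (fun y => ((Real.exp (φ y / 2) : ℝ) : ℂ)) z (ee j)) (volume.restrict V) := by
    intro j
    exact ((ha1.continuousOn.aestronglyMeasurable hVm).mul (hβm' j)).add
      (hum.mul ((hda j).aestronglyMeasurable hVm))
  have hq'm : AEMeasurable (fun z => Real.exp (φ z) * (2 * q z + ‖u z‖ ^ 2 / 6))
      (volume.restrict V) :=
    (Real.measurable_exp.comp_aemeasurable hφm).mul
      ((hqm'.const_mul 2).add (((hum.norm.aemeasurable).pow_const 2).div_const 6))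
  have hsplit := B9b_split (u := u) (φ := φ) hVm (fun z hz => hq0 z hz.1) hqm'
  have hq'fin : ∫⁻ z in V, ENNReal.ofReal (Real.exp (φ z) * (2 * q z + ‖u z‖ ^ 2 / 6) *
      Real.exp (-φ z)) ≠ ⊤ := by
    rw [hsplit]
    exact ENNReal.add_ne_top.2 ⟨ENNReal.mul_ne_top (by norm_num) hfinV,
      ENNReal.mul_ne_top ENNReal.ofReal_ne_top hu2⟩
  obtain ⟨w, hwm, hwd, hwf⟩ := hor _ (fun z => Real.exp (φ z) * (2 * q z + ‖u z‖ ^ 2 / 6))
    hγm hvd.closed hq'm (fun z hz => mul_nonneg (Real.exp_pos _).le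
      (by have := hq0 z hz.1; positivity))
    (fun z hz X => B9b_form ((hφ.contDiffAt (hU.mem_nhds hz.1)).differentiableAt (by norm_num))
      (β z) (u z) (hq z hz.1) (hDF z hz.1) X) hq'fin
  have hwf' : ∫⁻ z in V, ENNReal.ofReal (‖w z‖ ^ 2 * Real.exp (-φ z)) ≠ ⊤ :=
    ne_top_of_le_ne_top (ENNReal.mul_ne_top (by norm_num) hq'fin) hwf
  have hwL : LocL2 V w := locL2_of_lintegral hVo hφV hwm hwf'
  -- minimality
  have hhd : WeakDbar V (fun z => ((Real.exp (φ z / 2) : ℝ) : ℂ) * u z - w z)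
      (fun _ _ => 0) := by
    have h1 := WeakDbar.sub hVo hvL hwL hγL hγL hvd hwd
    simpa only [sub_self] using h1
  have hhm : AEStronglyMeasurable (fun z => ((Real.exp (φ z / 2) : ℝ) : ℂ) * u z - w z)
      (volume.restrict V) :=
    ((ha1.continuousOn.aestronglyMeasurable hVm).mul hum).sub hwm
  have hhf : ∫⁻ z in V, ENNReal.ofReal (‖((Real.exp (φ z / 2) : ℝ) : ℂ) * u z - w z‖ ^ 2 *
      Real.exp (-φ z)) ≠ ⊤ := by
    have h1 : ∫⁻ z in V, ENNReal.ofReal (‖((Real.exp (φ z / 2) : ℝ) : ℂ) * u z - w z‖ ^ 2 *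
        Real.exp (-φ z)) ≤ ∫⁻ z in V, (2 * ENNReal.ofReal (‖u z‖ ^ 2) +
          2 * ENNReal.ofReal (‖w z‖ ^ 2 * Real.exp (-φ z))) := by
      refine lintegral_mono fun z => ?_
      have h2 : ‖((Real.exp (φ z / 2) : ℝ) : ℂ) * u z - w z‖ ^ 2 * Real.exp (-φ z) ≤
          2 * ‖u z‖ ^ 2 + 2 * (‖w z‖ ^ 2 * Real.exp (-φ z)) := by
        have h3 := norm_sub_le (((Real.exp (φ z / 2) : ℝ) : ℂ) * u z) (w z)
        have h4 : ‖((Real.exp (φ z / 2) : ℝ) : ℂ) * u z‖ ^ 2 * Real.exp (-φ z) = ‖u z‖ ^ 2 := by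
          rw [norm_mul, mul_pow, Complex.norm_real, Real.norm_eq_abs, sq_abs]
          have h5 : Real.exp (φ z / 2) ^ 2 * Real.exp (-φ z) = 1 := by
            rw [← Real.exp_nat_mul, ← Real.exp_add]
            have : ((2 : ℕ) : ℝ) * (φ z / 2) + -φ z = 0 := by push_cast; ring
            rw [this, Real.exp_zero]
          calc Real.exp (φ z / 2) ^ 2 * ‖u z‖ ^ 2 * Real.exp (-φ z)
              = (Real.exp (φ z / 2) ^ 2 * Real.exp (-φ z)) * ‖u z‖ ^ 2 := by ring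
            _ = ‖u z‖ ^ 2 := by rw [h5, one_mul]
        have h6 := Real.exp_pos (-φ z)
        have h7 : ‖((Real.exp (φ z / 2) : ℝ) : ℂ) * u z - w z‖ ^ 2 ≤
            2 * ‖((Real.exp (φ z / 2) : ℝ) : ℂ) * u z‖ ^ 2 + 2 * ‖w z‖ ^ 2 := by
          have := norm_nonneg (((Real.exp (φ z / 2) : ℝ) : ℂ) * u z - w z)
          nlinarith [sq_nonneg (‖((Real.exp (φ z / 2) : ℝ) : ℂ) * u z‖ - ‖w z‖)]
        calc _ ≤ (2 * ‖((Real.exp (φ z / 2) : ℝ) : ℂ) * u z‖ ^ 2 + 2 * ‖w z‖ ^ 2) *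
              Real.exp (-φ z) := mul_le_mul_of_nonneg_right h7 h6.le
          _ = 2 * (‖((Real.exp (φ z / 2) : ℝ) : ℂ) * u z‖ ^ 2 * Real.exp (-φ z)) +
              2 * (‖w z‖ ^ 2 * Real.exp (-φ z)) := by ring
          _ = _ := by rw [h4]
      refine (ENNReal.ofReal_le_ofReal h2).trans ?_
      rw [ENNReal.ofReal_add (by positivity) (by positivity), ENNReal.ofReal_mul (by norm_num),
        ENNReal.ofReal_mul (by norm_num : (0 : ℝ) ≤ 2), ENNReal.ofReal_ofNat]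
    refine ne_top_of_le_ne_top ?_ h1
    rw [lintegral_add_left' (((hum.norm.aemeasurable.pow_const 2).ennreal_ofReal).const_mul _),
      lintegral_const_mul' _ _ (by norm_num), lintegral_const_mul' _ _ (by norm_num)]
    exact ENNReal.add_ne_top.2 ⟨ENNReal.mul_ne_top (by norm_num) hu2,
      ENNReal.mul_ne_top (by norm_num) hwf'⟩
  have horth := hmin _ hhm hhd (B9b_fin2 hVm hSV hS2 (fun z _ => by positivity) hhf)
  have hfinal := B9b_min hφm hum hwm hu2 hwf' horth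
  refine ⟨u, hum, hud, ?_⟩
  have h1 : ∫⁻ z in V, ENNReal.ofReal (‖u z‖ ^ 2) ≤ 12 * ∫⁻ z in V, ENNReal.ofReal (q z) := by
    refine B9b_arith hu2 hfinV ?_
    rw [← hsplit]
    exact hfinal.trans hwf
  exact h1.trans (mul_le_mul_right (lintegral_mono_set hVU) 12)

theorem donnelly_fefferman {U : Set (Cn n)} (hU : IsOpen U) {φ q : Cn n → ℝ}
    (hφ : ContDiffOn ℝ 2 φ U) (hex : ∀ c : ℝ, IsCompact {z | z ∈ U ∧ φ z ≤ c})
    (hpos : ∀ z ∈ U, ∀ X : Cn n, X ≠ 0 → 0 < levi φ z X)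
    (hDF : ∀ z ∈ U, ∀ X, 3 * ‖ell φ z X‖ ^ 2 ≤ levi φ z X)
    (β : Cn n → Fin n → ℂ) (hβm : ∀ j, AEStronglyMeasurable (fun z => β z j) (volume.restrict U))
    (hcl : WeakClosed U β) (hqm : AEMeasurable q (volume.restrict U)) (hq0 : ∀ z ∈ U, 0 ≤ q z)
    (hq : ∀ z ∈ U, ∀ X, ‖formEval (β z) X‖ ^ 2 ≤ q z * levi φ z X)
    (hfin : ∫⁻ z in U, ENNReal.ofReal (q z) ≠ ⊤) :
    ∃ u : Cn n → ℂ, AEStronglyMeasurable u (volume.restrict U) ∧ WeakDbar U u β ∧
      ∫⁻ z in U, ENNReal.ofReal (‖u z‖ ^ 2) ≤ 12 * ∫⁻ z in U, ENNReal.ofReal (q z) := by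
  have h := exhaustion_limit (U := U) (fun m : ℕ => {z | z ∈ U ∧ φ z < m})
    (fun m => B9b_open hU hφ m) (fun a b hab z hz => ⟨hz.1, hz.2.trans_le (by exact_mod_cast hab)⟩)
    (by
      ext z
      simp only [mem_iUnion]
      constructor
      · rintro ⟨m, hm⟩
        exact hm.1
      · intro hz
        obtain ⟨m, hm⟩ := exists_nat_gt (φ z)
        exact ⟨m, hz, hm⟩) (Φ := fun _ => 0) continuousOn_const β
    (C := 12 * ∫⁻ z in U, ENNReal.ofReal (q z)) (ENNReal.mul_ne_top (by norm_num) hfin)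
    (fun m => by
      obtain ⟨u, h1, h2, h3⟩ := df_step hU hφ hex hpos hDF β hβm hcl hqm hq0 hq hfin m
      refine ⟨u, h1, h2, ?_⟩
      simpa only [neg_zero, Real.exp_zero, mul_one] using h3)
  simpa only [neg_zero, Real.exp_zero, mul_one] using h

end HankelSPC
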