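import Pool.Agent.Lib.MP_e1cf54_an.Defs

/-! Definitions for the `L²` theory of `∂̄` (weights). -/

open MeasureTheory Set
open scoped ENNReal NNReal Topology ContDiff

namespace HankelSPC

variable {n : ℕ}

/-- Admissible triple of weights on `U` (`φ₁ = φ - 2τ`, `φ₂ = φ - τ`, `φ₃ = φ`). -/
structure Wt (U : Set (Cn n)) (Φ φ τ : Cn n → ℝ) : Prop where
  isOpen : IsOpen U
  cΦ : ContDiffOn ℝ 2 Φ U
  cφ : ContDiffOn ℝ 2 φ U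
  cτ : ContDiffOn ℝ 2 τ U
  levi_le : ∀ z ∈ U, ∀ X, levi Φ z X + 2 * ‖ell τ z X‖ ^ 2 ≤ levi φ z X
  nonneg : ∀ z ∈ U, ∀ X, 0 ≤ levi Φ z X
  cutoff : ∃ (M : ℝ) (θ : ℕ → Cn n → ℝ), (∀ m, ContDiff ℝ 2 (θ m)) ∧
    (∀ m, HasCompactSupport (θ m)) ∧ (∀ m, tsupport (θ m) ⊆ U) ∧
    (∀ m z, 0 ≤ θ m z ∧ θ m z ≤ 1) ∧
    (∀ K, K ⊆ U → IsCompact K → ∀ᶠ m in Filter.atTop, ∀ z ∈ K, θ m z = 1) ∧
    ∀ m, ∀ z ∈ U, ∑ j, ‖ell (θ m) z (ee j)‖ ^ 2 ≤ M * Real.exp (τ z)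

/-- `T* α = g` in the weak sense: for all test functions `v`,
`∫ ∑_j ∂̄_jv conj(α_j) e^{-φ₂} = ∫ v conj(g) e^{-φ₁}`. -/
def WeakAdj (U : Set (Cn n)) (φ τ : Cn n → ℝ) (α : Cn n → Fin n → ℂ) (g : Cn n → ℂ) : Prop :=
  ∀ v, IsTest U v →
    ∫ z in U, (∑ j, dzb v z (ee j) * (starRingEnd ℂ) (α z j)) * Real.exp (-(φ z - τ z))
      = ∫ z in U, v z * (starRingEnd ℂ) (g z) * Real.exp (-(φ z - 2 * τ z))

/-- `h j k = ∂̄_k α_j - ∂̄_j α_k` in the weak sense. -/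
def WeakCurl (U : Set (Cn n)) (α : Cn n → Fin n → ℂ) (h : Cn n → Fin n → Fin n → ℂ) : Prop :=
  ∀ v, IsTest U v → ∀ j k,
    ∫ z in U, (α z j * dzb v z (ee k) - α z k * dzb v z (ee j)) = - ∫ z in U, h z j k * v z

end HankelSPC
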