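import Pool.Agent.Lib.MP_e1cf54_an.L2a

/-! Row C0a: local facts on defining functions. -/

open MeasureTheory Set
open scoped ENNReal NNReal Topology ContDiff

namespace HankelSPC

variable {n : ℕ}

lemma C0a_diff {Ω U : Set (Cn n)} {ρ : Cn n → ℝ} (h : IsLocDef Ω U ρ) {z : Cn n} (hz : z ∈ U) :
    DifferentiableAt ℝ ρ z :=
  (h.smooth.contDiffAt (h.isOpen.mem_nhds hz)).differentiableAt (by simp)

lemma IsLocDef.eq_zero {Ω U : Set (Cn n)} {ρ : Cn n → ℝ} (hΩ : IsOpen Ω) (h : IsLocDef Ω U ρ)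
    {z : Cn n} (hz : z ∈ U) (hz' : z ∈ frontier Ω) : ρ z = 0 := by
  have h1 : z ∉ Ω := fun h2 => by
    rw [hΩ.frontier_eq] at hz'
    exact hz'.2 h2
  have h2 : 0 ≤ ρ z := by
    by_contra h3
    push Not at h3
    exact h1 ((h.iff z hz).2 h3)
  refine le_antisymm ?_ h2
  by_contra h3
  push Not at h3
  have h4 : ContinuousAt ρ z := (C0a_diff h hz).continuousAt
  have h5 : ∀ᶠ w in 𝓝 z, 0 < ρ w := h4.eventually (lt_mem_nhds h3)
  have h6 : ∀ᶠ w in 𝓝 z, w ∈ U := h.isOpen.mem_nhds hz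
  have h7 : ∃ᶠ w in 𝓝 z, w ∈ Ω := mem_closure_iff_frequently.1 hz'.1
  obtain ⟨w, hw1, hw2, hw3⟩ := (h7.and_eventually (h5.and h6)).exists
  have h8 := (h.iff w hw3).1 hw1
  linarith

/-- moving in a direction with negative derivative -/
lemma C0a_neg {ρ : Cn n → ℝ} {z v : Cn n} (hd : DifferentiableAt ℝ ρ z) (hv : fderiv ℝ ρ z v < 0) :
    ∀ᶠ t : ℝ in 𝓝[>] 0, ρ (z + t • v) < ρ z := by
  have h1 : HasDerivAt (fun t : ℝ => z + t • v) v 0 := by
    have := ((hasDerivAt_id (0 : ℝ)).smul_const v).const_add z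
    simpa using this
  have h2 : HasDerivAt (fun t : ℝ => ρ (z + t • v)) (fderiv ℝ ρ z v) 0 := by
    have h3 : HasFDerivAt ρ (fderiv ℝ ρ z) (z + (0 : ℝ) • v) := by
      rw [zero_smul, add_zero]
      exact hd.hasFDerivAt
    exact h3.comp_hasDerivAt 0 h1
  have h4 := hasDerivAt_iff_tendsto_slope.1 h2
  have h5 : ∀ᶠ t : ℝ in 𝓝[≠] 0, slope (fun t : ℝ => ρ (z + t • v)) 0 t < 0 :=
    h4.eventually (gt_mem_nhds hv)
  have h6 : 𝓝[>] (0 : ℝ) ≤ 𝓝[≠] 0 := nhdsWithin_mono _ (fun t ht => (ne_of_gt ht))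
  filter_upwards [h6 h5, self_mem_nhdsWithin] with t ht ht0
  have ht0' : (0 : ℝ) < t := ht0
  rw [slope_def_field, sub_zero] at ht
  have h7 : ρ (z + t • v) - ρ (z + (0 : ℝ) • v) < 0 := by
    by_contra h8
    push Not at h8
    have h9 := div_nonneg h8 ht0'.le
    linarith
  rw [zero_smul, add_zero] at h7
  linarith

lemma C0a_event {z v : Cn n} {U : Set (Cn n)} (hU : IsOpen U) (hz : z ∈ U) :
    ∀ᶠ t : ℝ in 𝓝[>] 0, z + t • v ∈ U := by
  have h1 : Continuous fun t : ℝ => z + t • v := by fun_prop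
  have h2 : Filter.Tendsto (fun t : ℝ => z + t • v) (𝓝[>] 0) (𝓝 z) := by
    have h3 := (h1.tendsto 0).mono_left (nhdsWithin_le_nhds (s := Ioi (0 : ℝ)))
    simpa using h3
  exact h2.eventually (hU.mem_nhds hz)

lemma C0a_mem {Ω U : Set (Cn n)} {ρ : Cn n → ℝ} (h : IsLocDef Ω U ρ) {z v : Cn n} (hz : z ∈ U)
    (hz0 : ρ z = 0) (hv : fderiv ℝ ρ z v < 0) : ∀ᶠ t : ℝ in 𝓝[>] 0, z + t • v ∈ Ω := by
  filter_upwards [C0a_neg (C0a_diff h hz) hv, C0a_event h.isOpen hz] with t h1 h2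
  rw [hz0] at h1
  exact (h.iff _ h2).2 h1

lemma C0a_exists_neg {A : Cn n →L[ℝ] ℝ} (hA : A ≠ 0) : ∃ v, A v < 0 := by
  by_contra h
  push Not at h
  apply hA
  ext v
  have h1 := h v
  have h2 := h (-v)
  rw [map_neg] at h2
  show A v = 0
  linarith

/-- If `ρ z = 0` then `z ∈ closure Ω` because `dρ(z) ≠ 0`. -/
lemma IsLocDef.pos {Ω U : Set (Cn n)} {ρ : Cn n → ℝ} (h : IsLocDef Ω U ρ)
    {z : Cn n} (hz : z ∈ U) (hz' : z ∉ closure Ω) : 0 < ρ z := by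
  have h1 : 0 ≤ ρ z := by
    by_contra h3
    push Not at h3
    exact hz' (subset_closure ((h.iff z hz).2 h3))
  refine lt_of_le_of_ne h1 (fun h0 => hz' ?_)
  obtain ⟨v, hv⟩ := C0a_exists_neg (h.grad z hz)
  have h2 := C0a_mem h hz h0.symm hv
  have h3 : Filter.Tendsto (fun t : ℝ => z + t • v) (𝓝[>] 0) (𝓝 z) := by
    have h4 : Continuous fun t : ℝ => z + t • v := by fun_prop
    have h5 := (h4.tendsto 0).mono_left (nhdsWithin_le_nhds (s := Ioi (0 : ℝ)))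
    simpa using h5
  exact mem_closure_of_tendsto h3 h2

/-- Two local defining functions have positively proportional differentials at boundary points:
`dρ₁(v) < 0` implies `z + tv ∈ Ω` for small `t > 0`, hence `dρ₂(v) ≤ 0`. -/
theorem IsLocDef.fderiv_proportional {Ω U V : Set (Cn n)} {ρ σ : Cn n → ℝ} (hΩ : IsOpen Ω)
    (h : IsLocDef Ω U ρ) (h' : IsLocDef Ω V σ) {z : Cn n} (hzU : z ∈ U) (hzV : z ∈ V)
    (hz : z ∈ frontier Ω) : ∃ a : ℝ, 0 < a ∧ fderiv ℝ σ z = a • fderiv ℝ ρ z := by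
  have hρ0 : ρ z = 0 := h.eq_zero hΩ hzU hz
  have hσ0 : σ z = 0 := h'.eq_zero hΩ hzV hz
  -- first step
  have h1 : ∀ v, fderiv ℝ ρ z v < 0 → fderiv ℝ σ z v ≤ 0 := by
    intro v hv
    by_contra h2
    push Not at h2
    have h3 : fderiv ℝ (fun w => -σ w) z v < 0 := by
      rw [fderiv_fun_neg]
      show -(fderiv ℝ σ z v) < 0
      linarith
    have h4 := C0a_neg (ρ := fun w => -σ w) (C0a_diff h' hzV).neg h3
    have h5 := C0a_mem h hzU hρ0 hv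
    obtain ⟨t, ht4, ht5, ht6⟩ := (h4.and (h5.and (C0a_event (v := v) h'.isOpen hzV))).exists
    have h6 := (h'.iff _ ht6).1 ht5
    rw [hσ0] at ht4
    linarith
  obtain ⟨v₀, hv₀⟩ := C0a_exists_neg (h.grad z hzU)
  have h2 : ∀ v, fderiv ℝ ρ z v ≤ 0 → fderiv ℝ σ z v ≤ 0 := by
    intro v hv
    have h3 : ∀ ε : ℝ, 0 < ε → fderiv ℝ σ z v + ε * fderiv ℝ σ z v₀ ≤ 0 := by
      intro ε hε
      have h4 := h1 (v + ε • v₀) (by
        rw [map_add, map_smul, smul_eq_mul]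
        nlinarith)
      rwa [map_add, map_smul, smul_eq_mul] at h4
    by_contra h5
    push Not at h5
    have h6 := h1 v₀ hv₀
    rcases eq_or_lt_of_le h6 with h7 | h7
    · have h8 := h3 1 one_pos
      rw [h7] at h8
      linarith
    · have h8 := h3 (fderiv ℝ σ z v / (2 * -fderiv ℝ σ z v₀)) (by
        apply div_pos h5
        linarith)
      have h9 : fderiv ℝ σ z v / (2 * -fderiv ℝ σ z v₀) * fderiv ℝ σ z v₀ = -(fderiv ℝ σ z v / 2) := by
        have h10 : fderiv ℝ σ z v₀ ≠ 0 := h7.ne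
        field_simp
      rw [h9] at h8
      linarith
  have h3 : ∀ v, fderiv ℝ ρ z v = 0 → fderiv ℝ σ z v = 0 := by
    intro v hv
    have h4 := h2 v hv.le
    have h5 := h2 (-v) (by rw [map_neg]; linarith)
    rw [map_neg] at h5
    linarith
  have hne : fderiv ℝ ρ z v₀ ≠ 0 := hv₀.ne
  have hprop : ∀ v, fderiv ℝ σ z v = (fderiv ℝ σ z v₀ / fderiv ℝ ρ z v₀) * fderiv ℝ ρ z v := by
    intro v
    have h4 := h3 (v - (fderiv ℝ ρ z v / fderiv ℝ ρ z v₀) • v₀) (by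
      rw [map_sub, map_smul, smul_eq_mul, div_mul_cancel₀ _ hne, sub_self])
    rw [map_sub, map_smul, smul_eq_mul] at h4
    have h5 : fderiv ℝ σ z v = fderiv ℝ ρ z v / fderiv ℝ ρ z v₀ * fderiv ℝ σ z v₀ := by linarith
    rw [h5]
    field_simp
  refine ⟨fderiv ℝ σ z v₀ / fderiv ℝ ρ z v₀, ?_, ?_⟩
  · have h4 := h1 v₀ hv₀
    have h5 : 0 ≤ fderiv ℝ σ z v₀ / fderiv ℝ ρ z v₀ := div_nonneg_of_nonpos h4 hv₀.le
    refine lt_of_le_of_ne h5 (fun h6 => ?_)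
    apply h'.grad z hzV
    ext v
    rw [hprop v, ← h6, zero_mul]
    rfl
  · ext v
    rw [hprop v]
    rfl

end HankelSPC
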