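import Pool.Agent.Lib.MP_e1cf54_an.C0a
import Pool.Agent.Lib.MP_e1cf54_an.L2b

/-! Row C0b: patching the local defining functions by a partition of unity. -/

open MeasureTheory Set
open scoped ENNReal NNReal Topology ContDiff Manifold

namespace HankelSPC

variable {n : ℕ}

private noncomputable def C0b_g {K : Set (Cn n)} (r : K → Cn n → ℝ) :
    Option (Option K) → Cn n → ℝ
  | none => fun _ => -1
  | some none => fun _ => 1
  | some (some p) => r p

private def C0b_U (Ω : Set (Cn n)) {K : Set (Cn n)} (V : K → Set (Cn n)) :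
    Option (Option K) → Set (Cn n)
  | none => Ω
  | some none => (closure Ω)ᶜ
  | some (some p) => V p

private lemma C0b_levi_sum {ι : Type*} [DecidableEq ι] (F : ι → Cn n → ℝ) (z X : Cn n)
    (S : Finset ι) : (∀ i ∈ S, ContDiffAt ℝ 2 (F i) z) →
    levi (fun w => ∑ i ∈ S, F i w) z X = ∑ i ∈ S, levi (F i) z X := by
  induction S using Finset.induction_on with
  | empty =>
    intro _
    simp only [Finset.sum_empty]
    have h1 := levi_const_mul (u := fun _ : Cn n => (0 : ℝ)) (z := z) contDiffAt_const 0 X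
    simpa using h1
  | insert i S hi ih =>
    intro hF
    simp only [Finset.sum_insert hi]
    rw [levi_add (hF i (Finset.mem_insert_self i S))
      (ContDiffAt.sum fun j hj => hF j (Finset.mem_insert_of_mem hj)),
      ih fun j hj => hF j (Finset.mem_insert_of_mem hj)]

/-- Finite smooth partition of unity near the compact `∂Ω`: `ρ₀ = ∑ χ_p ρ_p - χ_in + χ_out` where
`χ_in` is supported in `Ω`, `χ_out` in the complement of `closure Ω` and equals `1` far away,
`χ_p` supported in `U_p` (`SmoothPartitionOfUnity`, or bump functions `h_p`, and division by the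
positive sum). At a boundary point: `dρ₀ = ∑ χ_p dρ_p ≠ 0` (all positively proportional), and for
`X` with `∂ρ₀(z)(X) = 0` all `∂ρ_p(z)(X) = 0`, `levi ρ₀(X) = ∑ χ_p levi ρ_p(X) > 0` (`levi_mul`,
`ρ_p(z) = 0`). -/
theorem exists_rho0 {Ω : Set (Cn n)} (h : IsSPC Ω) :
    ∃ ρ : Cn n → ℝ, ContDiff ℝ 2 ρ ∧ (∃ R, ∀ z, R ≤ ‖z‖ → ρ z = 1) ∧ (∀ z, z ∈ Ω ↔ ρ z < 0) ∧
      (∀ z ∈ frontier Ω, ρ z = 0 ∧ fderiv ℝ ρ z ≠ 0 ∧
        ∀ X : Cn n, X ≠ 0 → ell ρ z X = 0 → 0 < levi ρ z X) ∧
      ∀ z, z ∉ closure Ω → 0 < ρ z := by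
  classical
  -- local defining functions
  have hloc : ∀ p : frontier Ω, ∃ V : Set (Cn n), ∃ r : Cn n → ℝ, (p : Cn n) ∈ V ∧
      IsLocDef Ω V r ∧ V ⊆ Metric.ball (p : Cn n) 1 := by
    rintro ⟨p, hp⟩
    obtain ⟨U, hU, hpU, ρ, h1, h2, h3, h4⟩ := h.defining p hp
    exact ⟨U ∩ Metric.ball p 1, ρ, ⟨hpU, Metric.mem_ball_self one_pos⟩,
      ⟨hU.inter Metric.isOpen_ball, h1.mono inter_subset_left, fun z hz => h2 z hz.1,
        fun z hz => h3 z hz.1, fun z hz => h4 z hz.1⟩, inter_subset_right⟩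
  choose V r hpV hV hVb using hloc
  have ho : ∀ i, IsOpen (C0b_U Ω V i) := by
    rintro (_ | _ | p)
    · exact h.isOpen
    · exact isClosed_closure.isOpen_compl
    · exact (hV p).isOpen
  have hcov : (univ : Set (Cn n)) ⊆ ⋃ i, C0b_U Ω V i := by
    intro z _
    rw [mem_iUnion]
    by_cases h1 : z ∈ Ω
    · exact ⟨none, h1⟩
    · by_cases h2 : z ∈ closure Ω
      · have h3 : z ∈ frontier Ω := by
          rw [h.isOpen.frontier_eq]
          exact ⟨h2, h1⟩
        exact ⟨some (some ⟨z, h3⟩), hpV ⟨z, h3⟩⟩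
      · exact ⟨some none, h2⟩
  obtain ⟨f, hf⟩ := SmoothPartitionOfUnity.exists_isSubordinate 𝓘(ℝ, Cn n) isClosed_univ
    (C0b_U Ω V) ho hcov
  set g : Option (Option (frontier Ω)) → Cn n → ℝ := C0b_g r with hg
  have hmemU : ∀ i z, f i z ≠ 0 → z ∈ C0b_U Ω V i := fun i z hi =>
    hf i (subset_tsupport _ hi)
  have hgs : ∀ i, ContDiffOn ℝ 2 (g i) (C0b_U Ω V i) := by
    rintro (_ | _ | p)
    · exact contDiffOn_const
    · exact contDiffOn_const
    · exact (hV p).smooth
  set ρ : Cn n → ℝ := fun z => ∑ᶠ i, f i z • g i z with hρ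
  have hρs : ContDiff ℝ 2 ρ := by
    rw [← contMDiff_iff_contDiff]
    exact hf.contMDiff_finsum_smul ho fun i => (hgs i).contMDiffOn
  have hfs : ∀ i, ContDiff ℝ 2 (f i : Cn n → ℝ) := fun i =>
    ((f i).contMDiff.contDiff).of_le (by norm_cast)
  have hρsum : ∀ z, ρ z = ∑ i ∈ f.finsupport z, f i z * g i z := by
    intro z
    have := f.sum_finsupport_smul_eq_finsum (x₀ := z) g
    simp only [smul_eq_mul] at this
    rw [hρ]
    simp only [smul_eq_mul]
    exact this.symm
  have hsum1 : ∀ z, ∑ i ∈ f.finsupport z, f i z = 1 := fun z => f.sum_finsupport z (mem_univ z)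
  have hne : ∀ z, (f.finsupport z).Nonempty := by
    intro z
    rw [Finset.nonempty_iff_ne_empty]
    intro h1
    have h2 := hsum1 z
    rw [h1, Finset.sum_empty] at h2
    exact zero_ne_one h2
  have hpos : ∀ z, ∀ i ∈ f.finsupport z, 0 < f i z ∧ z ∈ C0b_U Ω V i := by
    intro z i hi
    have h1 : f i z ≠ 0 := (f.mem_finsupport z).mp hi
    exact ⟨lt_of_le_of_ne (f.nonneg i z) h1.symm, hmemU i z h1⟩
  have hin : ∀ z ∈ Ω, ρ z < 0 := by
    intro z hz
    rw [hρsum]
    refine Finset.sum_neg (fun i hi => ?_) (hne z)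
    obtain ⟨h1, h2⟩ := hpos z i hi
    refine mul_neg_of_pos_of_neg h1 ?_
    rcases i with _ | _ | p
    · show (-1 : ℝ) < 0
      norm_num
    · exact absurd (subset_closure hz) h2
    · exact ((hV p).iff z h2).mp hz
  have hout : ∀ z, z ∉ closure Ω → 0 < ρ z := by
    intro z hz
    rw [hρsum]
    refine Finset.sum_pos (fun i hi => ?_) (hne z)
    obtain ⟨h1, h2⟩ := hpos z i hi
    refine mul_pos h1 ?_
    rcases i with _ | _ | p
    · exact absurd (subset_closure h2) hz
    · exact one_pos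
    · exact (hV p).pos h2 hz
  have hfr : ∀ z ∈ frontier Ω, ρ z = 0 := by
    intro z hz
    rw [hρsum]
    refine Finset.sum_eq_zero fun i hi => ?_
    obtain ⟨h1, h2⟩ := hpos z i hi
    have hz' : z ∈ closure Ω ∧ z ∉ Ω := by
      rw [h.isOpen.frontier_eq] at hz
      exact hz
    rcases i with _ | _ | p
    · exact absurd h2 hz'.2
    · exact absurd hz'.1 h2
    · have : g (some (some p)) z = 0 := (hV p).eq_zero h.isOpen h2 hz
      rw [this, mul_zero]
  refine ⟨ρ, hρs, ?_, ?_, ?_, hout⟩
  · -- far away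
    obtain ⟨R, hR⟩ := (h.isBounded.closure).subset_ball 0
    refine ⟨R + 1, fun z hz => ?_⟩
    rw [hρsum, ← hsum1 z]
    refine Finset.sum_congr rfl fun i hi => ?_
    obtain ⟨h1, h2⟩ := hpos z i hi
    have hzc : z ∉ closure Ω := by
      intro h3
      have h4 := hR h3
      rw [mem_ball_zero_iff] at h4
      linarith
    rcases i with _ | _ | p
    · exact absurd (subset_closure h2) hzc
    · show f (some none) z * 1 = _
      rw [mul_one]
    · exfalso
      have h3 := hVb p h2
      have h4 := hR (frontier_subset_closure p.2)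
      rw [Metric.mem_ball, dist_eq_norm] at h3
      rw [mem_ball_zero_iff] at h4
      have h5 : ‖z‖ ≤ ‖z - p‖ + ‖(p : Cn n)‖ := by
        have := norm_add_le (z - p) (p : Cn n)
        rwa [sub_add_cancel] at this
      linarith
  · intro z
    refine ⟨hin z, fun hz => ?_⟩
    by_contra h1
    by_cases h2 : z ∈ closure Ω
    · have h3 : z ∈ frontier Ω := by
        rw [h.isOpen.frontier_eq]
        exact ⟨h2, h1⟩
      rw [hfr z h3] at hz
      exact lt_irrefl _ hz
    · exact absurd (hout z h2) (not_lt.mpr hz.le)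
  · intro z hz
    refine ⟨hfr z hz, ?_⟩
    have hz' : z ∈ closure Ω ∧ z ∉ Ω := by
      have := hz
      rw [h.isOpen.frontier_eq] at this
      exact this
    set S := f.fintsupport z with hS
    have hev : ρ =ᶠ[𝓝 z] fun w => ∑ i ∈ S, f i w * g i w := by
      filter_upwards [f.eventually_finsupport_subset z] with w hw
      rw [hρsum]
      refine Finset.sum_subset hw fun i _ hi => ?_
      have : f i w = 0 := by
        by_contra h1
        exact hi ((f.mem_finsupport w).mpr h1)
      rw [this, zero_mul]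
    -- members of `S`
    have hSm : ∀ i ∈ S, ∃ p : frontier Ω, i = some (some p) ∧ z ∈ V p := by
      intro i hi
      have h1 : z ∈ tsupport (f i) := (f.mem_fintsupport_iff z i).mp hi
      have h2 := hf i h1
      rcases i with _ | _ | p
      · exact absurd h2 hz'.2
      · exact absurd hz'.1 h2
      · exact ⟨p, rfl, h2⟩
    have hSsub : f.finsupport z ⊆ S := f.finsupport_subset_fintsupport z
    obtain ⟨i₀, hi₀⟩ := hne z
    obtain ⟨p₀, hp₀, hzp₀⟩ := hSm i₀ (hSsub hi₀)
    have hprop : ∀ i : Option (Option (frontier Ω)), ∃ a : ℝ, 0 < a ∧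
        (i ∈ S → fderiv ℝ (g i) z = a • fderiv ℝ (r p₀) z) := by
      intro i
      by_cases hi : i ∈ S
      · obtain ⟨p, rfl, hzp⟩ := hSm i hi
        obtain ⟨a, ha, h1⟩ := (hV p₀).fderiv_proportional h.isOpen (hV p) hzp₀ hzp hz
        exact ⟨a, ha, fun _ => h1⟩
      · exact ⟨1, one_pos, fun h1 => absurd h1 hi⟩
    choose a ha hda using hprop
    have hgz : ∀ i ∈ S, g i z = 0 := by
      intro i hi
      obtain ⟨p, rfl, hzp⟩ := hSm i hi
      exact (hV p).eq_zero h.isOpen hzp hz
    have hgc : ∀ i ∈ S, ContDiffAt ℝ 2 (g i) z := by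
      intro i hi
      obtain ⟨p, rfl, hzp⟩ := hSm i hi
      exact (hV p).smooth.contDiffAt ((hV p).isOpen.mem_nhds hzp)
    have hA : 0 < ∑ i ∈ S, f i z * a i := by
      refine Finset.sum_pos' (fun i _ => mul_nonneg (f.nonneg i z) (ha i).le)
        ⟨i₀, hSsub hi₀, mul_pos (hpos z i₀ hi₀).1 (ha i₀)⟩
    set A := ∑ i ∈ S, f i z * a i with hAdef
    have hfd : fderiv ℝ ρ z = A • fderiv ℝ (r p₀) z := by
      rw [hev.fderiv_eq]
      have h1 : HasFDerivAt (fun w => ∑ i ∈ S, f i w * g i w)
          (∑ i ∈ S, (f i z • fderiv ℝ (g i) z + g i z • fderiv ℝ (f i) z)) z := by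
        refine HasFDerivAt.fun_sum fun i hi => ?_
        exact ((hfs i).differentiable two_ne_zero z).hasFDerivAt.mul
          ((hgc i hi).differentiableAt two_ne_zero).hasFDerivAt
      rw [h1.fderiv, hAdef, Finset.sum_smul]
      refine Finset.sum_congr rfl fun i hi => ?_
      rw [hgz i hi, zero_smul, add_zero, hda i hi, smul_smul]
    have hell : ∀ X, ell ρ z X = A * ell (r p₀) z X := by
      intro X
      unfold ell
      rw [hfd]
      simp only [_root_.smul_apply, smul_eq_mul, Complex.ofReal_mul]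
      ring
    have helli : ∀ i ∈ S, ∀ X, ell (g i) z X = a i * ell (r p₀) z X := by
      intro i hi X
      unfold ell
      rw [hda i hi]
      simp only [_root_.smul_apply, smul_eq_mul, Complex.ofReal_mul]
      ring
    constructor
    · rw [hfd]
      exact smul_ne_zero hA.ne' ((hV p₀).grad z hzp₀)
    · intro X hX hX0
      have h0 : ell (r p₀) z X = 0 := by
        rw [hell] at hX0
        rcases mul_eq_zero.mp hX0 with h1 | h1
        · exact absurd (Complex.ofReal_eq_zero.mp h1) hA.ne'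
        · exact h1
      rw [levi_congr hev, C0b_levi_sum (fun i w => f i w * g i w) z X S
        fun i hi => (hfs i).contDiffAt.mul (hgc i hi)]
      have hterm : ∀ i ∈ S, levi (fun w => f i w * g i w) z X = f i z * levi (g i) z X := by
        intro i hi
        rw [levi_mul (hfs i).contDiffAt (hgc i hi), hgz i hi, helli i hi, h0]
        simp
      rw [Finset.sum_congr rfl hterm]
      have hlev : ∀ i ∈ S, 0 < levi (g i) z X := by
        intro i hi
        obtain ⟨p, rfl, hzp⟩ := hSm i hi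
        exact (hV p).levi_pos z hzp X hX
      refine Finset.sum_pos' (fun i hi => mul_nonneg (f.nonneg i z) (hlev i hi).le)
        ⟨i₀, hSsub hi₀, mul_pos (hpos z i₀ hi₀).1 (hlev i₀ (hSsub hi₀))⟩

end HankelSPC
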