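import Pool.Agent.Lib.MP_e1cf54_an.L2b

/-! Row C0c1: global bounds -/

open MeasureTheory Set
open scoped ENNReal NNReal Topology ContDiff

namespace HankelSPC

variable {n : ℕ}

lemma C0c1_bdd {E F : Type*} [NormedAddCommGroup E] [NormedSpace ℝ E] [NormedAddCommGroup F]
    [NormedSpace ℝ F] {g : E → F} (hg : ContDiff ℝ 1 g) (hc : HasCompactSupport g) :
    ∃ M : ℝ, 0 ≤ M ∧ ∀ z, ‖fderiv ℝ g z‖ ≤ M := by
  have h1 : HasCompactSupport (fderiv ℝ g) := hc.fderiv ℝ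
  have h2 : Continuous (fderiv ℝ g) := hg.continuous_fderiv (by norm_num)
  obtain ⟨M, hM⟩ := h1.exists_bound_of_continuous h2
  exact ⟨M, le_trans (norm_nonneg _) (hM 0), hM⟩

lemma C0c1_taylor {ρ : Cn n → ℝ} (hρd : Differentiable ℝ ρ) {M2 : ℝ}
    (hlip : ∀ z w, ‖fderiv ℝ ρ z - fderiv ℝ ρ w‖ ≤ M2 * ‖z - w‖) (hM2 : 0 ≤ M2) (z w : Cn n) :
    |ρ w - ρ z - fderiv ℝ ρ z (w - z)| ≤ M2 * ‖w - z‖ ^ 2 := by
  have e1 := Convex.norm_image_sub_le_of_norm_hasFDerivWithin_le (𝕜 := ℝ)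
      (s := Metric.closedBall z ‖w - z‖) (f := fun x => ρ x - fderiv ℝ ρ z x)
      (f' := fun x => fderiv ℝ ρ x - fderiv ℝ ρ z) (C := M2 * ‖w - z‖)
      (fun x _ => ((hρd x).hasFDerivAt.sub (fderiv ℝ ρ z).hasFDerivAt).hasFDerivWithinAt)
      (fun x hx => by
        refine (hlip x z).trans ?_
        rw [mem_closedBall_iff_norm] at hx
        gcongr)
      (convex_closedBall _ _)
      (Metric.mem_closedBall_self (norm_nonneg _))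
      (show w ∈ Metric.closedBall z ‖w - z‖ by rw [mem_closedBall_iff_norm])
  have e2 : ρ w - ρ z - fderiv ℝ ρ z (w - z)
      = (ρ w - fderiv ℝ ρ z w) - (ρ z - fderiv ℝ ρ z z) := by
    rw [map_sub]; ring
  rw [e2, ← Real.norm_eq_abs]
  refine e1.trans (le_of_eq ?_)
  ring

lemma C0c1_levi {ρ : Cn n → ℝ} (hρ : ContDiff ℝ 2 ρ) {M2 : ℝ} (hM2 : 0 ≤ M2)
    (hb2 : ∀ z, ‖fderiv ℝ (fderiv ℝ ρ) z‖ ≤ M2) (z X : Cn n) :
    |levi ρ z X| ≤ M2 * ‖X‖ ^ 2 := by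
  rw [levi_eq_D2 hρ.contDiffAt X]
  have hb : ∀ Y : Cn n, |D2 ρ z Y Y| ≤ M2 * ‖Y‖ ^ 2 := by
    intro Y
    unfold D2
    rw [← Real.norm_eq_abs]
    calc ‖fderiv ℝ (fderiv ℝ ρ) z Y Y‖ ≤ ‖fderiv ℝ (fderiv ℝ ρ) z Y‖ * ‖Y‖ :=
          ContinuousLinearMap.le_opNorm _ _
      _ ≤ (‖fderiv ℝ (fderiv ℝ ρ) z‖ * ‖Y‖) * ‖Y‖ := by
          gcongr; exact ContinuousLinearMap.le_opNorm _ _
      _ ≤ (M2 * ‖Y‖) * ‖Y‖ := by gcongr; exact hb2 z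
      _ = M2 * ‖Y‖ ^ 2 := by ring
  have h1 := hb X
  have h2 := hb (Complex.I • X)
  have h3 : ‖Complex.I • X‖ = ‖X‖ := by rw [norm_smul, Complex.norm_I, one_mul]
  rw [h3] at h2
  have h0 : 0 ≤ M2 * ‖X‖ ^ 2 := by positivity
  rw [abs_le] at h1 h2 ⊢
  constructor <;> linarith [h1.1, h1.2, h2.1, h2.2]

lemma C0c1_supp {ρ : Cn n → ℝ} {R : ℝ} (hR : ∀ z, R ≤ ‖z‖ → ρ z = 1) :
    HasCompactSupport (fun z => ρ z - 1) ∧ HasCompactSupport (fderiv ℝ ρ) ∧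
      HasCompactSupport (fderiv ℝ (fderiv ℝ ρ)) := by
  have hs0 : HasCompactSupport fun z => ρ z - 1 := by
    refine HasCompactSupport.of_support_subset_isCompact (isCompact_closedBall (0 : Cn n) R) ?_
    intro z hz
    rw [mem_closedBall_zero_iff]
    by_contra hcon
    rw [not_le] at hcon
    exact hz (by simp [hR z hcon.le])
  have hfd : (fderiv ℝ fun z => ρ z - 1) = fderiv ℝ ρ := by
    funext z; exact fderiv_sub_const _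
  have hs1 : HasCompactSupport (fderiv ℝ ρ) := by
    rw [← hfd]; exact hs0.fderiv ℝ
  exact ⟨hs0, hs1, hs1.fderiv ℝ⟩

lemma C0c1_lip {ρ : Cn n → ℝ} (h1 : ContDiff ℝ 1 (fderiv ℝ ρ)) {M2 : ℝ}
    (hb2 : ∀ z, ‖fderiv ℝ (fderiv ℝ ρ) z‖ ≤ M2) (z w : Cn n) :
    ‖fderiv ℝ ρ z - fderiv ℝ ρ w‖ ≤ M2 * ‖z - w‖ :=
  Convex.norm_image_sub_le_of_norm_fderiv_le (𝕜 := ℝ) (s := univ)
    (fun x _ => (h1.differentiable (by norm_num)) x)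
    (fun x _ => hb2 x) convex_univ (mem_univ w) (mem_univ z)

/-- A function which is `C²` and constant far away has globally bounded and uniformly continuous
second derivative; this gives all the bounds in `Dom`. -/
theorem global_bounds {ρ : Cn n → ℝ} (hρ : ContDiff ℝ 2 ρ) {R : ℝ}
    (hR : ∀ z, R ≤ ‖z‖ → ρ z = 1) :
    ∃ L : ℝ, 1 ≤ L ∧ (∀ z, L ≤ ‖z‖ → ρ z = 1) ∧ (∀ z, |ρ z| ≤ L) ∧ (∀ z, ‖fderiv ℝ ρ z‖ ≤ L) ∧
      (∀ z w, ‖fderiv ℝ ρ z - fderiv ℝ ρ w‖ ≤ L * ‖z - w‖) ∧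
      (∀ z w, |ρ w - ρ z - fderiv ℝ ρ z (w - z)| ≤ L * ‖w - z‖ ^ 2) ∧
      (∀ z X, |levi ρ z X| ≤ L * ‖X‖ ^ 2) ∧
      UniformContinuous fun z => fderiv ℝ (fderiv ℝ ρ) z := by
  have h1 : ContDiff ℝ 1 (fderiv ℝ ρ) := hρ.fderiv_right (by norm_num)
  have hc2 : Continuous (fderiv ℝ (fderiv ℝ ρ)) := h1.continuous_fderiv (by norm_num)
  obtain ⟨hs0, hs1, hs2⟩ := C0c1_supp hR
  obtain ⟨M0, hb0⟩ : ∃ M0 : ℝ, ∀ z, ‖ρ z - 1‖ ≤ M0 :=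
    hs0.exists_bound_of_continuous (hρ.continuous.sub continuous_const)
  have hM0 : 0 ≤ M0 := le_trans (norm_nonneg _) (hb0 0)
  obtain ⟨M1, hb1⟩ : ∃ M1 : ℝ, ∀ z, ‖fderiv ℝ ρ z‖ ≤ M1 :=
    hs1.exists_bound_of_continuous h1.continuous
  have hM1 : 0 ≤ M1 := le_trans (norm_nonneg _) (hb1 0)
  obtain ⟨M2, hM2, hb2⟩ := C0c1_bdd h1 hs1
  have hρd : Differentiable ℝ ρ := hρ.differentiable (by norm_num)
  have hlip := C0c1_lip h1 hb2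
  have htay := C0c1_taylor hρd hlip hM2
  have hlev := C0c1_levi hρ hM2 hb2
  have hR0 : 0 ≤ |R| := abs_nonneg R
  obtain ⟨L, hL⟩ : ∃ L : ℝ, L = 1 + M0 + M1 + M2 + |R| := ⟨_, rfl⟩
  have hL2 : M2 ≤ L := by rw [hL]; linarith
  have hL1 : M1 ≤ L := by rw [hL]; linarith
  have hL0 : M0 + 1 ≤ L := by rw [hL]; linarith
  have hLR : |R| ≤ L := by rw [hL]; linarith
  have a1 : 1 ≤ L := by linarith
  have a2 : ∀ z : Cn n, L ≤ ‖z‖ → ρ z = 1 := fun z hz =>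
    hR z (le_trans (le_trans (le_abs_self R) hLR) hz)
  have a3 : ∀ z, |ρ z| ≤ L := by
    intro z
    have h2 := hb0 z
    rw [Real.norm_eq_abs] at h2
    have h3 : |ρ z| ≤ |ρ z - 1| + 1 := by
      calc |ρ z| = |(ρ z - 1) + 1| := by rw [sub_add_cancel]
        _ ≤ |ρ z - 1| + |(1 : ℝ)| := abs_add_le _ _
        _ = |ρ z - 1| + 1 := by rw [abs_one]
    linarith
  have a4 : ∀ z, ‖fderiv ℝ ρ z‖ ≤ L := fun z => (hb1 z).trans hL1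
  have a5 : ∀ z w, ‖fderiv ℝ ρ z - fderiv ℝ ρ w‖ ≤ L * ‖z - w‖ := fun z w =>
    (hlip z w).trans (mul_le_mul_of_nonneg_right hL2 (norm_nonneg _))
  have a6 : ∀ z w, |ρ w - ρ z - fderiv ℝ ρ z (w - z)| ≤ L * ‖w - z‖ ^ 2 := fun z w =>
    (htay z w).trans (mul_le_mul_of_nonneg_right hL2 (by positivity))
  have a7 : ∀ z X, |levi ρ z X| ≤ L * ‖X‖ ^ 2 := fun z X =>
    (hlev z X).trans (mul_le_mul_of_nonneg_right hL2 (by positivity))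
  have a8 : UniformContinuous (fderiv ℝ (fderiv ℝ ρ)) := hs2.uniformContinuous_of_continuous hc2
  exact ⟨L, a1, a2, a3, a4, a5, a6, a7, a8⟩

end HankelSPC
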