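import Pool.Agent.Lib.MP_e1cf54_an.C0b
import Pool.Agent.Lib.MP_e1cf54_an.C0c1

/-! Row C0c2: existence of Dom -/

open MeasureTheory Set
open scoped ENNReal NNReal Topology ContDiff

namespace HankelSPC

variable {n : ℕ}

/-- compactness: a nonnegative continuous function which vanishes only in the open set `P` is
small only in `P` -/
lemma C0c2_small {α : Type*} [TopologicalSpace α] {K P : Set α} (hK : IsCompact K)
    (hP : IsOpen P) {f : α → ℝ} (hf : ContinuousOn f K) (hpos : ∀ x ∈ K, x ∉ P → 0 < f x) :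
    ∃ η : ℝ, 0 < η ∧ ∀ x ∈ K, f x ≤ η → x ∈ P := by
  obtain ⟨a, ha, h⟩ := (hK.diff hP).exists_forall_le' (hf.mono Set.sdiff_subset)
    (a := 0) (fun b hb => hpos b hb.1 hb.2)
  refine ⟨a / 2, by linarith, fun x hx hfx => ?_⟩
  by_contra hxP
  have := h x ⟨hx, hxP⟩
  linarith

/-- the constant `A` -/
lemma C0c2_const {α : Type*} [TopologicalSpace α] {K : Set α} (hK : IsCompact K)
    {f g : α → ℝ} (hf : Continuous f) (hg : Continuous g) (hg0 : ∀ x, 0 ≤ g x)
    (hpos : ∀ x ∈ K, g x = 0 → 0 < f x) :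
    ∃ N : ℕ, ∀ x ∈ K, 0 < f x + (N + 1) * g x := by
  obtain ⟨N, hN⟩ := hK.elim_directed_cover (fun N : ℕ => {x | 0 < f x + (N + 1) * g x})
    (fun N => isOpen_lt continuous_const (hf.add (continuous_const.mul hg))) (by
      intro x hx
      rw [mem_iUnion]
      by_cases h : g x = 0
      · exact ⟨0, by
          show 0 < f x + _ * g x
          rw [h, mul_zero, add_zero]
          exact hpos x hx h⟩
      · have hg1 : 0 < g x := lt_of_le_of_ne (hg0 x) (Ne.symm h)
        obtain ⟨N, hN⟩ := exists_nat_gt (-f x / g x)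
        refine ⟨N, ?_⟩
        show 0 < f x + (N + 1) * g x
        rw [div_lt_iff₀ hg1] at hN
        nlinarith) (by
      intro N M
      refine ⟨max N M, ?_, ?_⟩
      · intro x hx
        have h1 : (N : ℝ) ≤ ((max N M : ℕ) : ℝ) := by exact_mod_cast le_max_left N M
        have h2 : 0 < f x + (N + 1) * g x := hx
        show 0 < f x + (((max N M : ℕ) : ℝ) + 1) * g x
        nlinarith [hg0 x]
      · intro x hx
        have h1 : (M : ℝ) ≤ ((max N M : ℕ) : ℝ) := by exact_mod_cast le_max_right N M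
        have h2 : 0 < f x + (M + 1) * g x := hx
        show 0 < f x + (((max N M : ℕ) : ℝ) + 1) * g x
        nlinarith [hg0 x])
  exact ⟨N, fun x hx => hN hx⟩

/-- from the boundary to a neighbourhood -/
lemma C0c2_near {ρ : Cn n → ℝ} (hρ : ContDiff ℝ 2 ρ) {R : ℝ} (hR : ∀ z, R ≤ ‖z‖ → ρ z = 1)
    (hlevi : ∀ z, ρ z = 0 → ∀ X : Cn n, ‖X‖ = 1 → 0 < levi ρ z X)
    (hell : ∀ z, ρ z = 0 → ∃ k, ell ρ z (ee k) ≠ 0) :
    ∃ η c : ℝ, 0 < η ∧ η < 1 ∧ 0 < c ∧
      (∀ z, |ρ z| ≤ η → ∀ X, c * ‖X‖ ^ 2 ≤ levi ρ z X) ∧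
      ∀ z, |ρ z| ≤ η → ∃ k : Fin n, c ≤ ‖ell ρ z (ee k)‖ := by
  have hcl : Continuous (fun p : Cn n × Cn n => levi ρ p.1 p.2) := by
    have := continuousOn_levi isOpen_univ hρ.contDiffOn
    rwa [univ_prod_univ, continuousOn_univ] at this
  have hce0 : Continuous (fun p : Cn n × Cn n => ell ρ p.1 p.2) := by
    have := continuousOn_ell isOpen_univ (hρ.of_le (by norm_num)).contDiffOn
    rwa [univ_prod_univ, continuousOn_univ] at this
  have hce : ∀ k, Continuous (fun z => ell ρ z (ee k)) := fun k =>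
    hce0.comp (continuous_id.prodMk continuous_const)
  have hcs : Continuous (fun z => ∑ k, ‖ell ρ z (ee k)‖) :=
    continuous_finsetSum _ fun k _ => (hce k).norm
  have hK : ∀ t : ℝ, t < 1 → IsCompact {z | |ρ z| ≤ t} := by
    intro t ht
    apply Metric.isCompact_of_isClosed_isBounded
    · exact isClosed_le hρ.continuous.abs continuous_const
    · refine (Metric.isBounded_closedBall (x := (0 : Cn n)) (r := R)).subset fun z hz => ?_
      rw [Metric.mem_closedBall, dist_zero_right]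
      by_contra hcon
      push Not at hcon
      have h1 : |ρ z| ≤ t := hz
      rw [hR z hcon.le, abs_one] at h1
      linarith
  have hS : IsCompact (Metric.sphere (0 : Cn n) 1) := isCompact_sphere 0 1
  obtain ⟨η₁, hη₁, h1⟩ := C0c2_small ((hK (1 / 2) (by norm_num)).prod hS)
    (isOpen_lt continuous_const hcl) (f := fun p : Cn n × Cn n => |ρ p.1|)
    (hρ.continuous.comp continuous_fst).abs.continuousOn (by
      rintro ⟨z, X⟩ ⟨_, hX⟩ hnP
      rw [abs_pos]
      intro h0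
      exact hnP (hlevi z h0 X (by simpa using hX)))
  obtain ⟨η₂, hη₂, h2⟩ := C0c2_small (hK (1 / 2) (by norm_num))
    (isOpen_lt continuous_const hcs) (f := fun z : Cn n => |ρ z|)
    hρ.continuous.abs.continuousOn (by
      intro z _ hnP
      rw [abs_pos]
      intro h0
      apply hnP
      obtain ⟨k, hk⟩ := hell z h0
      show 0 < ∑ k, ‖ell ρ z (ee k)‖
      exact Finset.sum_pos' (fun _ _ => norm_nonneg _) ⟨k, Finset.mem_univ k, norm_pos_iff.2 hk⟩)
  set η := min (1 / 2) (min η₁ η₂) with hη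
  have hη12 : η ≤ 1 / 2 := min_le_left _ _
  have hη1 : η ≤ η₁ := (min_le_right _ _).trans (min_le_left _ _)
  have hη2 : η ≤ η₂ := (min_le_right _ _).trans (min_le_right _ _)
  have hη0 : 0 < η := lt_min (by norm_num) (lt_min hη₁ hη₂)
  obtain ⟨c₁, hc₁, h3⟩ := ((hK η (by linarith)).prod hS).exists_forall_le'
    (f := fun p : Cn n × Cn n => levi ρ p.1 p.2) hcl.continuousOn (a := 0) (by
      rintro ⟨z, X⟩ ⟨hz, hX⟩
      have hz' : |ρ z| ≤ η := hz
      exact h1 (z, X) ⟨hz'.trans hη12, hX⟩ (hz'.trans hη1))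
  obtain ⟨c₂, hc₂, h4⟩ := (hK η (by linarith)).exists_forall_le'
    (f := fun z : Cn n => ∑ k, ‖ell ρ z (ee k)‖) hcs.continuousOn (a := 0) (by
      intro z hz
      have hz' : |ρ z| ≤ η := hz
      exact h2 z (hz'.trans hη12) (hz'.trans hη2))
  refine ⟨η, min c₁ (c₂ / (n + 1)), hη0, by linarith, lt_min hc₁ (by positivity), ?_, ?_⟩
  · intro z hz X
    by_cases hX : X = 0
    · rw [hX, levi_zero, norm_zero]
      simp
    · have hX' : 0 < ‖X‖ := norm_pos_iff.2 hX
      have h5 : X = ((‖X‖ : ℝ) : ℂ) • ((((‖X‖ : ℝ) : ℂ))⁻¹ • X) := by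
        rw [smul_smul, mul_inv_cancel₀, one_smul]
        exact_mod_cast hX'.ne'
      have h6 : ‖(((‖X‖ : ℝ) : ℂ))⁻¹ • X‖ = 1 := by
        rw [norm_smul, norm_inv, Complex.norm_real, norm_norm, inv_mul_cancel₀ hX'.ne']
      have h7 : levi ρ z X = ‖X‖ ^ 2 * levi ρ z ((((‖X‖ : ℝ) : ℂ))⁻¹ • X) := by
        conv_lhs => rw [h5]
        rw [levi_smul hρ.contDiffAt, Complex.norm_real, norm_norm]
      have h8 := h3 (z, (((‖X‖ : ℝ) : ℂ))⁻¹ • X) ⟨hz, by simpa using h6⟩
      rw [h7, mul_comm]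
      exact mul_le_mul_of_nonneg_left ((min_le_left _ _).trans h8) (by positivity)
  · intro z hz
    by_contra hcon
    push Not at hcon
    have h5 := h4 z hz
    have h6 : ∑ k, ‖ell ρ z (ee k)‖ ≤ ∑ _k : Fin n, c₂ / (n + 1) :=
      Finset.sum_le_sum fun k _ => ((hcon k).trans_le (min_le_right _ _)).le
    rw [Finset.sum_const, Finset.card_univ, Fintype.card_fin, nsmul_eq_mul] at h6
    have h7 : (n : ℝ) * (c₂ / (n + 1)) < c₂ := by
      rw [mul_div_assoc', div_lt_iff₀ (by positivity)]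
      nlinarith
    have h8 : c₂ ≤ ∑ k, ‖ell ρ z (ee k)‖ := h5
    linarith

/-- `ρ = (e^{Aρ₀} - 1)/(e^A - 1)` for `A` large: on `∂Ω × {‖X‖ = 1}`
`levi ρ₀(X) + A |∂ρ₀(X)|² > 0` (compactness: the sets where it is `≤ 0` decrease with `A` and have
empty intersection), then on a neighbourhood `{|ρ| ≤ η}` by compactness again; gradient likewise
(`fderiv ≠ 0 → some ell ρ z (ee k) ≠ 0`). -/
theorem exists_dom {Ω : Set (Cn n)} (h : IsSPC Ω) : ∃ D : Dom n, D.Ω = Ω := by
  obtain ⟨ρ₀, hρ₀, ⟨R, hR⟩, hΩ, hfr, hout⟩ := exists_rho0 h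
  have hcl : Continuous (fun p : Cn n × Cn n => levi ρ₀ p.1 p.2) := by
    have := continuousOn_levi isOpen_univ hρ₀.contDiffOn
    rwa [univ_prod_univ, continuousOn_univ] at this
  have hce : Continuous (fun p : Cn n × Cn n => ell ρ₀ p.1 p.2) := by
    have := continuousOn_ell isOpen_univ (hρ₀.of_le (by norm_num)).contDiffOn
    rwa [univ_prod_univ, continuousOn_univ] at this
  have hKf : IsCompact (frontier Ω) :=
    Metric.isCompact_of_isClosed_isBounded isClosed_frontier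
      (h.isBounded.closure.subset frontier_subset_closure)
  obtain ⟨N, hN⟩ := C0c2_const (hKf.prod (isCompact_sphere (0 : Cn n) 1)) hcl (hce.norm.pow 2)
    (fun p => sq_nonneg _) (by
      rintro ⟨z, X⟩ ⟨hz, hX⟩ h0
      have hX1 : ‖X‖ = 1 := by simpa using hX
      refine (hfr z hz).2.2 X ?_ ?_
      · intro hX0
        rw [hX0, norm_zero] at hX1
        exact zero_ne_one hX1
      · have h1 : ‖ell ρ₀ z X‖ ^ 2 = 0 := h0
        exact norm_eq_zero.1 (pow_eq_zero_iff (two_ne_zero)|>.1 h1))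
  set A : ℝ := (N : ℝ) + 1 with hA
  have hA0 : 0 < A := by positivity
  have hE : 0 < Real.exp A - 1 := by
    have := Real.add_one_lt_exp hA0.ne'
    linarith
  set g : ℝ → ℝ := fun t => (Real.exp (A * t) - 1) / (Real.exp A - 1) with hg
  have hg1 : ∀ t, HasDerivAt g (A * Real.exp (A * t) / (Real.exp A - 1)) t := by
    intro t
    have h1 : HasDerivAt (fun t : ℝ => A * t) A t := by
      simpa using (hasDerivAt_id t).const_mul A
    have h2 := ((h1.exp).sub_const 1).div_const (Real.exp A - 1)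
    rwa [mul_comm (Real.exp (A * t)) A] at h2
  have hdg : deriv g = fun t => A * Real.exp (A * t) / (Real.exp A - 1) :=
    funext fun t => (hg1 t).deriv
  have hg2 : ∀ t, deriv (deriv g) t = A * (A * Real.exp (A * t) / (Real.exp A - 1)) := by
    intro t
    rw [hdg]
    have h1 : HasDerivAt (fun t : ℝ => A * t) A t := by
      simpa using (hasDerivAt_id t).const_mul A
    have h2 := ((h1.exp).const_mul A).div_const (Real.exp A - 1)
    rw [h2.deriv]
    ring
  have hgc : ContDiff ℝ 2 g := by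
    have h1 : ContDiff ℝ 2 (fun t : ℝ => Real.exp (A * t)) :=
      Real.contDiff_exp.comp (contDiff_const.mul contDiff_id)
    exact (h1.sub contDiff_const).div_const _
  set ρ : Cn n → ℝ := fun z => g (ρ₀ z) with hρdef
  have hρ : ContDiff ℝ 2 ρ := hgc.comp hρ₀
  have hρR : ∀ z, R ≤ ‖z‖ → ρ z = 1 := by
    intro z hz
    show g (ρ₀ z) = 1
    rw [hR z hz, hg]
    simp only [mul_one]
    exact div_self hE.ne'
  have hneg : ∀ z, ρ z < 0 ↔ ρ₀ z < 0 := by
    intro z
    show (Real.exp (A * ρ₀ z) - 1) / (Real.exp A - 1) < 0 ↔ ρ₀ z < 0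
    rw [div_lt_iff₀ hE, zero_mul, sub_neg, Real.exp_lt_one_iff]
    constructor
    · intro h1
      by_contra h2
      push Not at h2
      nlinarith
    · intro h1
      nlinarith
  have hzero : ∀ z, ρ z = 0 → z ∈ frontier Ω ∧ ρ₀ z = 0 := by
    intro z hz
    have h1 : (Real.exp (A * ρ₀ z) - 1) / (Real.exp A - 1) = 0 := hz
    rw [div_eq_zero_iff] at h1
    have h2 : Real.exp (A * ρ₀ z) = 1 := by
      rcases h1 with h1 | h1
      · linarith
      · exact absurd h1 hE.ne'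
    rw [Real.exp_eq_one_iff] at h2
    have h3 : ρ₀ z = 0 := (mul_eq_zero.1 h2).resolve_left hA0.ne'
    refine ⟨?_, h3⟩
    rw [frontier, h.isOpen.interior_eq]
    refine ⟨?_, fun hzΩ => ?_⟩
    · by_contra hcl'
      have := hout z hcl'
      linarith
    · have := (hΩ z).1 hzΩ
      linarith
  have hκ : ∀ z, 0 < A * Real.exp (A * ρ₀ z) / (Real.exp A - 1) := fun z =>
    div_pos (mul_pos hA0 (Real.exp_pos _)) hE
  have hlevi : ∀ z, ρ z = 0 → ∀ X : Cn n, ‖X‖ = 1 → 0 < levi ρ z X := by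
    intro z hz X hX
    obtain ⟨hzf, hz0⟩ := hzero z hz
    have h1 : levi ρ z X = deriv g (ρ₀ z) * levi ρ₀ z X +
        deriv (deriv g) (ρ₀ z) * ‖ell ρ₀ z X‖ ^ 2 :=
      levi_comp hρ₀.contDiffAt hgc.contDiffAt X
    rw [h1, hg2, hdg]
    have h2 := hN (z, X) ⟨hzf, by simpa using hX⟩
    have h3 : 0 < levi ρ₀ z X + A * ‖ell ρ₀ z X‖ ^ 2 := h2
    have h4 := mul_pos (hκ z) h3
    calc (0 : ℝ) < _ := h4
      _ = _ := by ring
  have hell : ∀ z, ρ z = 0 → ∃ k, ell ρ z (ee k) ≠ 0 := by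
    intro z hz
    obtain ⟨hzf, hz0⟩ := hzero z hz
    by_contra hcon
    push Not at hcon
    apply (hfr z hzf).2.1
    have h1 : ∀ k, ell ρ₀ z (ee k) = 0 := by
      intro k
      have h2 : ell ρ z (ee k) = (deriv g (ρ₀ z) : ℝ) * ell ρ₀ z (ee k) :=
        ell_comp (hρ₀.differentiable (by norm_num) z)
          (hgc.differentiable (by norm_num) _) (ee k)
      rw [hcon k, hdg] at h2
      have h3 : ((A * Real.exp (A * ρ₀ z) / (Real.exp A - 1) : ℝ) : ℂ) ≠ 0 := by
        exact_mod_cast (hκ z).ne'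
      exact (mul_eq_zero.1 h2.symm).resolve_left h3
    ext X
    rw [two_re_ell, ell_sum]
    simp [h1]
  obtain ⟨η, c, hη0, hη1, hc0, hlg, heg⟩ := C0c2_near hρ hρR hlevi hell
  obtain ⟨L, hL1, hL2, hL3, hL4, hL5, hL6, hL7, hL8⟩ := global_bounds hρ hρR
  refine ⟨{ ρ := ρ, L := L, η := η, c := c, smooth := hρ, out := hL2, nonempty := ?_,
            L_ge := hL1, η_pos := hη0, η_lt := hη1, c_pos := hc0, levi_ge := hlg,
            ell_ge := heg, bd0 := hL3, bd1 := hL4, lip1 := hL5, taylor1 := hL6,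
            levi_le := hL7, unif := hL8 }, ?_⟩
  · obtain ⟨z, hz⟩ := h.isConnected.nonempty
    exact ⟨z, (hneg z).2 ((hΩ z).1 hz)⟩
  · ext z
    show ρ z < 0 ↔ z ∈ Ω
    rw [hneg, hΩ]

end HankelSPC
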