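import Pool.Agent.Lib.MP_e1cf54_an.L1a

/-! Row C1a: elementary facts on Dom and nrm -/

open MeasureTheory Set
open scoped ENNReal NNReal Topology ContDiff

namespace HankelSPC

variable {n : ℕ}

namespace Dom

variable (D : Dom n)

private lemma C1a_cont : Continuous D.ρ := D.smooth.continuous

private lemma C1a_abs {z : Cn n} (hz : z ∈ D.Ω) : |D.ρ z| = D.δ z :=
  abs_of_neg (show D.ρ z < 0 from hz)

lemma isOpen_Ω : IsOpen D.Ω := isOpen_lt D.C1a_cont continuous_const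

lemma isOpen_out (t : ℝ) : IsOpen (D.out' t) := isOpen_lt D.C1a_cont continuous_const

private lemma C1a_norm_lt {z : Cn n} {t : ℝ} (ht : t < 1) (hz : D.ρ z ≤ t) : ‖z‖ < D.L := by
  by_contra h
  have := D.out z (not_lt.1 h)
  linarith

lemma isCompact_le {t : ℝ} (ht : t < 1) : IsCompact {z | D.ρ z ≤ t} := by
  apply Metric.isCompact_of_isClosed_isBounded (isClosed_le D.C1a_cont continuous_const)
  refine Metric.isBounded_ball.subset (s := {z | D.ρ z ≤ t}) (t := Metric.ball 0 D.L)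
    (fun z hz => ?_)
  rw [mem_ball_zero_iff]
  exact D.C1a_norm_lt ht hz

lemma norm_lt_of_le {z : Cn n} {t : ℝ} (ht : t < 1) (hz : D.ρ z ≤ t) : ‖z‖ < D.L :=
  D.C1a_norm_lt ht hz

lemma δ_pos {z : Cn n} (hz : z ∈ D.Ω) : 0 < D.δ z := neg_pos.2 hz

lemma δ_le (z : Cn n) : D.δ z ≤ D.L := (neg_le_abs (D.ρ z)).trans (D.bd0 z)

lemma continuous_δ : Continuous D.δ := D.C1a_cont.neg

lemma volume_Ω_pos : 0 < volume D.Ω := by
  obtain ⟨z, hz⟩ := D.nonempty
  exact D.isOpen_Ω.measure_pos volume ⟨z, hz⟩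

lemma volume_out_lt_top {t : ℝ} (ht : t < 1) : volume (D.out' t) < ⊤ :=
  lt_of_le_of_lt (measure_mono fun z hz => le_of_lt (show D.ρ z < t from hz))
    (D.isCompact_le ht).measure_lt_top

lemma volume_Ω_lt_top : volume D.Ω < ⊤ := D.volume_out_lt_top one_pos

lemma nrm_eq {z : Cn n} (hz : z ∈ D.Ω) (X : Cn n) :
    D.nrm z X = ‖ell D.ρ z X‖ / D.δ z + ‖X‖ / Real.sqrt (D.δ z) := by
  rw [nrm_apply, D.C1a_abs hz]

lemma norm_le_nrm {z : Cn n} (hz : z ∈ D.Ω) (X : Cn n) :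
    ‖X‖ ≤ Real.sqrt (D.δ z) * D.nrm z X := by
  have hδ := D.δ_pos hz
  have hs : 0 < Real.sqrt (D.δ z) := Real.sqrt_pos.2 hδ
  rw [D.nrm_eq hz, mul_add, mul_div_cancel₀ _ hs.ne']
  have : 0 ≤ Real.sqrt (D.δ z) * (‖ell D.ρ z X‖ / D.δ z) := by positivity
  linarith

lemma ell_le_nrm {z : Cn n} (hz : z ∈ D.Ω) (X : Cn n) :
    ‖ell D.ρ z X‖ ≤ D.δ z * D.nrm z X := by
  have hδ := D.δ_pos hz
  rw [D.nrm_eq hz, mul_add, mul_div_cancel₀ _ hδ.ne']
  have : 0 ≤ D.δ z * (‖X‖ / Real.sqrt (D.δ z)) := by positivity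
  linarith

/-- `|X|_z ≤ 2 L² ‖X‖ / δ(z)`. -/
lemma nrm_le {z : Cn n} (hz : z ∈ D.Ω) (X : Cn n) :
    D.nrm z X ≤ 2 * D.L ^ 2 * ‖X‖ / D.δ z := by
  have hδ := D.δ_pos hz
  have hL := D.L_ge
  have hs : 0 < Real.sqrt (D.δ z) := Real.sqrt_pos.2 hδ
  rw [D.nrm_eq hz]
  have h1 : ‖ell D.ρ z X‖ ≤ D.L * ‖X‖ :=
    (norm_ell_le _ _ _).trans (mul_le_mul_of_nonneg_right (D.bd1 z) (norm_nonneg _))
  have h2 : ‖X‖ / Real.sqrt (D.δ z) = Real.sqrt (D.δ z) * ‖X‖ / D.δ z := by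
    rw [div_eq_div_iff hs.ne' hδ.ne']
    have := Real.mul_self_sqrt hδ.le
    calc ‖X‖ * D.δ z = ‖X‖ * (Real.sqrt (D.δ z) * Real.sqrt (D.δ z)) := by rw [this]
      _ = _ := by ring
  have h3 : Real.sqrt (D.δ z) ≤ D.L := by
    rw [Real.sqrt_le_left (by linarith)]
    have := D.δ_le z
    nlinarith
  rw [h2, ← add_div]
  apply div_le_div_of_nonneg_right _ hδ.le
  have h4 : Real.sqrt (D.δ z) * ‖X‖ ≤ D.L * ‖X‖ := mul_le_mul_of_nonneg_right h3 (norm_nonneg _)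
  have h5 : D.L * ‖X‖ ≤ D.L ^ 2 * ‖X‖ := by
    apply mul_le_mul_of_nonneg_right _ (norm_nonneg _)
    nlinarith
  linarith

lemma nrm_eq_zero {z : Cn n} (hz : z ∈ D.Ω) {X : Cn n} (h : D.nrm z X = 0) : X = 0 := by
  have := D.norm_le_nrm hz X
  rw [h, mul_zero] at this
  exact norm_le_zero_iff.1 this

lemma continuous_nrm (z : Cn n) : Continuous (D.nrm z) := by
  have h : (fun X => D.nrm z X) = fun X =>
      ‖ell D.ρ z X‖ / |D.ρ z| + ‖X‖ / Real.sqrt |D.ρ z| := by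
    funext X; exact D.nrm_apply z X
  have h1 : Continuous fun X => D.nrm z X := by
    rw [h]
    unfold ell
    fun_prop
  exact h1

/-- joint continuity on `Ω × ℂⁿ`. -/
lemma continuousOn_nrm : ContinuousOn (fun p : Cn n × Cn n => D.nrm p.1 p.2) (D.Ω ×ˢ univ) := by
  have h : (fun p : Cn n × Cn n => D.nrm p.1 p.2) = fun p =>
      ‖ell D.ρ p.1 p.2‖ / |D.ρ p.1| + ‖p.2‖ / Real.sqrt |D.ρ p.1| := by
    funext p; exact D.nrm_apply p.1 p.2
  rw [h]
  have hf : Continuous (fderiv ℝ D.ρ) := D.smooth.continuous_fderiv (by norm_num)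
  have hc := D.C1a_cont
  have he : Continuous fun p : Cn n × Cn n => ‖ell D.ρ p.1 p.2‖ := by
    unfold ell
    have h1 : Continuous fun p : Cn n × Cn n => fderiv ℝ D.ρ p.1 p.2 :=
      (hf.comp continuous_fst).clm_apply continuous_snd
    have h2 : Continuous fun p : Cn n × Cn n => fderiv ℝ D.ρ p.1 (Complex.I • p.2) :=
      (hf.comp continuous_fst).clm_apply (by fun_prop)
    fun_prop
  have hne : ∀ p ∈ D.Ω ×ˢ (univ : Set (Cn n)), |D.ρ p.1| ≠ 0 := by
    intro p hp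
    have h1 : D.ρ p.1 < 0 := hp.1
    exact abs_ne_zero.2 h1.ne
  have hab : Continuous fun p : Cn n × Cn n => |D.ρ p.1| := by fun_prop
  refine ContinuousOn.add (he.continuousOn.div hab.continuousOn hne)
    (ContinuousOn.div (by fun_prop) (Real.continuous_sqrt.comp hab).continuousOn ?_)
  intro p hp
  have h1 := hne p hp
  exact (Real.sqrt_pos.2 (lt_of_le_of_ne (abs_nonneg _) (Ne.symm h1))).ne'

lemma isOpen_B (z : Cn n) (s : ℝ) : IsOpen (D.B z s) := by
  have h : D.B z s = {w | D.nrm z (w - z) < s} := by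
    ext w; exact D.mem_B
  rw [h]
  exact isOpen_lt ((D.continuous_nrm z).comp (continuous_id.sub continuous_const))
    continuous_const

lemma self_mem_B (z : Cn n) {s : ℝ} (hs : 0 < s) : z ∈ D.B z s := by
  rw [D.mem_B, sub_self, map_zero]
  exact hs

lemma convex_B (z : Cn n) (s : ℝ) : Convex ℝ (D.B z s) := Seminorm.convex_ball _ _ _

lemma B_mono (z : Cn n) {s t : ℝ} (h : s ≤ t) : D.B z s ⊆ D.B z t := Seminorm.ball_mono h

/-- `B(z,s) = z + B₀` with `B₀ = (nrm z).ball 0 s` open, balanced. -/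
lemma B_eq_image (z : Cn n) (s : ℝ) : D.B z s = (fun X => z + X) '' ((D.nrm z).ball 0 s) := by
  ext w
  rw [D.mem_B]
  constructor
  · intro h
    exact ⟨w - z, by rw [Seminorm.mem_ball, sub_zero]; exact h, by simp⟩
  · rintro ⟨X, hX, rfl⟩
    rw [Seminorm.mem_ball, sub_zero] at hX
    simpa using hX

lemma balanced_ball (z : Cn n) (s : ℝ) : Balanced ℂ ((D.nrm z).ball 0 s) :=
  Seminorm.balanced_ball_zero _ _

/-- the closure of a ball: points of `closure (B z s)` satisfy `nrm z (w - z) ≤ s`. -/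
lemma closure_B_subset (z : Cn n) (s : ℝ) : closure (D.B z s) ⊆ {w | D.nrm z (w - z) ≤ s} := by
  apply closure_minimal
  · intro w hw
    exact (D.mem_B.1 hw).le
  · exact isClosed_le ((D.continuous_nrm z).comp (continuous_id.sub continuous_const))
      continuous_const

/-- compactness in the interior: comparison of `nrm` with the Euclidean norm where `δ ≥ a`. -/
lemma nrm_ge (z : Cn n) (hz : z ∈ D.Ω) (X : Cn n) : ‖X‖ ≤ D.L * D.nrm z X := by
  have hL := D.L_ge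
  have h3 : Real.sqrt (D.δ z) ≤ D.L := by
    rw [Real.sqrt_le_left (by linarith)]
    have := D.δ_le z
    nlinarith
  exact (D.norm_le_nrm hz X).trans (mul_le_mul_of_nonneg_right h3 (apply_nonneg _ _))

end Dom

end HankelSPC
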