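import Pool.Agent.Lib.MP_e1cf54_an.C1a

/-! Row C1b: good radii -/

open MeasureTheory Set
open scoped ENNReal NNReal Topology ContDiff

namespace HankelSPC

variable {n : ℕ}

namespace Dom

variable (D : Dom n)

/-- elementary comparison. -/
lemma C1b_aux {a b E F N : ℝ} (ha : 0 < a) (hb : 0 < b) (hN : 0 ≤ N)
    (hab : 3 / 4 * a ^ 2 ≤ b ^ 2) (hE : 0 ≤ E) (hFE : F ≤ E + 1 / 16 * a * N) :
    F / b ^ 2 + N / b ≤ 2 * (E / a ^ 2 + N / a) := by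
  have hab' : 3 / 4 * a ≤ b := by
    have h1 : (3 / 4 * a) ^ 2 ≤ b ^ 2 := by nlinarith [sq_nonneg a]
    exact le_of_sq_le_sq h1 hb.le
  have h1 : N / b ≤ 4 / 3 * (N / a) := by
    rw [div_le_iff₀ hb]
    have : N = N / a * a := by field_simp
    have h2 : 0 ≤ N / a := div_nonneg hN ha.le
    nlinarith
  have h2 : F / b ^ 2 ≤ 4 / 3 * (E / a ^ 2) + 1 / 12 * (N / a) := by
    rw [div_le_iff₀ (by positivity)]
    have h3 : 0 ≤ E / a ^ 2 := by positivity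
    have h4 : 0 ≤ N / a := div_nonneg hN ha.le
    have h5 : E = E / a ^ 2 * a ^ 2 := by field_simp
    have h6 : a * N = N / a * a ^ 2 := by field_simp
    have h7 : 0 ≤ 4 / 3 * (E / a ^ 2) + 1 / 12 * (N / a) := by positivity
    have h8 : (4 / 3 * (E / a ^ 2) + 1 / 12 * (N / a)) * (3 / 4 * a ^ 2)
        ≤ (4 / 3 * (E / a ^ 2) + 1 / 12 * (N / a)) * b ^ 2 :=
      mul_le_mul_of_nonneg_left hab h7
    nlinarith
  have h3 : 0 ≤ E / a ^ 2 := by positivity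
  have h4 : 0 ≤ N / a := div_nonneg hN ha.le
  linarith

/-- Existence of a good radius. For `|w - z|_z < s`: `‖w-z‖ ≤ s√δ`, `|∂ρ(z)(w-z)| ≤ sδ`, so
`|ρ(w) - ρ(z)| ≤ 2sδ + L s² δ ≤ δ/2`, and
`|∂ρ(w)(X) - ∂ρ(z)(X)| ≤ L ‖w-z‖‖X‖ ≤ L s √δ ‖X‖`. -/
theorem exists_good : ∃ s₀, D.Good s₀ := by
  have hL : 1 ≤ D.L := D.L_ge
  have hL0 : 0 < D.L := by linarith
  refine ⟨1 / (16 * D.L), ⟨by positivity, ?_, ?_⟩⟩
  · rw [div_le_one (by positivity)]; linarith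
  intro z hz w hw
  rw [D.mem_B] at hw
  have hd : 0 < D.δ z := D.δ_pos hz
  have hs16 : D.nrm z (w - z) * D.L ≤ 1 / 16 := by
    have h1 : D.nrm z (w - z) * D.L ≤ 1 / (16 * D.L) * D.L :=
      mul_le_mul_of_nonneg_right hw.le hL0.le
    have h2 : 1 / (16 * D.L) * D.L = 1 / 16 := by field_simp
    linarith
  have hs0 : 0 ≤ D.nrm z (w - z) := apply_nonneg _ _
  have hs1 : D.nrm z (w - z) ≤ 1 / 16 := by nlinarith
  set s := D.nrm z (w - z) with hs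
  have hnorm : ‖w - z‖ ≤ Real.sqrt (D.δ z) * s := D.norm_le_nrm hz (w - z)
  have hell : ‖ell D.ρ z (w - z)‖ ≤ D.δ z * s := D.ell_le_nrm hz (w - z)
  have hsq : Real.sqrt (D.δ z) ^ 2 = D.δ z := Real.sq_sqrt hd.le
  have hsqpos : 0 < Real.sqrt (D.δ z) := Real.sqrt_pos.2 hd
  have hnorm2 : ‖w - z‖ ^ 2 ≤ D.δ z * s ^ 2 := by
    calc ‖w - z‖ ^ 2 ≤ (Real.sqrt (D.δ z) * s) ^ 2 :=
          pow_le_pow_left₀ (norm_nonneg _) hnorm 2
      _ = D.δ z * s ^ 2 := by rw [mul_pow, hsq]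
  have hfd : |fderiv ℝ D.ρ z (w - z)| ≤ 2 * (D.δ z * s) := by
    rw [two_re_ell, abs_mul, abs_two]
    exact mul_le_mul_of_nonneg_left ((Complex.abs_re_le_norm _).trans hell) (by norm_num)
  have htay := D.taylor1 z w
  have hdiff : |D.δ w - D.δ z| ≤ D.δ z / 4 := by
    have h1 : |D.δ w - D.δ z| = |D.ρ w - D.ρ z| := by
      simp only [Dom.δ]; rw [← abs_neg]; congr 1; ring
    rw [h1]
    have h2 : |D.ρ w - D.ρ z| ≤ |D.ρ w - D.ρ z - fderiv ℝ D.ρ z (w - z)|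
        + |fderiv ℝ D.ρ z (w - z)| := by
      have := abs_add_le (D.ρ w - D.ρ z - fderiv ℝ D.ρ z (w - z)) (fderiv ℝ D.ρ z (w - z))
      simpa using this
    have h3 : D.L * ‖w - z‖ ^ 2 ≤ D.δ z / 256 := by
      have h4 : D.L * ‖w - z‖ ^ 2 ≤ D.L * (D.δ z * s ^ 2) :=
        mul_le_mul_of_nonneg_left hnorm2 hL0.le
      have h5 : s * D.L * s ≤ 1 / 16 * (1 / 16) :=
        mul_le_mul hs16 hs1 hs0 (by norm_num)
      have h6 : D.δ z * (s * D.L * s) ≤ D.δ z * (1 / 16 * (1 / 16)) :=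
        mul_le_mul_of_nonneg_left h5 hd.le
      nlinarith
    have h7 : 2 * (D.δ z * s) ≤ D.δ z / 8 := by nlinarith
    linarith
  rw [abs_le] at hdiff
  have hw1 : 3 / 4 * D.δ z ≤ D.δ w := by linarith [hdiff.1]
  have hw2 : D.δ w ≤ 5 / 4 * D.δ z := by linarith [hdiff.2]
  have hdw : 0 < D.δ w := by linarith
  have hwΩ : w ∈ D.Ω := by
    show D.ρ w < 0
    simp only [Dom.δ] at hdw
    linarith
  refine ⟨hwΩ, by linarith, by linarith, ?_⟩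
  intro X
  have hsqw : Real.sqrt (D.δ w) ^ 2 = D.δ w := Real.sq_sqrt hdw.le
  have hsqwpos : 0 < Real.sqrt (D.δ w) := Real.sqrt_pos.2 hdw
  have hlip : ‖fderiv ℝ D.ρ z - fderiv ℝ D.ρ w‖ ≤ 1 / 16 * Real.sqrt (D.δ z) := by
    calc ‖fderiv ℝ D.ρ z - fderiv ℝ D.ρ w‖ ≤ D.L * ‖z - w‖ := D.lip1 z w
      _ = D.L * ‖w - z‖ := by rw [norm_sub_rev]
      _ ≤ D.L * (Real.sqrt (D.δ z) * s) := mul_le_mul_of_nonneg_left hnorm hL0.le
      _ = (s * D.L) * Real.sqrt (D.δ z) := by ring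
      _ ≤ 1 / 16 * Real.sqrt (D.δ z) := mul_le_mul_of_nonneg_right hs16 hsqpos.le
  have hsub : ‖ell D.ρ z X - ell D.ρ w X‖ ≤ 1 / 16 * Real.sqrt (D.δ z) * ‖X‖ :=
    (norm_ell_sub_le D.ρ z w X).trans (mul_le_mul_of_nonneg_right hlip (norm_nonneg _))
  have hEw : ‖ell D.ρ w X‖ ≤ ‖ell D.ρ z X‖ + 1 / 16 * Real.sqrt (D.δ z) * ‖X‖ := by
    have h1 : ‖ell D.ρ w X‖ ≤ ‖ell D.ρ z X‖ + ‖ell D.ρ w X - ell D.ρ z X‖ := by
      have := norm_add_le (ell D.ρ z X) (ell D.ρ w X - ell D.ρ z X)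
      simpa using this
    rw [norm_sub_rev] at h1
    linarith
  have hEz : ‖ell D.ρ z X‖ ≤ ‖ell D.ρ w X‖ + 1 / 16 * Real.sqrt (D.δ z) * ‖X‖ := by
    have h1 : ‖ell D.ρ z X‖ ≤ ‖ell D.ρ w X‖ + ‖ell D.ρ z X - ell D.ρ w X‖ := by
      have := norm_add_le (ell D.ρ w X) (ell D.ρ z X - ell D.ρ w X)
      simpa using this
    linarith
  rw [D.nrm_eq hz, D.nrm_eq hwΩ]
  constructor
  · have h := C1b_aux (a := Real.sqrt (D.δ z)) (b := Real.sqrt (D.δ w))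
      (E := ‖ell D.ρ z X‖) (F := ‖ell D.ρ w X‖) (N := ‖X‖) hsqpos hsqwpos (norm_nonneg _)
      (by rw [hsq, hsqw]; exact hw1) (norm_nonneg _) hEw
    rw [hsq, hsqw] at h
    exact h
  · -- the other direction
    set a := Real.sqrt (D.δ z) with ha
    set b := Real.sqrt (D.δ w) with hb
    have hba : 3 / 4 * b ^ 2 ≤ a ^ 2 := by rw [hsq, hsqw]; linarith
    have hab' : 3 / 4 * b ≤ a := by
      have h1 : (3 / 4 * b) ^ 2 ≤ a ^ 2 := by nlinarith [sq_nonneg b]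
      exact le_of_sq_le_sq h1 hsqpos.le
    have h1 : (‖ell D.ρ w X‖ + 1 / 16 * a * ‖X‖) / a ^ 2 + ‖X‖ / a
        ≤ 2 * (‖ell D.ρ w X‖ / b ^ 2 + ‖X‖ / b) := by
      have h2 : (‖ell D.ρ w X‖ + 1 / 16 * a * ‖X‖) / a ^ 2
          = ‖ell D.ρ w X‖ / a ^ 2 + 1 / 16 * (‖X‖ / a) := by field_simp
      rw [h2]
      have h3 : ‖X‖ / a ≤ 4 / 3 * (‖X‖ / b) := by
        rw [div_le_iff₀ hsqpos]
        have : ‖X‖ = ‖X‖ / b * b := by field_simp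
        have h2 : 0 ≤ ‖X‖ / b := div_nonneg (norm_nonneg _) hsqwpos.le
        nlinarith
      have h4 : ‖ell D.ρ w X‖ / a ^ 2 ≤ 4 / 3 * (‖ell D.ρ w X‖ / b ^ 2) := by
        rw [div_le_iff₀ (by positivity)]
        have : ‖ell D.ρ w X‖ = ‖ell D.ρ w X‖ / b ^ 2 * b ^ 2 := by field_simp
        have h2 : 0 ≤ ‖ell D.ρ w X‖ / b ^ 2 := by positivity
        nlinarith
      have h5 : 0 ≤ ‖X‖ / b := div_nonneg (norm_nonneg _) hsqwpos.le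
      have h6 : 0 ≤ ‖ell D.ρ w X‖ / b ^ 2 := by positivity
      linarith
    have h7 : ‖ell D.ρ z X‖ / a ^ 2 ≤ (‖ell D.ρ w X‖ + 1 / 16 * a * ‖X‖) / a ^ 2 :=
      div_le_div_of_nonneg_right hEz (by positivity)
    rw [← hsq, ← hsqw]
    linarith

lemma Good.mono {D : Dom n} {s t : ℝ} (h : D.Good t) (hs : 0 < s) (hst : s ≤ t) : D.Good s :=
  ⟨hs, hst.trans h.le_one, fun z hz w hw => h.sub z hz w (D.B_mono z hst hw)⟩

lemma Good.B_subset {D : Dom n} {s₀ : ℝ} (h : D.Good s₀) {z : Cn n} (hz : z ∈ D.Ω) {s : ℝ}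
    (hs : s ≤ s₀) : D.B z s ⊆ D.Ω :=
  fun w hw => (h.sub z hz w (D.B_mono z hs hw)).1

/-- if `w ∈ B(z,s)` then `z ∈ B(w,2s)` and `B(w,s) ⊆ B(z,3s)`. -/
lemma Good.mem_symm {D : Dom n} {s₀ : ℝ} (h : D.Good s₀) {z w : Cn n} (hz : z ∈ D.Ω) {s : ℝ}
    (hs : s ≤ s₀) (hw : w ∈ D.B z s) : z ∈ D.B w (2 * s) := by
  have h1 := ((h.sub z hz w (D.B_mono z hs hw)).2.2.2 (z - w)).1
  rw [D.mem_B] at hw ⊢
  rw [map_sub_rev (D.nrm z) z w] at h1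
  linarith

lemma Good.ball_trans {D : Dom n} {s₀ : ℝ} (h : D.Good s₀) {z w : Cn n} (hz : z ∈ D.Ω)
    {s t : ℝ} (hs : s ≤ s₀) (hw : w ∈ D.B z s) : D.B w t ⊆ D.B z (s + 2 * t) := by
  intro u hu
  have h1 := ((h.sub z hz w (D.B_mono z hs hw)).2.2.2 (u - w)).2
  rw [D.mem_B] at hw hu ⊢
  have h2 : D.nrm z (u - z) ≤ D.nrm z (u - w) + D.nrm z (w - z) := by
    have := map_add_le_add (D.nrm z) (u - w) (w - z)
    simpa using this
  linarith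

end Dom

end HankelSPC
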