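import Pool.Agent.Lib.MP_e1cf54_an.C1a

/-! Row C2: volumes of the balls `B(z,s)`. -/

open MeasureTheory Set
open scoped ENNReal NNReal Topology ContDiff

namespace HankelSPC

variable {n : ℕ}

private lemma C2_prism {m : ℕ} (k : Fin (m + 1)) (p' : Fin m → ℂ) {a b : ℝ} (ha : 0 < a)
    (hb : 0 < b) (g : (Fin m → ℂ) → ℂ) (hg : Continuous g) :
    volume {w : Cn (m + 1) | ‖(fun j => w (k.succAbove j)) - p'‖ < b ∧
      ‖w k - g (fun j => w (k.succAbove j))‖ < a} =
      ENNReal.ofReal ((Real.pi * b ^ 2) ^ m * (Real.pi * a ^ 2)) := by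
  set E : Set (Cn (m + 1)) := {w | ‖(fun j => w (k.succAbove j)) - p'‖ < b ∧
      ‖w k - g (fun j => w (k.succAbove j))‖ < a} with hE
  have hsc : Continuous fun w : Cn (m + 1) => (fun j => w (k.succAbove j)) := by fun_prop
  have hgc : Continuous fun w : Cn (m + 1) => w k - g (fun j => w (k.succAbove j)) :=
    (continuous_apply k).sub (hg.comp hsc)
  have hopen : IsOpen E := by
    have h1 : IsOpen {w : Cn (m + 1) | ‖(fun j => w (k.succAbove j)) - p'‖ < b} :=
      isOpen_lt (hsc.sub continuous_const).norm continuous_const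
    have h2 : IsOpen {w : Cn (m + 1) | ‖w k - g (fun j => w (k.succAbove j))‖ < a} :=
      isOpen_lt hgc.norm continuous_const
    exact h1.inter h2
  have hmeas : MeasurableSet E := hopen.measurableSet
  set e := MeasurableEquiv.piFinSuccAbove (fun _ : Fin (m + 1) => ℂ) k with he
  have hpres := volume_preserving_piFinSuccAbove (fun _ : Fin (m + 1) => ℂ) k
  have hvol : volume E = volume (e.symm ⁻¹' E) := by
    have := (hpres.symm e).measure_preimage hmeas.nullMeasurableSet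
    exact this.symm
  have hmeas' : MeasurableSet (e.symm ⁻¹' E) := e.symm.measurable hmeas
  rw [hvol, Measure.volume_eq_prod, Measure.prod_apply_symm hmeas']
  set K : ℝ≥0∞ := ENNReal.ofReal (Real.pi * a ^ 2) with hK
  have hball : ∀ (x : ℂ) (r : ℝ), 0 < r →
      volume (Metric.ball x r) = ENNReal.ofReal (Real.pi * r ^ 2) := by
    intro x r hr
    rw [Complex.volume_ball, ENNReal.ofReal_mul Real.pi_nonneg, ENNReal.ofReal_pow hr.le,
      mul_comm, ← NNReal.coe_real_pi, ENNReal.ofReal_coe_nnreal]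
  have hslice : ∀ y : Fin m → ℂ, volume ((fun x : ℂ => (x, y)) ⁻¹' (e.symm ⁻¹' E)) =
      (Metric.ball p' b).indicator (fun _ => K) y := by
    intro y
    have hsymm : ∀ x : ℂ, e.symm (x, y) = k.insertNth x y := fun x => rfl
    have hmem : ∀ x : ℂ, x ∈ ((fun x : ℂ => (x, y)) ⁻¹' (e.symm ⁻¹' E)) ↔
        ‖y - p'‖ < b ∧ ‖x - g y‖ < a := by
      intro x
      simp only [mem_preimage]
      rw [hsymm]
      simp [hE]
    by_cases hy : y ∈ Metric.ball p' b
    · rw [indicator_of_mem hy]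
      have hy' : ‖y - p'‖ < b := by rwa [mem_ball_iff_norm] at hy
      have : ((fun x : ℂ => (x, y)) ⁻¹' (e.symm ⁻¹' E)) = Metric.ball (g y) a := by
        ext x
        rw [hmem, mem_ball_iff_norm]
        simp [hy']
      rw [this, hball _ _ ha]
    · rw [indicator_of_notMem hy]
      have hy' : ¬ ‖y - p'‖ < b := by rwa [mem_ball_iff_norm] at hy
      have : ((fun x : ℂ => (x, y)) ⁻¹' (e.symm ⁻¹' E)) = ∅ := by
        rw [eq_empty_iff_forall_notMem]
        intro x hx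
        rw [hmem] at hx
        exact hy' hx.1
      rw [this, measure_empty]
  rw [lintegral_congr hslice, lintegral_indicator_const Metric.isOpen_ball.measurableSet,
    volume_pi_ball _ hb]
  simp only [hball _ _ hb, Finset.prod_const, Finset.card_univ, Fintype.card_fin]
  rw [hK, mul_comm, ← ENNReal.ofReal_pow (by positivity), ← ENNReal.ofReal_mul (by positivity)]

private lemma C2_norm_ee (k : Fin n) : ‖(ee k : Cn n)‖ = 1 := by
  unfold ee
  rw [Pi.norm_single]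
  simp

private lemma C2_coord {m : ℕ} (D : Dom (m + 1)) {z : Cn (m + 1)} (hz : |D.ρ z| ≤ D.η) :
    ∃ (k : Fin (m + 1)) (g : (Fin m → ℂ) → ℂ), Continuous g ∧
      D.c ≤ ‖ell D.ρ z (ee k)‖ ∧ ‖ell D.ρ z (ee k)‖ ≤ D.L ∧
      (∀ w, ell D.ρ z (w - z) =
        ell D.ρ z (ee k) * (w k - g (fun j => w (k.succAbove j)))) ∧
      (∀ y, ‖g y - z k‖ ≤ D.L / D.c * ‖y - fun j => z (k.succAbove j)‖) := by
  obtain ⟨k, hk⟩ := D.ell_ge z hz
  have hc := D.c_pos
  have hL : 0 < D.L := lt_of_lt_of_le one_pos D.L_ge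
  set a0 := ell D.ρ z (ee k) with ha0
  have ha0' : 0 < ‖a0‖ := hc.trans_le hk
  have ha0'' : a0 ≠ 0 := norm_pos_iff.1 ha0'
  refine ⟨k, fun y =>
    z k - (∑ i, (y i - z (k.succAbove i)) * ell D.ρ z (ee (k.succAbove i))) / a0, ?_, hk, ?_, ?_, ?_⟩
  · fun_prop
  · have := norm_ell_le D.ρ z (ee k)
    rw [C2_norm_ee, mul_one] at this
    exact this.trans (D.bd1 z)
  · intro w
    rw [ell_sum D.ρ z (w - z), Fin.sum_univ_succAbove _ k, ← ha0]
    simp only [Pi.sub_apply]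
    field_simp
    ring
  · intro y
    set y' : Cn (m + 1) := k.insertNth (0 : ℂ) (y - fun j => z (k.succAbove j)) with hy'
    have h1 : ell D.ρ z y' = ∑ i, (y i - z (k.succAbove i)) * ell D.ρ z (ee (k.succAbove i)) := by
      rw [ell_sum D.ρ z y', Fin.sum_univ_succAbove _ k, hy']
      simp
    have h2 : ‖y'‖ ≤ ‖y - fun j => z (k.succAbove j)‖ := by
      rw [pi_norm_le_iff_of_nonneg (norm_nonneg _)]
      intro j
      refine Fin.succAboveCases k ?_ (fun i => ?_) j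
      · simp [hy']
      · rw [hy', Fin.insertNth_apply_succAbove]
        exact norm_le_pi_norm (y - fun j => z (k.succAbove j)) i
    have h3 : ‖ell D.ρ z y'‖ ≤ D.L * ‖y - fun j => z (k.succAbove j)‖ := by
      refine (norm_ell_le D.ρ z y').trans ?_
      exact mul_le_mul (D.bd1 z) h2 (norm_nonneg _) hL.le
    have h4 : z k - (∑ i, (y i - z (k.succAbove i)) * ell D.ρ z (ee (k.succAbove i))) / a0 - z k =
        - (ell D.ρ z y' / a0) := by
      rw [h1]
      ring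
    rw [h4, norm_neg, norm_div, div_mul_eq_mul_div]
    exact div_le_div₀ (by positivity) h3 hc hk


private lemma C2_ball (z : Cn n) {r : ℝ} (hr : 0 < r) :
    volume (Metric.ball z r) = ENNReal.ofReal ((Real.pi * r ^ 2) ^ n) := by
  rw [volume_pi_ball _ hr]
  simp only [Complex.volume_ball, Finset.prod_const, Finset.card_univ, Fintype.card_fin]
  rw [ENNReal.ofReal_pow (by positivity), ENNReal.ofReal_mul Real.pi_nonneg,
    ENNReal.ofReal_pow hr.le, mul_comm, ← NNReal.coe_real_pi, ENNReal.ofReal_coe_nnreal]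

/-- interior: upper bound -/
private lemma C2_upper_int (D : Dom n) {z : Cn n} (hz : z ∈ D.Ω) (h : D.η < D.δ z) {s : ℝ}
    (hs : 0 < s) : volume (D.B z s) ≤
      ENNReal.ofReal (Real.pi ^ n / D.η * s ^ (2 * n) * D.δ z ^ (n + 1)) := by
  have hδ := D.δ_pos hz
  have hη := D.η_pos
  have hsq : Real.sqrt (D.δ z) ^ 2 = D.δ z := Real.sq_sqrt hδ.le
  have hsub : D.B z s ⊆ Metric.ball z (s * Real.sqrt (D.δ z)) := by
    intro w hw
    rw [D.mem_B] at hw
    rw [mem_ball_iff_norm]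
    have h1 := D.norm_le_nrm hz (w - z)
    have h2 : Real.sqrt (D.δ z) * D.nrm z (w - z) < Real.sqrt (D.δ z) * s :=
      mul_lt_mul_of_pos_left hw (Real.sqrt_pos.2 hδ)
    linarith
  refine (measure_mono hsub).trans ?_
  rw [C2_ball z (mul_pos hs (Real.sqrt_pos.2 hδ))]
  apply ENNReal.ofReal_le_ofReal
  rw [mul_pow s, hsq]
  have h1 : (Real.pi * (s ^ 2 * D.δ z)) ^ n = Real.pi ^ n * s ^ (2 * n) * D.δ z ^ n := by
    rw [mul_pow, mul_pow, ← pow_mul]
    ring
  rw [h1]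
  have h2 : 1 ≤ D.δ z / D.η := by
    rw [one_le_div hη]
    exact h.le
  have h3 : Real.pi ^ n / D.η * s ^ (2 * n) * D.δ z ^ (n + 1) =
      (Real.pi ^ n * s ^ (2 * n) * D.δ z ^ n) * (D.δ z / D.η) := by
    rw [pow_succ]
    ring
  rw [h3]
  exact le_mul_of_one_le_right (by positivity) h2

/-- interior: lower bound -/
private lemma C2_lower_int (D : Dom n) {z : Cn n} (hz : z ∈ D.Ω) (h : D.η < D.δ z) {s : ℝ}
    (hs : 0 < s) : ENNReal.ofReal
      ((Real.pi / (2 * D.L ^ 2 / D.η) ^ 2) ^ n / D.L ^ (n + 1) * s ^ (2 * n) * D.δ z ^ (n + 1)) ≤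
        volume (D.B z s) := by
  have hδ := D.δ_pos hz
  have hη := D.η_pos
  have hL : 0 < D.L := lt_of_lt_of_le one_pos D.L_ge
  set K := 2 * D.L ^ 2 / D.η with hK
  have hK0 : 0 < K := by positivity
  have hsub : Metric.ball z (s / K) ⊆ D.B z s := by
    intro w hw
    rw [mem_ball_iff_norm, lt_div_iff₀ hK0] at hw
    rw [D.mem_B]
    have h1 := D.nrm_le hz (w - z)
    refine h1.trans_lt (lt_of_le_of_lt ?_ hw)
    rw [hK, div_eq_mul_inv, div_eq_mul_inv]
    have h2 : (D.δ z)⁻¹ ≤ D.η⁻¹ := inv_anti₀ hη h.le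
    have h3 : 0 ≤ 2 * D.L ^ 2 * ‖w - z‖ := by positivity
    calc 2 * D.L ^ 2 * ‖w - z‖ * (D.δ z)⁻¹ ≤ 2 * D.L ^ 2 * ‖w - z‖ * D.η⁻¹ :=
          mul_le_mul_of_nonneg_left h2 h3
      _ = ‖w - z‖ * (2 * D.L ^ 2 * D.η⁻¹) := by ring
  refine le_trans ?_ (measure_mono hsub)
  rw [C2_ball z (div_pos hs hK0)]
  apply ENNReal.ofReal_le_ofReal
  have h1 : (Real.pi * (s / K) ^ 2) ^ n = (Real.pi / K ^ 2) ^ n * s ^ (2 * n) := by
    rw [div_pow, ← mul_div_assoc, mul_comm Real.pi, mul_div_assoc, mul_pow, ← pow_mul]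
    ring
  rw [h1]
  have h2 : D.δ z ^ (n + 1) / D.L ^ (n + 1) ≤ 1 := by
    rw [div_le_one (by positivity)]
    exact pow_le_pow_left₀ hδ.le (D.δ_le z) _
  have h3 : (Real.pi / K ^ 2) ^ n / D.L ^ (n + 1) * s ^ (2 * n) * D.δ z ^ (n + 1) =
      ((Real.pi / K ^ 2) ^ n * s ^ (2 * n)) * (D.δ z ^ (n + 1) / D.L ^ (n + 1)) := by
    ring
  rw [h3]
  exact mul_le_of_le_one_right (by positivity) h2

/-- near the boundary: upper bound -/
private lemma C2_upper_bd {m : ℕ} (D : Dom (m + 1)) {z : Cn (m + 1)} (hz : z ∈ D.Ω)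
    (h : D.δ z ≤ D.η) {s : ℝ} (hs : 0 < s) : volume (D.B z s) ≤
      ENNReal.ofReal (Real.pi ^ (m + 1) / D.c ^ 2 * s ^ (2 * (m + 1)) * D.δ z ^ (m + 1 + 1)) := by
  have hδ := D.δ_pos hz
  have hη := D.η_pos
  have hc := D.c_pos
  have hsq : Real.sqrt (D.δ z) ^ 2 = D.δ z := Real.sq_sqrt hδ.le
  have hρz : |D.ρ z| ≤ D.η := by
    rw [abs_le]
    unfold Dom.δ at hδ h
    constructor <;> linarith
  obtain ⟨k, g, hg, hk1, hk2, hgw, hgy⟩ := C2_coord D hρz
  have hsub : D.B z s ⊆ {w : Cn (m + 1) |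
      ‖(fun j => w (k.succAbove j)) - fun j => z (k.succAbove j)‖ < s * Real.sqrt (D.δ z) ∧
      ‖w k - g (fun j => w (k.succAbove j))‖ < s * D.δ z / D.c} := by
    intro w hw
    rw [D.mem_B] at hw
    have h1 := D.norm_le_nrm hz (w - z)
    have h2 : Real.sqrt (D.δ z) * D.nrm z (w - z) < Real.sqrt (D.δ z) * s :=
      mul_lt_mul_of_pos_left hw (Real.sqrt_pos.2 hδ)
    have h3 := D.ell_le_nrm hz (w - z)
    have h4 : D.δ z * D.nrm z (w - z) < D.δ z * s := mul_lt_mul_of_pos_left hw hδ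
    constructor
    · have h5 : ‖(fun j => w (k.succAbove j)) - fun j => z (k.succAbove j)‖ ≤ ‖w - z‖ := by
        rw [pi_norm_le_iff_of_nonneg (norm_nonneg _)]
        intro j
        exact norm_le_pi_norm (w - z) (k.succAbove j)
      linarith
    · rw [hgw, norm_mul] at h3
      rw [lt_div_iff₀ hc]
      have h5 : ‖w k - g (fun j => w (k.succAbove j))‖ * D.c ≤
          ‖w k - g (fun j => w (k.succAbove j))‖ * ‖ell D.ρ z (ee k)‖ :=
        mul_le_mul_of_nonneg_left hk1 (norm_nonneg _)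
      linarith
  refine (measure_mono hsub).trans (le_of_eq ?_)
  rw [C2_prism k _ (by positivity) (mul_pos hs (Real.sqrt_pos.2 hδ)) g hg]
  congr 1
  rw [mul_pow s, hsq, mul_pow, mul_pow, ← pow_mul, div_pow, mul_pow]
  rw [pow_succ Real.pi m, pow_succ (D.δ z) (m + 1), pow_succ (D.δ z) m,
    show 2 * (m + 1) = 2 * m + 2 by ring, pow_add]
  ring

/-- near the boundary: lower bound -/
private lemma C2_lower_bd {m : ℕ} (D : Dom (m + 1)) {z : Cn (m + 1)} (hz : z ∈ D.Ω)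
    (h : D.δ z ≤ D.η) {s ε : ℝ} (hs : 0 < s) (hε : ε = 1 / (4 * (1 + D.L / D.c))) :
    ENNReal.ofReal (Real.pi ^ (m + 1) * ε ^ (2 * (m + 1)) / D.L ^ 2 * s ^ (2 * (m + 1)) *
      D.δ z ^ (m + 1 + 1)) ≤ volume (D.B z s) := by
  have hδ := D.δ_pos hz
  have hη := D.η_pos
  have hc := D.c_pos
  have hL1 := D.L_ge
  have hL : 0 < D.L := lt_of_lt_of_le one_pos D.L_ge
  have hsq : Real.sqrt (D.δ z) ^ 2 = D.δ z := Real.sq_sqrt hδ.le
  have hsq0 : 0 < Real.sqrt (D.δ z) := Real.sqrt_pos.2 hδ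
  have hδ1 : D.δ z ≤ 1 := h.trans D.η_lt.le
  have hδs : D.δ z ≤ Real.sqrt (D.δ z) := by
    apply Real.le_sqrt_of_sq_le
    nlinarith
  have hρz : |D.ρ z| ≤ D.η := by
    rw [abs_le]
    unfold Dom.δ at hδ h
    constructor <;> linarith
  have hLc : 0 < D.L / D.c := div_pos hL hc
  have hε0 : 0 < ε := by rw [hε]; positivity
  have hε1 : ε * (1 + D.L / D.c) = 1 / 4 := by
    rw [hε]
    field_simp
  have hε2 : ε ≤ 1 / 4 := by nlinarith
  obtain ⟨k, g, hg, hk1, hk2, hgw, hgy⟩ := C2_coord D hρz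
  have hsub : {w : Cn (m + 1) |
      ‖(fun j => w (k.succAbove j)) - fun j => z (k.succAbove j)‖ <
        ε * s * Real.sqrt (D.δ z) ∧
      ‖w k - g (fun j => w (k.succAbove j))‖ < ε * s * D.δ z / D.L} ⊆ D.B z s := by
    rintro w ⟨h1, h2⟩
    rw [D.mem_B, D.nrm_eq hz]
    have h3 : ‖ell D.ρ z (w - z)‖ / D.δ z < s / 2 := by
      rw [hgw, norm_mul, div_lt_iff₀ hδ]
      rw [lt_div_iff₀ hL] at h2
      have h4 : ‖ell D.ρ z (ee k)‖ * ‖w k - g (fun j => w (k.succAbove j))‖ ≤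
          D.L * ‖w k - g (fun j => w (k.succAbove j))‖ :=
        mul_le_mul_of_nonneg_right hk2 (norm_nonneg _)
      have h5 : ε * s * D.δ z ≤ 1 / 4 * s * D.δ z := by gcongr
      have h6 : 0 < s * D.δ z := by positivity
      nlinarith
    have h7 : ‖w - z‖ ≤ s / 4 * Real.sqrt (D.δ z) := by
      rw [pi_norm_le_iff_of_nonneg (by positivity)]
      intro j
      refine Fin.succAboveCases k ?_ (fun i => ?_) j
      · have h8 := hgy (fun j => w (k.succAbove j))
        have h9 : ‖(w - z) k‖ ≤ ‖w k - g (fun j => w (k.succAbove j))‖ +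
            ‖g (fun j => w (k.succAbove j)) - z k‖ := by
          have : (w - z) k = (w k - g (fun j => w (k.succAbove j))) +
            (g (fun j => w (k.succAbove j)) - z k) := by simp
          rw [this]
          exact norm_add_le _ _
        have h10 : D.L / D.c * ‖(fun j => w (k.succAbove j)) - fun j => z (k.succAbove j)‖ ≤
            D.L / D.c * (ε * s * Real.sqrt (D.δ z)) :=
          mul_le_mul_of_nonneg_left h1.le hLc.le
        have h11 : ε * s * D.δ z / D.L ≤ ε * s * Real.sqrt (D.δ z) := by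
          rw [div_le_iff₀ hL]
          have h12 : ε * s * D.δ z ≤ ε * s * Real.sqrt (D.δ z) := by gcongr
          have h13 : 0 ≤ ε * s * Real.sqrt (D.δ z) := by positivity
          nlinarith
        have h14 : s / 4 * Real.sqrt (D.δ z) =
            ε * s * Real.sqrt (D.δ z) + D.L / D.c * (ε * s * Real.sqrt (D.δ z)) := by
          have : s / 4 * Real.sqrt (D.δ z) = (1 / 4) * (s * Real.sqrt (D.δ z)) := by ring
          rw [this, ← hε1]
          ring
        linarith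
      · have h8 := norm_le_pi_norm ((fun j => w (k.succAbove j)) - fun j => z (k.succAbove j)) i
        simp only [Pi.sub_apply] at h8 ⊢
        have h9 : ε * s * Real.sqrt (D.δ z) ≤ 1 / 4 * s * Real.sqrt (D.δ z) := by gcongr
        linarith
    have h15 : ‖w - z‖ / Real.sqrt (D.δ z) ≤ s / 4 := by
      rw [div_le_iff₀ hsq0]
      exact h7
    linarith
  refine le_trans (le_of_eq ?_) (measure_mono hsub)
  rw [C2_prism k _ (by positivity) (by positivity) g hg]
  congr 1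
  rw [mul_pow (ε * s), hsq, mul_pow, mul_pow, mul_pow ε s 2, mul_pow, ← pow_mul, ← pow_mul, div_pow,
    mul_pow, mul_pow]
  rw [pow_succ Real.pi m, pow_succ (D.δ z) (m + 1), pow_succ (D.δ z) m,
    show 2 * (m + 1) = 2 * m + 2 by ring, pow_add, pow_add]
  ring

namespace Dom

/-- `vol B(z,s) ≈ s^{2n} δ(z)^{n+1}`. Scaling: `B(z,s) = z + s • B₁`
(`Measure.addHaar_preimage_add`, `addHaar_smul`, real dimension `2n`). Near the boundary choose `k`
with `|∂_kρ| ≥ c` and the complex linear map `X ↦ Y`, `Y_k = ∂ρ(z)(X)/δ`, `Y_j = X_j/√δ` (`j ≠ k`),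
complex determinant `∂_kρ δ^{-1} δ^{-(n-1)/2}`, real determinant its square
(`LinearMap.det_restrictScalars`, `Measure.addHaar_preimage_linearMap`); `‖Y‖ ≤ |X|_z ≤ C ‖Y‖`.
In the interior (`δ > η`) everything is comparable to `1`. -/
theorem volume_B (D : Dom n) : ∃ C : ℝ, 0 < C ∧ ∀ z ∈ D.Ω, ∀ s : ℝ, 0 < s →
    ENNReal.ofReal (C⁻¹ * s ^ (2 * n) * D.δ z ^ (n + 1)) ≤ volume (D.B z s) ∧
      volume (D.B z s) ≤ ENNReal.ofReal (C * s ^ (2 * n) * D.δ z ^ (n + 1)) := by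
  have hη := D.η_pos
  have hc := D.c_pos
  have hL : 0 < D.L := lt_of_lt_of_le one_pos D.L_ge
  set ε : ℝ := 1 / (4 * (1 + D.L / D.c)) with hε
  have hε0 : 0 < ε := by rw [hε]; positivity
  set C₁ : ℝ := Real.pi ^ n / D.c ^ 2 with hC₁
  set C₂ : ℝ := Real.pi ^ n / D.η with hC₂
  set C₃ : ℝ := Real.pi ^ n * ε ^ (2 * n) / D.L ^ 2 with hC₃
  set C₄ : ℝ := (Real.pi / (2 * D.L ^ 2 / D.η) ^ 2) ^ n / D.L ^ (n + 1) with hC₄
  have h₁ : 0 < C₁ := by positivity
  have h₂ : 0 < C₂ := by positivity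
  have h₃ : 0 < C₃ := by positivity
  have h₄ : 0 < C₄ := by positivity
  have h₃' : 0 < C₃⁻¹ := inv_pos.2 h₃
  have h₄' : 0 < C₄⁻¹ := inv_pos.2 h₄
  set C : ℝ := C₁ + C₂ + C₃⁻¹ + C₄⁻¹ with hC
  have hC0 : 0 < C := by positivity
  refine ⟨C, hC0, ?_⟩
  intro z hz s hs
  have hδ := D.δ_pos hz
  have hX : 0 ≤ s ^ (2 * n) * D.δ z ^ (n + 1) := by positivity
  have hlow : ∀ c' : ℝ, 0 < c' → c'⁻¹ ≤ C → ENNReal.ofReal (C⁻¹ * s ^ (2 * n) * D.δ z ^ (n + 1)) ≤
      ENNReal.ofReal (c' * s ^ (2 * n) * D.δ z ^ (n + 1)) := by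
    intro c' hc' h
    apply ENNReal.ofReal_le_ofReal
    rw [mul_assoc, mul_assoc]
    apply mul_le_mul_of_nonneg_right _ hX
    exact inv_le_of_inv_le₀ hc' h
  have hup : ∀ c' : ℝ, c' ≤ C → ENNReal.ofReal (c' * s ^ (2 * n) * D.δ z ^ (n + 1)) ≤
      ENNReal.ofReal (C * s ^ (2 * n) * D.δ z ^ (n + 1)) := by
    intro c' h
    apply ENNReal.ofReal_le_ofReal
    rw [mul_assoc, mul_assoc]
    exact mul_le_mul_of_nonneg_right h hX
  rcases lt_or_ge D.η (D.δ z) with h | h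
  · exact ⟨(hlow C₄ h₄ (by linarith)).trans (C2_lower_int D hz h hs),
      (C2_upper_int D hz h hs).trans (hup C₂ (by linarith))⟩
  · rcases n with _ | m
    · exfalso
      have hρz : |D.ρ z| ≤ D.η := by
        rw [abs_le]
        unfold Dom.δ at hδ h
        constructor <;> linarith
      obtain ⟨k, -⟩ := D.ell_ge z hρz
      exact k.elim0
    · exact ⟨(hlow C₃ h₃ (by linarith)).trans (C2_lower_bd D hz h hs hε),
        (C2_upper_bd D hz h hs).trans (hup C₁ (by linarith))⟩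

end Dom

end HankelSPC
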