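import Pool.Agent.Lib.MP_e1cf54_an.C1b

/-! Row C3: the quasi-distance. -/

open MeasureTheory Set
open scoped ENNReal NNReal Topology ContDiff

namespace HankelSPC

variable {n : ℕ}

lemma C3_ell_neg (ρ : Cn n → ℝ) (z X : Cn n) : ell ρ z (-X) = -ell ρ z X := by
  have h := ell_smul ρ z (-1) X
  rw [neg_one_smul, neg_one_mul] at h
  exact h

lemma C3_norm_ell_comm (ρ : Cn n → ℝ) (z a b : Cn n) : ‖ell ρ z (a - b)‖ = ‖ell ρ z (b - a)‖ := by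
  rw [← neg_sub b a, C3_ell_neg, norm_neg]

namespace Dom

variable (D : Dom n)

lemma C3_ell_change (z w X : Cn n) : ‖ell D.ρ z X‖ ≤ ‖ell D.ρ w X‖ + D.L * ‖z - w‖ * ‖X‖ := by
  have h1 := norm_ell_sub_le D.ρ z w X
  have h2 := mul_le_mul_of_nonneg_right (D.lip1 z w) (norm_nonneg X)
  have h3 : ‖ell D.ρ z X‖ ≤ ‖ell D.ρ w X‖ + ‖ell D.ρ z X - ell D.ρ w X‖ := by
    have := norm_add_le (ell D.ρ w X) (ell D.ρ z X - ell D.ρ w X)
    rwa [add_sub_cancel] at this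
  linarith

lemma qd_pos {z w : Cn n} (hz : z ∈ D.Ω) (hw : w ∈ D.Ω) : 0 < D.qd z w := by
  have h1 := D.δ_pos hz
  have h2 := D.δ_pos hw
  unfold qd
  positivity

lemma δ_le_qd {z w : Cn n} (hz : z ∈ D.Ω) (hw : w ∈ D.Ω) :
    D.δ z ≤ D.qd z w ∧ D.δ w ≤ D.qd z w := by
  have h1 := D.δ_pos hz
  have h2 := D.δ_pos hw
  have h3 : 0 ≤ ‖z - w‖ ^ 2 := by positivity
  have h4 := norm_nonneg (ell D.ρ z (z - w))
  unfold qd
  constructor <;> linarith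

/-- the quasi-distance is bounded: `qd ≤ 2L + 4L² + 2L²`. -/
lemma qd_le {z w : Cn n} (hz : z ∈ D.Ω) (hw : w ∈ D.Ω) : D.qd z w ≤ 8 * D.L ^ 2 := by
  have hL := D.L_ge
  have h1 : ‖z‖ < D.L := D.norm_lt_of_le zero_lt_one (le_of_lt hz)
  have h2 : ‖w‖ < D.L := D.norm_lt_of_le zero_lt_one (le_of_lt hw)
  have h3 : ‖z - w‖ ≤ 2 * D.L := by
    have := norm_sub_le z w
    linarith
  have h4 : ‖z - w‖ ^ 2 ≤ (2 * D.L) ^ 2 := pow_le_pow_left₀ (norm_nonneg _) h3 2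
  have h5 : ‖ell D.ρ z (z - w)‖ ≤ D.L * (2 * D.L) :=
    (norm_ell_le D.ρ z (z - w)).trans
      (mul_le_mul (D.bd1 z) h3 (norm_nonneg _) (by linarith))
  have h6 := D.δ_le z
  have h7 := D.δ_le w
  have h8 : D.L ≤ D.L ^ 2 := by nlinarith
  unfold qd
  nlinarith

/-- symmetry up to constants: `|∂ρ(w)(z-w)| ≤ |∂ρ(z)(z-w)| + L ‖z-w‖²`. -/
lemma qd_symm {z w : Cn n} (hz : z ∈ D.Ω) (hw : w ∈ D.Ω) :
    D.qd w z ≤ (1 + D.L) * D.qd z w := by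
  have hL := D.L_ge
  have h1 := D.δ_pos hz
  have h2 := D.δ_pos hw
  have h3 : ‖ell D.ρ w (w - z)‖ ≤ ‖ell D.ρ z (z - w)‖ + D.L * ‖z - w‖ ^ 2 := by
    rw [C3_norm_ell_comm]
    have := D.C3_ell_change w z (z - w)
    rw [norm_sub_rev w z] at this
    rw [sq, ← mul_assoc]
    exact this
  have h4 : ‖w - z‖ = ‖z - w‖ := norm_sub_rev w z
  have h5 : 0 ≤ ‖z - w‖ ^ 2 := by positivity
  have h6 := norm_nonneg (ell D.ρ z (z - w))
  unfold qd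
  rw [h4]
  nlinarith [mul_nonneg (by linarith : (0 : ℝ) ≤ D.L) h6, mul_nonneg (by linarith : (0 : ℝ) ≤ D.L) h1.le,
    mul_nonneg (by linarith : (0 : ℝ) ≤ D.L) h2.le]

lemma C3_norm_sq_le {s₀ : ℝ} (h : D.Good s₀) {z z' : Cn n} (hz : z ∈ D.Ω) (hz' : z' ∈ D.B z s₀) :
    ‖z - z'‖ ^ 2 ≤ D.δ z ∧ ‖ell D.ρ z (z - z')‖ ≤ D.δ z := by
  have hδ := D.δ_pos hz
  have h0 : D.nrm z (z' - z) ≤ 1 := ((D.mem_B.1 hz').le).trans h.le_one
  have h1 := D.norm_le_nrm hz (z' - z)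
  have h2 := D.ell_le_nrm hz (z' - z)
  have h3 : ‖z - z'‖ ≤ Real.sqrt (D.δ z) := by
    rw [norm_sub_rev]
    calc ‖z' - z‖ ≤ Real.sqrt (D.δ z) * D.nrm z (z' - z) := h1
      _ ≤ Real.sqrt (D.δ z) * 1 := by gcongr
      _ = _ := mul_one _
  constructor
  · calc ‖z - z'‖ ^ 2 ≤ Real.sqrt (D.δ z) ^ 2 := pow_le_pow_left₀ (norm_nonneg _) h3 2
      _ = D.δ z := Real.sq_sqrt hδ.le
  · rw [C3_norm_ell_comm]
    calc ‖ell D.ρ z (z' - z)‖ ≤ D.δ z * D.nrm z (z' - z) := h2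
      _ ≤ D.δ z * 1 := by gcongr
      _ = _ := mul_one _

/-- one half of the stability: `z, z'` with comparable `δ`, `‖z-z'‖² ≤ A δ z`,
`‖ell z' (z' - z)‖ ≤ A δ z`. -/
lemma C3_stable {A : ℝ} (hA : 0 ≤ A) {z z' w : Cn n} (hz : z ∈ D.Ω) (hw : w ∈ D.Ω)
    (h1 : D.δ z' ≤ A * D.δ z) (h2 : ‖z' - z‖ ^ 2 ≤ A * D.δ z)
    (h3 : ‖ell D.ρ z' (z' - z)‖ ≤ A * D.δ z) :
    D.qd z' w ≤ ((4 + D.L) * A + 2 + D.L) * D.qd z w := by
  have hL := D.L_ge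
  have hδ := D.δ_pos hz
  have hδw := D.δ_pos hw
  have e1 : ‖z' - w‖ ^ 2 ≤ 2 * ‖z' - z‖ ^ 2 + 2 * ‖z - w‖ ^ 2 := by
    have hh : ‖z' - w‖ ≤ ‖z' - z‖ + ‖z - w‖ := by
      have := norm_add_le (z' - z) (z - w)
      rwa [sub_add_sub_cancel] at this
    have h0 : ‖z' - w‖ ^ 2 ≤ (‖z' - z‖ + ‖z - w‖) ^ 2 := pow_le_pow_left₀ (norm_nonneg _) hh 2
    nlinarith [sq_nonneg (‖z' - z‖ - ‖z - w‖)]
  have e2 : ‖ell D.ρ z' (z' - w)‖ ≤ ‖ell D.ρ z' (z' - z)‖ + ‖ell D.ρ z' (z - w)‖ := by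
    have := norm_add_le (ell D.ρ z' (z' - z)) (ell D.ρ z' (z - w))
    rwa [← ell_add, sub_add_sub_cancel] at this
  have e3 := D.C3_ell_change z' z (z - w)
  have e4 : D.L * ‖z' - z‖ * ‖z - w‖ ≤ D.L * (‖z' - z‖ ^ 2 + ‖z - w‖ ^ 2) := by
    rw [mul_assoc]
    refine mul_le_mul_of_nonneg_left ?_ (by linarith)
    nlinarith [sq_nonneg (‖z' - z‖ - ‖z - w‖), norm_nonneg (z' - z), norm_nonneg (z - w),
      mul_nonneg (norm_nonneg (z' - z)) (norm_nonneg (z - w))]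
  have e5 : 0 ≤ ‖z - w‖ ^ 2 := by positivity
  have e6 := norm_nonneg (ell D.ρ z (z - w))
  have e7 : D.L * ‖z' - z‖ ^ 2 ≤ D.L * (A * D.δ z) := mul_le_mul_of_nonneg_left h2 (by linarith)
  have e8 : 0 ≤ A * D.δ z := mul_nonneg hA hδ.le
  have hq : D.qd z w = D.δ z + D.δ w + ‖z - w‖ ^ 2 + ‖ell D.ρ z (z - w)‖ := rfl
  have hq' : D.qd z' w = D.δ z' + D.δ w + ‖z' - w‖ ^ 2 + ‖ell D.ρ z' (z' - w)‖ := rfl
  have e9 : D.qd z' w ≤ (4 + D.L) * (A * D.δ z) + D.δ w + (2 + D.L) * ‖z - w‖ ^ 2 + ‖ell D.ρ z (z - w)‖ := by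
    rw [hq']
    nlinarith
  have hqz : D.δ z ≤ D.qd z w := (D.δ_le_qd hz hw).1
  have e10 : (4 + D.L) * (A * D.δ z) ≤ (4 + D.L) * A * D.qd z w := by
    rw [← mul_assoc]
    exact mul_le_mul_of_nonneg_left hqz (mul_nonneg (by linarith) hA)
  have e11 : D.δ w + (2 + D.L) * ‖z - w‖ ^ 2 + ‖ell D.ρ z (z - w)‖ ≤ (2 + D.L) * D.qd z w := by
    rw [hq]
    nlinarith [mul_nonneg (by linarith : (0 : ℝ) ≤ 1 + D.L) hδw.le,
      mul_nonneg (by linarith : (0 : ℝ) ≤ 1 + D.L) e6, mul_nonneg (by linarith : (0 : ℝ) ≤ 2 + D.L) hδ.le]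
  calc D.qd z' w ≤ (4 + D.L) * (A * D.δ z) + D.δ w + (2 + D.L) * ‖z - w‖ ^ 2 + ‖ell D.ρ z (z - w)‖ := e9
    _ ≤ (4 + D.L) * A * D.qd z w + (2 + D.L) * D.qd z w := by linarith
    _ = _ := by ring

/-- stability in the first variable. -/
theorem qd_stable_left {s₀ : ℝ} (h : D.Good s₀) : ∃ C : ℝ, 1 ≤ C ∧ ∀ z ∈ D.Ω, ∀ z' ∈ D.B z s₀,
    ∀ w ∈ D.Ω, D.qd z' w ≤ C * D.qd z w ∧ D.qd z w ≤ C * D.qd z' w := by
  have hL := D.L_ge
  refine ⟨(4 + D.L) * 4 + 2 + D.L, by linarith, ?_⟩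
  intro z hz z' hz' w hw
  obtain ⟨hzΩ', hd1, hd2, hX⟩ := h.sub z hz z' hz'
  have hδ := D.δ_pos hz
  have hδ' := D.δ_pos hzΩ'
  obtain ⟨h1, h2⟩ := D.C3_norm_sq_le h hz hz'
  have h0 : D.nrm z (z' - z) ≤ 1 := ((D.mem_B.1 hz').le).trans h.le_one
  have h3 : ‖ell D.ρ z' (z' - z)‖ ≤ 4 * D.δ z := by
    have e1 := D.ell_le_nrm hzΩ' (z' - z)
    have e2 := (hX (z' - z)).1
    have e3 : D.nrm z' (z' - z) ≤ 2 := by linarith
    calc ‖ell D.ρ z' (z' - z)‖ ≤ D.δ z' * D.nrm z' (z' - z) := e1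
      _ ≤ D.δ z' * 2 := by gcongr
      _ ≤ 4 * D.δ z := by linarith
  constructor
  · refine D.C3_stable (by norm_num) hz hw ?_ ?_ h3
    · linarith
    · rw [norm_sub_rev]
      linarith
  · refine D.C3_stable (by norm_num) hzΩ' hw ?_ ?_ ?_
    · linarith
    · linarith
    · linarith

/-- stability in the second variable (from symmetry). -/
theorem qd_stable_right {s₀ : ℝ} (h : D.Good s₀) : ∃ C : ℝ, 1 ≤ C ∧ ∀ z ∈ D.Ω, ∀ w ∈ D.Ω,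
    ∀ w' ∈ D.B w s₀, D.qd z w' ≤ C * D.qd z w ∧ D.qd z w ≤ C * D.qd z w' := by
  have hL := D.L_ge
  obtain ⟨C, hC, hst⟩ := D.qd_stable_left h
  have hL1 : (1 : ℝ) ≤ 1 + D.L := by linarith
  refine ⟨(1 + D.L) * C * (1 + D.L), ?_, ?_⟩
  · exact one_le_mul_of_one_le_of_one_le (one_le_mul_of_one_le_of_one_le hL1 hC) hL1
  · intro z hz w hw w' hw'
    have hw'Ω := (h.sub w hw w' hw').1
    obtain ⟨h1, h2⟩ := hst w hw w' hw' z hz
    have hC0 : (0 : ℝ) ≤ (1 + D.L) * C := by positivity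
    constructor
    · calc D.qd z w' ≤ (1 + D.L) * D.qd w' z := D.qd_symm hw'Ω hz
        _ ≤ (1 + D.L) * (C * D.qd w z) := mul_le_mul_of_nonneg_left h1 (by linarith)
        _ = (1 + D.L) * C * D.qd w z := by ring
        _ ≤ (1 + D.L) * C * ((1 + D.L) * D.qd z w) := mul_le_mul_of_nonneg_left (D.qd_symm hz hw) hC0
        _ = _ := by ring
    · calc D.qd z w ≤ (1 + D.L) * D.qd w z := D.qd_symm hw hz
        _ ≤ (1 + D.L) * (C * D.qd w' z) := mul_le_mul_of_nonneg_left h2 (by linarith)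
        _ = (1 + D.L) * C * D.qd w' z := by ring
        _ ≤ (1 + D.L) * C * ((1 + D.L) * D.qd z w') := mul_le_mul_of_nonneg_left (D.qd_symm hz hw'Ω) hC0
        _ = _ := by ring

/-- close points. -/
theorem qd_close {s₀ : ℝ} (h : D.Good s₀) : ∃ C : ℝ, 1 ≤ C ∧ ∀ z ∈ D.Ω, ∀ w ∈ D.B z s₀,
    D.qd z w ≤ C * D.δ z := by
  refine ⟨5, by norm_num, ?_⟩
  intro z hz w hw
  obtain ⟨_, hd1, _, _⟩ := h.sub z hz w hw
  obtain ⟨h1, h2⟩ := D.C3_norm_sq_le h hz hw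
  unfold qd
  linarith

/-- If two balls of radius `s₀` meet then the quasi-distance of the centres is small. -/
theorem qd_of_inter {s₀ : ℝ} (h : D.Good s₀) : ∃ C : ℝ, 1 ≤ C ∧ ∀ z ∈ D.Ω, ∀ w ∈ D.Ω,
    (D.B z s₀ ∩ D.B w s₀).Nonempty → D.qd z w ^ 2 ≤ C * D.δ z * D.δ w := by
  have hL := D.L_ge
  obtain ⟨C₁, hC₁, hst⟩ := D.qd_stable_left h
  obtain ⟨C₂, hC₂, hcl⟩ := D.qd_close h
  have hL1 : (1 : ℝ) ≤ 1 + D.L := by linarith
  have hK : (1 : ℝ) ≤ C₁ * (1 + D.L) * C₂ :=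
    one_le_mul_of_one_le_of_one_le (one_le_mul_of_one_le_of_one_le hC₁ hL1) hC₂
  refine ⟨4 * (C₁ * (1 + D.L) * C₂) ^ 2, ?_, ?_⟩
  · nlinarith
  · rintro z hz w hw ⟨u, huz, huw⟩
    obtain ⟨huΩ, a1, a2, -⟩ := h.sub z hz u huz
    obtain ⟨-, b1, b2, -⟩ := h.sub w hw u huw
    have hδz := D.δ_pos hz
    have hδw := D.δ_pos hw
    have e1 : D.qd z w ≤ C₁ * (1 + D.L) * C₂ * D.δ w := by
      calc D.qd z w ≤ C₁ * D.qd u w := (hst z hz u huz w hw).2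
        _ ≤ C₁ * ((1 + D.L) * D.qd w u) := mul_le_mul_of_nonneg_left (D.qd_symm hw huΩ) (by linarith)
        _ = C₁ * (1 + D.L) * D.qd w u := by ring
        _ ≤ C₁ * (1 + D.L) * (C₂ * D.δ w) :=
          mul_le_mul_of_nonneg_left (hcl w hw u huw) (by positivity)
        _ = _ := by ring
    have e2 : D.δ w ≤ 4 * D.δ z := by linarith
    have hq := D.qd_pos hz hw
    calc D.qd z w ^ 2 ≤ (C₁ * (1 + D.L) * C₂ * D.δ w) ^ 2 := pow_le_pow_left₀ hq.le e1 2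
      _ = (C₁ * (1 + D.L) * C₂) ^ 2 * D.δ w * D.δ w := by ring
      _ ≤ (C₁ * (1 + D.L) * C₂) ^ 2 * (4 * D.δ z) * D.δ w := by gcongr
      _ = _ := by ring

lemma C3_continuous_ell (z : Cn n) : Continuous fun X => ell D.ρ z X := by
  unfold ell
  fun_prop

/-- Measurability of `w ↦ qd z w` (continuity). -/
lemma continuous_qd (z : Cn n) : Continuous (D.qd z) := by
  have h1 := D.continuous_δ
  have h2 := D.C3_continuous_ell z
  unfold qd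
  have h3 : Continuous fun w => ell D.ρ z (z - w) := h2.comp (continuous_const.sub continuous_id)
  fun_prop

lemma continuous_qd_left (w : Cn n) : Continuous fun z => D.qd z w := by
  have h1 := D.continuous_δ
  have h2 : Continuous (fderiv ℝ D.ρ) := D.smooth.continuous_fderiv (by norm_num)
  unfold qd
  have h3 : Continuous fun z => ell D.ρ z (z - w) := by
    unfold ell
    have e1 : Continuous fun z => fderiv ℝ D.ρ z (z - w) := h2.clm_apply (continuous_id.sub continuous_const)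
    have e2 : Continuous fun z => fderiv ℝ D.ρ z (Complex.I • (z - w)) :=
      h2.clm_apply (by fun_prop : Continuous fun z : Cn n => Complex.I • (z - w))
    fun_prop
  fun_prop

end Dom

end HankelSPC
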