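import Pool.Agent.Lib.MP_e1cf54_an.Defs

/-! Row C4a: slices -/

open MeasureTheory Set
open scoped ENNReal NNReal Topology ContDiff

namespace HankelSPC

variable {n : ℕ}

/-- One horizontal line. -/
lemma C4a_line {g : ℝ → ℝ} (hg : Differentiable ℝ g) {A : Set ℝ} (hA : Convex ℝ A) {s c : ℝ}
    (hc : 0 < c) (hd : ∀ x ∈ A, c ≤ deriv g x) :
    volume {x | x ∈ A ∧ -s < g x ∧ g x < 0} ≤ ENNReal.ofReal (s / c) := by
  refine (Real.volume_le_diam _).trans ?_
  apply Metric.ediam_le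
  have key : ∀ x ∈ {x | x ∈ A ∧ -s < g x ∧ g x < 0}, ∀ y ∈ {x | x ∈ A ∧ -s < g x ∧ g x < 0}, x < y →
      y - x ≤ s / c := by
    intro x hx y hy hxy
    have h1 : c * (y - x) ≤ g y - g x := by
      have hsub : Icc x y ⊆ A := hA.ordConnected.out hx.1 hy.1
      exact (convex_Icc x y).mul_sub_le_image_sub_of_le_deriv hg.continuous.continuousOn
        hg.differentiableOn (fun z hz => hd z (hsub (interior_subset hz))) x (left_mem_Icc.mpr hxy.le)
        y (right_mem_Icc.mpr hxy.le) hxy.le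
    rw [le_div_iff₀ hc]
    have h2 := hx.2.1
    have h3 := hy.2.2
    linarith
  intro x hx y hy
  rw [edist_dist]
  apply ENNReal.ofReal_le_ofReal
  rcases lt_trichotomy x y with h | h | h
  · rw [Real.dist_eq, abs_sub_comm, abs_of_pos (by linarith)]
    exact key x hx y hy h
  · subst h
    rw [dist_self]
    have h2 := hx.2.1
    have h3 := hx.2.2
    have : 0 < s := by linarith
    positivity
  · rw [Real.dist_eq, abs_of_pos (by linarith)]
    exact key y hy x hx h

/-- Slices: `ρ` a `C¹` function on `ℂ` (a slice of a defining function). If the directional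
derivative in the direction `ν` (`|ν| = 1`) is `≥ c` on the disc `{|ζ - ζ₀| < R}` then
`area {ζ : |ζ - ζ₀| < R, |ζ - ζ₁| < a, -s < ρ(ζ) < 0} ≤ 2 a * s / c` (rotate so that `ν` is real,
Fubini: for fixed imaginary part in an interval of length `2a` the real part lies in an interval of
length `s/c`). -/
theorem slice_area {ρ : ℂ → ℝ} (hρ : Differentiable ℝ ρ) {ζ₀ ζ₁ ν : ℂ} {R a s c : ℝ}
    (hc : 0 < c) (hν : ‖ν‖ = 1) (ha : 0 < a) (hs : 0 < s)
    (hd : ∀ ζ, ‖ζ - ζ₀‖ < R → c ≤ fderiv ℝ ρ ζ ν) :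
    volume {ζ : ℂ | ‖ζ - ζ₀‖ < R ∧ ‖ζ - ζ₁‖ < a ∧ -s < ρ ζ ∧ ρ ζ < 0}
      ≤ ENNReal.ofReal (2 * a * (s / c)) := by
  set S : Set ℂ := {ζ : ℂ | ‖ζ - ζ₀‖ < R ∧ ‖ζ - ζ₁‖ < a ∧ -s < ρ ζ ∧ ρ ζ < 0} with hS
  have hcont := hρ.continuous
  have hSo : IsOpen S := by
    have o1 : IsOpen {ζ : ℂ | ‖ζ - ζ₀‖ < R} := isOpen_lt (by fun_prop) continuous_const
    have o2 : IsOpen {ζ : ℂ | ‖ζ - ζ₁‖ < a} := isOpen_lt (by fun_prop) continuous_const
    have o3 : IsOpen {ζ : ℂ | -s < ρ ζ} := isOpen_lt continuous_const hcont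
    have o4 : IsOpen {ζ : ℂ | ρ ζ < 0} := isOpen_lt hcont continuous_const
    exact o1.inter (o2.inter (o3.inter o4))
  set νc : Circle := ⟨ν, mem_sphere_zero_iff_norm.mpr hν⟩ with hνc
  have hrot : ∀ z : ℂ, rotation νc z = ν * z := fun z => rotation_apply νc z
  have hν0 : ν ≠ 0 := by rintro rfl; simp at hν
  have h1 : volume S = volume ((rotation νc) ⁻¹' S) :=
    ((rotation νc).measurePreserving.measure_preimage hSo.measurableSet.nullMeasurableSet).symm
  have hS' : MeasurableSet ((rotation νc) ⁻¹' S) := (rotation νc).continuous.measurable hSo.measurableSet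
  have h2 : volume ((rotation νc) ⁻¹' S)
      = volume (Complex.measurableEquivRealProd.symm ⁻¹' ((rotation νc) ⁻¹' S)) :=
    (Complex.volume_preserving_equiv_real_prod.symm.measure_preimage hS'.nullMeasurableSet).symm
  set T : Set (ℝ × ℝ) := Complex.measurableEquivRealProd.symm ⁻¹' ((rotation νc) ⁻¹' S) with hT
  have hTm : MeasurableSet T := Complex.measurableEquivRealProd.symm.measurable hS'
  have hmem : ∀ x y : ℝ, (x, y) ∈ T ↔ ν * (⟨x, y⟩ : ℂ) ∈ S := by
    intro x y
    rw [hT, mem_preimage, mem_preimage, hrot]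
    rfl
  rw [h1, h2, Measure.volume_eq_prod, Measure.prod_apply_symm hTm]
  set b : ℝ := ((starRingEnd ℂ) ν * ζ₁).im with hb
  have hνν : (starRingEnd ℂ) ν * ν = 1 := by
    rw [mul_comm, Complex.mul_conj, Complex.normSq_eq_norm_sq, hν]; norm_num
  have hconj : ‖(starRingEnd ℂ) ν‖ = 1 := by rw [Complex.norm_conj, hν]
  have hslice : ∀ y : ℝ, volume ((fun x => (x, y)) ⁻¹' T)
      ≤ (Ioo (b - a) (b + a)).indicator (fun _ => ENNReal.ofReal (s / c)) y := by
    intro y
    by_cases hy : y ∈ Ioo (b - a) (b + a)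
    · rw [indicator_of_mem hy]
      set A : Set ℝ := {x : ℝ | ‖ν * (⟨x, y⟩ : ℂ) - ζ₀‖ < R} with hA
      have hγ : ∀ x : ℝ, ν * (⟨x, y⟩ : ℂ) = ν * (⟨0, y⟩ : ℂ) + x • ν := by
        intro x
        have : (⟨x, y⟩ : ℂ) = ⟨0, y⟩ + (x : ℂ) := by
          apply Complex.ext <;> simp
        rw [this, mul_add, Complex.real_smul]; ring
      have hAc : Convex ℝ A := by
        have : A = (fun x : ℝ => x • ν) ⁻¹' Metric.ball (ζ₀ - ν * (⟨0, y⟩ : ℂ)) R := by
          ext x
          simp only [hA, mem_preimage, Metric.mem_ball, dist_eq_norm]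
          constructor
          · intro h
            have h' : ‖ν * (⟨x, y⟩ : ℂ) - ζ₀‖ < R := h
            rw [hγ] at h'
            have e : x • ν - (ζ₀ - ν * (⟨0, y⟩ : ℂ)) = ν * (⟨0, y⟩ : ℂ) + x • ν - ζ₀ := by ring
            rw [e]; exact h'
          · intro h
            show ‖ν * (⟨x, y⟩ : ℂ) - ζ₀‖ < R
            rw [hγ]
            have e : x • ν - (ζ₀ - ν * (⟨0, y⟩ : ℂ)) = ν * (⟨0, y⟩ : ℂ) + x • ν - ζ₀ := by ring
            rw [← e]; exact h
        rw [this]
        exact (convex_ball _ _).is_linear_preimage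
          (f := fun x : ℝ => x • ν) ⟨fun x y => add_smul x y ν, fun c x => by rw [smul_smul, smul_eq_mul]⟩
      set g : ℝ → ℝ := fun x => ρ (ν * (⟨x, y⟩ : ℂ)) with hg
      have hder : ∀ x, HasDerivAt g (fderiv ℝ ρ (ν * (⟨x, y⟩ : ℂ)) ν) x := by
        intro x
        have e : g = fun x : ℝ => ρ (ν * (⟨0, y⟩ : ℂ) + x • ν) := by
          funext t; simp only [hg, hγ t]
        rw [e, hγ x]
        have h5 : HasDerivAt (fun x : ℝ => ν * (⟨0, y⟩ : ℂ) + x • ν) ν x := by
          have := ((hasDerivAt_id x).smul_const ν).const_add (ν * (⟨0, y⟩ : ℂ))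
          simpa using this
        exact (hρ _).hasFDerivAt.comp_hasDerivAt x h5
      have hgd : Differentiable ℝ g := fun x => (hder x).differentiableAt
      refine le_trans (measure_mono ?_) (C4a_line hgd hAc (s := s) hc ?_)
      · intro x hx
        have h6 : ν * (⟨x, y⟩ : ℂ) ∈ S := (hmem x y).1 hx
        exact ⟨h6.1, h6.2.2.1, h6.2.2.2⟩
      · intro x hx
        rw [(hder x).deriv]
        exact hd _ hx
    · have : (fun x => (x, y)) ⁻¹' T = ∅ := by
        rw [eq_empty_iff_forall_notMem]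
        intro x hx
        have h6 : ν * (⟨x, y⟩ : ℂ) ∈ S := (hmem x y).1 hx
        have h7 := h6.2.1
        apply hy
        have h8 : ‖(⟨x, y⟩ : ℂ) - (starRingEnd ℂ) ν * ζ₁‖ < a := by
          have : (⟨x, y⟩ : ℂ) - (starRingEnd ℂ) ν * ζ₁
              = (starRingEnd ℂ) ν * (ν * (⟨x, y⟩ : ℂ) - ζ₁) := by
            rw [mul_sub, ← mul_assoc, hνν, one_mul]
          rw [this, norm_mul, hconj, one_mul]
          exact h7
        have h9 := (Complex.abs_im_le_norm ((⟨x, y⟩ : ℂ) - (starRingEnd ℂ) ν * ζ₁)).trans_lt h8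
        rw [Complex.sub_im, ← hb] at h9
        have h10 := abs_lt.1 h9
        simp only at h10
        constructor <;> linarith [h10.1, h10.2]
      rw [this]
      simp
  refine (lintegral_mono hslice).trans ?_
  rw [lintegral_indicator measurableSet_Ioo, lintegral_const, Measure.restrict_apply MeasurableSet.univ,
    univ_inter, Real.volume_Ioo, ← ENNReal.ofReal_mul (by positivity)]
  apply ENNReal.ofReal_le_ofReal
  have : b + a - (b - a) = 2 * a := by ring
  rw [this]
  exact le_of_eq (by ring)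

end HankelSPC
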