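import Pool.Agent.Lib.MP_e1cf54_an.C3
import Pool.Agent.Lib.MP_e1cf54_an.C4a

/-! Row C4b: volume of quasi balls -/

open MeasureTheory Set
open scoped ENNReal NNReal Topology ContDiff

namespace HankelSPC

variable {n : ℕ}

private lemma C4b_insert {m : ℕ} (k : Fin (m + 1)) (ζ : ℂ) (y : Fin m → ℂ) :
    (k.insertNth ζ y : Fin (m + 1) → ℂ) = k.insertNth (0 : ℂ) y + ζ • ee k := by
  ext j
  refine Fin.succAboveCases k ?_ (fun i => ?_) j
  · simp [ee]
  · simp [ee, Fin.succAbove_ne]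

private lemma C4b_slices {m : ℕ} {ρ : Cn (m + 1) → ℝ} (hρ : Differentiable ℝ ρ)
    (k : Fin (m + 1)) (p : Cn (m + 1)) {ν : ℂ} {b a s c : ℝ} (hc : 0 < c) (hν : ‖ν‖ = 1)
    (ha : 0 < a) (hb : 0 < b) (hs : 0 < s)
    (hd : ∀ w, ‖w - p‖ < b → c ≤ fderiv ℝ ρ w (ν • ee k))
    (g : (Fin m → ℂ) → ℂ) (hg : Continuous g) :
    volume {w : Cn (m + 1) | ‖w - p‖ < b ∧ ‖w k - g (fun j => w (k.succAbove j))‖ < a ∧
      -s < ρ w ∧ ρ w < 0} ≤ ENNReal.ofReal (2 * a * (s / c) * (Real.pi * b ^ 2) ^ m) := by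
  set E : Set (Cn (m + 1)) := {w | ‖w - p‖ < b ∧ ‖w k - g (fun j => w (k.succAbove j))‖ < a ∧
      -s < ρ w ∧ ρ w < 0} with hE
  have hρc : Continuous ρ := hρ.continuous
  have hgc : Continuous fun w : Cn (m + 1) => w k - g (fun j => w (k.succAbove j)) :=
    (continuous_apply k).sub (hg.comp (by fun_prop))
  have hopen : IsOpen E := by
    have h1 : IsOpen {w : Cn (m + 1) | ‖w - p‖ < b} :=
      isOpen_lt (by fun_prop) continuous_const
    have h2 : IsOpen {w : Cn (m + 1) | ‖w k - g (fun j => w (k.succAbove j))‖ < a} :=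
      isOpen_lt hgc.norm continuous_const
    have h3 : IsOpen {w : Cn (m + 1) | -s < ρ w} := isOpen_lt continuous_const hρc
    have h4 : IsOpen {w : Cn (m + 1) | ρ w < 0} := isOpen_lt hρc continuous_const
    exact h1.inter (h2.inter (h3.inter h4))
  have hmeas : MeasurableSet E := hopen.measurableSet
  set e := MeasurableEquiv.piFinSuccAbove (fun _ : Fin (m + 1) => ℂ) k with he
  have hpres := volume_preserving_piFinSuccAbove (fun _ : Fin (m + 1) => ℂ) k
  have hvol : volume E = volume (e.symm ⁻¹' E) := by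
    have := (hpres.symm e).measure_preimage hmeas.nullMeasurableSet
    exact this.symm
  have hmeas' : MeasurableSet (e.symm ⁻¹' E) := e.symm.measurable hmeas
  rw [hvol, Measure.volume_eq_prod, Measure.prod_apply_symm hmeas']
  set K : ℝ≥0∞ := ENNReal.ofReal (2 * a * (s / c)) with hK
  set p' : Fin m → ℂ := fun j => p (k.succAbove j) with hp'
  have hslice : ∀ y : Fin m → ℂ, volume ((fun x : ℂ => (x, y)) ⁻¹' (e.symm ⁻¹' E)) ≤
      (Metric.ball p' b).indicator (fun _ => K) y := by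
    intro y
    have hsymm : ∀ x : ℂ, e.symm (x, y) = k.insertNth x y := fun x => rfl
    by_cases hy : y ∈ Metric.ball p' b
    · rw [indicator_of_mem hy]
      have hy' : ‖y - p'‖ < b := by rwa [mem_ball_iff_norm] at hy
      refine le_trans (measure_mono ?_) (slice_area (ρ := fun ζ => ρ (k.insertNth ζ y))
        ?_ (ζ₀ := p k) (ζ₁ := g y) (ν := ν) (R := b) hc hν ha hs ?_)
      · intro x hx
        simp only [mem_preimage] at hx
        rw [hsymm] at hx
        obtain ⟨h1, h2, h3, h4⟩ := hx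
        refine ⟨?_, ?_, h3, h4⟩
        · have := norm_le_pi_norm ((k.insertNth x y : Fin (m + 1) → ℂ) - p) k
          simp only [Pi.sub_apply, Fin.insertNth_apply_same] at this
          exact this.trans_lt h1
        · simpa using h2
      · intro ζ
        have h1 : (fun ζ : ℂ => ρ (k.insertNth ζ y)) =
            ρ ∘ fun ζ : ℂ => k.insertNth (0 : ℂ) y + ζ • ee k := by
          funext ζ
          simp only [Function.comp_apply]
          rw [C4b_insert]
        rw [h1]
        exact (hρ _).comp ζ (by fun_prop)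
      · intro ζ hζ
        set A : ℂ →L[ℝ] Cn (m + 1) :=
          (ContinuousLinearMap.toSpanSingleton ℂ (ee k : Cn (m + 1))).restrictScalars ℝ with hA
        have hAapp : ∀ ζ : ℂ, A ζ = ζ • (ee k : Cn (m + 1)) := fun ζ => rfl
        have h1 : (fun ζ : ℂ => ρ (k.insertNth ζ y)) =
            ρ ∘ fun ζ : ℂ => k.insertNth (0 : ℂ) y + A ζ := by
          funext ζ
          simp only [Function.comp_apply, hAapp]
          rw [C4b_insert]
        have h2 : HasFDerivAt (fun ζ : ℂ => (k.insertNth (0 : ℂ) y : Fin (m + 1) → ℂ) + A ζ) A ζ :=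
          A.hasFDerivAt.const_add _
        have h3 := ((hρ _).hasFDerivAt.comp ζ h2).fderiv
        have h1' : (fun ζ : ℂ => ρ (k.insertNth ζ y)) =
            ρ ∘ fun ζ : ℂ => (k.insertNth (0 : ℂ) y : Fin (m + 1) → ℂ) + A ζ := h1
        rw [h1', h3]
        simp only [ContinuousLinearMap.comp_apply]
        rw [hAapp, hAapp, ← C4b_insert]
        apply hd
        rw [pi_norm_lt_iff hb]
        intro j
        refine Fin.succAboveCases k ?_ (fun i => ?_) j
        · simpa using hζ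
        · have := norm_le_pi_norm (y - p') i
          simp only [Pi.sub_apply, Fin.insertNth_apply_succAbove]
          exact this.trans_lt hy'
    · rw [indicator_of_notMem hy]
      have : ((fun x : ℂ => (x, y)) ⁻¹' (e.symm ⁻¹' E)) = ∅ := by
        rw [eq_empty_iff_forall_notMem]
        intro x hx
        simp only [mem_preimage] at hx
        rw [hsymm] at hx
        obtain ⟨h1, -⟩ := hx
        apply hy
        rw [mem_ball_iff_norm, pi_norm_lt_iff hb]
        intro i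
        have := norm_le_pi_norm ((k.insertNth x y : Fin (m + 1) → ℂ) - p) (k.succAbove i)
        simp only [Pi.sub_apply, Fin.insertNth_apply_succAbove] at this
        exact this.trans_lt h1
      rw [this]
      simp
  refine (lintegral_mono hslice).trans ?_
  rw [lintegral_indicator_const Metric.isOpen_ball.measurableSet, volume_pi_ball _ hb]
  simp only [Complex.volume_ball, Finset.prod_const, Finset.card_univ, Fintype.card_fin]
  rw [hK, ENNReal.ofReal_mul (by positivity : 0 ≤ 2 * a * (s / c)),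
    ENNReal.ofReal_pow (by positivity), ENNReal.ofReal_mul Real.pi_nonneg,
    ENNReal.ofReal_pow hb.le, mul_comm (ENNReal.ofReal Real.pi)]
  rw [← NNReal.coe_real_pi, ENNReal.ofReal_coe_nnreal]


private lemma C4b_dir (D : Dom n) {z : Cn n} (hz : |D.ρ z| ≤ D.η) :
    ∃ (k : Fin n) (ν : ℂ), ‖ν‖ = 1 ∧ D.c ≤ ‖ell D.ρ z (ee k)‖ ∧
      ∀ w, ‖w - z‖ < D.c / D.L → D.c ≤ fderiv ℝ D.ρ w (ν • ee k) := by
  obtain ⟨k, hk⟩ := D.ell_ge z hz
  have hc := D.c_pos
  have hL : 0 < D.L := lt_of_lt_of_le one_pos D.L_ge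
  set a := ell D.ρ z (ee k) with ha
  have ha0 : 0 < ‖a‖ := hc.trans_le hk
  refine ⟨k, (starRingEnd ℂ) a / ‖a‖, ?_, hk, ?_⟩
  · rw [norm_div, RCLike.norm_conj, Complex.norm_real, norm_norm, div_self ha0.ne']
  · intro w hw
    set ν : ℂ := (starRingEnd ℂ) a / ‖a‖ with hν
    have hν1 : ‖ν‖ = 1 := by
      rw [hν, norm_div, RCLike.norm_conj, Complex.norm_real, norm_norm, div_self ha0.ne']
    have h1 : fderiv ℝ D.ρ z (ν • ee k) = 2 * ‖a‖ := by
      rw [two_re_ell, ell_smul, ← ha, hν, div_mul_eq_mul_div, mul_comm ((starRingEnd ℂ) a) a,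
        Complex.mul_conj, Complex.normSq_eq_norm_sq]
      have : ((‖a‖ ^ 2 : ℝ) : ℂ) / (‖a‖ : ℂ) = ((‖a‖ : ℝ) : ℂ) := by
        rw [← Complex.ofReal_div]
        congr 1
        field_simp
      rw [this, Complex.ofReal_re]
    have hee : ‖(ν • ee k : Cn n)‖ ≤ 1 := by
      rw [norm_smul, hν1, one_mul]
      unfold ee
      rw [Pi.norm_single]
      simp
    have h2 : |(fderiv ℝ D.ρ w - fderiv ℝ D.ρ z) (ν • ee k)| ≤ D.L * ‖w - z‖ := by
      have h3 := (fderiv ℝ D.ρ w - fderiv ℝ D.ρ z).le_opNorm (ν • ee k)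
      rw [Real.norm_eq_abs] at h3
      refine h3.trans ?_
      have h4 := D.lip1 w z
      calc ‖fderiv ℝ D.ρ w - fderiv ℝ D.ρ z‖ * ‖(ν • ee k : Cn n)‖
          ≤ ‖fderiv ℝ D.ρ w - fderiv ℝ D.ρ z‖ * 1 :=
            mul_le_mul_of_nonneg_left hee (norm_nonneg _)
        _ ≤ D.L * ‖w - z‖ := by rw [mul_one]; exact h4
    have h5 : D.L * ‖w - z‖ < D.c := by
      rw [lt_div_iff₀ hL] at hw
      linarith
    rw [sub_apply, h1] at h2
    have := (abs_le.1 h2).1
    linarith

private lemma C4b_near {m : ℕ} (D : Dom (m + 1)) {z : Cn (m + 1)} (hz : z ∈ D.Ω) {s t : ℝ}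
    (hs : 0 < s) (hst : s ≤ t) (ht : t ≤ D.η) (ht' : t ≤ (D.c / D.L) ^ 2) (hzt : D.δ z < t) :
    volume {w | w ∈ D.Ω ∧ D.qd z w < t ∧ D.δ w < s} ≤
      ENNReal.ofReal (2 * Real.pi ^ m / D.c ^ 2 * s * t ^ (m + 1)) := by
  have hc := D.c_pos
  have hL : 0 < D.L := lt_of_lt_of_le one_pos D.L_ge
  have ht0 : 0 < t := hs.trans_le hst
  have hδz : 0 < D.δ z := D.δ_pos hz
  have hρz : |D.ρ z| ≤ D.η := by
    rw [abs_le]
    unfold Dom.δ at hδz hzt
    constructor <;> linarith [D.η_pos]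
  obtain ⟨k, ν, hν, hk, hd⟩ := C4b_dir D hρz
  set b := Real.sqrt t with hb
  have hb0 : 0 < b := Real.sqrt_pos.2 ht0
  have hbt : b ^ 2 = t := Real.sq_sqrt ht0.le
  have hbR : b ≤ D.c / D.L := by
    rw [hb, Real.sqrt_le_left (by positivity)]
    exact ht'
  set a0 := ell D.ρ z (ee k) with ha0
  have ha0' : 0 < ‖a0‖ := hc.trans_le hk
  have ha0'' : a0 ≠ 0 := norm_pos_iff.1 ha0'
  set g : (Fin m → ℂ) → ℂ := fun y =>
    z k - (∑ i, (y i - z (k.succAbove i)) * ell D.ρ z (ee (k.succAbove i))) / a0 with hg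
  have hgc : Continuous g := by
    rw [hg]
    fun_prop
  have hmain := C4b_slices (ρ := D.ρ) (D.smooth.differentiable (by norm_num)) k z hc hν
    (a := t / D.c) (b := b) (s := s) (by positivity) hb0 hs
    (fun w hw => hd w (hw.trans_le hbR)) g hgc
  refine (measure_mono ?_).trans (hmain.trans (ENNReal.ofReal_le_ofReal (le_of_eq ?_)))
  · rintro w ⟨hw, hq, hws⟩
    have hδw : 0 < D.δ w := D.δ_pos hw
    unfold Dom.qd at hq
    have h1 : ‖z - w‖ ^ 2 < t := by
      have := norm_nonneg (ell D.ρ z (z - w))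
      linarith
    have h2 : ‖ell D.ρ z (z - w)‖ < t := by
      have := sq_nonneg ‖z - w‖
      linarith
    refine ⟨?_, ?_, ?_, hw⟩
    · rw [norm_sub_rev]
      exact Real.lt_sqrt_of_sq_lt h1
    · have h3 : w k - g (fun j => w (k.succAbove j)) = ell D.ρ z (w - z) / a0 := by
        rw [ell_sum D.ρ z (w - z), Fin.sum_univ_succAbove _ k, hg, ← ha0]
        simp only [Pi.sub_apply]
        field_simp
        ring
      have h4 : ell D.ρ z (w - z) = - ell D.ρ z (z - w) := by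
        have : w - z = (-1 : ℂ) • (z - w) := by simp
        rw [this, ell_smul]
        ring
      rw [h3, h4, norm_div, norm_neg, div_lt_div_iff₀ ha0' hc]
      have h5 : ‖ell D.ρ z (z - w)‖ * D.c < t * D.c := mul_lt_mul_of_pos_right h2 hc
      have h6 : t * D.c ≤ t * ‖a0‖ := mul_le_mul_of_nonneg_left hk ht0.le
      exact h5.trans_le h6
    · unfold Dom.δ at hws
      linarith
  · rw [hbt, mul_pow, pow_succ]
    field_simp
    ring

private lemma C4b_cover {m : ℕ} (D : Dom (m + 1)) : ∃ C : ℝ, 0 ≤ C ∧ ∀ s : ℝ, 0 < s →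
    s ≤ D.η → volume {w | w ∈ D.Ω ∧ D.δ w < s} ≤ ENNReal.ofReal (C * s) := by
  have hc := D.c_pos
  have hL : 0 < D.L := lt_of_lt_of_le one_pos D.L_ge
  set R := D.c / D.L with hR
  have hR0 : 0 < R := div_pos hc hL
  have hK : IsCompact ({w | D.ρ w ≤ 0} ∩ {w | -D.η ≤ D.ρ w}) :=
    (D.isCompact_le one_pos).inter_right
      (isClosed_le continuous_const D.smooth.continuous)
  obtain ⟨F, hFK, hF⟩ := hK.elim_nhds_subcover (fun p => Metric.ball p R)
    (fun p _ => Metric.ball_mem_nhds p hR0)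
  refine ⟨F.card * (2 * R * (1 / D.c) * (Real.pi * R ^ 2) ^ m), by positivity, ?_⟩
  intro s hs hsη
  have hsub : {w | w ∈ D.Ω ∧ D.δ w < s} ⊆ ⋃ p ∈ F,
      {w : Cn (m + 1) | ‖w - p‖ < R ∧ w ∈ D.Ω ∧ D.δ w < s} := by
    rintro w ⟨hw, hws⟩
    have hw0 : D.ρ w < 0 := hw
    have hwK : w ∈ {w | D.ρ w ≤ 0} ∩ {w | -D.η ≤ D.ρ w} := by
      refine ⟨hw0.le, ?_⟩
      unfold Dom.δ at hws
      show -D.η ≤ D.ρ w
      linarith
    obtain ⟨p, hp, hwp⟩ := mem_iUnion₂.1 (hF hwK)
    exact mem_iUnion₂.2 ⟨p, hp, by rwa [mem_ball_iff_norm] at hwp, hw, hws⟩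
  have hball : ∀ p ∈ F, volume {w : Cn (m + 1) | ‖w - p‖ < R ∧ w ∈ D.Ω ∧ D.δ w < s} ≤
      ENNReal.ofReal (2 * R * (s / D.c) * (Real.pi * R ^ 2) ^ m) := by
    intro p hp
    obtain ⟨hp1, hp2⟩ := hFK p hp
    have hρp : |D.ρ p| ≤ D.η := by
      have hp1' : D.ρ p ≤ 0 := hp1
      have hp2' : -D.η ≤ D.ρ p := hp2
      rw [abs_le]
      constructor <;> linarith [D.η_pos]
    obtain ⟨k, ν, hν, hk, hd⟩ := C4b_dir D hρp
    have hmain := C4b_slices (ρ := D.ρ) (D.smooth.differentiable (by norm_num)) k p hc hν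
      (a := R) (b := R) (s := s) hR0 hR0 hs hd (fun _ => p k) continuous_const
    refine (measure_mono ?_).trans hmain
    rintro w ⟨h1, h2, h3⟩
    refine ⟨h1, ?_, ?_, h2⟩
    · have := norm_le_pi_norm (w - p) k
      simp only [Pi.sub_apply] at this
      exact this.trans_lt h1
    · unfold Dom.δ at h3
      linarith
  calc volume {w | w ∈ D.Ω ∧ D.δ w < s}
      ≤ volume (⋃ p ∈ F, {w : Cn (m + 1) | ‖w - p‖ < R ∧ w ∈ D.Ω ∧ D.δ w < s}) :=
        measure_mono hsub
    _ ≤ ∑ p ∈ F, volume {w : Cn (m + 1) | ‖w - p‖ < R ∧ w ∈ D.Ω ∧ D.δ w < s} :=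
        measure_biUnion_finset_le _ _
    _ ≤ ∑ _p ∈ F, ENNReal.ofReal (2 * R * (s / D.c) * (Real.pi * R ^ 2) ^ m) :=
        Finset.sum_le_sum hball
    _ = ENNReal.ofReal (F.card * (2 * R * (1 / D.c) * (Real.pi * R ^ 2) ^ m) * s) := by
        rw [Finset.sum_const, nsmul_eq_mul, ← ENNReal.ofReal_natCast,
          ← ENNReal.ofReal_mul (by positivity)]
        congr 1
        field_simp

private lemma C4b_large (D : Dom n) (S : Set (Cn n)) (hS : S ⊆ D.Ω) {s t : ℝ}
    (hs : D.η / 2 ≤ s) (hst : s ≤ t) :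
    volume S ≤ ENNReal.ofReal ((volume D.Ω).toReal * (2 / D.η) ^ (n + 1) * s * t ^ n) := by
  have hη := D.η_pos
  have hV : volume D.Ω ≠ ⊤ := D.volume_Ω_lt_top.ne
  refine (measure_mono hS).trans ?_
  rw [← ENNReal.ofReal_toReal hV]
  apply ENNReal.ofReal_le_ofReal
  rw [ENNReal.toReal_ofReal ENNReal.toReal_nonneg]
  have h1 : 1 ≤ 2 / D.η * s := by
    rw [div_mul_eq_mul_div, one_le_div hη]
    linarith
  have h2 : 1 ≤ 2 / D.η * t := by
    rw [div_mul_eq_mul_div, one_le_div hη]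
    linarith
  have h3 : 1 ≤ (2 / D.η * s) * (2 / D.η * t) ^ n := by
    have := one_le_pow₀ h2 (n := n)
    nlinarith
  calc (volume D.Ω).toReal = (volume D.Ω).toReal * 1 := (mul_one _).symm
    _ ≤ (volume D.Ω).toReal * ((2 / D.η * s) * (2 / D.η * t) ^ n) :=
        mul_le_mul_of_nonneg_left h3 ENNReal.toReal_nonneg
    _ = (volume D.Ω).toReal * (2 / D.η) ^ (n + 1) * s * t ^ n := by
        rw [mul_pow, pow_succ]
        ring

namespace Dom

/-- Fubini in the coordinate `k` with `|∂_kρ(z)| ≥ c` (`MeasurableEquiv.piFinSuccAbove`,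
`volume_preserving_piFinSuccAbove`): for `δ(z) < t ≤ t₀` the set is contained in
`{‖w-z‖ < √t, |∂ρ(z)(w-z)| < t, -s < ρ(w) < 0}`; for fixed other coordinates (volume
`(π t)^{n-1}`) `w_k` lies in a disc of radius `t/c` and in a slice as in `slice_area`
(`ν = conj(∂_kρ)/|∂_kρ|`, directional derivative `≥ c` on the small ball). For `t ≥ t₀` one needs
only `vol {δ < s} ≤ C s`, which follows by covering the compact `{|ρ| ≤ η'}` by finitely many balls
of radius `√t₀/2` and the same slicing. -/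
theorem volume_quasi (D : Dom n) : ∃ C : ℝ, 0 < C ∧ ∀ z ∈ D.Ω, ∀ s t : ℝ, 0 < s → s ≤ t →
    volume {w | w ∈ D.Ω ∧ D.qd z w < t ∧ D.δ w < s} ≤ ENNReal.ofReal (C * s * t ^ n) := by
  have hη := D.η_pos
  set C₁ : ℝ := (volume D.Ω).toReal * (2 / D.η) ^ (n + 1) with hC₁
  have hC₁0 : 0 ≤ C₁ := by positivity
  rcases n with _ | m
  · refine ⟨C₁ + 1, by positivity, ?_⟩
    intro z hz s t hs hst
    have ht : 0 < t := hs.trans_le hst
    rcases le_or_gt (D.η / 2) s with h | h
    · refine (C4b_large D _ (fun w hw => hw.1) h hst).trans (ENNReal.ofReal_le_ofReal ?_)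
      have : C₁ ≤ C₁ + 1 := by linarith
      gcongr
    · have : {w | w ∈ D.Ω ∧ D.qd z w < t ∧ D.δ w < s} = ∅ := by
        rw [eq_empty_iff_forall_notMem]
        rintro w ⟨hw, -, hws⟩
        have hδw : 0 < D.δ w := D.δ_pos hw
        have hρw : |D.ρ w| ≤ D.η := by
          rw [abs_le]
          unfold Dom.δ at hδw hws
          constructor <;> linarith
        obtain ⟨k, -⟩ := D.ell_ge w hρw
        exact k.elim0
      rw [this, measure_empty]
      exact bot_le
  · have hc := D.c_pos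
    have hL : 0 < D.L := lt_of_lt_of_le one_pos D.L_ge
    obtain ⟨C₂, hC₂0, hC₂⟩ := C4b_cover D
    set t₀ : ℝ := min D.η ((D.c / D.L) ^ 2) with ht₀
    have ht₀0 : 0 < t₀ := lt_min hη (by positivity)
    set C₃ : ℝ := 2 * Real.pi ^ m / D.c ^ 2 with hC₃
    have hC₃0 : 0 ≤ C₃ := by positivity
    set C₄ : ℝ := C₂ / t₀ ^ (m + 1) with hC₄
    have hC₄0 : 0 ≤ C₄ := by positivity
    refine ⟨C₁ + C₄ + C₃ + 1, by positivity, ?_⟩
    intro z hz s t hs hst
    have ht : 0 < t := hs.trans_le hst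
    rcases le_or_gt (D.η / 2) s with h | h
    · refine (C4b_large D _ (fun w hw => hw.1) h hst).trans (ENNReal.ofReal_le_ofReal ?_)
      have : C₁ ≤ C₁ + C₄ + C₃ + 1 := by linarith
      gcongr
    · rcases le_or_gt t t₀ with h' | h'
      · rcases lt_or_ge (D.δ z) t with h'' | h''
        · refine (C4b_near D hz hs hst (h'.trans (min_le_left _ _))
            (h'.trans (min_le_right _ _)) h'').trans (ENNReal.ofReal_le_ofReal ?_)
          have : C₃ ≤ C₁ + C₄ + C₃ + 1 := by linarith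
          gcongr
        · have : {w | w ∈ D.Ω ∧ D.qd z w < t ∧ D.δ w < s} = ∅ := by
            rw [eq_empty_iff_forall_notMem]
            rintro w ⟨hw, hq, -⟩
            have hδw : 0 < D.δ w := D.δ_pos hw
            unfold Dom.qd at hq
            have := norm_nonneg (ell D.ρ z (z - w))
            have := sq_nonneg ‖z - w‖
            linarith
          rw [this, measure_empty]
          exact bot_le
      · refine (measure_mono (fun w hw => (⟨hw.1, hw.2.2⟩ : w ∈ D.Ω ∧ D.δ w < s))).trans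
          ((hC₂ s hs (by linarith)).trans (ENNReal.ofReal_le_ofReal ?_))
        have h1 : C₂ * s ≤ C₄ * s * t ^ (m + 1) := by
          rw [hC₄]
          have h2 : t₀ ^ (m + 1) ≤ t ^ (m + 1) := pow_le_pow_left₀ ht₀0.le h'.le _
          have h3 : C₂ * s * t₀ ^ (m + 1) ≤ C₂ * s * t ^ (m + 1) :=
            mul_le_mul_of_nonneg_left h2 (by positivity)
          have h4 : C₂ / t₀ ^ (m + 1) * s * t ^ (m + 1) = C₂ * s * t ^ (m + 1) / t₀ ^ (m + 1) := by
            ring
          rw [h4, le_div_iff₀ (by positivity)]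
          exact h3
        refine h1.trans ?_
        have : C₄ ≤ C₁ + C₄ + C₃ + 1 := by linarith
        gcongr

end Dom

end HankelSPC
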