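import Pool.Agent.Lib.MP_e1cf54_an.C4b

/-! Row C5: the integral estimate (Forelli–Rudin type). -/

open MeasureTheory Set
open scoped ENNReal NNReal Topology ContDiff

namespace HankelSPC

variable {n : ℕ}

namespace Dom

/-- the real-variable part: the product of the bound of the integrand and the volume bound. -/
lemma C5_alg {a b C d : ℝ} (n k m : ℕ) (hd : 0 < d) :
    (4 ^ (b + 1) * ((1 / 2) ^ m * (2 ^ (k + 2) * d)) ^ (a - n - 1) * (2 ^ (k + 2) * d) ^ (-b)) *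
      (C * ((1 / 2) ^ m * (2 ^ (k + 2) * d)) * (2 ^ (k + 2) * d) ^ n)
      = (4 ^ (b + 1) * C * 4 ^ (a - b)) * (((2:ℝ) ^ (a - b)) ^ k * (((1 / 2 : ℝ)) ^ (a - n)) ^ m)
        * d ^ (a - b) := by
  set t : ℝ := 2 ^ (k + 2) * d with ht
  have htp : 0 < t := by positivity
  set s : ℝ := (1 / 2) ^ m * t with hs
  have hsp : 0 < s := by positivity
  have h1 : s ^ (a - n - 1) * s = s ^ (a - n) := by
    rw [← Real.rpow_add_one hsp.ne']
    congr 1
    ring
  have h2 : t ^ (-b) * t ^ n = t ^ ((n:ℝ) - b) := by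
    rw [← Real.rpow_natCast t n, ← Real.rpow_add htp]
    congr 1
    ring
  have h3 : s ^ (a - n) = ((1 / 2 : ℝ) ^ (a - n)) ^ m * t ^ (a - n) := by
    rw [hs, Real.mul_rpow (by positivity) htp.le]
    congr 1
    rw [← Real.rpow_natCast, ← Real.rpow_natCast, ← Real.rpow_mul (by norm_num),
      ← Real.rpow_mul (by norm_num), mul_comm]
  have h4 : t ^ (a - n) * t ^ ((n:ℝ) - b) = t ^ (a - b) := by
    rw [← Real.rpow_add htp]
    congr 1
    ring
  have h5 : t ^ (a - b) = 4 ^ (a - b) * ((2:ℝ) ^ (a - b)) ^ k * d ^ (a - b) := by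
    rw [ht, Real.mul_rpow (by positivity) hd.le]
    congr 1
    have h6 : (2:ℝ) ^ (k + 2) = 4 * 2 ^ k := by ring
    rw [h6, Real.mul_rpow (by norm_num) (by positivity)]
    congr 1
    rw [← Real.rpow_natCast, ← Real.rpow_natCast, ← Real.rpow_mul (by norm_num),
      ← Real.rpow_mul (by norm_num), mul_comm]
  calc (4 ^ (b + 1) * s ^ (a - n - 1) * t ^ (-b)) * (C * s * t ^ n)
      = 4 ^ (b + 1) * C * (s ^ (a - n - 1) * s) * (t ^ (-b) * t ^ n) := by ring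
    _ = 4 ^ (b + 1) * C * (((1 / 2 : ℝ) ^ (a - n)) ^ m * (t ^ (a - n) * t ^ ((n:ℝ) - b))) := by
        rw [h1, h2, h3]; ring
    _ = _ := by
        rw [h4, h5]; ring

/-- the bound of the integrand on a shell -/
lemma C5_point {e b s t δ q : ℝ} (he : -1 < e) (hb : 0 ≤ b) (hs : 0 < s) (ht : 0 < t)
    (h1 : s / 4 ≤ δ) (h2 : δ ≤ s) (h3 : t / 4 ≤ q) :
    δ ^ e * q ^ (-b) ≤ 4 ^ (b + 1) * s ^ e * t ^ (-b) := by
  have hδ : 0 < δ := by linarith
  have hq : 0 < q := by linarith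
  have h4 : δ ^ e ≤ 4 * s ^ e := by
    rcases le_or_gt 0 e with h0 | h0
    · have h5 : δ ^ e ≤ s ^ e := Real.rpow_le_rpow hδ.le h2 h0
      have h6 : 0 ≤ s ^ e := Real.rpow_nonneg hs.le _
      linarith
    · have h5 : δ ^ e ≤ (s / 4) ^ e :=
        Real.rpow_le_rpow_of_nonpos (by positivity) h1 h0.le
      have h6 : (s / 4) ^ e = s ^ e * 4 ^ (-e) := by
        rw [Real.div_rpow hs.le (by norm_num), Real.rpow_neg (by norm_num), div_eq_mul_inv]
      have h7 : (4:ℝ) ^ (-e) ≤ 4 ^ (1:ℝ) :=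
        Real.rpow_le_rpow_of_exponent_le (by norm_num) (by linarith)
      rw [Real.rpow_one] at h7
      rw [h6] at h5
      have h8 : 0 ≤ s ^ e := Real.rpow_nonneg hs.le _
      nlinarith
  have h5 : q ^ (-b) ≤ 4 ^ b * t ^ (-b) := by
    have h6 : q ^ (-b) ≤ (t / 4) ^ (-b) :=
      Real.rpow_le_rpow_of_nonpos (by positivity) h3 (by linarith)
    have h7 : (t / 4) ^ (-b) = 4 ^ b * t ^ (-b) := by
      rw [Real.div_rpow ht.le (by norm_num), Real.rpow_neg (by norm_num : (0:ℝ) ≤ 4), div_inv_eq_mul,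
        mul_comm]
    rw [h7] at h6
    exact h6
  calc δ ^ e * q ^ (-b) ≤ (4 * s ^ e) * (4 ^ b * t ^ (-b)) := by
        apply mul_le_mul h4 h5 (Real.rpow_nonneg hq.le _)
        exact mul_nonneg (by norm_num) (Real.rpow_nonneg hs.le _)
    _ = 4 ^ (b + 1) * s ^ e * t ^ (-b) := by
        rw [Real.rpow_add_one (by norm_num)]; ring

/-- `∫_Ω δ(w)^{A-n-1} qd(z,w)^{-B} dw ≤ C δ(z)^{A-B}` for `A > n`, `B > A`.
Dyadic shells: `S_{k,m} = {w : 2^k δ(z) ≤ qd < 2^{k+1} δ(z), 2^{-m-1} t ≤ δ(w) < 2^{-m} t}`,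
`t = 2^{k+1}δ(z)` (`k, m ≥ 0`, they cover `Ω` because `δ(z), δ(w) ≤ qd`), volume
`≤ C 2^{-m} t^{n+1}` by `volume_quasi`; sum two geometric series. -/
theorem integral_est (D : Dom n) {a b : ℝ} (ha : (n : ℝ) < a) (hb : a < b) :
    ∃ C : ℝ, 0 < C ∧ ∀ z ∈ D.Ω,
      ∫⁻ w in D.Ω, ENNReal.ofReal (D.δ w ^ (a - n - 1) * D.qd z w ^ (-b))
        ≤ ENNReal.ofReal (C * D.δ z ^ (a - b)) := by
  obtain ⟨C, hC, hvol⟩ := D.volume_quasi
  have hn0 : (0:ℝ) ≤ n := Nat.cast_nonneg n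
  have hb0 : 0 ≤ b := by linarith
  set q : ℝ := (2:ℝ) ^ (a - b) with hq
  set r : ℝ := (1 / 2 : ℝ) ^ (a - n) with hr
  have hq0 : 0 ≤ q := Real.rpow_nonneg (by norm_num) _
  have hr0 : 0 ≤ r := Real.rpow_nonneg (by norm_num) _
  have hq1 : q < 1 := Real.rpow_lt_one_of_one_lt_of_neg (by norm_num) (by linarith)
  have hr1 : r < 1 := Real.rpow_lt_one (by norm_num) (by norm_num) (by linarith)
  have hsum : Summable (fun p : ℕ × ℕ => q ^ p.1 * r ^ p.2) :=
    Summable.mul_of_nonneg (summable_geometric_of_lt_one hq0 hq1)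
      (summable_geometric_of_lt_one hr0 hr1) (fun k => pow_nonneg hq0 k) (fun k => pow_nonneg hr0 k)
  set A : ℝ := 4 ^ (b + 1) * C * 4 ^ (a - b) with hA
  have hA0 : 0 ≤ A := by positivity
  refine ⟨A * (∑' p : ℕ × ℕ, q ^ p.1 * r ^ p.2) + 1, ?_, ?_⟩
  · have : 0 ≤ ∑' p : ℕ × ℕ, q ^ p.1 * r ^ p.2 :=
      tsum_nonneg (fun p => mul_nonneg (pow_nonneg hq0 _) (pow_nonneg hr0 _))
    positivity
  intro z hz
  have hd : 0 < D.δ z := D.δ_pos hz
  set d := D.δ z with hdd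
  -- the shells
  set t : ℕ → ℝ := fun k => 2 ^ (k + 2) * d with ht
  have htp : ∀ k, 0 < t k := fun k => by simp only [ht]; positivity
  set S : ℕ × ℕ → Set (Cn n) := fun p => {w | w ∈ D.Ω ∧ D.qd z w < t p.1 ∧
    D.δ w < (1 / 2) ^ p.2 * t p.1 ∧ t p.1 / 4 ≤ D.qd z w ∧ (1 / 2) ^ p.2 * t p.1 / 4 ≤ D.δ w} with hS
  have hSmeas : ∀ p, MeasurableSet (S p) := by
    intro p
    have m1 : MeasurableSet D.Ω := D.isOpen_Ω.measurableSet
    have m2 : MeasurableSet {w | D.qd z w < t p.1} :=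
      (isOpen_lt (D.continuous_qd z) continuous_const).measurableSet
    have m3 : MeasurableSet {w | D.δ w < (1 / 2) ^ p.2 * t p.1} :=
      (isOpen_lt D.continuous_δ continuous_const).measurableSet
    have m4 : MeasurableSet {w | t p.1 / 4 ≤ D.qd z w} :=
      (isClosed_le continuous_const (D.continuous_qd z)).measurableSet
    have m5 : MeasurableSet {w | (1 / 2) ^ p.2 * t p.1 / 4 ≤ D.δ w} :=
      (isClosed_le continuous_const D.continuous_δ).measurableSet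
    exact m1.inter (m2.inter (m3.inter (m4.inter m5)))
  have hcover : D.Ω ⊆ ⋃ p, S p := by
    intro w hw
    obtain ⟨hzq, hwq⟩ := D.δ_le_qd hz hw
    have hδw : 0 < D.δ w := D.δ_pos hw
    have h1 : 1 ≤ D.qd z w / d := by
      rw [le_div_iff₀ hd, one_mul]; exact hzq
    obtain ⟨k, hk1, hk2⟩ := exists_nat_pow_near h1 (by norm_num : (1:ℝ) < 2)
    rw [le_div_iff₀ hd] at hk1
    rw [div_lt_iff₀ hd] at hk2
    have htk : t k = 4 * (2 ^ k * d) := by simp only [ht]; ring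
    have htk' : t k = 2 * (2 ^ (k + 1) * d) := by simp only [ht]; ring
    have h2 : 1 ≤ t k / 2 / D.δ w := by
      rw [le_div_iff₀ hδw, one_mul]; linarith
    obtain ⟨m, hm1, hm2⟩ := exists_nat_pow_near h2 (by norm_num : (1:ℝ) < 2)
    rw [le_div_iff₀ hδw] at hm1
    rw [div_lt_iff₀ hδw] at hm2
    have h2m : (0:ℝ) < 2 ^ m := by positivity
    have hinv : (1 / 2 : ℝ) ^ m * 2 ^ m = 1 := by
      rw [← mul_pow]; norm_num
    have hip : (0:ℝ) < (1 / 2) ^ m := by positivity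
    have h3 : D.δ w ≤ (1 / 2) ^ m * (t k / 2) := by
      calc D.δ w = (1 / 2) ^ m * (2 ^ m * D.δ w) := by rw [← mul_assoc, hinv, one_mul]
        _ ≤ _ := mul_le_mul_of_nonneg_left hm1 hip.le
    have h4 : (1 / 2) ^ m * (t k / 2) < 2 * D.δ w := by
      calc (1 / 2) ^ m * (t k / 2) < (1 / 2) ^ m * (2 ^ (m + 1) * D.δ w) :=
            mul_lt_mul_of_pos_left hm2 hip
        _ = ((1 / 2) ^ m * 2 ^ m) * (2 * D.δ w) := by ring
        _ = _ := by rw [hinv, one_mul]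
    refine mem_iUnion.2 ⟨(k, m), hw, ?_, ?_, ?_, ?_⟩
    · show D.qd z w < t k
      have := htp k
      linarith
    · show D.δ w < (1 / 2) ^ m * t k
      have := mul_pos hip (htp k)
      linarith
    · show t k / 4 ≤ D.qd z w
      linarith
    · show (1 / 2) ^ m * t k / 4 ≤ D.δ w
      linarith
  have hterm : ∀ p : ℕ × ℕ,
      ∫⁻ w in S p, ENNReal.ofReal (D.δ w ^ (a - n - 1) * D.qd z w ^ (-b)) ≤
        ENNReal.ofReal (A * (q ^ p.1 * r ^ p.2) * d ^ (a - b)) := by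
    intro p
    have hsp : 0 < (1 / 2 : ℝ) ^ p.2 * t p.1 := mul_pos (by positivity) (htp _)
    have hst : (1 / 2 : ℝ) ^ p.2 * t p.1 ≤ t p.1 := by
      have : (1 / 2 : ℝ) ^ p.2 ≤ 1 := pow_le_one₀ (by norm_num) (by norm_num)
      nlinarith [htp p.1]
    have hv : volume (S p) ≤ ENNReal.ofReal (C * ((1 / 2) ^ p.2 * t p.1) * t p.1 ^ n) := by
      refine (measure_mono ?_).trans (hvol z hz _ _ hsp hst)
      rintro w ⟨h1, h2, h3, -, -⟩
      exact ⟨h1, h2, h3⟩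
    calc ∫⁻ w in S p, ENNReal.ofReal (D.δ w ^ (a - n - 1) * D.qd z w ^ (-b))
        ≤ ∫⁻ _ in S p, ENNReal.ofReal (4 ^ (b + 1) * ((1 / 2) ^ p.2 * t p.1) ^ (a - n - 1) *
            t p.1 ^ (-b)) := by
          refine setLIntegral_mono' (hSmeas p) ?_
          rintro w ⟨h1, h2, h3, h4, h5⟩
          exact ENNReal.ofReal_le_ofReal
            (C5_point (by linarith) hb0 hsp (htp _) h5 h3.le h4)
      _ = ENNReal.ofReal (4 ^ (b + 1) * ((1 / 2) ^ p.2 * t p.1) ^ (a - n - 1) *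
            t p.1 ^ (-b)) * volume (S p) := by
          rw [setLIntegral_const]
      _ ≤ ENNReal.ofReal (4 ^ (b + 1) * ((1 / 2) ^ p.2 * t p.1) ^ (a - n - 1) *
            t p.1 ^ (-b)) * ENNReal.ofReal (C * ((1 / 2) ^ p.2 * t p.1) * t p.1 ^ n) := by
          gcongr
      _ = ENNReal.ofReal (A * (q ^ p.1 * r ^ p.2) * d ^ (a - b)) := by
          rw [← ENNReal.ofReal_mul]
          · congr 1
            exact C5_alg n p.1 p.2 hd
          · have h1 : 0 ≤ ((1 / 2 : ℝ) ^ p.2 * t p.1) ^ (a - n - 1) := Real.rpow_nonneg hsp.le _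
            have h2 : 0 ≤ t p.1 ^ (-b) := Real.rpow_nonneg (htp _).le _
            positivity
  have hd' : 0 ≤ d ^ (a - b) := Real.rpow_nonneg hd.le _
  calc ∫⁻ w in D.Ω, ENNReal.ofReal (D.δ w ^ (a - n - 1) * D.qd z w ^ (-b))
      ≤ ∫⁻ w in ⋃ p, S p, ENNReal.ofReal (D.δ w ^ (a - n - 1) * D.qd z w ^ (-b)) :=
        lintegral_mono_set hcover
    _ ≤ ∑' p, ∫⁻ w in S p, ENNReal.ofReal (D.δ w ^ (a - n - 1) * D.qd z w ^ (-b)) :=
        lintegral_iUnion_le _ _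
    _ ≤ ∑' p : ℕ × ℕ, ENNReal.ofReal (A * (q ^ p.1 * r ^ p.2) * d ^ (a - b)) :=
        ENNReal.tsum_le_tsum hterm
    _ = ENNReal.ofReal (∑' p : ℕ × ℕ, A * (q ^ p.1 * r ^ p.2) * d ^ (a - b)) := by
        rw [ENNReal.ofReal_tsum_of_nonneg]
        · intro p
          exact mul_nonneg (mul_nonneg hA0 (mul_nonneg (pow_nonneg hq0 _) (pow_nonneg hr0 _))) hd'
        · exact (hsum.mul_left A).mul_right _
    _ ≤ _ := by
        apply ENNReal.ofReal_le_ofReal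
        rw [tsum_mul_right, tsum_mul_left]
        apply mul_le_mul_of_nonneg_right _ hd'
        linarith

end Dom

end HankelSPC
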