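import Pool.Agent.Lib.MP_e1cf54_an.C1b

/-! Row C6a: existence of lattices -/

open MeasureTheory Set
open scoped ENNReal NNReal Topology ContDiff

namespace HankelSPC

variable {n : ℕ}

namespace Dom

/-- A maximal family with `B(a, s/8)` pairwise disjoint (Zorn) is a lattice: if
`v ∈ B(z,s/8) ∩ B(a,s/8)` then `|z-a|_a ≤ |v-a|_a + |z-v|_a ≤ s/8 + 4 s/8 < s`. -/
theorem exists_lattice (D : Dom n) {s₀ : ℝ} (h : D.Good s₀) {s : ℝ} (hs : 0 < s) (hs' : s ≤ s₀) :
    ∃ A, D.Lattice s A := by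
  obtain ⟨A, hA⟩ := zorn_subset
    {A : Set (Cn n) | A ⊆ D.Ω ∧ A.PairwiseDisjoint fun a => D.B a (s / 8)} (by
      intro c hc hchain
      refine ⟨⋃₀ c, ⟨?_, ?_⟩, fun t ht => Set.subset_sUnion_of_mem ht⟩
      · exact Set.sUnion_subset fun t ht => (hc ht).1
      · rw [Set.pairwiseDisjoint_sUnion hchain.directedOn]
        exact fun t ht => (hc ht).2)
  refine ⟨A, hA.prop.1, hA.prop.2, ?_⟩
  intro z hz
  by_cases hzA : z ∈ A
  · exact ⟨z, hzA, D.self_mem_B z hs⟩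
  have hnot : ¬ ((insert z A) ⊆ D.Ω ∧ (insert z A).PairwiseDisjoint fun a => D.B a (s / 8)) := by
    intro hcon
    exact hzA (hA.le_of_ge (y := insert z A) hcon (Set.subset_insert z A) (Set.mem_insert z A))
  have hsub : insert z A ⊆ D.Ω := Set.insert_subset hz hA.prop.1
  have hnd : ¬ (insert z A).PairwiseDisjoint fun a => D.B a (s / 8) := fun h' => hnot ⟨hsub, h'⟩
  rw [Set.pairwiseDisjoint_insert_of_notMem hzA] at hnd
  have hnd' : ¬ ∀ j ∈ A, Disjoint (D.B z (s / 8)) (D.B j (s / 8)) :=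
    fun h' => hnd ⟨hA.prop.2, h'⟩
  push Not at hnd'
  obtain ⟨a, haA, hna⟩ := hnd'
  rw [Set.not_disjoint_iff] at hna
  obtain ⟨v, hvz, hva⟩ := hna
  refine ⟨a, haA, ?_⟩
  have haΩ : a ∈ D.Ω := hA.prop.1 haA
  have h8 : s / 8 ≤ s₀ := by linarith
  have hvz0 := D.B_mono z h8 hvz
  have hva0 := D.B_mono a h8 hva
  obtain ⟨-, -, -, hn1⟩ := h.sub z hz v hvz0
  obtain ⟨-, -, -, hn2⟩ := h.sub a haΩ v hva0
  rw [D.mem_B] at hvz hva ⊢
  have e1 : D.nrm a (z - v) ≤ 4 * D.nrm z (v - z) := by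
    have a1 := (hn2 (z - v)).2
    have a2 := (hn1 (z - v)).1
    have a3 : D.nrm z (z - v) = D.nrm z (v - z) := map_sub_rev _ _ _
    linarith
  have e2 : D.nrm a (z - a) ≤ D.nrm a (z - v) + D.nrm a (v - a) := by
    have := map_add_le_add (D.nrm a) (z - v) (v - a)
    rwa [sub_add_sub_cancel] at this
  linarith

/-- disjoint non-empty open sets -/
lemma Lattice.countable {D : Dom n} {s : ℝ} {A : Set (Cn n)} (hs : 0 < s) (h : D.Lattice s A) :
    A.Countable := by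
  apply h.disj.countable_of_isOpen
  · intro a _
    exact D.isOpen_B a _
  · intro a _
    exact ⟨a, D.self_mem_B a (by positivity)⟩

end Dom

end HankelSPC
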