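import Pool.Agent.Lib.MP_e1cf54_an.C2
import Pool.Agent.Lib.MP_e1cf54_an.C6a

/-! Row C6b: counting -/

open MeasureTheory Set
open scoped ENNReal NNReal Topology ContDiff

namespace HankelSPC

variable {n : ℕ}

namespace Dom

/-- `δ(a) ≤ (1 + 2R + LR²) δ(z)` for `|a - z|_z ≤ R`. -/
lemma C6b_δ_le (D : Dom n) {z a : Cn n} (hz : z ∈ D.Ω) {R : ℝ}
    (h : D.nrm z (a - z) ≤ R) : D.δ a ≤ (1 + 2 * R + D.L * R ^ 2) * D.δ z := by
  have hδ := D.δ_pos hz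
  have h1 := D.taylor1 z a
  have h2 : ‖ell D.ρ z (a - z)‖ ≤ D.δ z * R :=
    (D.ell_le_nrm hz _).trans (mul_le_mul_of_nonneg_left h hδ.le)
  have h3 : ‖a - z‖ ^ 2 ≤ D.δ z * R ^ 2 := by
    have h4 : ‖a - z‖ ≤ Real.sqrt (D.δ z) * R :=
      (D.norm_le_nrm hz _).trans (mul_le_mul_of_nonneg_left h (Real.sqrt_nonneg _))
    calc ‖a - z‖ ^ 2 ≤ (Real.sqrt (D.δ z) * R) ^ 2 := by gcongr
      _ = D.δ z * R ^ 2 := by rw [mul_pow, Real.sq_sqrt hδ.le]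
  have h4 : |fderiv ℝ D.ρ z (a - z)| ≤ 2 * ‖ell D.ρ z (a - z)‖ := by
    rw [two_re_ell, abs_mul, abs_two]
    have := Complex.abs_re_le_norm (ell D.ρ z (a - z))
    linarith
  have hL : 0 ≤ D.L := zero_le_one.trans D.L_ge
  have h5 : D.L * ‖a - z‖ ^ 2 ≤ D.L * (D.δ z * R ^ 2) := mul_le_mul_of_nonneg_left h3 hL
  have h6 := (abs_le.mp h1).1
  have h7 := (abs_le.mp h4).1
  unfold Dom.δ at *
  nlinarith

/-- `|X|_z ≤ C |X|_a` for `|a - z|_z ≤ R`. -/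
lemma C6b_nrm_le (D : Dom n) {z a : Cn n} (hz : z ∈ D.Ω) (ha : a ∈ D.Ω) {R : ℝ} (hR : 0 ≤ R)
    (h : D.nrm z (a - z) ≤ R) (X : Cn n) :
    D.nrm z X ≤ ((1 + D.L * R) * (1 + 2 * R + D.L * R ^ 2)) * D.nrm a X := by
  have hδz := D.δ_pos hz
  have hδa := D.δ_pos ha
  have hL : 0 ≤ D.L := zero_le_one.trans D.L_ge
  set K := 1 + 2 * R + D.L * R ^ 2 with hK
  have hK1 : 1 ≤ K := by
    have : 0 ≤ D.L * R ^ 2 := by positivity
    linarith
  have hle : D.δ a ≤ K * D.δ z := D.C6b_δ_le hz h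
  rw [D.nrm_eq hz, D.nrm_eq ha]
  set sz := Real.sqrt (D.δ z) with hsz
  set sa := Real.sqrt (D.δ a) with hsa
  have hszp : 0 < sz := Real.sqrt_pos.mpr hδz
  have hsap : 0 < sa := Real.sqrt_pos.mpr hδa
  have hszz : sz * sz = D.δ z := Real.mul_self_sqrt hδz.le
  have hss : sa ≤ K * sz := by
    apply Real.sqrt_le_sqrt_iff' hδa |>.mpr hle |>.trans
    rw [Real.sqrt_mul (by linarith)]
    refine mul_le_mul_of_nonneg_right ?_ (Real.sqrt_nonneg _)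
    apply Real.sqrt_le_iff.mpr
    constructor
    · linarith
    · nlinarith
  have haz : ‖a - z‖ ≤ sz * R :=
    (D.norm_le_nrm hz _).trans (mul_le_mul_of_nonneg_left h (Real.sqrt_nonneg _))
  have h1 : ‖ell D.ρ z X‖ ≤ ‖ell D.ρ a X‖ + D.L * (sz * R) * ‖X‖ := by
    have h2 := norm_ell_sub_le D.ρ z a X
    have h3 : ‖ell D.ρ z X‖ ≤ ‖ell D.ρ z X - ell D.ρ a X‖ + ‖ell D.ρ a X‖ := by
      have := norm_add_le (ell D.ρ z X - ell D.ρ a X) (ell D.ρ a X)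
      rwa [sub_add_cancel] at this
    have h4 : ‖fderiv ℝ D.ρ z - fderiv ℝ D.ρ a‖ ≤ D.L * (sz * R) := by
      refine (D.lip1 z a).trans (mul_le_mul_of_nonneg_left ?_ hL)
      rw [norm_sub_rev]
      exact haz
    have h5 := mul_le_mul_of_nonneg_right h4 (norm_nonneg X)
    linarith
  have hu : ‖X‖ / sz ≤ K * (‖X‖ / sa) := by
    rw [div_le_iff₀ hszp, mul_div_assoc', div_mul_eq_mul_div, le_div_iff₀ hsap]
    nlinarith [norm_nonneg X]
  have hv : ‖ell D.ρ a X‖ / D.δ z ≤ K * (‖ell D.ρ a X‖ / D.δ a) := by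
    rw [div_le_iff₀ hδz, mul_div_assoc', div_mul_eq_mul_div, le_div_iff₀ hδa]
    nlinarith [norm_nonneg (ell D.ρ a X)]
  have hw : ‖ell D.ρ z X‖ / D.δ z ≤ ‖ell D.ρ a X‖ / D.δ z + D.L * R * (‖X‖ / sz) := by
    have h6 : D.L * R * (‖X‖ / sz) = D.L * (sz * R) * ‖X‖ / D.δ z := by
      rw [← hszz]
      field_simp
    rw [h6, ← add_div]
    exact div_le_div_of_nonneg_right h1 hδz.le
  have h7 : 0 ≤ ‖ell D.ρ a X‖ / D.δ a := by positivity
  have h8 : 0 ≤ ‖X‖ / sa := by positivity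
  have h9 : 0 ≤ D.L * R := by positivity
  have h10 : D.L * R * (‖X‖ / sz) ≤ D.L * R * (K * (‖X‖ / sa)) := mul_le_mul_of_nonneg_left hu h9
  have h11 : 0 ≤ D.L * R * K * (‖ell D.ρ a X‖ / D.δ a) := by positivity
  nlinarith

/-- Number of lattice points in a large ball with comparable `δ`: the balls `B(a,s/8)` are disjoint,
of volume `≥ c (δ(z)/R)^{n+1}`, and contained in `B(z,R')`: for `|a - z|_z < R` one has
`δ(a) ≤ (1 + 2R + LR²) δ(z)` and `|X|_z ≤ C |X|_a`. -/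
theorem Lattice.count (D : Dom n) {s₀ : ℝ} (h : D.Good s₀) {s R : ℝ} (hs : 0 < s) (hs' : s ≤ s₀)
    (hR : 1 ≤ R) : ∃ M : ℕ, ∀ A, D.Lattice s A → ∀ z ∈ D.Ω, ∀ F : Finset (Cn n), ↑F ⊆ A →
      (∀ a ∈ F, D.nrm z (a - z) < R ∧ D.δ z ≤ R * D.δ a) → F.card ≤ M := by
  obtain ⟨C, hC, hvol⟩ := D.volume_B
  have hL : 0 ≤ D.L := zero_le_one.trans D.L_ge
  have hR0 : 0 < R := by linarith
  set K := (1 + D.L * R) * (1 + 2 * R + D.L * R ^ 2) with hK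
  have hK0 : 0 ≤ K := by positivity
  set R' := K * (s / 8) + R with hR'
  have hR'p : 0 < R' := by positivity
  set c₁ := C⁻¹ * (s / 8) ^ (2 * n) * (R⁻¹) ^ (n + 1) with hc₁
  have hc₁p : 0 < c₁ := by positivity
  set C₂ := C * R' ^ (2 * n) with hC₂
  have hC₂p : 0 < C₂ := by positivity
  refine ⟨⌈C₂ / c₁⌉₊, fun A hA z hz F hF hFa => ?_⟩
  have hδz := D.δ_pos hz
  have hdp : 0 < D.δ z ^ (n + 1) := by positivity
  -- the small balls are contained in the large ball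
  have hsub : (⋃ a ∈ F, D.B a (s / 8)) ⊆ D.B z R' := by
    intro w hw
    simp only [mem_iUnion] at hw
    obtain ⟨a, ha, hwa⟩ := hw
    rw [D.mem_B] at hwa ⊢
    have haΩ : a ∈ D.Ω := hA.subset (hF ha)
    have h1 := (hFa a ha).1
    have h2 := D.C6b_nrm_le hz haΩ hR0.le h1.le (w - a)
    have h3 : D.nrm z (w - z) ≤ D.nrm z (w - a) + D.nrm z (a - z) := by
      have := map_add_le_add (D.nrm z) (w - a) (a - z)
      rwa [sub_add_sub_cancel] at this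
    have h4 : K * D.nrm a (w - a) ≤ K * (s / 8) := mul_le_mul_of_nonneg_left hwa.le hK0
    rw [hR']
    linarith
  have hsum : ∑ a ∈ F, volume (D.B a (s / 8)) ≤ volume (D.B z R') := by
    rw [← measure_biUnion_finset]
    · exact measure_mono hsub
    · exact hA.disj.subset hF
    · intro a _
      exact (D.isOpen_B a (s / 8)).measurableSet
  have hlow : ∀ a ∈ F, ENNReal.ofReal (c₁ * D.δ z ^ (n + 1)) ≤ volume (D.B a (s / 8)) := by
    intro a ha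
    have haΩ : a ∈ D.Ω := hA.subset (hF ha)
    refine le_trans (ENNReal.ofReal_le_ofReal ?_) (hvol a haΩ (s / 8) (by positivity)).1
    have h1 := (hFa a ha).2
    have h2 : R⁻¹ * D.δ z ≤ D.δ a := by
      rw [inv_mul_le_iff₀ hR0]
      exact h1
    have h3 : (R⁻¹ * D.δ z) ^ (n + 1) ≤ D.δ a ^ (n + 1) := by gcongr
    calc c₁ * D.δ z ^ (n + 1) = C⁻¹ * (s / 8) ^ (2 * n) * (R⁻¹ * D.δ z) ^ (n + 1) := by
          rw [hc₁, mul_pow]; ring
      _ ≤ C⁻¹ * (s / 8) ^ (2 * n) * D.δ a ^ (n + 1) := by gcongr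
  have hup := (hvol z hz R' hR'p).2
  have h1 : (F.card : ℝ≥0∞) * ENNReal.ofReal (c₁ * D.δ z ^ (n + 1))
      ≤ ENNReal.ofReal (C₂ * D.δ z ^ (n + 1)) := by
    calc (F.card : ℝ≥0∞) * ENNReal.ofReal (c₁ * D.δ z ^ (n + 1))
        = ∑ _a ∈ F, ENNReal.ofReal (c₁ * D.δ z ^ (n + 1)) := by
          rw [Finset.sum_const, nsmul_eq_mul]
      _ ≤ ∑ a ∈ F, volume (D.B a (s / 8)) := Finset.sum_le_sum hlow
      _ ≤ volume (D.B z R') := hsum
      _ ≤ _ := hup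
  rw [← ENNReal.ofReal_natCast, ← ENNReal.ofReal_mul (Nat.cast_nonneg _),
    ENNReal.ofReal_le_ofReal_iff (by positivity)] at h1
  have h2 : (F.card : ℝ) * c₁ ≤ C₂ := by
    have : ((F.card : ℝ) * c₁) * D.δ z ^ (n + 1) ≤ C₂ * D.δ z ^ (n + 1) := by linarith
    exact le_of_mul_le_mul_right this hdp
  have h3 : (F.card : ℝ) ≤ C₂ / c₁ := by rwa [le_div_iff₀ hc₁p]
  exact_mod_cast h3.trans (Nat.le_ceil _)

end Dom

end HankelSPC
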