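import Pool.Agent.Lib.MP_e1cf54_an.C2
import Pool.Agent.Lib.MP_e1cf54_an.C5
import Pool.Agent.Lib.MP_e1cf54_an.C6a

/-! Row C6c: lattice sums -/

open MeasureTheory Set
open scoped ENNReal NNReal Topology ContDiff

namespace HankelSPC

variable {n : ℕ}

namespace Dom

private lemma C6c_rpow_comp {u v e : ℝ} (hu : 0 < u) (hv : 0 < v) (h1 : u ≤ 2 * v)
    (h2 : v ≤ 2 * u) : (2:ℝ) ^ (-|e|) * v ^ e ≤ u ^ e := by
  rcases le_total 0 e with he | he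
  · rw [abs_of_nonneg he]
    have h3 : (2:ℝ) ^ (-e) * v ^ e = (2⁻¹ * v) ^ e := by
      rw [Real.mul_rpow (by norm_num) hv.le, Real.inv_rpow (by norm_num),
        Real.rpow_neg (by norm_num)]
    rw [h3]
    exact Real.rpow_le_rpow (by positivity) (by linarith) he
  · rw [abs_of_nonpos he, neg_neg]
    have h3 : (2:ℝ) ^ e * v ^ e = (2 * v) ^ e := by
      rw [Real.mul_rpow (by norm_num) hv.le]
    rw [h3]
    exact Real.rpow_le_rpow_of_nonpos hu h1 he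

private lemma C6c_ball (D : Dom n) {s₀ : ℝ} (h : D.Good s₀) {s : ℝ} (hs : 0 < s) (hs' : s ≤ s₀)
    (a b : ℝ) (hb : 0 ≤ b) : ∃ c : ℝ, 0 < c ∧ ∀ x ∈ D.Ω, ∀ z ∈ D.Ω,
      ENNReal.ofReal (c * (D.δ x ^ a * D.qd z x ^ (-b))) ≤
        ∫⁻ w in D.B x (s / 8),
          ENNReal.ofReal (D.δ w ^ (a - n - 1) * D.qd z w ^ (-b)) := by
  obtain ⟨C2, hC2, hvol⟩ := volume_B D
  obtain ⟨K, hK, hq⟩ := qd_stable_right D h
  have hK0 : 0 < K := by linarith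
  set e : ℝ := a - n - 1 with he
  refine ⟨(2:ℝ) ^ (-|e|) * K ^ (-b) * (C2⁻¹ * (s / 8) ^ (2 * n)), by positivity, ?_⟩
  intro x hx z hz
  have hsub : D.B x (s / 8) ⊆ D.B x s₀ := D.B_mono x (by linarith)
  have hδx := D.δ_pos hx
  have hqx := D.qd_pos hz hx
  have hlow : ∀ w ∈ D.B x (s / 8),
      ENNReal.ofReal ((2:ℝ) ^ (-|e|) * K ^ (-b) * (D.δ x ^ e * D.qd z x ^ (-b))) ≤
        ENNReal.ofReal (D.δ w ^ e * D.qd z w ^ (-b)) := by
    intro w hw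
    apply ENNReal.ofReal_le_ofReal
    obtain ⟨hwΩ, h1, h2, -⟩ := h.sub x hx w (hsub hw)
    obtain ⟨h3, h4⟩ := hq z hz x hx w (hsub hw)
    have hδw := D.δ_pos hwΩ
    have hqw := D.qd_pos hz hwΩ
    have h5 : (2:ℝ) ^ (-|e|) * D.δ x ^ e ≤ D.δ w ^ e := C6c_rpow_comp hδw hδx h1 h2
    have h6 : K ^ (-b) * D.qd z x ^ (-b) ≤ D.qd z w ^ (-b) := by
      rw [← Real.mul_rpow hK0.le hqx.le]
      exact Real.rpow_le_rpow_of_nonpos hqw h3 (by linarith)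
    calc (2:ℝ) ^ (-|e|) * K ^ (-b) * (D.δ x ^ e * D.qd z x ^ (-b))
        = ((2:ℝ) ^ (-|e|) * D.δ x ^ e) * (K ^ (-b) * D.qd z x ^ (-b)) := by ring
      _ ≤ D.δ w ^ e * D.qd z w ^ (-b) :=
          mul_le_mul h5 h6 (by positivity) (by positivity)
  have hpow : D.δ x ^ a = D.δ x ^ e * D.δ x ^ (n + 1) := by
    rw [← Real.rpow_natCast (D.δ x) (n + 1), ← Real.rpow_add hδx]
    congr 1
    rw [he]; push_cast; ring
  calc ENNReal.ofReal ((2:ℝ) ^ (-|e|) * K ^ (-b) * (C2⁻¹ * (s / 8) ^ (2 * n)) *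
          (D.δ x ^ a * D.qd z x ^ (-b)))
      = ENNReal.ofReal (((2:ℝ) ^ (-|e|) * K ^ (-b) * (D.δ x ^ e * D.qd z x ^ (-b))) *
          (C2⁻¹ * (s / 8) ^ (2 * n) * D.δ x ^ (n + 1))) := by
        rw [hpow]; congr 1; ring
    _ = ENNReal.ofReal ((2:ℝ) ^ (-|e|) * K ^ (-b) * (D.δ x ^ e * D.qd z x ^ (-b))) *
          ENNReal.ofReal (C2⁻¹ * (s / 8) ^ (2 * n) * D.δ x ^ (n + 1)) := by
        rw [ENNReal.ofReal_mul]; positivity
    _ ≤ ENNReal.ofReal ((2:ℝ) ^ (-|e|) * K ^ (-b) * (D.δ x ^ e * D.qd z x ^ (-b))) *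
          volume (D.B x (s / 8)) := by
        gcongr
        exact (hvol x hx (s / 8) (by positivity)).1
    _ = ∫⁻ _ in D.B x (s / 8),
          ENNReal.ofReal ((2:ℝ) ^ (-|e|) * K ^ (-b) * (D.δ x ^ e * D.qd z x ^ (-b))) := by
        rw [setLIntegral_const]
    _ ≤ ∫⁻ w in D.B x (s / 8),
          ENNReal.ofReal (D.δ w ^ e * D.qd z w ^ (-b)) :=
        setLIntegral_mono' (D.isOpen_B x _).measurableSet hlow

/-- Lattice sums: `∑ δ(a)^A qd(z,a)^{-B} ≤ C δ(z)^{A-B}`; compare with the integral over `B(a,s/8)`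
(`volume_B`, `qd_stable_right`, `δ` comparable). -/
theorem Lattice.sum_est (D : Dom n) {s₀ : ℝ} (h : D.Good s₀) {s : ℝ} (hs : 0 < s) (hs' : s ≤ s₀)
    {a b : ℝ} (ha : (n : ℝ) < a) (hb : a < b) : ∃ C : ℝ, 0 < C ∧ ∀ A, D.Lattice s A →
      ∀ z ∈ D.Ω, ∀ F : Finset (Cn n), ↑F ⊆ A →
        ∑ x ∈ F, D.δ x ^ a * D.qd z x ^ (-b) ≤ C * D.δ z ^ (a - b) := by
  have hn : (0:ℝ) ≤ n := Nat.cast_nonneg n
  obtain ⟨c, hc, hball⟩ := C6c_ball D h hs hs' a b (by linarith)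
  obtain ⟨C5, hC5, hint⟩ := integral_est D ha hb
  refine ⟨C5 / c, by positivity, ?_⟩
  intro A hA z hz F hF
  have hdisj : (F : Set (Cn n)).PairwiseDisjoint fun x => D.B x (s / 8) :=
    hA.disj.subset hF
  have hmeas : ∀ x ∈ F, MeasurableSet (D.B x (s / 8)) := fun x _ =>
    (D.isOpen_B x _).measurableSet
  have hpos : ∀ x ∈ F, 0 ≤ c * (D.δ x ^ a * D.qd z x ^ (-b)) := by
    intro x hx
    have hx' := hA.subset (hF hx)
    have h1 := D.δ_pos hx'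
    have h2 := D.qd_pos hz hx'
    positivity
  have key : ENNReal.ofReal (∑ x ∈ F, c * (D.δ x ^ a * D.qd z x ^ (-b))) ≤
      ENNReal.ofReal (C5 * D.δ z ^ (a - b)) := by
    rw [ENNReal.ofReal_sum_of_nonneg hpos]
    calc ∑ x ∈ F, ENNReal.ofReal (c * (D.δ x ^ a * D.qd z x ^ (-b)))
        ≤ ∑ x ∈ F, ∫⁻ w in D.B x (s / 8),
            ENNReal.ofReal (D.δ w ^ (a - n - 1) * D.qd z w ^ (-b)) :=
          Finset.sum_le_sum fun x hx => hball x (hA.subset (hF hx)) z hz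
      _ = ∫⁻ w in ⋃ x ∈ F, D.B x (s / 8),
            ENNReal.ofReal (D.δ w ^ (a - n - 1) * D.qd z w ^ (-b)) := by
          rw [lintegral_biUnion_finset hdisj hmeas]
      _ ≤ ∫⁻ w in D.Ω, ENNReal.ofReal (D.δ w ^ (a - n - 1) * D.qd z w ^ (-b)) := by
          apply lintegral_mono_set
          apply iUnion₂_subset
          intro x hx
          exact h.B_subset (hA.subset (hF hx)) (by linarith)
      _ ≤ ENNReal.ofReal (C5 * D.δ z ^ (a - b)) := hint z hz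
  have hδz := D.δ_pos hz
  have key2 : ∑ x ∈ F, c * (D.δ x ^ a * D.qd z x ^ (-b)) ≤ C5 * D.δ z ^ (a - b) :=
    (ENNReal.ofReal_le_ofReal_iff (by positivity)).1 key
  rw [← Finset.mul_sum] at key2
  rw [div_mul_eq_mul_div, le_div_iff₀ hc]
  linarith

end Dom

end HankelSPC
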