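import Pool.Agent.Lib.MP_e1cf54_an.C2
import Pool.Agent.Lib.MP_e1cf54_an.C3
import Pool.Agent.Lib.MP_e1cf54_an.C6c

/-! Row C6d: more counting -/

open MeasureTheory Set
open scoped ENNReal NNReal Topology ContDiff

namespace HankelSPC

variable {n : ℕ}

namespace Dom

/-- Number of lattice points with `qd(z,a)² < Λ δ(z) δ(a)`: then `δ(a) > δ(z)/Λ` and
`qd < Λ δ(z)`; use `sum_est` (with `a = n+1`, `b = n+2`). -/
theorem Lattice.count_qd (D : Dom n) {s₀ : ℝ} (h : D.Good s₀) {s Λ : ℝ} (hs : 0 < s)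
    (hs' : s ≤ s₀) (hΛ : 1 ≤ Λ) : ∃ M : ℕ, ∀ A, D.Lattice s A → ∀ z ∈ D.Ω,
      ∀ F : Finset (Cn n), ↑F ⊆ A → (∀ a ∈ F, D.qd z a ^ 2 < Λ * D.δ z * D.δ a) →
        F.card ≤ M := by
  obtain ⟨C, hC, hsum⟩ := Lattice.sum_est D h hs hs' (a := (n : ℝ) + 1) (b := (n : ℝ) + 2)
    (by linarith) (by linarith)
  refine ⟨⌈C * Λ ^ (2 * n + 3)⌉₊, fun A hA z hz F hF hq => ?_⟩
  have hδ := D.δ_pos hz
  have hΛ0 : 0 < Λ := by linarith
  have hS := hsum A hA z hz F hF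
  have e1 : (n : ℝ) + 1 - ((n : ℝ) + 2) = -1 := by ring
  rw [e1, Real.rpow_neg_one] at hS
  have hterm : ∀ x ∈ F, (Λ ^ (2 * n + 3))⁻¹ * (D.δ z)⁻¹ ≤
      D.δ x ^ ((n : ℝ) + 1) * D.qd z x ^ (-((n : ℝ) + 2)) := by
    intro x hx
    have hxΩ : x ∈ D.Ω := hA.subset (hF hx)
    have hδx := D.δ_pos hxΩ
    obtain ⟨h1, h2⟩ := D.δ_le_qd hz hxΩ
    have hq0 := D.qd_pos hz hxΩ
    have hqx := hq x hx
    have h3 : D.qd z x ≤ Λ * D.δ z := by
      have : D.qd z x * D.qd z x ≤ Λ * D.δ z * D.qd z x := by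
        calc D.qd z x * D.qd z x = D.qd z x ^ 2 := (sq _).symm
          _ ≤ Λ * D.δ z * D.δ x := hqx.le
          _ ≤ Λ * D.δ z * D.qd z x := by gcongr
      exact le_of_mul_le_mul_right this hq0
    have h4 : D.δ z / Λ ≤ D.δ x := by
      rw [div_le_iff₀ hΛ0]
      have : D.δ z * D.δ z ≤ D.δ z * (D.δ x * Λ) := by
        calc D.δ z * D.δ z ≤ D.qd z x * D.qd z x := mul_le_mul h1 h1 hδ.le hq0.le
          _ = D.qd z x ^ 2 := (sq _).symm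
          _ ≤ Λ * D.δ z * D.δ x := hqx.le
          _ = D.δ z * (D.δ x * Λ) := by ring
      exact le_of_mul_le_mul_left this hδ
    have e2 : D.δ x ^ ((n : ℝ) + 1) = D.δ x ^ (n + 1) := by
      rw [← Real.rpow_natCast]
      push_cast
      rfl
    have e3 : D.qd z x ^ (-((n : ℝ) + 2)) = (D.qd z x ^ (n + 2))⁻¹ := by
      rw [Real.rpow_neg hq0.le, ← Real.rpow_natCast]
      push_cast
      rfl
    rw [e2, e3]
    calc (Λ ^ (2 * n + 3))⁻¹ * (D.δ z)⁻¹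
        = (D.δ z / Λ) ^ (n + 1) * ((Λ * D.δ z) ^ (n + 2))⁻¹ := by
          rw [div_pow, mul_pow]
          have : Λ ^ (2 * n + 3) = Λ ^ (n + 1) * Λ ^ (n + 2) := by rw [← pow_add]; congr 1; ring
          rw [this, pow_succ (D.δ z) (n + 1)]
          field_simp
      _ ≤ D.δ x ^ (n + 1) * (D.qd z x ^ (n + 2))⁻¹ := by
          gcongr
  have hcard : (F.card : ℝ) * ((Λ ^ (2 * n + 3))⁻¹ * (D.δ z)⁻¹) ≤ C * (D.δ z)⁻¹ := by
    calc (F.card : ℝ) * ((Λ ^ (2 * n + 3))⁻¹ * (D.δ z)⁻¹)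
        = F.card • ((Λ ^ (2 * n + 3))⁻¹ * (D.δ z)⁻¹) := by rw [nsmul_eq_mul]
      _ ≤ ∑ x ∈ F, D.δ x ^ ((n : ℝ) + 1) * D.qd z x ^ (-((n : ℝ) + 2)) :=
          Finset.card_nsmul_le_sum _ _ _ hterm
      _ ≤ C * (D.δ z)⁻¹ := hS
  have hfin : (F.card : ℝ) ≤ C * Λ ^ (2 * n + 3) := by
    have hP : 0 < Λ ^ (2 * n + 3) := by positivity
    have := mul_le_mul_of_nonneg_right hcard (mul_pos hP hδ).le
    have e4 : (F.card : ℝ) * ((Λ ^ (2 * n + 3))⁻¹ * (D.δ z)⁻¹) * (Λ ^ (2 * n + 3) * D.δ z) =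
        F.card := by field_simp
    have e5 : C * (D.δ z)⁻¹ * (Λ ^ (2 * n + 3) * D.δ z) = C * Λ ^ (2 * n + 3) := by field_simp
    rwa [e4, e5] at this
  exact_mod_cast hfin.trans (Nat.le_ceil _)

/-- Only finitely many lattice points with `δ ≥ t`. -/
theorem Lattice.finite (D : Dom n) {s₀ : ℝ} (h : D.Good s₀) {s t : ℝ} (hs : 0 < s)
    (hs' : s ≤ s₀) (ht : 0 < t) {A : Set (Cn n)} (hA : D.Lattice s A) :
    {a ∈ A | t ≤ D.δ a}.Finite := by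
  obtain ⟨C, hC, hvol⟩ := volume_B D
  obtain ⟨ε, hε⟩ : ∃ ε : ℝ≥0∞, ε = ENNReal.ofReal (C⁻¹ * (s / 8) ^ (2 * n) * t ^ (n + 1)) :=
    ⟨_, rfl⟩
  have hε0 : 0 < ε := by
    rw [hε, ENNReal.ofReal_pos]
    positivity
  have hfin := Measure.finite_const_le_meas_of_disjoint_iUnion (μ := volume) (ι := A) hε0
    (As := fun a => D.B a (s / 8)) (fun a => (D.isOpen_B _ _).measurableSet)
    (by
      intro a b hab
      exact hA.disj a.2 b.2 (fun h => hab (Subtype.ext h)))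
    (by
      refine ne_of_lt (lt_of_le_of_lt (measure_mono ?_) D.volume_Ω_lt_top)
      intro x hx
      obtain ⟨a, ha⟩ := Set.mem_iUnion.1 hx
      exact h.B_subset (hA.subset a.2) (by linarith) ha)
  refine (hfin.image Subtype.val).subset ?_
  rintro a ⟨haA, hta⟩
  refine ⟨⟨a, haA⟩, ?_, rfl⟩
  show ε ≤ volume (D.B a (s / 8))
  refine le_trans ?_ (hvol a (hA.subset haA) (s / 8) (by positivity)).1
  rw [hε]
  apply ENNReal.ofReal_le_ofReal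
  gcongr

end Dom

end HankelSPC
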