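import Pool.Agent.Lib.MP_e1cf54_an.L1a

/-! Row L2a: the Levi form: algebra -/

open MeasureTheory Set
open scoped ENNReal NNReal Topology ContDiff

namespace HankelSPC

variable {n : ℕ}

theorem L2a_contDiffAt_one {u : Cn n → ℝ} {z : Cn n} (hu : ContDiffAt ℝ 2 u z) :
    DifferentiableAt ℝ u z := hu.differentiableAt (by norm_num)

theorem L2a_diff_fderiv {u : Cn n → ℝ} {z : Cn n} (hu : ContDiffAt ℝ 2 u z) :
    DifferentiableAt ℝ (fderiv ℝ u) z :=
  (hu.fderiv_right (m := 1) (by norm_num)).differentiableAt (by norm_num)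

theorem L2a_ev {u : Cn n → ℝ} {z : Cn n} (hu : ContDiffAt ℝ 2 u z) :
    ∀ᶠ w in 𝓝 z, ContDiffAt ℝ 2 u w := hu.eventually (by simp)

theorem L2a_D2_eq {u : Cn n → ℝ} {z : Cn n} (hu : ContDiffAt ℝ 2 u z) (X Y : Cn n) :
    D2 u z X Y = fderiv ℝ (fun w => fderiv ℝ u w Y) z X := by
  have h := L2a_diff_fderiv hu
  have h2 : HasFDerivAt (fun w => fderiv ℝ u w Y)
      ((ContinuousLinearMap.apply ℝ ℝ Y).comp (fderiv ℝ (fderiv ℝ u) z)) z :=
    (ContinuousLinearMap.apply ℝ ℝ Y).hasFDerivAt.comp z h.hasFDerivAt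
  rw [h2.fderiv]; rfl

theorem L2a_D2_hasFDerivAt {u : Cn n → ℝ} {z : Cn n} (hu : ContDiffAt ℝ 2 u z) (Y : Cn n) :
    HasFDerivAt (fun w => fderiv ℝ u w Y)
      ((ContinuousLinearMap.apply ℝ ℝ Y).comp (fderiv ℝ (fderiv ℝ u) z)) z :=
  (ContinuousLinearMap.apply ℝ ℝ Y).hasFDerivAt.comp z (L2a_diff_fderiv hu).hasFDerivAt

theorem L2a_symm {u : Cn n → ℝ} {z : Cn n} (hu : ContDiffAt ℝ 2 u z) (X Y : Cn n) :
    D2 u z X Y = D2 u z Y X :=
  (hu.isSymmSndFDerivAt (by simp)) X Y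

theorem L2a_D2_add_left (u : Cn n → ℝ) (z X Y Z : Cn n) :
    D2 u z (X + Y) Z = D2 u z X Z + D2 u z Y Z := by simp [D2]

theorem L2a_D2_add_right (u : Cn n → ℝ) (z X Y Z : Cn n) :
    D2 u z X (Y + Z) = D2 u z X Y + D2 u z X Z := by simp [D2]

theorem L2a_D2_smul_left (u : Cn n → ℝ) (z : Cn n) (a : ℝ) (X Y : Cn n) :
    D2 u z (a • X) Y = a * D2 u z X Y := by simp [D2]

theorem L2a_D2_smul_right (u : Cn n → ℝ) (z : Cn n) (a : ℝ) (X Y : Cn n) :
    D2 u z X (a • Y) = a * D2 u z X Y := by simp [D2]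

theorem L2a_csmul (c : ℂ) (X : Cn n) : c • X = c.re • X + c.im • (Complex.I • X) := by
  ext i
  simp only [Pi.smul_apply, Pi.add_apply, smul_eq_mul, Complex.real_smul]
  conv_lhs => rw [← Complex.re_add_im c]
  ring

theorem L2a_Icsmul (c : ℂ) (X : Cn n) : Complex.I • (c • X) = c.re • (Complex.I • X) + (-c.im) • X := by
  ext i
  simp only [Pi.smul_apply, Pi.add_apply, smul_eq_mul, Complex.real_smul]
  conv_lhs => rw [← Complex.re_add_im c]
  ring_nf
  simp only [Complex.I_sq]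
  push_cast
  ring

theorem L2a_II (X : Cn n) : Complex.I • (Complex.I • X) = (-1 : ℝ) • X := by
  ext i
  simp only [Pi.smul_apply, smul_eq_mul, Complex.real_smul, ← mul_assoc, Complex.I_mul_I]
  push_cast; ring

/-- `Laplacian.laplacian` on `ℂ` is `iteratedFDeriv ℝ 2 f 0 ![1,1] + iteratedFDeriv ℝ 2 f 0 ![I,I]`
(`InnerProductSpace.laplacian_eq_iteratedFDeriv_complexPlane`); then the chain rule for
`ζ ↦ u (z + ζ • X)`. -/
theorem levi_eq_D2 {u : Cn n → ℝ} {z : Cn n} (hu : ContDiffAt ℝ 2 u z) (X : Cn n) :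
    levi u z X = (1 / 4) * (D2 u z X X + D2 u z (Complex.I • X) (Complex.I • X)) := by
  set A : ℂ →L[ℝ] Cn n := (ContinuousLinearMap.toSpanSingleton ℂ X).restrictScalars ℝ with hA
  have hAv : ∀ v : ℂ, A v = v • X := fun v => by simp [hA]
  have hφ : ∀ ζ : ℂ, HasFDerivAt (fun ζ : ℂ => z + ζ • X) A ζ := by
    intro ζ
    have : (fun ζ : ℂ => z + ζ • X) = fun ζ => z + A ζ := by ext ζ; simp [hAv]
    rw [this]
    exact A.hasFDerivAt.const_add z
  have hcont : Filter.Tendsto (fun ζ : ℂ => z + ζ • X) (𝓝 0) (𝓝 z) := by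
    have := (hφ 0).continuousAt
    simpa [ContinuousAt] using this
  have h1 : ∀ᶠ ζ : ℂ in 𝓝 0, fderiv ℝ (fun ζ : ℂ => u (z + ζ • X)) ζ = (fderiv ℝ u (z + ζ • X)).comp A := by
    filter_upwards [hcont.eventually (L2a_ev hu)] with ζ hζ
    exact ((L2a_contDiffAt_one hζ).hasFDerivAt.comp ζ (hφ ζ)).fderiv
  have h2 : HasFDerivAt (fun ζ : ℂ => (fderiv ℝ u (z + ζ • X)).comp A)
      (((ContinuousLinearMap.compL ℝ ℂ (Cn n) ℝ).flip A).comp ((fderiv ℝ (fderiv ℝ u) z).comp A)) 0 := by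
    have h3 : HasFDerivAt (fun ζ : ℂ => fderiv ℝ u (z + ζ • X)) ((fderiv ℝ (fderiv ℝ u) z).comp A) 0 := by
      have h4 : HasFDerivAt (fderiv ℝ u) (fderiv ℝ (fderiv ℝ u) z) (z + (0 : ℂ) • X) := by
        simpa using (L2a_diff_fderiv hu).hasFDerivAt
      exact h4.comp (0 : ℂ) (hφ 0)
    exact ((ContinuousLinearMap.compL ℝ ℂ (Cn n) ℝ).flip A).hasFDerivAt.comp (0 : ℂ) h3
  have h5 : fderiv ℝ (fderiv ℝ (fun ζ : ℂ => u (z + ζ • X))) 0
      = ((ContinuousLinearMap.compL ℝ ℂ (Cn n) ℝ).flip A).comp ((fderiv ℝ (fderiv ℝ u) z).comp A) :=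
    (h2.congr_of_eventuallyEq h1).fderiv
  have h6 : ∀ v : ℂ, fderiv ℝ (fderiv ℝ (fun ζ : ℂ => u (z + ζ • X))) 0 v v = D2 u z (v • X) (v • X) := by
    intro v
    rw [h5]
    simp [D2, hAv]
  rw [levi, InnerProductSpace.laplacian_eq_iteratedFDeriv_complexPlane]
  simp only [iteratedFDeriv_two_apply, Matrix.cons_val_zero, Matrix.cons_val_one]
  rw [h6, h6, one_smul]

lemma levi_congr {u v : Cn n → ℝ} {z : Cn n} (h : u =ᶠ[𝓝 z] v) (X : Cn n) :
    levi u z X = levi v z X := by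
  have hcont : Filter.Tendsto (fun ζ : ℂ => z + ζ • X) (𝓝 0) (𝓝 z) := by
    have : Continuous (fun ζ : ℂ => z + ζ • X) := by fun_prop
    simpa using this.tendsto 0
  have h1 : (fun ζ : ℂ => u (z + ζ • X)) =ᶠ[𝓝 0] (fun ζ : ℂ => v (z + ζ • X)) := hcont.eventually h
  rw [levi, levi, (InnerProductSpace.laplacian_congr_nhds h1).eq_of_nhds]

lemma levi_zero (u : Cn n → ℝ) (z : Cn n) : levi u z 0 = 0 := by
  have : (fun ζ : ℂ => u (z + ζ • (0 : Cn n))) = fun _ => u z := by ext; simp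
  rw [levi, this, InnerProductSpace.laplacian_const]
  simp

lemma levi_smul {u : Cn n → ℝ} {z : Cn n} (hu : ContDiffAt ℝ 2 u z) (c : ℂ) (X : Cn n) :
    levi u z (c • X) = ‖c‖ ^ 2 * levi u z X := by
  rw [levi_eq_D2 hu, levi_eq_D2 hu, L2a_Icsmul, L2a_csmul c X]
  simp only [L2a_D2_add_left, L2a_D2_add_right, L2a_D2_smul_left, L2a_D2_smul_right]
  rw [L2a_symm hu (Complex.I • X) X, ← Complex.normSq_eq_norm_sq, Complex.normSq_apply]
  ring

lemma levi_add {u v : Cn n → ℝ} {z : Cn n} (hu : ContDiffAt ℝ 2 u z) (hv : ContDiffAt ℝ 2 v z)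
    (X : Cn n) : levi (fun w => u w + v w) z X = levi u z X + levi v z X := by
  have huv : ContDiffAt ℝ 2 (fun w => u w + v w) z := hu.add hv
  have h : fderiv ℝ (fderiv ℝ (fun w => u w + v w)) z
      = fderiv ℝ (fderiv ℝ u) z + fderiv ℝ (fderiv ℝ v) z := by
    have h1 : ∀ᶠ w in 𝓝 z, fderiv ℝ (fun w => u w + v w) w = fderiv ℝ u w + fderiv ℝ v w := by
      filter_upwards [L2a_ev hu, L2a_ev hv] with w h1 h2
      exact fderiv_fun_add (L2a_contDiffAt_one h1) (L2a_contDiffAt_one h2)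
    exact (((L2a_diff_fderiv hu).hasFDerivAt.add (L2a_diff_fderiv hv).hasFDerivAt).congr_of_eventuallyEq h1).fderiv
  rw [levi_eq_D2 huv, levi_eq_D2 hu, levi_eq_D2 hv]
  simp only [D2, h, add_apply]
  ring

lemma levi_const_mul {u : Cn n → ℝ} {z : Cn n} (hu : ContDiffAt ℝ 2 u z) (c : ℝ) (X : Cn n) :
    levi (fun w => c * u w) z X = c * levi u z X := by
  have huv : ContDiffAt ℝ 2 (fun w => c * u w) z := contDiffAt_const.mul hu
  have h : fderiv ℝ (fderiv ℝ (fun w => c * u w)) z = c • fderiv ℝ (fderiv ℝ u) z := by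
    have h1 : ∀ᶠ w in 𝓝 z, fderiv ℝ (fun w => c * u w) w = c • fderiv ℝ u w := by
      filter_upwards [L2a_ev hu] with w h1
      exact fderiv_const_mul (L2a_contDiffAt_one h1) c
    exact (((L2a_diff_fderiv hu).hasFDerivAt.const_smul c).congr_of_eventuallyEq h1).fderiv
  rw [levi_eq_D2 huv, levi_eq_D2 hu]
  simp only [D2, h, smul_apply, smul_eq_mul]
  ring

theorem L2a_D2_mul {u v : Cn n → ℝ} {z : Cn n} (hu : ContDiffAt ℝ 2 u z) (hv : ContDiffAt ℝ 2 v z)
    (X Y : Cn n) : D2 (fun w => u w * v w) z X Y = u z * D2 v z X Y + v z * D2 u z X Y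
      + fderiv ℝ u z X * fderiv ℝ v z Y + fderiv ℝ v z X * fderiv ℝ u z Y := by
  have huv : ContDiffAt ℝ 2 (fun w => u w * v w) z := hu.mul hv
  rw [L2a_D2_eq huv]
  have h1 : ∀ᶠ w in 𝓝 z, fderiv ℝ (fun w => u w * v w) w Y = u w * fderiv ℝ v w Y + v w * fderiv ℝ u w Y := by
    filter_upwards [L2a_ev hu, L2a_ev hv] with w h1 h2
    rw [fderiv_fun_mul (L2a_contDiffAt_one h1) (L2a_contDiffAt_one h2)]
    simp
  have h2 := ((L2a_contDiffAt_one hu).hasFDerivAt.mul (L2a_D2_hasFDerivAt hv Y)).add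
    ((L2a_contDiffAt_one hv).hasFDerivAt.mul (L2a_D2_hasFDerivAt hu Y))
  have h3 := (h2.congr_of_eventuallyEq h1).fderiv
  rw [h3]
  simp only [add_apply, smul_apply, ContinuousLinearMap.comp_apply,
    ContinuousLinearMap.apply_apply, smul_eq_mul, D2]
  ring

lemma levi_mul {u v : Cn n → ℝ} {z : Cn n} (hu : ContDiffAt ℝ 2 u z) (hv : ContDiffAt ℝ 2 v z)
    (X : Cn n) : levi (fun w => u w * v w) z X = u z * levi v z X + v z * levi u z X
      + 2 * (ell u z X * (starRingEnd ℂ) (ell v z X)).re := by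
  have huv : ContDiffAt ℝ 2 (fun w => u w * v w) z := hu.mul hv
  rw [levi_eq_D2 huv, levi_eq_D2 hu, levi_eq_D2 hv, L2a_D2_mul hu hv, L2a_D2_mul hu hv]
  simp only [ell, map_mul, map_sub, Complex.conj_ofReal, Complex.conj_I, Complex.mul_re, Complex.mul_im,
    Complex.sub_re, Complex.sub_im, Complex.ofReal_re, Complex.ofReal_im, Complex.I_re, Complex.I_im,
    Complex.neg_re, Complex.neg_im, map_div₀, map_one, map_ofNat, Complex.div_re, Complex.div_im, Complex.one_re,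
    Complex.one_im]
  norm_num [Complex.normSq]
  ring

theorem levi_comp {u : Cn n → ℝ} {z : Cn n} {h : ℝ → ℝ} (hu : ContDiffAt ℝ 2 u z)
    (hh : ContDiffAt ℝ 2 h (u z)) (X : Cn n) :
    levi (fun w => h (u w)) z X
      = deriv h (u z) * levi u z X + deriv (deriv h) (u z) * ‖ell u z X‖ ^ 2 := by
  have huv : ContDiffAt ℝ 2 (fun w => h (u w)) z := hh.comp z hu
  have hD : ∀ X : Cn n, D2 (fun w => h (u w)) z X X
      = deriv h (u z) * D2 u z X X + deriv (deriv h) (u z) * (fderiv ℝ u z X) ^ 2 := by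
    intro X
    rw [L2a_D2_eq huv]
    have hc : ContinuousAt u z := hu.continuousAt
    have h1 : ∀ᶠ w in 𝓝 z, fderiv ℝ (fun w => h (u w)) w X = deriv h (u w) * fderiv ℝ u w X := by
      filter_upwards [L2a_ev hu, hc.eventually (hh.eventually (by simp))] with w h1 h2
      have h3 : HasFDerivAt (fun w => h (u w)) (deriv h (u w) • fderiv ℝ u w) w :=
        (h2.differentiableAt (by norm_num)).hasDerivAt.comp_hasFDerivAt w (L2a_contDiffAt_one h1).hasFDerivAt
      rw [h3.fderiv]; simp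
    have hh' : DifferentiableAt ℝ (deriv h) (u z) := by
      have h4 : ContDiffAt ℝ 1 (fderiv ℝ h) (u z) := hh.fderiv_right (by norm_num)
      have h5 : DifferentiableAt ℝ (fun x => fderiv ℝ h x 1) (u z) :=
        (h4.differentiableAt (by norm_num)).clm_apply (differentiableAt_const _)
      have h6 : (fun x => fderiv ℝ h x 1) = deriv h := by ext x; exact fderiv_apply_one_eq_deriv
      rwa [h6] at h5
    have h2 : HasFDerivAt (fun w => deriv h (u w)) (deriv (deriv h) (u z) • fderiv ℝ u z) z :=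
      hh'.hasDerivAt.comp_hasFDerivAt z (L2a_contDiffAt_one hu).hasFDerivAt
    have h3 := (h2.mul (L2a_D2_hasFDerivAt hu X)).congr_of_eventuallyEq h1
    rw [h3.fderiv]
    simp only [add_apply, smul_apply, ContinuousLinearMap.comp_apply,
      ContinuousLinearMap.apply_apply, smul_eq_mul, D2]
    ring
  rw [levi_eq_D2 huv, levi_eq_D2 hu, hD, hD, ← Complex.normSq_eq_norm_sq, Complex.normSq_apply]
  simp only [ell, Complex.mul_re, Complex.mul_im,
    Complex.sub_re, Complex.sub_im, Complex.ofReal_re, Complex.ofReal_im, Complex.I_re, Complex.I_im,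
    Complex.div_re, Complex.div_im, Complex.one_re, Complex.one_im]
  norm_num [Complex.normSq]
  ring

theorem L2a_fderiv_nsq (z : Cn n) (Y : Cn n) :
    fderiv ℝ (nsq (n := n)) z Y = 2 * ∑ j, ((z j).re * (Y j).re + (z j).im * (Y j).im) := by
  have h : ∀ j : Fin n, HasFDerivAt (fun w : Cn n => ‖w j‖ ^ 2)
      ((2 * (z j).re) • (Complex.reCLM.comp (ContinuousLinearMap.proj (R := ℝ) (φ := fun _ : Fin n => ℂ) j))
        + (2 * (z j).im) • (Complex.imCLM.comp (ContinuousLinearMap.proj (R := ℝ) (φ := fun _ : Fin n => ℂ) j))) z := by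
    intro j
    have e : (fun w : Cn n => ‖w j‖ ^ 2) = fun w => (w j).re * (w j).re + (w j).im * (w j).im := by
      ext w; rw [← Complex.normSq_eq_norm_sq, Complex.normSq_apply]
    rw [e]
    have h1 : HasFDerivAt (fun w : Cn n => (w j).re)
        (Complex.reCLM.comp (ContinuousLinearMap.proj (R := ℝ) (φ := fun _ : Fin n => ℂ) j)) z :=
      (Complex.reCLM.comp (ContinuousLinearMap.proj (R := ℝ) (φ := fun _ : Fin n => ℂ) j)).hasFDerivAt
    have h2 : HasFDerivAt (fun w : Cn n => (w j).im)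
        (Complex.imCLM.comp (ContinuousLinearMap.proj (R := ℝ) (φ := fun _ : Fin n => ℂ) j)) z :=
      (Complex.imCLM.comp (ContinuousLinearMap.proj (R := ℝ) (φ := fun _ : Fin n => ℂ) j)).hasFDerivAt
    refine ((h1.mul h1).add (h2.mul h2)).congr_fderiv ?_
    ext w
    simp
    ring
  have h2 : HasFDerivAt (nsq (n := n)) (∑ j : Fin n,
      ((2 * (z j).re) • (Complex.reCLM.comp (ContinuousLinearMap.proj (R := ℝ) (φ := fun _ : Fin n => ℂ) j))
        + (2 * (z j).im) • (Complex.imCLM.comp (ContinuousLinearMap.proj (R := ℝ) (φ := fun _ : Fin n => ℂ) j)))) z := by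
    have := HasFDerivAt.fun_sum (u := Finset.univ) (fun j _ => h j)
    exact this
  rw [h2.fderiv, Finset.mul_sum]
  simp only [sum_apply]
  apply Finset.sum_congr rfl
  intro j _
  simp
  ring

theorem L2a_contDiff_nsq : ContDiff ℝ 2 (nsq (n := n)) := by
  have : (nsq (n := n)) = fun w => ∑ j, ((w j).re * (w j).re + (w j).im * (w j).im) := by
    ext w
    simp only [nsq, ← Complex.normSq_eq_norm_sq, Complex.normSq_apply]
  rw [this]
  have h1 : ∀ j : Fin n, ContDiff ℝ 2 (fun w : Cn n => (w j).re) := fun j =>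
    (Complex.reCLM.comp (ContinuousLinearMap.proj (R := ℝ) (φ := fun _ : Fin n => ℂ) j)).contDiff
  have h2 : ∀ j : Fin n, ContDiff ℝ 2 (fun w : Cn n => (w j).im) := fun j =>
    (Complex.imCLM.comp (ContinuousLinearMap.proj (R := ℝ) (φ := fun _ : Fin n => ℂ) j)).contDiff
  exact ContDiff.sum fun j _ => ((h1 j).mul (h1 j)).add ((h2 j).mul (h2 j))

theorem L2a_D2_nsq (z X Y : Cn n) :
    D2 nsq z X Y = 2 * ∑ j, ((X j).re * (Y j).re + (X j).im * (Y j).im) := by
  rw [L2a_D2_eq L2a_contDiff_nsq.contDiffAt]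
  have e : (fun w : Cn n => fderiv ℝ nsq w Y) = fun w =>
      (2 : ℝ) * ∑ j, ((w j).re * (Y j).re + (w j).im * (Y j).im) := by
    ext w; exact L2a_fderiv_nsq w Y
  rw [e]
  have h1 : ∀ j : Fin n, HasFDerivAt (fun w : Cn n => (w j).re)
      (Complex.reCLM.comp (ContinuousLinearMap.proj (R := ℝ) (φ := fun _ : Fin n => ℂ) j)) z := fun j =>
    (Complex.reCLM.comp (ContinuousLinearMap.proj (R := ℝ) (φ := fun _ : Fin n => ℂ) j)).hasFDerivAt
  have h2 : ∀ j : Fin n, HasFDerivAt (fun w : Cn n => (w j).im)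
      (Complex.imCLM.comp (ContinuousLinearMap.proj (R := ℝ) (φ := fun _ : Fin n => ℂ) j)) z := fun j =>
    (Complex.imCLM.comp (ContinuousLinearMap.proj (R := ℝ) (φ := fun _ : Fin n => ℂ) j)).hasFDerivAt
  have h3 := (HasFDerivAt.fun_sum (u := Finset.univ) (fun j (_ : j ∈ Finset.univ) =>
    ((h1 j).mul_const (Y j).re).add ((h2 j).mul_const (Y j).im))).const_mul (2 : ℝ)
  have h4 := h3.fderiv
  rw [show (fun w : Cn n => (2 : ℝ) * ∑ j, ((w j).re * (Y j).re + (w j).im * (Y j).im))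
    = (fun w : Cn n => (2 : ℝ) * ∑ j, (((fun w : Cn n => (w j).re * (Y j).re)
      + (fun w : Cn n => (w j).im * (Y j).im)) w)) from by ext w; simp]
  rw [h4]
  simp only [smul_apply, sum_apply, smul_eq_mul]
  congr 1
  apply Finset.sum_congr rfl
  intro j _
  simp
  ring

lemma levi_nsq (z X : Cn n) : levi nsq z X = nsq X := by
  rw [levi_eq_D2 L2a_contDiff_nsq.contDiffAt, L2a_D2_nsq, L2a_D2_nsq, ← mul_add, ← Finset.sum_add_distrib, nsq,
    ← mul_assoc, Finset.mul_sum]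
  apply Finset.sum_congr rfl
  intro j _
  rw [← Complex.normSq_eq_norm_sq, Complex.normSq_apply]
  simp
  ring

/-- The real second order Taylor term: `½ D²u(X,X) = Re Q(X) + levi u(X)` with the holomorphic
quadratic form `Q(X) = ¼ (D²u(X,X) - D²u(iX,iX)) - (i/2) D²u(X,iX)` . -/
theorem half_D2 {u : Cn n → ℝ} {z : Cn n} (hu : ContDiffAt ℝ 2 u z) :
    ∃ Q : Cn n → Cn n → ℂ, (∀ X Y, Q X Y = (1 / 4) * ((D2 u z X Y : ℝ)
        - (D2 u z (Complex.I • X) (Complex.I • Y) : ℝ)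
        - Complex.I * (D2 u z X (Complex.I • Y) : ℝ) - Complex.I * (D2 u z (Complex.I • X) Y : ℝ))) ∧
      (∀ X, (1 / 2) * D2 u z X X = (Q X X).re + levi u z X) ∧
      (∀ (a : ℂ) X Y, Q (a • X) Y = a * Q X Y ∧ Q X (a • Y) = a * Q X Y) ∧
      (∀ X Y Z, Q (X + Y) Z = Q X Z + Q Y Z ∧ Q X (Y + Z) = Q X Y + Q X Z) := by
  refine ⟨fun X Y => (1 / 4) * ((D2 u z X Y : ℝ)
        - (D2 u z (Complex.I • X) (Complex.I • Y) : ℝ)
        - Complex.I * (D2 u z X (Complex.I • Y) : ℝ) - Complex.I * (D2 u z (Complex.I • X) Y : ℝ)),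
    fun X Y => rfl, ?_, ?_, ?_⟩
  · intro X
    rw [levi_eq_D2 hu]
    simp only [Complex.mul_re, Complex.mul_im,
      Complex.sub_re, Complex.sub_im, Complex.ofReal_re, Complex.ofReal_im, Complex.I_re, Complex.I_im,
      Complex.div_re, Complex.div_im, Complex.one_re, Complex.one_im]
    norm_num [Complex.normSq]
    ring
  · intro a X Y
    constructor
    · simp only [L2a_Icsmul a X]
      simp only [L2a_csmul a X]
      simp only [L2a_D2_add_left, L2a_D2_smul_left]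
      push_cast
      conv_rhs => rw [← Complex.re_add_im a]
      ring_nf
      simp only [Complex.I_sq]
      ring
    · simp only [L2a_Icsmul a Y]
      simp only [L2a_csmul a Y]
      simp only [L2a_D2_add_right, L2a_D2_smul_right]
      push_cast
      conv_rhs => rw [← Complex.re_add_im a]
      ring_nf
      simp only [Complex.I_sq]
      ring
  · intro X Y Z
    constructor
    · simp only [smul_add, L2a_D2_add_left]
      push_cast; ring
    · simp only [smul_add, L2a_D2_add_right]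
      push_cast; ring

end HankelSPC
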