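import Pool.Agent.Lib.MP_e1cf54_an.C1a
import Pool.Agent.Lib.MP_e1cf54_an.L2a

/-! Row D1a: Levi polynomial -/

open MeasureTheory Set
open scoped ENNReal NNReal Topology ContDiff

namespace HankelSPC

variable {n : ℕ}

/-- Uniform second order Taylor formula. -/
lemma D1a_taylor (D : Dom n) {ε : ℝ} (hε : 0 < ε) : ∃ r : ℝ, 0 < r ∧ ∀ a w : Cn n,
    ‖w - a‖ ≤ r → |D.ρ w - D.ρ a - fderiv ℝ D.ρ a (w - a) - (1 / 2) * D2 D.ρ a (w - a) (w - a)|
      ≤ ε * ‖w - a‖ ^ 2 := by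
  obtain ⟨r, hr, H⟩ := (Metric.uniformContinuous_iff (α := Cn n)
    (β := Cn n →L[ℝ] Cn n →L[ℝ] ℝ)).mp D.unif ε hε
  refine ⟨r / 2, by positivity, fun a w hw => ?_⟩
  have hd1 : Differentiable ℝ D.ρ := D.smooth.differentiable (by norm_num)
  have hc1 : ContDiff ℝ 1 (fderiv ℝ D.ρ) := D.smooth.fderiv_right (by norm_num)
  have hd2 : Differentiable ℝ (fderiv ℝ D.ρ) := hc1.differentiable (by norm_num)
  have hsymm : ∀ X Y, fderiv ℝ (fderiv ℝ D.ρ) a X Y = fderiv ℝ (fderiv ℝ D.ρ) a Y X := by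
    intro X Y
    exact second_derivative_symmetric (fun y => (hd1 y).hasFDerivAt) (hd2 a).hasFDerivAt X Y
  set T := fderiv ℝ (fderiv ℝ D.ρ) a with hT
  -- first order
  have h1 : ∀ z ∈ Metric.closedBall a (r / 2),
      ‖fderiv ℝ D.ρ z - fderiv ℝ D.ρ a - T (z - a)‖ ≤ ε * ‖z - a‖ := by
    intro z hz
    have h2 := (convex_closedBall a (r / 2)).norm_image_sub_le_of_norm_fderiv_le' (𝕜 := ℝ)
      (f := fderiv ℝ D.ρ) (C := ε) (φ := T) (x := a) (y := z) (fun x _ => hd2 x) ?_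
      (Metric.mem_closedBall_self (by positivity)) hz
    · exact h2
    · intro x hx
      have h3 : dist x a < r := by
        rw [Metric.mem_closedBall] at hx
        linarith
      have h4 := H h3
      exact (le_of_eq (dist_eq_norm _ _).symm).trans h4.le
  -- second order
  set g : Cn n → ℝ := fun z => D.ρ z - fderiv ℝ D.ρ a (z - a) - (1 / 2) * T (z - a) (z - a)
    with hg
  have hgd : ∀ z, HasFDerivAt g (fderiv ℝ D.ρ z - fderiv ℝ D.ρ a - T (z - a)) z := by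
    intro z
    have e1 : HasFDerivAt (fun z : Cn n => z - a) (ContinuousLinearMap.id ℝ (Cn n)) z :=
      (hasFDerivAt_id z).sub_const a
    have e2 : HasFDerivAt (fun z : Cn n => fderiv ℝ D.ρ a (z - a))
        ((fderiv ℝ D.ρ a).comp (ContinuousLinearMap.id ℝ (Cn n))) z :=
      (fderiv ℝ D.ρ a).hasFDerivAt.comp z e1
    have e3 : HasFDerivAt (fun z : Cn n => T (z - a))
        (T.comp (ContinuousLinearMap.id ℝ (Cn n))) z := T.hasFDerivAt.comp z e1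
    have e4 := (e3.clm_apply e1).const_mul (1 / 2 : ℝ)
    have e5 := ((hd1 z).hasFDerivAt.sub e2).sub e4
    refine e5.congr_fderiv ?_
    ext X
    simp only [sub_apply, ContinuousLinearMap.comp_apply, smul_apply, add_apply,
      ContinuousLinearMap.flip_apply, ContinuousLinearMap.id_apply, smul_eq_mul]
    rw [hsymm X (z - a)]
    ring
  have hwb : w ∈ Metric.closedBall a ‖w - a‖ := by
    rw [Metric.mem_closedBall, dist_eq_norm]
  have h5 := (convex_closedBall a ‖w - a‖).norm_image_sub_le_of_norm_hasFDerivWithin_le (𝕜 := ℝ)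
    (f := g) (C := ε * ‖w - a‖) (x := a) (y := w) (fun x _ => (hgd x).hasFDerivWithinAt) ?_
    (Metric.mem_closedBall_self (norm_nonneg _)) hwb
  · simp only [hg, sub_self, map_zero, mul_zero, sub_zero, Real.norm_eq_abs] at h5
    have h6 : D.ρ w - D.ρ a - fderiv ℝ D.ρ a (w - a) - (1 / 2) * D2 D.ρ a (w - a) (w - a)
        = D.ρ w - fderiv ℝ D.ρ a (w - a) - 1 / 2 * T (w - a) (w - a) - D.ρ a := by
      simp only [D2, hT]; ring
    rw [h6]
    refine h5.trans (le_of_eq ?_)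
    ring
  · intro x hx
    have h7 : ‖x - a‖ ≤ ‖w - a‖ := by
      rw [Metric.mem_closedBall, dist_eq_norm] at hx
      exact hx
    have h8 := h1 x (by rw [Metric.mem_closedBall, dist_eq_norm]; linarith)
    refine h8.trans ?_
    gcongr

lemma D1a_D2_le (D : Dom n) (a X Y : Cn n) : |D2 D.ρ a X Y| ≤ D.L * ‖X‖ * ‖Y‖ := by
  have hL : 0 ≤ D.L := by have := D.L_ge; linarith
  have h1 : ‖fderiv ℝ (fderiv ℝ D.ρ) a‖ ≤ D.L := by
    refine norm_fderiv_le_of_lip' ℝ hL ?_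
    exact Filter.Eventually.of_forall fun x => D.lip1 x a
  have h2 := (fderiv ℝ (fderiv ℝ D.ρ) a).le_opNorm₂ X Y
  calc |D2 D.ρ a X Y| ≤ ‖fderiv ℝ (fderiv ℝ D.ρ) a‖ * ‖X‖ * ‖Y‖ := h2
    _ ≤ D.L * ‖X‖ * ‖Y‖ := by gcongr

/-- `F(w) = 2δ(a) - 2 ∂ρ(a)(w-a) - Q_a(w-a)`, `Q_a` from `half_D2`; second order Taylor formula
`ρ(w) = ρ(a) + 2 Re ∂ρ(a)(X) + Re Q(X) + levi ρ a X + o(‖X‖²)`, `X = w - a`, with the `o` uniform by
`D.unif` . -/
theorem exists_leviF (D : Dom n) : ∃ ε₀ c C : ℝ, 0 < ε₀ ∧ 0 < c ∧ 0 < C ∧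
    ∀ a ∈ D.Ω, D.δ a ≤ D.η → ∃ F, LeviF D ε₀ c C a F := by
  have hc0 := D.c_pos
  have hL : 1 ≤ D.L := D.L_ge
  obtain ⟨r, hr, hT⟩ := D1a_taylor D (half_pos hc0)
  refine ⟨r, D.c / 2, 2 + D.L, hr, half_pos hc0, by linarith, fun a ha hda => ?_⟩
  obtain ⟨Q, hQ, hQre, hQs, hQa⟩ := half_D2 (u := D.ρ) (z := a) D.smooth.contDiffAt
  have hδ0 := D.δ_pos ha
  have hQn : ∀ X, ‖Q X X‖ ≤ D.L * ‖X‖ ^ 2 := by
    intro X
    have hI : ‖(Complex.I • X : Cn n)‖ = ‖X‖ := by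
      rw [norm_smul, Complex.norm_I, one_mul]
    have e1 := D1a_D2_le D a X X
    have e2 := D1a_D2_le D a (Complex.I • X) (Complex.I • X)
    have e3 := D1a_D2_le D a X (Complex.I • X)
    have e4 := D1a_D2_le D a (Complex.I • X) X
    rw [hI] at e2 e3 e4
    have n1 : ‖((D2 D.ρ a X X : ℝ) : ℂ)‖ ≤ D.L * ‖X‖ * ‖X‖ := by
      rw [Complex.norm_real]; exact e1
    have n2 : ‖((D2 D.ρ a (Complex.I • X) (Complex.I • X) : ℝ) : ℂ)‖ ≤ D.L * ‖X‖ * ‖X‖ := by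
      rw [Complex.norm_real]; exact e2
    have n3 : ‖Complex.I * ((D2 D.ρ a X (Complex.I • X) : ℝ) : ℂ)‖ ≤ D.L * ‖X‖ * ‖X‖ := by
      rw [norm_mul, Complex.norm_I, one_mul, Complex.norm_real]; exact e3
    have n4 : ‖Complex.I * ((D2 D.ρ a (Complex.I • X) X : ℝ) : ℂ)‖ ≤ D.L * ‖X‖ * ‖X‖ := by
      rw [norm_mul, Complex.norm_I, one_mul, Complex.norm_real]; exact e4
    rw [hQ, norm_mul]
    have h5 : ‖(1 / 4 : ℂ)‖ = 1 / 4 := by norm_num
    rw [h5]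
    have h6 := norm_sub_le (((D2 D.ρ a X X : ℝ) : ℂ)
      - ((D2 D.ρ a (Complex.I • X) (Complex.I • X) : ℝ) : ℂ)
      - Complex.I * ((D2 D.ρ a X (Complex.I • X) : ℝ) : ℂ))
      (Complex.I * ((D2 D.ρ a (Complex.I • X) X : ℝ) : ℂ))
    have h7 := norm_sub_le (((D2 D.ρ a X X : ℝ) : ℂ)
      - ((D2 D.ρ a (Complex.I • X) (Complex.I • X) : ℝ) : ℂ))
      (Complex.I * ((D2 D.ρ a X (Complex.I • X) : ℝ) : ℂ))
    have h8 := norm_sub_le ((D2 D.ρ a X X : ℝ) : ℂ)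
      ((D2 D.ρ a (Complex.I • X) (Complex.I • X) : ℝ) : ℂ)
    nlinarith
  -- the linear and bilinear parts
  let ℓ : Cn n →ₗ[ℂ] ℂ :=
    { toFun := fun X => ell D.ρ a X
      map_add' := fun X Y => ell_add _ _ _ _
      map_smul' := fun c X => ell_smul _ _ _ _ }
  let B : Cn n →ₗ[ℂ] Cn n →ₗ[ℂ] ℂ := LinearMap.mk₂ ℂ Q (fun X Y Z => (hQa X Y Z).1)
    (fun c X Y => (hQs c X Y).1) (fun X Y Z => (hQa X Y Z).2) (fun c X Y => (hQs c X Y).2)
  let B' : Cn n →L[ℂ] Cn n →L[ℂ] ℂ := LinearMap.toContinuousLinearMap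
    ((LinearMap.toContinuousLinearMap : (Cn n →ₗ[ℂ] ℂ) ≃ₗ[ℂ] (Cn n →L[ℂ] ℂ)).toLinearMap ∘ₗ B)
  have hB' : ∀ X Y, B' X Y = Q X Y := fun X Y => rfl
  have hℓ : ∀ X, LinearMap.toContinuousLinearMap ℓ X = ell D.ρ a X := fun X => rfl
  have hFc : ContDiff ℂ ∞ (fun w : Cn n => 2 * (D.δ a : ℂ)
      - 2 * LinearMap.toContinuousLinearMap ℓ (w - a) - B' (w - a) (w - a)) := by
    have e1 : ContDiff ℂ ∞ (fun w : Cn n => w - a) := contDiff_id.sub contDiff_const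
    have e2 : ContDiff ℂ ∞ (fun w : Cn n => LinearMap.toContinuousLinearMap ℓ (w - a)) :=
      (LinearMap.toContinuousLinearMap ℓ).contDiff.comp e1
    have e3 : ContDiff ℂ ∞ (fun w : Cn n => B' (w - a)) := B'.contDiff.comp e1
    exact (contDiff_const.sub (contDiff_const.mul e2)).sub (e3.clm_apply e1)
  simp only [hB', hℓ] at hFc
  have hneg : ∀ w, ell D.ρ a (a - w) = - ell D.ρ a (w - a) := by
    intro w
    have h1 : a - w = (-1 : ℂ) • (w - a) := by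
      rw [neg_one_smul, neg_sub]
    rw [h1, ell_smul]
    ring
  refine ⟨fun w => 2 * (D.δ a : ℂ) - 2 * ell D.ρ a (w - a) - Q (w - a) (w - a),
    hFc.differentiable (by simp), hFc.restrict_scalars ℝ, ?_, ?_, ?_⟩
  · intro w hw
    have h1 := hT a w hw
    have h2 := hQre (w - a)
    have h3 := two_re_ell D.ρ a (w - a)
    have h4 : D.c * ‖w - a‖ ^ 2 ≤ levi D.ρ a (w - a) := by
      refine D.levi_ge a ?_ _
      have h5 : D.δ a = - D.ρ a := rfl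
      rw [abs_le]
      constructor
      · linarith
      · have := D.η_pos
        linarith
    have h5 : D.δ a = - D.ρ a := rfl
    have h6 : (2 * (D.δ a : ℂ) - 2 * ell D.ρ a (w - a) - Q (w - a) (w - a)).re
        = 2 * D.δ a - 2 * (ell D.ρ a (w - a)).re - (Q (w - a) (w - a)).re := by
      simp [Complex.sub_re, Complex.mul_re]
    rw [h6]
    rw [abs_le] at h1
    linarith [h1.1, h1.2]
  · intro w hw
    have h1 := norm_sub_le (2 * (D.δ a : ℂ) - 2 * ell D.ρ a (w - a)) (Q (w - a) (w - a))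
    have h2 := norm_sub_le (2 * (D.δ a : ℂ)) (2 * ell D.ρ a (w - a))
    have h3 := hQn (w - a)
    have h4 : ‖2 * (D.δ a : ℂ)‖ = 2 * D.δ a := by
      rw [norm_mul, Complex.norm_real, Real.norm_eq_abs, abs_of_pos hδ0]
      norm_num
    have h5 : ‖2 * ell D.ρ a (w - a)‖ = 2 * ‖ell D.ρ a (w - a)‖ := by
      rw [norm_mul]; norm_num
    rw [h4, h5] at h2
    rw [hneg, norm_neg]
    have h6 : 0 ≤ ‖ell D.ρ a (w - a)‖ := norm_nonneg _
    have h7 : 0 ≤ ‖w - a‖ ^ 2 := by positivity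
    have h8 : 0 ≤ D.L * D.δ a := by positivity
    have h9 : 0 ≤ D.L * ‖ell D.ρ a (w - a)‖ := by positivity
    show ‖2 * (D.δ a : ℂ) - 2 * ell D.ρ a (w - a) - Q (w - a) (w - a)‖ ≤ _
    nlinarith
  · intro w hw
    have h3 := hQn (w - a)
    have h4 : ‖2 * (D.δ a : ℂ)‖ = 2 * D.δ a := by
      rw [norm_mul, Complex.norm_real, Real.norm_eq_abs, abs_of_pos hδ0]
      norm_num
    have h5 : ‖2 * ell D.ρ a (w - a)‖ = 2 * ‖ell D.ρ a (w - a)‖ := by
      rw [norm_mul]; norm_num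
    rw [hneg, norm_neg]
    set F := 2 * (D.δ a : ℂ) - 2 * ell D.ρ a (w - a) - Q (w - a) (w - a) with hF
    have h6 : 2 * ell D.ρ a (w - a) = 2 * (D.δ a : ℂ) - F - Q (w - a) (w - a) := by
      rw [hF]; ring
    have h1 := norm_sub_le (2 * (D.δ a : ℂ) - F) (Q (w - a) (w - a))
    have h2 := norm_sub_le (2 * (D.δ a : ℂ)) F
    rw [← h6, h5] at h1
    rw [h4] at h2
    have h6 : 0 ≤ ‖F‖ := norm_nonneg _
    have h7 : 0 ≤ ‖w - a‖ ^ 2 := by positivity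
    have h8 : 0 ≤ D.L * D.δ a := by positivity
    have h9 : 0 ≤ D.L * ‖F‖ := by positivity
    have h10 : 0 ≤ D.L * ‖w - a‖ ^ 2 := by positivity
    nlinarith

end HankelSPC
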