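import Pool.Agent.Lib.MP_e1cf54_an.C3
import Pool.Agent.Lib.MP_e1cf54_an.B10b

/-! Row D1b: comparison, sup bound -/

open MeasureTheory Set
open scoped ENNReal NNReal Topology ContDiff

namespace HankelSPC

variable {n : ℕ}

/-- On `Ω` near `a`, `|F| ≈ qd`. -/
theorem LeviF.comparable {D : Dom n} {ε₀ c C : ℝ} (hc : 0 < c) (hC : 0 < C) :
    ∃ C' : ℝ, 1 ≤ C' ∧ ∀ a ∈ D.Ω, ∀ F, LeviF D ε₀ c C a F → ∀ w ∈ D.Ω, ‖w - a‖ ≤ ε₀ →
      ‖F w‖ ≤ C' * D.qd a w ∧ D.qd a w ≤ C' * ‖F w‖ ∧ F w ≠ 0 := by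
  refine ⟨1 + C + 1 / c + C * (2 + 1 / c), ?_, ?_⟩
  · have h1 : 0 < 1 / c := by positivity
    have h2 : 0 < C * (2 + 1 / c) := by positivity
    linarith
  intro a ha F hF w hw hwa
  have hδa : 0 < D.δ a := by
    unfold Dom.δ
    have : D.ρ a < 0 := ha
    linarith
  have hδw : 0 < D.δ w := by
    unfold Dom.δ
    have : D.ρ w < 0 := hw
    linarith
  have h1 := hF.re_ge w hwa
  have h2 := hF.norm_le w hwa
  have h3 := hF.ell_le w hwa
  have h4 : (F w).re ≤ ‖F w‖ := Complex.re_le_norm _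
  have hc1 : 0 < 1 / c := by positivity
  set x := ‖F w‖ with hx
  set y := ‖w - a‖ ^ 2 with hy
  set e := ‖ell D.ρ a (a - w)‖ with he
  have hx0 : 0 ≤ x := norm_nonneg _
  have hy0 : 0 ≤ y := by positivity
  have he0 : 0 ≤ e := norm_nonneg _
  have hρw : - D.ρ w = D.δ w := rfl
  have h5 : D.δ a + D.δ w + c * y ≤ x := by linarith
  have hcy : 0 ≤ c * y := by positivity
  have h6 : y ≤ 1 / c * x := by
    have : c * y ≤ x := by linarith
    rw [one_div, ← div_eq_inv_mul, le_div_iff₀ hc]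
    linarith
  have h7 : e ≤ C * (2 + 1 / c) * x := by
    have : x + D.δ a + y ≤ (2 + 1 / c) * x := by linarith
    calc e ≤ C * (x + D.δ a + y) := h3
      _ ≤ C * ((2 + 1 / c) * x) := by gcongr
      _ = _ := by ring
  have hqd : D.qd a w = D.δ a + D.δ w + y + e := by
    unfold Dom.qd
    rw [hy, norm_sub_rev a w]
  rw [hqd]
  refine ⟨?_, ?_, ?_⟩
  · have h8 : 0 ≤ D.δ a + D.δ w + y + e := by linarith
    have h9 : x ≤ C * (D.δ a + D.δ w + y + e) := by
      refine h2.trans ?_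
      gcongr
      linarith
    have h10 : 0 ≤ (1 + 1 / c + C * (2 + 1 / c)) * (D.δ a + D.δ w + y + e) := by positivity
    nlinarith
  · have h8 : 0 ≤ C * x := by positivity
    nlinarith
  · intro h8
    have h9 : x = 0 := by rw [hx, h8, norm_zero]
    linarith

/-- Sup bound at the centre for weakly holomorphic functions on a ball. -/
theorem weak_hol_sup {r : ℝ} (hr : 0 < r) : ∃ C : ℝ, 0 < C ∧ ∀ (w : Cn n) (u : Cn n → ℂ),
    AEStronglyMeasurable u (volume.restrict (Metric.ball w r)) →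
    WeakDbar (Metric.ball w r) u (fun _ _ => 0) →
    ∫⁻ z in Metric.ball w r, ENNReal.ofReal (‖u z‖ ^ 2) ≠ ⊤ →
    ∃ g : Cn n → ℂ, DifferentiableOn ℂ g (Metric.ball w r) ∧
      u =ᵐ[volume.restrict (Metric.ball w r)] g ∧
      ENNReal.ofReal (‖g w‖ ^ 2)
        ≤ ENNReal.ofReal C * ∫⁻ z in Metric.ball w r, ENNReal.ofReal (‖u z‖ ^ 2) := by
  set V : ℝ≥0∞ := volume (Metric.ball (0 : Cn n) r) with hV
  have hV0 : V ≠ 0 := (Metric.measure_ball_pos volume (0 : Cn n) hr).ne'
  have hVt : V ≠ ⊤ := measure_ball_lt_top.ne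
  refine ⟨(V.toReal)⁻¹, inv_pos.mpr (ENNReal.toReal_pos hV0 hVt), fun w u hu hd hfin => ?_⟩
  have hopen : IsOpen (Metric.ball w r) := Metric.isOpen_ball
  have hloc : LocL2 (Metric.ball w r) u := by
    refine locL2_of_lintegral (φ := fun _ => 0) hopen continuousOn_const hu ?_
    simpa using hfin
  obtain ⟨g, hg, hug⟩ := weyl hopen hloc hd
  refine ⟨g, hg, hug, ?_⟩
  have himg : (fun X => w + X) '' (Metric.ball (0 : Cn n) r) = Metric.ball w r := by
    ext y
    simp only [mem_image, Metric.mem_ball, dist_eq_norm, sub_zero]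
    constructor
    · rintro ⟨X, hX, rfl⟩
      rwa [add_sub_cancel_left]
    · intro hy
      exact ⟨y - w, hy, by abel⟩
  have hbal : Balanced ℂ (Metric.ball (0 : Cn n) r) := balanced_ball_zero
  have h1 := sq_mean_value hbal Metric.isOpen_ball hVt (g := g) (z := w) (by rw [himg]; exact hg)
  have h2 : ∫⁻ X in Metric.ball (0 : Cn n) r, ENNReal.ofReal (‖g (w + X)‖ ^ 2)
      = ∫⁻ z in Metric.ball w r, ENNReal.ofReal (‖u z‖ ^ 2) := by
    have h3 : ∫⁻ z in Metric.ball w r, ENNReal.ofReal (‖u z‖ ^ 2)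
        = ∫⁻ z in Metric.ball w r, ENNReal.ofReal (‖g z‖ ^ 2) := by
      refine lintegral_congr_ae ?_
      filter_upwards [hug] with z hz
      rw [hz]
    rw [h3, ← lintegral_indicator measurableSet_ball, ← lintegral_indicator measurableSet_ball,
      ← lintegral_add_left_eq_self
        ((Metric.ball w r).indicator fun z => ENNReal.ofReal (‖g z‖ ^ 2)) w]
    refine lintegral_congr fun X => ?_
    by_cases hX : X ∈ Metric.ball (0 : Cn n) r
    · have hX' : w + X ∈ Metric.ball w r := by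
        rw [mem_ball_zero_iff] at hX
        rw [Metric.mem_ball, dist_eq_norm, add_sub_cancel_left]
        exact hX
      rw [indicator_of_mem hX, indicator_of_mem hX']
    · have hX' : w + X ∉ Metric.ball w r := by
        rw [mem_ball_zero_iff] at hX
        rw [Metric.mem_ball, dist_eq_norm, add_sub_cancel_left]
        exact hX
      rw [indicator_of_notMem hX, indicator_of_notMem hX']
  rw [h2] at h1
  have h4 : ENNReal.ofReal (V.toReal)⁻¹ = V⁻¹ := by
    rw [ENNReal.ofReal_inv_of_pos (ENNReal.toReal_pos hV0 hVt), ENNReal.ofReal_toReal hVt]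
  rw [h4]
  calc ENNReal.ofReal (‖g w‖ ^ 2) = V⁻¹ * (ENNReal.ofReal (‖g w‖ ^ 2) * V) := by
        rw [mul_comm (ENNReal.ofReal _) V, ← mul_assoc, ENNReal.inv_mul_cancel hV0 hVt, one_mul]
    _ ≤ _ := by gcongr

end HankelSPC
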