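import Pool.Agent.Lib.MP_e1cf54_an.Defs

/-! Row D2a: cutoff -/

open MeasureTheory Set
open scoped ENNReal NNReal Topology ContDiff

namespace HankelSPC

variable {n : ℕ}

lemma chi_contDiff (ε : ℝ) (a : Cn n) : ContDiff ℝ ∞ (chi ε a) := by
  have h : ContDiff ℝ ∞ fun w : Cn n => (1 / ε) • (w - a) := by fun_prop
  exact (ContDiffBump.contDiff (n := (⊤ : ℕ∞)) _).comp h

private lemma D2a_norm {ε : ℝ} (hε : 0 < ε) (a w : Cn n) :
    ‖(1 / ε) • (w - a)‖ = ‖w - a‖ / ε := by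
  rw [norm_smul, Real.norm_eq_abs, abs_of_pos (by positivity)]
  ring

lemma chi_one {ε : ℝ} (hε : 0 < ε) {a w : Cn n} (h : ‖w - a‖ ≤ ε / 2) : chi ε a w = 1 := by
  unfold chi
  apply ContDiffBump.one_of_mem_closedBall
  rw [mem_closedBall_zero_iff, D2a_norm hε, div_le_iff₀ hε]
  show ‖w - a‖ ≤ 1 / 2 * ε
  linarith

lemma chi_zero {ε : ℝ} (hε : 0 < ε) {a w : Cn n} (h : ε ≤ ‖w - a‖) : chi ε a w = 0 := by
  unfold chi
  apply ContDiffBump.zero_of_le_dist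
  rw [dist_zero_right, D2a_norm hε, le_div_iff₀ hε]
  show 1 * ε ≤ ‖w - a‖
  linarith

lemma chi_bound {ε : ℝ} (hε : 0 < ε) : ∃ C : ℝ, ∀ (a w : Cn n), 0 ≤ chi ε a w ∧ chi ε a w ≤ 1 ∧
    ‖fderiv ℝ (chi ε a) w‖ ≤ C := by
  set f : ContDiffBump (0 : Cn n) := ⟨1 / 2, 1, by norm_num, by norm_num⟩ with hf
  obtain ⟨K, hK⟩ := ContDiff.lipschitzWith_of_hasCompactSupport (𝕂 := ℝ) (n := (1 : ℕ∞))
    f.hasCompactSupport f.contDiff (by norm_num)
  refine ⟨K * (1 / ε), fun a w => ⟨f.nonneg, f.le_one, ?_⟩⟩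
  have hL : LipschitzWith (K * Real.toNNReal (1 / ε)) (chi ε a) := by
    apply LipschitzWith.of_dist_le_mul
    intro x y
    have h1 := hK.dist_le_mul ((1 / ε) • (x - a)) ((1 / ε) • (y - a))
    have h2 : dist ((1 / ε) • (x - a)) ((1 / ε) • (y - a)) = 1 / ε * dist x y := by
      rw [dist_smul₀, dist_sub_right, Real.norm_eq_abs, abs_of_pos (by positivity)]
    rw [h2] at h1
    calc dist (chi ε a x) (chi ε a y) ≤ K * (1 / ε * dist x y) := h1
      _ = _ := by rw [NNReal.coe_mul, Real.coe_toNNReal _ (by positivity)]; ring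
  have := norm_fderiv_le_of_lipschitz ℝ (x₀ := w) hL
  rw [NNReal.coe_mul, Real.coe_toNNReal _ (by positivity)] at this
  exact this

end HankelSPC
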