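import Pool.Agent.Lib.MP_e1cf54_an.B11c
import Pool.Agent.Lib.MP_e1cf54_an.B2b
import Pool.Agent.Lib.MP_e1cf54_an.D2a
import Pool.Agent.Lib.MP_e1cf54_an.L1b

/-! Row D2b: solving for the correction -/

open MeasureTheory Set
open scoped ENNReal NNReal Topology ContDiff

namespace HankelSPC

variable {n : ℕ}

lemma D2b_two_le : (2 : WithTop ℕ∞) ≤ ((⊤ : ℕ∞) : WithTop ℕ∞) := by
  exact WithTop.coe_le_coe.2 (le_top : (2 : ℕ∞) ≤ ⊤)

lemma D2b_norm_ee (j : Fin n) : ‖(ee j : Cn n)‖ ≤ 1 := by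
  rw [pi_norm_le_iff_of_nonneg zero_le_one]
  intro i
  unfold ee
  by_cases h : i = j
  · subst h
    simp
  · rw [Pi.single_eq_of_ne h]
    simp

lemma D2b_contDiff_dzb {u : Cn n → ℂ} (hu : ContDiff ℝ ∞ u) (X : Cn n) :
    ContDiff ℝ ∞ (fun z => dzb u z X) := by
  have h1 : ContDiff ℝ ∞ (fderiv ℝ u) := hu.fderiv_right (by simp)
  unfold dzb
  exact contDiff_const.mul ((h1.clm_apply contDiff_const).add
    (contDiff_const.mul (h1.clm_apply contDiff_const)))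

lemma D2b_dzb_congr {u v : Cn n → ℂ} {z : Cn n} (h : u =ᶠ[𝓝 z] v) (X : Cn n) :
    dzb u z X = dzb v z X := by
  unfold dzb
  rw [h.fderiv_eq]

lemma D2b_dzb_zero (z X : Cn n) : dzb (fun _ : Cn n => (0 : ℂ)) z X = 0 := by
  unfold dzb
  simp

/-- `∂̄∂̄ = 0` for `C²` functions -/
lemma D2b_symm {v : Cn n → ℂ} {z : Cn n} (hv : ContDiffAt ℝ 2 v z) (X Y : Cn n) :
    dzb (fun w => dzb v w X) z Y = dzb (fun w => dzb v w Y) z X := by
  have h1 : DifferentiableAt ℝ (fderiv ℝ v) z :=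
    (hv.fderiv_right (m := 1) (by norm_num)).differentiableAt (by norm_num)
  have hsym : ∀ A B : Cn n, fderiv ℝ (fderiv ℝ v) z A B = fderiv ℝ (fderiv ℝ v) z B A := by
    intro A B
    exact (hv.isSymmSndFDerivAt (by simp)) A B
  have h2 : ∀ A B : Cn n, fderiv ℝ (fun w => dzb v w A) z B =
      (1 / 2) * (fderiv ℝ (fderiv ℝ v) z B A +
        Complex.I * fderiv ℝ (fderiv ℝ v) z B (Complex.I • A)) := by
    intro A B
    have h3 : ∀ A : Cn n, HasFDerivAt (fun w => fderiv ℝ v w A)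
        ((fderiv ℝ (fderiv ℝ v) z).flip A) z := by
      intro A
      have := h1.hasFDerivAt.clm_apply (hasFDerivAt_const A z)
      rwa [ContinuousLinearMap.comp_zero, zero_add] at this
    have h4 := ((h3 A).add ((h3 (Complex.I • A)).const_mul Complex.I)).const_mul (1 / 2 : ℂ)
    have h5 : HasFDerivAt (fun w => dzb v w A) ((1 / 2 : ℂ) •
        ((fderiv ℝ (fderiv ℝ v) z).flip A + Complex.I •
          (fderiv ℝ (fderiv ℝ v) z).flip (Complex.I • A))) z := h4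
    rw [h5.fderiv]
    simp
    ring
  unfold dzb at h2 ⊢
  rw [h2, h2, h2, h2, hsym Y X, hsym Y (Complex.I • X), hsym (Complex.I • Y) X,
    hsym (Complex.I • Y) (Complex.I • X)]
  ring

/-- `On Ω, in terms of F`: the form is `C¹`, closed and bounded -/
lemma D2b_local {ε₀ c C : ℝ} {D : Dom n} (hε₀ : 0 < ε₀) (hc : 0 < c) (N : ℕ) {t₀ : ℝ}
    (ht₀ : t₀ ≤ c * ε₀ ^ 2 / 256) {a : Cn n} (ha : a ∈ D.Ω) {F : Cn n → ℂ}
    (hF : LeviF D ε₀ c C a F) {z : Cn n} (hz : z ∈ D.out' t₀) :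
    (∃ v : Cn n → ℂ, ContDiffAt ℝ ∞ v z ∧ ∀ j, (fun w => ((F w)⁻¹) ^ N *
      dzb (fun w => (chi ε₀ a w : ℂ)) w (ee j)) =ᶠ[𝓝 z] fun w => dzb v w (ee j)) ∧
    ∀ j, ‖((F z)⁻¹) ^ N * dzb (fun w => (chi ε₀ a w : ℂ)) z (ee j)‖ ≤
      (8 / (c * ε₀ ^ 2)) ^ N * ‖fderiv ℝ (chi ε₀ a) z‖ := by
  have hchi : ContDiff ℝ ∞ (fun w => (chi ε₀ a w : ℂ)) :=
    Complex.ofRealCLM.contDiff.comp (chi_contDiff ε₀ a)
  have hδ : 0 < D.δ a := by
    have h1 : D.ρ a < 0 := ha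
    have h2 : D.δ a = - D.ρ a := rfl
    rw [h2]
    linarith
  have hM : 0 < 8 / (c * ε₀ ^ 2) := by positivity
  have hzero : ∀ (r : ℝ), (fun w => (chi ε₀ a w : ℂ)) =ᶠ[𝓝 z] (fun _ => (r : ℂ)) →
      (∃ v : Cn n → ℂ, ContDiffAt ℝ ∞ v z ∧ ∀ j, (fun w => ((F w)⁻¹) ^ N *
        dzb (fun w => (chi ε₀ a w : ℂ)) w (ee j)) =ᶠ[𝓝 z] fun w => dzb v w (ee j)) ∧
      ∀ j, ‖((F z)⁻¹) ^ N * dzb (fun w => (chi ε₀ a w : ℂ)) z (ee j)‖ ≤
        (8 / (c * ε₀ ^ 2)) ^ N * ‖fderiv ℝ (chi ε₀ a) z‖ := by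
    intro r hr
    have h0 : ∀ j, ∀ᶠ w in 𝓝 z, dzb (fun w => (chi ε₀ a w : ℂ)) w (ee j) = 0 := by
      intro j
      filter_upwards [hr.eventuallyEq_nhds] with w hw
      rw [D2b_dzb_congr hw]
      unfold dzb
      simp
    refine ⟨⟨fun _ => 0, contDiffAt_const, fun j => ?_⟩, fun j => ?_⟩
    · filter_upwards [h0 j] with w hw
      rw [hw, mul_zero, D2b_dzb_zero]
    · rw [(h0 j).self_of_nhds, mul_zero, norm_zero]
      positivity
  by_cases h1 : ‖z - a‖ < ε₀ / 2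
  · apply hzero 1
    have h2 : ∀ᶠ w in 𝓝 z, ‖w - a‖ < ε₀ / 2 :=
      (continuous_id.sub continuous_const).norm.continuousAt.eventually (gt_mem_nhds h1)
    filter_upwards [h2] with w hw
    rw [chi_one hε₀ hw.le]
  by_cases h2 : ε₀ < ‖z - a‖
  · apply hzero 0
    have h3 : ∀ᶠ w in 𝓝 z, ε₀ < ‖w - a‖ :=
      (continuous_id.sub continuous_const).norm.continuousAt.eventually (lt_mem_nhds h2)
    filter_upwards [h3] with w hw
    rw [chi_zero hε₀ hw.le]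
  push Not at h1 h2
  -- the shell
  have hre : c * ε₀ ^ 2 / 8 ≤ (F z).re := by
    have h3 := hF.re_ge z h2
    have h4 : D.ρ z < t₀ := hz
    have h5 : (ε₀ / 2) ^ 2 ≤ ‖z - a‖ ^ 2 := by
      apply pow_le_pow_left₀ (by positivity) h1
    have h6 : c * (ε₀ / 2) ^ 2 ≤ c * ‖z - a‖ ^ 2 := mul_le_mul_of_nonneg_left h5 hc.le
    have h7 : 0 < c * ε₀ ^ 2 := by positivity
    nlinarith
  have hcε : 0 < c * ε₀ ^ 2 / 8 := by positivity
  have hFn : c * ε₀ ^ 2 / 8 ≤ ‖F z‖ := hre.trans ((le_abs_self _).trans (Complex.abs_re_le_norm _))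
  have hF0 : F z ≠ 0 := norm_pos_iff.1 (hcε.trans_le hFn)
  have hFev : ∀ᶠ w in 𝓝 z, F w ≠ 0 := hF.smooth.continuous.continuousAt.eventually_ne hF0
  have hG : ∀ w, F w ≠ 0 → DifferentiableAt ℂ (fun w => ((F w)⁻¹) ^ N) w := fun w hw =>
    ((hF.hol w).inv hw).pow N
  have hGs : ContDiffAt ℝ ∞ (fun w => ((F w)⁻¹) ^ N) z :=
    (hF.smooth.contDiffAt.inv hF0).pow N
  refine ⟨⟨fun w => ((F w)⁻¹) ^ N * (chi ε₀ a w : ℂ), hGs.mul hchi.contDiffAt, fun j => ?_⟩,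
    fun j => ?_⟩
  · filter_upwards [hFev] with w hw
    have hG1 := hG w hw
    rw [dzb_mul (hG1.restrictScalars ℝ) (hchi.differentiable (by simp) w),
      (dzb_comp_mul hG1 (ee j)).1, mul_zero, add_zero]
  · rw [norm_mul, norm_pow, norm_inv]
    have h3 : ‖F z‖⁻¹ ≤ 8 / (c * ε₀ ^ 2) := by
      rw [inv_le_comm₀ (hcε.trans_le hFn) hM, inv_div]
      exact hFn
    have h4 : ‖dzb (fun w => (chi ε₀ a w : ℂ)) z (ee j)‖ ≤ ‖fderiv ℝ (chi ε₀ a) z‖ := by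
      rw [dzb_ofReal ((chi_contDiff ε₀ a).differentiable (by simp) z), RCLike.norm_conj]
      calc ‖ell (chi ε₀ a) z (ee j)‖ ≤ ‖fderiv ℝ (chi ε₀ a) z‖ * ‖(ee j : Cn n)‖ :=
            norm_ell_le _ _ _
        _ ≤ ‖fderiv ℝ (chi ε₀ a) z‖ * 1 :=
            mul_le_mul_of_nonneg_left (D2b_norm_ee j) (norm_nonneg _)
        _ = _ := mul_one _
    exact mul_le_mul (pow_le_pow_left₀ (by positivity) h3 N) h4 (norm_nonneg _) (by positivity)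

/-- On the shell `ε₀/2 ≤ ‖w-a‖ ≤ ε₀` inside `{ρ < t₀}`, `Re F ≥ δ(a) - t₀ + cε₀²/4 ≥ cε₀²/8` if
`t₀ ≤ cε₀²/8`, so the form `F^{-N} ∂̄χ` is bounded and `C¹` on `out' t₀`, closed in the classical
sense (`F` holomorphic), hence weakly closed (`weakClosed_of_contDiffOn`); apply `dbar_outer`.
Moreover `Re F ≥ cε₀²/32` for `‖w - a‖ ≥ ε₀/4`, `w ∈ out' t₀`, if `t₀ ≤ cε₀²/32`. -/
theorem atom_solve (D : Dom n) (hD : D.DbarProp) {ε₀ c C : ℝ} (hε₀ : 0 < ε₀) (hc : 0 < c) (hC : 0 < C) (N : ℕ) :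
    ∃ t₀ C' : ℝ, 0 < t₀ ∧ t₀ ≤ D.η / 2 ∧ t₀ ≤ c * ε₀ ^ 2 / 256 ∧ 0 < C' ∧
      ∀ a ∈ D.Ω, ∀ F, LeviF D ε₀ c C a F →
      ∃ u : Cn n → ℂ, AEStronglyMeasurable u (volume.restrict (D.out' t₀)) ∧
        WeakDbar (D.out' t₀) u
          (fun z j => ((F z)⁻¹) ^ N * dzb (fun w => (chi ε₀ a w : ℂ)) z (ee j)) ∧
        ∫⁻ z in D.out' t₀, ENNReal.ofReal (‖u z‖ ^ 2) ≤ ENNReal.ofReal C' := by
  obtain ⟨C₁, hC₁, hdbar⟩ := D.dbar_outer hD
  obtain ⟨Cχ, hCχ⟩ := chi_bound (n := n) hε₀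
  set t₀ := min (D.η / 2) (c * ε₀ ^ 2 / 256) with ht₀
  have ht0 : 0 < t₀ := lt_min (by linarith [D.η_pos]) (by positivity)
  have ht1 : t₀ ≤ D.η / 2 := min_le_left _ _
  have ht2 : t₀ ≤ c * ε₀ ^ 2 / 256 := min_le_right _ _
  set K : ℝ := ∑ _j : Fin n, ((8 / (c * ε₀ ^ 2)) ^ N * Cχ) ^ 2 with hK
  have hK0 : 0 ≤ K := Finset.sum_nonneg fun _ _ => sq_nonneg _
  set V := (volume (D.out' t₀)).toReal with hV
  have hVt : volume (D.out' t₀) ≠ ⊤ :=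
    (D.volume_out_lt_top (by linarith [D.η_lt])).ne
  have hV0 : 0 ≤ V := ENNReal.toReal_nonneg
  refine ⟨t₀, C₁ * (K * V) + 1, ht0, ht1, ht2, by positivity, fun a ha F hF => ?_⟩
  set β : Cn n → Fin n → ℂ :=
    fun z j => ((F z)⁻¹) ^ N * dzb (fun w => (chi ε₀ a w : ℂ)) z (ee j) with hβ
  have hopen := D.isOpen_out t₀
  have hsm : ∀ j, ContDiffOn ℝ 1 (fun z => β z j) (D.out' t₀) := by
    intro j z hz
    obtain ⟨v, hv, hvj⟩ := (D2b_local hε₀ hc N ht2 ha hF hz).1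
    have h1 : ContDiffAt ℝ 1 (fun w => dzb v w (ee j)) z := by
      have h2 : ContDiffAt ℝ 1 (fderiv ℝ v) z :=
        hv.fderiv_right (by rw [one_add_one_eq_two]; exact D2b_two_le)
      unfold dzb
      exact contDiffAt_const.mul ((h2.clm_apply contDiffAt_const).add
        (contDiffAt_const.mul (h2.clm_apply contDiffAt_const)))
    exact (h1.congr_of_eventuallyEq (hvj j)).contDiffWithinAt
  have hcl : WeakClosed (D.out' t₀) β := by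
    apply weakClosed_of_contDiffOn hopen hsm
    intro z hz j k
    obtain ⟨v, hv, hvj⟩ := (D2b_local hε₀ hc N ht2 ha hF hz).1
    rw [D2b_dzb_congr (hvj j), D2b_dzb_congr (hvj k)]
    exact D2b_symm (hv.of_le D2b_two_le) (ee j) (ee k)
  have hbd : ∀ z ∈ D.out' t₀, ∑ j, ‖β z j‖ ^ 2 ≤ K := by
    intro z hz
    apply Finset.sum_le_sum
    intro j _
    have h1 := (D2b_local hε₀ hc N ht2 ha hF hz).2 j
    have h2 : ‖β z j‖ ≤ (8 / (c * ε₀ ^ 2)) ^ N * Cχ :=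
      h1.trans (mul_le_mul_of_nonneg_left (hCχ a z).2.2 (by positivity))
    exact pow_le_pow_left₀ (norm_nonneg _) h2 2
  have hint : ∫⁻ z in D.out' t₀, ENNReal.ofReal (∑ j, ‖β z j‖ ^ 2) ≤
      ENNReal.ofReal K * volume (D.out' t₀) := by
    calc ∫⁻ z in D.out' t₀, ENNReal.ofReal (∑ j, ‖β z j‖ ^ 2)
        ≤ ∫⁻ _z in D.out' t₀, ENNReal.ofReal K :=
          setLIntegral_mono' hopen.measurableSet
            (fun z hz => ENNReal.ofReal_le_ofReal (hbd z hz))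
      _ = ENNReal.ofReal K * volume (D.out' t₀) := by
          rw [setLIntegral_const]
  obtain ⟨u, hu1, hu2, hu3⟩ := hdbar t₀ ht0.le ht1 β
    (fun j => (hsm j).continuousOn.aestronglyMeasurable hopen.measurableSet) hcl
    (ne_top_of_le_ne_top (ENNReal.mul_ne_top ENNReal.ofReal_ne_top hVt) hint)
  refine ⟨u, hu1, hu2, hu3.trans ?_⟩
  calc ENNReal.ofReal C₁ * ∫⁻ z in D.out' t₀, ENNReal.ofReal (∑ j, ‖β z j‖ ^ 2)
      ≤ ENNReal.ofReal C₁ * (ENNReal.ofReal K * volume (D.out' t₀)) := by gcongr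
    _ = ENNReal.ofReal (C₁ * (K * V)) := by
        rw [ENNReal.ofReal_mul hC₁.le, ENNReal.ofReal_mul hK0, hV, ENNReal.ofReal_toReal hVt]
    _ ≤ ENNReal.ofReal (C₁ * (K * V) + 1) := ENNReal.ofReal_le_ofReal (by linarith)

end HankelSPC
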