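import Pool.Agent.Lib.MP_e1cf54_an.D1a
import Pool.Agent.Lib.MP_e1cf54_an.D1b
import Pool.Agent.Lib.MP_e1cf54_an.D2b

/-! Row D3: atoms. -/

open MeasureTheory Set
open scoped ENNReal NNReal Topology ContDiff

namespace HankelSPC

variable {n : ℕ}

lemma D3_chi_eventually {ε₀ : ℝ} (hε₀ : 0 < ε₀) {a w : Cn n} (h : ε₀ < ‖w - a‖) :
    ∀ᶠ z in 𝓝 w, chi ε₀ a z = 0 := by
  have ho : IsOpen {z : Cn n | ε₀ < ‖z - a‖} :=
    isOpen_lt continuous_const (continuous_id.sub continuous_const).norm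
  filter_upwards [ho.mem_nhds h] with z hz
  exact chi_zero hε₀ (le_of_lt hz)

lemma D3_contDiffAt {ε₀ : ℝ} (hε₀ : 0 < ε₀) {a : Cn n} {F : Cn n → ℂ} (hF : ContDiff ℝ ∞ F)
    (N : ℕ) {w : Cn n} (hw : ‖w - a‖ ≤ ε₀ → F w ≠ 0) :
    ContDiffAt ℝ 1 (fun z => ((F z)⁻¹) ^ N * (chi ε₀ a z : ℂ)) w := by
  rcases le_or_gt ‖w - a‖ ε₀ with h | h
  · have h1 : ContDiffAt ℝ 1 F w := (hF.of_le (by exact_mod_cast le_top)).contDiffAt
    have h2 : ContDiffAt ℝ 1 (fun z => (F z)⁻¹) w := h1.inv (hw h)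
    have h3 : ContDiff ℝ 1 (fun z => (chi ε₀ a z : ℂ)) :=
      Complex.ofRealCLM.contDiff.comp ((chi_contDiff ε₀ a).of_le (by exact_mod_cast le_top))
    exact (h2.pow N).mul h3.contDiffAt
  · have h1 : (fun z => ((F z)⁻¹) ^ N * (chi ε₀ a z : ℂ)) =ᶠ[𝓝 w] fun _ => 0 := by
      filter_upwards [D3_chi_eventually hε₀ h] with z hz
      simp [hz]
    exact contDiffAt_const.congr_of_eventuallyEq h1

lemma D3_dzb {ε₀ : ℝ} (hε₀ : 0 < ε₀) {a : Cn n} {F : Cn n → ℂ}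
    (hFh : Differentiable ℂ F) (N : ℕ) {w : Cn n} (hw : ‖w - a‖ ≤ ε₀ → F w ≠ 0) (X : Cn n) :
    dzb (fun z => ((F z)⁻¹) ^ N * (chi ε₀ a z : ℂ)) w X
      = ((F w)⁻¹) ^ N * dzb (fun z => (chi ε₀ a z : ℂ)) w X := by
  rcases le_or_gt ‖w - a‖ ε₀ with h | h
  · have h2 : DifferentiableAt ℂ (fun z => ((F z)⁻¹) ^ N) w := ((hFh w).inv (hw h)).pow N
    have h3 : ContDiff ℝ 1 (fun z => (chi ε₀ a z : ℂ)) :=
      Complex.ofRealCLM.contDiff.comp ((chi_contDiff ε₀ a).of_le (by exact_mod_cast le_top))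
    have h4 : DifferentiableAt ℝ (fun z => (chi ε₀ a z : ℂ)) w :=
      (h3.differentiable (by norm_num)) w
    rw [dzb_mul (h2.restrictScalars ℝ) h4, (dzb_comp_mul h2 X).1]
    ring
  · have h1 : (fun z => ((F z)⁻¹) ^ N * (chi ε₀ a z : ℂ)) =ᶠ[𝓝 w] fun _ => 0 := by
      filter_upwards [D3_chi_eventually hε₀ h] with z hz
      simp [hz]
    have h2 : (fun z => (chi ε₀ a z : ℂ)) =ᶠ[𝓝 w] fun _ => 0 := by
      filter_upwards [D3_chi_eventually hε₀ h] with z hz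
      simp [hz]
    simp only [dzb, h1.fderiv_eq, h2.fderiv_eq]
    simp

lemma D3_weak {ε₀ : ℝ} (hε₀ : 0 < ε₀) {a : Cn n} {F : Cn n → ℂ} (hF : ContDiff ℝ ∞ F)
    (hFh : Differentiable ℂ F) (N : ℕ) {W : Set (Cn n)} (hW : IsOpen W)
    (hFW : ∀ w ∈ W, ‖w - a‖ ≤ ε₀ → F w ≠ 0) {u : Cn n → ℂ} (hu : LocL2 W u)
    (hdu : WeakDbar W u
      (fun z j => ((F z)⁻¹) ^ N * dzb (fun w => (chi ε₀ a w : ℂ)) z (ee j))) :
    WeakDbar W (fun z => ((F z)⁻¹) ^ N * (chi ε₀ a z : ℂ) - u z) (fun _ _ => 0) := by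
  have h1 : ContDiffOn ℝ 1 (fun z => ((F z)⁻¹) ^ N * (chi ε₀ a z : ℂ)) W := fun w hw =>
    (D3_contDiffAt hε₀ hF N (hFW w hw)).contDiffWithinAt
  have h2 : ContinuousOn (fderiv ℝ fun z => ((F z)⁻¹) ^ N * (chi ε₀ a z : ℂ)) W :=
    h1.continuousOn_fderiv_of_isOpen hW le_rfl
  have h3 : ∀ j, ContinuousOn
      (fun z => ((F z)⁻¹) ^ N * dzb (fun w => (chi ε₀ a w : ℂ)) z (ee j)) W := by
    intro j
    have h4 : ContinuousOn
        (fun z => dzb (fun z => ((F z)⁻¹) ^ N * (chi ε₀ a z : ℂ)) z (ee j)) W := by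
      unfold dzb
      exact continuousOn_const.mul ((h2.clm_apply continuousOn_const).add
        (continuousOn_const.mul (h2.clm_apply continuousOn_const)))
    refine h4.congr fun z hz => ?_
    exact (D3_dzb hε₀ hFh N (hFW z hz) (ee j)).symm
  have h5 := weakDbar_of_contDiffOn hW h1
  have h6 : WeakDbar W (fun z => ((F z)⁻¹) ^ N * (chi ε₀ a z : ℂ))
      (fun z j => ((F z)⁻¹) ^ N * dzb (fun w => (chi ε₀ a w : ℂ)) z (ee j)) := by
    refine h5.congr hW (Filter.EventuallyEq.refl _ _) fun j => ?_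
    filter_upwards [ae_restrict_mem hW.measurableSet] with z hz
    exact D3_dzb hε₀ hFh N (hFW z hz) (ee j)
  have h7 := h6.sub hW (locL2_of_continuousOn hW h1.continuousOn) hu
    (fun j => locL2_of_continuousOn hW (h3 j)) (fun j => locL2_of_continuousOn hW (h3 j)) hdu
  simpa using h7

lemma D3_sup {r : ℝ} (hr : 0 < r) : ∃ C : ℝ, 0 < C ∧ ∀ (w : Cn n) (u g : Cn n → ℂ)
    (V : Set (Cn n)) (K : ℝ), IsOpen V → w ∈ V → ContinuousOn g V →
    AEStronglyMeasurable u (volume.restrict (Metric.ball w r)) →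
    WeakDbar (Metric.ball w r) u (fun _ _ => 0) →
    ∫⁻ z in Metric.ball w r, ENNReal.ofReal (‖u z‖ ^ 2) ≤ ENNReal.ofReal K →
    u =ᵐ[volume.restrict (V ∩ Metric.ball w r)] g → ‖g w‖ ≤ Real.sqrt (C * K) := by
  obtain ⟨C, hC, H⟩ := weak_hol_sup (n := n) hr
  refine ⟨C, hC, fun w u g V K hV hwV hg hum hu hK hug => ?_⟩
  obtain ⟨g₁, hg₁, hae, hle⟩ := H w u hum hu (ne_top_of_le_ne_top ENNReal.ofReal_ne_top hK)
  have hwb : w ∈ V ∩ Metric.ball w r := ⟨hwV, Metric.mem_ball_self hr⟩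
  have h1 : g₁ =ᵐ[volume.restrict (V ∩ Metric.ball w r)] g := by
    have h2 : u =ᵐ[volume.restrict (V ∩ Metric.ball w r)] g₁ :=
      ae_mono (Measure.restrict_mono inter_subset_right le_rfl) hae
    exact h2.symm.trans hug
  have h3 : EqOn g₁ g (V ∩ Metric.ball w r) :=
    Measure.eqOn_open_of_ae_eq h1 (hV.inter Metric.isOpen_ball)
      (hg₁.continuousOn.mono inter_subset_right) (hg.mono inter_subset_left)
  have h4 : ENNReal.ofReal (‖g₁ w‖ ^ 2) ≤ ENNReal.ofReal (C * K) := by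
    refine hle.trans ?_
    rw [ENNReal.ofReal_mul hC.le]
    gcongr
  rw [← h3 hwb]
  rcases eq_or_lt_of_le (norm_nonneg (g₁ w)) with h5 | h5
  · rw [← h5]; exact Real.sqrt_nonneg _
  · have h6 : ‖g₁ w‖ ^ 2 ≤ C * K := (ENNReal.ofReal_le_ofReal_iff' .. |>.1 h4).resolve_right
      (by push Not; positivity)
    exact Real.le_sqrt_of_sq_le h6

lemma D3_ball (D : Dom n) {w : Cn n} (hw : w ∈ D.Ω) {t₀ r : ℝ} (hr : r ≤ t₀ / D.L) :
    Metric.ball w r ⊆ D.out' t₀ := by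
  intro z hz
  have hL : 0 < D.L := lt_of_lt_of_le one_pos D.L_ge
  have h1 : ‖D.ρ z - D.ρ w‖ ≤ D.L * ‖z - w‖ := by
    refine Convex.norm_image_sub_le_of_norm_fderiv_le (𝕜 := ℝ) (s := univ)
      (fun x _ => (D.smooth.differentiable (by norm_num)) x) (fun x _ => D.bd1 x) convex_univ
      (mem_univ _) (mem_univ _)
  have h2 : ‖z - w‖ < r := by
    rw [Metric.mem_ball, dist_eq_norm] at hz
    exact hz
  have h3 : D.ρ z - D.ρ w ≤ D.L * ‖z - w‖ := (le_abs_self _).trans h1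
  have h4 : D.L * ‖z - w‖ ≤ t₀ := by
    have := mul_le_mul_of_nonneg_left (h2.le.trans hr) hL.le
    rwa [mul_div_cancel₀ _ hL.ne'] at this
  have h5 : D.ρ w < 0 := hw
  show D.ρ z < t₀
  linarith

lemma D3_Ω_subset (D : Dom n) {t₀ : ℝ} (ht : 0 < t₀) : D.Ω ⊆ D.out' t₀ := by
  intro z hz
  have h5 : D.ρ z < 0 := hz
  show D.ρ z < t₀
  linarith

lemma D3_F_ne {D : Dom n} {ε₀ c C : ℝ} (hc : 0 < c) {a : Cn n} (ha : a ∈ D.Ω)
    {F : Cn n → ℂ} (hF : LeviF D ε₀ c C a F) {w : Cn n} (hw : w ∈ D.Ω) (h : ‖w - a‖ ≤ ε₀) :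
    F w ≠ 0 := by
  have h1 := hF.re_ge w h
  have h2 := D.δ_pos ha
  have h3 : D.ρ w < 0 := hw
  have h4 : 0 ≤ c * ‖w - a‖ ^ 2 := by positivity
  intro h0
  rw [h0, Complex.zero_re] at h1
  linarith

lemma D3_F_ge {D : Dom n} {ε₀ c C t₀ : ℝ} (hε₀ : 0 < ε₀) (hc : 0 < c)
    (ht : t₀ ≤ c * ε₀ ^ 2 / 256) {a : Cn n} (ha : a ∈ D.Ω)
    {F : Cn n → ℂ} (hF : LeviF D ε₀ c C a F) {w : Cn n} (hw : w ∈ D.out' t₀) (h : ‖w - a‖ ≤ ε₀)
    (h' : ε₀ / 8 < ‖w - a‖) : 3 * c * ε₀ ^ 2 / 256 ≤ ‖F w‖ := by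
  have h1 := hF.re_ge w h
  have h2 := D.δ_pos ha
  have h3 : D.ρ w < t₀ := hw
  have h4 : (ε₀ / 8) ^ 2 ≤ ‖w - a‖ ^ 2 := by gcongr
  have h5 := mul_le_mul_of_nonneg_left h4 hc.le
  have h6 : (F w).re ≤ ‖F w‖ := Complex.re_le_norm _
  nlinarith

theorem D3_main (D : Dom n) (hD : D.DbarProp) {ε₀ c C : ℝ} (hε₀ : 0 < ε₀) (hc : 0 < c)
    (hC : 0 < C) (N : ℕ) :
    ∃ M : ℝ, 0 < M ∧ ∀ a ∈ D.Ω, ∀ F, LeviF D ε₀ c C a F → ∃ g : Cn n → ℂ,
      DifferentiableOn ℂ g D.Ω ∧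
      (∀ w ∈ D.Ω, ‖w - a‖ ≤ ε₀ / 4 → ‖((F w)⁻¹) ^ N - g w‖ ≤ M) ∧
      (∀ w ∈ D.Ω, ε₀ / 4 < ‖w - a‖ → ‖g w‖ ≤ M) := by
  obtain ⟨t₀, C', ht₀, htη, htc, hC', H⟩ := atom_solve D hD hε₀ hc hC N
  have hL : 0 < D.L := lt_of_lt_of_le one_pos D.L_ge
  set r := min (ε₀ / 8) (t₀ / D.L) with hrdef
  have hr : 0 < r := lt_min (by positivity) (by positivity)
  obtain ⟨C₂, hC₂, S⟩ := D3_sup (n := n) hr
  set b : ℝ := 3 * c * ε₀ ^ 2 / 256 with hb
  have hb0 : 0 < b := by positivity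
  set V₀ : ℝ := (volume (D.out' t₀)).toReal with hV₀
  have hV₀0 : 0 ≤ V₀ := ENNReal.toReal_nonneg
  have hη1 : t₀ < 1 := by
    have := D.η_lt
    have := D.η_pos
    linarith
  have hVeq : volume (D.out' t₀) = ENNReal.ofReal V₀ :=
    (ENNReal.ofReal_toReal (D.volume_out_lt_top hη1).ne).symm
  set K : ℝ := 2 * ((b⁻¹ ^ N) ^ 2 * V₀ + C') with hK
  have hKC : C' ≤ K := by
    have : 0 ≤ (b⁻¹ ^ N) ^ 2 * V₀ := by positivity
    rw [hK]; linarith
  refine ⟨Real.sqrt (C₂ * K) + 1, by positivity, fun a ha F hF => ?_⟩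
  obtain ⟨u, hum, hu, hui⟩ := H a ha F hF
  have hloc : LocL2 (D.out' t₀) u := by
    refine locL2_of_lintegral (φ := fun _ => 0) (D.isOpen_out t₀) continuousOn_const hum ?_
    simp only [neg_zero, Real.exp_zero, mul_one]
    exact ne_top_of_le_ne_top ENNReal.ofReal_ne_top hui
  have hsub := D3_Ω_subset D ht₀
  have hballsub : ∀ w ∈ D.Ω, Metric.ball w r ⊆ D.out' t₀ := fun w hw =>
    D3_ball D hw (min_le_right _ _)
  have hFΩ : ∀ w ∈ D.Ω, ‖w - a‖ ≤ ε₀ → F w ≠ 0 := fun w hw h => D3_F_ne hc ha hF hw h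
  -- holomorphic representative on Ω
  have hwΩ := D3_weak hε₀ hF.smooth hF.hol N D.isOpen_Ω hFΩ (hloc.mono hsub) (hu.mono hsub)
  have hcΩ : ContinuousOn (fun z => ((F z)⁻¹) ^ N * (chi ε₀ a z : ℂ)) D.Ω := fun w hw =>
    (D3_contDiffAt hε₀ hF.smooth N (hFΩ w hw)).continuousAt.continuousWithinAt
  have hlocΩ : LocL2 D.Ω (fun z => ((F z)⁻¹) ^ N * (chi ε₀ a z : ℂ) - u z) := by
    have h1 := (locL2_of_continuousOn D.isOpen_Ω hcΩ)
    have h2 := (hloc.mono hsub).mul_continuousOn (a := fun _ => (-1 : ℂ)) continuousOn_const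
      D.isOpen_Ω
    have h3 := h1.add h2
    refine (iff_of_eq ?_).mp h3
    congr 1
    funext z
    ring
  obtain ⟨g, hg, hgae⟩ := weyl D.isOpen_Ω hlocΩ hwΩ
  refine ⟨g, hg, fun w hw hwa => ?_, fun w hw hwa => ?_⟩
  · -- near a
    have hnear : ∀ z ∈ Metric.ball w r, ‖z - a‖ < ε₀ / 2 := by
      intro z hz
      rw [Metric.mem_ball, dist_eq_norm] at hz
      have h1 : ‖z - a‖ ≤ ‖z - w‖ + ‖w - a‖ := by
        have := norm_add_le (z - w) (w - a)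
        rwa [sub_add_sub_cancel] at this
      have h2 : r ≤ ε₀ / 8 := min_le_left _ _
      linarith
    have hub : WeakDbar (Metric.ball w r) u (fun _ _ => 0) := by
      refine (hu.mono (hballsub w hw)).congr Metric.isOpen_ball (Filter.EventuallyEq.refl _ _)
        fun j => ?_
      filter_upwards [ae_restrict_mem Metric.isOpen_ball.measurableSet] with z hz
      have h1 : (fun w => (chi ε₀ a w : ℂ)) =ᶠ[𝓝 z] fun _ => 1 := by
        filter_upwards [Metric.isOpen_ball.mem_nhds hz] with y hy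
        rw [chi_one hε₀ (hnear y hy).le]
        simp
      simp only [dzb, h1.fderiv_eq]
      simp
    have hVo : IsOpen (D.Ω ∩ {z : Cn n | ‖z - a‖ < ε₀}) :=
      D.isOpen_Ω.inter (isOpen_lt (continuous_id.sub continuous_const).norm continuous_const)
    have h1 := S w u (fun z => ((F z)⁻¹) ^ N - g z) (D.Ω ∩ {z : Cn n | ‖z - a‖ < ε₀}) K hVo
      ⟨hw, by show ‖w - a‖ < ε₀; linarith⟩ ?_
      (hum.mono_measure (Measure.restrict_mono (hballsub w hw) le_rfl)) hub ?_ ?_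
    · exact h1.trans (by linarith)
    · refine ContinuousOn.sub ?_ (hg.continuousOn.mono inter_subset_left)
      exact (hF.smooth.continuous.continuousOn.inv₀ fun z hz => hFΩ z hz.1 (le_of_lt hz.2)).pow N
    · calc ∫⁻ z in Metric.ball w r, ENNReal.ofReal (‖u z‖ ^ 2)
          ≤ ∫⁻ z in D.out' t₀, ENNReal.ofReal (‖u z‖ ^ 2) := lintegral_mono_set (hballsub w hw)
        _ ≤ ENNReal.ofReal C' := hui
        _ ≤ ENNReal.ofReal K := ENNReal.ofReal_le_ofReal hKC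
    · have h2 : (fun z => ((F z)⁻¹) ^ N * (chi ε₀ a z : ℂ) - u z)
          =ᵐ[volume.restrict ((D.Ω ∩ {z : Cn n | ‖z - a‖ < ε₀}) ∩ Metric.ball w r)] g :=
        ae_mono (Measure.restrict_mono (inter_subset_left.trans inter_subset_left) le_rfl) hgae
      filter_upwards [h2, ae_restrict_mem (hVo.inter Metric.isOpen_ball).measurableSet]
        with z hz hzm
      rw [← hz, chi_one hε₀ (hnear z hzm.2).le]
      simp
  · -- far from a
    have hfar : ∀ z ∈ Metric.ball w r, ε₀ / 8 < ‖z - a‖ := by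
      intro z hz
      rw [Metric.mem_ball, dist_eq_norm] at hz
      have h1 : ‖w - a‖ ≤ ‖w - z‖ + ‖z - a‖ := by
        have := norm_add_le (w - z) (z - a)
        rwa [sub_add_sub_cancel] at this
      rw [norm_sub_rev] at hz
      have h2 : r ≤ ε₀ / 8 := min_le_left _ _
      linarith
    have hFb : ∀ z ∈ Metric.ball w r, ‖z - a‖ ≤ ε₀ → b ≤ ‖F z‖ := fun z hz h =>
      D3_F_ge hε₀ hc htc ha hF (hballsub w hw hz) h (hfar z hz)
    have hFb0 : ∀ z ∈ Metric.ball w r, ‖z - a‖ ≤ ε₀ → F z ≠ 0 := fun z hz h h0 => by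
      have := hFb z hz h
      rw [h0, norm_zero] at this
      linarith
    have hwb := D3_weak hε₀ hF.smooth hF.hol N Metric.isOpen_ball hFb0
      (hloc.mono (hballsub w hw)) (hu.mono (hballsub w hw))
    have hcb : ContinuousOn (fun z => ((F z)⁻¹) ^ N * (chi ε₀ a z : ℂ)) (Metric.ball w r) :=
      fun z hz =>
      (D3_contDiffAt hε₀ hF.smooth N (hFb0 z hz)).continuousAt.continuousWithinAt
    have hbd : ∀ z ∈ Metric.ball w r, ‖((F z)⁻¹) ^ N * (chi ε₀ a z : ℂ)‖ ≤ b⁻¹ ^ N := by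
      intro z hz
      rcases le_or_gt ‖z - a‖ ε₀ with h | h
      · obtain ⟨Cχ, hχ⟩ := chi_bound (n := n) hε₀
        have h1 := hχ a z
        rw [norm_mul, norm_pow, norm_inv, Complex.norm_real, Real.norm_eq_abs,
          abs_of_nonneg h1.1]
        have h2 : (‖F z‖⁻¹) ^ N ≤ b⁻¹ ^ N := by
          gcongr
          exact hFb z hz h
        calc (‖F z‖⁻¹) ^ N * chi ε₀ a z ≤ b⁻¹ ^ N * 1 :=
              mul_le_mul h2 h1.2.1 h1.1 (by positivity)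
          _ = b⁻¹ ^ N := mul_one _
      · rw [chi_zero hε₀ h.le]
        simp
        positivity
    have humb : AEStronglyMeasurable u (volume.restrict (Metric.ball w r)) :=
      hum.mono_measure (Measure.restrict_mono (hballsub w hw) le_rfl)
    have h1 := S w (fun z => ((F z)⁻¹) ^ N * (chi ε₀ a z : ℂ) - u z) g D.Ω K D.isOpen_Ω hw
      hg.continuousOn
      ((hcb.aestronglyMeasurable Metric.isOpen_ball.measurableSet).sub humb) hwb ?_ ?_
    · exact h1.trans (by linarith)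
    · calc ∫⁻ z in Metric.ball w r,
            ENNReal.ofReal (‖((F z)⁻¹) ^ N * (chi ε₀ a z : ℂ) - u z‖ ^ 2)
          ≤ ∫⁻ z in Metric.ball w r, (ENNReal.ofReal (2 * (b⁻¹ ^ N) ^ 2)
              + ENNReal.ofReal 2 * ENNReal.ofReal (‖u z‖ ^ 2)) := by
            refine setLIntegral_mono' Metric.isOpen_ball.measurableSet fun z hz => ?_
            rw [← ENNReal.ofReal_mul (by norm_num), ← ENNReal.ofReal_add (by positivity)
              (by positivity)]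
            refine ENNReal.ofReal_le_ofReal ?_
            have h2 := hbd z hz
            have h3 := norm_sub_le (((F z)⁻¹) ^ N * (chi ε₀ a z : ℂ)) (u z)
            set x := ‖((F z)⁻¹) ^ N * (chi ε₀ a z : ℂ)‖
            set y := ‖u z‖
            have h4 : 0 ≤ x := norm_nonneg _
            have h5 : 0 ≤ y := norm_nonneg _
            have h6 : ‖((F z)⁻¹) ^ N * (chi ε₀ a z : ℂ) - u z‖ ^ 2 ≤ (x + y) ^ 2 := by
              gcongr
            have h7 : x ^ 2 ≤ (b⁻¹ ^ N) ^ 2 := by gcongr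
            nlinarith [sq_nonneg (x - y)]
        _ = ENNReal.ofReal (2 * (b⁻¹ ^ N) ^ 2) * volume (Metric.ball w r)
              + ENNReal.ofReal 2 * ∫⁻ z in Metric.ball w r, ENNReal.ofReal (‖u z‖ ^ 2) := by
            rw [lintegral_add_left measurable_const, setLIntegral_const,
              lintegral_const_mul' _ _ ENNReal.ofReal_ne_top]
        _ ≤ ENNReal.ofReal (2 * (b⁻¹ ^ N) ^ 2) * ENNReal.ofReal V₀
              + ENNReal.ofReal 2 * ENNReal.ofReal C' := by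
            gcongr
            · rw [← hVeq]
              exact measure_mono (hballsub w hw)
            · exact (lintegral_mono_set (hballsub w hw)).trans hui
        _ = ENNReal.ofReal K := by
            rw [← ENNReal.ofReal_mul (by positivity), ← ENNReal.ofReal_mul (by norm_num),
              ← ENNReal.ofReal_add (by positivity) (by positivity)]
            congr 1
            rw [hK]; ring
    · exact ae_mono (Measure.restrict_mono inter_subset_left le_rfl) hgae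

/-- The atoms `t_a = χ_a F_a^{-N} - u_a` on `Ω` (Weyl lemma gives the holomorphic representative).
Bounds: choose `r₁ ≤ ε₀/8` with `ball w r₁ ⊆ out' t₀` for all `w ∈ Ω` (`|ρ(w')-ρ(w)| ≤ L‖w'-w‖`).
Case `‖w - a‖ ≤ ε₀/4`: on `ball w r₁` the form vanishes, so `u_a` is weakly holomorphic there and
`weak_hol_sup` bounds its representative at `w`; `t_a = F^{-N} - u_a` at `w` (continuous functions
equal a.e. on an open set are equal). Case `‖w-a‖ > ε₀/4`: on `ball w r₁ ⊆ {‖w'-a‖ > ε₀/8}` the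
function `χ_a F^{-N} - u_a` (with value `0` for the first term where `χ_a = 0`) is weakly
holomorphic, `Re F ≥ -t₀ + cε₀²/64 > 0` and bounded there, `weak_hol_sup` again. Finally
`qd ≤ 8L²` and `|F| ≈ qd` (`LeviF.comparable`). Lower bound: on `B(a,s₁)`, `‖w-a‖ ≤ ε₀/4`,
`|t_a| ≥ |F|^{-N} - C ≥ c δ(a)^{-N} - C`, and `δ(a) < δ₁` small. -/
theorem atoms (D : Dom n) (hD : D.DbarProp) : D.AtomProp := by
  intro s₀ hs₀ N hN
  obtain ⟨ε₀, c, C, hε₀, hc, hC, HF⟩ := exists_leviF D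
  obtain ⟨M, hM, Hg⟩ := D3_main D hD hε₀ hc hC N
  obtain ⟨C₁, hC₁, Hcmp⟩ := LeviF.comparable (D := D) (ε₀ := ε₀) hc hC
  obtain ⟨C₃, hC₃, Hcl⟩ := D.qd_close hs₀
  have hL : 1 ≤ D.L := D.L_ge
  have hC₁0 : 0 < C₁ := by linarith
  have hC₃0 : 0 < C₃ := by linarith
  have hk : 1 ≤ C₁ * C₃ := one_le_mul_of_one_le_of_one_le hC₁ hC₃
  set k := C₁ * C₃ with hkdef
  have hk0 : 0 < k := by linarith
  have hkN : 1 ≤ k ^ N := one_le_pow₀ hk
  refine ⟨min D.η (min ((ε₀ / 4) ^ 2) (1 / (2 * M * k ^ N))),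
    C₁ ^ N + M * (8 * D.L ^ 2) ^ N + 2 * k ^ N, ?_, min_le_left _ _, ?_, fun a ha hda => ?_⟩
  · have := D.η_pos
    positivity
  · have h1 : 0 < C₁ ^ N := by positivity
    have h2 : 0 < M * (8 * D.L ^ 2) ^ N := by positivity
    linarith
  have hda1 : D.δ a < D.η := lt_of_lt_of_le hda (min_le_left _ _)
  have hda2 : D.δ a < (ε₀ / 4) ^ 2 :=
    lt_of_lt_of_le hda ((min_le_right _ _).trans (min_le_left _ _))
  have hda3 : D.δ a < 1 / (2 * M * k ^ N) :=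
    lt_of_lt_of_le hda ((min_le_right _ _).trans (min_le_right _ _))
  have hδ0 := D.δ_pos ha
  obtain ⟨F, hF⟩ := HF a ha hda1.le
  obtain ⟨g, hg, hnear, hfar⟩ := Hg a ha F hF
  have hbig : ∀ w ∈ D.Ω, M ≤ M * (8 * D.L ^ 2) ^ N * (D.qd a w)⁻¹ ^ N := by
    intro w hw
    have hq := D.qd_pos ha hw
    have h1 : 1 ≤ 8 * D.L ^ 2 * (D.qd a w)⁻¹ := by
      rw [← div_eq_mul_inv, le_div_iff₀ hq, one_mul]
      exact D.qd_le ha hw
    have h2 : 1 ≤ (8 * D.L ^ 2 * (D.qd a w)⁻¹) ^ N := one_le_pow₀ h1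
    rw [mul_pow] at h2
    calc M = M * 1 := (mul_one _).symm
      _ ≤ M * ((8 * D.L ^ 2) ^ N * (D.qd a w)⁻¹ ^ N) := by gcongr
      _ = _ := by ring
  refine ⟨g, hg, fun w hw => ?_, fun w hw => ?_⟩
  · have hq := D.qd_pos ha hw
    have hqN : 0 < (D.qd a w)⁻¹ ^ N := by positivity
    have hb := hbig w hw
    have hC₁N : 0 < C₁ ^ N * (D.qd a w)⁻¹ ^ N := by positivity
    have hkNq : 0 < 2 * k ^ N * (D.qd a w)⁻¹ ^ N := by positivity
    rcases le_or_gt ‖w - a‖ (ε₀ / 4) with h | h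
    · have h1 := hnear w hw h
      obtain ⟨h2, h3, h4⟩ := Hcmp a ha F hF w hw (by linarith)
      have hF0 : 0 < ‖F w‖ := norm_pos_iff.mpr h4
      have h5 : ‖F w‖⁻¹ ≤ C₁ * (D.qd a w)⁻¹ := by
        rw [← div_eq_mul_inv, le_div_iff₀ hq, inv_mul_le_iff₀ hF0]
        linarith
      have h6 : ‖((F w)⁻¹) ^ N‖ ≤ C₁ ^ N * (D.qd a w)⁻¹ ^ N := by
        rw [norm_pow, norm_inv, ← mul_pow]
        gcongr
      have h7 : ‖g w‖ ≤ ‖((F w)⁻¹) ^ N‖ + ‖((F w)⁻¹) ^ N - g w‖ := by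
        have := norm_sub_le (((F w)⁻¹) ^ N) (((F w)⁻¹) ^ N - g w)
        rwa [sub_sub_cancel] at this
      rw [add_mul, add_mul]
      linarith
    · have h1 := hfar w hw h
      rw [add_mul, add_mul]
      linarith
  · have hwΩ := (hs₀.sub a ha w hw).1
    rw [D.mem_B] at hw
    have hws : ‖w - a‖ ≤ ε₀ / 4 := by
      have h1 := D.norm_le_nrm ha (w - a)
      have h2 : Real.sqrt (D.δ a) ≤ ε₀ / 4 := Real.sqrt_le_iff.mpr ⟨by positivity, hda2.le⟩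
      have h3 : D.nrm a (w - a) ≤ 1 := hw.le.trans hs₀.le_one
      calc ‖w - a‖ ≤ Real.sqrt (D.δ a) * D.nrm a (w - a) := h1
        _ ≤ Real.sqrt (D.δ a) * 1 := by gcongr
        _ ≤ ε₀ / 4 := by rw [mul_one]; exact h2
    have h1 := hnear w hwΩ hws
    obtain ⟨h2, h3, h4⟩ := Hcmp a ha F hF w hwΩ (by linarith)
    have hF0 : 0 < ‖F w‖ := norm_pos_iff.mpr h4
    have h5 : ‖F w‖ ≤ k * D.δ a := by
      have h6 := Hcl a ha w ((D.mem_B).mpr hw)
      calc ‖F w‖ ≤ C₁ * D.qd a w := h2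
        _ ≤ C₁ * (C₃ * D.δ a) := by gcongr
        _ = k * D.δ a := by rw [hkdef]; ring
    have h6 : k⁻¹ * (D.δ a)⁻¹ ≤ ‖F w‖⁻¹ := by
      rw [← mul_inv]
      exact inv_anti₀ hF0 h5
    have h7 : (k ^ N)⁻¹ * (D.δ a)⁻¹ ^ N ≤ ‖((F w)⁻¹) ^ N‖ := by
      rw [norm_pow, norm_inv, ← inv_pow, ← mul_pow]
      gcongr
    have h8 : ‖((F w)⁻¹) ^ N‖ ≤ ‖g w‖ + ‖((F w)⁻¹) ^ N - g w‖ := by
      have := norm_add_le (g w) (((F w)⁻¹) ^ N - g w)
      rwa [add_sub_cancel] at this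
    have h9 : 2 * M * k ^ N ≤ (D.δ a)⁻¹ := by
      rw [lt_div_iff₀ (by positivity)] at hda3
      rw [← one_div, le_div_iff₀ hδ0]
      linarith
    have h10 : (D.δ a)⁻¹ ≤ (D.δ a)⁻¹ ^ N := by
      have : 1 ≤ (D.δ a)⁻¹ := by
        rw [← one_div, le_div_iff₀ hδ0]
        have := D.η_lt
        linarith
      exact le_self_pow₀ this (by omega)
    set x := (D.δ a)⁻¹ ^ N with hx
    have hx0 : 0 < x := by positivity
    have h11 : M ≤ (k ^ N)⁻¹ * x / 2 := by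
      rw [le_div_iff₀ (by norm_num), ← div_eq_inv_mul, le_div_iff₀ (by positivity)]
      linarith
    have h12 : (C₁ ^ N + M * (8 * D.L ^ 2) ^ N + 2 * k ^ N)⁻¹ ≤ (2 * k ^ N)⁻¹ := by
      apply inv_anti₀ (by positivity)
      have h1 : 0 < C₁ ^ N := by positivity
      have h2 : 0 < M * (8 * D.L ^ 2) ^ N := by positivity
      linarith
    have h13 : (C₁ ^ N + M * (8 * D.L ^ 2) ^ N + 2 * k ^ N)⁻¹ * x ≤ (k ^ N)⁻¹ * x / 2 := by
      calc (C₁ ^ N + M * (8 * D.L ^ 2) ^ N + 2 * k ^ N)⁻¹ * x ≤ (2 * k ^ N)⁻¹ * x := by gcongr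
        _ = (k ^ N)⁻¹ * x / 2 := by rw [mul_inv]; ring
    linarith

end HankelSPC
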