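import Mathlib

open MeasureTheory Set
open scoped ENNReal NNReal Topology

namespace HankelSPC

/-- `ℂⁿ`. -/
abbrev Cn (n : ℕ) : Type := Fin n → ℂ

/-- The Levi form of `u` at `z` in the direction `X`: the value at `ζ = 0` of
`∂²/∂ζ∂ζ̄ u (z + ζ X)`, that is a quarter of the Laplacian in `ζ ∈ ℂ`. -/
noncomputable def levi {n : ℕ} (u : Cn n → ℝ) (z X : Cn n) : ℝ :=
  (1 / 4) * Laplacian.laplacian (fun ζ : ℂ => u (z + ζ • X)) 0

/-- Bounded strictly pseudoconvex domains of `ℂⁿ` (with `C²` boundary). -/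
structure IsSPC {n : ℕ} (Ω : Set (Cn n)) : Prop where
  isOpen : IsOpen Ω
  isConnected : IsConnected Ω
  isBounded : Bornology.IsBounded Ω
  defining : ∀ p ∈ frontier Ω, ∃ U : Set (Cn n), IsOpen U ∧ p ∈ U ∧
    ∃ ρ : Cn n → ℝ, ContDiffOn ℝ 2 ρ U ∧ (∀ z ∈ U, z ∈ Ω ↔ ρ z < 0) ∧
      (∀ z ∈ U, fderiv ℝ ρ z ≠ 0) ∧ ∀ z ∈ U, ∀ X : Cn n, X ≠ 0 → 0 < levi ρ z X

/-- Volume measure on `Ω`, normalised to total mass one. -/
noncomputable def vol {n : ℕ} (Ω : Set (Cn n)) : Measure (Cn n) :=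
  (volume Ω)⁻¹ • volume.restrict Ω

/-- The Bergman space `L²_a(Ω)`. -/
noncomputable def bergman {n : ℕ} (Ω : Set (Cn n)) : Submodule ℂ (Lp ℂ 2 (vol Ω)) where
  carrier := {F | ∃ g : Cn n → ℂ, DifferentiableOn ℂ g Ω ∧ F =ᵐ[vol Ω] g}
  zero_mem' := ⟨fun _ => 0, differentiableOn_const 0, Lp.coeFn_zero ..⟩
  add_mem' := by
    rintro F G ⟨f, hf, hF⟩ ⟨g, hg, hG⟩
    refine ⟨fun z => f z + g z, hf.add hg, ?_⟩
    filter_upwards [Lp.coeFn_add F G, hF, hG] with z h1 h2 h3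
    rw [h1, Pi.add_apply, h2, h3]
  smul_mem' := by
    rintro c F ⟨f, hf, hF⟩
    refine ⟨fun z => c * f z, hf.const_mul c, ?_⟩
    filter_upwards [Lp.coeFn_smul c F, hF] with z h1 h2
    rw [h1, Pi.smul_apply, h2, smul_eq_mul]

/-- The Bergman kernel on the diagonal,
`K(z,z) = sup {|g(z)|² : g ∈ L²_a(Ω), ‖g‖ ≤ 1}`. -/
noncomputable def kernelDiag {n : ℕ} (Ω : Set (Cn n)) (z : Cn n) : ℝ :=
  sSup {x : ℝ | ∃ g : Cn n → ℂ, DifferentiableOn ℂ g Ω ∧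
    (∫⁻ w, ‖g w‖ₑ ^ 2 ∂(vol Ω)) ≤ 1 ∧ x = ‖g z‖ ^ 2}

/-- The measure `dλ = K(z,z) dv`. -/
noncomputable def lam {n : ℕ} (Ω : Set (Cn n)) : Measure (Cn n) :=
  (vol Ω).withDensity fun z => ENNReal.ofReal (kernelDiag Ω z)

/-- The Bergman metric (length of the tangent vector `X` at `z`). -/
noncomputable def bergmanMetric {n : ℕ} (Ω : Set (Cn n)) (z X : Cn n) : ℝ :=
  Real.sqrt (levi (fun w => Real.log (kernelDiag Ω w)) z X)

/-- The Bergman distance: infimum of the lengths of `C¹` curves in `Ω` from `z` to `w`. -/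
noncomputable def bergmanDist {n : ℕ} (Ω : Set (Cn n)) (z w : Cn n) : ℝ≥0∞ :=
  ⨅ γ : {γ : ℝ → Cn n // ContDiff ℝ 1 γ ∧ (∀ t ∈ Icc (0:ℝ) 1, γ t ∈ Ω) ∧ γ 0 = z ∧ γ 1 = w},
    ∫⁻ t in Icc (0:ℝ) 1, ENNReal.ofReal (bergmanMetric Ω (γ.1 t) (deriv γ.1 t))

/-- The Bergman ball `D(z,r)`. -/
def ball {n : ℕ} (Ω : Set (Cn n)) (z : Cn n) (r : ℝ) : Set (Cn n) :=
  {w | w ∈ Ω ∧ bergmanDist Ω z w < ENNReal.ofReal r}

/-- The average of `f` over `D(z,r)`. -/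
noncomputable def avg {n : ℕ} (Ω : Set (Cn n)) (f : Cn n → ℂ) (r : ℝ) (z : Cn n) : ℂ :=
  ⨍ w in ball Ω z r, f w ∂(vol Ω)

/-- The mean oscillation `MO_r(f)(z)`. -/
noncomputable def MO {n : ℕ} (Ω : Set (Cn n)) (f : Cn n → ℂ) (r : ℝ) (z : Cn n) : ℝ :=
  Real.sqrt (⨍ w in ball Ω z r, ‖f w - avg Ω f r z‖ ^ 2 ∂(vol Ω))

/-- The singular values of a bounded operator between Hilbert spaces (as approximation
numbers): `s_N(T) = inf {‖T - F‖ : rank F ≤ N}`, `N = 0, 1, 2, …`. -/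
noncomputable def sNumber {H G : Type*} [NormedAddCommGroup H] [InnerProductSpace ℂ H]
    [NormedAddCommGroup G] [InnerProductSpace ℂ G] (T : H →L[ℂ] G) (N : ℕ) : ℝ :=
  sInf {x : ℝ | ∃ F : H →L[ℂ] G, (F : H →ₗ[ℂ] G).rank ≤ N ∧ x = ‖T - F‖}

/-- The Schatten class `S_p`. -/
def IsSchatten {H G : Type*} [NormedAddCommGroup H] [InnerProductSpace ℂ H]
    [NormedAddCommGroup G] [InnerProductSpace ℂ G] (p : ℝ) (T : H →L[ℂ] G) : Prop :=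
  IsCompactOperator T ∧ Summable fun N : ℕ => sNumber T N ^ p

/-- The Hankel operator `H_f g = (I - P)(f g)`, with domain all `g ∈ L²_a(Ω)` such that
`f g ∈ L²(Ω, dv)`, extends to a bounded operator `L²_a(Ω) → L²(Ω, dv)` of class `S_p`.
(`L²_a(Ω)` is a closed subspace of `L²(Ω, dv)`, so `(bergman Ω)ᗮ.starProjection`, the orthogonal
projection onto the orthogonal complement of `L²_a(Ω)`, is `I - P`.) -/
def HankelMem {n : ℕ} (Ω : Set (Cn n)) (f : Cn n → ℂ) (p : ℝ) : Prop :=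
  ∃ T : bergman Ω →L[ℂ] Lp ℂ 2 (vol Ω), IsSchatten p T ∧
    ∀ (g : bergman Ω) (h : Lp ℂ 2 (vol Ω)),
      (h =ᵐ[vol Ω] fun z => f z * (g : Lp ℂ 2 (vol Ω)) z) →
        T g = (bergman Ω)ᗮ.starProjection h

/-- The domain of the Hankel operator `H_f`: all `g ∈ L²_a(Ω)` such that `f g ∈ L²(Ω, dv)`. -/
def hankelDomain {n : ℕ} (Ω : Set (Cn n)) (f : Cn n → ℂ) : Set (bergman Ω) :=
  {g | ∃ h : Lp ℂ 2 (vol Ω), h =ᵐ[vol Ω] fun z => f z * (g : Lp ℂ 2 (vol Ω)) z}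

/-- `H_f ∈ S_p`: the Hankel operator `H_f` is densely defined and extends to a bounded operator
`L²_a(Ω) → L²(Ω, dv)` of class `S_p` (the extension is unique). -/
def HankelInSchatten {n : ℕ} (Ω : Set (Cn n)) (f : Cn n → ℂ) (p : ℝ) : Prop :=
  Dense (hankelDomain Ω f) ∧ HankelMem Ω f p

end HankelSPC
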