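import Mathlib
import Pool.Agent.Lib.MP_e1cf54_an.Stmt

/-! Working definitions for `MP_e1cf54_an` (owner helper73). -/

open MeasureTheory Set
open scoped ENNReal NNReal Topology ContDiff

namespace HankelSPC

variable {n : ℕ}

/-! ### First and second derivatives -/

/-- The standard basis vector. -/
noncomputable def ee (j : Fin n) : Cn n := Pi.single j 1

/-- The Euclidean square norm. -/
noncomputable def nsq (X : Cn n) : ℝ := ∑ j, ‖X j‖ ^ 2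

/-- `∂u(z)(X)` (complex linear in `X`), `u` complex valued. -/
noncomputable def dz (u : Cn n → ℂ) (z X : Cn n) : ℂ :=
  (1 / 2) * (fderiv ℝ u z X - Complex.I * fderiv ℝ u z (Complex.I • X))

/-- `∂̄u(z)(X)` (conjugate linear in `X`), `u` complex valued.
`dzb u z (ee j)` is the usual `∂u/∂z̄_j`. -/
noncomputable def dzb (u : Cn n → ℂ) (z X : Cn n) : ℂ :=
  (1 / 2) * (fderiv ℝ u z X + Complex.I * fderiv ℝ u z (Complex.I • X))

/-- `∂ρ(z)(X)` (complex linear in `X`), `ρ` real valued. -/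
noncomputable def ell (ρ : Cn n → ℝ) (z X : Cn n) : ℂ :=
  (1 / 2) * ((fderiv ℝ ρ z X : ℝ) - Complex.I * (fderiv ℝ ρ z (Complex.I • X) : ℝ))

/-- The second derivative of a real function. -/
noncomputable def D2 (u : Cn n → ℝ) (z X Y : Cn n) : ℝ := fderiv ℝ (fderiv ℝ u) z X Y

/-- The mixed second derivative `∂²φ/∂z_j∂z̄_k`. -/
noncomputable def mix (φ : Cn n → ℝ) (z : Cn n) (j k : Fin n) : ℂ :=
  dzb (fun w => ell φ w (ee j)) z (ee k)

/-! ### Weak `∂̄` -/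

/-- Test functions on `U`. -/
def IsTest (U : Set (Cn n)) (φ : Cn n → ℂ) : Prop :=
  ContDiff ℝ ∞ φ ∧ HasCompactSupport φ ∧ tsupport φ ⊆ U

/-- `∂̄ u = β` in the sense of distributions on `U`. -/
def WeakDbar (U : Set (Cn n)) (u : Cn n → ℂ) (β : Cn n → Fin n → ℂ) : Prop :=
  ∀ φ, IsTest U φ → ∀ j, ∫ z, u z * dzb φ z (ee j) = - ∫ z, φ z * β z j

/-- `∂̄ β = 0` in the sense of distributions on `U`. -/
def WeakClosed (U : Set (Cn n)) (β : Cn n → Fin n → ℂ) : Prop :=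
  ∀ φ, IsTest U φ → ∀ j k, ∫ z, β z j * dzb φ z (ee k) = ∫ z, β z k * dzb φ z (ee j)

/-- Locally square integrable functions on `U`. -/
def LocL2 (U : Set (Cn n)) (u : Cn n → ℂ) : Prop :=
  ∀ K, K ⊆ U → IsCompact K → MemLp u 2 (volume.restrict K)

/-- Evaluation of a `(0,1)`-form with coefficients `b` on the vector `X`. -/
noncomputable def formEval (b : Fin n → ℂ) (X : Cn n) : ℂ := ∑ j, b j * (starRingEnd ℂ) (X j)

/-! ### Domains with a global defining function -/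

/-- A bounded strictly pseudoconvex domain together with a global `C²` defining function
`ρ` (equal to `1` far away), strictly plurisubharmonic with non-vanishing gradient on
`{|ρ| ≤ η}`, and all the first and second order bounds. -/
structure Dom (n : ℕ) where
  ρ : Cn n → ℝ
  L : ℝ
  η : ℝ
  c : ℝ
  smooth : ContDiff ℝ 2 ρ
  out : ∀ z, L ≤ ‖z‖ → ρ z = 1
  nonempty : ∃ z, ρ z < 0
  L_ge : 1 ≤ L
  η_pos : 0 < η
  η_lt : η < 1
  c_pos : 0 < c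
  levi_ge : ∀ z, |ρ z| ≤ η → ∀ X, c * ‖X‖ ^ 2 ≤ levi ρ z X
  ell_ge : ∀ z, |ρ z| ≤ η → ∃ k : Fin n, c ≤ ‖ell ρ z (ee k)‖
  bd0 : ∀ z, |ρ z| ≤ L
  bd1 : ∀ z, ‖fderiv ℝ ρ z‖ ≤ L
  lip1 : ∀ z w, ‖fderiv ℝ ρ z - fderiv ℝ ρ w‖ ≤ L * ‖z - w‖
  taylor1 : ∀ z w, |ρ w - ρ z - fderiv ℝ ρ z (w - z)| ≤ L * ‖w - z‖ ^ 2
  levi_le : ∀ z X, |levi ρ z X| ≤ L * ‖X‖ ^ 2
  unif : UniformContinuous fun z => fderiv ℝ (fderiv ℝ ρ) z

namespace Dom

/-- The domain. -/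
def Ω (D : Dom n) : Set (Cn n) := {z | D.ρ z < 0}

/-- The outer domains `{ρ < t}`. -/
def out' (D : Dom n) (t : ℝ) : Set (Cn n) := {z | D.ρ z < t}

/-- The distance function `δ = -ρ`. -/
def δ (D : Dom n) (z : Cn n) : ℝ := - D.ρ z

/-- The anisotropic norm `|X|_z = |∂ρ(z)(X)| / δ(z) + ‖X‖ / √δ(z)` (comparable to the Bergman
metric), as a complex seminorm. -/
noncomputable def nrm (D : Dom n) (z : Cn n) : Seminorm ℂ (Cn n) :=
  Seminorm.of (fun X => ‖ell D.ρ z X‖ / |D.ρ z| + ‖X‖ / Real.sqrt |D.ρ z|)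
    (by
      intro X Y
      have h1 : ell D.ρ z (X + Y) = ell D.ρ z X + ell D.ρ z Y := by
        simp only [ell, smul_add, map_add, Complex.ofReal_add]; ring
      have h2 : ‖ell D.ρ z (X + Y)‖ ≤ ‖ell D.ρ z X‖ + ‖ell D.ρ z Y‖ := by
        rw [h1]; exact norm_add_le _ _
      have h3 : ‖X + Y‖ ≤ ‖X‖ + ‖Y‖ := norm_add_le _ _
      have h4 : ‖ell D.ρ z (X + Y)‖ / |D.ρ z|
          ≤ (‖ell D.ρ z X‖ + ‖ell D.ρ z Y‖) / |D.ρ z| :=
        div_le_div_of_nonneg_right h2 (abs_nonneg _)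
      have h5 : ‖X + Y‖ / Real.sqrt |D.ρ z| ≤ (‖X‖ + ‖Y‖) / Real.sqrt |D.ρ z| :=
        div_le_div_of_nonneg_right h3 (Real.sqrt_nonneg _)
      rw [add_div] at h4 h5
      linarith)
    (by
      intro c X
      have h1 : ell D.ρ z (c • X) = c * ell D.ρ z X := by
        have hc : (c • X : Cn n) = c.re • X + c.im • (Complex.I • X) := by
          ext i
          simp only [Pi.smul_apply, Pi.add_apply, smul_eq_mul, Complex.real_smul]
          conv_lhs => rw [← Complex.re_add_im c]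
          ring
        have hc' : (Complex.I • (c • X) : Cn n) = c.re • (Complex.I • X) - c.im • X := by
          ext i
          simp only [Pi.smul_apply, Pi.sub_apply, smul_eq_mul, Complex.real_smul]
          conv_lhs => rw [← Complex.re_add_im c]
          ring_nf
          simp only [Complex.I_sq]
          ring
        simp only [ell]
        rw [hc', hc]
        simp only [map_add, map_sub, map_smul, smul_eq_mul, Complex.ofReal_add,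
          Complex.ofReal_sub, Complex.ofReal_mul]
        conv_rhs => rw [← Complex.re_add_im c]
        ring_nf
        simp only [Complex.I_sq]
        ring
      rw [h1, norm_mul, norm_smul, mul_div_assoc, mul_div_assoc, ← mul_add])

lemma nrm_apply (D : Dom n) (z X : Cn n) :
    D.nrm z X = ‖ell D.ρ z X‖ / |D.ρ z| + ‖X‖ / Real.sqrt |D.ρ z| := rfl

/-- The polydisc-like ball `B(z,s) = {w : |w - z|_z < s}`. -/
noncomputable def B (D : Dom n) (z : Cn n) (s : ℝ) : Set (Cn n) := (D.nrm z).ball z s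

lemma mem_B (D : Dom n) {z w : Cn n} {s : ℝ} : w ∈ D.B z s ↔ D.nrm z (w - z) < s :=
  Seminorm.mem_ball _

/-- The quasi-distance. -/
noncomputable def qd (D : Dom n) (z w : Cn n) : ℝ :=
  D.δ z + D.δ w + ‖z - w‖ ^ 2 + ‖ell D.ρ z (z - w)‖

/-- `s₀` is a good radius: on `B(z,s₀)` all the norms `|·|_w` are comparable. -/
structure Good (D : Dom n) (s₀ : ℝ) : Prop where
  pos : 0 < s₀
  le_one : s₀ ≤ 1
  sub : ∀ z ∈ D.Ω, ∀ w ∈ D.B z s₀, w ∈ D.Ω ∧ D.δ w ≤ 2 * D.δ z ∧ D.δ z ≤ 2 * D.δ w ∧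
    ∀ X, D.nrm w X ≤ 2 * D.nrm z X ∧ D.nrm z X ≤ 2 * D.nrm w X

/-- Lattices of mesh `s`. -/
structure Lattice (D : Dom n) (s : ℝ) (A : Set (Cn n)) : Prop where
  subset : A ⊆ D.Ω
  disj : A.PairwiseDisjoint fun a => D.B a (s / 8)
  cover : ∀ z ∈ D.Ω, ∃ a ∈ A, z ∈ D.B a s

end Dom

/-- The local defining function clause of `IsSPC`. -/
structure IsLocDef (Ω U : Set (Cn n)) (ρ : Cn n → ℝ) : Prop where
  isOpen : IsOpen U
  smooth : ContDiffOn ℝ 2 ρ U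
  iff : ∀ z ∈ U, z ∈ Ω ↔ ρ z < 0
  grad : ∀ z ∈ U, fderiv ℝ ρ z ≠ 0
  levi_pos : ∀ z ∈ U, ∀ X : Cn n, X ≠ 0 → 0 < levi ρ z X

/-- `F` is a holomorphic support function at `a` (with constants `ε₀`, `c`, `C`). -/
structure LeviF (D : Dom n) (ε₀ c C : ℝ) (a : Cn n) (F : Cn n → ℂ) : Prop where
  hol : Differentiable ℂ F
  smooth : ContDiff ℝ ∞ F
  re_ge : ∀ w, ‖w - a‖ ≤ ε₀ → D.δ a - D.ρ w + c * ‖w - a‖ ^ 2 ≤ (F w).re
  norm_le : ∀ w, ‖w - a‖ ≤ ε₀ → ‖F w‖ ≤ C * (D.δ a + ‖w - a‖ ^ 2 + ‖ell D.ρ a (a - w)‖)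
  ell_le : ∀ w, ‖w - a‖ ≤ ε₀ → ‖ell D.ρ a (a - w)‖ ≤ C * (‖F w‖ + D.δ a + ‖w - a‖ ^ 2)

/-- Smooth cutoff equal to `1` on `‖w - a‖ ≤ ε/2` and `0` for `‖w - a‖ ≥ ε`. -/
noncomputable def chi (ε : ℝ) (a w : Cn n) : ℝ :=
  (⟨1 / 2, 1, by norm_num, by norm_num⟩ : ContDiffBump (0 : Cn n)) ((1 / ε) • (w - a))

/-- `t` is an atom of order `N` at `a`. -/
structure IsAtom (D : Dom n) (s₀ C : ℝ) (N : ℕ) (a : Cn n) (t : Cn n → ℂ) : Prop where
  hol : DifferentiableOn ℂ t D.Ω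
  upper : ∀ w ∈ D.Ω, ‖t w‖ ≤ C * (D.qd a w)⁻¹ ^ N
  lower : ∀ w ∈ D.B a s₀, C⁻¹ * (D.δ a)⁻¹ ^ N ≤ ‖t w‖

/-- The holomorphic representative of an element of the Bergman space. -/
noncomputable def holo {Ω : Set (Cn n)} (g : bergman Ω) : Cn n → ℂ := Classical.choose g.2

lemma holo_diff {Ω : Set (Cn n)} (g : bergman Ω) : DifferentiableOn ℂ (holo g) Ω :=
  (Classical.choose_spec g.2).1

lemma holo_ae {Ω : Set (Cn n)} (g : bergman Ω) : (g : Lp ℂ 2 (vol Ω)) =ᵐ[vol Ω] holo g :=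
  (Classical.choose_spec g.2).2

/-- Average of `f` over `S` (Lebesgue measure). -/
noncomputable def av (f : Cn n → ℂ) (S : Set (Cn n)) : ℂ := ⨍ w in S, f w

/-- Mean oscillation of `f` over `S`. -/
noncomputable def osc (f : Cn n → ℂ) (S : Set (Cn n)) : ℝ :=
  Real.sqrt (⨍ w in S, ‖f w - av f S‖ ^ 2)

lemma osc_nonneg (f : Cn n → ℂ) (S : Set (Cn n)) : 0 ≤ osc f S := Real.sqrt_nonneg _

/-- `sup_S |g|²` -/
noncomputable def supSq (g : Cn n → ℂ) (S : Set (Cn n)) : ℝ≥0∞ :=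
  ⨆ w ∈ S, ENNReal.ofReal (‖g w‖ ^ 2)

/-- Normalised `L²(S)` distance of `f` to the holomorphic functions on `S`. -/
noncomputable def distHol (f : Cn n → ℂ) (S : Set (Cn n)) : ℝ :=
  sInf {x : ℝ | ∃ g : Cn n → ℂ, DifferentiableOn ℂ g S ∧ MemLp g 2 (volume.restrict S) ∧
    x = Real.sqrt (⨍ w in S, ‖f w - g w‖ ^ 2)}

/-- `f₁` is a good smoothing of `f` with respect to the lattice `A` of mesh `s`. -/
structure Dom.Smoothing (D : Dom n) (s C : ℝ) (A : Set (Cn n)) (f f₁ : Cn n → ℂ) : Prop where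
  smooth : ContDiffOn ℝ 1 f₁ D.Ω
  dbar : ∀ a ∈ A, ∀ z ∈ D.B a s, ∀ X,
    ‖dzb f₁ z X‖ ≤ C * osc f (D.B a (32 * s)) * D.nrm z X
  close : ∀ a ∈ A, ∫ w in D.B a s, ‖f w - f₁ w‖ ^ 2
    ≤ C * osc f (D.B a (32 * s)) ^ 2 * (volume (D.B a s)).toReal

/-- `T` is a bounded extension of the Hankel operator with symbol `f`. -/
def IsHankel (Ω : Set (Cn n)) (f : Cn n → ℂ) (T : bergman Ω →L[ℂ] Lp ℂ 2 (vol Ω)) : Prop :=
  ∀ (g : bergman Ω) (h : Lp ℂ 2 (vol Ω)),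
    (h =ᵐ[vol Ω] fun z => f z * (g : Lp ℂ 2 (vol Ω)) z) →
      T g = (bergman Ω)ᗮ.starProjection h

namespace Dom

/-- The `L²` estimate for `∂̄` on the outer domains (proved in `B11b`). -/
def DbarProp (D : Dom n) : Prop := ∃ C : ℝ, 0 < C ∧ ∀ t : ℝ, 0 ≤ t → t ≤ D.η / 2 →
    ∀ (β : Cn n → Fin n → ℂ) (κ : Cn n → ℝ),
      (∀ j, AEStronglyMeasurable (fun z => β z j) (volume.restrict (D.out' t))) →
      WeakClosed (D.out' t) β → AEMeasurable κ (volume.restrict (D.out' t)) →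
      (∀ z ∈ D.out' t, 0 ≤ κ z) →
      (∀ z ∈ D.out' t, ∀ X, ‖formEval (β z) X‖
        ≤ κ z * (‖ell D.ρ z X‖ / (t - D.ρ z) + ‖X‖ / Real.sqrt (t - D.ρ z))) →
      ∫⁻ z in D.out' t, ENNReal.ofReal (κ z ^ 2) ≠ ⊤ →
      ∃ u : Cn n → ℂ, AEStronglyMeasurable u (volume.restrict (D.out' t)) ∧
        WeakDbar (D.out' t) u β ∧
        ∫⁻ z in D.out' t, ENNReal.ofReal (‖u z‖ ^ 2)
          ≤ ENNReal.ofReal C * ∫⁻ z in D.out' t, ENNReal.ofReal (κ z ^ 2)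

/-- Existence of atoms (proved in `D3`). -/
def AtomProp (D : Dom n) : Prop := ∀ s₀, D.Good s₀ → ∀ N : ℕ, 1 ≤ N →
    ∃ δ₁ C : ℝ, 0 < δ₁ ∧ δ₁ ≤ D.η ∧ 1 ≤ C ∧ ∀ a ∈ D.Ω, D.δ a < δ₁ →
      ∃ t : Cn n → ℂ, IsAtom D s₀ C N a t

/-- Size of the Bergman kernel (proved in `E4b`). -/
def KernelProp (D : Dom n) : Prop := ∃ C : ℝ, 0 < C ∧ ∀ z ∈ D.Ω,
    C⁻¹ * (D.δ z)⁻¹ ^ (n + 1) ≤ kernelDiag D.Ω z ∧
      kernelDiag D.Ω z ≤ C * (D.δ z)⁻¹ ^ (n + 1)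

/-- Size of the Bergman metric (proved in `E4c`). -/
def MetricProp (D : Dom n) : Prop := ∃ C : ℝ, 0 < C ∧ ∀ z ∈ D.Ω, ∀ X,
    C⁻¹ * D.nrm z X ≤ bergmanMetric D.Ω z X ∧ bergmanMetric D.Ω z X ≤ C * D.nrm z X

end Dom

end HankelSPC
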