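import Pool.Agent.Lib.MP_e1cf54_an.B10a

/-! Row E1a: Bergman space basics -/

open MeasureTheory Set Filter
open scoped ENNReal NNReal Topology ContDiff

namespace HankelSPC

variable {n : ℕ} {Ω : Set (Cn n)}

/-- Two continuous functions on the open set `Ω` which are equal a.e. are equal on `Ω`. -/
lemma eqOn_of_ae {f g : Cn n → ℂ} (hΩ : IsOpen Ω) (hf : ContinuousOn f Ω)
    (hg : ContinuousOn g Ω) (h : f =ᵐ[volume.restrict Ω] g) : EqOn f g Ω :=
  Measure.eqOn_open_of_ae_eq h hΩ hf hg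

/-- `vol Ω` and `volume.restrict Ω` have the same null sets. -/
lemma ae_vol_iff (h0 : volume Ω ≠ 0) (h1 : volume Ω ≠ ⊤) {p : Cn n → Prop} :
    (∀ᵐ z ∂(vol Ω), p z) ↔ ∀ᵐ z ∂(volume.restrict Ω), p z := by
  unfold vol
  exact Measure.ae_ennreal_smul_measure_iff (ENNReal.inv_ne_zero.2 h1)

lemma lintegral_vol (f : Cn n → ℝ≥0∞) :
    ∫⁻ z, f z ∂(vol Ω) = (volume Ω)⁻¹ * ∫⁻ z in Ω, f z := by
  unfold vol
  rw [lintegral_smul_measure, smul_eq_mul]

lemma integral_vol (f : Cn n → ℂ) :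
    ∫ z, f z ∂(vol Ω) = ((volume Ω)⁻¹).toReal * ∫ z in Ω, f z := by
  unfold vol
  rw [integral_smul_measure, Complex.real_smul]

/-- Norm of an element of the Bergman space. -/
lemma norm_sq_holo (h0 : volume Ω ≠ 0) (h1 : volume Ω ≠ ⊤) (g : bergman Ω) :
    ENNReal.ofReal (‖g‖ ^ 2) = (volume Ω)⁻¹ * ∫⁻ z in Ω, ENNReal.ofReal (‖holo g z‖ ^ 2) := by
  have e1 : ENNReal.ofReal (‖g‖ ^ 2) = ‖(g : Lp ℂ 2 (vol Ω))‖ₑ ^ 2 := by
    rw [← ofReal_norm, ENNReal.ofReal_pow (norm_nonneg _)]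
    rfl
  have e2 : eLpNorm (g : Lp ℂ 2 (vol Ω)) 2 (vol Ω) ^ 2
      = ∫⁻ z, ‖(g : Lp ℂ 2 (vol Ω)) z‖ₑ ^ 2 ∂(vol Ω) := by
    have := eLpNorm_nnreal_pow_eq_lintegral (f := ((g : Lp ℂ 2 (vol Ω)) : Cn n → ℂ))
      (μ := vol Ω) (p := 2) two_ne_zero
    simpa using this
  rw [e1, Lp.enorm_def, e2, ← lintegral_vol]
  refine lintegral_congr_ae ?_
  filter_upwards [holo_ae g] with z hz
  rw [hz, ← ofReal_norm, ENNReal.ofReal_pow (norm_nonneg _)]

/-- Square integrable holomorphic functions are elements of the Bergman space. -/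
lemma exists_bergman (hΩ : IsOpen Ω) (h0 : volume Ω ≠ 0) (h1 : volume Ω ≠ ⊤) {g : Cn n → ℂ}
    (hg : DifferentiableOn ℂ g Ω)
    (hi : ∫⁻ z in Ω, ENNReal.ofReal (‖g z‖ ^ 2) ≠ ⊤) : ∃ G : bergman Ω, EqOn (holo G) g Ω := by
  have hm : AEStronglyMeasurable g (vol Ω) := by
    unfold vol
    exact (hg.continuousOn.aestronglyMeasurable hΩ.measurableSet).smul_measure _
  have hmem : MemLp g 2 (vol Ω) := by
    refine ⟨hm, ?_⟩
    have e2 : eLpNorm g 2 (vol Ω) ^ 2 = ∫⁻ z, ‖g z‖ₑ ^ 2 ∂(vol Ω) := by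
      have := eLpNorm_nnreal_pow_eq_lintegral (f := g) (μ := vol Ω) (p := 2) two_ne_zero
      simpa using this
    have e3 : ∫⁻ z, ‖g z‖ₑ ^ 2 ∂(vol Ω) ≠ ⊤ := by
      rw [lintegral_vol]
      refine ENNReal.mul_ne_top (ENNReal.inv_ne_top.2 h0) ?_
      refine ne_of_eq_of_ne (lintegral_congr fun z => ?_) hi
      rw [← ofReal_norm, ENNReal.ofReal_pow (norm_nonneg _)]
    rw [← e2] at e3
    rw [lt_top_iff_ne_top]
    intro hc
    rw [hc] at e3
    simp at e3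
  let G : bergman Ω := ⟨hmem.toLp g, g, hg, hmem.coeFn_toLp⟩
  refine ⟨G, eqOn_of_ae hΩ (holo_diff G).continuousOn hg.continuousOn ?_⟩
  have e4 : holo G =ᵐ[vol Ω] g := (holo_ae G).symm.trans hmem.coeFn_toLp
  exact (ae_vol_iff h0 h1).1 e4

lemma holo_add (hΩ : IsOpen Ω) (h0 : volume Ω ≠ 0) (h1 : volume Ω ≠ ⊤) (f g : bergman Ω) :
    EqOn (holo (f + g)) (fun z => holo f z + holo g z) Ω := by
  refine eqOn_of_ae hΩ (holo_diff _).continuousOn
    ((holo_diff f).continuousOn.add (holo_diff g).continuousOn) ?_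
  refine (ae_vol_iff h0 h1).1 ?_
  have e1 : ((f + g : bergman Ω) : Lp ℂ 2 (vol Ω)) =
    (f : Lp ℂ 2 (vol Ω)) + (g : Lp ℂ 2 (vol Ω)) := rfl
  filter_upwards [holo_ae (f + g), holo_ae f, holo_ae g,
    Lp.coeFn_add (f : Lp ℂ 2 (vol Ω)) (g : Lp ℂ 2 (vol Ω))] with z h2 h3 h4 h5
  rw [← h2, ← h3, ← h4, e1, h5, Pi.add_apply]

lemma holo_smul (hΩ : IsOpen Ω) (h0 : volume Ω ≠ 0) (h1 : volume Ω ≠ ⊤) (c : ℂ) (g : bergman Ω) :
    EqOn (holo (c • g)) (fun z => c * holo g z) Ω := by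
  refine eqOn_of_ae hΩ (holo_diff _).continuousOn
    (continuousOn_const.mul (holo_diff g).continuousOn) ?_
  refine (ae_vol_iff h0 h1).1 ?_
  have e1 : ((c • g : bergman Ω) : Lp ℂ 2 (vol Ω)) = c • (g : Lp ℂ 2 (vol Ω)) := rfl
  filter_upwards [holo_ae (c • g), holo_ae g,
    Lp.coeFn_smul c (g : Lp ℂ 2 (vol Ω))] with z h2 h4 h5
  rw [← h2, ← h4, e1, h5, Pi.smul_apply, smul_eq_mul]

/-- Evaluation is bounded, locally uniformly (`sq_mean_value` on a ball). -/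
theorem eval_bound (hΩ : IsOpen Ω) (h0 : volume Ω ≠ 0) (h1 : volume Ω ≠ ⊤) {z : Cn n}
    (hz : z ∈ Ω) : ∃ r C : ℝ, 0 < r ∧ 0 < C ∧ Metric.ball z r ⊆ Ω ∧
      ∀ g : bergman Ω, ∀ w ∈ Metric.ball z r, ‖holo g w‖ ≤ C * ‖g‖ := by
  obtain ⟨R, hR, hsub⟩ := Metric.isOpen_iff.1 hΩ z hz
  have hr : 0 < R / 2 := by linarith
  have hBf : volume (Metric.ball (0 : Cn n) (R / 2)) ≠ ⊤ := measure_ball_lt_top.ne
  have hB0 : volume (Metric.ball (0 : Cn n) (R / 2)) ≠ 0 := (Metric.measure_ball_pos _ _ hr).ne'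
  have hBb : Balanced ℂ (Metric.ball (0 : Cn n) (R / 2)) := balanced_ball_zero
  have hVB : 0 < (volume (Metric.ball (0 : Cn n) (R / 2))).toReal := ENNReal.toReal_pos hB0 hBf
  have hVΩ : 0 < (volume Ω).toReal := ENNReal.toReal_pos h0 h1
  refine ⟨R / 2, Real.sqrt ((volume Ω).toReal / (volume (Metric.ball (0 : Cn n) (R / 2))).toReal),
    hr, Real.sqrt_pos.2 (by positivity), fun w hw => hsub (Metric.ball_subset_ball (by linarith) hw),
    fun g w hw => ?_⟩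
  have himg : (fun X => w + X) '' Metric.ball (0 : Cn n) (R / 2) ⊆ Ω := by
    rintro _ ⟨X, hX, rfl⟩
    apply hsub
    rw [Metric.mem_ball, dist_eq_norm] at hw ⊢
    rw [mem_ball_zero_iff] at hX
    have : w + X - z = (w - z) + X := by ring
    simp only
    rw [this]
    refine (norm_add_le _ _).trans_lt ?_
    linarith
  have hmv := sq_mean_value hBb Metric.isOpen_ball hBf (g := holo g) (z := w)
    ((holo_diff g).mono himg)
  have htrans : ∫⁻ X in Metric.ball (0 : Cn n) (R / 2), ENNReal.ofReal (‖holo g (w + X)‖ ^ 2)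
      ≤ ∫⁻ X in Ω, ENNReal.ofReal (‖holo g X‖ ^ 2) := by
    rw [← lintegral_indicator Metric.isOpen_ball.measurableSet,
      ← lintegral_indicator hΩ.measurableSet]
    rw [← lintegral_add_left_eq_self (μ := volume)
      (Ω.indicator fun X => ENNReal.ofReal (‖holo g X‖ ^ 2)) w]
    refine lintegral_mono fun X => ?_
    by_cases hX : X ∈ Metric.ball (0 : Cn n) (R / 2)
    · rw [indicator_of_mem hX, indicator_of_mem (himg ⟨X, hX, rfl⟩)]
    · rw [indicator_of_notMem hX]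
      exact zero_le
  have hnorm := norm_sq_holo h0 h1 g
  have hint : ∫⁻ X in Ω, ENNReal.ofReal (‖holo g X‖ ^ 2) = volume Ω * ENNReal.ofReal (‖g‖ ^ 2) := by
    rw [hnorm, ← mul_assoc, ENNReal.mul_inv_cancel h0 h1, one_mul]
  have hle := hmv.trans htrans
  rw [hint] at hle
  have hle2 : ‖holo g w‖ ^ 2 * (volume (Metric.ball (0 : Cn n) (R / 2))).toReal
      ≤ (volume Ω).toReal * ‖g‖ ^ 2 := by
    have := ENNReal.toReal_mono (ENNReal.mul_ne_top h1 ENNReal.ofReal_ne_top) hle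
    rw [ENNReal.toReal_mul, ENNReal.toReal_mul, ENNReal.toReal_ofReal (by positivity),
      ENNReal.toReal_ofReal (by positivity)] at this
    exact this
  have hsq : ‖holo g w‖ ^ 2
      ≤ (volume Ω).toReal / (volume (Metric.ball (0 : Cn n) (R / 2))).toReal * ‖g‖ ^ 2 := by
    rw [div_mul_eq_mul_div, le_div_iff₀ hVB]
    exact hle2
  have hnn : 0 ≤ Real.sqrt ((volume Ω).toReal /
      (volume (Metric.ball (0 : Cn n) (R / 2))).toReal) * ‖g‖ := by positivity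
  refine abs_le_of_sq_le_sq' ?_ hnn |>.2
  rw [mul_pow, Real.sq_sqrt (by positivity)]
  exact hsq

end HankelSPC
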