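import Pool.Agent.Lib.MP_e1cf54_an.E1a
import Pool.Agent.Lib.MP_e1cf54_an.B10b
import Pool.Agent.Lib.MP_e1cf54_an.B2b

/-! Row E1b: closedness, reproducing elements -/

open MeasureTheory Set Filter
open scoped ENNReal NNReal Topology ContDiff

namespace HankelSPC

variable {n : ℕ} {Ω : Set (Cn n)}

lemma E1b_isProb (h0 : volume Ω ≠ 0) (h1 : volume Ω ≠ ⊤) : IsProbabilityMeasure (vol Ω) := by
  constructor
  unfold vol
  rw [Measure.smul_apply, Measure.restrict_apply MeasurableSet.univ, univ_inter, smul_eq_mul]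
  exact ENNReal.inv_mul_cancel h0 h1

lemma E1b_cont {U : Set (Cn n)} {φ : Cn n → ℂ} (hφ : IsTest U φ) (X : Cn n) :
    Continuous fun z => dzb φ z X := by
  have h1 : Continuous (fderiv ℝ φ) := hφ.1.continuous_fderiv (by simp)
  unfold dzb
  exact continuous_const.mul ((h1.clm_apply continuous_const).add
    (continuous_const.mul (h1.clm_apply continuous_const)))

lemma E1b_zero {U : Set (Cn n)} {φ : Cn n → ℂ} (_hφ : IsTest U φ) (X : Cn n) {z : Cn n}
    (hz : z ∉ tsupport φ) : dzb φ z X = 0 := by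
  have h1 : fderiv ℝ φ z = 0 := by
    by_contra h
    exact hz (support_fderiv_subset ℝ h)
  unfold dzb
  rw [h1]
  simp

lemma E1b_memLp {U : Set (Cn n)} {φ : Cn n → ℂ} (hφ : IsTest U φ) (X : Cn n)
    (h0 : volume Ω ≠ 0) (h1 : volume Ω ≠ ⊤) :
    MemLp (fun z => (starRingEnd ℂ) (dzb φ z X)) 2 (vol Ω) := by
  have hP := E1b_isProb h0 h1
  have hc : Continuous fun z => (starRingEnd ℂ) (dzb φ z X) :=
    Complex.continuous_conj.comp (E1b_cont hφ X)
  apply hc.memLp_of_hasCompactSupport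
  apply HasCompactSupport.intro hφ.2.1
  intro z hz
  rw [E1b_zero hφ X hz, map_zero]

/-- The Bergman space is closed: an `L²` limit of holomorphic functions converges locally
uniformly by `eval_bound` (applied to differences), and locally uniform limits of holomorphic
functions are holomorphic (in several variables: `TendstoLocallyUniformlyOn` of `DifferentiableOn ℂ`
is known in Mathlib only for one variable; alternatively pass the weak formulation `WeakDbar`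
to the limit and use `weyl`). -/
theorem isClosed_bergman (hΩ : IsOpen Ω) (h0 : volume Ω ≠ 0) (h1 : volume Ω ≠ ⊤) :
    IsClosed (bergman Ω : Set (Lp ℂ 2 (vol Ω))) := by
  have hP := E1b_isProb h0 h1
  have hc0 : ((volume Ω)⁻¹).toReal ≠ 0 :=
    (ENNReal.toReal_ne_zero).2 ⟨ENNReal.inv_ne_zero.2 h1, ENNReal.inv_ne_top.2 h0⟩
  have key : (bergman Ω : Set (Lp ℂ 2 (vol Ω))) = ⋂ (q : {φ : Cn n → ℂ // IsTest Ω φ} × Fin n),
      {F | inner ℂ ((E1b_memLp (Ω := Ω) q.1.2 (ee q.2) h0 h1).toLp _) F = 0} := by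
    have hinner : ∀ (q : {φ : Cn n → ℂ // IsTest Ω φ} × Fin n) (F : Lp ℂ 2 (vol Ω)),
        inner ℂ ((E1b_memLp (Ω := Ω) q.1.2 (ee q.2) h0 h1).toLp _) F =
          ((volume Ω)⁻¹).toReal * ∫ z, F z * dzb q.1.1 z (ee q.2) := by
      intro q F
      rw [L2.inner_def]
      have h2 : (∫ a, inner ℂ (((E1b_memLp (Ω := Ω) q.1.2 (ee q.2) h0 h1).toLp _ :
          Lp ℂ 2 (vol Ω)) a) (F a) ∂(vol Ω)) = ∫ a, F a * dzb q.1.1 a (ee q.2) ∂(vol Ω) := by
        apply integral_congr_ae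
        filter_upwards [(E1b_memLp (Ω := Ω) q.1.2 (ee q.2) h0 h1).coeFn_toLp] with a ha
        rw [ha]
        simp
      rw [h2, integral_vol]
      congr 1
      apply setIntegral_eq_integral_of_forall_compl_eq_zero
      intro z hz
      rw [E1b_zero q.1.2 (ee q.2) (fun h => hz (q.1.2.2.2 h)), mul_zero]
    ext F
    simp only [mem_iInter, mem_ofPred_eq, SetLike.mem_coe]
    constructor
    · rintro ⟨g, hg, hFg⟩ q
      rw [hinner q F]
      have h2 : ∫ z, F z * dzb q.1.1 z (ee q.2) = ∫ z, g z * dzb q.1.1 z (ee q.2) := by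
        have h3 : ∀ᵐ z ∂(volume.restrict Ω), F z = g z := (ae_vol_iff h0 h1).1 hFg
        rw [← setIntegral_eq_integral_of_forall_compl_eq_zero (s := Ω) (f := fun z => F z * dzb q.1.1 z (ee q.2)),
          ← setIntegral_eq_integral_of_forall_compl_eq_zero (s := Ω) (f := fun z => g z * dzb q.1.1 z (ee q.2))]
        · apply integral_congr_ae
          filter_upwards [h3] with z hz
          rw [hz]
        · intro z hz
          rw [E1b_zero q.1.2 (ee q.2) (fun h => hz (q.1.2.2.2 h)), mul_zero]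
        · intro z hz
          rw [E1b_zero q.1.2 (ee q.2) (fun h => hz (q.1.2.2.2 h)), mul_zero]
      rw [h2, weakDbar_of_holomorphic hΩ hg q.1.1 q.1.2 q.2]
      simp
    · intro h
      have hL : MemLp F 2 (volume.restrict Ω) := by
        have h2 := Lp.memLp F
        have h3 : volume.restrict Ω = (volume Ω) • vol Ω := by
          unfold vol
          rw [smul_smul, ENNReal.mul_inv_cancel h0 h1, one_smul]
        rw [h3]
        exact h2.smul_measure h1
      have hLoc : LocL2 Ω F := fun K hK _ => hL.mono_measure (Measure.restrict_mono hK le_rfl)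
      have hW : WeakDbar Ω F fun _ _ => 0 := by
        intro φ hφ j
        have h2 := h (⟨φ, hφ⟩, j)
        rw [hinner (⟨φ, hφ⟩, j) F] at h2
        have h3 : ∫ z, F z * dzb φ z (ee j) = 0 := by
          rcases mul_eq_zero.1 h2 with h4 | h4
          · exact absurd (Complex.ofReal_eq_zero.1 h4) hc0
          · exact h4
        rw [h3]
        simp
      obtain ⟨g, hg, hFg⟩ := weyl hΩ hLoc hW
      exact ⟨g, hg, (ae_vol_iff h0 h1).2 hFg⟩
  rw [key]
  apply isClosed_iInter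
  intro q
  exact isClosed_eq (continuous_const.inner continuous_id) continuous_const

/-- The reproducing element. -/
theorem exists_repr (hΩ : IsOpen Ω) (h0 : volume Ω ≠ 0) (h1 : volume Ω ≠ ⊤) {z : Cn n}
    (hz : z ∈ Ω) : ∃ k : bergman Ω, ∀ g : bergman Ω, inner ℂ k g = holo g z := by
  obtain ⟨r, C, hr, hC, -, hb⟩ := eval_bound hΩ h0 h1 hz
  have hcomplete : CompleteSpace (bergman Ω) :=
    (isClosed_bergman hΩ h0 h1).completeSpace_coe
  let L : (bergman Ω) →ₗ[ℂ] ℂ :=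
    { toFun := fun g => holo g z
      map_add' := fun f g => holo_add hΩ h0 h1 f g hz
      map_smul' := fun c g => holo_smul hΩ h0 h1 c g hz }
  let L' : (bergman Ω) →L[ℂ] ℂ := L.mkContinuous C (fun g => hb g z (Metric.mem_ball_self hr))
  refine ⟨(InnerProductSpace.toDual ℂ (bergman Ω)).symm L', fun g => ?_⟩
  rw [InnerProductSpace.toDual_symm_apply]
  rfl

lemma E1b_lint (g : Cn n → ℂ) :
    ∫⁻ w, ‖g w‖ₑ ^ 2 ∂(vol Ω) = (volume Ω)⁻¹ * ∫⁻ w in Ω, ENNReal.ofReal (‖g w‖ ^ 2) := by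
  rw [lintegral_vol]
  congr 1
  apply lintegral_congr
  intro w
  rw [ENNReal.ofReal_pow (norm_nonneg _), ofReal_norm]

lemma E1b_le (hΩ : IsOpen Ω) (h0 : volume Ω ≠ 0) (h1 : volume Ω ≠ ⊤) {z : Cn n}
    (hz : z ∈ Ω) {k : bergman Ω} (hk : ∀ g : bergman Ω, inner ℂ k g = holo g z) {g : Cn n → ℂ}
    (hg : DifferentiableOn ℂ g Ω) (hi : (∫⁻ w, ‖g w‖ₑ ^ 2 ∂(vol Ω)) ≤ 1) : ‖g z‖ ^ 2 ≤ ‖k‖ ^ 2 := by
  rw [E1b_lint] at hi
  have hfin : ∫⁻ w in Ω, ENNReal.ofReal (‖g w‖ ^ 2) ≠ ⊤ := by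
    intro h
    rw [h, ENNReal.mul_top (ENNReal.inv_ne_zero.2 h1)] at hi
    exact absurd hi (by simp)
  obtain ⟨G, hG⟩ := exists_bergman hΩ h0 h1 hg hfin
  have h2 : ENNReal.ofReal (‖G‖ ^ 2) ≤ 1 := by
    rw [norm_sq_holo h0 h1 G]
    refine le_trans (le_of_eq ?_) hi
    congr 1
    apply setLIntegral_congr_fun hΩ.measurableSet
    intro w hw
    simp only
    rw [hG hw]
  have h3 : ‖G‖ ^ 2 ≤ 1 := by
    rw [← ENNReal.ofReal_one] at h2
    exact (ENNReal.ofReal_le_ofReal_iff zero_le_one).1 h2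
  have h4 : ‖G‖ ≤ 1 := by
    nlinarith [norm_nonneg G]
  have h5 : ‖g z‖ ≤ ‖k‖ * ‖G‖ := by
    rw [← hG hz, ← hk G]
    exact norm_inner_le_norm k G
  have h6 : ‖g z‖ ≤ ‖k‖ := h5.trans (mul_le_of_le_one_right (norm_nonneg _) h4)
  exact pow_le_pow_left₀ (norm_nonneg _) h6 2

/-- `K(z,z) = ‖k_z‖²`. -/
theorem kernelDiag_eq (hΩ : IsOpen Ω) (h0 : volume Ω ≠ 0) (h1 : volume Ω ≠ ⊤) {z : Cn n}
    (hz : z ∈ Ω) {k : bergman Ω} (hk : ∀ g : bergman Ω, inner ℂ k g = holo g z) :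
    kernelDiag Ω z = ‖k‖ ^ 2 := by
  apply IsGreatest.csSup_eq
  constructor
  · set G : bergman Ω := ((‖k‖⁻¹ : ℝ) : ℂ) • k with hGdef
    refine ⟨holo G, holo_diff G, ?_, ?_⟩
    · rw [E1b_lint, ← norm_sq_holo h0 h1 G, ← ENNReal.ofReal_one]
      apply ENNReal.ofReal_le_ofReal
      have h2 : ‖G‖ ≤ 1 := by
        rw [hGdef, norm_smul, Complex.norm_real, norm_inv, norm_norm]
        exact inv_mul_le_one
      nlinarith [norm_nonneg G]
    · have h5 : inner ℂ k G = ((‖k‖⁻¹ : ℝ) : ℂ) * inner ℂ k k := inner_smul_right k k _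
      have h6 : inner ℂ k k = ((‖k‖ : ℝ) : ℂ) ^ 2 := inner_self_eq_norm_sq_to_K k
      rw [← hk G, h5, h6]
      have h3 : (((‖k‖⁻¹ : ℝ) : ℂ) * ((‖k‖ : ℝ) : ℂ) ^ 2) = ((‖k‖ : ℝ) : ℂ) := by
        by_cases hk0 : ‖k‖ = 0
        · rw [hk0]; simp
        · have : ((‖k‖ : ℝ) : ℂ) ≠ 0 := Complex.ofReal_ne_zero.2 hk0
          push_cast
          field_simp
      have h4 : ‖((‖k‖⁻¹ : ℝ) : ℂ) * ((‖k‖ : ℝ) : ℂ) ^ 2‖ = ‖k‖ := by
        rw [h3, Complex.norm_real, norm_norm]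
      exact (congrArg (fun t => t ^ 2) h4).symm
  · rintro x ⟨g, hg, hi, rfl⟩
    exact E1b_le hΩ h0 h1 hz hk hg hi

/-- `1 ≤ K(z,z)` (the constant function `1` has norm `1`). -/
lemma one_le_kernelDiag (hΩ : IsOpen Ω) (h0 : volume Ω ≠ 0) (h1 : volume Ω ≠ ⊤) {z : Cn n}
    (hz : z ∈ Ω) : 1 ≤ kernelDiag Ω z := by
  have hP := E1b_isProb h0 h1
  obtain ⟨k, hk⟩ := exists_repr hΩ h0 h1 hz
  rw [kernelDiag_eq hΩ h0 h1 hz hk]
  have h2 := E1b_le hΩ h0 h1 hz hk (g := fun _ => 1) (differentiableOn_const 1) (by simp)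
  simpa using h2

end HankelSPC
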