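import Pool.Agent.Lib.MP_e1cf54_an.Stmt

/-! Row E2: the Laplacian of `log ‖F‖²` for a holomorphic Hilbert space valued `F`. -/

open Set Filter
open scoped ENNReal NNReal Topology ContDiff

namespace HankelSPC

private lemma E2_line {H : Type*} [NormedAddCommGroup H] [InnerProductSpace ℂ H]
    [CompleteSpace H] {F : ℂ → H} {t : ℝ} {v : ℂ}
    (hd : DifferentiableAt ℂ F ((t : ℂ) * (starRingEnd ℂ) v)) :
    HasDerivAt (fun s : ℝ => F ((s : ℂ) * (starRingEnd ℂ) v))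
      ((starRingEnd ℂ) v • deriv F ((t : ℂ) * (starRingEnd ℂ) v)) t := by
  have h1 : HasDerivAt (fun s : ℝ => (s : ℂ) * (starRingEnd ℂ) v) ((starRingEnd ℂ) v) t := by
    have := (Complex.ofRealCLM.hasDerivAt (x := t)).mul_const ((starRingEnd ℂ) v)
    simpa using this
  exact HasDerivAt.scomp t hd.hasDerivAt h1

private lemma E2_second {H : Type*} [NormedAddCommGroup H] [InnerProductSpace ℂ H]
    [CompleteSpace H] {F : ℂ → H} (hF : AnalyticAt ℂ F 0) (h0 : F 0 ≠ 0) (v : ℂ) :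
    iteratedFDeriv ℝ 2 (fun ζ : ℂ => Real.log (‖F ((starRingEnd ℂ) ζ)‖ ^ 2)) 0 ![v, v]
      = (2 * ‖v‖ ^ 2 * ‖deriv F 0‖ ^ 2
          + 2 * (inner ℂ (F 0) ((starRingEnd ℂ) v • (starRingEnd ℂ) v • deriv (deriv F) 0)).re)
            / ‖F 0‖ ^ 2
        - (2 * (inner ℂ (F 0) ((starRingEnd ℂ) v • deriv F 0)).re) ^ 2 / (‖F 0‖ ^ 2) ^ 2 := by
  let _ : InnerProductSpace ℝ H := InnerProductSpace.rclikeToReal ℂ H
  set u : ℂ → ℝ := fun ζ : ℂ => Real.log (‖F ((starRingEnd ℂ) ζ)‖ ^ 2) with hu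
  set c : ℂ := (starRingEnd ℂ) v with hc
  have hne : ‖F 0‖ ^ 2 ≠ 0 := by
    have := norm_pos_iff.mpr h0
    positivity
  -- `u` is smooth at `0`
  have hcd : ContDiffAt ℝ 2 u 0 := by
    have h1 : ContDiffAt ℝ 2 F ((starRingEnd ℂ) 0) := by
      rw [map_zero]
      exact (hF.contDiffAt (n := 2)).restrict_scalars ℝ
    have h2 : ContDiffAt ℝ 2 (fun ζ : ℂ => F ((starRingEnd ℂ) ζ)) 0 :=
      h1.comp (0 : ℂ) Complex.conjCLE.contDiff.contDiffAt
    have h3 : ContDiffAt ℝ 2 (fun ζ : ℂ => ‖F ((starRingEnd ℂ) ζ)‖ ^ 2) 0 := h2.norm_sq ℂ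
    refine h3.log ?_
    simpa using hne
  have hev : ∀ᶠ ζ in 𝓝 (0 : ℂ), ContDiffAt ℝ 2 u ζ := hcd.eventually (by simp)
  have hd2 : DifferentiableAt ℝ (fderiv ℝ u) 0 :=
    (hcd.fderiv_right (m := 1) (by norm_num)).differentiableAt (by norm_num)
  -- lines
  have hl : Tendsto (fun t : ℝ => t • v) (𝓝 0) (𝓝 0) := by
    have : Continuous fun t : ℝ => t • v := by fun_prop
    simpa using this.tendsto 0
  have hl' : Tendsto (fun t : ℝ => (t : ℂ) * c) (𝓝 0) (𝓝 0) := by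
    have : Continuous fun t : ℝ => (t : ℂ) * c := by fun_prop
    simpa using this.tendsto 0
  have hconj : ∀ t : ℝ, (starRingEnd ℂ) (t • v) = (t : ℂ) * c := by
    intro t
    rw [Complex.real_smul, map_mul, Complex.conj_ofReal]
  have hA : HasDerivAt (fun t : ℝ => fderiv ℝ u (t • v) v) (fderiv ℝ (fderiv ℝ u) 0 v v) 0 := by
    have hγ : HasDerivAt (fun t : ℝ => t • v) v 0 := by
      simpa using (hasDerivAt_id (0 : ℝ)).smul_const v
    have h1 : HasFDerivAt (fderiv ℝ u) (fderiv ℝ (fderiv ℝ u) 0) ((0 : ℝ) • v) := by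
      rw [zero_smul]; exact hd2.hasFDerivAt
    have h2 := h1.comp_hasDerivAt (0 : ℝ) hγ
    have h3 := h2.clm_apply (hasDerivAt_const (0 : ℝ) v)
    simpa using h3
  -- explicit formula for the first derivative
  have hFev : ∀ᶠ z in 𝓝 (0 : ℂ), AnalyticAt ℂ F z := hF.eventually_analyticAt
  have hFne : ∀ᶠ z in 𝓝 (0 : ℂ), F z ≠ 0 := hF.continuousAt.eventually_ne h0
  have hfirst : ∀ᶠ t : ℝ in 𝓝 (0 : ℝ), fderiv ℝ u (t • v) v
      = (2 * inner ℝ (F ((t : ℂ) * c)) (c • deriv F ((t : ℂ) * c))) / ‖F ((t : ℂ) * c)‖ ^ 2 := by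
    filter_upwards [hl.eventually hev, hl'.eventually hFev, hl'.eventually hFne] with t h1 h2 h3
    have hγ : HasDerivAt (fun t : ℝ => t • v) v t := by
      simpa using (hasDerivAt_id t).smul_const v
    have h4' : HasFDerivAt u (fderiv ℝ u (t • v)) (t • v) :=
      (h1.differentiableAt (by norm_num)).hasFDerivAt
    have h4 : HasDerivAt (u ∘ fun s : ℝ => s • v) (fderiv ℝ u (t • v) v) t :=
      HasFDerivAt.comp_hasDerivAt t h4' hγ
    have h5 : HasDerivAt (fun s : ℝ => F ((s : ℂ) * c)) (c • deriv F ((t : ℂ) * c)) t :=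
      E2_line h2.differentiableAt
    have h6 := h5.norm_sq
    have h7 := h6.log (by
      have := norm_pos_iff.mpr h3
      positivity)
    have h8 : (u ∘ fun s : ℝ => s • v) = fun s : ℝ => Real.log (‖F ((s : ℂ) * c)‖ ^ 2) := by
      funext s
      simp only [Function.comp_apply, hu, hconj]
    rw [h8] at h4
    exact h4.unique h7
  have hB : HasDerivAt (fun t : ℝ => (2 * inner ℝ (F ((t : ℂ) * c)) (c • deriv F ((t : ℂ) * c)))
      / ‖F ((t : ℂ) * c)‖ ^ 2) (fderiv ℝ (fderiv ℝ u) 0 v v) 0 :=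
    hA.congr_of_eventuallyEq (hfirst.mono fun t ht => ht.symm)
  -- explicit second derivative
  have hz : ((0 : ℝ) : ℂ) * c = 0 := by simp
  have g1 : HasDerivAt (fun s : ℝ => F ((s : ℂ) * c)) (c • deriv F 0) 0 := by
    have := E2_line (F := F) (t := 0) (v := v) (by rw [← hc, hz]; exact hF.differentiableAt)
    rw [← hc, hz] at this
    exact this
  have g2 : HasDerivAt (fun s : ℝ => deriv F ((s : ℂ) * c)) (c • deriv (deriv F) 0) 0 := by
    have := E2_line (F := deriv F) (t := 0) (v := v)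
      (by rw [← hc, hz]; exact hF.deriv.differentiableAt)
    rw [← hc, hz] at this
    exact this
  have g3 : HasDerivAt (fun s : ℝ => c • deriv F ((s : ℂ) * c)) (c • c • deriv (deriv F) 0) 0 :=
    g2.const_smul c
  have g4 := g1.inner ℝ g3
  have g5 := (g4.const_mul 2).div g1.norm_sq (by rw [hz]; exact hne)
  have g6 := hB.unique g5
  simp only [hz] at g6
  rw [iteratedFDeriv_two_apply]
  simp only [Matrix.cons_val_zero, Matrix.cons_val_one]
  rw [g6]
  have e1 : inner ℝ (c • deriv F 0) (c • deriv F 0) = ‖v‖ ^ 2 * ‖deriv F 0‖ ^ 2 := by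
    rw [real_inner_self_eq_norm_sq, norm_smul, mul_pow, hc, RCLike.norm_conj]
  rw [e1, real_inner_eq_re_inner ℂ, real_inner_eq_re_inner ℂ]
  simp only [RCLike.re_to_complex]
  field_simp
  ring

/-- `¼ Δ log ‖F‖² = (‖F‖²‖F'‖² - |⟪F,F'⟫|²)/‖F‖⁴`, for `u(ζ) = log ‖F(conj ζ)‖²` as well.
Proof: `F` is analytic (`DifferentiableOn.analyticAt`), so `h(t) = ‖F(t)‖²` has
`h' = 2Re⟪F,F'⟫`, `h'' = 2‖F'‖² + 2Re⟪F,F''⟫` along the real axis and
`h'' = 2‖F'‖² - 2Re⟪F,F''⟫` along the imaginary axis; `(log h)'' = h''/h - (h'/h)²`;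
`InnerProductSpace.laplacian_eq_iteratedFDeriv_complexPlane`. -/
theorem laplacian_log_normSq {H : Type*} [NormedAddCommGroup H] [InnerProductSpace ℂ H]
    [CompleteSpace H] {F : ℂ → H} {r : ℝ} (hr : 0 < r)
    (hF : DifferentiableOn ℂ F (Metric.ball 0 r)) (h0 : F 0 ≠ 0) :
    (1 / 4) * Laplacian.laplacian (fun ζ : ℂ => Real.log (‖F ((starRingEnd ℂ) ζ)‖ ^ 2)) 0
      = (‖F 0‖ ^ 2 * ‖deriv F 0‖ ^ 2 - ‖inner ℂ (F 0) (deriv F 0)‖ ^ 2) / ‖F 0‖ ^ 4 := by
  have hA : AnalyticAt ℂ F 0 := hF.analyticAt (Metric.ball_mem_nhds 0 hr)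
  have hne : ‖F 0‖ ≠ 0 := norm_ne_zero_iff.mpr h0
  rw [InnerProductSpace.laplacian_eq_iteratedFDeriv_complexPlane]
  simp only []
  rw [E2_second hA h0, E2_second hA h0]
  have e1 : ‖inner ℂ (F 0) (deriv F 0)‖ ^ 2
      = (inner ℂ (F 0) (deriv F 0)).re ^ 2 + (inner ℂ (F 0) (deriv F 0)).im ^ 2 := by
    rw [← Complex.normSq_eq_norm_sq, Complex.normSq_apply]; ring
  rw [e1]
  simp only [inner_smul_right, map_one, Complex.conj_I, norm_one, Complex.norm_I, one_smul,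
    Complex.mul_re, Complex.mul_im, Complex.neg_re, Complex.neg_im, Complex.I_re,
    Complex.I_im]
  field_simp
  ring

end HankelSPC
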