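import Pool.Agent.Lib.MP_e1cf54_an.E1b

/-! Row E3a: holomorphy of the reproducing elements -/

open MeasureTheory Set Filter
open scoped ENNReal NNReal Topology ContDiff

namespace HankelSPC

variable {n : ℕ} {Ω : Set (Cn n)}

lemma E3a_deriv_bound {f : ℂ → ℂ} {S A ρ : ℝ} (hρ : 0 < ρ)
    (hf : DifferentiableOn ℂ f (Metric.ball 0 (S + ρ)))
    (hA : ∀ x ∈ Metric.ball (0 : ℂ) (S + ρ), ‖f x‖ ≤ A) :
    ∀ x ∈ Metric.ball (0 : ℂ) S, ‖deriv f x‖ ≤ A / ρ := by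
  intro x hx
  have hsub : Metric.closedBall x ρ ⊆ Metric.ball 0 (S + ρ) := by
    intro y hy
    rw [Metric.mem_closedBall] at hy
    rw [Metric.mem_ball] at hx ⊢
    have := dist_triangle y x 0
    linarith
  refine Complex.norm_deriv_le_of_forall_mem_sphere_norm_le hρ
    (hf.diffContOnCl_ball hsub) fun y hy => ?_
  exact hA y (hsub (Metric.sphere_subset_closedBall hy))

lemma E3a_taylor {f : ℂ → ℂ} {A ρ : ℝ} (hρ : 0 < ρ)
    (hf : DifferentiableOn ℂ f (Metric.ball 0 (4 * ρ)))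
    (hA : ∀ x ∈ Metric.ball (0 : ℂ) (4 * ρ), ‖f x‖ ≤ A) {x h : ℂ}
    (hx : x ∈ Metric.ball (0 : ℂ) ρ) (hh : ‖h‖ ≤ ρ) :
    ‖f (x + h) - f x - h * deriv f x‖ ≤ A / ρ / ρ * ‖h‖ ^ 2 := by
  have h3 : 3 * ρ + ρ = 4 * ρ := by ring
  have h2 : 2 * ρ + ρ = 3 * ρ := by ring
  have hb1 := E3a_deriv_bound (S := 3 * ρ) hρ (by rw [h3]; exact hf) (by rw [h3]; exact hA)
  have hf' : DifferentiableOn ℂ (deriv f) (Metric.ball 0 (3 * ρ)) :=
    (hf.deriv Metric.isOpen_ball).mono (Metric.ball_subset_ball (by linarith))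
  have hb2 := E3a_deriv_bound (S := 2 * ρ) hρ (by rw [h2]; exact hf') (by rw [h2]; exact hb1)
  have hs : Metric.closedBall x ‖h‖ ⊆ Metric.ball 0 (2 * ρ) := by
    intro y hy
    rw [Metric.mem_closedBall] at hy
    rw [Metric.mem_ball] at hx ⊢
    have := dist_triangle y x 0
    linarith
  have hconv := convex_closedBall x ‖h‖
  have hxs : x ∈ Metric.closedBall x ‖h‖ := Metric.mem_closedBall_self (norm_nonneg _)
  have hA0 : 0 ≤ A / ρ / ρ := (norm_nonneg _).trans (hb2 x (hs hxs))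
  have hc1 : ∀ y ∈ Metric.closedBall x ‖h‖, ‖deriv f y - deriv f x‖ ≤ A / ρ / ρ * ‖h‖ := by
    intro y hy
    have := hconv.norm_image_sub_le_of_norm_deriv_le (f := deriv f) (C := A / ρ / ρ) (𝕜 := ℂ)
      (fun w hw => (hf' w (Metric.ball_subset_ball (by linarith) (hs hw))).differentiableAt
        (Metric.isOpen_ball.mem_nhds (Metric.ball_subset_ball (by linarith) (hs hw))))
      (fun w hw => hb2 w (hs hw)) hxs hy
    refine this.trans (mul_le_mul_of_nonneg_left ?_ hA0)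
    rw [Metric.mem_closedBall, dist_eq_norm] at hy
    exact hy
  have hys : x + h ∈ Metric.closedBall x ‖h‖ := by
    rw [Metric.mem_closedBall, dist_eq_norm]
    simp
  have hfd : ∀ w ∈ Metric.closedBall x ‖h‖, HasDerivAt f (deriv f w) w := fun w hw =>
    ((hf w (Metric.ball_subset_ball (by linarith) (hs hw))).differentiableAt
        (Metric.isOpen_ball.mem_nhds (Metric.ball_subset_ball (by linarith) (hs hw)))).hasDerivAt
  have hmain := hconv.norm_image_sub_le_of_norm_hasDerivWithin_le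
    (f := fun w => f w - w * deriv f x) (f' := fun w => deriv f w - deriv f x)
    (C := A / ρ / ρ * ‖h‖) (𝕜 := ℂ)
    (fun w hw => by
      have h5 := (hfd w hw).sub ((hasDerivAt_id w).mul_const (deriv f x))
      simp only [id, one_mul] at h5
      exact h5.hasDerivWithinAt) hc1 hxs hys
  have e : f (x + h) - (x + h) * deriv f x - (f x - x * deriv f x) =
      f (x + h) - f x - h * deriv f x := by ring
  rw [e, add_sub_cancel_left] at hmain
  calc _ ≤ A / ρ / ρ * ‖h‖ * ‖h‖ := hmain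
    _ = A / ρ / ρ * ‖h‖ ^ 2 := by ring

/-- Holomorphy of the reproducing elements along complex lines: with `k w` the reproducing element
at `w ∈ Ω`, `F ζ = k (z + conj ζ • X)` is complex differentiable near `0`, and
`⟪F' 0, g⟫ = ∂_X g(z)`. Proof: Cauchy estimates for `ζ ↦ g(z + ζX)` in a disc give
`|g(w + hX) - g(w) - h ∂_Xg(w)| ≤ C |h|² ‖g‖` uniformly in `g`, hence the difference quotients of
`F` converge in norm. -/
theorem repr_holomorphic (hΩ : IsOpen Ω) (h0 : volume Ω ≠ 0) (h1 : volume Ω ≠ ⊤) {z : Cn n}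
    (hz : z ∈ Ω) (X : Cn n) (k : Cn n → bergman Ω)
    (hk : ∀ w ∈ Ω, ∀ g : bergman Ω, inner ℂ (k w) g = holo g w) :
    ∃ r : ℝ, 0 < r ∧ (∀ ζ ∈ Metric.ball (0 : ℂ) r, z + ζ • X ∈ Ω) ∧
      DifferentiableOn ℂ (fun ζ : ℂ => k (z + ((starRingEnd ℂ) ζ) • X)) (Metric.ball 0 r) ∧
      ∀ g : bergman Ω, inner ℂ (deriv (fun ζ : ℂ => k (z + ((starRingEnd ℂ) ζ) • X)) 0) g
        = fderiv ℂ (holo g) z X := by
  have : CompleteSpace (bergman Ω) := (isClosed_bergman hΩ h0 h1).completeSpace_coe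
  obtain ⟨r0, C0, hr0, hC0, hball, hev⟩ := eval_bound hΩ h0 h1 hz
  obtain ⟨ρ, hρdef⟩ : ∃ ρ : ℝ, ρ = r0 / (4 * (‖X‖ + 1)) := ⟨_, rfl⟩
  have hX1 : 0 < ‖X‖ + 1 := by positivity
  have hρ : 0 < ρ := by rw [hρdef]; positivity
  have hmem : ∀ ζ ∈ Metric.ball (0 : ℂ) (4 * ρ), z + ζ • X ∈ Metric.ball z r0 := by
    intro ζ hζ
    rw [Metric.mem_ball, dist_zero_right] at hζ
    rw [Metric.mem_ball, dist_eq_norm, add_sub_cancel_left, norm_smul]
    have e : 4 * ρ * (‖X‖ + 1) = r0 := by rw [hρdef]; field_simp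
    calc ‖ζ‖ * ‖X‖ ≤ 4 * ρ * ‖X‖ := mul_le_mul_of_nonneg_right hζ.le (norm_nonneg _)
      _ < 4 * ρ * (‖X‖ + 1) := by nlinarith
      _ = r0 := e
  have hline : ∀ ζ : ℂ, DifferentiableAt ℂ (fun ζ : ℂ => z + ζ • X) ζ := fun ζ => by fun_prop
  have hfd : ∀ g : bergman Ω, DifferentiableOn ℂ (fun ζ : ℂ => holo g (z + ζ • X))
      (Metric.ball 0 (4 * ρ)) := by
    intro g
    refine (holo_diff g).comp (fun ζ _ => (hline ζ).differentiableWithinAt) ?_
    intro ζ hζ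
    exact hball (hmem ζ hζ)
  have hfb : ∀ g : bergman Ω, ∀ ζ ∈ Metric.ball (0 : ℂ) (4 * ρ),
      ‖holo g (z + ζ • X)‖ ≤ C0 * ‖g‖ := fun g ζ hζ => hev g _ (hmem ζ hζ)
  have hsm : ∀ ζ ∈ Metric.ball (0 : ℂ) ρ, ζ ∈ Metric.ball (0 : ℂ) (4 * ρ) := fun ζ hζ =>
    Metric.ball_subset_ball (by linarith) hζ
  -- the derivative as a bounded functional
  have hL : ∀ ζ1 ∈ Metric.ball (0 : ℂ) ρ, ∃ v : bergman Ω, ∀ g : bergman Ω,
      inner ℂ v g = deriv (fun ζ : ℂ => holo g (z + ζ • X)) ζ1 := by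
    intro ζ1 hζ1
    have hnhds : Metric.ball (0 : ℂ) (4 * ρ) ∈ 𝓝 ζ1 := Metric.isOpen_ball.mem_nhds (hsm ζ1 hζ1)
    have hd : ∀ g : bergman Ω, DifferentiableAt ℂ (fun ζ : ℂ => holo g (z + ζ • X)) ζ1 :=
      fun g => (hfd g ζ1 (hsm ζ1 hζ1)).differentiableAt hnhds
    let L : bergman Ω →ₗ[ℂ] ℂ :=
      { toFun := fun g => deriv (fun ζ : ℂ => holo g (z + ζ • X)) ζ1
        map_add' := by
          intro g g'
          have he : (fun ζ : ℂ => holo (g + g') (z + ζ • X)) =ᶠ[𝓝 ζ1]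
              fun ζ => holo g (z + ζ • X) + holo g' (z + ζ • X) := by
            filter_upwards [hnhds] with ζ hζ
            exact holo_add hΩ h0 h1 g g' (hball (hmem ζ hζ))
          rw [he.deriv_eq]
          exact deriv_fun_add (hd g) (hd g')
        map_smul' := by
          intro c g
          have he : (fun ζ : ℂ => holo (c • g) (z + ζ • X)) =ᶠ[𝓝 ζ1]
              fun ζ => c * holo g (z + ζ • X) := by
            filter_upwards [hnhds] with ζ hζ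
            exact holo_smul hΩ h0 h1 c g (hball (hmem ζ hζ))
          rw [he.deriv_eq]
          simp only [RingHom.id_apply, smul_eq_mul]
          exact deriv_const_mul c (hd g) }
    have hLb : ∀ g, ‖L g‖ ≤ C0 / ρ * ‖g‖ := by
      intro g
      have h3 : 3 * ρ + ρ = 4 * ρ := by ring
      have := E3a_deriv_bound (S := 3 * ρ) hρ (by rw [h3]; exact hfd g) (by rw [h3]; exact hfb g)
        ζ1 (Metric.ball_subset_ball (by linarith) hζ1)
      calc ‖L g‖ ≤ C0 * ‖g‖ / ρ := this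
        _ = C0 / ρ * ‖g‖ := by ring
    refine ⟨(InnerProductSpace.toDual ℂ (bergman Ω)).symm (L.mkContinuous _ hLb), fun g => ?_⟩
    rw [InnerProductSpace.toDual_symm_apply]
    rfl
  have hconj : ∀ {s : ℝ} {ζ : ℂ}, ζ ∈ Metric.ball (0 : ℂ) s →
      (starRingEnd ℂ) ζ ∈ Metric.ball (0 : ℂ) s := by
    intro s ζ hζ
    rw [Metric.mem_ball, dist_zero_right] at hζ ⊢
    rwa [Complex.norm_conj]
  have hder : ∀ ζ0 ∈ Metric.ball (0 : ℂ) ρ, ∀ v : bergman Ω,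
      (∀ g : bergman Ω, inner ℂ v g =
        deriv (fun ζ : ℂ => holo g (z + ζ • X)) ((starRingEnd ℂ) ζ0)) →
      HasDerivAt (fun ζ : ℂ => k (z + ((starRingEnd ℂ) ζ) • X)) v ζ0 := by
    intro ζ0 hζ0 v hv
    have hquad : ∀ ζ : ℂ, ‖ζ - ζ0‖ ≤ ρ →
        ‖k (z + ((starRingEnd ℂ) ζ) • X) - k (z + ((starRingEnd ℂ) ζ0) • X) - (ζ - ζ0) • v‖ ≤
          C0 / ρ / ρ * ‖ζ - ζ0‖ ^ 2 := by
      intro ζ hζ
      obtain ⟨R, hR⟩ : ∃ R, R = k (z + ((starRingEnd ℂ) ζ) • X) -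
        k (z + ((starRingEnd ℂ) ζ0) • X) - (ζ - ζ0) • v := ⟨_, rfl⟩
      rw [← hR]
      have hζ4 : ζ ∈ Metric.ball (0 : ℂ) (4 * ρ) := by
        rw [Metric.mem_ball, dist_zero_right] at hζ0 ⊢
        have : ‖ζ‖ ≤ ‖ζ - ζ0‖ + ‖ζ0‖ := by
          have := norm_add_le (ζ - ζ0) ζ0
          rwa [sub_add_cancel] at this
        linarith
      have hin : inner ℂ R R = holo R (z + ((starRingEnd ℂ) ζ0 + (starRingEnd ℂ) (ζ - ζ0)) • X) -
          holo R (z + ((starRingEnd ℂ) ζ0) • X) - (starRingEnd ℂ) (ζ - ζ0) *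
            deriv (fun ζ : ℂ => holo R (z + ζ • X)) ((starRingEnd ℂ) ζ0) := by
        have e1 : inner ℂ R R = inner ℂ (k (z + ((starRingEnd ℂ) ζ) • X) -
          k (z + ((starRingEnd ℂ) ζ0) • X) - (ζ - ζ0) • v) R := by rw [← hR]
        have e2 : inner ℂ ((ζ - ζ0) • v) R = (starRingEnd ℂ) (ζ - ζ0) * inner ℂ v R :=
          inner_smul_left v R (ζ - ζ0)
        rw [e1, inner_sub_left, inner_sub_left, e2, hv R,
          hk _ (hball (hmem _ (hconj hζ4))), hk _ (hball (hmem _ (hconj (hsm _ hζ0))))]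
        congr 3
        rw [map_sub]
        ring_nf
      have hT := E3a_taylor hρ (hfd R) (hfb R) (hconj hζ0)
        (h := (starRingEnd ℂ) (ζ - ζ0)) (by rwa [Complex.norm_conj])
      have hn : ‖(inner ℂ R R : ℂ)‖ = ‖R‖ ^ 2 := by
        have e3 : (inner ℂ R R : ℂ) = ((‖R‖ : ℝ) : ℂ) ^ 2 := inner_self_eq_norm_sq_to_K R
        rw [e3, norm_pow, Complex.norm_real, norm_norm]
      rw [← hin, Complex.norm_conj] at hT
      have hT' : ‖R‖ ^ 2 ≤ C0 * ‖R‖ / ρ / ρ * ‖ζ - ζ0‖ ^ 2 := by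
        rw [← hn]; exact hT
      rcases (norm_nonneg R).eq_or_lt with hR0 | hR0
      · rw [← hR0]; positivity
      · have : ‖R‖ * ‖R‖ ≤ ‖R‖ * (C0 / ρ / ρ * ‖ζ - ζ0‖ ^ 2) := by
          calc ‖R‖ * ‖R‖ = ‖R‖ ^ 2 := (sq _).symm
            _ ≤ C0 * ‖R‖ / ρ / ρ * ‖ζ - ζ0‖ ^ 2 := hT'
            _ = ‖R‖ * (C0 / ρ / ρ * ‖ζ - ζ0‖ ^ 2) := by ring
        exact le_of_mul_le_mul_left this hR0
    rw [hasDerivAt_iff_isLittleO, Asymptotics.isLittleO_iff]
    intro c hc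
    obtain ⟨M, hM⟩ : ∃ M : ℝ, M = C0 / ρ / ρ := ⟨_, rfl⟩
    have hM0 : 0 < M := by rw [hM]; positivity
    have hδ : 0 < min ρ (c / M) := lt_min hρ (by positivity)
    filter_upwards [Metric.ball_mem_nhds ζ0 hδ] with ζ hζ
    rw [Metric.mem_ball, dist_eq_norm] at hζ
    have h5 := hquad ζ (hζ.le.trans (min_le_left _ _))
    rw [← hM] at h5
    refine h5.trans ?_
    have h6 : M * ‖ζ - ζ0‖ ≤ c := by
      have := hζ.le.trans (min_le_right _ _)
      rw [le_div_iff₀ hM0] at this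
      linarith
    calc M * ‖ζ - ζ0‖ ^ 2 = M * ‖ζ - ζ0‖ * ‖ζ - ζ0‖ := by ring
      _ ≤ c * ‖ζ - ζ0‖ := mul_le_mul_of_nonneg_right h6 (norm_nonneg _)
  refine ⟨ρ, hρ, fun ζ hζ => hball (hmem ζ (hsm ζ hζ)), ?_, ?_⟩
  · intro ζ0 hζ0
    obtain ⟨v, hv⟩ := hL _ (hconj hζ0)
    exact (hder ζ0 hζ0 v hv).differentiableAt.differentiableWithinAt
  · intro g
    have h00 : (0 : ℂ) ∈ Metric.ball (0 : ℂ) ρ := Metric.mem_ball_self hρ
    obtain ⟨v, hv⟩ := hL _ (hconj h00)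
    rw [(hder 0 h00 v hv).deriv, hv g, map_zero]
    have hg : HasFDerivAt (holo g) (fderiv ℂ (holo g) z) (z + (0 : ℂ) • X) := by
      rw [zero_smul, add_zero]
      exact ((holo_diff g z hz).differentiableAt (hΩ.mem_nhds hz)).hasFDerivAt
    have hl : HasDerivAt (fun ζ : ℂ => z + ζ • X) X 0 := by
      have := ((hasDerivAt_id (0 : ℂ)).smul_const X).const_add z
      simpa using this
    exact (hg.comp_hasDerivAt (0 : ℂ) hl).deriv

end HankelSPC
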