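import Pool.Agent.Lib.MP_e1cf54_an.E2
import Pool.Agent.Lib.MP_e1cf54_an.E3a

/-! Row E3b: extremal characterisation -/

open MeasureTheory Set Filter
open scoped ENNReal NNReal Topology ContDiff

namespace HankelSPC

variable {n : ℕ} {Ω : Set (Cn n)}

/-- Pure Hilbert space computation: with `P = v - (⟪u,v⟫/‖u‖²) u`. -/
lemma E3b_proj {H : Type*} [NormedAddCommGroup H] [InnerProductSpace ℂ H] {u v : H}
    (hu : u ≠ 0) : ∃ P : H, (∀ g : H, inner ℂ u g = 0 → inner ℂ P g = inner ℂ v g) ∧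
      ‖P‖ ≤ ‖v‖ ∧
      (‖u‖ ^ 2 * ‖v‖ ^ 2 - ‖inner ℂ u v‖ ^ 2) / ‖u‖ ^ 4 = ‖P‖ ^ 2 / ‖u‖ ^ 2 := by
  have hu' : 0 < ‖u‖ := norm_pos_iff.2 hu
  set c : ℂ := inner ℂ u v / (‖u‖ : ℂ) ^ 2 with hc
  refine ⟨v - c • u, ?_, ?_⟩
  · intro g hg
    rw [inner_sub_left, inner_smul_left, hg, mul_zero, sub_zero]
  · have huc : (‖u‖ : ℂ) ≠ 0 := by exact_mod_cast hu'.ne'
    have horth : inner ℂ (v - c • u) (c • u) = 0 := by
      rw [inner_smul_right, inner_sub_left, inner_smul_left, inner_self_eq_norm_sq_to_K]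
      have h1 : (starRingEnd ℂ) c = inner ℂ v u / (‖u‖ : ℂ) ^ 2 := by
        rw [hc, map_div₀, inner_conj_symm, map_pow, Complex.conj_ofReal]
      rw [h1]
      have : inner ℂ v u - inner ℂ v u / (‖u‖ : ℂ) ^ 2 * ((‖u‖ : ℂ)) ^ 2 = 0 := by
        field_simp
        ring
      have h2 : inner ℂ v u - inner ℂ v u / (‖u‖ : ℂ) ^ 2 * ((RCLike.ofReal ‖u‖ : ℂ)) ^ 2 = 0 :=
        this
      rw [h2, mul_zero]
    have hpyth : ‖v‖ * ‖v‖ = ‖v - c • u‖ * ‖v - c • u‖ + ‖c • u‖ * ‖c • u‖ := by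
      have := norm_add_sq_eq_norm_sq_add_norm_sq_of_inner_eq_zero (𝕜 := ℂ) (v - c • u) (c • u) horth
      rw [sub_add_cancel] at this
      exact this
    have hcu : ‖c • u‖ * ‖c • u‖ = ‖inner ℂ u v‖ ^ 2 / ‖u‖ ^ 2 := by
      rw [norm_smul, hc, norm_div, norm_pow, Complex.norm_real, norm_norm]
      field_simp
    constructor
    · have h3 : ‖v - c • u‖ ^ 2 ≤ ‖v‖ ^ 2 := by
        nlinarith [mul_self_nonneg ‖c • u‖]
      exact (sq_le_sq₀ (norm_nonneg _) (norm_nonneg _)).1 h3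
    · have h4 : ‖v - c • u‖ ^ 2 = ‖v‖ ^ 2 - ‖inner ℂ u v‖ ^ 2 / ‖u‖ ^ 2 := by
        rw [← hcu]; linarith [sq ‖v - c • u‖, sq ‖v‖]
      rw [h4]
      field_simp

lemma E3b_norm_inner_self {H : Type*} [NormedAddCommGroup H] [InnerProductSpace ℂ H] (v : H) :
    ‖(inner ℂ v v : ℂ)‖ = ‖v‖ ^ 2 := by
  rw [inner_self_eq_norm_sq_to_K, norm_pow]
  simp

/-- The metric in terms of the projected derivative of the reproducing elements. -/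
lemma E3b_main (hΩ : IsOpen Ω) (h0 : volume Ω ≠ 0) (h1 : volume Ω ≠ ⊤) {z : Cn n}
    (hz : z ∈ Ω) (X : Cn n) : ∃ u v P : bergman Ω, (∀ g : bergman Ω, inner ℂ u g = holo g z) ∧
      (∀ g : bergman Ω, inner ℂ v g = fderiv ℂ (holo g) z X) ∧
      (∀ g : bergman Ω, inner ℂ u g = 0 → inner ℂ P g = inner ℂ v g) ∧ ‖P‖ ≤ ‖v‖ ∧
      levi (fun w => Real.log (kernelDiag Ω w)) z X = ‖P‖ ^ 2 / kernelDiag Ω z := by
  classical
  have : CompleteSpace (bergman Ω) :=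
    (isClosed_bergman hΩ h0 h1).completeSpace_coe
  have hex : ∀ w : Cn n, ∃ k : bergman Ω, w ∈ Ω → ∀ g : bergman Ω, inner ℂ k g = holo g w := by
    intro w
    by_cases hw : w ∈ Ω
    · obtain ⟨k, hk⟩ := exists_repr hΩ h0 h1 hw
      exact ⟨k, fun _ => hk⟩
    · exact ⟨0, fun h => absurd h hw⟩
  choose k hk' using hex
  have hk : ∀ w ∈ Ω, ∀ g : bergman Ω, inner ℂ (k w) g = holo g w := fun w hw => hk' w hw
  obtain ⟨r, hr, hrΩ, hdiff, hder⟩ := repr_holomorphic hΩ h0 h1 hz X k hk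
  set F : ℂ → bergman Ω := fun ζ : ℂ => k (z + ((starRingEnd ℂ) ζ) • X) with hF
  have hF0 : F 0 = k z := by simp [hF]
  have hK : kernelDiag Ω z = ‖F 0‖ ^ 2 := by
    rw [hF0]; exact kernelDiag_eq hΩ h0 h1 hz (hk z hz)
  have hK1 : 1 ≤ kernelDiag Ω z := one_le_kernelDiag hΩ h0 h1 hz
  have hF0ne : F 0 ≠ 0 := by
    intro h
    rw [hK, h, norm_zero] at hK1
    norm_num at hK1
  have hlap := laplacian_log_normSq hr hdiff hF0ne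
  have hcongr : (fun ζ : ℂ => Real.log (kernelDiag Ω (z + ζ • X)))
      =ᶠ[𝓝 0] fun ζ : ℂ => Real.log (‖F ((starRingEnd ℂ) ζ)‖ ^ 2) := by
    filter_upwards [Metric.ball_mem_nhds (0 : ℂ) hr] with ζ hζ
    have h2 : F ((starRingEnd ℂ) ζ) = k (z + ζ • X) := by
      simp only [hF, Complex.conj_conj]
    rw [h2, kernelDiag_eq hΩ h0 h1 (hrΩ ζ hζ) (hk _ (hrΩ ζ hζ))]
  have hlevi : levi (fun w => Real.log (kernelDiag Ω w)) z X
      = (1 / 4) * Laplacian.laplacian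
          (fun ζ : ℂ => Real.log (‖F ((starRingEnd ℂ) ζ)‖ ^ 2)) 0 := by
    unfold levi
    rw [(InnerProductSpace.laplacian_congr_nhds hcongr).eq_of_nhds]
  obtain ⟨P, hP1, hP2, hP3⟩ := E3b_proj (v := deriv F 0) hF0ne
  refine ⟨F 0, deriv F 0, P, ?_, hder, hP1, hP2, ?_⟩
  · intro g
    rw [hF0]; exact hk z hz g
  · rw [hlevi, hlap, hP3, hK]

/-- Upper bound for the metric. -/
theorem levi_log_le (hΩ : IsOpen Ω) (h0 : volume Ω ≠ 0) (h1 : volume Ω ≠ ⊤) {z : Cn n}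
    (hz : z ∈ Ω) (X : Cn n) {M : ℝ} (hM : 0 ≤ M)
    (h : ∀ g : bergman Ω, ‖fderiv ℂ (holo g) z X‖ ≤ M * ‖g‖) :
    levi (fun w => Real.log (kernelDiag Ω w)) z X ≤ M ^ 2 / kernelDiag Ω z := by
  obtain ⟨u, v, P, hu, hv, hP, hPv, hlevi⟩ := E3b_main hΩ h0 h1 hz X
  have hK1 : 1 ≤ kernelDiag Ω z := one_le_kernelDiag hΩ h0 h1 hz
  rw [hlevi]
  apply div_le_div_of_nonneg_right _ (by linarith)
  have hvM : ‖v‖ ≤ M := by
    have h2 := h v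
    rw [← hv v] at h2
    rw [E3b_norm_inner_self v] at h2
    by_cases hv0 : ‖v‖ = 0
    · rw [hv0]; exact hM
    · have : 0 < ‖v‖ := lt_of_le_of_ne (norm_nonneg _) (Ne.symm hv0)
      nlinarith
  have : ‖P‖ ≤ M := hPv.trans hvM
  exact pow_le_pow_left₀ (norm_nonneg _) this 2

/-- Lower bound for the metric. -/
theorem le_levi_log (hΩ : IsOpen Ω) (h0 : volume Ω ≠ 0) (h1 : volume Ω ≠ ⊤) {z : Cn n}
    (hz : z ∈ Ω) (X : Cn n) (g : bergman Ω) (hg : holo g z = 0) :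
    ‖fderiv ℂ (holo g) z X‖ ^ 2
      ≤ ‖g‖ ^ 2 * kernelDiag Ω z * levi (fun w => Real.log (kernelDiag Ω w)) z X := by
  obtain ⟨u, v, P, hu, hv, hP, hPv, hlevi⟩ := E3b_main hΩ h0 h1 hz X
  have hK1 : 1 ≤ kernelDiag Ω z := one_le_kernelDiag hΩ h0 h1 hz
  have hK0 : kernelDiag Ω z ≠ 0 := by linarith
  rw [hlevi, ← hv g, ← hP g (by rw [hu g]; exact hg)]
  have h2 : ‖(inner ℂ P g : ℂ)‖ ≤ ‖P‖ * ‖g‖ := norm_inner_le_norm P g
  have h3 : ‖(inner ℂ P g : ℂ)‖ ^ 2 ≤ (‖P‖ * ‖g‖) ^ 2 :=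
    pow_le_pow_left₀ (norm_nonneg _) h2 2
  calc ‖(inner ℂ P g : ℂ)‖ ^ 2 ≤ (‖P‖ * ‖g‖) ^ 2 := h3
    _ = ‖g‖ ^ 2 * kernelDiag Ω z * (‖P‖ ^ 2 / kernelDiag Ω z) := by
        field_simp

lemma levi_log_nonneg (hΩ : IsOpen Ω) (h0 : volume Ω ≠ 0) (h1 : volume Ω ≠ ⊤) {z : Cn n}
    (hz : z ∈ Ω) (X : Cn n) : 0 ≤ levi (fun w => Real.log (kernelDiag Ω w)) z X := by
  obtain ⟨u, v, P, hu, hv, hP, hPv, hlevi⟩ := E3b_main hΩ h0 h1 hz X
  have hK1 : 1 ≤ kernelDiag Ω z := one_le_kernelDiag hΩ h0 h1 hz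
  rw [hlevi]
  positivity

end HankelSPC
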