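import Pool.Agent.Lib.MP_e1cf54_an.B10a
import Pool.Agent.Lib.MP_e1cf54_an.C1b
import Pool.Agent.Lib.MP_e1cf54_an.C2

/-! Row E4a: sup and derivative bounds -/

open MeasureTheory Set Filter
open scoped ENNReal NNReal Topology ContDiff

namespace HankelSPC

variable {n : ℕ}

namespace Dom

/-- Sup bound on small balls: for `w ∈ B(z,s)`,
`|g(w)|² ≤ C s^{-2n} δ(z)^{-(n+1)} ∫_{B(z,2s)} |g|²` (`B(w,s/2) ⊆ B(z,2s)`, `sq_mean_value`,
`volume_B`), if `2s ≤ s₀`. -/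
theorem sup_bound (D : Dom n) {s₀ : ℝ} (h : D.Good s₀) : ∃ C : ℝ, 0 < C ∧ ∀ s, 0 < s →
    2 * s ≤ s₀ → ∀ z ∈ D.Ω, ∀ g : Cn n → ℂ, DifferentiableOn ℂ g (D.B z (2 * s)) →
      ∀ w ∈ D.B z s, ENNReal.ofReal (‖g w‖ ^ 2 * s ^ (2 * n) * D.δ z ^ (n + 1))
        ≤ ENNReal.ofReal C * ∫⁻ v in D.B z (2 * s), ENNReal.ofReal (‖g v‖ ^ 2) := by
  obtain ⟨C0, hC0, hvol⟩ := volume_B D
  refine ⟨C0 * 2 ^ (2 * n) * 2 ^ (n + 1), by positivity, ?_⟩
  intro s hs hs2 z hz g hg w hw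
  have hss : s ≤ s₀ := by linarith
  obtain ⟨hwΩ, _, hδ, _⟩ := h.sub z hz w (D.B_mono z hss hw)
  have hδw := D.δ_pos hwΩ
  have hδz := D.δ_pos hz
  have hsub : D.B w (s / 2) ⊆ D.B z (2 * s) := by
    have h1 := h.ball_trans hz (t := s / 2) hss hw
    have h2 : s + 2 * (s / 2) = 2 * s := by ring
    rwa [h2] at h1
  set B0 : Set (Cn n) := (D.nrm w).ball 0 (s / 2) with hB0
  have himg : D.B w (s / 2) = (fun X => w + X) '' B0 := D.B_eq_image w (s / 2)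
  have hvolB : volume (D.B w (s / 2)) = volume B0 := by
    rw [himg, Set.image_add_left, measure_preimage_add]
  have hopen : IsOpen B0 := by
    have h1 : B0 = (fun X => w + X) ⁻¹' (D.B w (s / 2)) := by
      rw [himg, Set.preimage_image_eq _ (add_right_injective w)]
    rw [h1]
    exact (D.isOpen_B w (s / 2)).preimage (continuous_const.add continuous_id)
  have hfin : volume B0 ≠ ⊤ := by
    rw [← hvolB]
    exact ((hvol w hwΩ (s / 2) (by positivity)).2.trans_lt ENNReal.ofReal_lt_top).ne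
  have hmv := sq_mean_value (D.balanced_ball w (s / 2)) hopen hfin (g := g) (z := w)
    (by rw [← himg]; exact hg.mono hsub)
  have hint : ∫⁻ X in B0, ENNReal.ofReal (‖g (w + X)‖ ^ 2) =
      ∫⁻ v in D.B w (s / 2), ENNReal.ofReal (‖g v‖ ^ 2) := by
    rw [himg]
    exact (measurePreserving_add_left volume w).setLIntegral_comp_emb
      (MeasurableEquiv.addLeft w).measurableEmbedding (fun v => ENNReal.ofReal (‖g v‖ ^ 2)) B0
  have hreal : ‖g w‖ ^ 2 * s ^ (2 * n) * D.δ z ^ (n + 1) ≤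
      (C0 * 2 ^ (2 * n) * 2 ^ (n + 1)) *
        (‖g w‖ ^ 2 * (C0⁻¹ * (s / 2) ^ (2 * n) * D.δ w ^ (n + 1))) := by
    have h1 : D.δ z ^ (n + 1) ≤ 2 ^ (n + 1) * D.δ w ^ (n + 1) := by
      rw [← mul_pow]
      exact pow_le_pow_left₀ hδz.le hδ _
    have h2 : (C0 * 2 ^ (2 * n) * 2 ^ (n + 1)) *
        (‖g w‖ ^ 2 * (C0⁻¹ * (s / 2) ^ (2 * n) * D.δ w ^ (n + 1))) =
        ‖g w‖ ^ 2 * s ^ (2 * n) * (2 ^ (n + 1) * D.δ w ^ (n + 1)) := by
      rw [div_pow]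
      field_simp
    rw [h2]
    exact mul_le_mul_of_nonneg_left h1 (by positivity)
  calc ENNReal.ofReal (‖g w‖ ^ 2 * s ^ (2 * n) * D.δ z ^ (n + 1))
      ≤ ENNReal.ofReal ((C0 * 2 ^ (2 * n) * 2 ^ (n + 1)) *
        (‖g w‖ ^ 2 * (C0⁻¹ * (s / 2) ^ (2 * n) * D.δ w ^ (n + 1)))) :=
        ENNReal.ofReal_le_ofReal hreal
    _ = ENNReal.ofReal (C0 * 2 ^ (2 * n) * 2 ^ (n + 1)) * (ENNReal.ofReal (‖g w‖ ^ 2) *
        ENNReal.ofReal (C0⁻¹ * (s / 2) ^ (2 * n) * D.δ w ^ (n + 1))) := by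
        rw [ENNReal.ofReal_mul (p := C0 * 2 ^ (2 * n) * 2 ^ (n + 1)) (by positivity),
          ENNReal.ofReal_mul (p := ‖g w‖ ^ 2) (by positivity)]
    _ ≤ ENNReal.ofReal (C0 * 2 ^ (2 * n) * 2 ^ (n + 1)) * (ENNReal.ofReal (‖g w‖ ^ 2) *
        volume B0) := by
        gcongr
        rw [← hvolB]
        exact (hvol w hwΩ (s / 2) (by positivity)).1
    _ ≤ ENNReal.ofReal (C0 * 2 ^ (2 * n) * 2 ^ (n + 1)) *
        ∫⁻ v in D.B z (2 * s), ENNReal.ofReal (‖g v‖ ^ 2) := by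
        gcongr
        refine hmv.trans ?_
        rw [hint]
        exact lintegral_mono_set hsub

/-- Derivative bound (Cauchy on the disc `λ ↦ g(z + λX)`, `|λ| < s/|X|_z`). -/
theorem deriv_bound (D : Dom n) {s₀ : ℝ} (h : D.Good s₀) : ∃ C : ℝ, 0 < C ∧
    ∀ z ∈ D.Ω, ∀ g : Cn n → ℂ, DifferentiableOn ℂ g D.Ω → ∀ X,
      ENNReal.ofReal (‖fderiv ℂ g z X‖ ^ 2 * D.δ z ^ (n + 1))
        ≤ ENNReal.ofReal (C * D.nrm z X ^ 2) * ∫⁻ v in D.Ω, ENNReal.ofReal (‖g v‖ ^ 2) := by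
  obtain ⟨C', hC', hsup⟩ := D.sup_bound h
  have hs0 := h.pos
  set s : ℝ := s₀ / 2 with hs
  have hspos : 0 < s := by positivity
  refine ⟨C' * 4 / (s ^ (2 * n) * s ^ 2), by positivity, ?_⟩
  intro z hz g hg X
  have hδ := D.δ_pos hz
  set I : ℝ≥0∞ := ∫⁻ v in D.Ω, ENNReal.ofReal (‖g v‖ ^ 2) with hI
  have hm0 : 0 ≤ D.nrm z X := apply_nonneg _ _
  rcases hm0.eq_or_lt with hm | hm
  · have hX : X = 0 := D.nrm_eq_zero hz hm.symm
    subst hX
    simp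
  by_cases hIt : I = ⊤
  · rw [hIt, ENNReal.mul_top]
    · exact le_top
    · rw [Ne, ENNReal.ofReal_eq_zero, not_le]
      positivity
  have h2s : 2 * s ≤ s₀ := by rw [hs]; linarith
  have hBΩ : D.B z (2 * s) ⊆ D.Ω := h.B_subset hz h2s
  have hptw : ∀ w ∈ D.B z s, ‖g w‖ ^ 2 * (s ^ (2 * n) * D.δ z ^ (n + 1)) ≤ C' * I.toReal := by
    intro w hw
    have h1 := hsup s hspos h2s z hz g (hg.mono hBΩ) w hw
    have h2 : ENNReal.ofReal (‖g w‖ ^ 2 * s ^ (2 * n) * D.δ z ^ (n + 1)) ≤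
        ENNReal.ofReal (C' * I.toReal) := by
      refine h1.trans ?_
      rw [ENNReal.ofReal_mul hC'.le, ENNReal.ofReal_toReal hIt]
      gcongr
      exact lintegral_mono_set hBΩ
    rw [ENNReal.ofReal_le_ofReal_iff (by positivity)] at h2
    linarith
  set W : ℝ := s ^ (2 * n) * D.δ z ^ (n + 1) with hW
  have hWpos : 0 < W := by positivity
  set M : ℝ := Real.sqrt (C' * I.toReal / W) with hM
  have hMsq : M ^ 2 = C' * I.toReal / W := Real.sq_sqrt (by positivity)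
  have hgM : ∀ w ∈ D.B z s, ‖g w‖ ≤ M := by
    intro w hw
    refine Real.le_sqrt_of_sq_le ?_
    rw [le_div_iff₀ hWpos]
    exact hptw w hw
  set r : ℝ := s / (2 * D.nrm z X) with hr
  have hrpos : 0 < r := by positivity
  have hline : ∀ l : ℂ, l ∈ Metric.closedBall (0 : ℂ) r → z + l • X ∈ D.B z s := by
    intro l hl
    rw [mem_closedBall_zero_iff] at hl
    rw [mem_B, add_sub_cancel_left, map_smul_eq_mul]
    calc ‖l‖ * D.nrm z X ≤ r * D.nrm z X := by gcongr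
      _ = s / 2 := by rw [hr]; field_simp
      _ < s := by linarith
  have hsΩ : D.B z s ⊆ D.Ω := (D.B_mono z (by linarith)).trans hBΩ
  have hdl : Differentiable ℂ (fun l : ℂ => z + l • X) :=
    (differentiable_const _).add (differentiable_id.smul_const X)
  have hdiff : DiffContOnCl ℂ (fun l : ℂ => g (z + l • X)) (Metric.ball 0 r) := by
    refine DifferentiableOn.diffContOnCl ?_
    refine hg.comp hdl.differentiableOn ?_
    intro l hl
    exact hsΩ (hline l (Metric.closure_ball_subset_closedBall hl))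
  have hcau := Complex.norm_deriv_le_of_forall_mem_sphere_norm_le hrpos hdiff (C := M)
    (fun l hl => hgM _ (hline l (Metric.sphere_subset_closedBall hl)))
  have hder : deriv (fun l : ℂ => g (z + l • X)) 0 = fderiv ℂ g z X := by
    have h1 : HasFDerivAt g (fderiv ℂ g z) (z + (0 : ℂ) • X) := by
      rw [zero_smul, add_zero]
      exact ((hg z hz).differentiableAt (D.isOpen_Ω.mem_nhds hz)).hasFDerivAt
    have h2 : HasDerivAt (fun l : ℂ => z + l • X) X 0 := by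
      simpa using ((hasDerivAt_id (0 : ℂ)).smul_const X).const_add z
    exact (h1.comp_hasDerivAt (0 : ℂ) h2).deriv
  rw [hder] at hcau
  have hM0 : 0 ≤ M := Real.sqrt_nonneg _
  have hfin : ‖fderiv ℂ g z X‖ ^ 2 * D.δ z ^ (n + 1) ≤
      C' * 4 / (s ^ (2 * n) * s ^ 2) * D.nrm z X ^ 2 * I.toReal := by
    have h1 : ‖fderiv ℂ g z X‖ ^ 2 ≤ (M / r) ^ 2 := pow_le_pow_left₀ (norm_nonneg _) hcau 2
    have h2 : (M / r) ^ 2 * D.δ z ^ (n + 1) =
        C' * 4 / (s ^ (2 * n) * s ^ 2) * D.nrm z X ^ 2 * I.toReal := by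
      rw [div_pow, hMsq, hr, hW]
      field_simp
      ring
    rw [← h2]
    gcongr
  calc ENNReal.ofReal (‖fderiv ℂ g z X‖ ^ 2 * D.δ z ^ (n + 1))
      ≤ ENNReal.ofReal (C' * 4 / (s ^ (2 * n) * s ^ 2) * D.nrm z X ^ 2 * I.toReal) :=
        ENNReal.ofReal_le_ofReal hfin
    _ = ENNReal.ofReal (C' * 4 / (s ^ (2 * n) * s ^ 2) * D.nrm z X ^ 2) * I := by
        rw [ENNReal.ofReal_mul (by positivity), ENNReal.ofReal_toReal hIt]

end Dom

end HankelSPC
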