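import Pool.Agent.Lib.MP_e1cf54_an.C5
import Pool.Agent.Lib.MP_e1cf54_an.C2
import Pool.Agent.Lib.MP_e1cf54_an.E4a
import Pool.Agent.Lib.MP_e1cf54_an.E1b

/-! Row E4b: kernel bounds -/

open MeasureTheory Set Filter
open scoped ENNReal NNReal Topology ContDiff

namespace HankelSPC

variable {n : ℕ}

namespace Dom

theorem E4b_lint (D : Dom n) (g : Cn n → ℂ) :
    ∫⁻ w, ‖g w‖ₑ ^ 2 ∂(vol D.Ω)
      = (volume D.Ω)⁻¹ * ∫⁻ w in D.Ω, ENNReal.ofReal (‖g w‖ ^ 2) := by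
  rw [lintegral_vol]
  congr 1
  refine lintegral_congr fun w => ?_
  rw [ENNReal.ofReal_pow (norm_nonneg _), ofReal_norm]

theorem E4b_upper (D : Dom n) : ∃ C : ℝ, 0 < C ∧ ∀ z ∈ D.Ω, ∀ g : Cn n → ℂ,
    DifferentiableOn ℂ g D.Ω → (∫⁻ w, ‖g w‖ₑ ^ 2 ∂(vol D.Ω)) ≤ 1 →
      ‖g z‖ ^ 2 ≤ C * (D.δ z)⁻¹ ^ (n + 1) := by
  obtain ⟨s₀, hs₀⟩ := D.exists_good
  obtain ⟨C₁, hC₁, h1⟩ := D.sup_bound hs₀
  have hpos := hs₀.pos
  have hs : 0 < s₀ / 2 := by linarith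
  have hV0 : volume D.Ω ≠ 0 := D.volume_Ω_pos.ne'
  have hV1 : volume D.Ω ≠ ⊤ := D.volume_Ω_lt_top.ne
  set V := (volume D.Ω).toReal with hV
  have hVp : 0 < V := ENNReal.toReal_pos hV0 hV1
  refine ⟨C₁ * V * ((s₀ / 2) ^ (2 * n))⁻¹, by positivity, ?_⟩
  intro z hz g hg hi
  have hδ := D.δ_pos hz
  have hsub : D.B z (2 * (s₀ / 2)) ⊆ D.Ω := by
    have : 2 * (s₀ / 2) = s₀ := by ring
    rw [this]; exact hs₀.B_subset hz le_rfl
  have h2 := h1 (s₀ / 2) hs (by linarith) z hz g (hg.mono hsub) z (D.self_mem_B z hs)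
  rw [E4b_lint] at hi
  have h3 : ∫⁻ w in D.Ω, ENNReal.ofReal (‖g w‖ ^ 2) ≤ volume D.Ω := by
    have h4 : volume D.Ω * ((volume D.Ω)⁻¹ * ∫⁻ w in D.Ω, ENNReal.ofReal (‖g w‖ ^ 2))
        ≤ volume D.Ω * 1 := by gcongr
    rwa [← mul_assoc, ENNReal.mul_inv_cancel hV0 hV1, one_mul, mul_one] at h4
  have h5 : ENNReal.ofReal (‖g z‖ ^ 2 * (s₀ / 2) ^ (2 * n) * D.δ z ^ (n + 1))
      ≤ ENNReal.ofReal (C₁ * V) := by
    refine h2.trans ?_
    rw [ENNReal.ofReal_mul hC₁.le, hV, ENNReal.ofReal_toReal hV1]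
    gcongr
    exact (lintegral_mono_set hsub).trans h3
  have h6 := (ENNReal.ofReal_le_ofReal_iff (by positivity)).1 h5
  have hsp : 0 < (s₀ / 2) ^ (2 * n) := by positivity
  have hdp : 0 < D.δ z ^ (n + 1) := by positivity
  rw [inv_pow]
  rw [← div_eq_mul_inv, ← div_eq_mul_inv, div_div, le_div_iff₀ (by positivity)]
  calc _ = ‖g z‖ ^ 2 * (s₀ / 2) ^ (2 * n) * D.δ z ^ (n + 1) := by ring
    _ ≤ _ := h6

/-- `K(z,z) ≈ δ(z)^{-(n+1)}`. Upper: `sup_bound`. Lower: for `δ(z) < δ₁` the atom `t_z` with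
`N = n + 2`: `‖t_z‖² ≤ C ∫ qd^{-2N} ≤ C δ^{n+1-2N}` (`integral_est` with `a = n+1`), `|t_z(z)|² ≥ c
δ^{-2N}`; for `δ(z) ≥ δ₁`: `1 ≤ K`. -/
theorem kernel_bounds (D : Dom n) (hA : D.AtomProp) : D.KernelProp := by
  obtain ⟨C₀, hC₀, hup⟩ := E4b_upper D
  obtain ⟨s₀, hs₀⟩ := D.exists_good
  obtain ⟨δ₁, C₂, hδ₁, hδη, hC₂, hat⟩ := hA s₀ hs₀ (n + 2) (by omega)
  obtain ⟨C₃, hC₃, hint⟩ := D.integral_est (a := n + 1) (b := 2 * n + 4) (by linarith)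
    (by have : (0:ℝ) ≤ n := Nat.cast_nonneg n
        linarith)
  have hpos := hs₀.pos
  have hV0 : volume D.Ω ≠ 0 := D.volume_Ω_pos.ne'
  have hV1 : volume D.Ω ≠ ⊤ := D.volume_Ω_lt_top.ne
  set V := (volume D.Ω).toReal with hV
  have hVp : 0 < V := ENNReal.toReal_pos hV0 hV1
  have hC₂0 : 0 < C₂ := by linarith
  -- constants
  set c₁ : ℝ := V / (C₂ ^ 4 * C₃) with hc₁
  have hc₁p : 0 < c₁ := by positivity
  set c₂ : ℝ := δ₁ ^ (n + 1) with hc₂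
  have hc₂p : 0 < c₂ := by positivity
  refine ⟨C₀ + c₁⁻¹ + c₂⁻¹, by positivity, ?_⟩
  intro z hz
  have hδ := D.δ_pos hz
  set x : ℝ := (D.δ z)⁻¹ ^ (n + 1) with hx
  have hxp : 0 < x := by positivity
  have hbdd : BddAbove {x : ℝ | ∃ g : Cn n → ℂ, DifferentiableOn ℂ g D.Ω ∧
      (∫⁻ w, ‖g w‖ₑ ^ 2 ∂(vol D.Ω)) ≤ 1 ∧ x = ‖g z‖ ^ 2} := by
    refine ⟨C₀ * x, ?_⟩
    rintro y ⟨g, hg, hi, rfl⟩
    exact hup z hz g hg hi
  have hone := one_le_kernelDiag D.isOpen_Ω hV0 hV1 hz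
  constructor
  · by_cases hcase : D.δ z < δ₁
    · -- atoms
      obtain ⟨t, ht⟩ := hat z hz hcase
      have hlow := ht.lower z (D.self_mem_B z hpos)
      -- the integral
      have hI : ∫⁻ w in D.Ω, ENNReal.ofReal (‖t w‖ ^ 2)
          ≤ ENNReal.ofReal (C₂ ^ 2 * (C₃ * (D.δ z)⁻¹ ^ (n + 3))) := by
        have h1 : ∫⁻ w in D.Ω, ENNReal.ofReal (‖t w‖ ^ 2) ≤ ∫⁻ w in D.Ω,
            ENNReal.ofReal (C₂ ^ 2) * ENNReal.ofReal (D.δ w ^ (((n:ℝ) + 1) - n - 1)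
              * D.qd z w ^ (-(2 * (n:ℝ) + 4))) := by
          refine setLIntegral_mono_ae' D.isOpen_Ω.measurableSet (ae_of_all _ fun w hw => ?_)
          rw [← ENNReal.ofReal_mul (by positivity)]
          refine ENNReal.ofReal_le_ofReal ?_
          have hu := ht.upper w hw
          have hq := D.qd_pos hz hw
          have e1 : D.δ w ^ (((n:ℝ) + 1) - n - 1) = 1 := by
            have : ((n:ℝ) + 1) - n - 1 = 0 := by ring
            rw [this, Real.rpow_zero]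
          have e2 : D.qd z w ^ (-(2 * (n:ℝ) + 4)) = ((D.qd z w)⁻¹ ^ (n + 2)) ^ 2 := by
            rw [← pow_mul, Real.rpow_neg hq.le, inv_pow]
            congr 1
            rw [← Real.rpow_natCast]
            congr 1
            push_cast; ring
          rw [e1, e2, one_mul, ← mul_pow]
          gcongr
        refine h1.trans ?_
        rw [lintegral_const_mul' _ _ ENNReal.ofReal_ne_top]
        have h2 := hint z hz
        have e3 : D.δ z ^ (((n:ℝ) + 1) - (2 * (n:ℝ) + 4)) = (D.δ z)⁻¹ ^ (n + 3) := by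
          rw [inv_pow, ← Real.rpow_natCast, ← Real.rpow_neg hδ.le]
          congr 1
          push_cast; ring
        rw [e3] at h2
        rw [ENNReal.ofReal_mul (by positivity)]
        gcongr
      set M : ℝ := C₂ ^ 2 * (C₃ * (D.δ z)⁻¹ ^ (n + 3)) with hM
      have hMp : 0 < M := by positivity
      set κ : ℝ := Real.sqrt (V / M) with hκ
      have hκ2 : κ ^ 2 = V / M := Real.sq_sqrt (by positivity)
      have hmem : ‖(κ : ℂ) * t z‖ ^ 2 ∈ {x : ℝ | ∃ g : Cn n → ℂ, DifferentiableOn ℂ g D.Ω ∧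
          (∫⁻ w, ‖g w‖ₑ ^ 2 ∂(vol D.Ω)) ≤ 1 ∧ x = ‖g z‖ ^ 2} := by
        refine ⟨fun w => (κ : ℂ) * t w, ht.hol.const_mul _, ?_, rfl⟩
        rw [E4b_lint]
        have h3 : ∫⁻ w in D.Ω, ENNReal.ofReal (‖(κ : ℂ) * t w‖ ^ 2)
            = ENNReal.ofReal (V / M) * ∫⁻ w in D.Ω, ENNReal.ofReal (‖t w‖ ^ 2) := by
          rw [← lintegral_const_mul' _ _ ENNReal.ofReal_ne_top]
          refine lintegral_congr fun w => ?_
          rw [← ENNReal.ofReal_mul (by positivity), norm_mul, mul_pow, Complex.norm_real,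
            Real.norm_eq_abs, sq_abs, hκ2]
        rw [h3]
        calc (volume D.Ω)⁻¹ * (ENNReal.ofReal (V / M) * ∫⁻ w in D.Ω, ENNReal.ofReal (‖t w‖ ^ 2))
            ≤ (volume D.Ω)⁻¹ * (ENNReal.ofReal (V / M) * ENNReal.ofReal M) := by gcongr
          _ = (volume D.Ω)⁻¹ * volume D.Ω := by
              rw [← ENNReal.ofReal_mul (by positivity), div_mul_cancel₀ _ hMp.ne', hV,
                ENNReal.ofReal_toReal hV1]
          _ = 1 := ENNReal.inv_mul_cancel hV0 hV1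
      have h4 : ‖(κ : ℂ) * t z‖ ^ 2 ≤ kernelDiag D.Ω z := le_csSup hbdd hmem
      have h5 : c₁ * x ≤ ‖(κ : ℂ) * t z‖ ^ 2 := by
        rw [norm_mul, mul_pow, Complex.norm_real, Real.norm_eq_abs, sq_abs, hκ2]
        have h6 : (C₂⁻¹ * (D.δ z)⁻¹ ^ (n + 2)) ^ 2 ≤ ‖t z‖ ^ 2 := by gcongr
        calc c₁ * x = V / M * (C₂⁻¹ * (D.δ z)⁻¹ ^ (n + 2)) ^ 2 := by
              rw [hc₁, hx, hM]
              have hd : D.δ z ≠ 0 := hδ.ne'
              field_simp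
              try ring
          _ ≤ _ := by gcongr
      have h7 : (C₀ + c₁⁻¹ + c₂⁻¹)⁻¹ ≤ c₁ := by
        rw [inv_le_comm₀ (by positivity) hc₁p]
        have : 0 < c₂⁻¹ := by positivity
        linarith
      calc (C₀ + c₁⁻¹ + c₂⁻¹)⁻¹ * x ≤ c₁ * x := by gcongr
        _ ≤ _ := h5.trans h4
    · push Not at hcase
      have h7 : (C₀ + c₁⁻¹ + c₂⁻¹)⁻¹ ≤ c₂ := by
        rw [inv_le_comm₀ (by positivity) hc₂p]
        have : 0 < c₁⁻¹ := by positivity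
        linarith
      calc (C₀ + c₁⁻¹ + c₂⁻¹)⁻¹ * x ≤ c₂ * x := by gcongr
        _ = (δ₁ * (D.δ z)⁻¹) ^ (n + 1) := by rw [hc₂, hx, mul_pow]
        _ ≤ 1 := by
            refine pow_le_one₀ (by positivity) ?_
            rw [← div_eq_mul_inv, div_le_one hδ]
            exact hcase
        _ ≤ _ := hone
  · have h1 : kernelDiag D.Ω z ≤ C₀ * x := by
      refine csSup_le ?_ ?_
      · refine ⟨_, ⟨fun _ => 0, differentiableOn_const 0, ?_, rfl⟩⟩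
        simp
      · rintro y ⟨g, hg, hi, rfl⟩
        exact hup z hz g hg hi
    refine h1.trans ?_
    have h8 : C₀ ≤ C₀ + c₁⁻¹ + c₂⁻¹ := by
      have h9 : 0 < c₁⁻¹ := by positivity
      have h10 : 0 < c₂⁻¹ := by positivity
      linarith
    gcongr

end Dom

end HankelSPC
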