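import Pool.Agent.Lib.MP_e1cf54_an.C5
import Pool.Agent.Lib.MP_e1cf54_an.E4a
import Pool.Agent.Lib.MP_e1cf54_an.E3b
import Pool.Agent.Lib.MP_e1cf54_an.C2

/-! Row E4c: metric bounds -/

open MeasureTheory Set Filter
open scoped ENNReal NNReal Topology ContDiff

namespace HankelSPC

variable {n : ℕ}

namespace Dom

/-- real form of `norm_sq_holo` -/
lemma E4c_norm_le (D : Dom n) (G : bergman D.Ω) {R : ℝ} (hR : 0 ≤ R)
    (h : ∫⁻ w in D.Ω, ENNReal.ofReal (‖holo G w‖ ^ 2) ≤ ENNReal.ofReal R) :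
    ‖G‖ ^ 2 ≤ (volume D.Ω).toReal⁻¹ * R := by
  have h0 : volume D.Ω ≠ 0 := D.volume_Ω_pos.ne'
  have h1 : volume D.Ω ≠ ⊤ := D.volume_Ω_lt_top.ne
  have h2 := norm_sq_holo h0 h1 G
  have h3 : ENNReal.ofReal (‖G‖ ^ 2) ≤ (volume D.Ω)⁻¹ * ENNReal.ofReal R := by
    rw [h2]; gcongr
  have h4 : (volume D.Ω)⁻¹ * ENNReal.ofReal R
      = ENNReal.ofReal ((volume D.Ω).toReal⁻¹ * R) := by
    rw [ENNReal.ofReal_mul (by positivity), ENNReal.ofReal_inv_of_pos
      (ENNReal.toReal_pos h0 h1), ENNReal.ofReal_toReal h1]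
  rw [h4] at h3
  exact (ENNReal.ofReal_le_ofReal_iff (by positivity)).1 h3

/-- Lower bound for the Levi form of `log K` given by a test function `lam (w - z) t(w)`. -/
theorem E4c_aux (D : Dom n) {N m : ℕ} {s₀ CA CK CI : ℝ} (hs₀ : D.Good s₀) (hCA : 1 ≤ CA)
    (hCK : 0 < CK) (hCI : 0 < CI)
    (hK : ∀ z ∈ D.Ω, kernelDiag D.Ω z ≤ CK * (D.δ z)⁻¹ ^ (n + 1))
    (hI : ∀ z ∈ D.Ω, ∫⁻ w in D.Ω, ENNReal.ofReal (D.qd z w ^ (-(2 * (N : ℝ) - m)))
      ≤ ENNReal.ofReal (CI * D.δ z ^ ((n : ℝ) + 1 - (2 * (N : ℝ) - m))))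
    {z : Cn n} (hz : z ∈ D.Ω) {t : Cn n → ℂ} (ht : IsAtom D s₀ CA N z t)
    (lam : Cn n →L[ℂ] ℂ) (hlam : ∀ w ∈ D.Ω, ‖lam (w - z)‖ ^ 2 ≤ D.qd z w ^ m) (X : Cn n) :
    ‖lam X‖ ^ 2 ≤ CA ^ 4 * CI * CK * (volume D.Ω).toReal⁻¹ * D.δ z ^ m
      * levi (fun w => Real.log (kernelDiag D.Ω w)) z X := by
  have h0 : volume D.Ω ≠ 0 := D.volume_Ω_pos.ne'
  have h1 : volume D.Ω ≠ ⊤ := D.volume_Ω_lt_top.ne
  have hΩ := D.isOpen_Ω
  have hδ := D.δ_pos hz
  have hCA0 : 0 < CA := by linarith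
  set g : Cn n → ℂ := fun w => lam (w - z) * t w with hg
  have hgd : DifferentiableOn ℂ g D.Ω := by
    refine DifferentiableOn.mul ?_ ht.hol
    exact (lam.differentiable.comp (differentiable_id.sub_const z)).differentiableOn
  have hgb : ∀ w ∈ D.Ω, ‖g w‖ ^ 2 ≤ CA ^ 2 * D.qd z w ^ (-(2 * (N : ℝ) - m)) := by
    intro w hw
    have hq := D.qd_pos hz hw
    have e1 : ‖g w‖ ^ 2 = ‖lam (w - z)‖ ^ 2 * ‖t w‖ ^ 2 := by
      simp only [hg, norm_mul]; ring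
    have e2 : ‖t w‖ ^ 2 ≤ (CA * (D.qd z w)⁻¹ ^ N) ^ 2 := by
      have := ht.upper w hw
      gcongr
    have e3 : D.qd z w ^ (-(2 * (N : ℝ) - m)) = D.qd z w ^ m * ((D.qd z w)⁻¹ ^ N) ^ 2 := by
      rw [show -(2 * (N : ℝ) - m) = (m : ℝ) + (-((2 * N : ℕ) : ℝ)) by push_cast; ring,
        Real.rpow_add hq, Real.rpow_natCast, Real.rpow_neg hq.le, Real.rpow_natCast,
        inv_pow, inv_pow]
      congr 1
      rw [← pow_mul, mul_comm N 2]
    rw [e1, e3]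
    calc ‖lam (w - z)‖ ^ 2 * ‖t w‖ ^ 2 ≤ D.qd z w ^ m * (CA * (D.qd z w)⁻¹ ^ N) ^ 2 := by
          apply mul_le_mul (hlam w hw) e2 (by positivity) (by positivity)
      _ = CA ^ 2 * (D.qd z w ^ m * ((D.qd z w)⁻¹ ^ N) ^ 2) := by ring
  set R : ℝ := CA ^ 2 * (CI * D.δ z ^ ((n : ℝ) + 1 - (2 * (N : ℝ) - m))) with hR
  have hR0 : 0 ≤ R := by positivity
  have hint : ∫⁻ w in D.Ω, ENNReal.ofReal (‖g w‖ ^ 2) ≤ ENNReal.ofReal R := by
    calc ∫⁻ w in D.Ω, ENNReal.ofReal (‖g w‖ ^ 2)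
        ≤ ∫⁻ w in D.Ω, ENNReal.ofReal (CA ^ 2) *
            ENNReal.ofReal (D.qd z w ^ (-(2 * (N : ℝ) - m))) := by
          refine setLIntegral_mono' hΩ.measurableSet fun w hw => ?_
          rw [← ENNReal.ofReal_mul (by positivity)]
          exact ENNReal.ofReal_le_ofReal (hgb w hw)
      _ = ENNReal.ofReal (CA ^ 2) * ∫⁻ w in D.Ω,
            ENNReal.ofReal (D.qd z w ^ (-(2 * (N : ℝ) - m))) := by
          rw [lintegral_const_mul' _ _ ENNReal.ofReal_ne_top]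
      _ ≤ ENNReal.ofReal (CA ^ 2) * ENNReal.ofReal
            (CI * D.δ z ^ ((n : ℝ) + 1 - (2 * (N : ℝ) - m))) := by
          gcongr; exact hI z hz
      _ = ENNReal.ofReal R := by
          rw [← ENNReal.ofReal_mul (by positivity)]
  obtain ⟨G, hG⟩ := exists_bergman hΩ h0 h1 hgd (ne_top_of_le_ne_top ENNReal.ofReal_ne_top hint)
  have hGn : ‖G‖ ^ 2 ≤ (volume D.Ω).toReal⁻¹ * R := by
    refine D.E4c_norm_le G hR0 ?_
    refine le_trans (le_of_eq ?_) hint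
    refine setLIntegral_congr_fun hΩ.measurableSet fun w hw => ?_
    simp only [hG hw]
  have hGz : holo G z = 0 := by
    rw [hG hz, hg]; simp
  have hfd : fderiv ℂ (holo G) z X = lam X * t z := by
    have e1 : holo G =ᶠ[𝓝 z] g := by
      filter_upwards [hΩ.mem_nhds hz] with w hw using hG hw
    rw [e1.fderiv_eq]
    have e2 : HasFDerivAt (fun w : Cn n => lam (w - z)) lam z :=
      lam.hasFDerivAt.comp z ((hasFDerivAt_id z).sub_const z)
    have e3 : HasFDerivAt t (fderiv ℂ t z) z :=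
      ((ht.hol z hz).differentiableAt (hΩ.mem_nhds hz)).hasFDerivAt
    have e4 := e2.mul e3
    have e5 : fderiv ℂ g z = lam (z - z) • fderiv ℂ t z + t z • lam := e4.fderiv
    rw [e5]
    simp [mul_comm]
  have hlev := le_levi_log hΩ h0 h1 hz X G hGz
  rw [hfd, norm_mul, mul_pow] at hlev
  have hl0 := levi_log_nonneg hΩ h0 h1 hz X
  set l := levi (fun w => Real.log (kernelDiag D.Ω w)) z X with hl
  have htz : CA⁻¹ * (D.δ z)⁻¹ ^ N ≤ ‖t z‖ := ht.lower z (D.self_mem_B z hs₀.pos)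
  have htz2 : (CA⁻¹ * (D.δ z)⁻¹ ^ N) ^ 2 ≤ ‖t z‖ ^ 2 := by gcongr
  have hV : 0 < (volume D.Ω).toReal := ENNReal.toReal_pos h0 h1
  have hpow : D.δ z ^ ((n : ℝ) + 1 - (2 * (N : ℝ) - m))
      = D.δ z ^ (n + 1) * D.δ z ^ m * (((D.δ z)⁻¹ ^ N) ^ 2) := by
    rw [show (n : ℝ) + 1 - (2 * (N : ℝ) - m) = ((n + 1 + m : ℕ) : ℝ) + (-((2 * N : ℕ) : ℝ)) by
      push_cast; ring, Real.rpow_add hδ, Real.rpow_natCast, Real.rpow_neg hδ.le,
      Real.rpow_natCast, pow_add, inv_pow, inv_pow]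
    congr 1
    rw [← pow_mul, mul_comm N 2]
  have hstep : ‖lam X‖ ^ 2 * (CA⁻¹ * (D.δ z)⁻¹ ^ N) ^ 2
      ≤ ((volume D.Ω).toReal⁻¹ * R) * (CK * (D.δ z)⁻¹ ^ (n + 1)) * l := by
    calc ‖lam X‖ ^ 2 * (CA⁻¹ * (D.δ z)⁻¹ ^ N) ^ 2 ≤ ‖lam X‖ ^ 2 * ‖t z‖ ^ 2 := by gcongr
      _ ≤ ‖G‖ ^ 2 * kernelDiag D.Ω z * l := hlev
      _ ≤ ((volume D.Ω).toReal⁻¹ * R) * (CK * (D.δ z)⁻¹ ^ (n + 1)) * l := by
          have hk0 : 0 ≤ kernelDiag D.Ω z := le_trans zero_le_one (one_le_kernelDiag hΩ h0 h1 hz)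
          have := hK z hz
          gcongr
  rw [hR, hpow] at hstep
  have hd : 0 < ((D.δ z)⁻¹ ^ N) ^ 2 := by positivity
  have hfin : ‖lam X‖ ^ 2 * ((D.δ z)⁻¹ ^ N) ^ 2 ≤ (CA ^ 4 * CI * CK * (volume D.Ω).toReal⁻¹
      * D.δ z ^ m * l) * ((D.δ z)⁻¹ ^ N) ^ 2 := by
    have e1 : ‖lam X‖ ^ 2 * ((D.δ z)⁻¹ ^ N) ^ 2
        = CA ^ 2 * (‖lam X‖ ^ 2 * (CA⁻¹ * (D.δ z)⁻¹ ^ N) ^ 2) := by
      field_simp
    have e2 : (D.δ z) ^ (n + 1) * (D.δ z)⁻¹ ^ (n + 1) = 1 := by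
      rw [← mul_pow, mul_inv_cancel₀ hδ.ne', one_pow]
    calc ‖lam X‖ ^ 2 * ((D.δ z)⁻¹ ^ N) ^ 2
        ≤ CA ^ 2 * (((volume D.Ω).toReal⁻¹ * (CA ^ 2 * (CI * (D.δ z ^ (n + 1) * D.δ z ^ m
            * ((D.δ z)⁻¹ ^ N) ^ 2)))) * (CK * (D.δ z)⁻¹ ^ (n + 1)) * l) := by
          rw [e1]; gcongr
      _ = (CA ^ 4 * CI * CK * (volume D.Ω).toReal⁻¹ * D.δ z ^ m * l) * ((D.δ z)⁻¹ ^ N) ^ 2
            * ((D.δ z) ^ (n + 1) * (D.δ z)⁻¹ ^ (n + 1)) := by ring
      _ = (CA ^ 4 * CI * CK * (volume D.Ω).toReal⁻¹ * D.δ z ^ m * l)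
            * ((D.δ z)⁻¹ ^ N) ^ 2 := by rw [e2, mul_one]
  exact le_of_mul_le_mul_right hfin hd

/-- `∂ρ(z)(·)` as a continuous linear functional. -/
lemma E4c_ell_clm (ρ : Cn n → ℝ) (z : Cn n) : ∃ L : Cn n →L[ℂ] ℂ, ∀ X, L X = ell ρ z X := by
  refine ⟨LinearMap.toContinuousLinearMap
    { toFun := fun X => ell ρ z X
      map_add' := ell_add ρ z
      map_smul' := fun c X => by rw [ell_smul, RingHom.id_apply, smul_eq_mul] }, fun X => rfl⟩

lemma E4c_exists_coord (X : Cn n) (hn : 0 < n) : ∃ j, ‖X j‖ = ‖X‖ := by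
  haveI : Nonempty (Fin n) := ⟨⟨0, hn⟩⟩
  obtain ⟨j, hj⟩ := Finite.exists_max fun j => ‖X j‖
  refine ⟨j, le_antisymm (norm_le_pi_norm X j) ?_⟩
  exact (pi_norm_le_iff_of_nonneg (norm_nonneg _)).2 hj

/-- `bergmanMetric ≈ nrm`. -/
theorem metric_bounds (D : Dom n) (hA : D.AtomProp) (hK : D.KernelProp) : D.MetricProp := by
  have h0 : volume D.Ω ≠ 0 := D.volume_Ω_pos.ne'
  have h1 : volume D.Ω ≠ ⊤ := D.volume_Ω_lt_top.ne
  have hΩ := D.isOpen_Ω
  have hV : 0 < (volume D.Ω).toReal := ENNReal.toReal_pos h0 h1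
  set V := (volume D.Ω).toReal with hVdef
  obtain ⟨s₀, hs₀⟩ := D.exists_good
  obtain ⟨CK, hCK, hKb⟩ := hK
  obtain ⟨CD, hCD, hDb⟩ := D.deriv_bound hs₀
  -- upper bound
  have hup : ∀ z ∈ D.Ω, ∀ X, levi (fun w => Real.log (kernelDiag D.Ω w)) z X
      ≤ (CD * V * CK) * D.nrm z X ^ 2 := by
    intro z hz X
    have hδ := D.δ_pos hz
    set M : ℝ := Real.sqrt (CD * D.nrm z X ^ 2 * V / D.δ z ^ (n + 1)) with hM
    have hM2 : M ^ 2 = CD * D.nrm z X ^ 2 * V / D.δ z ^ (n + 1) := by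
      rw [hM, Real.sq_sqrt (by positivity)]
    have hb : ∀ g : bergman D.Ω, ‖fderiv ℂ (holo g) z X‖ ≤ M * ‖g‖ := by
      intro g
      have e1 := hDb z hz (holo g) (holo_diff g) X
      have e2 : ∫⁻ v in D.Ω, ENNReal.ofReal (‖holo g v‖ ^ 2)
          = ENNReal.ofReal (V * ‖g‖ ^ 2) := by
        rw [ENNReal.ofReal_mul hV.le, norm_sq_holo h0 h1 g, hVdef, ENNReal.ofReal_toReal h1,
          ← mul_assoc, ENNReal.mul_inv_cancel h0 h1, one_mul]
      rw [e2, ← ENNReal.ofReal_mul (by positivity)] at e1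
      have e3 : ‖fderiv ℂ (holo g) z X‖ ^ 2 * D.δ z ^ (n + 1)
          ≤ CD * D.nrm z X ^ 2 * (V * ‖g‖ ^ 2) :=
        (ENNReal.ofReal_le_ofReal_iff (by positivity)).1 e1
      have e4 : ‖fderiv ℂ (holo g) z X‖ ^ 2 ≤ (M * ‖g‖) ^ 2 := by
        rw [mul_pow, hM2, div_mul_eq_mul_div, le_div_iff₀ (by positivity)]
        calc _ ≤ _ := e3
          _ = _ := by ring
      exact le_of_sq_le_sq e4 (by positivity)
    have e5 := levi_log_le hΩ h0 h1 hz X (Real.sqrt_nonneg _) hb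
    refine e5.trans ?_
    have hk := (hKb z hz).1
    have hk0 : 0 < CK⁻¹ * (D.δ z)⁻¹ ^ (n + 1) := by positivity
    rw [← hM, hM2]
    calc CD * D.nrm z X ^ 2 * V / D.δ z ^ (n + 1) / kernelDiag D.Ω z
        ≤ CD * D.nrm z X ^ 2 * V / D.δ z ^ (n + 1) / (CK⁻¹ * (D.δ z)⁻¹ ^ (n + 1)) := by
          gcongr
      _ = (CD * V * CK) * D.nrm z X ^ 2 := by
          rw [inv_pow]; field_simp
  -- lower bound near the boundary
  obtain ⟨δ₁, CA, hδ₁, hδ₁η, hCA, hat⟩ := hA s₀ hs₀ (n + 4) (by omega)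
  have hI : ∀ m : ℕ, m ≤ 2 → ∃ CI : ℝ, 0 < CI ∧ ∀ z ∈ D.Ω, ∫⁻ w in D.Ω,
      ENNReal.ofReal (D.qd z w ^ (-(2 * ((n + 4 : ℕ) : ℝ) - m)))
      ≤ ENNReal.ofReal (CI * D.δ z ^ ((n : ℝ) + 1 - (2 * ((n + 4 : ℕ) : ℝ) - m))) := by
    intro m hm
    have hm' : (m : ℝ) ≤ 2 := by exact_mod_cast hm
    obtain ⟨CI, hCI, hb⟩ := D.integral_est (a := (n : ℝ) + 1) (b := 2 * ((n + 4 : ℕ) : ℝ) - m)
      (by linarith) (by push_cast; have : (0 : ℝ) ≤ n := Nat.cast_nonneg n; linarith)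
    refine ⟨CI, hCI, fun z hz => le_trans (le_of_eq ?_) (hb z hz)⟩
    refine setLIntegral_congr_fun hΩ.measurableSet fun w hw => ?_
    rw [show (n : ℝ) + 1 - n - 1 = 0 by ring, Real.rpow_zero, one_mul]
  obtain ⟨CI₁, hCI₁, hI₁⟩ := hI 1 (by norm_num)
  obtain ⟨CI₂, hCI₂, hI₂⟩ := hI 2 le_rfl
  set c₁ : ℝ := CA ^ 4 * CI₁ * CK * V⁻¹ with hc₁
  set c₂ : ℝ := CA ^ 4 * CI₂ * CK * V⁻¹ with hc₂
  have hc₁0 : 0 < c₁ := by positivity
  have hc₂0 : 0 < c₂ := by positivity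
  have hnear : ∀ z ∈ D.Ω, D.δ z < δ₁ → ∀ X, D.nrm z X ^ 2
      ≤ 2 * (c₁ + c₂) * levi (fun w => Real.log (kernelDiag D.Ω w)) z X := by
    intro z hz hzδ X
    have hδ := D.δ_pos hz
    obtain ⟨t, ht⟩ := hat z hz hzδ
    have hl0 := levi_log_nonneg hΩ h0 h1 hz X
    set l := levi (fun w => Real.log (kernelDiag D.Ω w)) z X with hl
    -- first functional
    obtain ⟨L, hL⟩ := E4c_ell_clm D.ρ z
    have a1 : ‖ell D.ρ z X‖ ^ 2 ≤ c₂ * D.δ z ^ 2 * l := by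
      have := D.E4c_aux hs₀ hCA hCK hCI₂ (fun z hz => (hKb z hz).2) hI₂ hz ht L
        (by
          intro w hw
          rw [hL]
          have hq := D.qd_pos hz hw
          have e1 : ell D.ρ z (w - z) = - ell D.ρ z (z - w) := by
            rw [show w - z = (-1 : ℂ) • (z - w) by
              rw [neg_smul, one_smul, neg_sub], ell_smul]; ring
          have e2 : ‖ell D.ρ z (w - z)‖ ≤ D.qd z w := by
            rw [e1, norm_neg, qd]
            have := (D.δ_pos hz).le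
            have := (D.δ_pos hw).le
            have := sq_nonneg ‖z - w‖
            linarith
          gcongr) X
      rw [hL] at this
      exact this
    have a2 : ‖X‖ ^ 2 ≤ c₁ * D.δ z * l := by
      rcases Nat.eq_zero_or_pos n with hn | hn
      · have hX : X = 0 := by
          subst hn; ext j; exact j.elim0
        rw [hX, norm_zero]
        have : 0 ≤ c₁ * D.δ z * l := by positivity
        simpa using this
      · obtain ⟨j, hj⟩ := E4c_exists_coord X hn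
        have := D.E4c_aux hs₀ hCA hCK hCI₁ (fun z hz => (hKb z hz).2) hI₁ hz ht
          (ContinuousLinearMap.proj j)
          (by
            intro w hw
            have e1 : ‖(w - z) j‖ ≤ ‖z - w‖ := by
              rw [norm_sub_rev z w]; exact norm_le_pi_norm (w - z) j
            have e2 : ‖z - w‖ ^ 2 ≤ D.qd z w := by
              rw [qd]
              have := (D.δ_pos hz).le
              have := (D.δ_pos hw).le
              have := norm_nonneg (ell D.ρ z (z - w))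
              linarith
            calc ‖(w - z) j‖ ^ 2 ≤ ‖z - w‖ ^ 2 := by gcongr
              _ ≤ D.qd z w ^ 1 := by rw [pow_one]; exact e2) X
        rw [ContinuousLinearMap.proj_apply, hj, pow_one] at this
        exact this
    have a3 : D.nrm z X ^ 2 ≤ 2 * ((‖ell D.ρ z X‖ / D.δ z) ^ 2
        + (‖X‖ / Real.sqrt (D.δ z)) ^ 2) := by
      rw [D.nrm_eq hz]
      nlinarith [sq_nonneg (‖ell D.ρ z X‖ / D.δ z - ‖X‖ / Real.sqrt (D.δ z))]
    have a4 : (‖ell D.ρ z X‖ / D.δ z) ^ 2 ≤ c₂ * l := by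
      rw [div_pow, div_le_iff₀ (by positivity)]
      calc _ ≤ _ := a1
        _ = _ := by ring
    have a5 : (‖X‖ / Real.sqrt (D.δ z)) ^ 2 ≤ c₁ * l := by
      rw [div_pow, Real.sq_sqrt hδ.le, div_le_iff₀ hδ]
      calc _ ≤ _ := a2
        _ = _ := by ring
    calc D.nrm z X ^ 2 ≤ _ := a3
      _ ≤ 2 * (c₂ * l + c₁ * l) := by gcongr
      _ = _ := by ring
  -- lower bound in the interior
  set c₃ : ℝ := (2 * D.L ^ 2 / δ₁) ^ 2 * (4 * D.L ^ 2 * (CK * δ₁⁻¹ ^ (n + 1))) with hc₃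
  have hL1 := D.L_ge
  have hc₃0 : 0 < c₃ := by
    have : 0 < D.L := by linarith
    positivity
  have hfar : ∀ z ∈ D.Ω, δ₁ ≤ D.δ z → ∀ X, D.nrm z X ^ 2
      ≤ c₃ * levi (fun w => Real.log (kernelDiag D.Ω w)) z X := by
    intro z hz hzδ X
    have hδ := D.δ_pos hz
    have hl0 := levi_log_nonneg hΩ h0 h1 hz X
    set l := levi (fun w => Real.log (kernelDiag D.Ω w)) z X with hl
    have hLp : 0 < D.L := by linarith
    have b1 : ‖X‖ ^ 2 ≤ 4 * D.L ^ 2 * (CK * δ₁⁻¹ ^ (n + 1)) * l := by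
      rcases Nat.eq_zero_or_pos n with hn | hn
      · have hX : X = 0 := by
          subst hn; ext j; exact j.elim0
        rw [hX, norm_zero]
        have : 0 ≤ 4 * D.L ^ 2 * (CK * δ₁⁻¹ ^ (n + 1)) * l := by positivity
        simpa using this
      · obtain ⟨j, hj⟩ := E4c_exists_coord X hn
        set g : Cn n → ℂ := fun w => (w - z) j with hg
        have hgd : DifferentiableOn ℂ g D.Ω := by
          have : Differentiable ℂ g :=
            ((ContinuousLinearMap.proj (R := ℂ) (φ := fun _ : Fin n => ℂ) j).differentiable).comp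
              (differentiable_id.sub_const z)
          exact this.differentiableOn
        have hbd : ∀ w ∈ D.Ω, ‖g w‖ ^ 2 ≤ 4 * D.L ^ 2 := by
          intro w hw
          have e1 : ‖g w‖ ≤ ‖w - z‖ := norm_le_pi_norm (w - z) j
          have e2 : ‖w‖ < D.L := D.norm_lt_of_le (t := 0) one_pos (le_of_lt hw)
          have e3 : ‖z‖ < D.L := D.norm_lt_of_le (t := 0) one_pos (le_of_lt hz)
          have e4 : ‖g w‖ ≤ 2 * D.L := by
            calc ‖g w‖ ≤ ‖w - z‖ := e1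
              _ ≤ ‖w‖ + ‖z‖ := norm_sub_le _ _
              _ ≤ 2 * D.L := by linarith
          calc ‖g w‖ ^ 2 ≤ (2 * D.L) ^ 2 := by gcongr
            _ = 4 * D.L ^ 2 := by ring
        have hint : ∫⁻ w in D.Ω, ENNReal.ofReal (‖g w‖ ^ 2)
            ≤ ENNReal.ofReal (4 * D.L ^ 2 * V) := by
          calc ∫⁻ w in D.Ω, ENNReal.ofReal (‖g w‖ ^ 2)
              ≤ ∫⁻ w in D.Ω, ENNReal.ofReal (4 * D.L ^ 2) :=
                setLIntegral_mono' hΩ.measurableSet fun w hw =>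
                  ENNReal.ofReal_le_ofReal (hbd w hw)
            _ = ENNReal.ofReal (4 * D.L ^ 2 * V) := by
                rw [lintegral_const, Measure.restrict_apply_univ,
                  ENNReal.ofReal_mul (p := 4 * D.L ^ 2) (by positivity), hVdef,
                  ENNReal.ofReal_toReal h1]
        obtain ⟨G, hG⟩ := exists_bergman hΩ h0 h1 hgd
          (ne_top_of_le_ne_top ENNReal.ofReal_ne_top hint)
        have hGn : ‖G‖ ^ 2 ≤ V⁻¹ * (4 * D.L ^ 2 * V) := by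
          refine D.E4c_norm_le G (by positivity) ?_
          refine le_trans (le_of_eq ?_) hint
          refine setLIntegral_congr_fun hΩ.measurableSet fun w hw => ?_
          simp only [hG hw]
        have hGn' : ‖G‖ ^ 2 ≤ 4 * D.L ^ 2 := by
          refine hGn.trans (le_of_eq ?_)
          field_simp
        have hGz : holo G z = 0 := by
          rw [hG hz, hg]; simp
        have hfd : fderiv ℂ (holo G) z X = X j := by
          have e1 : holo G =ᶠ[𝓝 z] g := by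
            filter_upwards [hΩ.mem_nhds hz] with w hw using hG hw
          rw [e1.fderiv_eq]
          have e2 : HasFDerivAt g (ContinuousLinearMap.proj (R := ℂ)
              (φ := fun _ : Fin n => ℂ) j) z :=
            (ContinuousLinearMap.proj (R := ℂ) (φ := fun _ : Fin n => ℂ) j).hasFDerivAt.comp z
              ((hasFDerivAt_id z).sub_const z)
          rw [e2.fderiv]; rfl
        have hlev := le_levi_log hΩ h0 h1 hz X G hGz
        rw [hfd, hj] at hlev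
        have hk0 : 0 ≤ kernelDiag D.Ω z := le_trans zero_le_one (one_le_kernelDiag hΩ h0 h1 hz)
        have hk := (hKb z hz).2
        have hk' : kernelDiag D.Ω z ≤ CK * δ₁⁻¹ ^ (n + 1) := by
          refine hk.trans ?_
          gcongr
        calc ‖X‖ ^ 2 ≤ ‖G‖ ^ 2 * kernelDiag D.Ω z * l := hlev
          _ ≤ 4 * D.L ^ 2 * (CK * δ₁⁻¹ ^ (n + 1)) * l := by gcongr
    have b2 : D.nrm z X ≤ 2 * D.L ^ 2 / δ₁ * ‖X‖ := by
      refine (D.nrm_le hz X).trans ?_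
      rw [div_mul_eq_mul_div]
      gcongr
    calc D.nrm z X ^ 2 ≤ (2 * D.L ^ 2 / δ₁ * ‖X‖) ^ 2 := by
          have : 0 ≤ D.nrm z X := apply_nonneg _ _
          gcongr
      _ = (2 * D.L ^ 2 / δ₁) ^ 2 * ‖X‖ ^ 2 := by ring
      _ ≤ (2 * D.L ^ 2 / δ₁) ^ 2 * (4 * D.L ^ 2 * (CK * δ₁⁻¹ ^ (n + 1)) * l) := by gcongr
      _ = c₃ * l := by rw [hc₃]; ring
  -- conclusion
  set C : ℝ := 1 + CD * V * CK + 2 * (c₁ + c₂) + c₃ with hC
  have hC1 : 1 ≤ C := by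
    have : 0 ≤ CD * V * CK := by positivity
    linarith
  have hC0 : 0 < C := by linarith
  refine ⟨C, hC0, fun z hz X => ?_⟩
  have hl0 := levi_log_nonneg hΩ h0 h1 hz X
  have hn0 : 0 ≤ D.nrm z X := apply_nonneg _ _
  have hlow : D.nrm z X ^ 2 ≤ C * levi (fun w => Real.log (kernelDiag D.Ω w)) z X := by
    rcases lt_or_ge (D.δ z) δ₁ with h | h
    · refine (hnear z hz h X).trans ?_
      gcongr
      have : 0 ≤ CD * V * CK := by positivity
      linarith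
    · refine (hfar z hz h X).trans ?_
      gcongr
      have : 0 ≤ CD * V * CK := by positivity
      linarith
  have hhigh : levi (fun w => Real.log (kernelDiag D.Ω w)) z X ≤ C * D.nrm z X ^ 2 := by
    refine (hup z hz X).trans ?_
    gcongr
    linarith
  unfold bergmanMetric
  constructor
  · apply Real.le_sqrt_of_sq_le
    rw [mul_pow, inv_pow]
    calc (C ^ 2)⁻¹ * D.nrm z X ^ 2
        ≤ (C ^ 2)⁻¹ * (C * levi (fun w => Real.log (kernelDiag D.Ω w)) z X) := by gcongr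
      _ = C⁻¹ * levi (fun w => Real.log (kernelDiag D.Ω w)) z X := by field_simp
      _ ≤ 1 * levi (fun w => Real.log (kernelDiag D.Ω w)) z X := by
          gcongr; exact inv_le_one_of_one_le₀ hC1
      _ = _ := one_mul _
  · rw [Real.sqrt_le_left (by positivity), mul_pow]
    refine hhigh.trans ?_
    gcongr
    nlinarith

end Dom

end HankelSPC
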