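import Pool.Agent.Lib.MP_e1cf54_an.Defs

/-! Row E5a: symmetries -/

open MeasureTheory Set Filter
open scoped ENNReal NNReal Topology ContDiff

namespace HankelSPC

variable {n : ℕ}

private lemma E5a_smul (u : Cn n → ℝ) (z : Cn n) {a : ℝ} (ha : a ≠ 0) (X : Cn n) :
    levi u z (a • X) = a ^ 2 * levi u z X := by
  set e : ℂ ≃L[ℝ] ℂ := ContinuousLinearEquiv.smulLeft (R₁ := ℝ) (M₁ := ℂ)
    (Units.mk0 a ha) with he
  have hea : ∀ ζ : ℂ, e ζ = a • ζ := by
    intro ζ
    rw [he, ContinuousLinearEquiv.smulLeft_apply_apply]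
    rfl
  have hg : (fun ζ : ℂ => u (z + ζ • (a • X)))
      = (fun ζ : ℂ => u (z + ζ • X)) ∘ e := by
    funext ζ
    simp only [Function.comp_apply, hea]
    congr 2
    rw [smul_comm, smul_assoc]
  have key : ∀ v : ℂ, iteratedFDeriv ℝ 2 ((fun ζ : ℂ => u (z + ζ • X)) ∘ e) 0 ![v, v]
      = a ^ 2 * iteratedFDeriv ℝ 2 (fun ζ : ℂ => u (z + ζ • X)) 0 ![v, v] := by
    intro v
    have h1 := e.iteratedFDerivWithin_comp_right (fun ζ : ℂ => u (z + ζ • X))
      (s := univ) uniqueDiffOn_univ (x := 0) (mem_univ _) 2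
    rw [preimage_univ, iteratedFDerivWithin_univ, iteratedFDerivWithin_univ, map_zero] at h1
    rw [h1, ContinuousMultilinearMap.compContinuousLinearMap_apply]
    have h2 : (fun i : Fin 2 => (e : ℂ →L[ℝ] ℂ) ((![v, v] : Fin 2 → ℂ) i))
        = fun i => (fun _ : Fin 2 => a) i • (![v, v] : Fin 2 → ℂ) i := by
      funext i
      exact hea _
    rw [h2, ContinuousMultilinearMap.map_smul_univ]
    simp
  unfold levi
  rw [hg, InnerProductSpace.laplacian_eq_iteratedFDeriv_complexPlane,
    InnerProductSpace.laplacian_eq_iteratedFDeriv_complexPlane]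
  simp only
  rw [key, key]
  ring

/-- The Laplacian is invariant under `ζ ↦ -ζ` (no differentiability needed: composition with a
linear isometry equivalence). -/
lemma levi_neg (u : Cn n → ℝ) (z X : Cn n) : levi u z (-X) = levi u z X := by
  have h := E5a_smul u z (a := -1) (by norm_num) X
  rw [neg_one_smul] at h
  rw [h]; ring

lemma bergmanMetric_neg (Ω : Set (Cn n)) (z X : Cn n) :
    bergmanMetric Ω z (-X) = bergmanMetric Ω z X := by
  unfold bergmanMetric
  rw [levi_neg]

/-- `levi u z (a X) = a² levi u z X` for real `a`. -/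
lemma levi_real_smul (u : Cn n → ℝ) (z : Cn n) (a : ℝ) (X : Cn n) :
    levi u z (a • X) = a ^ 2 * levi u z X := by
  rcases eq_or_ne a 0 with rfl | ha
  · unfold levi
    simp only [zero_smul, smul_zero, add_zero]
    rw [InnerProductSpace.laplacian_eq_iteratedFDeriv_complexPlane]
    simp only
    rw [iteratedFDeriv_const_of_ne (by norm_num)]
    simp
  · exact E5a_smul u z ha X

lemma bergmanMetric_smul (Ω : Set (Cn n)) (z : Cn n) (a : ℝ) (X : Cn n) :
    bergmanMetric Ω z (a • X) = |a| * bergmanMetric Ω z X := by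
  unfold bergmanMetric
  rw [levi_real_smul, Real.sqrt_mul (sq_nonneg a), Real.sqrt_sq_eq_abs]

private lemma E5a_dist_le (Ω : Set (Cn n)) (z w : Cn n) :
    bergmanDist Ω z w ≤ bergmanDist Ω w z := by
  unfold bergmanDist
  refine le_iInf fun γ => ?_
  obtain ⟨γ, hγ, hΩ, h0, h1⟩ := γ
  have hrev : ContDiff ℝ 1 fun t : ℝ => γ (1 - t) := hγ.comp (by fun_prop)
  have hder : ∀ t, deriv (fun t : ℝ => γ (1 - t)) t = -deriv γ (1 - t) := by
    intro t
    exact deriv_comp_const_sub _ _ _
  refine iInf_le_of_le ⟨fun t => γ (1 - t), hrev, fun t ht => hΩ _ ⟨by linarith [ht.2],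
    by linarith [ht.1]⟩, by simpa using h1, by simpa using h0⟩ ?_
  simp only
  have hpre : (fun t : ℝ => 1 - t) ⁻¹' Icc 0 1 = Icc 0 1 := by
    ext t; simp only [mem_preimage, mem_Icc]; constructor <;> rintro ⟨h1, h2⟩ <;>
      constructor <;> linarith
  have hmp := (Measure.measurePreserving_sub_left volume (1 : ℝ)).setLIntegral_comp_preimage_emb
    (Homeomorph.subLeft (1 : ℝ)).measurableEmbedding
    (fun t => ENNReal.ofReal (bergmanMetric Ω (γ t) (deriv γ t))) (Icc 0 1)
  rw [hpre] at hmp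
  rw [← hmp]
  apply le_of_eq
  congr 1
  funext t
  rw [hder, bergmanMetric_neg]

/-- Reverse the curve: `t ↦ γ (1 - t)`. -/
theorem bergmanDist_comm (Ω : Set (Cn n)) (z w : Cn n) : bergmanDist Ω z w = bergmanDist Ω w z :=
  le_antisymm (E5a_dist_le Ω z w) (E5a_dist_le Ω w z)

end HankelSPC
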