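import Pool.Agent.Lib.MP_e1cf54_an.E5a

/-! Row E5b: triangle inequality -/

open MeasureTheory Set Filter
open scoped ENNReal NNReal Topology ContDiff

namespace HankelSPC

variable {n : ℕ}

/-- the bump `6 max(0, u (1-u))` -/
private noncomputable def E5b_g (u : ℝ) : ℝ := 6 * max 0 (u * (1 - u))

private lemma E5b_g_cont : Continuous E5b_g := by
  unfold E5b_g
  fun_prop

private lemma E5b_g_nonneg (u : ℝ) : 0 ≤ E5b_g u := by
  unfold E5b_g
  positivity

private lemma E5b_g_zero_of_nonpos {u : ℝ} (hu : u ≤ 0) : E5b_g u = 0 := by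
  have : u * (1 - u) ≤ 0 := mul_nonpos_of_nonpos_of_nonneg hu (by linarith)
  simp [E5b_g, max_eq_left this]

private lemma E5b_g_zero_of_one_le {u : ℝ} (hu : 1 ≤ u) : E5b_g u = 0 := by
  have : u * (1 - u) ≤ 0 := mul_nonpos_of_nonneg_of_nonpos (by linarith) (by linarith)
  simp [E5b_g, max_eq_left this]

private lemma E5b_g_pos {u : ℝ} (h0 : 0 < u) (h1 : u < 1) : 0 < E5b_g u := by
  have : 0 < u * (1 - u) := mul_pos h0 (by linarith)
  rw [E5b_g, max_eq_right this.le]
  linarith

/-- the primitive -/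
private noncomputable def E5b_phi (s : ℝ) : ℝ := ∫ u in (0:ℝ)..s, E5b_g u

private lemma E5b_phi_deriv (s : ℝ) : HasDerivAt E5b_phi (E5b_g s) s :=
  intervalIntegral.integral_hasDerivAt_right (E5b_g_cont.intervalIntegrable _ _)
    (E5b_g_cont.stronglyMeasurableAtFilter _ _) E5b_g_cont.continuousAt

private lemma E5b_phi_contDiff : ContDiff ℝ 1 E5b_phi := by
  rw [contDiff_one_iff_deriv]
  refine ⟨fun s => (E5b_phi_deriv s).differentiableAt, ?_⟩
  have : deriv E5b_phi = E5b_g := funext fun s => (E5b_phi_deriv s).deriv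
  rw [this]
  exact E5b_g_cont

private lemma E5b_phi_nonpos {s : ℝ} (hs : s ≤ 0) : E5b_phi s = 0 := by
  unfold E5b_phi
  rw [intervalIntegral.integral_symm]
  have : ∫ u in s..0, E5b_g u = ∫ u in s..0, (0:ℝ) := by
    apply intervalIntegral.integral_congr
    intro u hu
    rw [uIcc_of_le hs] at hu
    exact E5b_g_zero_of_nonpos hu.2
  rw [this]
  simp

private lemma E5b_phi_one : E5b_phi 1 = 1 := by
  unfold E5b_phi
  have : ∫ u in (0:ℝ)..1, E5b_g u = ∫ u in (0:ℝ)..1, (6 * u - 6 * u ^ 2) := by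
    apply intervalIntegral.integral_congr
    intro u hu
    rw [uIcc_of_le zero_le_one] at hu
    have : 0 ≤ u * (1 - u) := mul_nonneg hu.1 (by linarith [hu.2])
    show 6 * max 0 (u * (1 - u)) = 6 * u - 6 * u ^ 2
    rw [max_eq_right this]
    ring
  rw [this, intervalIntegral.integral_sub (by apply Continuous.intervalIntegrable; fun_prop)
    (by apply Continuous.intervalIntegrable; fun_prop), intervalIntegral.integral_const_mul,
    intervalIntegral.integral_const_mul, integral_id, integral_pow]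
  norm_num

private lemma E5b_phi_one_le {s : ℝ} (hs : 1 ≤ s) : E5b_phi s = 1 := by
  have h1 : E5b_phi s = E5b_phi 1 + ∫ u in (1:ℝ)..s, E5b_g u := by
    unfold E5b_phi
    rw [intervalIntegral.integral_add_adjacent_intervals (E5b_g_cont.intervalIntegrable _ _)
      (E5b_g_cont.intervalIntegrable _ _)]
  have h2 : ∫ u in (1:ℝ)..s, E5b_g u = ∫ u in (1:ℝ)..s, (0:ℝ) := by
    apply intervalIntegral.integral_congr
    intro u hu
    rw [uIcc_of_le hs] at hu
    exact E5b_g_zero_of_one_le hu.1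
  rw [h1, h2, E5b_phi_one]
  simp

private lemma E5b_phi_strictMono : StrictMonoOn E5b_phi (Icc 0 1) := by
  apply strictMonoOn_of_deriv_pos (convex_Icc 0 1) E5b_phi_contDiff.continuous.continuousOn
  intro s hs
  rw [interior_Icc] at hs
  rw [(E5b_phi_deriv s).deriv]
  exact E5b_g_pos hs.1 hs.2

private lemma E5b_phi_mono : Monotone E5b_phi := by
  apply monotone_of_deriv_nonneg (E5b_phi_contDiff.differentiable (by norm_num))
  intro s
  rw [(E5b_phi_deriv s).deriv]
  exact E5b_g_nonneg s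

private lemma E5b_phi_mem (s : ℝ) : E5b_phi s ∈ Icc (0:ℝ) 1 := by
  constructor
  · rw [← E5b_phi_nonpos (le_refl (0:ℝ))]
    rcases le_total 0 s with h | h
    · exact E5b_phi_mono h
    · rw [E5b_phi_nonpos h, E5b_phi_nonpos (le_refl (0:ℝ))]
  · rw [← E5b_phi_one]
    rcases le_total s 1 with h | h
    · exact E5b_phi_mono h
    · rw [E5b_phi_one_le h, E5b_phi_one]

/-- change of variables for one piece -/
private lemma E5b_piece (G : ℝ → ℝ≥0∞) (c : ℝ) :
    ∫⁻ t in Icc (c / 2) ((c + 1) / 2), ENNReal.ofReal |2 * E5b_g (2 * t - c)| * G (E5b_phi (2 * t - c)) =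
      ∫⁻ s in Icc (0:ℝ) 1, G s := by
  have hd : ∀ t : ℝ, HasDerivAt (fun t : ℝ => E5b_phi (2 * t - c)) (2 * E5b_g (2 * t - c)) t := by
    intro t
    have h1 : HasDerivAt (fun t : ℝ => 2 * t - c) 2 t := by
      have := ((hasDerivAt_id t).const_mul 2).sub_const c
      simpa using this
    have := (E5b_phi_deriv (2 * t - c)).comp t h1
    rw [mul_comm] at this
    exact this
  have himg : (fun t : ℝ => E5b_phi (2 * t - c)) '' Icc (c / 2) ((c + 1) / 2) = Icc 0 1 := by
    apply Subset.antisymm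
    · rintro _ ⟨t, _, rfl⟩
      exact E5b_phi_mem _
    · have h2 := intermediate_value_Icc (show c / 2 ≤ (c + 1) / 2 by linarith)
        (f := fun t : ℝ => E5b_phi (2 * t - c))
        ((E5b_phi_contDiff.continuous.comp (by fun_prop)).continuousOn)
      have e1 : 2 * (c / 2) - c = 0 := by ring
      have e2 : 2 * ((c + 1) / 2) - c = 1 := by ring
      simp only [e1, e2, E5b_phi_nonpos (le_refl (0:ℝ)), E5b_phi_one] at h2
      exact h2
  have hinj : InjOn (fun t : ℝ => E5b_phi (2 * t - c)) (Icc (c / 2) ((c + 1) / 2)) := by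
    intro t ht t' ht' htt
    have m1 : 2 * t - c ∈ Icc (0:ℝ) 1 := ⟨by linarith [ht.1], by linarith [ht.2]⟩
    have m2 : 2 * t' - c ∈ Icc (0:ℝ) 1 := ⟨by linarith [ht'.1], by linarith [ht'.2]⟩
    have h3 : 2 * t - c = 2 * t' - c := E5b_phi_strictMono.injOn m1 m2 htt
    linarith
  have := lintegral_image_eq_lintegral_abs_deriv_mul measurableSet_Icc
    (fun t _ => (hd t).hasDerivWithinAt) hinj G
  rw [← this, himg]

/-- Triangle inequality. Reparametrise both curves by a `C¹` monotone `φ : [0,1] → [0,1]` with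
`φ'(0) = φ'(1) = 0` (e.g. `φ t = 3t² - 2t³`, clamp outside `[0,1]`), then the concatenation is
`C¹`; the length does not change: `lintegral_image_eq_lintegral_abs_deriv_mul` and
`bergmanMetric_smul`. -/
theorem bergmanDist_triangle (Ω : Set (Cn n)) (x y z : Cn n) :
    bergmanDist Ω x z ≤ bergmanDist Ω x y + bergmanDist Ω y z := by
  unfold bergmanDist
  rw [ENNReal.iInf_add]
  refine le_iInf fun γ₁ => ?_
  rw [ENNReal.add_iInf]
  refine le_iInf fun γ₂ => ?_
  obtain ⟨γ₁, hγ₁, hΩ₁, h10, h11⟩ := γ₁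
  obtain ⟨γ₂, hγ₂, hΩ₂, h20, h21⟩ := γ₂
  simp only
  set γ : ℝ → Cn n := fun t => γ₁ (E5b_phi (2 * t)) + γ₂ (E5b_phi (2 * t - 1)) - y with hγ
  have hleft : ∀ t ≤ (1/2 : ℝ), γ t = γ₁ (E5b_phi (2 * t)) := by
    intro t ht
    simp only [hγ]
    rw [E5b_phi_nonpos (show 2 * t - 1 ≤ 0 by linarith), h20]
    simp
  have hright : ∀ t, (1/2 : ℝ) ≤ t → γ t = γ₂ (E5b_phi (2 * t - 1)) := by
    intro t ht
    simp only [hγ]
    rw [E5b_phi_one_le (show 1 ≤ 2 * t by linarith), h11]
    simp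
  have hderiv : ∀ t, deriv γ t = (2 * E5b_g (2 * t)) • deriv γ₁ (E5b_phi (2 * t)) +
      (2 * E5b_g (2 * t - 1)) • deriv γ₂ (E5b_phi (2 * t - 1)) := by
    intro t
    have d1 : HasDerivAt (fun t : ℝ => E5b_phi (2 * t)) (2 * E5b_g (2 * t)) t := by
      have h1 : HasDerivAt (fun t : ℝ => 2 * t) 2 t := by
        have := (hasDerivAt_id t).const_mul 2
        simpa using this
      have := (E5b_phi_deriv (2 * t)).comp t h1
      rw [mul_comm] at this
      exact this
    have d2 : HasDerivAt (fun t : ℝ => E5b_phi (2 * t - 1)) (2 * E5b_g (2 * t - 1)) t := by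
      have h1 : HasDerivAt (fun t : ℝ => 2 * t - 1) 2 t := by
        have := ((hasDerivAt_id t).const_mul 2).sub_const 1
        simpa using this
      have := (E5b_phi_deriv (2 * t - 1)).comp t h1
      rw [mul_comm] at this
      exact this
    have e1 : HasDerivAt γ₁ (deriv γ₁ (E5b_phi (2 * t))) (E5b_phi (2 * t)) :=
      (hγ₁.differentiable (by norm_num) _).hasDerivAt
    have e2 : HasDerivAt γ₂ (deriv γ₂ (E5b_phi (2 * t - 1))) (E5b_phi (2 * t - 1)) :=
      (hγ₂.differentiable (by norm_num) _).hasDerivAt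
    exact (((e1.scomp t d1).add (e2.scomp t d2)).sub_const y).deriv
  have hmem : ContDiff ℝ 1 γ ∧ (∀ t ∈ Icc (0:ℝ) 1, γ t ∈ Ω) ∧ γ 0 = x ∧ γ 1 = z := by
    refine ⟨?_, ?_, ?_, ?_⟩
    · apply ContDiff.sub _ contDiff_const
      apply ContDiff.add
      · exact hγ₁.comp (E5b_phi_contDiff.comp (by fun_prop))
      · exact hγ₂.comp (E5b_phi_contDiff.comp (by fun_prop))
    · intro t _
      rcases le_total t (1/2) with h | h
      · rw [hleft t h]
        exact hΩ₁ _ (E5b_phi_mem _)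
      · rw [hright t h]
        exact hΩ₂ _ (E5b_phi_mem _)
    · rw [hleft 0 (by norm_num)]
      rw [show (2:ℝ) * 0 = 0 by norm_num, E5b_phi_nonpos (le_refl _), h10]
    · rw [hright 1 (by norm_num)]
      rw [show (2:ℝ) * 1 - 1 = 1 by norm_num, E5b_phi_one, h21]
  refine (iInf_le _ ⟨γ, hmem⟩).trans ?_
  simp only
  have hsub : Icc (0:ℝ) 1 ⊆ Icc (0:ℝ) (1/2) ∪ Icc (1/2) 1 := by
    intro t ht
    rcases le_total t (1/2) with h | h
    · exact Or.inl ⟨ht.1, h⟩
    · exact Or.inr ⟨h, ht.2⟩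
  refine (lintegral_mono_set hsub).trans ((lintegral_union_le _ _ _).trans (add_le_add ?_ ?_))
  · rw [← E5b_piece (fun s => ENNReal.ofReal (bergmanMetric Ω (γ₁ s) (deriv γ₁ s))) 0]
    rw [show (0:ℝ) / 2 = 0 by norm_num, show ((0:ℝ) + 1) / 2 = 1 / 2 by norm_num]
    apply le_of_eq
    apply setLIntegral_congr_fun measurableSet_Icc
    intro t ht
    simp only [sub_zero]
    rw [hleft t ht.2, hderiv t, E5b_g_zero_of_nonpos (show 2 * t - 1 ≤ 0 by linarith [ht.2])]
    rw [mul_zero, zero_smul, add_zero, bergmanMetric_smul, ENNReal.ofReal_mul (abs_nonneg _)]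
  · rw [← E5b_piece (fun s => ENNReal.ofReal (bergmanMetric Ω (γ₂ s) (deriv γ₂ s))) 1]
    rw [show ((1:ℝ) + 1) / 2 = 1 by norm_num]
    apply le_of_eq
    apply setLIntegral_congr_fun measurableSet_Icc
    intro t ht
    simp only
    rw [hright t ht.1, hderiv t, E5b_g_zero_of_one_le (show 1 ≤ 2 * t by linarith [ht.1])]
    rw [mul_zero, zero_smul, zero_add, bergmanMetric_smul, ENNReal.ofReal_mul (abs_nonneg _)]

end HankelSPC
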