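import Pool.Agent.Lib.MP_e1cf54_an.E5b
import Pool.Agent.Lib.MP_e1cf54_an.C1b

/-! Row E6a: openness -/

open MeasureTheory Set Filter
open scoped ENNReal NNReal Topology ContDiff

namespace HankelSPC

variable {n : ℕ}

namespace Dom

/-- Straight segments: `β(z,w) ≤ C |w - z|_z` for `w ∈ B(z,s₀)`. -/
theorem dist_le (D : Dom n) (hM : D.MetricProp) {s₀ : ℝ} (h : D.Good s₀) : ∃ C : ℝ, 0 < C ∧ ∀ z ∈ D.Ω,
    ∀ w ∈ D.B z s₀, bergmanDist D.Ω z w ≤ ENNReal.ofReal (C * D.nrm z (w - z)) := by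
  obtain ⟨C, hC, hM⟩ := hM
  refine ⟨C * 2, by positivity, fun z hz w hw => ?_⟩
  have hseg : ∀ t ∈ Icc (0 : ℝ) 1, z + t • (w - z) ∈ D.B z s₀ := by
    intro t ht
    rw [mem_B, add_sub_cancel_left]
    have h1 : D.nrm z (t • (w - z)) = |t| * D.nrm z (w - z) := by
      have h2 : (t • (w - z) : Cn n) = (t : ℂ) • (w - z) := by
        ext i; simp
      rw [h2, map_smul_eq_mul, Complex.norm_real, Real.norm_eq_abs]
    rw [h1, abs_of_nonneg ht.1]
    have h3 : D.nrm z (w - z) < s₀ := (D.mem_B).1 hw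
    have h4 : 0 ≤ D.nrm z (w - z) := apply_nonneg _ _
    calc t * D.nrm z (w - z) ≤ 1 * D.nrm z (w - z) :=
          mul_le_mul_of_nonneg_right ht.2 h4
      _ < s₀ := by rw [one_mul]; exact h3
  have hΩ : ∀ t ∈ Icc (0 : ℝ) 1, z + t • (w - z) ∈ D.Ω := fun t ht =>
    (h.sub z hz _ (hseg t ht)).1
  let γ : ℝ → Cn n := fun t => z + t • (w - z)
  have hγ : ContDiff ℝ 1 γ := contDiff_const.add (contDiff_id.smul contDiff_const)
  have hγ0 : γ 0 = z := by simp [γ]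
  have hγ1 : γ 1 = w := by simp [γ]
  have hder : ∀ t, deriv γ t = w - z := by
    intro t
    have h1 : HasDerivAt (fun t : ℝ => z + t • (w - z)) (w - z) t := by
      have := ((hasDerivAt_id t).smul_const (w - z)).const_add z
      simpa using this
    exact h1.deriv
  calc bergmanDist D.Ω z w
      ≤ ∫⁻ t in Icc (0:ℝ) 1, ENNReal.ofReal (bergmanMetric D.Ω (γ t) (deriv γ t)) :=
        iInf_le (fun γ : {γ : ℝ → Cn n // ContDiff ℝ 1 γ ∧ (∀ t ∈ Icc (0:ℝ) 1, γ t ∈ D.Ω) ∧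
          γ 0 = z ∧ γ 1 = w} => ∫⁻ t in Icc (0:ℝ) 1,
            ENNReal.ofReal (bergmanMetric D.Ω (γ.1 t) (deriv γ.1 t))) ⟨γ, hγ, hΩ, hγ0, hγ1⟩
    _ ≤ ∫⁻ t in Icc (0:ℝ) 1, ENNReal.ofReal (C * 2 * D.nrm z (w - z)) := by
        refine setLIntegral_mono' measurableSet_Icc fun t ht => ?_
        refine ENNReal.ofReal_le_ofReal ?_
        rw [hder]
        have h1 := (hM (γ t) (hΩ t ht) (w - z)).2
        have h2 := ((h.sub z hz _ (hseg t ht)).2.2.2 (w - z)).1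
        calc bergmanMetric D.Ω (γ t) (w - z) ≤ C * D.nrm (γ t) (w - z) := h1
          _ ≤ C * (2 * D.nrm z (w - z)) := mul_le_mul_of_nonneg_left h2 hC.le
          _ = C * 2 * D.nrm z (w - z) := by ring
    _ = ENNReal.ofReal (C * 2 * D.nrm z (w - z)) := by
        rw [setLIntegral_const, Real.volume_Icc]
        simp

/-- Small anisotropic balls are contained in Bergman balls. -/
theorem exists_B_subset_ball (D : Dom n) (hM : D.MetricProp) {s₀ r : ℝ} (h : D.Good s₀) (hr : 0 < r) :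
    ∃ s : ℝ, 0 < s ∧ s ≤ s₀ ∧ ∀ z ∈ D.Ω, D.B z s ⊆ HankelSPC.ball D.Ω z r := by
  obtain ⟨C, hC, hd⟩ := D.dist_le hM h
  refine ⟨min s₀ (r / C), lt_min h.pos (by positivity), min_le_left _ _, fun z hz w hw => ?_⟩
  have hw0 : w ∈ D.B z s₀ := D.B_mono z (min_le_left _ _) hw
  refine ⟨(h.sub z hz w hw0).1, (hd z hz w hw0).trans_lt ?_⟩
  rw [ENNReal.ofReal_lt_ofReal_iff hr]
  have h1 : D.nrm z (w - z) < r / C := ((D.mem_B).1 hw).trans_le (min_le_right _ _)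
  rw [lt_div_iff₀ hC] at h1
  linarith

/-- `{(z,w) : β(z,w) < r}` is open in `Ω × Ω`. -/
theorem isOpen_dist_lt (D : Dom n) (hM : D.MetricProp) (r : ℝ) :
    IsOpen {p : Cn n × Cn n | p.1 ∈ D.Ω ∧ p.2 ∈ D.Ω ∧ bergmanDist D.Ω p.1 p.2
      < ENNReal.ofReal r} := by
  rw [isOpen_iff_mem_nhds]
  rintro ⟨z, w⟩ ⟨hz, hw, hd⟩
  obtain ⟨s₀, h0⟩ := D.exists_good
  obtain ⟨ε, hε, hε2⟩ : ∃ ε : ℝ, 0 < ε ∧
      bergmanDist D.Ω z w + (ENNReal.ofReal ε + ENNReal.ofReal ε) ≤ ENNReal.ofReal r := by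
    have hne : bergmanDist D.Ω z w ≠ ⊤ := hd.ne_top
    have h1 : (bergmanDist D.Ω z w).toReal < r := by
      have h2 : ENNReal.ofReal (bergmanDist D.Ω z w).toReal < ENNReal.ofReal r := by
        rw [ENNReal.ofReal_toReal hne]; exact hd
      exact (ENNReal.ofReal_lt_ofReal_iff_of_nonneg ENNReal.toReal_nonneg).1 h2
    refine ⟨(r - (bergmanDist D.Ω z w).toReal) / 2, by linarith, ?_⟩
    rw [← ENNReal.ofReal_add (by linarith) (by linarith), add_halves]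
    have h3 : bergmanDist D.Ω z w = ENNReal.ofReal (bergmanDist D.Ω z w).toReal :=
      (ENNReal.ofReal_toReal hne).symm
    calc bergmanDist D.Ω z w + ENNReal.ofReal (r - (bergmanDist D.Ω z w).toReal)
        = ENNReal.ofReal (bergmanDist D.Ω z w).toReal
          + ENNReal.ofReal (r - (bergmanDist D.Ω z w).toReal) := by rw [← h3]
      _ = ENNReal.ofReal ((bergmanDist D.Ω z w).toReal +
          (r - (bergmanDist D.Ω z w).toReal)) :=
          (ENNReal.ofReal_add ENNReal.toReal_nonneg (by linarith)).symm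
      _ ≤ ENNReal.ofReal r := by rw [add_sub_cancel]
  obtain ⟨s, hs, -, hsub⟩ := D.exists_B_subset_ball hM h0 hε
  have hN : D.B z s ×ˢ D.B w s ∈ 𝓝 (z, w) :=
    prod_mem_nhds ((D.isOpen_B z s).mem_nhds (D.self_mem_B z hs))
      ((D.isOpen_B w s).mem_nhds (D.self_mem_B w hs))
  refine Filter.mem_of_superset hN ?_
  rintro ⟨z', w'⟩ ⟨hz', hw'⟩
  obtain ⟨hz1, hz2⟩ := hsub z hz hz'
  obtain ⟨hw1, hw2⟩ := hsub w hw hw'
  refine ⟨hz1, hw1, ?_⟩
  rw [bergmanDist_comm] at hz2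
  have hne : bergmanDist D.Ω z w ≠ ⊤ := hd.ne_top
  calc bergmanDist D.Ω z' w' ≤ bergmanDist D.Ω z' z + bergmanDist D.Ω z w' :=
        bergmanDist_triangle _ _ _ _
    _ ≤ bergmanDist D.Ω z' z + (bergmanDist D.Ω z w + bergmanDist D.Ω w w') := by
        gcongr
        exact bergmanDist_triangle _ _ _ _
    _ = bergmanDist D.Ω z w + (bergmanDist D.Ω z' z + bergmanDist D.Ω w w') := by ring
    _ < bergmanDist D.Ω z w + (ENNReal.ofReal ε + ENNReal.ofReal ε) :=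
        ENNReal.add_lt_add_left hne (ENNReal.add_lt_add hz2 hw2)
    _ ≤ ENNReal.ofReal r := hε2

theorem isOpen_ball (D : Dom n) (hM : D.MetricProp) (z : Cn n) (hz : z ∈ D.Ω) (r : ℝ) :
    IsOpen (HankelSPC.ball D.Ω z r) := by
  have h1 := (D.isOpen_dist_lt hM r).preimage (Continuous.prodMk_right z)
  have h2 : HankelSPC.ball D.Ω z r = (fun w => (z, w)) ⁻¹' {p : Cn n × Cn n | p.1 ∈ D.Ω ∧
      p.2 ∈ D.Ω ∧ bergmanDist D.Ω p.1 p.2 < ENNReal.ofReal r} := by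
    ext w
    constructor
    · rintro ⟨a, b⟩
      exact ⟨hz, a, b⟩
    · rintro ⟨-, a, b⟩
      exact ⟨a, b⟩
  rw [h2]
  exact h1

end Dom

end HankelSPC
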