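import Pool.Agent.Lib.MP_e1cf54_an.C1b
import Pool.Agent.Lib.MP_e1cf54_an.E5a

/-! Row E6b: chains -/

open MeasureTheory Set Filter
open scoped ENNReal NNReal Topology ContDiff

namespace HankelSPC

variable {n : ℕ}

namespace Dom

/-- A continuous seminorm of the increment of a `C¹` curve. -/
private lemma E6b_incr (D : Dom n) (p : Cn n) {γ : ℝ → Cn n} (hγ : ContDiff ℝ 1 γ) {a b : ℝ}
    (hab : a < b) : D.nrm p (γ b - γ a) ≤ ∫ t in a..b, D.nrm p (deriv γ t) := by
  have hd : Continuous (deriv γ) := hγ.continuous_deriv le_rfl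
  have hftc : γ b - γ a = ∫ t in a..b, deriv γ t := by
    rw [intervalIntegral.integral_eq_sub_of_hasDerivAt]
    · intro t _
      exact (hγ.differentiable one_ne_zero t).hasDerivAt
    · exact hd.intervalIntegrable a b
  rw [hftc, intervalIntegral.integral_of_le hab.le, intervalIntegral.integral_of_le hab.le]
  set μ : Measure ℝ := volume.restrict (Ioc a b) with hμ
  have hreal : μ.real univ = b - a := by
    rw [hμ, measureReal_restrict_apply_univ]
    rw [Measure.real, Real.volume_Ioc, ENNReal.toReal_ofReal (by linarith)]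
  have hpos : 0 < b - a := by linarith
  have hfin : IsFiniteMeasure μ := by
    rw [hμ]; exact ⟨by rw [Measure.restrict_apply_univ]; exact measure_Ioc_lt_top⟩
  have hne : NeZero μ := by
    refine ⟨fun h0 => ?_⟩
    rw [h0] at hreal
    simp at hreal
    linarith
  have hcn : Continuous (D.nrm p) := D.continuous_nrm p
  have hint1 : Integrable (fun t => deriv γ t) μ :=
    (hd.integrableOn_Icc (a := a) (b := b)).mono_set Ioc_subset_Icc_self
  have hint2 : Integrable ((D.nrm p) ∘ fun t => deriv γ t) μ :=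
    ((hcn.comp hd).integrableOn_Icc (a := a) (b := b)).mono_set Ioc_subset_Icc_self
  have hJ := ((D.nrm p).convexOn).map_average_le (μ := μ) (f := fun t => deriv γ t)
    hcn.continuousOn isClosed_univ (Eventually.of_forall fun _ => mem_univ _) hint1 hint2
  rw [average_eq, average_eq, hreal] at hJ
  have hs : D.nrm p ((b - a)⁻¹ • ∫ t, deriv γ t ∂μ) = (b - a)⁻¹ * D.nrm p (∫ t, deriv γ t ∂μ) := by
    have h1 : ((b - a)⁻¹ • ∫ t, deriv γ t ∂μ : Cn n) =
        (((b - a)⁻¹ : ℝ) : ℂ) • ∫ t, deriv γ t ∂μ := by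
      ext i
      simp
    rw [h1, map_smul_eq_mul]
    congr 1
    rw [Complex.norm_real, Real.norm_of_nonneg (by positivity)]
  rw [hs, smul_eq_mul] at hJ
  exact le_of_mul_le_mul_left hJ (by positivity)

/-- Continuity of the length density. -/
private lemma E6b_cont (D : Dom n) {γ : ℝ → Cn n} (hγ : ContDiff ℝ 1 γ) {a b : ℝ}
    (hΩ : ∀ t ∈ Icc a b, γ t ∈ D.Ω) :
    ContinuousOn (fun t => D.nrm (γ t) (deriv γ t)) (Icc a b) := by
  have hd : Continuous (deriv γ) := hγ.continuous_deriv le_rfl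
  have h1 : ContinuousOn (fun t => (γ t, deriv γ t)) (Icc a b) :=
    (hγ.continuous.prodMk hd).continuousOn
  have h2 : MapsTo (fun t => (γ t, deriv γ t)) (Icc a b) (D.Ω ×ˢ univ) :=
    fun t ht => ⟨hΩ t ht, mem_univ _⟩
  have h3 := ContinuousOn.comp (g := fun p : Cn n × Cn n => D.nrm p.1 p.2) D.continuousOn_nrm h1 h2
  exact h3

/-- A curve of small `nrm`-length stays in a small ball (first exit time):
if `∫_a^b nrm (γ t) (γ' t) dt < s/2` then `γ b ∈ B (γ a) s`. -/
theorem curve_short (D : Dom n) {s₀ s : ℝ} (h : D.Good s₀) (hs : 0 < s) (hs' : s ≤ s₀)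
    {γ : ℝ → Cn n} (hγ : ContDiff ℝ 1 γ) {a b : ℝ} (hab : a ≤ b) (hΩ : ∀ t ∈ Icc a b, γ t ∈ D.Ω)
    (hl : ∫ t in a..b, D.nrm (γ t) (deriv γ t) < s / 2) : γ b ∈ D.B (γ a) s := by
  by_contra hcon
  rw [mem_B, not_lt] at hcon
  have hd : Continuous (deriv γ) := hγ.continuous_deriv le_rfl
  have hcn : Continuous (D.nrm (γ a)) := D.continuous_nrm (γ a)
  have hg : Continuous fun t => D.nrm (γ a) (γ t - γ a) :=
    hcn.comp (hγ.continuous.sub continuous_const)
  have hcomp : IsCompact (Icc a b ∩ {t | s ≤ D.nrm (γ a) (γ t - γ a)}) :=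
    isCompact_Icc.inter_right (isClosed_le continuous_const hg)
  have hne : (Icc a b ∩ {t | s ≤ D.nrm (γ a) (γ t - γ a)}).Nonempty :=
    ⟨b, ⟨hab, le_rfl⟩, hcon⟩
  obtain ⟨t₁, ⟨ht₁, hst₁⟩, hleast⟩ := hcomp.exists_isLeast hne
  have hst₁' : s ≤ D.nrm (γ a) (γ t₁ - γ a) := hst₁
  have hat : a < t₁ := by
    rcases eq_or_lt_of_le ht₁.1 with h0 | h0
    · rw [← h0, sub_self, map_zero] at hst₁'
      linarith
    · exact h0
  have hin : ∀ t ∈ Ioo a t₁, γ t ∈ D.B (γ a) s := by
    intro t ht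
    rw [mem_B]
    by_contra h1
    have := hleast ⟨⟨ht.1.le, ht.2.le.trans ht₁.2⟩, not_lt.1 h1⟩
    exact absurd ht.2 (not_lt.2 this)
  have hcont : ContinuousOn (fun t => D.nrm (γ t) (deriv γ t)) (Icc a b) := E6b_cont D hγ hΩ
  have hii : IntervalIntegrable (fun t => D.nrm (γ t) (deriv γ t)) volume a b :=
    ContinuousOn.intervalIntegrable (by rwa [uIcc_of_le hab])
  have hii1 : IntervalIntegrable (fun t => D.nrm (γ t) (deriv γ t)) volume a t₁ := by
    refine ContinuousOn.intervalIntegrable ?_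
    rw [uIcc_of_le hat.le]
    exact hcont.mono (Icc_subset_Icc_right ht₁.2)
  have hii2 : IntervalIntegrable (fun t => D.nrm (γ t) (deriv γ t)) volume t₁ b := by
    refine ContinuousOn.intervalIntegrable ?_
    rw [uIcc_of_le ht₁.2]
    exact hcont.mono (Icc_subset_Icc_left ht₁.1)
  have h1 : ∫ t in a..t₁, D.nrm (γ a) (deriv γ t) ≤
      ∫ t in a..t₁, 2 * D.nrm (γ t) (deriv γ t) := by
    refine intervalIntegral.integral_mono_on_of_le_Ioo hat.le
      ((hcn.comp hd).intervalIntegrable a t₁) (hii1.const_mul 2) ?_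
    intro t ht
    have hB : γ t ∈ D.B (γ a) s₀ := D.B_mono _ hs' (hin t ht)
    exact ((h.sub (γ a) (hΩ a ⟨le_rfl, hab⟩) (γ t) hB).2.2.2 (deriv γ t)).2
  have h2 : ∫ t in a..t₁, 2 * D.nrm (γ t) (deriv γ t) =
      2 * ∫ t in a..t₁, D.nrm (γ t) (deriv γ t) :=
    intervalIntegral.integral_const_mul _ _
  have h3 : (∫ t in a..t₁, D.nrm (γ t) (deriv γ t)) + ∫ t in t₁..b, D.nrm (γ t) (deriv γ t) =
      ∫ t in a..b, D.nrm (γ t) (deriv γ t) :=
    intervalIntegral.integral_add_adjacent_intervals hii1 hii2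
  have h4 : 0 ≤ ∫ t in t₁..b, D.nrm (γ t) (deriv γ t) :=
    intervalIntegral.integral_nonneg ht₁.2 fun t _ => apply_nonneg _ _
  have h5 := E6b_incr D (γ a) hγ hat
  linarith

/-- Chains along a curve. -/
private lemma E6b_chain (D : Dom n) {s₀ s : ℝ} (h : D.Good s₀) (hs : 0 < s) (hs' : s ≤ s₀)
    {γ : ℝ → Cn n} (hγ : ContDiff ℝ 1 γ) (hΩ : ∀ t ∈ Icc (0 : ℝ) 1, γ t ∈ D.Ω) (M : ℕ) :
    ∀ a ∈ Icc (0 : ℝ) 1, ∫ t in a..1, D.nrm (γ t) (deriv γ t) < M * (s / 2) →
      ∃ x : ℕ → Cn n, x 0 = γ a ∧ x M = γ 1 ∧ (∀ i, x i ∈ D.Ω) ∧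
        ∀ i, x (i + 1) ∈ D.B (x i) s := by
  have hd : Continuous (deriv γ) := hγ.continuous_deriv le_rfl
  have hcont : ContinuousOn (fun t => D.nrm (γ t) (deriv γ t)) (Icc 0 1) := E6b_cont D hγ hΩ
  have hii : ∀ u ∈ Icc (0 : ℝ) 1, ∀ v ∈ Icc (0 : ℝ) 1, u ≤ v →
      IntervalIntegrable (fun t => D.nrm (γ t) (deriv γ t)) volume u v := by
    intro u hu v hv huv
    refine ContinuousOn.intervalIntegrable ?_
    rw [uIcc_of_le huv]
    exact hcont.mono (Icc_subset_Icc hu.1 hv.2)
  have hone : (1 : ℝ) ∈ Icc (0 : ℝ) 1 := ⟨zero_le_one, le_rfl⟩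
  induction M with
  | zero =>
    intro a ha hl
    have h4 : 0 ≤ ∫ t in a..1, D.nrm (γ t) (deriv γ t) :=
      intervalIntegral.integral_nonneg ha.2 fun t _ => apply_nonneg _ _
    simp only [Nat.cast_zero, zero_mul] at hl
    linarith
  | succ M ih =>
    intro a ha hl
    rcases Nat.eq_zero_or_pos M with hM | hM
    · subst hM
      have h1 : γ 1 ∈ D.B (γ a) s := by
        refine D.curve_short h hs hs' hγ ha.2 (fun t ht => hΩ t ⟨ha.1.trans ht.1, ht.2⟩) ?_
        simpa using hl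
      refine ⟨fun i => if i = 0 then γ a else γ 1, by simp, by simp, ?_, ?_⟩
      · intro i
        by_cases hi : i = 0
        · simp only [hi, if_true]; exact hΩ a ha
        · simp only [hi, if_false]; exact hΩ 1 hone
      · intro i
        by_cases hi : i = 0
        · simp only [hi, if_true]
          simpa using h1
        · simp only [hi, if_false, Nat.add_eq_zero_iff, one_ne_zero, and_false]
          exact D.self_mem_B _ hs
    · set T := ∫ t in a..1, D.nrm (γ t) (deriv γ t) with hT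
      have hT0 : 0 ≤ T := intervalIntegral.integral_nonneg ha.2 fun t _ => apply_nonneg _ _
      have hM1 : (0 : ℝ) < (M : ℝ) + 1 := by positivity
      have hMp : (0 : ℝ) < (M : ℝ) := by exact_mod_cast hM
      have hG : ContinuousOn (fun x => ∫ t in a..x, D.nrm (γ t) (deriv γ t)) (Icc a 1) := by
        have := intervalIntegral.continuousOn_primitive_interval (μ := volume) (a := a) (b := 1)
          (f := fun t => D.nrm (γ t) (deriv γ t)) (by
            rw [uIcc_of_le ha.2]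
            exact (hcont.mono (Icc_subset_Icc_left ha.1)).integrableOn_Icc)
        rwa [uIcc_of_le ha.2] at this
      have hmem : T / (M + 1) ∈ (fun x => ∫ t in a..x, D.nrm (γ t) (deriv γ t)) '' Icc a 1 := by
        refine intermediate_value_Icc ha.2 hG ⟨?_, ?_⟩
        · simp only [intervalIntegral.integral_same]
          positivity
        · exact div_le_self hT0 (by linarith)
      obtain ⟨c, hc, hcT⟩ := hmem
      simp only at hcT
      have hc01 : c ∈ Icc (0 : ℝ) 1 := ⟨ha.1.trans hc.1, hc.2⟩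
      have hsum : (∫ t in a..c, D.nrm (γ t) (deriv γ t)) + ∫ t in c..1, D.nrm (γ t) (deriv γ t) =
          T := intervalIntegral.integral_add_adjacent_intervals (hii a ha c hc01 hc.1)
            (hii c hc01 1 hone hc.2)
      push_cast at hl
      have hTs : T / (M + 1) < s / 2 := by
        rw [div_lt_iff₀ hM1]; linarith
      have hrest : ∫ t in c..1, D.nrm (γ t) (deriv γ t) < M * (s / 2) := by
        have e : ∫ t in c..1, D.nrm (γ t) (deriv γ t) = M * (T / (M + 1)) := by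
          have : T = (M + 1) * (T / (M + 1)) := by field_simp
          linarith
        rw [e]
        exact mul_lt_mul_of_pos_left hTs hMp
      obtain ⟨x, hx0, hxM, hxΩ, hxB⟩ := ih c hc01 hrest
      have hstep : γ c ∈ D.B (γ a) s := by
        refine D.curve_short h hs hs' hγ hc.1
          (fun t ht => hΩ t ⟨ha.1.trans ht.1, ht.2.trans hc.2⟩) ?_
        rw [hcT]; exact hTs
      refine ⟨fun i => Nat.casesOn i (γ a) x, rfl, hxM, ?_, ?_⟩
      · intro i
        cases i with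
        | zero => exact hΩ a ha
        | succ i => exact hxΩ i
      · intro i
        cases i with
        | zero =>
          change x 0 ∈ D.B (γ a) s
          rw [hx0]; exact hstep
        | succ i => exact hxB i

/-- Chains. The `nrm`-length of a curve of Bergman length `< r` is `< C r` (`metric_bounds`);
cut it at points dividing the `nrm`-length into `M` equal parts (intermediate value theorem),
`M > 2 C r / s`; `curve_short`. -/
theorem exists_chain (D : Dom n) (hM : D.MetricProp) {s₀ s r : ℝ} (h : D.Good s₀) (hs : 0 < s) (hs' : s ≤ s₀)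
    (hr : 0 < r) : ∃ M : ℕ, ∀ z ∈ D.Ω, ∀ w ∈ HankelSPC.ball D.Ω z r, ∃ x : ℕ → Cn n,
      x 0 = z ∧ x M = w ∧ (∀ i, x i ∈ D.Ω) ∧ ∀ i, x (i + 1) ∈ D.B (x i) s := by
  obtain ⟨C, hC, hCm⟩ := hM
  refine ⟨⌈2 * C * r / s⌉₊ + 1, ?_⟩
  intro z hz w hw
  obtain ⟨hwΩ, hwd⟩ := hw
  unfold bergmanDist at hwd
  rw [iInf_lt_iff] at hwd
  obtain ⟨⟨γ, hγ, hΩ, hγ0, hγ1⟩, hlen⟩ := hwd
  simp only at hlen
  have hd : Continuous (deriv γ) := hγ.continuous_deriv le_rfl
  have hcont : ContinuousOn (fun t => D.nrm (γ t) (deriv γ t)) (Icc 0 1) := E6b_cont D hγ hΩ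
  have h1 : ∫⁻ t in Icc (0 : ℝ) 1, ENNReal.ofReal (D.nrm (γ t) (deriv γ t)) <
      ENNReal.ofReal (C * r) := by
    calc ∫⁻ t in Icc (0 : ℝ) 1, ENNReal.ofReal (D.nrm (γ t) (deriv γ t))
        ≤ ∫⁻ t in Icc (0 : ℝ) 1, ENNReal.ofReal C *
            ENNReal.ofReal (bergmanMetric D.Ω (γ t) (deriv γ t)) := by
          refine setLIntegral_mono' measurableSet_Icc ?_
          intro t ht
          rw [← ENNReal.ofReal_mul hC.le]
          refine ENNReal.ofReal_le_ofReal ?_
          have h2 := (hCm (γ t) (hΩ t ht) (deriv γ t)).1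
          rwa [inv_mul_le_iff₀ hC] at h2
      _ = ENNReal.ofReal C * ∫⁻ t in Icc (0 : ℝ) 1,
            ENNReal.ofReal (bergmanMetric D.Ω (γ t) (deriv γ t)) :=
          lintegral_const_mul' _ _ ENNReal.ofReal_ne_top
      _ < ENNReal.ofReal C * ENNReal.ofReal r :=
          ENNReal.mul_lt_mul_right (by simpa using hC) ENNReal.ofReal_ne_top hlen
      _ = ENNReal.ofReal (C * r) := (ENNReal.ofReal_mul hC.le).symm
  have h2 : ∫ t in (0 : ℝ)..1, D.nrm (γ t) (deriv γ t) < C * r := by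
    rw [intervalIntegral.integral_of_le zero_le_one, ← integral_Icc_eq_integral_Ioc,
      integral_eq_lintegral_of_nonneg_ae (Eventually.of_forall fun t => apply_nonneg _ _)
        (hcont.aestronglyMeasurable measurableSet_Icc)]
    exact ENNReal.toReal_lt_of_lt_ofReal h1
  have h3 : ∫ t in (0 : ℝ)..1, D.nrm (γ t) (deriv γ t) <
      ((⌈2 * C * r / s⌉₊ + 1 : ℕ) : ℝ) * (s / 2) := by
    refine h2.trans_le ?_
    have h4 : 2 * C * r / s ≤ (⌈2 * C * r / s⌉₊ : ℝ) := Nat.le_ceil _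
    rw [div_le_iff₀ hs] at h4
    push_cast
    nlinarith
  obtain ⟨x, hx0, hxM, hxΩ, hxB⟩ := E6b_chain D h hs hs' hγ hΩ _ 0 ⟨le_rfl, zero_le_one⟩ h3
  exact ⟨x, hx0.trans hγ0, hxM.trans hγ1, hxΩ, hxB⟩

end Dom

end HankelSPC
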