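import Pool.Agent.Lib.MP_e1cf54_an.E6a
import Pool.Agent.Lib.MP_e1cf54_an.E6b
import Pool.Agent.Lib.MP_e1cf54_an.C2

/-! Row E7a: Bergman balls: facts and volume -/

open MeasureTheory Set Filter
open scoped ENNReal NNReal Topology ContDiff

namespace HankelSPC

variable {n : ℕ}

namespace Dom

private lemma E7a_chain (D : Dom n) {s₀ : ℝ} (h : D.Good s₀) {x : ℕ → Cn n} (hΩ : ∀ i, x i ∈ D.Ω)
    (hx : ∀ i, x (i + 1) ∈ D.B (x i) s₀) (i : ℕ) :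
    (∀ X, D.nrm (x 0) X ≤ 2 ^ i * D.nrm (x i) X) ∧
    D.nrm (x 0) (x i - x 0) ≤ (2 ^ i - 1) * s₀ ∧ D.δ (x 0) ≤ 2 ^ i * D.δ (x i) ∧
      D.δ (x i) ≤ 2 ^ i * D.δ (x 0) := by
  induction i with
  | zero =>
    refine ⟨fun X => by simp, by simp, by simp, by simp⟩
  | succ i ih =>
    obtain ⟨h1, h2, h3, h4⟩ := ih
    obtain ⟨_, g1, g2, g3⟩ := h.sub (x i) (hΩ i) (x (i + 1)) (hx i)
    have hp : (0:ℝ) < 2 ^ i := by positivity
    refine ⟨fun X => ?_, ?_, ?_, ?_⟩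
    · calc D.nrm (x 0) X ≤ 2 ^ i * D.nrm (x i) X := h1 X
        _ ≤ 2 ^ i * (2 * D.nrm (x (i + 1)) X) := mul_le_mul_of_nonneg_left (g3 X).2 hp.le
        _ = 2 ^ (i + 1) * D.nrm (x (i + 1)) X := by ring
    · have e : x (i + 1) - x 0 = (x (i + 1) - x i) + (x i - x 0) := by abel
      have hs : D.nrm (x i) (x (i + 1) - x i) < s₀ := (D.mem_B).mp (hx i)
      calc D.nrm (x 0) (x (i + 1) - x 0)
          ≤ D.nrm (x 0) (x (i + 1) - x i) + D.nrm (x 0) (x i - x 0) := by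
            rw [e]
            exact map_add_le_add _ _ _
        _ ≤ 2 ^ i * s₀ + (2 ^ i - 1) * s₀ :=
            add_le_add ((h1 _).trans (mul_le_mul_of_nonneg_left hs.le hp.le)) h2
        _ = (2 ^ (i + 1) - 1) * s₀ := by ring
    · calc D.δ (x 0) ≤ 2 ^ i * D.δ (x i) := h3
        _ ≤ 2 ^ i * (2 * D.δ (x (i + 1))) := mul_le_mul_of_nonneg_left g2 hp.le
        _ = 2 ^ (i + 1) * D.δ (x (i + 1)) := by ring
    · calc D.δ (x (i + 1)) ≤ 2 * D.δ (x i) := g1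
        _ ≤ 2 * (2 ^ i * D.δ (x 0)) := by linarith
        _ = 2 ^ (i + 1) * D.δ (x 0) := by ring

/-- Points of `D(z,r)`: iterate the chain; `δ` changes at most by a factor `2` at each step and
`|x_M - z|_z ≤ ∑ 2^i s`. -/
theorem ball_facts (D : Dom n) (hM : D.MetricProp) {r : ℝ} (hr : 0 < r) : ∃ R : ℝ, 1 ≤ R ∧ ∀ z ∈ D.Ω,
    ∀ w ∈ HankelSPC.ball D.Ω z r, w ∈ D.Ω ∧ D.nrm z (w - z) < R ∧ D.δ z ≤ R * D.δ w ∧
      D.δ w ≤ R * D.δ z := by
  obtain ⟨s₀, h⟩ := D.exists_good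
  obtain ⟨M, hMM⟩ := D.exists_chain hM h h.pos (le_refl s₀) hr
  refine ⟨2 ^ M, one_le_pow₀ (by norm_num), ?_⟩
  intro z hz w hw
  obtain ⟨x, hx0, hxM, hxΩ, hxs⟩ := hMM z hz w hw
  obtain ⟨_, h2, h3, h4⟩ := E7a_chain D h hxΩ hxs M
  rw [hx0, hxM] at h2 h3 h4
  refine ⟨hw.1, ?_, h3, h4⟩
  have hp : (0:ℝ) ≤ 2 ^ M - 1 := by
    have : (1:ℝ) ≤ 2 ^ M := one_le_pow₀ (by norm_num)
    linarith
  have h5 : ((2:ℝ) ^ M - 1) * s₀ ≤ (2 ^ M - 1) * 1 := mul_le_mul_of_nonneg_left h.le_one hp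
  linarith

theorem volume_ball (D : Dom n) (hM : D.MetricProp) {r : ℝ} (hr : 0 < r) : ∃ C : ℝ, 0 < C ∧ ∀ z ∈ D.Ω,
    ENNReal.ofReal (C⁻¹ * D.δ z ^ (n + 1)) ≤ volume (HankelSPC.ball D.Ω z r) ∧
      volume (HankelSPC.ball D.Ω z r) ≤ ENNReal.ofReal (C * D.δ z ^ (n + 1)) := by
  obtain ⟨s₀, h⟩ := D.exists_good
  obtain ⟨R, hR, hball⟩ := D.ball_facts hM hr
  obtain ⟨s, hs, _, hsub⟩ := D.exists_B_subset_ball hM h hr
  obtain ⟨C, hC, hvol⟩ := D.volume_B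
  have hR0 : 0 < R := by linarith
  have hsn : 0 < s ^ (2 * n) := by positivity
  have hRn : 0 < R ^ (2 * n) := by positivity
  refine ⟨C / s ^ (2 * n) + C * R ^ (2 * n), by positivity, ?_⟩
  intro z hz
  have hδ : 0 < D.δ z := D.δ_pos hz
  have hδn : 0 < D.δ z ^ (n + 1) := by positivity
  constructor
  · refine le_trans ?_ ((hvol z hz s hs).1.trans (measure_mono (hsub z hz)))
    apply ENNReal.ofReal_le_ofReal
    refine mul_le_mul_of_nonneg_right ?_ hδn.le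
    have h1 : (C / s ^ (2 * n) + C * R ^ (2 * n))⁻¹ ≤ (C / s ^ (2 * n))⁻¹ := by
      apply inv_anti₀ (by positivity)
      have : 0 < C * R ^ (2 * n) := by positivity
      linarith
    have h2 : (C / s ^ (2 * n))⁻¹ = C⁻¹ * s ^ (2 * n) := by
      field_simp
    rw [h2] at h1
    exact h1
  · have hsub2 : HankelSPC.ball D.Ω z r ⊆ D.B z R := by
      intro w hw
      exact D.mem_B.mpr (hball z hz w hw).2.1
    refine (measure_mono hsub2).trans ((hvol z hz R hR0).2.trans ?_)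
    apply ENNReal.ofReal_le_ofReal
    refine mul_le_mul_of_nonneg_right ?_ hδn.le
    have : 0 < C / s ^ (2 * n) := by positivity
    linarith

end Dom

end HankelSPC
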