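import Pool.Agent.Lib.MP_e1cf54_an.E1b
import Pool.Agent.Lib.MP_e1cf54_an.C1a

/-! Row E7b: kernel measurability, lambda -/

open MeasureTheory Set Filter
open scoped ENNReal NNReal Topology ContDiff

namespace HankelSPC

variable {n : ℕ}

namespace Dom

private lemma E7b_bdd {Ω : Set (Cn n)} (hΩ : IsOpen Ω) (h0 : volume Ω ≠ 0) (h1 : volume Ω ≠ ⊤)
    {z : Cn n} (hz : z ∈ Ω) : BddAbove {x : ℝ | ∃ g : Cn n → ℂ, DifferentiableOn ℂ g Ω ∧
    (∫⁻ w, ‖g w‖ₑ ^ 2 ∂(vol Ω)) ≤ 1 ∧ x = ‖g z‖ ^ 2} := by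
  obtain ⟨k, hk⟩ := exists_repr hΩ h0 h1 hz
  refine ⟨‖k‖ ^ 2, ?_⟩
  rintro x ⟨g, hg, hg1, rfl⟩
  have hconv : ∀ w, ‖g w‖ₑ ^ 2 = ENNReal.ofReal (‖g w‖ ^ 2) := by
    intro w
    rw [← ofReal_norm, ENNReal.ofReal_pow (norm_nonneg _)]
  simp only [hconv] at hg1
  rw [lintegral_vol] at hg1
  have hfin : ∫⁻ w in Ω, ENNReal.ofReal (‖g w‖ ^ 2) ≠ ⊤ := by
    intro h
    rw [h, ENNReal.mul_top (ENNReal.inv_ne_zero.mpr h1)] at hg1
    exact absurd hg1 (by simp)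
  obtain ⟨G, hG⟩ := exists_bergman hΩ h0 h1 hg hfin
  have hn : ENNReal.ofReal (‖G‖ ^ 2) ≤ 1 := by
    rw [norm_sq_holo h0 h1 G]
    have : ∫⁻ w in Ω, ENNReal.ofReal (‖holo G w‖ ^ 2) = ∫⁻ w in Ω, ENNReal.ofReal (‖g w‖ ^ 2) :=
      setLIntegral_congr_fun hΩ.measurableSet (fun w hw => by simp only [hG hw])
    rw [this]
    exact hg1
  have hn1 : ‖G‖ ^ 2 ≤ 1 := by
    have := ENNReal.ofReal_le_one.mp hn
    exact this
  have hn2 : ‖G‖ ≤ 1 := by nlinarith [norm_nonneg G]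
  have h3 : ‖g z‖ ≤ ‖k‖ := by
    rw [← hG hz, ← hk G]
    calc ‖inner ℂ k G‖ ≤ ‖k‖ * ‖G‖ := norm_inner_le_norm (𝕜 := ℂ) k G
      _ ≤ ‖k‖ * 1 := by gcongr
      _ = ‖k‖ := mul_one _
  exact pow_le_pow_left₀ (norm_nonneg _) h3 2

/-- `K` is lower semicontinuous on `Ω` (supremum of continuous functions). -/
theorem measurable_kernel (D : Dom n) :
    AEMeasurable (kernelDiag D.Ω) (volume.restrict D.Ω) := by
  have hΩ := D.isOpen_Ω
  have h0 : volume D.Ω ≠ 0 := D.volume_Ω_pos.ne'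
  have h1 : volume D.Ω ≠ ⊤ := D.volume_Ω_lt_top.ne
  refine ⟨D.Ω.indicator (kernelDiag D.Ω), ?_, ?_⟩
  · refine measurable_of_Ioi fun a => ?_
    by_cases ha : a < 0
    · have : (D.Ω.indicator (kernelDiag D.Ω)) ⁻¹' Ioi a = univ := by
        refine eq_univ_of_forall fun z => ?_
        rw [mem_preimage, mem_Ioi]
        by_cases hz : z ∈ D.Ω
        · rw [indicator_of_mem hz]
          have := one_le_kernelDiag hΩ h0 h1 hz
          linarith
        · rw [indicator_of_notMem hz]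
          exact ha
      rw [this]
      exact MeasurableSet.univ
    · push Not at ha
      refine IsOpen.measurableSet ?_
      rw [isOpen_iff_mem_nhds]
      intro z hz
      rw [mem_preimage, mem_Ioi] at hz
      have hzΩ : z ∈ D.Ω := by
        by_contra hzn
        rw [indicator_of_notMem hzn] at hz
        linarith
      rw [indicator_of_mem hzΩ] at hz
      have hne : {x : ℝ | ∃ g : Cn n → ℂ, DifferentiableOn ℂ g D.Ω ∧
          (∫⁻ w, ‖g w‖ₑ ^ 2 ∂(vol D.Ω)) ≤ 1 ∧ x = ‖g z‖ ^ 2}.Nonempty :=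
        ⟨0, fun _ => 0, differentiableOn_const 0, by simp, by simp⟩
      obtain ⟨x, ⟨g, hg, hg1, rfl⟩, hx⟩ := exists_lt_of_lt_csSup hne hz
      have hcont : ContinuousAt (fun w => ‖g w‖ ^ 2) z :=
        ((hg.continuousOn.continuousAt (hΩ.mem_nhds hzΩ)).norm).pow 2
      filter_upwards [hcont.eventually (lt_mem_nhds hx), hΩ.mem_nhds hzΩ] with w hw hwΩ
      rw [mem_preimage, mem_Ioi, indicator_of_mem hwΩ]
      exact lt_of_lt_of_le hw (le_csSup (E7b_bdd hΩ h0 h1 hwΩ) ⟨g, hg, hg1, rfl⟩)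
  · exact (ae_restrict_of_forall_mem hΩ.measurableSet fun z hz =>
      (indicator_of_mem hz _).symm)

/-- Integration against `λ`, up to constants, for arbitrary (non-negative) functions. -/
theorem lintegral_lam (D : Dom n) (hK : D.KernelProp) : ∃ C : ℝ, 0 < C ∧ ∀ F : Cn n → ℝ≥0∞,
    ∫⁻ z, F z ∂(lam D.Ω)
        ≤ ENNReal.ofReal C * ∫⁻ z in D.Ω, F z * ENNReal.ofReal ((D.δ z)⁻¹ ^ (n + 1)) ∧
      ∫⁻ z in D.Ω, F z * ENNReal.ofReal ((D.δ z)⁻¹ ^ (n + 1))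
        ≤ ENNReal.ofReal C * ∫⁻ z, F z ∂(lam D.Ω) := by
  obtain ⟨C, hC, hCb⟩ := hK
  have hΩ := D.isOpen_Ω
  have h0 : volume D.Ω ≠ 0 := D.volume_Ω_pos.ne'
  have h1 : volume D.Ω ≠ ⊤ := D.volume_Ω_lt_top.ne
  set V : ℝ := (volume D.Ω).toReal with hV
  have hVpos : 0 < V := ENNReal.toReal_pos h0 h1
  have hVo : volume D.Ω = ENNReal.ofReal V := (ENNReal.ofReal_toReal h1).symm
  have hVi : (volume D.Ω)⁻¹ = ENNReal.ofReal V⁻¹ := by
    rw [hVo, ENNReal.ofReal_inv_of_pos hVpos]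
  have hmeas : AEMeasurable (fun z => ENNReal.ofReal (kernelDiag D.Ω z)) (vol D.Ω) :=
    (D.measurable_kernel.ennreal_ofReal).smul_measure _
  have hlam : ∀ F : Cn n → ℝ≥0∞, ∫⁻ z, F z ∂(lam D.Ω) =
      ENNReal.ofReal V⁻¹ * ∫⁻ z in D.Ω, ENNReal.ofReal (kernelDiag D.Ω z) * F z := by
    intro F
    rw [lam, lintegral_withDensity_eq_lintegral_mul_non_measurable₀ _ hmeas
      (Eventually.of_forall fun z => ENNReal.ofReal_lt_top), lintegral_vol, hVi]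
    rfl
  refine ⟨C * (V + V⁻¹), by positivity, fun F => ⟨?_, ?_⟩⟩
  · rw [hlam]
    have h2 : ∫⁻ z in D.Ω, ENNReal.ofReal (kernelDiag D.Ω z) * F z ≤
        ENNReal.ofReal C * ∫⁻ z in D.Ω, F z * ENNReal.ofReal ((D.δ z)⁻¹ ^ (n + 1)) := by
      rw [← lintegral_const_mul' _ _ ENNReal.ofReal_ne_top]
      refine lintegral_mono_ae (ae_restrict_of_forall_mem hΩ.measurableSet fun z hz => ?_)
      have h3 : ENNReal.ofReal (kernelDiag D.Ω z) ≤
          ENNReal.ofReal C * ENNReal.ofReal ((D.δ z)⁻¹ ^ (n + 1)) := by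
        rw [← ENNReal.ofReal_mul hC.le]
        exact ENNReal.ofReal_le_ofReal (hCb z hz).2
      calc ENNReal.ofReal (kernelDiag D.Ω z) * F z
          ≤ (ENNReal.ofReal C * ENNReal.ofReal ((D.δ z)⁻¹ ^ (n + 1))) * F z := by gcongr
        _ = ENNReal.ofReal C * (F z * ENNReal.ofReal ((D.δ z)⁻¹ ^ (n + 1))) := by ring
    calc ENNReal.ofReal V⁻¹ * ∫⁻ z in D.Ω, ENNReal.ofReal (kernelDiag D.Ω z) * F z
        ≤ ENNReal.ofReal V⁻¹ * (ENNReal.ofReal C *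
          ∫⁻ z in D.Ω, F z * ENNReal.ofReal ((D.δ z)⁻¹ ^ (n + 1))) := by gcongr
      _ = ENNReal.ofReal (V⁻¹ * C) *
          ∫⁻ z in D.Ω, F z * ENNReal.ofReal ((D.δ z)⁻¹ ^ (n + 1)) := by
          rw [← mul_assoc, ← ENNReal.ofReal_mul (by positivity)]
      _ ≤ _ := by
          have h6 : V⁻¹ * C ≤ C * (V + V⁻¹) := by nlinarith [mul_pos hC hVpos]
          exact mul_le_mul_left (ENNReal.ofReal_le_ofReal h6) _
  · have h2 : ∫⁻ z in D.Ω, F z * ENNReal.ofReal ((D.δ z)⁻¹ ^ (n + 1)) ≤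
        ENNReal.ofReal C * ∫⁻ z in D.Ω, ENNReal.ofReal (kernelDiag D.Ω z) * F z := by
      rw [← lintegral_const_mul' _ _ ENNReal.ofReal_ne_top]
      refine lintegral_mono_ae (ae_restrict_of_forall_mem hΩ.measurableSet fun z hz => ?_)
      have h3 : ENNReal.ofReal ((D.δ z)⁻¹ ^ (n + 1)) ≤
          ENNReal.ofReal C * ENNReal.ofReal (kernelDiag D.Ω z) := by
        rw [← ENNReal.ofReal_mul hC.le]
        refine ENNReal.ofReal_le_ofReal ?_
        have h4 := (hCb z hz).1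
        rwa [inv_mul_le_iff₀ hC] at h4
      calc F z * ENNReal.ofReal ((D.δ z)⁻¹ ^ (n + 1))
          ≤ F z * (ENNReal.ofReal C * ENNReal.ofReal (kernelDiag D.Ω z)) := by gcongr
        _ = ENNReal.ofReal C * (ENNReal.ofReal (kernelDiag D.Ω z) * F z) := by ring
    refine h2.trans ?_
    rw [hlam, ← mul_assoc, ← ENNReal.ofReal_mul (by positivity)]
    have h5 : C ≤ C * (V + V⁻¹) * V⁻¹ := by
      have : C * (V + V⁻¹) * V⁻¹ = C + C * (V⁻¹ * V⁻¹) := by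
        field_simp
      rw [this]
      have : 0 < C * (V⁻¹ * V⁻¹) := by positivity
      linarith
    gcongr

end Dom

end HankelSPC
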