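import Pool.Agent.Lib.MP_e1cf54_an.E6a
import Pool.Agent.Lib.MP_e1cf54_an.C1a

/-! Row E8: measurability of `z ↦ MO_r(f)(z)`. -/

open MeasureTheory Set Filter
open scoped ENNReal NNReal Topology ContDiff

namespace HankelSPC

variable {n : ℕ}

private lemma E8_section {α β E : Type*} [MeasurableSpace α] [MeasurableSpace β]
    [NormedAddCommGroup E] [NormedSpace ℝ E] {μ : Measure β} {P : Set (α × β)}
    (hP : MeasurableSet P) (F : α × β → E) (z : α) :
    ∫ w in Prod.mk z ⁻¹' P, F (z, w) ∂μ = ∫ w, P.indicator F (z, w) ∂μ := by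
  rw [← integral_indicator (measurable_prodMk_left hP)]
  rfl

/-- `z ↦ ∫ 1_{β(z,w)<r} F(w) dw` is measurable (`isOpen_dist_lt`,
`StronglyMeasurable.integral_prod_right`); expand `∫ |f - c|² = ∫|f|² - 2Re(c̄∫f) + |c|² v(D)` or
compose jointly measurable functions. -/
theorem Dom.measurable_MO (D : Dom n) (hM : D.MetricProp) {f : Cn n → ℂ} (hf : MemLp f 2 (vol D.Ω)) (r : ℝ) :
    AEStronglyMeasurable (MO D.Ω f r) (lam D.Ω) := by
  have h0 : volume D.Ω ≠ 0 := D.volume_Ω_pos.ne'
  have h1 : volume D.Ω ≠ ⊤ := D.volume_Ω_lt_top.ne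
  have hΩm : MeasurableSet D.Ω := D.isOpen_Ω.measurableSet
  have hfin : IsFiniteMeasure (vol D.Ω) := by
    constructor
    rw [vol, Measure.smul_apply, Measure.restrict_apply_univ, smul_eq_mul,
      ENNReal.inv_mul_cancel h0 h1]
    exact ENNReal.one_lt_top
  have hac : lam D.Ω ≪ vol D.Ω := withDensity_absolutelyContinuous _ _
  refine AEStronglyMeasurable.mono_ac hac ?_
  have hf' := hf.1
  set f' : Cn n → ℂ := hf'.mk f with hf'def
  have hfm : StronglyMeasurable f' := hf'.stronglyMeasurable_mk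
  have hfe : f =ᵐ[vol D.Ω] f' := hf'.ae_eq_mk
  set P : Set (Cn n × Cn n) := {p | p.1 ∈ D.Ω ∧ p.2 ∈ D.Ω ∧ bergmanDist D.Ω p.1 p.2
      < ENNReal.ofReal r} with hPdef
  have hP : MeasurableSet P := (D.isOpen_dist_lt hM r).measurableSet
  have hμ : StronglyMeasurable fun z : Cn n => ((vol D.Ω).real (Prod.mk z ⁻¹' P))⁻¹ :=
    ((measurable_measure_prodMk_left hP).ennreal_toReal.inv).stronglyMeasurable
  set A : Cn n → ℂ := fun z => ((vol D.Ω).real (Prod.mk z ⁻¹' P))⁻¹ •
    ∫ w, P.indicator (fun p => f' p.2) (z, w) ∂(vol D.Ω) with hAdef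
  have hA : StronglyMeasurable A := by
    refine hμ.smul ?_
    exact StronglyMeasurable.integral_prod_right'
      (StronglyMeasurable.indicator (hfm.comp_measurable measurable_snd) hP)
  set N : Cn n → ℝ := fun z => ((vol D.Ω).real (Prod.mk z ⁻¹' P))⁻¹ •
    ∫ w, P.indicator (fun p => ‖f' p.2 - A p.1‖ ^ 2) (z, w) ∂(vol D.Ω) with hNdef
  have hN : StronglyMeasurable N := by
    refine hμ.smul ?_
    refine StronglyMeasurable.integral_prod_right'
      (StronglyMeasurable.indicator ?_ hP)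
    exact (((hfm.comp_measurable measurable_snd).sub (hA.comp_measurable measurable_fst)).norm).pow 2
  refine ⟨fun z => Real.sqrt (N z), Real.continuous_sqrt.comp_stronglyMeasurable hN, ?_⟩
  have hmem : ∀ᵐ z ∂(vol D.Ω), z ∈ D.Ω :=
    Measure.ae_smul_measure (ae_restrict_mem hΩm) _
  filter_upwards [hmem] with z hz
  have hball : HankelSPC.ball D.Ω z r = Prod.mk z ⁻¹' P := by
    ext w
    simp [HankelSPC.ball, hPdef, hz]
  have hfe' : ∀ᵐ w ∂((vol D.Ω).restrict (Prod.mk z ⁻¹' P)), f w = f' w :=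
    ae_restrict_of_ae hfe
  have hAv : avg D.Ω f r z = A z := by
    rw [avg, setAverage_eq, hball, hAdef]
    simp only
    congr 1
    rw [← E8_section hP (fun p => f' p.2) z]
    exact integral_congr_ae hfe'
  rw [MO, hAv, hball, setAverage_eq, hNdef]
  simp only
  congr 2
  rw [← E8_section hP (fun p => ‖f' p.2 - A p.1‖ ^ 2) z]
  apply integral_congr_ae
  filter_upwards [hfe'] with w hw
  rw [hw]

end HankelSPC
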