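import Pool.Agent.Lib.MP_e1cf54_an.C3
import Pool.Agent.Lib.MP_e1cf54_an.C6c

/-! Row F7a: Gram bound -/

open MeasureTheory Set Filter
open scoped ENNReal NNReal Topology ContDiff

namespace HankelSPC

variable {n : ℕ}

namespace Dom

/-- pointwise Schur bound -/
theorem F7a_pointwise (D : Dom n) {N : ℕ} {C₁ : ℝ} {F : Finset (Cn n)} (hF : ↑F ⊆ D.Ω)
    {w : Cn n} (hw : w ∈ D.Ω)
    (hsum : ∑ x ∈ F, D.δ x ^ ((N : ℝ) - 1 / 2) * D.qd w x ^ (-(N : ℝ))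
      ≤ C₁ * D.δ w ^ ((N : ℝ) - 1 / 2 - N))
    {t : Cn n → Cn n → ℂ} {K : ℝ} (hK : 0 ≤ K)
    (ht : ∀ a ∈ F, ‖t a w‖ ≤ K * (D.qd a w)⁻¹ ^ N) (c : Cn n → ℂ) :
    ‖∑ a ∈ F, c a * ((D.δ a ^ ((N : ℝ) - (n + 1) / 2) : ℝ) : ℂ) * t a w‖ ^ 2 ≤
      ∑ a ∈ F, (K ^ 2 * ((1 + D.L) ^ N * C₁) * ‖c a‖ ^ 2 * D.δ a ^ ((N : ℝ) - (n + 1) / 2) *
        D.δ a ^ (-((n : ℝ) / 2))) *
          (D.δ w ^ ((n : ℝ) + 1 / 2 - n - 1) * D.qd a w ^ (-(N : ℝ))) := by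
  have hδ : ∀ a ∈ F, 0 < D.δ a := fun a ha => D.δ_pos (hF ha)
  have hq : ∀ a ∈ F, 0 < D.qd a w := fun a ha => D.qd_pos (hF ha) hw
  have hq' : ∀ a ∈ F, 0 < D.qd w a := fun a ha => D.qd_pos hw (hF ha)
  have hL : 0 ≤ 1 + D.L := by linarith [D.L_ge]
  set k : Cn n → ℝ := fun a => D.δ a ^ ((N : ℝ) - (n + 1) / 2) * (D.qd a w)⁻¹ ^ N with hk
  have hk0 : ∀ a ∈ F, 0 ≤ k a := fun a ha =>
    mul_nonneg (Real.rpow_nonneg (hδ a ha).le _) (pow_nonneg (inv_nonneg.mpr (hq a ha).le) _)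
  have h1 : ‖∑ a ∈ F, c a * ((D.δ a ^ ((N : ℝ) - (n + 1) / 2) : ℝ) : ℂ) * t a w‖ ≤
      K * ∑ a ∈ F, ‖c a‖ * k a := by
    refine (norm_sum_le _ _).trans ?_
    rw [Finset.mul_sum]
    refine Finset.sum_le_sum fun a ha => ?_
    rw [norm_mul, norm_mul, Complex.norm_real, Real.norm_eq_abs,
      abs_of_nonneg (Real.rpow_nonneg (hδ a ha).le _)]
    have h2 := ht a ha
    have h3 : 0 ≤ ‖c a‖ * D.δ a ^ ((N : ℝ) - (n + 1) / 2) :=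
      mul_nonneg (norm_nonneg _) (Real.rpow_nonneg (hδ a ha).le _)
    calc ‖c a‖ * D.δ a ^ ((N : ℝ) - (n + 1) / 2) * ‖t a w‖
        ≤ ‖c a‖ * D.δ a ^ ((N : ℝ) - (n + 1) / 2) * (K * (D.qd a w)⁻¹ ^ N) :=
          mul_le_mul_of_nonneg_left h2 h3
      _ = K * (‖c a‖ * k a) := by
          rw [hk]
          ring
  have hinv : ∀ a ∈ F, D.δ a ^ ((n : ℝ) / 2) * D.δ a ^ (-((n : ℝ) / 2)) = 1 := by
    intro a ha
    rw [← Real.rpow_add (hδ a ha)]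
    simp
  have h2 : (∑ a ∈ F, ‖c a‖ * k a) ^ 2 ≤
      (∑ a ∈ F, k a * D.δ a ^ ((n : ℝ) / 2)) *
        ∑ a ∈ F, ‖c a‖ ^ 2 * k a * D.δ a ^ (-((n : ℝ) / 2)) := by
    refine Finset.sum_sq_le_sum_mul_sum_of_sq_le_mul F ?_ ?_ ?_
    · exact fun a ha => mul_nonneg (hk0 a ha) (Real.rpow_nonneg (hδ a ha).le _)
    · exact fun a ha => mul_nonneg (mul_nonneg (sq_nonneg _) (hk0 a ha))
        (Real.rpow_nonneg (hδ a ha).le _)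
    · intro a ha
      have := hinv a ha
      refine le_of_eq ?_
      calc (‖c a‖ * k a) ^ 2 = ‖c a‖ ^ 2 * k a ^ 2 * 1 := by ring
        _ = ‖c a‖ ^ 2 * k a ^ 2 * (D.δ a ^ ((n : ℝ) / 2) * D.δ a ^ (-((n : ℝ) / 2))) := by
          rw [this]
        _ = _ := by ring
  have h3 : ∑ a ∈ F, k a * D.δ a ^ ((n : ℝ) / 2) ≤
      (1 + D.L) ^ N * (C₁ * D.δ w ^ ((N : ℝ) - 1 / 2 - N)) := by
    refine le_trans ?_ (mul_le_mul_of_nonneg_left hsum (pow_nonneg hL N))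
    rw [Finset.mul_sum]
    refine Finset.sum_le_sum fun a ha => ?_
    have e1 : D.δ a ^ ((N : ℝ) - (n + 1) / 2) * D.δ a ^ ((n : ℝ) / 2) =
        D.δ a ^ ((N : ℝ) - 1 / 2) := by
      rw [← Real.rpow_add (hδ a ha)]
      congr 1
      ring
    have e2 : D.qd w a ^ (-(N : ℝ)) = (D.qd w a)⁻¹ ^ N := by
      rw [Real.rpow_neg (hq' a ha).le, Real.rpow_natCast, inv_pow]
    have e3 : (D.qd a w)⁻¹ ≤ (1 + D.L) * (D.qd w a)⁻¹ := by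
      have hs := D.qd_symm (hF ha) hw
      rw [← div_eq_mul_inv, le_div_iff₀ (hq' a ha), inv_mul_le_iff₀ (hq a ha)]
      linarith
    have e4 : (D.qd a w)⁻¹ ^ N ≤ (1 + D.L) ^ N * (D.qd w a)⁻¹ ^ N := by
      rw [← mul_pow]
      exact pow_le_pow_left₀ (inv_nonneg.mpr (hq a ha).le) e3 N
    calc k a * D.δ a ^ ((n : ℝ) / 2)
        = D.δ a ^ ((N : ℝ) - 1 / 2) * (D.qd a w)⁻¹ ^ N := by
          rw [← e1, hk]
          ring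
      _ ≤ D.δ a ^ ((N : ℝ) - 1 / 2) * ((1 + D.L) ^ N * (D.qd w a)⁻¹ ^ N) :=
          mul_le_mul_of_nonneg_left e4 (Real.rpow_nonneg (hδ a ha).le _)
      _ = (1 + D.L) ^ N * (D.δ a ^ ((N : ℝ) - 1 / 2) * D.qd w a ^ (-(N : ℝ))) := by
          rw [e2]
          ring
  have h4 : 0 ≤ ∑ a ∈ F, ‖c a‖ ^ 2 * k a * D.δ a ^ (-((n : ℝ) / 2)) :=
    Finset.sum_nonneg fun a ha => mul_nonneg (mul_nonneg (sq_nonneg _) (hk0 a ha))
        (Real.rpow_nonneg (hδ a ha).le _)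
  have h5 : D.δ w ^ ((N : ℝ) - 1 / 2 - N) = D.δ w ^ ((n : ℝ) + 1 / 2 - n - 1) := by
    congr 1
    ring
  calc ‖∑ a ∈ F, c a * ((D.δ a ^ ((N : ℝ) - (n + 1) / 2) : ℝ) : ℂ) * t a w‖ ^ 2
      ≤ (K * ∑ a ∈ F, ‖c a‖ * k a) ^ 2 := pow_le_pow_left₀ (norm_nonneg _) h1 2
    _ = K ^ 2 * (∑ a ∈ F, ‖c a‖ * k a) ^ 2 := by ring
    _ ≤ K ^ 2 * ((∑ a ∈ F, k a * D.δ a ^ ((n : ℝ) / 2)) *
        ∑ a ∈ F, ‖c a‖ ^ 2 * k a * D.δ a ^ (-((n : ℝ) / 2))) :=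
        mul_le_mul_of_nonneg_left h2 (sq_nonneg _)
    _ ≤ K ^ 2 * (((1 + D.L) ^ N * (C₁ * D.δ w ^ ((N : ℝ) - 1 / 2 - N))) *
        ∑ a ∈ F, ‖c a‖ ^ 2 * k a * D.δ a ^ (-((n : ℝ) / 2))) :=
        mul_le_mul_of_nonneg_left (mul_le_mul_of_nonneg_right h3 h4) (sq_nonneg _)
    _ = _ := by
        rw [h5, ← mul_assoc, Finset.mul_sum]
        refine Finset.sum_congr rfl fun a ha => ?_
        have e2 : D.qd a w ^ (-(N : ℝ)) = (D.qd a w)⁻¹ ^ N := by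
          rw [Real.rpow_neg (hq a ha).le, Real.rpow_natCast, inv_pow]
        rw [e2, hk]
        ring

/-- `‖∑ c_a δ_a^{N-(n+1)/2} t_a‖² ≤ C K² ∑ |c_a|²`. Schur test with `k_a(w) = δ_a^{N-(n+1)/2} qd(a,w)^{-N}`
and weights `δ_a^{n/2}`: `∑_a k_a(w) δ_a^{n/2} ≤ C δ(w)^{-1/2}` (`Lattice.sum_est` with exponents
`N - 1/2`, `N`, and `qd_symm`), `∫ k_a δ^{-1/2} ≤ C δ_a^{n/2}` (`integral_est` with exponents
`n + 1/2`, `N`). -/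
theorem gram_bound (D : Dom n) {s₀ s : ℝ} (h : D.Good s₀) (hs : 0 < s) (hs' : s ≤ s₀) {N : ℕ}
    (hN : n + 1 ≤ N) : ∃ C : ℝ, 0 < C ∧ ∀ A, D.Lattice s A → ∀ F : Finset (Cn n), ↑F ⊆ A →
      ∀ (t : Cn n → Cn n → ℂ) (K : ℝ), 0 ≤ K →
        (∀ a ∈ F, ∀ w ∈ D.Ω, ‖t a w‖ ≤ K * (D.qd a w)⁻¹ ^ N) → ∀ c : Cn n → ℂ,
          ∫⁻ w in D.Ω, ENNReal.ofReal
              (‖∑ a ∈ F, c a * ((D.δ a ^ ((N : ℝ) - (n + 1) / 2) : ℝ) : ℂ) * t a w‖ ^ 2)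
            ≤ ENNReal.ofReal (C * K ^ 2 * ∑ a ∈ F, ‖c a‖ ^ 2) := by
  have hNr : (n : ℝ) + 1 ≤ N := by exact_mod_cast hN
  obtain ⟨C₁, hC₁, hsum⟩ := Lattice.sum_est D h hs hs' (a := (N : ℝ) - 1 / 2) (b := (N : ℝ))
    (by linarith) (by linarith)
  obtain ⟨C₂, hC₂, hint⟩ := D.integral_est (a := (n : ℝ) + 1 / 2) (b := (N : ℝ))
    (by linarith) (by linarith)
  have hL : 0 < 1 + D.L := by linarith [D.L_ge]
  refine ⟨(1 + D.L) ^ N * C₁ * C₂, by positivity, ?_⟩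
  intro A hA F hF t K hK ht c
  have hFΩ : ↑F ⊆ D.Ω := hF.trans hA.subset
  have hδ : ∀ a ∈ F, 0 < D.δ a := fun a ha => D.δ_pos (hFΩ ha)
  set cf : Cn n → ℝ := fun a => K ^ 2 * ((1 + D.L) ^ N * C₁) * ‖c a‖ ^ 2 *
    D.δ a ^ ((N : ℝ) - (n + 1) / 2) * D.δ a ^ (-((n : ℝ) / 2)) with hcf
  have hcf0 : ∀ a ∈ F, 0 ≤ cf a := by
    intro a ha
    have := hδ a ha
    rw [hcf]
    positivity
  have hmeas : ∀ a : Cn n, Measurable fun w =>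
      ENNReal.ofReal (D.δ w ^ ((n : ℝ) + 1 / 2 - n - 1) * D.qd a w ^ (-(N : ℝ))) := by
    intro a
    refine ENNReal.measurable_ofReal.comp ?_
    exact ((D.continuous_δ.measurable).pow_const _).mul
      (((D.continuous_qd a).measurable).pow_const _)
  calc ∫⁻ w in D.Ω, ENNReal.ofReal
          (‖∑ a ∈ F, c a * ((D.δ a ^ ((N : ℝ) - (n + 1) / 2) : ℝ) : ℂ) * t a w‖ ^ 2)
      ≤ ∫⁻ w in D.Ω, ∑ a ∈ F, ENNReal.ofReal (cf a) *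
          ENNReal.ofReal (D.δ w ^ ((n : ℝ) + 1 / 2 - n - 1) * D.qd a w ^ (-(N : ℝ))) := by
        refine setLIntegral_mono' D.isOpen_Ω.measurableSet fun w hw => ?_
        have h1 := F7a_pointwise D hFΩ hw (hsum A hA w hw F hF) hK (fun a ha => ht a ha w hw) c
        refine (ENNReal.ofReal_le_ofReal h1).trans ?_
        have hnn : ∀ a ∈ F, 0 ≤ cf a * (D.δ w ^ ((n : ℝ) + 1 / 2 - n - 1) *
            D.qd a w ^ (-(N : ℝ))) := fun a ha => mul_nonneg (hcf0 a ha)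
              (mul_nonneg (Real.rpow_nonneg (D.δ_pos hw).le _)
                (Real.rpow_nonneg (D.qd_pos (hFΩ ha) hw).le _))
        rw [ENNReal.ofReal_sum_of_nonneg hnn]
        refine Finset.sum_le_sum fun a ha => ?_
        rw [ENNReal.ofReal_mul (hcf0 a ha)]
    _ = ∑ a ∈ F, ENNReal.ofReal (cf a) * ∫⁻ w in D.Ω,
          ENNReal.ofReal (D.δ w ^ ((n : ℝ) + 1 / 2 - n - 1) * D.qd a w ^ (-(N : ℝ))) := by
        rw [lintegral_finsetSum _ fun a _ => (hmeas a).const_mul _]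
        refine Finset.sum_congr rfl fun a _ => ?_
        rw [lintegral_const_mul _ (hmeas a)]
    _ ≤ ∑ a ∈ F, ENNReal.ofReal (cf a) *
          ENNReal.ofReal (C₂ * D.δ a ^ ((n : ℝ) + 1 / 2 - N)) :=
        Finset.sum_le_sum fun a ha => by gcongr; exact hint a (hFΩ ha)
    _ = ∑ a ∈ F, ENNReal.ofReal ((1 + D.L) ^ N * C₁ * C₂ * K ^ 2 * ‖c a‖ ^ 2) := by
        refine Finset.sum_congr rfl fun a ha => ?_
        rw [← ENNReal.ofReal_mul (hcf0 a ha)]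
        congr 1
        have e1 : D.δ a ^ ((N : ℝ) - (n + 1) / 2) * D.δ a ^ (-((n : ℝ) / 2)) *
            D.δ a ^ ((n : ℝ) + 1 / 2 - N) = 1 := by
          rw [← Real.rpow_add (hδ a ha), ← Real.rpow_add (hδ a ha)]
          have : (N : ℝ) - (n + 1) / 2 + -((n : ℝ) / 2) + ((n : ℝ) + 1 / 2 - N) = 0 := by ring
          rw [this, Real.rpow_zero]
        calc cf a * (C₂ * D.δ a ^ ((n : ℝ) + 1 / 2 - N))
            = (1 + D.L) ^ N * C₁ * C₂ * K ^ 2 * ‖c a‖ ^ 2 *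
              (D.δ a ^ ((N : ℝ) - (n + 1) / 2) * D.δ a ^ (-((n : ℝ) / 2)) *
                D.δ a ^ ((n : ℝ) + 1 / 2 - N)) := by
              rw [hcf]
              ring
          _ = _ := by rw [e1, mul_one]
    _ = ENNReal.ofReal ((1 + D.L) ^ N * C₁ * C₂ * K ^ 2 * ∑ a ∈ F, ‖c a‖ ^ 2) := by
        rw [Finset.mul_sum, ENNReal.ofReal_sum_of_nonneg]
        intro a _
        positivity

end Dom

end HankelSPC
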