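import Pool.Agent.Lib.MP_e1cf54_an.C3
import Pool.Agent.Lib.MP_e1cf54_an.C6c

/-! Row F7b: off-diagonal bound -/

open MeasureTheory Set Filter
open scoped ENNReal NNReal Topology ContDiff

namespace HankelSPC

variable {n : ℕ}

theorem F7b_qd {x y q Λ : ℝ} (hx : 0 < x) (hy : 0 < y) (hq : 0 < q) (hΛ : 0 < Λ) (h : Λ * x * y ≤ q ^ 2) (N : ℕ) :
    q⁻¹ ^ N ≤ Λ ^ (-(1 / 4) : ℝ) * (x ^ (-(1 / 4) : ℝ) * y ^ (-(1 / 4) : ℝ)) * q ^ (-((N : ℝ) - 1 / 2)) := by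
  have h1 : q⁻¹ ^ N = q ^ (-(1 / 2) : ℝ) * q ^ (-((N : ℝ) - 1 / 2)) := by
    rw [← Real.rpow_add hq, inv_pow, ← Real.rpow_natCast, ← Real.rpow_neg hq.le]
    congr 1
    ring
  have h2 : q ^ (-(1 / 2) : ℝ) = (q ^ 2) ^ (-(1 / 4) : ℝ) := by
    rw [← Real.rpow_natCast q 2, ← Real.rpow_mul hq.le]
    congr 1
    push_cast
    ring
  have h3 : (q ^ 2) ^ (-(1 / 4) : ℝ) ≤ (Λ * x * y) ^ (-(1 / 4) : ℝ) :=
    Real.rpow_le_rpow_of_nonpos (by positivity) h (by norm_num)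
  have h4 : (Λ * x * y) ^ (-(1 / 4) : ℝ) = Λ ^ (-(1 / 4) : ℝ) * (x ^ (-(1 / 4) : ℝ) * y ^ (-(1 / 4) : ℝ)) := by
    rw [Real.mul_rpow (by positivity) hy.le, Real.mul_rpow hΛ.le hx.le, mul_assoc]
  rw [h1, h2]
  refine mul_le_mul_of_nonneg_right (h3.trans h4.le) (Real.rpow_nonneg hq.le _)

namespace Dom

/-- The off-diagonal part. With `qd² ≥ Λ δ_j δ_k`: `qd^{-N} ≤ Λ^{-1/4} (δ_jδ_k)^{-1/4} qd^{-(N-1/2)}`;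
`Lattice.sum_est` with exponents `(N - 3/4, N - 1/2)` and `(n + 1/4, N - 1/2)`. -/
theorem offdiag_bound (D : Dom n) {s₀ s : ℝ} (h : D.Good s₀) (hs : 0 < s) (hs' : s ≤ s₀) {N : ℕ}
    (hN : n + 1 ≤ N) {ε : ℝ} (hε : 0 < ε) : ∃ Λ : ℝ, 1 ≤ Λ ∧ ∀ A, D.Lattice s A →
      ∀ F : Finset (Cn n), ↑F ⊆ A →
        (∀ a ∈ F, ∀ b ∈ F, a ≠ b → Λ * D.δ a * D.δ b ≤ D.qd a b ^ 2) →
        (∀ k ∈ F, ∑ j ∈ F.erase k, D.δ j ^ ((N : ℝ) - (n + 1) / 2) * D.δ k ^ (((n : ℝ) + 1) / 2)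
            * (D.qd j k)⁻¹ ^ N * D.δ j ^ ((n : ℝ) / 2) ≤ ε * D.δ k ^ ((n : ℝ) / 2)) ∧
        (∀ j ∈ F, ∑ k ∈ F.erase j, D.δ k ^ ((n : ℝ) / 2) * (D.δ j ^ ((N : ℝ) - (n + 1) / 2)
            * D.δ k ^ (((n : ℝ) + 1) / 2) * (D.qd j k)⁻¹ ^ N) ≤ ε * D.δ j ^ ((n : ℝ) / 2)) := by
  classical
  have hNR : (n : ℝ) + 1 ≤ N := by exact_mod_cast hN
  obtain ⟨C₁, hC₁, h₁⟩ := Lattice.sum_est D h hs hs' (a := (N : ℝ) - 3 / 4) (b := (N : ℝ) - 1 / 2)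
    (by linarith) (by linarith)
  obtain ⟨C₂, hC₂, h₂⟩ := Lattice.sum_est D h hs hs' (a := (n : ℝ) + 1 / 4) (b := (N : ℝ) - 1 / 2)
    (by linarith) (by linarith)
  have hL : 0 < 1 + D.L := by linarith [D.L_ge]
  set M : ℝ := max (C₁ * (1 + D.L) ^ ((N : ℝ) - 1 / 2)) C₂ with hM
  have hMpos : 0 < M := lt_max_of_lt_right hC₂
  set Λ : ℝ := max 1 ((M / ε) ^ 4) with hΛ
  have hΛ1 : 1 ≤ Λ := le_max_left _ _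
  have hΛpos : 0 < Λ := by linarith
  have hΛε : Λ ^ (-(1 / 4) : ℝ) * M ≤ ε := by
    have h3 : M / ε ≤ Λ ^ ((1 / 4) : ℝ) := by
      have h4 : ((M / ε) ^ 4) ^ ((1 / 4) : ℝ) ≤ Λ ^ ((1 / 4) : ℝ) :=
        Real.rpow_le_rpow (by positivity) (le_max_right _ _) (by norm_num)
      have h5 : ((M / ε) ^ 4) ^ ((1 / 4) : ℝ) = M / ε := by
        rw [← Real.rpow_natCast, ← Real.rpow_mul (by positivity)]
        norm_num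
      linarith
    rw [div_le_iff₀ hε] at h3
    rw [Real.rpow_neg hΛpos.le]
    rw [inv_mul_le_iff₀ (Real.rpow_pos_of_pos hΛpos _)]
    exact h3
  have hmulΛ : ∀ c : ℝ, c ≤ M → 0 ≤ Λ ^ (-(1 / 4) : ℝ) → Λ ^ (-(1 / 4) : ℝ) * c ≤ ε := fun c hc h0 =>
    (mul_le_mul_of_nonneg_left hc h0).trans hΛε
  have hΛ0 : 0 ≤ Λ ^ (-(1 / 4) : ℝ) := Real.rpow_nonneg hΛpos.le _
  refine ⟨Λ, hΛ1, fun A hA F hFA hsep => ⟨fun k hk => ?_, fun j hj => ?_⟩⟩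
  · -- first sum
    have hkΩ : k ∈ D.Ω := hA.subset (hFA hk)
    have hδk := D.δ_pos hkΩ
    have hterm : ∀ j ∈ F.erase k, D.δ j ^ ((N : ℝ) - (n + 1) / 2) * D.δ k ^ (((n : ℝ) + 1) / 2)
            * (D.qd j k)⁻¹ ^ N * D.δ j ^ ((n : ℝ) / 2)
        ≤ Λ ^ (-(1 / 4) : ℝ) * (1 + D.L) ^ ((N : ℝ) - 1 / 2) * D.δ k ^ (((n : ℝ) + 1) / 2 - 1 / 4)
          * (D.δ j ^ ((N : ℝ) - 3 / 4) * D.qd k j ^ (-((N : ℝ) - 1 / 2))) := by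
      intro j hj
      have hjF := Finset.mem_of_mem_erase hj
      have hjΩ : j ∈ D.Ω := hA.subset (hFA hjF)
      have hδj := D.δ_pos hjΩ
      have hq := D.qd_pos hjΩ hkΩ
      have hq' := D.qd_pos hkΩ hjΩ
      have h3 := F7b_qd hδj hδk hq hΛpos (hsep j hjF k hk (Finset.ne_of_mem_erase hj)) N
      have h4 : D.qd j k ^ (-((N : ℝ) - 1 / 2)) ≤ (1 + D.L) ^ ((N : ℝ) - 1 / 2) * D.qd k j ^ (-((N : ℝ) - 1 / 2)) := by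
        have h5 := D.qd_symm hjΩ hkΩ
        have h6 : (1 + D.L)⁻¹ * D.qd k j ≤ D.qd j k := by
          rw [inv_mul_le_iff₀ hL]
          exact h5
        have h7 : D.qd j k ^ (-((N : ℝ) - 1 / 2)) ≤ ((1 + D.L)⁻¹ * D.qd k j) ^ (-((N : ℝ) - 1 / 2)) :=
          Real.rpow_le_rpow_of_nonpos (by positivity) h6 (by linarith [(Nat.cast_nonneg n : (0 : ℝ) ≤ n)])
        refine h7.trans (le_of_eq ?_)
        rw [Real.mul_rpow (by positivity) hq'.le, Real.inv_rpow hL.le, ← Real.rpow_neg hL.le, neg_neg]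
      have e1 : D.δ j ^ ((N : ℝ) - (n + 1) / 2) * D.δ j ^ ((n : ℝ) / 2) * D.δ j ^ (-(1 / 4) : ℝ)
          = D.δ j ^ ((N : ℝ) - 3 / 4) := by
        rw [← Real.rpow_add hδj, ← Real.rpow_add hδj]
        congr 1
        ring
      have e2 : D.δ k ^ (((n : ℝ) + 1) / 2) * D.δ k ^ (-(1 / 4) : ℝ) = D.δ k ^ (((n : ℝ) + 1) / 2 - 1 / 4) := by
        rw [← Real.rpow_add hδk]
        congr 1
      have hp1 : 0 ≤ D.δ j ^ ((N : ℝ) - (n + 1) / 2) := Real.rpow_nonneg hδj.le _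
      have hp2 : 0 ≤ D.δ j ^ ((n : ℝ) / 2) := Real.rpow_nonneg hδj.le _
      have hp3 : 0 ≤ D.δ k ^ (((n : ℝ) + 1) / 2) := Real.rpow_nonneg hδk.le _
      have hp4 : 0 ≤ D.δ j ^ (-(1 / 4) : ℝ) := Real.rpow_nonneg hδj.le _
      have hp5 : 0 ≤ D.δ k ^ (-(1 / 4) : ℝ) := Real.rpow_nonneg hδk.le _
      calc D.δ j ^ ((N : ℝ) - (n + 1) / 2) * D.δ k ^ (((n : ℝ) + 1) / 2)
            * (D.qd j k)⁻¹ ^ N * D.δ j ^ ((n : ℝ) / 2)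
          = (D.δ j ^ ((N : ℝ) - (n + 1) / 2) * D.δ j ^ ((n : ℝ) / 2) * D.δ k ^ (((n : ℝ) + 1) / 2))
            * (D.qd j k)⁻¹ ^ N := by ring
        _ ≤ (D.δ j ^ ((N : ℝ) - (n + 1) / 2) * D.δ j ^ ((n : ℝ) / 2) * D.δ k ^ (((n : ℝ) + 1) / 2))
            * (Λ ^ (-(1 / 4) : ℝ) * (D.δ j ^ (-(1 / 4) : ℝ) * D.δ k ^ (-(1 / 4) : ℝ))
              * ((1 + D.L) ^ ((N : ℝ) - 1 / 2) * D.qd k j ^ (-((N : ℝ) - 1 / 2)))) := by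
            refine mul_le_mul_of_nonneg_left (h3.trans ?_) (by positivity)
            exact mul_le_mul_of_nonneg_left h4 (by positivity)
        _ = Λ ^ (-(1 / 4) : ℝ) * (1 + D.L) ^ ((N : ℝ) - 1 / 2) * (D.δ k ^ (((n : ℝ) + 1) / 2) * D.δ k ^ (-(1 / 4) : ℝ))
            * ((D.δ j ^ ((N : ℝ) - (n + 1) / 2) * D.δ j ^ ((n : ℝ) / 2) * D.δ j ^ (-(1 / 4) : ℝ))
              * D.qd k j ^ (-((N : ℝ) - 1 / 2))) := by ring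
        _ = _ := by rw [e1, e2]
    have hsum := h₁ A hA k hkΩ (F.erase k) ((Finset.coe_subset.mpr (Finset.erase_subset k F)).trans hFA)
    have hp6 : 0 ≤ D.δ k ^ (((n : ℝ) + 1) / 2 - 1 / 4) := Real.rpow_nonneg hδk.le _
    have hp7 : 0 ≤ (1 + D.L) ^ ((N : ℝ) - 1 / 2) := Real.rpow_nonneg hL.le _
    have e3 : D.δ k ^ (((n : ℝ) + 1) / 2 - 1 / 4) * D.δ k ^ ((N : ℝ) - 3 / 4 - ((N : ℝ) - 1 / 2)) = D.δ k ^ ((n : ℝ) / 2) := by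
      rw [← Real.rpow_add hδk]
      congr 1
      ring
    calc _ ≤ ∑ j ∈ F.erase k, Λ ^ (-(1 / 4) : ℝ) * (1 + D.L) ^ ((N : ℝ) - 1 / 2) * D.δ k ^ (((n : ℝ) + 1) / 2 - 1 / 4)
          * (D.δ j ^ ((N : ℝ) - 3 / 4) * D.qd k j ^ (-((N : ℝ) - 1 / 2))) := Finset.sum_le_sum hterm
      _ = Λ ^ (-(1 / 4) : ℝ) * (1 + D.L) ^ ((N : ℝ) - 1 / 2) * D.δ k ^ (((n : ℝ) + 1) / 2 - 1 / 4)
          * ∑ j ∈ F.erase k, D.δ j ^ ((N : ℝ) - 3 / 4) * D.qd k j ^ (-((N : ℝ) - 1 / 2)) := by rw [Finset.mul_sum]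
      _ ≤ Λ ^ (-(1 / 4) : ℝ) * (1 + D.L) ^ ((N : ℝ) - 1 / 2) * D.δ k ^ (((n : ℝ) + 1) / 2 - 1 / 4)
          * (C₁ * D.δ k ^ ((N : ℝ) - 3 / 4 - ((N : ℝ) - 1 / 2))) :=
          mul_le_mul_of_nonneg_left hsum (by positivity)
      _ = (Λ ^ (-(1 / 4) : ℝ) * (C₁ * (1 + D.L) ^ ((N : ℝ) - 1 / 2)))
          * (D.δ k ^ (((n : ℝ) + 1) / 2 - 1 / 4) * D.δ k ^ ((N : ℝ) - 3 / 4 - ((N : ℝ) - 1 / 2))) := by ring
      _ = (Λ ^ (-(1 / 4) : ℝ) * (C₁ * (1 + D.L) ^ ((N : ℝ) - 1 / 2))) * D.δ k ^ ((n : ℝ) / 2) := by rw [e3]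
      _ ≤ ε * D.δ k ^ ((n : ℝ) / 2) :=
          mul_le_mul_of_nonneg_right (hmulΛ _ (le_max_left _ _) hΛ0) (Real.rpow_nonneg hδk.le _)
  · -- second sum
    have hjΩ : j ∈ D.Ω := hA.subset (hFA hj)
    have hδj := D.δ_pos hjΩ
    have hterm : ∀ k ∈ F.erase j, D.δ k ^ ((n : ℝ) / 2) * (D.δ j ^ ((N : ℝ) - (n + 1) / 2)
            * D.δ k ^ (((n : ℝ) + 1) / 2) * (D.qd j k)⁻¹ ^ N)
        ≤ Λ ^ (-(1 / 4) : ℝ) * D.δ j ^ ((N : ℝ) - (n + 1) / 2 - 1 / 4)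
          * (D.δ k ^ ((n : ℝ) + 1 / 4) * D.qd j k ^ (-((N : ℝ) - 1 / 2))) := by
      intro k hk
      have hkF := Finset.mem_of_mem_erase hk
      have hkΩ : k ∈ D.Ω := hA.subset (hFA hkF)
      have hδk := D.δ_pos hkΩ
      have hq := D.qd_pos hjΩ hkΩ
      have h3 := F7b_qd hδj hδk hq hΛpos (hsep j hj k hkF (Ne.symm (Finset.ne_of_mem_erase hk))) N
      have e1 : D.δ k ^ ((n : ℝ) / 2) * D.δ k ^ (((n : ℝ) + 1) / 2) * D.δ k ^ (-(1 / 4) : ℝ)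
          = D.δ k ^ ((n : ℝ) + 1 / 4) := by
        rw [← Real.rpow_add hδk, ← Real.rpow_add hδk]
        congr 1
        ring
      have e2 : D.δ j ^ ((N : ℝ) - (n + 1) / 2) * D.δ j ^ (-(1 / 4) : ℝ) = D.δ j ^ ((N : ℝ) - (n + 1) / 2 - 1 / 4) := by
        rw [← Real.rpow_add hδj]
        congr 1
      have hp1 : 0 ≤ D.δ j ^ ((N : ℝ) - (n + 1) / 2) := Real.rpow_nonneg hδj.le _
      have hp2 : 0 ≤ D.δ k ^ ((n : ℝ) / 2) := Real.rpow_nonneg hδk.le _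
      have hp3 : 0 ≤ D.δ k ^ (((n : ℝ) + 1) / 2) := Real.rpow_nonneg hδk.le _
      calc D.δ k ^ ((n : ℝ) / 2) * (D.δ j ^ ((N : ℝ) - (n + 1) / 2)
            * D.δ k ^ (((n : ℝ) + 1) / 2) * (D.qd j k)⁻¹ ^ N)
          = (D.δ k ^ ((n : ℝ) / 2) * D.δ j ^ ((N : ℝ) - (n + 1) / 2)
            * D.δ k ^ (((n : ℝ) + 1) / 2)) * (D.qd j k)⁻¹ ^ N := by ring
        _ ≤ (D.δ k ^ ((n : ℝ) / 2) * D.δ j ^ ((N : ℝ) - (n + 1) / 2)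
            * D.δ k ^ (((n : ℝ) + 1) / 2)) * (Λ ^ (-(1 / 4) : ℝ) * (D.δ j ^ (-(1 / 4) : ℝ) * D.δ k ^ (-(1 / 4) : ℝ))
              * D.qd j k ^ (-((N : ℝ) - 1 / 2))) :=
            mul_le_mul_of_nonneg_left h3 (by positivity)
        _ = Λ ^ (-(1 / 4) : ℝ) * (D.δ j ^ ((N : ℝ) - (n + 1) / 2) * D.δ j ^ (-(1 / 4) : ℝ))
            * ((D.δ k ^ ((n : ℝ) / 2) * D.δ k ^ (((n : ℝ) + 1) / 2) * D.δ k ^ (-(1 / 4) : ℝ))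
              * D.qd j k ^ (-((N : ℝ) - 1 / 2))) := by ring
        _ = _ := by rw [e1, e2]
    have hsum := h₂ A hA j hjΩ (F.erase j) ((Finset.coe_subset.mpr (Finset.erase_subset j F)).trans hFA)
    have hp6 : 0 ≤ D.δ j ^ ((N : ℝ) - (n + 1) / 2 - 1 / 4) := Real.rpow_nonneg hδj.le _
    have e3 : D.δ j ^ ((N : ℝ) - (n + 1) / 2 - 1 / 4) * D.δ j ^ ((n : ℝ) + 1 / 4 - ((N : ℝ) - 1 / 2)) = D.δ j ^ ((n : ℝ) / 2) := by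
      rw [← Real.rpow_add hδj]
      congr 1
      ring
    calc _ ≤ ∑ k ∈ F.erase j, Λ ^ (-(1 / 4) : ℝ) * D.δ j ^ ((N : ℝ) - (n + 1) / 2 - 1 / 4)
          * (D.δ k ^ ((n : ℝ) + 1 / 4) * D.qd j k ^ (-((N : ℝ) - 1 / 2))) := Finset.sum_le_sum hterm
      _ = Λ ^ (-(1 / 4) : ℝ) * D.δ j ^ ((N : ℝ) - (n + 1) / 2 - 1 / 4)
          * ∑ k ∈ F.erase j, D.δ k ^ ((n : ℝ) + 1 / 4) * D.qd j k ^ (-((N : ℝ) - 1 / 2)) := by rw [Finset.mul_sum]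
      _ ≤ Λ ^ (-(1 / 4) : ℝ) * D.δ j ^ ((N : ℝ) - (n + 1) / 2 - 1 / 4)
          * (C₂ * D.δ j ^ ((n : ℝ) + 1 / 4 - ((N : ℝ) - 1 / 2))) :=
          mul_le_mul_of_nonneg_left hsum (by positivity)
      _ = (Λ ^ (-(1 / 4) : ℝ) * C₂)
          * (D.δ j ^ ((N : ℝ) - (n + 1) / 2 - 1 / 4) * D.δ j ^ ((n : ℝ) + 1 / 4 - ((N : ℝ) - 1 / 2))) := by ring
      _ = (Λ ^ (-(1 / 4) : ℝ) * C₂) * D.δ j ^ ((n : ℝ) / 2) := by rw [e3]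
      _ ≤ ε * D.δ j ^ ((n : ℝ) / 2) :=
          mul_le_mul_of_nonneg_right (hmulΛ _ (le_max_right _ _) hΛ0) (Real.rpow_nonneg hδj.le _)

end Dom

end HankelSPC
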