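import Pool.Agent.Lib.MP_e1cf54_an.F8a

/-! Row F8b: mu and inner formula -/

open MeasureTheory Set Filter
open scoped ENNReal NNReal Topology ContDiff

namespace HankelSPC

variable {n : ℕ}

/-- With `F = f t`, `|t| ≥ m` on `S`: `μ ≥ m (vol S)^{1/2} distHol f S`, since
`∫_S |f t - g₀|² = μ²` and `|f t - g₀| = |t||f - g₀/t|`. -/
theorem mu_ge {S : Set (Cn n)} (hS : IsOpen S) (h0 : volume S ≠ 0) (h1 : volume S ≠ ⊤)
    {f t g₀ h : Cn n → ℂ} {μ m : ℝ} (hf : MemLp f 2 (volume.restrict S)) (hm : 0 < m)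
    (ht : DifferentiableOn ℂ t S) (htm : ∀ w ∈ S, m ≤ ‖t w‖) (hμ : 0 ≤ μ) (hh : MemLp h 2 volume)
    (hg₀ : DifferentiableOn ℂ g₀ S) (hg₀' : MemLp g₀ 2 (volume.restrict S))
    (hh1 : (∫ w, ‖h w‖ ^ 2 = 1) ∨ (μ = 0 ∧ h = 0))
    (heq : (fun w => f w * t w - g₀ w) =ᵐ[volume.restrict S] fun w => μ * h w) :
    m * Real.sqrt (volume S).toReal * distHol f S ≤ μ := by
  have htne : ∀ w ∈ S, t w ≠ 0 := by
    intro w hw h2
    have := htm w hw
    rw [h2, norm_zero] at this
    linarith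
  have hgd : DifferentiableOn ℂ (fun w => g₀ w / t w) S := by
    simp only [div_eq_mul_inv]
    exact hg₀.fun_mul (ht.fun_inv htne)
  have hgm : AEStronglyMeasurable (fun w => g₀ w / t w) (volume.restrict S) :=
    hgd.continuousOn.aestronglyMeasurable hS.measurableSet
  have hgL : MemLp (fun w => g₀ w / t w) 2 (volume.restrict S) := by
    refine MemLp.of_le_mul (c := m⁻¹) hg₀' hgm ?_
    refine (ae_restrict_iff' hS.measurableSet).2 (Eventually.of_forall fun w hw => ?_)
    rw [norm_div, div_eq_inv_mul]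
    have h2 := htm w hw
    exact mul_le_mul_of_nonneg_right (inv_anti₀ hm h2) (norm_nonneg _)
  have hhS : MemLp h 2 (volume.restrict S) := hh.mono_measure Measure.restrict_le_self
  have hhi : Integrable (fun w => ‖h w‖ ^ 2) volume := hh.integrable_norm_pow (by norm_num)
  have hhiS : Integrable (fun w => ‖h w‖ ^ 2) (volume.restrict S) := hhi.restrict
  have hle : distHol f S ≤ Real.sqrt (⨍ w in S, ‖f w - g₀ w / t w‖ ^ 2) := by
    refine csInf_le ⟨0, ?_⟩ ⟨_, hgd, hgL, rfl⟩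
    rintro x ⟨g, -, -, rfl⟩
    exact Real.sqrt_nonneg _
  have hV : 0 < (volume S).toReal := ENNReal.toReal_pos h0 h1
  have hint : m ^ 2 * ∫ w in S, ‖f w - g₀ w / t w‖ ^ 2 ≤ μ ^ 2 := by
    calc m ^ 2 * ∫ w in S, ‖f w - g₀ w / t w‖ ^ 2
        = ∫ w in S, m ^ 2 * ‖f w - g₀ w / t w‖ ^ 2 := (integral_const_mul _ _).symm
      _ ≤ ∫ w in S, μ ^ 2 * ‖h w‖ ^ 2 := by
          refine integral_mono_of_nonneg (Eventually.of_forall fun w => by positivity)
            (hhiS.const_mul _) ?_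
          have h3 := (ae_restrict_iff' hS.measurableSet).1 heq
          refine (ae_restrict_iff' hS.measurableSet).2 ?_
          filter_upwards [h3] with w hw hwS
          have h4 := hw hwS
          have h5 : f w * t w - g₀ w = t w * (f w - g₀ w / t w) := by
            have := htne w hwS
            field_simp
          have h6 : μ ^ 2 * ‖h w‖ ^ 2 = ‖t w‖ ^ 2 * ‖f w - g₀ w / t w‖ ^ 2 := by
            have h7 : ‖(μ : ℂ) * h w‖ = ‖t w * (f w - g₀ w / t w)‖ := by rw [← h4, h5]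
            rw [norm_mul, norm_mul, Complex.norm_real, Real.norm_of_nonneg hμ] at h7
            rw [← mul_pow, ← mul_pow, h7]
          show m ^ 2 * ‖f w - g₀ w / t w‖ ^ 2 ≤ μ ^ 2 * ‖h w‖ ^ 2
          rw [h6]
          exact mul_le_mul_of_nonneg_right (pow_le_pow_left₀ hm.le (htm w hwS) 2) (by positivity)
      _ = μ ^ 2 * ∫ w in S, ‖h w‖ ^ 2 := integral_const_mul _ _
      _ ≤ μ ^ 2 * ∫ w, ‖h w‖ ^ 2 :=
          mul_le_mul_of_nonneg_left
            (setIntegral_le_integral hhi (Eventually.of_forall fun w => by positivity))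
            (by positivity)
      _ ≤ μ ^ 2 := by
          rcases hh1 with h2 | ⟨h2, -⟩
          · rw [h2, mul_one]
          · rw [h2]; simp
  have hav : (⨍ w in S, ‖f w - g₀ w / t w‖ ^ 2)
      = (volume S).toReal⁻¹ * ∫ w in S, ‖f w - g₀ w / t w‖ ^ 2 := by
    rw [setAverage_eq, smul_eq_mul]; rfl
  have hI0 : 0 ≤ ∫ w in S, ‖f w - g₀ w / t w‖ ^ 2 :=
    integral_nonneg fun w => by positivity
  calc m * Real.sqrt (volume S).toReal * distHol f S
      ≤ m * Real.sqrt (volume S).toReal * Real.sqrt (⨍ w in S, ‖f w - g₀ w / t w‖ ^ 2) :=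
        mul_le_mul_of_nonneg_left hle (by positivity)
    _ = m * Real.sqrt (∫ w in S, ‖f w - g₀ w / t w‖ ^ 2) := by
        rw [mul_assoc, ← Real.sqrt_mul hV.le, hav, ← mul_assoc,
          mul_inv_cancel₀ hV.ne', one_mul]
    _ ≤ μ := by
        refine le_of_sq_le_sq ?_ hμ
        rw [mul_pow, Real.sq_sqrt hI0]
        exact hint

/-- `∫ F w conj h = μ ∫ |h|² w` for bounded holomorphic `w`. -/
theorem inner_formula {S : Set (Cn n)} (hS : IsOpen S) (h1 : volume S ≠ ⊤)
    {F g₀ h w : Cn n → ℂ} {μ M : ℝ} (hF : MemLp F 2 (volume.restrict S))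
    (hh : MemLp h 2 volume) (hg₀ : DifferentiableOn ℂ g₀ S)
    (hg₀' : MemLp g₀ 2 (volume.restrict S))
    (horth : ∀ g : Cn n → ℂ, DifferentiableOn ℂ g S → MemLp g 2 (volume.restrict S) →
        ∫ w in S, g w * (starRingEnd ℂ) (h w) = 0)
    (heq : (fun w => F w - g₀ w) =ᵐ[volume.restrict S] fun w => μ * h w)
    (hw : DifferentiableOn ℂ w S) (hwM : ∀ v ∈ S, ‖w v‖ ≤ M) :
    ∫ v in S, F v * w v * (starRingEnd ℂ) (h v)
      = μ * ∫ v in S, ((‖h v‖ ^ 2 : ℝ) : ℂ) * w v := by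
  have hhS : MemLp h 2 (volume.restrict S) := hh.mono_measure Measure.restrict_le_self
  have hwm : AEStronglyMeasurable w (volume.restrict S) :=
    hw.continuousOn.aestronglyMeasurable hS.measurableSet
  have hgw : DifferentiableOn ℂ (fun v => g₀ v * w v) S := hg₀.fun_mul hw
  have hwb : ∀ᵐ v ∂(volume.restrict S), ‖w v‖ ≤ M :=
    (ae_restrict_iff' hS.measurableSet).2 (Eventually.of_forall hwM)
  have hgwL : MemLp (fun v => g₀ v * w v) 2 (volume.restrict S) := by
    refine MemLp.of_le_mul (c := M) hg₀' (hg₀'.aestronglyMeasurable.mul hwm) ?_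
    filter_upwards [hwb] with v hv
    rw [norm_mul, mul_comm]
    exact mul_le_mul_of_nonneg_right hv (norm_nonneg _)
  have hconj : MemLp (fun v => (starRingEnd ℂ) (h v)) 2 (volume.restrict S) := hhS.star
  have hint1 : Integrable (fun v => g₀ v * w v * (starRingEnd ℂ) (h v)) (volume.restrict S) :=
    hgwL.integrable_mul hconj
  have hh2 : Integrable (fun v => ((‖h v‖ ^ 2 : ℝ) : ℂ)) (volume.restrict S) :=
    (hhS.integrable_norm_pow (by norm_num)).ofReal
  have hint2 : Integrable (fun v => ((‖h v‖ ^ 2 : ℝ) : ℂ) * w v) (volume.restrict S) :=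
    hh2.mul_bdd hwm hwb
  have hae : (fun v => F v * w v * (starRingEnd ℂ) (h v)) =ᵐ[volume.restrict S]
      fun v => g₀ v * w v * (starRingEnd ℂ) (h v) + μ * (((‖h v‖ ^ 2 : ℝ) : ℂ) * w v) := by
    filter_upwards [heq] with v hv
    have h2 : F v = g₀ v + μ * h v := by
      have hv' : F v - g₀ v = μ * h v := hv
      rw [← hv']; ring
    have h3 : h v * (starRingEnd ℂ) (h v) = ((‖h v‖ ^ 2 : ℝ) : ℂ) := by
      rw [Complex.mul_conj, Complex.normSq_eq_norm_sq]
    rw [h2, ← h3]; ring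
  rw [integral_congr_ae hae, integral_add hint1 (hint2.const_mul _),
    horth _ hgw hgwL, zero_add, integral_const_mul]

end HankelSPC
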