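import Pool.Agent.Lib.MP_e1cf54_an.C3
import Pool.Agent.Lib.MP_e1cf54_an.C5

/-! Row F9a: atom facts, ratio -/

open MeasureTheory Set Filter
open scoped ENNReal NNReal Topology ContDiff

namespace HankelSPC

variable {n : ℕ}

namespace Dom

theorem F9a_lower (D : Dom n) {s₀ K : ℝ} {N : ℕ} {a : Cn n} (ha : a ∈ D.Ω) {t : Cn n → ℂ}
    (ht : IsAtom D s₀ K N a t) {w : Cn n} (hw : w ∈ D.B a s₀) :
    K⁻¹ * D.δ a ^ (-((n : ℝ) + 1) / 2)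
        ≤ ‖((D.δ a ^ ((N : ℝ) - (n + 1) / 2) : ℝ) : ℂ) * t w‖ := by
  have hδ : 0 < D.δ a := D.δ_pos ha
  have hp : 0 < D.δ a ^ ((N : ℝ) - (n + 1) / 2) := Real.rpow_pos_of_pos hδ _
  rw [norm_mul, Complex.norm_real, Real.norm_eq_abs, abs_of_pos hp]
  have h1 := ht.lower w hw
  have h2 : K⁻¹ * D.δ a ^ (-((n : ℝ) + 1) / 2) =
      D.δ a ^ ((N : ℝ) - (n + 1) / 2) * (K⁻¹ * (D.δ a)⁻¹ ^ N) := by
    have h3 : D.δ a ^ (-((n : ℝ) + 1) / 2) = D.δ a ^ ((N : ℝ) - (n + 1) / 2) * (D.δ a)⁻¹ ^ N := by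
      have h4 : (D.δ a)⁻¹ ^ N = D.δ a ^ (-(N : ℝ)) := by
        rw [Real.rpow_neg hδ.le, Real.rpow_natCast, inv_pow]
      rw [h4, ← Real.rpow_add hδ]
      congr 1
      ring
    rw [h3]
    ring
  rw [h2]
  exact mul_le_mul_of_nonneg_left h1 hp.le

/-- Atoms are bounded (`qd a w ≥ δ a`) and square integrable, and the normalised atom is bounded
below on `B(a,s₀)`. -/
theorem atom_facts (D : Dom n) {s₀ K : ℝ} (h : D.Good s₀) (hK : 1 ≤ K) {N : ℕ} (hN : n + 1 ≤ N) :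
    ∀ a ∈ D.Ω, ∀ t, IsAtom D s₀ K N a t →
      (∃ M : ℝ, ∀ w ∈ D.Ω, ‖t w‖ ≤ M) ∧
      (∫⁻ w in D.Ω, ENNReal.ofReal (‖t w‖ ^ 2) ≠ ⊤) ∧
      ∀ w ∈ D.B a s₀, K⁻¹ * D.δ a ^ (-((n : ℝ) + 1) / 2)
        ≤ ‖((D.δ a ^ ((N : ℝ) - (n + 1) / 2) : ℝ) : ℂ) * t w‖ := by
  intro a ha t ht
  have hδ : 0 < D.δ a := D.δ_pos ha
  have hM : ∀ w ∈ D.Ω, ‖t w‖ ≤ K * (D.δ a)⁻¹ ^ N := by
    intro w hw
    refine (ht.upper w hw).trans ?_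
    have h1 : (D.qd a w)⁻¹ ≤ (D.δ a)⁻¹ := inv_anti₀ hδ (D.δ_le_qd ha hw).1
    have h2 : 0 ≤ (D.qd a w)⁻¹ := inv_nonneg.mpr (D.qd_pos ha hw).le
    have h3 : (D.qd a w)⁻¹ ^ N ≤ (D.δ a)⁻¹ ^ N := pow_le_pow_left₀ h2 h1 N
    exact mul_le_mul_of_nonneg_left h3 (by linarith)
  refine ⟨⟨_, hM⟩, ?_, fun w hw => F9a_lower D ha ht hw⟩
  have h4 : ∫⁻ w in D.Ω, ENNReal.ofReal (‖t w‖ ^ 2)
      ≤ ∫⁻ w in D.Ω, ENNReal.ofReal ((K * (D.δ a)⁻¹ ^ N) ^ 2) := by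
    refine setLIntegral_mono' D.isOpen_Ω.measurableSet ?_
    intro w hw
    exact ENNReal.ofReal_le_ofReal (pow_le_pow_left₀ (norm_nonneg _) (hM w hw) 2)
  refine ne_top_of_le_ne_top ?_ h4
  rw [setLIntegral_const]
  exact ENNReal.mul_ne_top ENNReal.ofReal_ne_top D.volume_Ω_lt_top.ne

/-- Quotients of normalised atoms: for `v ∈ B(k,s₀)`,
`|t̂_j(v)/t̂_k(v)| ≤ C δ_j^{N-(n+1)/2} δ_k^{(n+1)/2} qd(j,k)^{-N}` (`qd_stable_right`). -/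
theorem ratio_bound (D : Dom n) {s₀ K : ℝ} (h : D.Good s₀) (hK : 1 ≤ K) {N : ℕ} (hN : n + 1 ≤ N) :
    ∃ C : ℝ, 0 < C ∧ ∀ j ∈ D.Ω, ∀ k ∈ D.Ω, ∀ tj tk, IsAtom D s₀ K N j tj →
      IsAtom D s₀ K N k tk → ∀ v ∈ D.B k s₀,
        ‖(((D.δ j ^ ((N : ℝ) - (n + 1) / 2) : ℝ) : ℂ) * tj v)
            / (((D.δ k ^ ((N : ℝ) - (n + 1) / 2) : ℝ) : ℂ) * tk v)‖
          ≤ C * (D.δ j ^ ((N : ℝ) - (n + 1) / 2) * D.δ k ^ (((n : ℝ) + 1) / 2)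
            * (D.qd j k)⁻¹ ^ N) := by
  obtain ⟨C₁, hC₁, hst⟩ := D.qd_stable_right h
  have hK0 : 0 < K := by linarith
  refine ⟨K * K * C₁ ^ N, by positivity, ?_⟩
  intro j hj k hk tj tk htj htk v hv
  have hδj : 0 < D.δ j := D.δ_pos hj
  have hδk : 0 < D.δ k := D.δ_pos hk
  have hvΩ : v ∈ D.Ω := (h.sub k hk v hv).1
  have hlow := F9a_lower D hk htk hv
  have hlowpos : 0 < K⁻¹ * D.δ k ^ (-((n : ℝ) + 1) / 2) := by positivity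
  have hp : 0 < D.δ j ^ ((N : ℝ) - (n + 1) / 2) := Real.rpow_pos_of_pos hδj _
  have hup : ‖((D.δ j ^ ((N : ℝ) - (n + 1) / 2) : ℝ) : ℂ) * tj v‖ ≤
      D.δ j ^ ((N : ℝ) - (n + 1) / 2) * (K * (C₁ ^ N * (D.qd j k)⁻¹ ^ N)) := by
    rw [norm_mul, Complex.norm_real, Real.norm_eq_abs, abs_of_pos hp]
    refine mul_le_mul_of_nonneg_left ?_ hp.le
    refine (htj.upper v hvΩ).trans ?_
    refine mul_le_mul_of_nonneg_left ?_ hK0.le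
    rw [← mul_pow]
    have h1 : 0 < D.qd j v := D.qd_pos hj hvΩ
    have h2 : 0 < D.qd j k := D.qd_pos hj hk
    have h3 : D.qd j k ≤ C₁ * D.qd j v := (hst j hj k hk v hv).2
    have h4 : (D.qd j v)⁻¹ ≤ C₁ * (D.qd j k)⁻¹ := by
      rw [inv_le_iff_one_le_mul₀ h1, mul_assoc, mul_comm ((D.qd j k)⁻¹), ← mul_assoc,
        ← div_eq_mul_inv, one_le_div h2]
      exact h3
    exact pow_le_pow_left₀ (inv_nonneg.mpr h1.le) h4 N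
  rw [norm_div]
  calc ‖((D.δ j ^ ((N : ℝ) - (n + 1) / 2) : ℝ) : ℂ) * tj v‖
      / ‖((D.δ k ^ ((N : ℝ) - (n + 1) / 2) : ℝ) : ℂ) * tk v‖
      ≤ (D.δ j ^ ((N : ℝ) - (n + 1) / 2) * (K * (C₁ ^ N * (D.qd j k)⁻¹ ^ N)))
        / (K⁻¹ * D.δ k ^ (-((n : ℝ) + 1) / 2)) := by
        have h5 : 0 ≤ D.δ j ^ ((N : ℝ) - (n + 1) / 2) * (K * (C₁ ^ N * (D.qd j k)⁻¹ ^ N)) :=
          (norm_nonneg _).trans hup
        exact div_le_div₀ h5 hup hlowpos hlow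
    _ = K * K * C₁ ^ N * (D.δ j ^ ((N : ℝ) - (n + 1) / 2) * D.δ k ^ (((n : ℝ) + 1) / 2)
            * (D.qd j k)⁻¹ ^ N) := by
        have h6 : D.δ k ^ (-((n : ℝ) + 1) / 2) = (D.δ k ^ (((n : ℝ) + 1) / 2))⁻¹ := by
          rw [← Real.rpow_neg hδk.le]
          congr 1
          ring
        rw [h6]
        field_simp

end Dom

end HankelSPC
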