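import Pool.Agent.Lib.MP_e1cf54_an.A4
import Pool.Agent.Lib.MP_e1cf54_an.F7a
import Pool.Agent.Lib.MP_e1cf54_an.F7b
import Pool.Agent.Lib.MP_e1cf54_an.F8b
import Pool.Agent.Lib.MP_e1cf54_an.F9a
import Pool.Agent.Lib.MP_e1cf54_an.E1b
import Pool.Agent.Lib.MP_e1cf54_an.C2

/-! Row F9b: finite family -/

open MeasureTheory Set Filter
open scoped ENNReal NNReal Topology ContDiff

namespace HankelSPC

variable {n : ℕ}

theorem F9b_memLp {Ω : Set (Cn n)} (h0 : volume Ω ≠ 0) {f : Cn n → ℂ}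
    (hf : MemLp f 2 (volume.restrict Ω)) : MemLp f 2 (vol Ω) :=
  hf.smul_measure (ENNReal.inv_ne_top.mpr h0)

theorem F9b_inner {Ω : Set (Cn n)} {f g : Cn n → ℂ}
    (hf : MemLp f 2 (vol Ω)) (hg : MemLp g 2 (vol Ω)) :
    inner ℂ hf.toLp hg.toLp = (((volume Ω)⁻¹).toReal : ℂ) * ∫ z in Ω, g z * (starRingEnd ℂ) (f z) := by
  rw [L2.inner_def, ← integral_vol]
  refine integral_congr_ae ?_
  filter_upwards [hf.coeFn_toLp, hg.coeFn_toLp] with z h1 h2
  rw [h1, h2, RCLike.inner_apply]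

/-- the integral against a function supported in `S` -/
theorem F9b_supp {Ω S : Set (Cn n)} (hΩ : IsOpen Ω) (hS : S ⊆ Ω) {g h : Cn n → ℂ} (hh : ∀ w, w ∉ S → h w = 0) :
    ∫ z in Ω, g z * (starRingEnd ℂ) (h z) = ∫ z in S, g z * (starRingEnd ℂ) (h z) := by
  refine setIntegral_eq_of_subset_of_forall_sdiff_eq_zero hΩ.measurableSet hS ?_
  intro x hx
  rw [hh x hx.2, map_zero, mul_zero]

theorem F9b_normsq {h : Cn n → ℂ} {S : Set (Cn n)} (hsupp : ∀ w, w ∉ S → h w = 0) :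
    ∫ z in S, h z * (starRingEnd ℂ) (h z) = ((∫ w, ‖h w‖ ^ 2 : ℝ) : ℂ) := by
  rw [← integral_complex_ofReal]
  have h1 : ∫ w in S, (((‖h w‖ ^ 2 : ℝ) : ℂ)) = ∫ w, (((‖h w‖ ^ 2 : ℝ) : ℂ)) := by
    refine setIntegral_eq_integral_of_forall_compl_eq_zero ?_
    intro x hx
    rw [hsupp x hx]
    simp
  rw [← h1]
  refine integral_congr_ae (Eventually.of_forall fun z => ?_)
  simp only
  rw [RCLike.mul_conj]
  push_cast
  rfl

/-- norm of an orthogonal family with norms at most one -/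
theorem F9b_orth {ι G : Type*} [Fintype ι] [DecidableEq ι] [NormedAddCommGroup G] [InnerProductSpace ℂ G]
    (h : ι → G) (h1 : ∀ i, ‖h i‖ ^ 2 ≤ 1) (h2 : ∀ i j, i ≠ j → inner ℂ (h i) (h j) = 0) (c : ι → ℂ) :
    ‖∑ i, c i • h i‖ ^ 2 ≤ ∑ i, ‖c i‖ ^ 2 := by
  have h3 : ‖∑ i, c i • h i‖ ^ 2 = ∑ i, ‖c i • h i‖ ^ 2 := by
    have h4 : (inner ℂ (∑ i, c i • h i) (∑ i, c i • h i) : ℂ) = ∑ i, inner ℂ (c i • h i) (c i • h i) := by
      rw [sum_inner]
      refine Finset.sum_congr rfl fun i _ => ?_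
      rw [inner_sum]
      refine Finset.sum_eq_single i (fun j _ hj => ?_) (fun hi => absurd (Finset.mem_univ i) hi)
      rw [inner_smul_left, inner_smul_right, h2 i j (Ne.symm hj), mul_zero, mul_zero]
    have h5 := congrArg Complex.re h4
    rw [Complex.re_sum] at h5
    rw [norm_sq_eq_re_inner (𝕜 := ℂ)]
    refine h5.trans (Finset.sum_congr rfl fun i _ => ?_)
    rw [norm_sq_eq_re_inner (𝕜 := ℂ)]
    rfl
  rw [h3]
  refine Finset.sum_le_sum fun i _ => ?_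
  rw [norm_smul, mul_pow]
  exact mul_le_of_le_one_right (by positivity) (h1 i)

theorem F9b_memLp' {Ω : Set (Cn n)} (h0 : volume Ω ≠ 0) (h1 : volume Ω ≠ ⊤) {f : Cn n → ℂ}
    (hf : MemLp f 2 (vol Ω)) : MemLp f 2 (volume.restrict Ω) := by
  have h2 : volume.restrict Ω = (volume Ω) • vol Ω := by
    unfold vol
    rw [smul_smul, ENNReal.mul_inv_cancel h0 h1, one_smul]
  rw [h2]
  exact hf.smul_measure h1

theorem F9b_holo_sum {Ω : Set (Cn n)} (hΩ : IsOpen Ω) (h0 : volume Ω ≠ 0) (h1 : volume Ω ≠ ⊤)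
    {ι : Type*} (u : ι → bergman Ω) (t : ι → Cn n → ℂ) (hu : ∀ i, EqOn (holo (u i)) (t i) Ω) (c : ι → ℂ)
    (s : Finset ι) : EqOn (holo (∑ i ∈ s, c i • u i)) (fun z => ∑ i ∈ s, c i * t i z) Ω := by
  classical
  induction s using Finset.induction_on with
  | empty =>
    intro z hz
    have h2 := holo_smul hΩ h0 h1 0 (0 : bergman Ω) hz
    simpa using h2
  | insert a s ha ih =>
    intro z hz
    have h2 := holo_add hΩ h0 h1 (c a • u a) (∑ i ∈ s, c i • u i) hz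
    have h3 := holo_smul hΩ h0 h1 (c a) (u a) hz
    simp only [Finset.sum_insert ha]
    rw [h2]
    simp only [h3, ih hz, hu a hz]

theorem F9b_core {Ω : Set (Cn n)} (hΩ : IsOpen Ω) (h0 : volume Ω ≠ 0) (h1 : volume Ω ≠ ⊤)
    {ι : Type*} [Fintype ι] [DecidableEq ι] {f : Cn n → ℂ} (hf : MemLp f 2 (volume.restrict Ω))
    {T : bergman Ω →L[ℂ] Lp ℂ 2 (vol Ω)} (hT : IsHankel Ω f T)
    (t : ι → Cn n → ℂ) (ht : ∀ i, DifferentiableOn ℂ (t i) Ω) (htb : ∀ i, ∃ M : ℝ, ∀ w ∈ Ω, ‖t i w‖ ≤ M)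
    (S : ι → Set (Cn n)) (hS : ∀ i, IsOpen (S i)) (hSΩ : ∀ i, S i ⊆ Ω) (hS0 : ∀ i, volume (S i) ≠ 0)
    (hdisj : ∀ i j, i ≠ j → Disjoint (S i) (S j))
    (m : ι → ℝ) (hm : ∀ i, 0 < m i) (htm : ∀ i, ∀ w ∈ S i, m i ≤ ‖t i w‖)
    (r : ι → ι → ℝ) (hr : ∀ k j, k ≠ j → ∀ v ∈ S k, ‖t j v / t k v‖ ≤ r k j) (hr0 : ∀ k j, 0 ≤ r k j)
    (w : ι → ℝ) (hw : ∀ i, 0 < w i)
    (hr1 : ∀ k, ∑ j, r k j * w j ≤ (1 / 2) * w k)
    (hr2 : ∀ j, ∑ k, w k * r k j ≤ (1 / 2) * w j)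
    {G : ℝ} (hG : 0 ≤ G)
    (hgram : ∀ c : ι → ℂ, ∫⁻ z in Ω, ENNReal.ofReal (‖∑ i, c i * t i z‖ ^ 2) ≤ ENNReal.ofReal (G ^ 2 * ∑ i, ‖c i‖ ^ 2))
    {p : ℝ} (hp : 0 < p) :
    ∑ i, (m i * Real.sqrt (volume (S i)).toReal * distHol f (S i)) ^ p
      ≤ (2 * G) ^ p * ∑ N ∈ Finset.range (Fintype.card ι), sNumber T N ^ p := by
  classical
  set V : ℝ := ((volume Ω)⁻¹).toReal with hV
  have hVpos : 0 < V := ENNReal.toReal_pos (ENNReal.inv_ne_zero.mpr h1) (ENNReal.inv_ne_top.mpr h0)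
  -- elements of the Bergman space
  have hu : ∀ i, ∃ u : bergman Ω, EqOn (holo u) (t i) Ω := by
    intro i
    refine exists_bergman hΩ h0 h1 (ht i) ?_
    obtain ⟨M, hM⟩ := htb i
    refine ne_of_lt (lt_of_le_of_lt (setLIntegral_mono' hΩ.measurableSet (g := fun _ => ENNReal.ofReal (M ^ 2)) ?_) ?_)
    · intro z hz
      exact ENNReal.ofReal_le_ofReal (pow_le_pow_left₀ (norm_nonneg _) (hM z hz) 2)
    · rw [setLIntegral_const]
      exact ENNReal.mul_lt_top ENNReal.ofReal_lt_top h1.lt_top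
  choose u hu using hu
  -- f t_i
  have hF : ∀ i, MemLp (fun z => f z * t i z) 2 (volume.restrict Ω) := by
    intro i
    obtain ⟨M, hM⟩ := htb i
    refine hf.of_le_mul (c := M) ?_ ?_
    · exact hf.aestronglyMeasurable.mul ((ht i).continuousOn.aestronglyMeasurable hΩ.measurableSet)
    · filter_upwards [ae_restrict_mem hΩ.measurableSet] with z hz
      rw [norm_mul, mul_comm]
      exact mul_le_mul_of_nonneg_right (hM z hz) (norm_nonneg _)
  have hFS : ∀ i, MemLp (fun z => f z * t i z) 2 (volume.restrict (S i)) :=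
    fun i => (hF i).mono_measure (Measure.restrict_mono (hSΩ i) le_rfl)
  have hfS : ∀ i, MemLp f 2 (volume.restrict (S i)) :=
    fun i => hf.mono_measure (Measure.restrict_mono (hSΩ i) le_rfl)
  have hS1 : ∀ i, volume (S i) ≠ ⊤ := fun i => ne_top_of_le_ne_top h1 (measure_mono (hSΩ i))
  have hpr := fun i => exists_proj (hS i) (hS0 i) (hS1 i) (hFS i)
  choose h g₀ μ hμ hhL hsupp hg₀ hg₀' hnorm horth heq using hpr
  have hle : ∀ i, ∫ z, ‖h i z‖ ^ 2 ≤ 1 := by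
    intro i
    rcases hnorm i with h2 | ⟨_, h2⟩
    · exact h2.le
    · rw [h2]; simp
  have htne : ∀ i, ∀ z ∈ S i, t i z ≠ 0 := by
    intro i z hz h2
    have := htm i z hz
    rw [h2, norm_zero] at this
    linarith [hm i]
  -- the normalised vectors
  set a : ℝ := (Real.sqrt V)⁻¹ with ha
  have hsq : 0 < Real.sqrt V := Real.sqrt_pos.mpr hVpos
  have hapos : 0 < a := inv_pos.mpr hsq
  have hVa2 : V * a ^ 2 = 1 := by
    rw [ha, inv_pow, Real.sq_sqrt hVpos.le, mul_inv_cancel₀ hVpos.ne']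
  have hVa : V * a = Real.sqrt V := by
    rw [ha]
    nth_rewrite 1 [← Real.mul_self_sqrt hVpos.le]
    rw [mul_assoc, mul_inv_cancel₀ hsq.ne', mul_one]
  have hk : ∀ i, MemLp (fun z => (a : ℂ) * h i z) 2 (vol Ω) := by
    intro i
    refine F9b_memLp h0 ?_
    exact ((hhL i).mono_measure Measure.restrict_le_self).const_mul (a : ℂ)
  have hFv : ∀ i, MemLp (fun z => f z * t i z) 2 (vol Ω) := fun i => F9b_memLp h0 (hF i)
  have hconj : ∀ k, ∀ g : Cn n → ℂ, ∫ z in Ω, g z * (starRingEnd ℂ) ((a : ℂ) * h k z)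
      = a * ∫ z in S k, g z * (starRingEnd ℂ) (h k z) := by
    intro k g
    rw [← F9b_supp hΩ (hSΩ k) (hsupp k), ← integral_const_mul]
    refine integral_congr_ae (Eventually.of_forall fun z => ?_)
    simp only [map_mul, Complex.conj_ofReal]
    ring
  -- norms and orthogonality
  have hn1 : ∀ i, ‖(hk i).toLp‖ ^ 2 ≤ 1 := by
    intro i
    have h2 : (inner ℂ (hk i).toLp (hk i).toLp : ℂ) = ((V * a ^ 2 * ∫ z, ‖h i z‖ ^ 2 : ℝ) : ℂ) := by
      rw [F9b_inner, hconj]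
      have h3 : ∫ z in S i, (a : ℂ) * h i z * (starRingEnd ℂ) (h i z)
          = (a : ℂ) * ∫ z in S i, h i z * (starRingEnd ℂ) (h i z) := by
        rw [← integral_const_mul]
        refine integral_congr_ae (Eventually.of_forall fun z => ?_)
        simp only
        ring
      rw [h3, F9b_normsq (hsupp i), ← hV]
      push_cast
      ring
    rw [norm_sq_eq_re_inner (𝕜 := ℂ), h2, hVa2, one_mul]
    exact hle i
  have hn2 : ∀ i j, i ≠ j → inner ℂ (hk i).toLp (hk j).toLp = 0 := by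
    intro i j hij
    rw [F9b_inner, hconj]
    have h3 : ∫ z in S i, (a : ℂ) * h j z * (starRingEnd ℂ) (h i z) = 0 := by
      rw [setIntegral_eq_zero_of_forall_eq_zero]
      intro z hz
      have h4 : z ∉ S j := fun h5 => (Set.disjoint_left.mp (hdisj i j hij)) hz h5
      rw [hsupp j z h4, mul_zero, zero_mul]
    rw [h3, mul_zero, mul_zero]
  -- orthogonality to the Bergman space
  have hmem : ∀ k, (hk k).toLp ∈ (bergman Ω)ᗮ := by
    intro k
    rw [Submodule.mem_orthogonal]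
    intro g hg
    set G' : bergman Ω := ⟨g, hg⟩ with hG'
    have h2 : g =ᵐ[vol Ω] holo G' := holo_ae G'
    have h3 : MemLp (holo G') 2 (vol Ω) := (memLp_congr_ae h2).mp (Lp.memLp g)
    have h4 : MemLp (holo G') 2 (volume.restrict (S k)) :=
      (F9b_memLp' h0 h1 h3).mono_measure (Measure.restrict_mono (hSΩ k) le_rfl)
    have h5 : g = h3.toLp := by
      apply Lp.ext
      exact h2.trans h3.coeFn_toLp.symm
    rw [h5, ← inner_conj_symm, F9b_inner, hconj, horth k (holo G') ((holo_diff G').mono (hSΩ k)) h4]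
    simp
  -- the matrix of `T`
  have hmat : ∀ k j, inner ℂ (hk k).toLp (T (u j))
      = ((V * a : ℝ) : ℂ) * ∫ z in S k, f z * t j z * (starRingEnd ℂ) (h k z) := by
    intro k j
    have h2 : T (u j) = (bergman Ω)ᗮ.starProjection (hFv j).toLp := by
      refine hT (u j) (hFv j).toLp ?_
      have h3 : ∀ᵐ z ∂(vol Ω), z ∈ Ω := by
        rw [ae_vol_iff h0 h1]
        exact ae_restrict_mem hΩ.measurableSet
      filter_upwards [(hFv j).coeFn_toLp, holo_ae (u j), h3] with z h4 h5 h6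
      rw [h4, h5, hu j h6]
    have h3 : inner ℂ (hk k).toLp ((hFv j).toLp - (bergman Ω)ᗮ.starProjection (hFv j).toLp) = 0 :=
      (Submodule.mem_orthogonal _ _).mp (Submodule.sub_starProjection_mem_orthogonal (hFv j).toLp) _ (hmem k)
    rw [inner_sub_right, sub_eq_zero] at h3
    rw [h2, ← h3, F9b_inner, hconj, ← hV]
    push_cast
    ring
  have hint : ∀ k, Integrable (fun z => ‖h k z‖ ^ 2) (volume.restrict (S k)) := fun k => by
    have h2 := ((hhL k).mono_measure (Measure.restrict_le_self (s := S k))).integrable_norm_pow (p := 2) two_ne_zero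
    exact h2
  have hint1 : ∀ k, ∫ z in S k, ‖h k z‖ ^ 2 ≤ 1 := by
    intro k
    have h2 : ∫ z in S k, ‖h k z‖ ^ 2 = ∫ z, ‖h k z‖ ^ 2 := by
      refine setIntegral_eq_integral_of_forall_compl_eq_zero ?_
      intro x hx
      rw [hsupp k x hx]
      simp
    rw [h2]
    exact hle k
  -- off-diagonal entries
  set R : ι → ι → ℂ := fun k j => if k = j then 0 else ∫ z in S k, ((‖h k z‖ ^ 2 : ℝ) : ℂ) * (t j z / t k z) with hRdef
  have hR : ∀ k j, ‖R k j‖ ≤ r k j := by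
    intro k j
    by_cases hkj : k = j
    · simp [hRdef, hkj, hr0]
    · simp only [hRdef, if_neg hkj]
      refine (norm_integral_le_of_norm_le ((hint k).mul_const (r k j)) ?_).trans ?_
      · filter_upwards [ae_restrict_mem (hS k).measurableSet] with z hz
        rw [norm_mul, Complex.norm_real, Real.norm_of_nonneg (by positivity)]
        exact mul_le_mul_of_nonneg_left (hr k j hkj z hz) (by positivity)
      · rw [integral_mul_const]
        exact mul_le_of_le_one_left (hr0 k j) (hint1 k)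
  set μ' : ι → ℝ := fun k => V * a * μ k with hμ'def
  have hM : ∀ k j, inner ℂ (hk k).toLp (T (u j)) = μ' k * ((if k = j then 1 else 0) + R k j) := by
    intro k j
    rw [hmat k j]
    by_cases hkj : k = j
    · subst hkj
      have h2 := inner_formula (hS k) (hS1 k) (hFS k) (hhL k) (hg₀ k) (hg₀' k) (horth k) (heq k)
        (w := fun _ => 1) (M := 1) (differentiableOn_const 1) (fun v _ => by simp)
      simp only [mul_one] at h2
      have h3 : ∫ v in S k, ((‖h k v‖ ^ 2 : ℝ) : ℂ) = ((∫ v, ‖h k v‖ ^ 2 : ℝ) : ℂ) := by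
        rw [← integral_complex_ofReal]
        refine setIntegral_eq_integral_of_forall_compl_eq_zero ?_
        intro x hx
        rw [hsupp k x hx]
        simp
      have h4 : (μ k : ℂ) * ∫ v in S k, ((‖h k v‖ ^ 2 : ℝ) : ℂ) = μ k := by
        rw [h3]
        rcases hnorm k with h5 | ⟨h5, _⟩
        · rw [h5]; simp
        · rw [h5]; simp
      rw [h2, h4]
      simp only [hRdef, hμ'def, if_true]
      push_cast
      ring
    · obtain ⟨M, hM⟩ := htb j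
      have h2 := inner_formula (hS k) (hS1 k) (hFS k) (hhL k) (hg₀ k) (hg₀' k) (horth k) (heq k)
        (w := fun z => t j z / t k z) (M := r k j)
        (by
          have h5 := ((ht j).mono (hSΩ k)).mul (((ht k).mono (hSΩ k)).inv (htne k))
          refine h5.congr (fun z _ => ?_)
          rw [div_eq_mul_inv]; rfl) (fun v hv => hr k j hkj v hv)
      have h3 : ∫ z in S k, f z * t j z * (starRingEnd ℂ) (h k z)
          = ∫ z in S k, f z * t k z * (t j z / t k z) * (starRingEnd ℂ) (h k z) := by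
        refine setIntegral_congr_fun (hS k).measurableSet (fun z hz => ?_)
        have h4 := htne k z hz
        congr 1
        field_simp
      rw [h3, h2]
      simp only [hRdef, hμ'def, if_neg hkj, zero_add]
      push_cast
      ring
  -- Gram bound
  have hub : ∀ c : ι → ℂ, ‖∑ i, c i • u i‖ ^ 2 ≤ (Real.sqrt V * G) ^ 2 * ∑ i, ‖c i‖ ^ 2 := by
    intro c
    have h2 := norm_sq_holo h0 h1 (∑ i, c i • u i)
    have h3 : ∫⁻ z in Ω, ENNReal.ofReal (‖holo (∑ i, c i • u i) z‖ ^ 2)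
        = ∫⁻ z in Ω, ENNReal.ofReal (‖∑ i, c i * t i z‖ ^ 2) := by
      refine setLIntegral_congr_fun hΩ.measurableSet (fun z hz => ?_)
      rw [F9b_holo_sum hΩ h0 h1 u t hu c Finset.univ hz]
    have h4 : (volume Ω)⁻¹ = ENNReal.ofReal V := (ENNReal.ofReal_toReal (ENNReal.inv_ne_top.mpr h0)).symm
    rw [h3, h4] at h2
    have h5 : ENNReal.ofReal (‖∑ i, c i • u i‖ ^ 2) ≤ ENNReal.ofReal (V * (G ^ 2 * ∑ i, ‖c i‖ ^ 2)) := by
      rw [h2, ENNReal.ofReal_mul hVpos.le]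
      exact mul_le_mul_right (hgram c) _
    have h6 := (ENNReal.ofReal_le_ofReal_iff (by positivity)).mp h5
    rw [mul_pow, Real.sq_sqrt hVpos.le, mul_assoc]
    exact h6
  have hmain := matrix_lemma T u (fun k => (hk k).toLp) μ' (fun i => by
      simp only [hμ'def]
      exact mul_nonneg (mul_nonneg hVpos.le hapos.le) (hμ i)) (C := Real.sqrt V * G) (mul_nonneg hsq.le hG) hub
    (F9b_orth _ hn1 hn2) R r w hM hR hw hr1 hr2 hp
  -- conclusion
  have hdl : ∀ i, m i * Real.sqrt (volume (S i)).toReal * distHol f (S i) ≤ μ i := fun i =>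
    mu_ge (hS i) (hS0 i) (hS1 i) (hfS i) (hm i) ((ht i).mono (hSΩ i)) (htm i) (hμ i) (hhL i) (hg₀ i) (hg₀' i) (hnorm i) (heq i)
  have hdl0 : ∀ i, 0 ≤ m i * Real.sqrt (volume (S i)).toReal * distHol f (S i) := fun i =>
    mul_nonneg (mul_nonneg (hm i).le (Real.sqrt_nonneg _)) (distHol_nonneg _ _)
  have hμμ' : ∀ i, μ i = (Real.sqrt V)⁻¹ * μ' i := by
    intro i
    simp only [hμ'def]
    rw [hVa, ← mul_assoc, inv_mul_cancel₀ hsq.ne', one_mul]
  calc ∑ i, (m i * Real.sqrt (volume (S i)).toReal * distHol f (S i)) ^ p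
      ≤ ∑ i, μ i ^ p := Finset.sum_le_sum fun i _ => Real.rpow_le_rpow (hdl0 i) (hdl i) hp.le
    _ = ((Real.sqrt V)⁻¹) ^ p * ∑ i, μ' i ^ p := by
        rw [Finset.mul_sum]
        refine Finset.sum_congr rfl fun i _ => ?_
        rw [hμμ' i, Real.mul_rpow (inv_nonneg.mpr hsq.le)]
        · simp only [hμ'def]
          exact mul_nonneg (mul_nonneg hVpos.le hapos.le) (hμ i)
    _ ≤ ((Real.sqrt V)⁻¹) ^ p * ((2 * (Real.sqrt V * G)) ^ p * ∑ N ∈ Finset.range (Fintype.card ι), sNumber T N ^ p) := by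
        refine mul_le_mul_of_nonneg_left hmain (Real.rpow_nonneg (inv_nonneg.mpr hsq.le) _)
    _ = (2 * G) ^ p * ∑ N ∈ Finset.range (Fintype.card ι), sNumber T N ^ p := by
        rw [← mul_assoc, ← Real.mul_rpow (inv_nonneg.mpr hsq.le) (by positivity)]
        congr 2
        field_simp

namespace Dom

/-- `N = n + 2`. For `a ∈ F` let `t_a` be the atom (`atoms`), `t̂_a = δ_a^{N-(n+1)/2} t_a` (an element of
the Bergman space, bounded: `atom_facts`), `S_a = B(a,32s)` (pairwise disjoint for `a ∈ F` if `Λ` is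
larger than the constant of `qd_of_inter`), and `h_a, g_a, μ_a` from `exists_proj` for `F = f t̂_a` on
`S_a`. Then `⟪h_k, T t̂_j⟫ = ⟪h_k, f t̂_j⟫` (`h_k ⊥ L²_a`, `T t̂_j = (I-P)(f t̂_j)`) `= μ_k (δ_kj + R_kj)`,
`R_kj = ∫ |h_k|² (t̂_j/t̂_k)` (`inner_formula`) for `j ≠ k`, `R_kk = 0`, bounded by `ratio_bound`.
Apply `matrix_lemma` (`gram_bound`, `offdiag_bound` with small `ε`; take care of the factor
`(volume Ω)⁻¹` in `vol Ω`: use `h_k' = (volume Ω)^{1/2} h_k`, and `μ_k' = (volume Ω)^{-1/2} μ_k`),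
`mu_ge` (`|t̂_a| ≥ c δ_a^{-(n+1)/2} ≥ c' vol(S_a)^{-1/2}` on `S_a`, `volume_B`). -/
theorem finite_family (D : Dom n) (hA : D.AtomProp) {s₀ s : ℝ} (h : D.Good s₀) (hs : 0 < s) (hs' : 32 * s ≤ s₀) :
    ∃ Λ δ₁ C : ℝ, 1 ≤ Λ ∧ 0 < δ₁ ∧ 0 < C ∧ ∀ A, D.Lattice s A → ∀ f : Cn n → ℂ,
      MemLp f 2 (volume.restrict D.Ω) → ∀ T : bergman D.Ω →L[ℂ] Lp ℂ 2 (vol D.Ω),
        IsHankel D.Ω f T →
        ∀ p : ℝ, 0 < p → ∀ F : Finset (Cn n), ↑F ⊆ A → (∀ a ∈ F, D.δ a < δ₁) →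
          (∀ a ∈ F, ∀ b ∈ F, a ≠ b → Λ * D.δ a * D.δ b ≤ D.qd a b ^ 2) →
          ∑ a ∈ F, distHol f (D.B a (32 * s)) ^ p
            ≤ C ^ p * ∑ N ∈ Finset.range F.card, sNumber T N ^ p := by
  classical
  set N : ℕ := n + 2 with hN
  have hN1 : n + 1 ≤ N := by omega
  have hss : s ≤ s₀ := by linarith
  obtain ⟨δ₁, K, hδ₁, _, hK, hatom⟩ := hA s₀ h N (by omega)
  have hKpos : 0 < K := by linarith
  obtain ⟨Cg, hCg, hgram⟩ := D.gram_bound h hs hss hN1
  obtain ⟨Cr, hCr, hratio⟩ := D.ratio_bound h hK hN1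
  obtain ⟨Λ₀, hΛ₀, hoff⟩ := D.offdiag_bound h hs hss hN1 (ε := 1 / (2 * Cr)) (by positivity)
  obtain ⟨Cq, hCq, hqd⟩ := D.qd_of_inter h
  obtain ⟨Cv, hCv, hvol⟩ := D.volume_B
  set m₀ : ℝ := K⁻¹ * Real.sqrt (Cv⁻¹ * (32 * s) ^ (2 * n)) with hm₀
  have hm₀pos : 0 < m₀ := by positivity
  refine ⟨max Λ₀ (Cq + 1), δ₁, 2 * (Real.sqrt Cg * K) / m₀, le_max_of_le_left hΛ₀, hδ₁, by positivity, ?_⟩
  intro A hA' f hf T hT p hp F hFA hFδ hFsep
  have hmemΩ : ∀ a ∈ F, a ∈ D.Ω := fun a ha => hA'.subset (hFA ha)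
  have hδpos : ∀ a ∈ F, 0 < D.δ a := fun a ha => D.δ_pos (hmemΩ a ha)
  have hat : ∀ a ∈ F, ∃ t, IsAtom D s₀ K N a t := fun a ha => hatom a (hmemΩ a ha) (hFδ a ha)
  choose! t ht using hat
  set e : ℝ := (N : ℝ) - (n + 1) / 2 with he
  have hfacts := fun (a : F) => D.atom_facts h hK hN1 a (hmemΩ a a.2) (t a) (ht a a.2)
  have hsep0 : ∀ a ∈ F, ∀ b ∈ F, a ≠ b → Λ₀ * D.δ a * D.δ b ≤ D.qd a b ^ 2 := by
    intro a ha b hb hab
    refine le_trans ?_ (hFsep a ha b hb hab)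
    exact mul_le_mul_of_nonneg_right (mul_le_mul_of_nonneg_right (le_max_left _ _) (hδpos a ha).le) (hδpos b hb).le
  obtain ⟨hoff1, hoff2⟩ := hoff A hA' F hFA hsep0
  have hcore := F9b_core (Ω := D.Ω) D.isOpen_Ω D.volume_Ω_pos.ne' D.volume_Ω_lt_top.ne (ι := F) hf hT
    (fun a w => ((D.δ a ^ e : ℝ) : ℂ) * t a w)
    (fun a => ((ht a a.2).hol).const_mul _)
    (fun a => by
      obtain ⟨M, hM⟩ := (hfacts a).1
      refine ⟨D.δ a ^ e * M, fun w hw => ?_⟩
      have h2 : 0 ≤ D.δ a ^ e := Real.rpow_nonneg (hδpos a a.2).le _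
      rw [norm_mul, Complex.norm_real, Real.norm_of_nonneg h2]
      exact mul_le_mul_of_nonneg_left (hM w hw) h2)
    (fun a => D.B a (32 * s)) (fun a => D.isOpen_B a (32 * s))
    (fun a w hw => (h.sub a (hmemΩ a a.2) w (D.B_mono a hs' hw)).1)
    (fun a => (D.isOpen_B a (32 * s)).measure_ne_zero volume ⟨a, D.self_mem_B a (by positivity)⟩)
    (fun a b hab => by
      rw [Set.disjoint_iff_inter_eq_empty, ← Set.not_nonempty_iff_eq_empty]
      rintro ⟨w, hw1, hw2⟩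
      have h2 := hqd a (hmemΩ a a.2) b (hmemΩ b b.2) ⟨w, D.B_mono a hs' hw1, D.B_mono b hs' hw2⟩
      have h3 := hFsep a a.2 b b.2 (fun h4 => hab (Subtype.ext h4))
      have h4 : (Cq + 1) * D.δ a * D.δ b ≤ max Λ₀ (Cq + 1) * D.δ a * D.δ b :=
        mul_le_mul_of_nonneg_right (mul_le_mul_of_nonneg_right (le_max_right _ _) (hδpos a a.2).le) (hδpos b b.2).le
      have h5 : 0 < D.δ a * D.δ b := mul_pos (hδpos a a.2) (hδpos b b.2)
      nlinarith)
    (fun a => K⁻¹ * D.δ a ^ (-((n : ℝ) + 1) / 2))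
    (fun a => mul_pos (inv_pos.mpr hKpos) (Real.rpow_pos_of_pos (hδpos a a.2) _))
    (fun a w hw => (hfacts a).2.2 w (D.B_mono a hs' hw))
    (fun k j => if k = j then 0 else Cr * (D.δ j ^ e * D.δ k ^ (((n : ℝ) + 1) / 2) * (D.qd j k)⁻¹ ^ N))
    (fun k j hkj v hv => by
      simp only [if_neg hkj]
      exact hratio j (hmemΩ j j.2) k (hmemΩ k k.2) (t j) (t k) (ht j j.2) (ht k k.2) v (D.B_mono k hs' hv))
    (fun k j => by
      by_cases hkj : k = j
      · simp only [if_pos hkj, le_refl]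
      · simp only [if_neg hkj]
        have h2 := D.qd_pos (hmemΩ j j.2) (hmemΩ k k.2)
        have h3 := hδpos j j.2
        have h4 := hδpos k k.2
        positivity)
    (fun j => D.δ j ^ ((n : ℝ) / 2))
    (fun j => Real.rpow_pos_of_pos (hδpos j j.2) _)
    (fun k => by
      have h2 := hoff1 k k.2
      have h3 : ∑ j : F, (if k = j then (0 : ℝ) else Cr * (D.δ j ^ e * D.δ k ^ (((n : ℝ) + 1) / 2) * (D.qd j k)⁻¹ ^ N))
            * D.δ j ^ ((n : ℝ) / 2)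
          = Cr * ∑ j ∈ F.erase k, D.δ j ^ ((N : ℝ) - (n + 1) / 2) * D.δ k ^ (((n : ℝ) + 1) / 2)
            * (D.qd j k)⁻¹ ^ N * D.δ j ^ ((n : ℝ) / 2) := by
        have h4 := Finset.sum_coe_sort F (fun j : Cn n => (if (k : Cn n) = j then (0 : ℝ) else
            Cr * (D.δ j ^ e * D.δ k ^ (((n : ℝ) + 1) / 2) * (D.qd j k)⁻¹ ^ N)) * D.δ j ^ ((n : ℝ) / 2))
        have h5 : ∑ j : F, (if k = j then (0 : ℝ) else Cr * (D.δ j ^ e * D.δ k ^ (((n : ℝ) + 1) / 2) * (D.qd j k)⁻¹ ^ N))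
            * D.δ j ^ ((n : ℝ) / 2) = ∑ j : F, (if (k : Cn n) = j then (0 : ℝ) else
            Cr * (D.δ j ^ e * D.δ k ^ (((n : ℝ) + 1) / 2) * (D.qd j k)⁻¹ ^ N)) * D.δ j ^ ((n : ℝ) / 2) := by
          refine Finset.sum_congr rfl fun j _ => ?_
          simp only [Subtype.ext_iff]
        rw [h5, h4, Finset.mul_sum, ← Finset.add_sum_erase F _ k.2]
        simp only [if_true, zero_mul, zero_add]
        refine Finset.sum_congr rfl fun j hj => ?_
        rw [if_neg (Ne.symm (Finset.ne_of_mem_erase hj))]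
        ring
      rw [h3]
      calc _ ≤ Cr * (1 / (2 * Cr) * D.δ k ^ ((n : ℝ) / 2)) := mul_le_mul_of_nonneg_left h2 hCr.le
        _ = 1 / 2 * D.δ k ^ ((n : ℝ) / 2) := by field_simp)
    (fun j => by
      have h2 := hoff2 j j.2
      have h3 : ∑ k : F, D.δ k ^ ((n : ℝ) / 2) *
            (if k = j then (0 : ℝ) else Cr * (D.δ j ^ e * D.δ k ^ (((n : ℝ) + 1) / 2) * (D.qd j k)⁻¹ ^ N))
          = Cr * ∑ k ∈ F.erase j, D.δ k ^ ((n : ℝ) / 2) * (D.δ j ^ ((N : ℝ) - (n + 1) / 2)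
            * D.δ k ^ (((n : ℝ) + 1) / 2) * (D.qd j k)⁻¹ ^ N) := by
        have h4 := Finset.sum_coe_sort F (fun k : Cn n => D.δ k ^ ((n : ℝ) / 2) *
            (if k = (j : Cn n) then (0 : ℝ) else Cr * (D.δ j ^ e * D.δ k ^ (((n : ℝ) + 1) / 2) * (D.qd j k)⁻¹ ^ N)))
        have h5 : ∑ k : F, D.δ k ^ ((n : ℝ) / 2) *
            (if k = j then (0 : ℝ) else Cr * (D.δ j ^ e * D.δ k ^ (((n : ℝ) + 1) / 2) * (D.qd j k)⁻¹ ^ N))
            = ∑ k : F, D.δ k ^ ((n : ℝ) / 2) *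
            (if (k : Cn n) = (j : Cn n) then (0 : ℝ) else Cr * (D.δ j ^ e * D.δ k ^ (((n : ℝ) + 1) / 2) * (D.qd j k)⁻¹ ^ N)) := by
          refine Finset.sum_congr rfl fun j _ => ?_
          simp only [Subtype.ext_iff]
        rw [h5, h4, Finset.mul_sum, ← Finset.add_sum_erase F _ j.2]
        simp only [if_true, mul_zero, zero_add]
        refine Finset.sum_congr rfl fun k hk => ?_
        rw [if_neg (Finset.ne_of_mem_erase hk)]
        ring
      rw [h3]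
      calc _ ≤ Cr * (1 / (2 * Cr) * D.δ j ^ ((n : ℝ) / 2)) := mul_le_mul_of_nonneg_left h2 hCr.le
        _ = 1 / 2 * D.δ j ^ ((n : ℝ) / 2) := by field_simp)
    (G := Real.sqrt Cg * K) (by positivity)
    (fun c => by
      have h2 := hgram A hA' F hFA t K hKpos.le (fun a ha w hw => (ht a ha).upper w hw)
        (fun a => if ha : a ∈ F then c ⟨a, ha⟩ else 0)
      have h3 : ∀ w, ∑ a ∈ F, (if ha : a ∈ F then c ⟨a, ha⟩ else 0) * ((D.δ a ^ e : ℝ) : ℂ) * t a w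
          = ∑ i : F, c i * (((D.δ i ^ e : ℝ) : ℂ) * t i w) := by
        intro w
        rw [← Finset.sum_coe_sort]
        refine Finset.sum_congr rfl fun i _ => ?_
        simp only [i.2, dite_true]
        ring
      have h4 : ∑ a ∈ F, ‖(if ha : a ∈ F then c ⟨a, ha⟩ else 0)‖ ^ 2 = ∑ i : F, ‖c i‖ ^ 2 := by
        rw [← Finset.sum_coe_sort]
        refine Finset.sum_congr rfl fun i _ => ?_
        simp only [i.2, dite_true]
      simp only [h3, h4] at h2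
      rw [mul_pow, Real.sq_sqrt hCg.le]
      exact h2)
    hp
  -- conclusion
  have hm : ∀ a ∈ F, m₀ ≤ K⁻¹ * D.δ a ^ (-((n : ℝ) + 1) / 2) * Real.sqrt (volume (D.B a (32 * s))).toReal := by
    intro a ha
    have hδ := hδpos a ha
    have h2 := (hvol a (hmemΩ a ha) (32 * s) (by positivity)).1
    have h3 : volume (D.B a (32 * s)) ≠ ⊤ :=
      ne_top_of_le_ne_top D.volume_Ω_lt_top.ne
        (measure_mono (fun w hw => (h.sub a (hmemΩ a ha) w (D.B_mono a hs' hw)).1))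
    have h4 : Cv⁻¹ * (32 * s) ^ (2 * n) * D.δ a ^ (n + 1) ≤ (volume (D.B a (32 * s))).toReal :=
      (ENNReal.ofReal_le_iff_le_toReal h3).mp h2
    have h5 : Real.sqrt (Cv⁻¹ * (32 * s) ^ (2 * n)) * D.δ a ^ (((n : ℝ) + 1) / 2)
        ≤ Real.sqrt (volume (D.B a (32 * s))).toReal := by
      refine le_trans (le_of_eq ?_) (Real.sqrt_le_sqrt h4)
      have h7 : Real.sqrt (D.δ a ^ (n + 1)) = D.δ a ^ (((n : ℝ) + 1) / 2) := by
        rw [Real.sqrt_eq_rpow, ← Real.rpow_natCast, ← Real.rpow_mul hδ.le]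
        congr 1
        push_cast
        ring
      rw [Real.sqrt_mul (by positivity) (D.δ a ^ (n + 1)), h7]
    have h6 : D.δ a ^ (-((n : ℝ) + 1) / 2) * D.δ a ^ (((n : ℝ) + 1) / 2) = 1 := by
      rw [← Real.rpow_add hδ]
      have : -((n : ℝ) + 1) / 2 + ((n : ℝ) + 1) / 2 = 0 := by ring
      rw [this, Real.rpow_zero]
    calc m₀ = K⁻¹ * (D.δ a ^ (-((n : ℝ) + 1) / 2) * D.δ a ^ (((n : ℝ) + 1) / 2)) * Real.sqrt (Cv⁻¹ * (32 * s) ^ (2 * n)) := by
          rw [h6, mul_one]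
      _ = K⁻¹ * D.δ a ^ (-((n : ℝ) + 1) / 2) * (Real.sqrt (Cv⁻¹ * (32 * s) ^ (2 * n)) * D.δ a ^ (((n : ℝ) + 1) / 2)) := by ring
      _ ≤ _ := mul_le_mul_of_nonneg_left h5 (by positivity)
  have hterm : ∀ a ∈ F, distHol f (D.B a (32 * s)) ≤ m₀⁻¹ * (K⁻¹ * D.δ a ^ (-((n : ℝ) + 1) / 2)
      * Real.sqrt (volume (D.B a (32 * s))).toReal * distHol f (D.B a (32 * s))) := by
    intro a ha
    have h2 := mul_le_mul_of_nonneg_right (hm a ha) (distHol_nonneg f (D.B a (32 * s)))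
    calc distHol f (D.B a (32 * s)) = m₀⁻¹ * (m₀ * distHol f (D.B a (32 * s))) := by
          rw [← mul_assoc, inv_mul_cancel₀ hm₀pos.ne', one_mul]
      _ ≤ _ := mul_le_mul_of_nonneg_left h2 (inv_nonneg.mpr hm₀pos.le)
  have hnn : ∀ a ∈ F, 0 ≤ K⁻¹ * D.δ a ^ (-((n : ℝ) + 1) / 2)
      * Real.sqrt (volume (D.B a (32 * s))).toReal * distHol f (D.B a (32 * s)) := by
    intro a ha
    have h2 := hδpos a ha
    have h3 := distHol_nonneg f (D.B a (32 * s))
    positivity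
  rw [Fintype.card_coe] at hcore
  calc ∑ a ∈ F, distHol f (D.B a (32 * s)) ^ p
      ≤ ∑ a ∈ F, m₀⁻¹ ^ p * (K⁻¹ * D.δ a ^ (-((n : ℝ) + 1) / 2)
      * Real.sqrt (volume (D.B a (32 * s))).toReal * distHol f (D.B a (32 * s))) ^ p := by
        refine Finset.sum_le_sum fun a ha => ?_
        rw [← Real.mul_rpow (inv_nonneg.mpr hm₀pos.le) (hnn a ha)]
        exact Real.rpow_le_rpow (distHol_nonneg _ _) (hterm a ha) hp.le
    _ = m₀⁻¹ ^ p * ∑ i : F, (K⁻¹ * D.δ i ^ (-((n : ℝ) + 1) / 2)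
      * Real.sqrt (volume (D.B i (32 * s))).toReal * distHol f (D.B i (32 * s))) ^ p := by
        rw [← Finset.mul_sum]
        congr 1
        exact (Finset.sum_coe_sort F (fun a => (K⁻¹ * D.δ a ^ (-((n : ℝ) + 1) / 2)
          * Real.sqrt (volume (D.B a (32 * s))).toReal * distHol f (D.B a (32 * s))) ^ p)).symm
    _ ≤ m₀⁻¹ ^ p * ((2 * (Real.sqrt Cg * K)) ^ p * ∑ N ∈ Finset.range F.card, sNumber T N ^ p) :=
        mul_le_mul_of_nonneg_left hcore (Real.rpow_nonneg (inv_nonneg.mpr hm₀pos.le) _)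
    _ = (2 * (Real.sqrt Cg * K) / m₀) ^ p * ∑ N ∈ Finset.range F.card, sNumber T N ^ p := by
        rw [← mul_assoc, ← Real.mul_rpow (inv_nonneg.mpr hm₀pos.le) (by positivity)]
        congr 2
        rw [div_eq_inv_mul]

end Dom

end HankelSPC
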