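import Pool.Agent.Lib.MP_e1cf54_an.A5b
import Pool.Agent.Lib.MP_e1cf54_an.C6d
import Pool.Agent.Lib.MP_e1cf54_an.F9b

/-! Row F10: the only-if part, discrete form. -/

open MeasureTheory Set Filter
open scoped ENNReal NNReal Topology ContDiff

namespace HankelSPC

variable {n : ℕ}

namespace Dom

/-- Uniform bound for finite subsets near the boundary. -/
theorem F10_finite_bound (D : Dom n) (hAt : D.AtomProp) {s₀ s : ℝ} (h : D.Good s₀) (hs : 0 < s)
    (hs' : 32 * s ≤ s₀) {A : Set (Cn n)} (hA : D.Lattice s A) {f : Cn n → ℂ}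
    (hf : MemLp f 2 (volume.restrict D.Ω)) {p : ℝ} (hp : 0 < p) (hH : HankelMem D.Ω f p) :
    ∃ δ₁ K : ℝ, 0 < δ₁ ∧ 0 ≤ K ∧ ∀ F : Finset (Cn n), ↑F ⊆ A → (∀ a ∈ F, D.δ a < δ₁) →
      ∑ a ∈ F, distHol f (D.B a (32 * s)) ^ p ≤ K := by
  classical
  obtain ⟨T, ⟨hcomp, hsum⟩, hT⟩ := hH
  obtain ⟨Λ, δ₁, C, hΛ, hδ₁, hC, hfam⟩ := D.finite_family hAt h hs hs'
  have hss : s ≤ s₀ := by linarith
  have hL := D.L_ge
  set Λ' : ℝ := (1 + D.L) ^ 2 * Λ with hΛ'
  have hΛ'1 : 1 ≤ Λ' := by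
    have : (1 : ℝ) ≤ (1 + D.L) ^ 2 := by nlinarith
    calc (1 : ℝ) = 1 * 1 := by ring
      _ ≤ (1 + D.L) ^ 2 * Λ := mul_le_mul this hΛ (by norm_num) (by positivity)
  have hΛΛ' : Λ ≤ Λ' := by
    have : (1 : ℝ) ≤ (1 + D.L) ^ 2 := by nlinarith
    calc Λ = 1 * Λ := by ring
      _ ≤ (1 + D.L) ^ 2 * Λ := by gcongr
  obtain ⟨M, hM⟩ := Lattice.count_qd D h hs hss hΛ'1
  set S : ℝ := ∑' N, sNumber T N ^ p with hS
  have hS0 : 0 ≤ S := tsum_nonneg fun N => Real.rpow_nonneg (sNumber_nonneg T N) p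
  refine ⟨δ₁, (M + 1) * (C ^ p * S), hδ₁, by positivity, fun F hFA hFδ => ?_⟩
  set Adj : Cn n → Cn n → Prop := fun a b =>
    D.qd a b ^ 2 < Λ * D.δ a * D.δ b ∨ D.qd b a ^ 2 < Λ * D.δ a * D.δ b with hAdj
  have hsymm : ∀ i j, Adj i j → Adj j i := by
    intro i j hij
    simp only [hAdj] at hij ⊢
    rcases hij with h1 | h1
    · right; rw [show Λ * D.δ j * D.δ i = Λ * D.δ i * D.δ j by ring]; exact h1
    · left; rw [show Λ * D.δ j * D.δ i = Λ * D.δ i * D.δ j by ring]; exact h1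
  obtain ⟨c, hc⟩ := greedy_colouring F Adj hsymm M (by
    intro i hi S' hS'F hS'
    have hiΩ := hA.subset (hFA hi)
    refine hM A hA i hiΩ S' (fun a ha => hFA (hS'F ha)) ?_
    intro a ha
    have haΩ := hA.subset (hFA (hS'F ha))
    have hδi := D.δ_pos hiΩ
    have hδa := D.δ_pos haΩ
    rcases (hS' a ha).2 with h1 | h1
    · calc D.qd i a ^ 2 < Λ * D.δ i * D.δ a := h1
        _ ≤ Λ' * D.δ i * D.δ a := by gcongr
    · have h2 := D.qd_symm haΩ hiΩ
      have h3 : 0 < D.qd i a := D.qd_pos hiΩ haΩ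
      calc D.qd i a ^ 2 ≤ ((1 + D.L) * D.qd a i) ^ 2 := by gcongr
        _ = (1 + D.L) ^ 2 * D.qd a i ^ 2 := by ring
        _ < (1 + D.L) ^ 2 * (Λ * D.δ i * D.δ a) := by gcongr
        _ = Λ' * D.δ i * D.δ a := by rw [hΛ']; ring)
  have hclass : ∀ k : Fin (M + 1), ∑ a ∈ F.filter (fun a => c a = k),
      distHol f (D.B a (32 * s)) ^ p ≤ C ^ p * S := by
    intro k
    have h1 := hfam A hA f hf T hT p hp (F.filter (fun a => c a = k))
      (fun a ha => hFA (Finset.mem_of_mem_filter a ha))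
      (fun a ha => hFδ a (Finset.mem_of_mem_filter a ha))
      (by
        intro a ha b hb hab
        rw [Finset.mem_filter] at ha hb
        by_contra hcon
        rw [not_le] at hcon
        exact hc a ha.1 b hb.1 hab (Or.inl hcon) (by rw [ha.2, hb.2]))
    refine h1.trans ?_
    gcongr
    exact hsum.sum_le_tsum _ fun N _ => Real.rpow_nonneg (sNumber_nonneg T N) p
  calc ∑ a ∈ F, distHol f (D.B a (32 * s)) ^ p
      = ∑ k : Fin (M + 1), ∑ a ∈ F.filter (fun a => c a = k),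
          distHol f (D.B a (32 * s)) ^ p := by
        rw [Finset.sum_fiberwise]
    _ ≤ ∑ k : Fin (M + 1), C ^ p * S := Finset.sum_le_sum fun k _ => hclass k
    _ = (M + 1) * (C ^ p * S) := by
        rw [Finset.sum_const, Finset.card_univ, Fintype.card_fin, nsmul_eq_mul]; push_cast; ring

/-- The discrete only-if statement for the distances to the holomorphic functions. -/
theorem summable_distHol (D : Dom n) (hAt : D.AtomProp) {s₀ s : ℝ} (h : D.Good s₀) (hs : 0 < s)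
    (hs' : 32 * s ≤ s₀) {A : Set (Cn n)} (hA : D.Lattice s A) {f : Cn n → ℂ}
    (hf : MemLp f 2 (volume.restrict D.Ω)) {p : ℝ} (hp : 0 < p) (hH : HankelMem D.Ω f p) :
    Summable fun a : A => distHol f (D.B a (32 * s)) ^ p := by
  classical
  obtain ⟨δ₁, K, hδ₁, hK, hb⟩ := D.F10_finite_bound hAt h hs hs' hA hf hp hH
  have hfin := Lattice.finite D h hs (show s ≤ s₀ by linarith) hδ₁ hA
  set W := hfin.toFinset with hW
  have hx0 : ∀ a : Cn n, 0 ≤ distHol f (D.B a (32 * s)) ^ p :=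
    fun a => Real.rpow_nonneg (distHol_nonneg _ _) p
  refine summable_of_sum_le (c := K + ∑ a ∈ W, distHol f (D.B a (32 * s)) ^ p)
    (fun a => hx0 a) fun u => ?_
  have hmap : ∑ x ∈ u, distHol f (D.B (x : Cn n) (32 * s)) ^ p
      = ∑ a ∈ u.map (Function.Embedding.subtype _), distHol f (D.B a (32 * s)) ^ p := by
    rw [Finset.sum_map]; rfl
  rw [hmap]
  set F := u.map (Function.Embedding.subtype _) with hF
  have hFA : ↑F ⊆ A := by
    intro a ha
    rw [hF, Finset.mem_coe, Finset.mem_map] at ha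
    obtain ⟨x, _, rfl⟩ := ha
    exact x.2
  rw [← Finset.sum_filter_add_sum_filter_not F (fun a => D.δ a < δ₁)]
  refine add_le_add ?_ ?_
  · exact hb _ (fun a ha => hFA (Finset.mem_of_mem_filter a ha))
      (fun a ha => (Finset.mem_filter.1 ha).2)
  · refine Finset.sum_le_sum_of_subset_of_nonneg ?_ fun a _ _ => hx0 a
    intro a ha
    rw [Finset.mem_filter, not_lt] at ha
    rw [hW, Set.Finite.mem_toFinset]
    exact ⟨hFA ha.1, ha.2⟩

/-- The discrete only-if statement for the oscillations. -/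
theorem summable_osc_of_hankel (D : Dom n) (hAt : D.AtomProp) {s₀ s : ℝ} (h : D.Good s₀)
    (hs : 0 < s) (hs' : 32 * s ≤ s₀) {A : Set (Cn n)} (hA : D.Lattice s A) {f : Cn n → ℂ}
    (hf : MemLp f 2 (volume.restrict D.Ω)) {p : ℝ} (hp : 0 < p) (hH : HankelMem D.Ω f p)
    (hH' : HankelMem D.Ω (fun z => (starRingEnd ℂ) (f z)) p) :
    Summable fun a : A => osc f (D.B a (32 * s)) ^ p := by
  have h1 := D.summable_distHol hAt h hs hs' hA hf hp hH
  have hfc : MemLp (fun z => (starRingEnd ℂ) (f z)) 2 (volume.restrict D.Ω) := hf.star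
  have h2 := D.summable_distHol hAt h hs hs' hA hfc hp hH'
  have h3 := (h1.add h2).mul_left ((6 : ℝ) ^ p)
  refine Summable.of_nonneg_of_le (fun a => Real.rpow_nonneg (osc_nonneg _ _) p) (fun a => ?_) h3
  have haΩ : (a : Cn n) ∈ D.Ω := hA.subset a.2
  have hsub : D.B (a : Cn n) (32 * s) ⊆ D.Ω := h.B_subset haΩ hs'
  obtain ⟨C, hC, hvol⟩ := D.volume_B
  have hδ := D.δ_pos haΩ
  have hv := hvol a haΩ (32 * s) (by positivity)
  have hvB : volume ((D.nrm (a : Cn n)).ball 0 (32 * s)) = volume (D.B (a : Cn n) (32 * s)) := by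
    rw [B_eq_image, Set.image_add_left, measure_preimage_add]
  have h0 : volume ((D.nrm (a : Cn n)).ball 0 (32 * s)) ≠ 0 := by
    rw [hvB]
    refine (lt_of_lt_of_le ?_ hv.1).ne'
    rw [ENNReal.ofReal_pos]; positivity
  have h1' : volume ((D.nrm (a : Cn n)).ball 0 (32 * s)) ≠ ⊤ := by
    rw [hvB]
    exact (lt_of_le_of_lt hv.2 ENNReal.ofReal_lt_top).ne
  have hBo : IsOpen ((D.nrm (a : Cn n)).ball 0 (32 * s)) := by
    have : (D.nrm (a : Cn n)).ball 0 (32 * s) = {X | D.nrm (a : Cn n) X < 32 * s} := by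
      ext X; rw [Seminorm.mem_ball, sub_zero]; rfl
    rw [this]
    exact isOpen_lt (D.continuous_nrm a) continuous_const
  have hosc := osc_le_distHol (z := (a : Cn n)) (f := f) (D.balanced_ball a (32 * s)) hBo h0 h1'
    (by
      rw [← B_eq_image]
      exact hf.mono_measure (Measure.restrict_mono hsub le_rfl))
  rw [← B_eq_image] at hosc
  set x := distHol f (D.B (a : Cn n) (32 * s)) with hx
  set y := distHol (fun w => (starRingEnd ℂ) (f w)) (D.B (a : Cn n) (32 * s)) with hy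
  have hx0 : 0 ≤ x := distHol_nonneg _ _
  have hy0 : 0 ≤ y := distHol_nonneg _ _
  have hmax : 3 * (x + y) ≤ 6 * max x y := by
    have := le_max_left x y
    have := le_max_right x y
    linarith
  have hmax0 : 0 ≤ max x y := le_trans hx0 (le_max_left _ _)
  calc osc f (D.B (a : Cn n) (32 * s)) ^ p ≤ (6 * max x y) ^ p :=
        Real.rpow_le_rpow (osc_nonneg _ _) (hosc.trans hmax) hp.le
    _ = 6 ^ p * (max x y) ^ p := Real.mul_rpow (by norm_num) hmax0
    _ ≤ 6 ^ p * (x ^ p + y ^ p) := by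
        gcongr
        rcases max_cases x y with ⟨he, _⟩ | ⟨he, _⟩
        · rw [he]; linarith [Real.rpow_nonneg hy0 p]
        · rw [he]; linarith [Real.rpow_nonneg hx0 p]

end Dom

end HankelSPC
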