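import Pool.Agent.Lib.MP_e1cf54_an.Defs

/-! Row F1a: oscillation basics -/

open MeasureTheory Set Filter
open scoped ENNReal NNReal Topology ContDiff

namespace HankelSPC

variable {n : ℕ}

/-- `∫_S |f - av|² ≤ ∫_S |f - c|²` and the definition of `osc`. -/
lemma osc_sq_mul {f : Cn n → ℂ} {S : Set (Cn n)} (h0 : volume S ≠ 0) (h1 : volume S ≠ ⊤) :
    osc f S ^ 2 * (volume S).toReal = ∫ w in S, ‖f w - av f S‖ ^ 2 := by
  have hpos : 0 < (volume S).toReal := ENNReal.toReal_pos h0 h1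
  have hint : 0 ≤ ∫ w in S, ‖f w - av f S‖ ^ 2 := integral_nonneg fun w => by positivity
  rw [osc, setAverage_eq, smul_eq_mul, Real.sq_sqrt (by
    apply mul_nonneg _ hint
    exact inv_nonneg.mpr measureReal_nonneg), Measure.real]
  field_simp

private lemma F1a_integral_sub_av {f : Cn n → ℂ} {S : Set (Cn n)} (h0 : volume S ≠ 0)
    (h1 : volume S ≠ ⊤) (hf : MemLp f 2 (volume.restrict S)) :
    ∫ w in S, (f w - av f S) = 0 := by
  have hfin : IsFiniteMeasure (volume.restrict S) := ⟨by simpa using h1.lt_top⟩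
  have hpos : 0 < (volume S).toReal := ENNReal.toReal_pos h0 h1
  have hfi : Integrable f (volume.restrict S) := hf.integrable (by norm_num)
  rw [integral_sub hfi (integrable_const _), integral_const, av, setAverage_eq]
  simp only [Measure.real, Complex.real_smul, Measure.restrict_apply_univ]
  rw [← mul_assoc, ← Complex.ofReal_mul, mul_inv_cancel₀ hpos.ne']
  simp

private lemma F1a_expand {f : Cn n → ℂ} {S : Set (Cn n)} (h0 : volume S ≠ 0)
    (h1 : volume S ≠ ⊤) (hf : MemLp f 2 (volume.restrict S)) (c : ℂ) :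
    ∫ w in S, ‖f w - c‖ ^ 2 =
      (∫ w in S, ‖f w - av f S‖ ^ 2) + ‖av f S - c‖ ^ 2 * (volume S).toReal := by
  have hfin : IsFiniteMeasure (volume.restrict S) := ⟨by simpa using h1.lt_top⟩
  have hsub : MemLp (fun w => f w - av f S) 2 (volume.restrict S) := hf.sub (memLp_const _)
  have hsubi : Integrable (fun w => f w - av f S) (volume.restrict S) :=
    hsub.integrable (by norm_num)
  have hsq : Integrable (fun w => ‖f w - av f S‖ ^ 2) (volume.restrict S) :=
    hsub.integrable_norm_pow (by norm_num)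
  have hpt : ∀ w, ‖f w - c‖ ^ 2 = ‖f w - av f S‖ ^ 2 +
      (2 * ((f w - av f S) * (starRingEnd ℂ) (av f S - c)).re + ‖av f S - c‖ ^ 2) := by
    intro w
    have : f w - c = (f w - av f S) + (av f S - c) := by ring
    rw [this]
    simp only [← Complex.normSq_eq_norm_sq, Complex.normSq_add]
    ring
  have hri : Integrable (fun w => ((f w - av f S) * (starRingEnd ℂ) (av f S - c)).re)
      (volume.restrict S) := (hsubi.mul_const _).re
  have hre : ∫ w in S, ((f w - av f S) * (starRingEnd ℂ) (av f S - c)).re = 0 := by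
    have h2 := integral_re (𝕜 := ℂ) (hsubi.mul_const ((starRingEnd ℂ) (av f S - c)))
    have h3 : ∫ w in S, (f w - av f S) * (starRingEnd ℂ) (av f S - c) = 0 := by
      rw [integral_mul_const, F1a_integral_sub_av h0 h1 hf, zero_mul]
    rw [h3] at h2
    simpa using h2
  simp only [hpt]
  have hri2 : Integrable (fun w => 2 * ((f w - av f S) * (starRingEnd ℂ) (av f S - c)).re +
      ‖av f S - c‖ ^ 2) (volume.restrict S) := (hri.const_mul 2).add (integrable_const _)
  rw [integral_add hsq hri2, integral_add (hri.const_mul 2) (integrable_const _),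
    integral_const_mul, hre, integral_const]
  simp only [Measure.real, smul_eq_mul, Measure.restrict_apply_univ]
  ring

lemma osc_sq_le {f : Cn n → ℂ} {S : Set (Cn n)} (h0 : volume S ≠ 0) (h1 : volume S ≠ ⊤)
    (hf : MemLp f 2 (volume.restrict S)) (c : ℂ) :
    osc f S ^ 2 * (volume S).toReal ≤ ∫ w in S, ‖f w - c‖ ^ 2 := by
  rw [osc_sq_mul h0 h1, F1a_expand h0 h1 hf c]
  have : 0 ≤ ‖av f S - c‖ ^ 2 * (volume S).toReal := by positivity
  linarith

private lemma F1a_mono_int {f : Cn n → ℂ} {S T : Set (Cn n)} (hST : S ⊆ T)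
    (h1 : volume T ≠ ⊤) (hf : MemLp f 2 (volume.restrict T)) (c : ℂ) :
    ∫ w in S, ‖f w - c‖ ^ 2 ≤ ∫ w in T, ‖f w - c‖ ^ 2 := by
  have hfin : IsFiniteMeasure (volume.restrict T) := ⟨by simpa using h1.lt_top⟩
  have hsub : MemLp (fun w => f w - c) 2 (volume.restrict T) := hf.sub (memLp_const _)
  have hsq : Integrable (fun w => ‖f w - c‖ ^ 2) (volume.restrict T) :=
    hsub.integrable_norm_pow (by norm_num)
  exact setIntegral_mono_set hsq (Eventually.of_forall fun w => by positivity)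
    (LE.le.eventuallyLE hST)

private lemma F1a_vol {S T : Set (Cn n)} (hST : S ⊆ T) (h0 : volume S ≠ 0)
    (h1 : volume T ≠ ⊤) : volume T ≠ 0 ∧ volume S ≠ ⊤ :=
  ⟨fun h => h0 (measure_mono_null hST h), ne_top_of_le_ne_top h1 (measure_mono hST)⟩

/-- Monotonicity. -/
lemma osc_mono {f : Cn n → ℂ} {S T : Set (Cn n)} (hS : MeasurableSet S) (hST : S ⊆ T)
    (h0 : volume S ≠ 0) (h1 : volume T ≠ ⊤) (hf : MemLp f 2 (volume.restrict T)) :
    osc f S ^ 2 * (volume S).toReal ≤ osc f T ^ 2 * (volume T).toReal := by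
  obtain ⟨h0', h1'⟩ := F1a_vol hST h0 h1
  have hfS : MemLp f 2 (volume.restrict S) := hf.mono_measure (Measure.restrict_mono hST le_rfl)
  rw [osc_sq_mul h0' h1]
  exact (osc_sq_le h0 h1' hfS _).trans (F1a_mono_int hST h1 hf _)

lemma av_sub_av {f : Cn n → ℂ} {S T : Set (Cn n)} (hS : MeasurableSet S) (hST : S ⊆ T)
    (h0 : volume S ≠ 0) (h1 : volume T ≠ ⊤) (hf : MemLp f 2 (volume.restrict T)) :
    ‖av f S - av f T‖ ^ 2 * (volume S).toReal ≤ osc f T ^ 2 * (volume T).toReal := by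
  obtain ⟨h0', h1'⟩ := F1a_vol hST h0 h1
  have hfS : MemLp f 2 (volume.restrict S) := hf.mono_measure (Measure.restrict_mono hST le_rfl)
  rw [osc_sq_mul h0' h1]
  refine le_trans ?_ (F1a_mono_int hST h1 hf (av f T))
  rw [F1a_expand h0 h1' hfS (av f T)]
  have : 0 ≤ ∫ w in S, ‖f w - av f S‖ ^ 2 := integral_nonneg fun w => by positivity
  linarith

/-- Integral form on a subset. -/
lemma integral_sub_av {f : Cn n → ℂ} {S T : Set (Cn n)} (hS : MeasurableSet S) (hST : S ⊆ T)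
    (h0 : volume S ≠ 0) (h1 : volume T ≠ ⊤) (hf : MemLp f 2 (volume.restrict T)) :
    ∫ w in S, ‖f w - av f T‖ ^ 2 ≤ osc f T ^ 2 * (volume T).toReal := by
  obtain ⟨h0', h1'⟩ := F1a_vol hST h0 h1
  rw [osc_sq_mul h0' h1]
  exact F1a_mono_int hST h1 hf _

private lemma F1a_ball_sub (Ω : Set (Cn n)) (z : Cn n) (r : ℝ) : ball Ω z r ⊆ Ω :=
  fun _ hw => hw.1

private lemma F1a_average {E : Type*} [NormedAddCommGroup E] [NormedSpace ℝ E]
    {Ω : Set (Cn n)} (hΩ : MeasurableSet Ω) (h0 : volume Ω ≠ 0) (h1 : volume Ω ≠ ⊤)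
    {B : Set (Cn n)} (hB : B ⊆ Ω) (g : Cn n → E) :
    ⨍ w in B, g w ∂(vol Ω) = ⨍ w in B, g w := by
  have hr : (vol Ω).restrict B = (volume Ω)⁻¹ • volume.restrict B := by
    rw [vol, Measure.restrict_smul, Measure.restrict_restrict_of_subset hB]
  have hc0 : (volume Ω)⁻¹ ≠ 0 := ENNReal.inv_ne_zero.mpr h1
  have hc1 : (volume Ω)⁻¹ ≠ ⊤ := ENNReal.inv_ne_top.mpr h0
  have hcr : ((volume Ω)⁻¹).toReal ≠ 0 := by
    rw [Ne, ENNReal.toReal_eq_zero_iff]
    exact fun h => h.elim hc0 hc1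
  rw [average_eq, average_eq, hr, integral_smul_measure, Measure.real, Measure.real,
    Measure.smul_apply, smul_eq_mul, ENNReal.toReal_mul, smul_smul]
  congr 1
  field_simp

/-- The averages do not change if `volume` is replaced by the normalised `vol Ω`
(for subsets of `Ω`). -/
lemma avg_eq_av {Ω : Set (Cn n)} (hΩ : MeasurableSet Ω) (h0 : volume Ω ≠ 0) (h1 : volume Ω ≠ ⊤)
    (f : Cn n → ℂ) (r : ℝ) (z : Cn n) : avg Ω f r z = av f (ball Ω z r) :=
  F1a_average hΩ h0 h1 (F1a_ball_sub Ω z r) f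

lemma MO_eq_osc {Ω : Set (Cn n)} (hΩ : MeasurableSet Ω) (h0 : volume Ω ≠ 0) (h1 : volume Ω ≠ ⊤)
    (f : Cn n → ℂ) (r : ℝ) (z : Cn n) : MO Ω f r z = osc f (ball Ω z r) := by
  rw [MO, osc, avg_eq_av hΩ h0 h1, F1a_average hΩ h0 h1 (F1a_ball_sub Ω z r)]

lemma memLp_vol_iff {Ω : Set (Cn n)} (h0 : volume Ω ≠ 0) (h1 : volume Ω ≠ ⊤) {f : Cn n → ℂ} :
    MemLp f 2 (vol Ω) ↔ MemLp f 2 (volume.restrict Ω) := by
  have hc0 : (volume Ω)⁻¹ ≠ 0 := ENNReal.inv_ne_zero.mpr h1
  have hc1 : (volume Ω)⁻¹ ≠ ⊤ := ENNReal.inv_ne_top.mpr h0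
  constructor
  · intro h
    have h2 := h.smul_measure (c := volume Ω) h1
    have h3 : volume Ω • vol Ω = volume.restrict Ω := by
      rw [vol, smul_smul, ENNReal.mul_inv_cancel h0 h1, one_smul]
    rwa [h3] at h2
  · intro h
    exact h.smul_measure hc1

end HankelSPC
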