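import Pool.Agent.Lib.MP_e1cf54_an.F1a
import Pool.Agent.Lib.MP_e1cf54_an.B10a

/-! Row F1b: oscillation and holomorphic functions -/

open MeasureTheory Set Filter
open scoped ENNReal NNReal Topology ContDiff

namespace HankelSPC

variable {n : ℕ}

theorem F1b_image_integral (B : Set (Cn n)) (z : Cn n) {E : Type*} [NormedAddCommGroup E]
    [NormedSpace ℝ E] (G : Cn n → E) :
    ∫ w in (fun X => z + X) '' B, G w = ∫ X in B, G (z + X) := by
  have h := (measurePreserving_add_left (volume : Measure (Cn n)) z).setIntegral_image_emb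
    (measurableEmbedding_addLeft z) G B
  exact h

theorem F1b_image_integrable (B : Set (Cn n)) (z : Cn n) {G : Cn n → ℂ}
    (hG : IntegrableOn G ((fun X => z + X) '' B)) : IntegrableOn (fun X => G (z + X)) B := by
  have h := (measurePreserving_add_left (volume : Measure (Cn n)) z).integrableOn_image
    (measurableEmbedding_addLeft z) (f := G) (s := B)
  exact h.mp hG

theorem F1b_volume_image (B : Set (Cn n)) (z : Cn n) :
    volume ((fun X => z + X) '' B) = volume B := by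
  have h := measure_preimage_add (volume : Measure (Cn n)) (-z) B
  rw [← h]
  congr 1
  ext w
  simp only [mem_image, mem_preimage]
  constructor
  · rintro ⟨X, hX, rfl⟩
    simpa using hX
  · intro hw
    exact ⟨-z + w, hw, by simp⟩

/-- pointwise inequality -/
theorem F1b_pointwise (a b h k : ℂ) :
    ‖h - a‖ ^ 2 + 2 * (-((h - a) * (k - b)) + (starRingEnd ℂ) (a - (starRingEnd ℂ) b) * (h - a)).re
      ≤ ‖h - (starRingEnd ℂ) k‖ ^ 2 := by
  have h1 : ‖h - (starRingEnd ℂ) k‖ ^ 2 = ‖h - a‖ ^ 2 +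
      ‖(a - (starRingEnd ℂ) b) - (starRingEnd ℂ) (k - b)‖ ^ 2 +
      2 * (-((h - a) * (k - b)) + (starRingEnd ℂ) (a - (starRingEnd ℂ) b) * (h - a)).re := by
    rw [← Complex.normSq_eq_norm_sq, ← Complex.normSq_eq_norm_sq, ← Complex.normSq_eq_norm_sq]
    simp only [Complex.normSq_apply, Complex.sub_re, Complex.sub_im, Complex.conj_re,
      Complex.conj_im, Complex.add_re, Complex.neg_re, Complex.mul_re]
    ring
  rw [h1]
  have := sq_nonneg ‖(a - (starRingEnd ℂ) b) - (starRingEnd ℂ) (k - b)‖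
  linarith

/-- On balanced sets the mean oscillation is controlled by the distances of `f` and `conj f` to the
holomorphic functions: with `h₁' = h₁ - h₁(z)`, `h₂' = h₂ - h₂(z)`, `∫_S h₁' h₂' = 0`
(`mean_value` applied to the integrable holomorphic function `h₁' h₂'`, which vanishes at `z`)
and `∫_S h₁' = ∫_S h₂' = 0`, so
`∫_S |h₁ - conj h₂|² = ∫ |h₁'|² + ∫|h₂'|² + vol |h₁(z) - conj h₂(z)|² ≥ ∫_S |h₁'|²`, and
`‖f - h₁(z)‖ ≤ ‖f - h₁‖ + ‖h₁'‖ ≤ 2‖f - h₁‖ + ‖conj f - h₂‖`. -/
theorem osc_le_dist {B : Set (Cn n)} (hB : Balanced ℂ B) (hBo : IsOpen B) (h0 : volume B ≠ 0)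
    (h1 : volume B ≠ ⊤) {z : Cn n} {f h₁ h₂ : Cn n → ℂ}
    (hf : MemLp f 2 (volume.restrict ((fun X => z + X) '' B)))
    (hh₁ : DifferentiableOn ℂ h₁ ((fun X => z + X) '' B))
    (hh₂ : DifferentiableOn ℂ h₂ ((fun X => z + X) '' B))
    (hm₁ : MemLp h₁ 2 (volume.restrict ((fun X => z + X) '' B)))
    (hm₂ : MemLp h₂ 2 (volume.restrict ((fun X => z + X) '' B))) :
    osc f ((fun X => z + X) '' B) ^ 2 * (volume B).toReal
      ≤ 8 * (∫ w in (fun X => z + X) '' B, ‖f w - h₁ w‖ ^ 2)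
        + 8 * ∫ w in (fun X => z + X) '' B, ‖(starRingEnd ℂ) (f w) - h₂ w‖ ^ 2 := by
  set V : Set (Cn n) := (fun X => z + X) '' B with hV
  have hVv : volume V = volume B := F1b_volume_image B z
  have hV0 : volume V ≠ 0 := by rw [hVv]; exact h0
  have hV1 : volume V ≠ ⊤ := by rw [hVv]; exact h1
  have : IsFiniteMeasure (volume.restrict V) := ⟨by
    rw [Measure.restrict_apply_univ]; exact lt_top_iff_ne_top.mpr hV1⟩
  set a : ℂ := h₁ z with ha
  set b : ℂ := h₂ z with hb
  have hu : MemLp (fun w => h₁ w - a) 2 (volume.restrict V) := hm₁.sub (memLp_const a)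
  have hv : MemLp (fun w => h₂ w - b) 2 (volume.restrict V) := hm₂.sub (memLp_const b)
  have hui : Integrable (fun w => h₁ w - a) (volume.restrict V) := hu.integrable (by norm_num)
  have huv : Integrable (fun w => (h₁ w - a) * (h₂ w - b)) (volume.restrict V) :=
    hu.integrable_mul hv
  have hud : DifferentiableOn ℂ (fun w => h₁ w - a) V := hh₁.sub (differentiableOn_const a)
  have hvd : DifferentiableOn ℂ (fun w => h₂ w - b) V := hh₂.sub (differentiableOn_const b)
  have I1 : ∫ w in V, (h₁ w - a) = 0 := by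
    rw [hV, F1b_image_integral B z (fun w => h₁ w - a),
      mean_value hB hBo h1 (g := fun w => h₁ w - a) hud
        (F1b_image_integrable B z (G := fun w => h₁ w - a) hui)]
    simp [ha]
  have I2 : ∫ w in V, (h₁ w - a) * (h₂ w - b) = 0 := by
    rw [hV, F1b_image_integral B z (fun w => (h₁ w - a) * (h₂ w - b)),
      mean_value hB hBo h1 (g := fun w => (h₁ w - a) * (h₂ w - b)) (hud.mul hvd)
        (F1b_image_integrable B z (G := fun w => (h₁ w - a) * (h₂ w - b)) huv)]
    simp [ha]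
  have hconj : ∀ {g : Cn n → ℂ}, MemLp g 2 (volume.restrict V) →
      MemLp (fun w => (starRingEnd ℂ) (g w)) 2 (volume.restrict V) := by
    intro g hg
    refine ⟨Complex.continuous_conj.comp_aestronglyMeasurable hg.1, ?_⟩
    rw [eLpNorm_congr_norm_ae (g := g)]
    · exact hg.2
    · exact Filter.Eventually.of_forall (fun w => by simp)
  have hsq : ∀ {g : Cn n → ℂ}, MemLp g 2 (volume.restrict V) →
      Integrable (fun w => ‖g w‖ ^ 2) (volume.restrict V) := by
    intro g hg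
    have := hg.integrable_norm_pow (p := 2) (by norm_num)
    simpa using this
  have hfa : MemLp (fun w => f w - a) 2 (volume.restrict V) := hf.sub (memLp_const a)
  have hf1 : MemLp (fun w => f w - h₁ w) 2 (volume.restrict V) := hf.sub hm₁
  have hf2 : MemLp (fun w => (starRingEnd ℂ) (f w) - h₂ w) 2 (volume.restrict V) :=
    (hconj hf).sub hm₂
  have h12 : MemLp (fun w => h₁ w - (starRingEnd ℂ) (h₂ w)) 2 (volume.restrict V) :=
    hm₁.sub (hconj hm₂)
  -- the key inequality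
  have key : ∫ w in V, ‖h₁ w - a‖ ^ 2 ≤ ∫ w in V, ‖h₁ w - (starRingEnd ℂ) (h₂ w)‖ ^ 2 := by
    set c : ℂ := (starRingEnd ℂ) (a - (starRingEnd ℂ) b) with hc
    have hint : Integrable (fun w => -((h₁ w - a) * (h₂ w - b)) + c * (h₁ w - a))
        (volume.restrict V) := huv.neg.add (hui.const_mul c)
    have I3 : ∫ w in V, (-((h₁ w - a) * (h₂ w - b)) + c * (h₁ w - a)) = 0 := by
      have h := integral_add huv.neg (hui.const_mul c)
      have h' : ∫ w in V, (-((h₁ w - a) * (h₂ w - b)) + c * (h₁ w - a)) =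
          (∫ w in V, -((h₁ w - a) * (h₂ w - b))) + ∫ w in V, c * (h₁ w - a) := h
      rw [h', integral_neg, integral_const_mul, I1, I2]
      simp
    have I4 : ∫ w in V, (-((h₁ w - a) * (h₂ w - b)) + c * (h₁ w - a)).re = 0 := by
      have h := integral_re hint
      have h' : ∫ w in V, (-((h₁ w - a) * (h₂ w - b)) + c * (h₁ w - a)).re =
          (∫ w in V, (-((h₁ w - a) * (h₂ w - b)) + c * (h₁ w - a))).re := h
      rw [h', I3]
      simp
    have hre : Integrable (fun w => (-((h₁ w - a) * (h₂ w - b)) + c * (h₁ w - a)).re)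
        (volume.restrict V) := hint.re
    calc ∫ w in V, ‖h₁ w - a‖ ^ 2
        = ∫ w in V, (‖h₁ w - a‖ ^ 2 +
            2 * (-((h₁ w - a) * (h₂ w - b)) + c * (h₁ w - a)).re) := by
          rw [integral_add (hsq hu) (hre.const_mul 2), integral_const_mul, I4]
          simp
      _ ≤ ∫ w in V, ‖h₁ w - (starRingEnd ℂ) (h₂ w)‖ ^ 2 := by
          refine integral_mono ((hsq hu).add (hre.const_mul 2)) (hsq h12) ?_
          intro w
          exact F1b_pointwise a b (h₁ w) (h₂ w)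
  have h3 := osc_sq_le hV0 hV1 hf a
  rw [hVv] at h3
  refine h3.trans ?_
  -- triangle inequalities
  have t2 : ∀ x y : ℂ, ‖x + y‖ ^ 2 ≤ 2 * ‖x‖ ^ 2 + 2 * ‖y‖ ^ 2 := by
    intro x y
    have h5 : ‖x + y‖ ≤ ‖x‖ + ‖y‖ := norm_add_le x y
    have h6 : ‖x + y‖ ^ 2 ≤ (‖x‖ + ‖y‖) ^ 2 := pow_le_pow_left₀ (norm_nonneg _) h5 2
    nlinarith [sq_nonneg (‖x‖ - ‖y‖)]
  have e1 : ∫ w in V, ‖f w - a‖ ^ 2 ≤ 2 * (∫ w in V, ‖f w - h₁ w‖ ^ 2) +
      2 * ∫ w in V, ‖h₁ w - a‖ ^ 2 := by
    rw [← integral_const_mul, ← integral_const_mul,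
      ← integral_add ((hsq hf1).const_mul 2) ((hsq hu).const_mul 2)]
    refine integral_mono (hsq hfa) (((hsq hf1).const_mul 2).add ((hsq hu).const_mul 2)) ?_
    intro w
    have := t2 (f w - h₁ w) (h₁ w - a)
    simpa using this
  have e2 : ∫ w in V, ‖h₁ w - (starRingEnd ℂ) (h₂ w)‖ ^ 2 ≤
      2 * (∫ w in V, ‖f w - h₁ w‖ ^ 2) +
      2 * ∫ w in V, ‖(starRingEnd ℂ) (f w) - h₂ w‖ ^ 2 := by
    rw [← integral_const_mul, ← integral_const_mul,
      ← integral_add ((hsq hf1).const_mul 2) ((hsq hf2).const_mul 2)]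
    refine integral_mono (hsq h12) (((hsq hf1).const_mul 2).add ((hsq hf2).const_mul 2)) ?_
    intro w
    have h7 := t2 (h₁ w - f w) (f w - (starRingEnd ℂ) (h₂ w))
    have h8 : ‖f w - (starRingEnd ℂ) (h₂ w)‖ = ‖(starRingEnd ℂ) (f w) - h₂ w‖ := by
      rw [← Complex.norm_conj, map_sub, Complex.conj_conj]
    rw [h8, norm_sub_rev (h₁ w) (f w)] at h7
    simpa using h7
  have p1 : 0 ≤ ∫ w in V, ‖f w - h₁ w‖ ^ 2 := integral_nonneg (fun w => by positivity)
  have p2 : 0 ≤ ∫ w in V, ‖(starRingEnd ℂ) (f w) - h₂ w‖ ^ 2 :=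
    integral_nonneg (fun w => by positivity)
  linarith

end HankelSPC
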