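import Pool.Agent.Lib.MP_e1cf54_an.E7a
import Pool.Agent.Lib.MP_e1cf54_an.E7b
import Pool.Agent.Lib.MP_e1cf54_an.C6a
import Pool.Agent.Lib.MP_e1cf54_an.F1a
import Pool.Agent.Lib.MP_e1cf54_an.C2

/-! Row F2a: from MO to sums -/

open MeasureTheory Set Filter
open scoped ENNReal NNReal Topology ContDiff

namespace HankelSPC

variable {n : ℕ}

namespace Dom

theorem F2a_point (D : Dom n) (hM : D.MetricProp) {s₀ : ℝ} (h : D.Good s₀) {r : ℝ} (hr : 0 < r) :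
    ∃ t₁ : ℝ, 0 < t₁ ∧ t₁ ≤ s₀ ∧ ∀ s t : ℝ, 0 < s → s ≤ t → t ≤ t₁ → ∃ K : ℝ, 0 < K ∧
      ∀ a ∈ D.Ω, ∀ f : Cn n → ℂ, MemLp f 2 (volume.restrict D.Ω) → ∀ z ∈ D.B a (s / 8),
        z ∈ D.Ω ∧ D.δ z ≤ 2 * D.δ a ∧ osc f (D.B a t) ≤ K * MO D.Ω f r z := by
  obtain ⟨s₁, hs₁, hs₁', hsub⟩ := exists_B_subset_ball D hM h hr
  obtain ⟨C₁, hC₁, hvol⟩ := volume_B D
  obtain ⟨C₂, hC₂, hvol2⟩ := volume_ball D hM hr
  refine ⟨s₁ / 4, by positivity, by linarith, fun s t hs hst ht => ?_⟩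
  have ht0 : 0 < t := hs.trans_le hst
  refine ⟨Real.sqrt (C₁ * C₂ * 2 ^ (n + 1) * (t ^ (2 * n))⁻¹), Real.sqrt_pos.2 (by positivity),
    fun a ha f hf z hz => ?_⟩
  obtain ⟨hzΩ, hδ1, hδ2, -⟩ := h.sub a ha z (D.B_mono a (by linarith) hz)
  refine ⟨hzΩ, hδ1, ?_⟩
  have haz : a ∈ D.B z (2 * (s / 8)) := h.mem_symm ha (by linarith) hz
  have hBsub : D.B a t ⊆ HankelSPC.ball D.Ω z r := by
    have e1 := h.ball_trans hzΩ (t := t) (s := 2 * (s / 8)) (by linarith) haz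
    exact e1.trans ((D.B_mono z (by linarith)).trans (hsub z hzΩ))
  have hballΩ : HankelSPC.ball D.Ω z r ⊆ D.Ω := fun w hw => hw.1
  obtain ⟨v1, v2⟩ := hvol a ha t ht0
  obtain ⟨v3, v4⟩ := hvol2 z hzΩ
  have hδa : 0 < D.δ a := D.δ_pos ha
  have hδz : 0 < D.δ z := D.δ_pos hzΩ
  have htop1 : volume (D.B a t) ≠ ⊤ := (v2.trans_lt ENNReal.ofReal_lt_top).ne
  have htop2 : volume (HankelSPC.ball D.Ω z r) ≠ ⊤ := (v4.trans_lt ENNReal.ofReal_lt_top).ne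
  have hl : C₁⁻¹ * t ^ (2 * n) * D.δ a ^ (n + 1) ≤ (volume (D.B a t)).toReal :=
    (ENNReal.ofReal_le_iff_le_toReal htop1).1 v1
  have hu : (volume (HankelSPC.ball D.Ω z r)).toReal ≤ C₂ * D.δ z ^ (n + 1) :=
    ENNReal.toReal_le_of_le_ofReal (by positivity) v4
  have hVpos : 0 < (volume (D.B a t)).toReal := lt_of_lt_of_le (by positivity) hl
  have h0 : volume (D.B a t) ≠ 0 := fun hc => by
    rw [hc] at hVpos
    simp at hVpos
  have hmono := osc_mono (f := f) (D.isOpen_B a t).measurableSet hBsub h0 htop2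
    (hf.mono_measure (Measure.restrict_mono hballΩ le_rfl))
  rw [MO_eq_osc D.isOpen_Ω.measurableSet D.volume_Ω_pos.ne' D.volume_Ω_lt_top.ne]
  have hcomp : (volume (HankelSPC.ball D.Ω z r)).toReal ≤
      C₁ * C₂ * 2 ^ (n + 1) * (t ^ (2 * n))⁻¹ * (volume (D.B a t)).toReal := by
    have e1 : D.δ z ^ (n + 1) ≤ 2 ^ (n + 1) * D.δ a ^ (n + 1) := by
      rw [← mul_pow]
      exact pow_le_pow_left₀ hδz.le hδ1 _
    calc (volume (HankelSPC.ball D.Ω z r)).toReal ≤ C₂ * D.δ z ^ (n + 1) := hu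
      _ ≤ C₂ * (2 ^ (n + 1) * D.δ a ^ (n + 1)) := mul_le_mul_of_nonneg_left e1 hC₂.le
      _ = C₁ * C₂ * 2 ^ (n + 1) * (t ^ (2 * n))⁻¹ * (C₁⁻¹ * t ^ (2 * n) * D.δ a ^ (n + 1)) := by
          have : t ^ (2 * n) ≠ 0 := (pow_pos ht0 _).ne'
          field_simp
      _ ≤ _ := mul_le_mul_of_nonneg_left hl (by positivity)
  have hnn : 0 ≤ Real.sqrt (C₁ * C₂ * 2 ^ (n + 1) * (t ^ (2 * n))⁻¹) *
      osc f (HankelSPC.ball D.Ω z r) := mul_nonneg (Real.sqrt_nonneg _) (osc_nonneg _ _)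
  refine abs_le_of_sq_le_sq' ?_ hnn |>.2
  rw [mul_pow, Real.sq_sqrt (by positivity)]
  have e2 := hmono.trans (mul_le_mul_of_nonneg_left hcomp (sq_nonneg _))
  refine le_of_mul_le_mul_right (e2.trans (le_of_eq (by ring))) hVpos

/-- (a) If `MO_r(f) ∈ L^p(λ)` then `∑ osc(f; B(a, t))^p < ∞` for every lattice of mesh `s ≤ t`,
`t ≤ t₁(r)`. For `z ∈ B(a,s/8)`, `B(a,t) ⊆ D(z,r)` (`exists_B_subset_ball`, `ball_trans`) and the
volumes are comparable, so `osc(f;B(a,t)) ≤ C MO_r(f)(z)` (`osc_mono`); the balls `B(a,s/8)` are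
disjoint with `λ`-measure `≥ c` (`lintegral_lam`, `volume_B`). -/
theorem summable_osc (D : Dom n) (hM : D.MetricProp) (hK : D.KernelProp) {s₀ : ℝ} (h : D.Good s₀) {r : ℝ} (hr : 0 < r) :
    ∃ t₁ : ℝ, 0 < t₁ ∧ t₁ ≤ s₀ ∧ ∀ s t : ℝ, 0 < s → s ≤ t → t ≤ t₁ → ∀ A, D.Lattice s A →
      ∀ f : Cn n → ℂ, MemLp f 2 (volume.restrict D.Ω) → ∀ p : ℝ, 0 < p →
        MemLp (MO D.Ω f r) (ENNReal.ofReal p) (lam D.Ω) →
        Summable fun a : A => osc f (D.B a t) ^ p := by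
  obtain ⟨t₁, ht₁, ht₁', hpt⟩ := F2a_point D hM h hr
  refine ⟨t₁, ht₁, ht₁', fun s t hs hst ht A hA f hf p hp hMO => ?_⟩
  obtain ⟨K, hK0, hKpt⟩ := hpt s t hs hst ht
  obtain ⟨C, hC, hlam⟩ := lintegral_lam D hK
  obtain ⟨C₁, hC₁, hvol⟩ := volume_B D
  have hcount : Countable A := (Lattice.countable hs hA).to_subtype
  -- the integral of `MO ^ p`
  have hp0 : ENNReal.ofReal p ≠ 0 := by simpa using hp
  have hfin : ∫⁻ z, ‖MO D.Ω f r z‖ₑ ^ p ∂(lam D.Ω) < ⊤ := by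
    have := lintegral_rpow_enorm_lt_top_of_eLpNorm_lt_top hp0 ENNReal.ofReal_ne_top hMO.2
    rwa [ENNReal.toReal_ofReal hp.le] at this
  have hfin2 : ∫⁻ z in D.Ω, ‖MO D.Ω f r z‖ₑ ^ p * ENNReal.ofReal ((D.δ z)⁻¹ ^ (n + 1)) < ⊤ :=
    (hlam _).2.trans_lt (ENNReal.mul_lt_top ENNReal.ofReal_lt_top hfin)
  -- the disjoint balls
  have hunion : ∑' a : A, ∫⁻ z in D.B a (s / 8), ‖MO D.Ω f r z‖ₑ ^ p *
      ENNReal.ofReal ((D.δ z)⁻¹ ^ (n + 1)) < ⊤ := by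
    rw [← lintegral_iUnion (fun a : A => (D.isOpen_B a (s / 8)).measurableSet)]
    · refine (lintegral_mono_set ?_).trans_lt hfin2
      refine iUnion_subset fun a => h.B_subset (hA.subset a.2) (by linarith)
    · intro a b hab
      exact hA.disj a.2 b.2 fun hc => hab (Subtype.ext hc)
  -- lower bound for each ball
  obtain ⟨c, hc, hcdef⟩ : ∃ c : ℝ, 0 < c ∧ c = (K ^ p)⁻¹ * (2 ^ (n + 1))⁻¹ * (C₁⁻¹ * (s / 8) ^ (2 * n)) :=
    ⟨_, by positivity, rfl⟩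
  have hlow : ∀ a : A, ENNReal.ofReal c * ENNReal.ofReal (osc f (D.B a t) ^ p) ≤
      ∫⁻ z in D.B a (s / 8), ‖MO D.Ω f r z‖ₑ ^ p * ENNReal.ofReal ((D.δ z)⁻¹ ^ (n + 1)) := by
    intro a
    have haΩ := hA.subset a.2
    have hδa : 0 < D.δ a := D.δ_pos haΩ
    have hosc : 0 ≤ osc f (D.B a t) := osc_nonneg _ _
    have e1 : ∀ z ∈ D.B a (s / 8), ENNReal.ofReal ((osc f (D.B a t) / K) ^ p *
        ((2 * D.δ a)⁻¹ ^ (n + 1))) ≤
        ‖MO D.Ω f r z‖ₑ ^ p * ENNReal.ofReal ((D.δ z)⁻¹ ^ (n + 1)) := by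
      intro z hz
      obtain ⟨hzΩ, hδ1, hle⟩ := hKpt a haΩ f hf z hz
      have hδz : 0 < D.δ z := D.δ_pos hzΩ
      rw [ENNReal.ofReal_mul (by positivity)]
      refine mul_le_mul' ?_ (ENNReal.ofReal_le_ofReal ?_)
      · have hMO0 : 0 ≤ MO D.Ω f r z := Real.sqrt_nonneg _
        rw [Real.enorm_of_nonneg hMO0, ENNReal.ofReal_rpow_of_nonneg hMO0 hp.le]
        refine ENNReal.ofReal_le_ofReal (Real.rpow_le_rpow (by positivity) ?_ hp.le)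
        rw [div_le_iff₀ hK0, mul_comm]
        exact hle
      · exact pow_le_pow_left₀ (by positivity) (inv_anti₀ hδz hδ1) _
    have e2 : ENNReal.ofReal ((osc f (D.B a t) / K) ^ p * ((2 * D.δ a)⁻¹ ^ (n + 1))) *
        volume (D.B a (s / 8)) ≤
        ∫⁻ z in D.B a (s / 8), ‖MO D.Ω f r z‖ₑ ^ p * ENNReal.ofReal ((D.δ z)⁻¹ ^ (n + 1)) := by
      rw [← setLIntegral_const]
      exact setLIntegral_mono' (D.isOpen_B a (s / 8)).measurableSet e1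
    refine le_trans ?_ e2
    refine le_trans (le_of_eq ?_) (mul_le_mul_right (hvol a haΩ (s / 8) (by linarith)).1 _)
    rw [← ENNReal.ofReal_mul hc.le, ← ENNReal.ofReal_mul (by positivity)]
    congr 1
    rw [hcdef, Real.div_rpow hosc hK0.le]
    have : (K ^ p) ≠ 0 := (Real.rpow_pos_of_pos hK0 p).ne'
    rw [inv_pow, mul_pow]
    field_simp
  have hsum : ∑' a : A, ENNReal.ofReal (osc f (D.B a t) ^ p) ≠ ⊤ := by
    have e1 : ENNReal.ofReal c * ∑' a : A, ENNReal.ofReal (osc f (D.B a t) ^ p) < ⊤ := by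
      rw [← ENNReal.tsum_mul_left]
      exact (ENNReal.tsum_le_tsum hlow).trans_lt hunion
    intro hcon
    rw [hcon, ENNReal.mul_top (by simpa using hc)] at e1
    exact lt_irrefl _ e1
  have := ENNReal.summable_toReal hsum
  refine this.congr fun a => ?_
  exact ENNReal.toReal_ofReal (Real.rpow_nonneg (osc_nonneg _ _) _)

end Dom

end HankelSPC
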