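import Pool.Agent.Lib.MP_e1cf54_an.E7a
import Pool.Agent.Lib.MP_e1cf54_an.F1a
import Pool.Agent.Lib.MP_e1cf54_an.C6b

/-! Row F2b: MO pointwise -/

open MeasureTheory Set Filter
open scoped ENNReal NNReal Topology ContDiff

namespace HankelSPC

variable {n : ℕ}

lemma F2b_cover {ι : Type*} (F : Finset ι) (S : ι → Set (Cn n)) (D : Set (Cn n))
    (hD : D ⊆ ⋃ a ∈ F, S a) (g : Cn n → ℝ) (hg : ∀ w, 0 ≤ g w)
    (hi : ∀ a ∈ F, IntegrableOn g (S a)) :
    ∫ w in D, g w ≤ ∑ a ∈ F, ∫ w in S a, g w := by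
  have h1 : volume.restrict D ≤ ∑ a ∈ F, volume.restrict (S a) := by
    rw [Measure.le_iff]
    intro E hE
    rw [Measure.restrict_apply hE, Measure.finsetSum_apply]
    calc volume (E ∩ D) ≤ volume (⋃ a ∈ F, (E ∩ S a)) := by
          refine measure_mono ?_
          intro x hx
          have h2 := hD hx.2
          simp only [mem_iUnion] at h2 ⊢
          obtain ⟨a, ha, hxa⟩ := h2
          exact ⟨a, ha, hx.1, hxa⟩
      _ ≤ ∑ a ∈ F, volume (E ∩ S a) := measure_biUnion_finset_le F _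
      _ = ∑ a ∈ F, (volume.restrict (S a)) E :=
          Finset.sum_congr rfl fun a _ => (Measure.restrict_apply hE).symm
  rw [← integral_finsetSum_measure hi]
  refine integral_mono_measure h1 (Eventually.of_forall hg) ?_
  exact integrable_finsetSum_measure.2 hi

lemma F2b_sq {x y vS vT K : ℝ} (_ : 0 ≤ x) (hy : 0 ≤ y) (hS : 0 < vS) (hK : 0 ≤ K)
    (h : x ^ 2 * vS ≤ y ^ 2 * vT) (hT : vT ≤ K * vS) : x ≤ (K + 1) * y := by
  have h1 : x ^ 2 * vS ≤ (K * y ^ 2) * vS := by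
    calc x ^ 2 * vS ≤ y ^ 2 * vT := h
      _ ≤ y ^ 2 * (K * vS) := mul_le_mul_of_nonneg_left hT (sq_nonneg y)
      _ = (K * y ^ 2) * vS := by ring
  have h2 : x ^ 2 ≤ K * y ^ 2 := le_of_mul_le_mul_right h1 hS
  have h3 : x ^ 2 ≤ ((K + 1) * y) ^ 2 := by
    have : 0 ≤ (K ^ 2 + K + 1) * y ^ 2 := by positivity
    nlinarith
  exact le_of_sq_le_sq h3 (by positivity)

namespace Dom

/-- points of a chain -/
lemma F2b_chain (D : Dom n) {s₀ s : ℝ} (h : D.Good s₀) (hs : 0 < s) (hs' : s ≤ s₀)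
    (x : ℕ → Cn n) (hx : ∀ i, x i ∈ D.Ω) (hstep : ∀ i, x (i + 1) ∈ D.B (x i) s) (i : ℕ) :
    D.δ (x 0) ≤ 2 ^ i * D.δ (x i) ∧ D.δ (x i) ≤ 2 ^ i * D.δ (x 0) ∧
      (∀ X, D.nrm (x 0) X ≤ 2 ^ i * D.nrm (x i) X) ∧
      D.nrm (x 0) (x i - x 0) ≤ 2 ^ i * s := by
  induction i with
  | zero =>
    refine ⟨by simp, by simp, fun X => by simp, ?_⟩
    rw [sub_self, map_zero]
    positivity
  | succ i ih =>
    obtain ⟨a1, a2, a3, a4⟩ := ih
    obtain ⟨_, b1, b2, b3⟩ := h.sub (x i) (hx i) (x (i + 1)) (D.B_mono _ hs' (hstep i))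
    have hp : (0 : ℝ) < 2 ^ i := by positivity
    have c1 : D.nrm (x i) (x (i + 1) - x i) ≤ s := (D.mem_B.1 (hstep i)).le
    refine ⟨?_, ?_, ?_, ?_⟩
    · calc D.δ (x 0) ≤ 2 ^ i * D.δ (x i) := a1
        _ ≤ 2 ^ i * (2 * D.δ (x (i + 1))) := mul_le_mul_of_nonneg_left b2 hp.le
        _ = _ := by ring
    · calc D.δ (x (i + 1)) ≤ 2 * D.δ (x i) := b1
        _ ≤ 2 * (2 ^ i * D.δ (x 0)) := mul_le_mul_of_nonneg_left a2 (by norm_num)
        _ = _ := by ring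
    · intro X
      calc D.nrm (x 0) X ≤ 2 ^ i * D.nrm (x i) X := a3 X
        _ ≤ 2 ^ i * (2 * D.nrm (x (i + 1)) X) := mul_le_mul_of_nonneg_left (b3 X).2 hp.le
        _ = _ := by ring
    · have e : x (i + 1) - x 0 = (x (i + 1) - x i) + (x i - x 0) := by abel
      calc D.nrm (x 0) (x (i + 1) - x 0)
          ≤ D.nrm (x 0) (x (i + 1) - x i) + D.nrm (x 0) (x i - x 0) := by
            rw [e]; exact map_add_le_add _ _ _
        _ ≤ 2 ^ i * D.nrm (x i) (x (i + 1) - x i) + 2 ^ i * s := add_le_add (a3 _) a4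
        _ ≤ 2 ^ i * s + 2 ^ i * s := by
            have := mul_le_mul_of_nonneg_left c1 hp.le
            linarith
        _ = _ := by ring

/-- a ball of the next lattice point is contained in the large ball -/
lemma F2b_sub (D : Dom n) {s₀ s : ℝ} (h : D.Good s₀) (hs : 0 < s) (hs' : 32 * s ≤ s₀)
    {a a' x x' : Cn n} (ha : a ∈ D.Ω) (ha' : a' ∈ D.Ω) (hx : x ∈ D.B a s) (hx' : x' ∈ D.B a' s)
    (hxx : x' ∈ D.B x s) (hxΩ : x ∈ D.Ω) :
    D.B a' s ⊆ D.B a (32 * s) ∧ D.δ a ≤ 8 * D.δ a' := by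
  have hs1 : s ≤ s₀ := by linarith
  obtain ⟨_, p1, p2, p3⟩ := h.sub a ha x (D.B_mono _ hs1 hx)
  obtain ⟨_, q1, q2, q3⟩ := h.sub a' ha' x' (D.B_mono _ hs1 hx')
  obtain ⟨_, r1, r2, r3⟩ := h.sub x hxΩ x' (D.B_mono _ hs1 hxx)
  have hcmp : ∀ X, D.nrm a X ≤ 8 * D.nrm a' X := by
    intro X
    have e1 := (p3 X).2
    have e2 := (r3 X).2
    have e3 := (q3 X).1
    linarith
  refine ⟨?_, by linarith⟩
  intro v hv
  rw [mem_B] at hv hx hx' hxx ⊢
  have e : v - a = (v - a') + (-(x' - a')) + (x' - x) + (x - a) := by abel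
  have t1 : D.nrm a (v - a) ≤ D.nrm a (v - a') + D.nrm a (-(x' - a')) + D.nrm a (x' - x)
      + D.nrm a (x - a) := by
    rw [e]
    refine (map_add_le_add _ _ _).trans (add_le_add ?_ le_rfl)
    refine (map_add_le_add _ _ _).trans (add_le_add ?_ le_rfl)
    exact map_add_le_add _ _ _
  rw [map_neg_eq_map] at t1
  have t2 := hcmp (v - a')
  have t3 := hcmp (x' - a')
  have t4 := (p3 (x' - x)).2
  linarith

/-- (b1) Pointwise: `MO_r(f)(z)` is bounded by the oscillations over the balls `B(a,32s)` with `a`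
in a finite set of lattice points near `z` of bounded cardinality.
Chains `z = x_0, …, x_M = w` (`exists_chain`), `x_i ∈ B(a_i,s)`; `B(a_{i+1},s) ⊆ B(a_i,32s)`
(`|v-a_i|_{a_i} ≤ 8s + 8s + 2s + s`), so `|av_{B(a_{i+1},s)} - av_{B(a_i,s)}| ≤ C osc(f;B(a_i,32s))`. -/
theorem MO_le_sum (D : Dom n) (hM : D.MetricProp) {s₀ s r : ℝ} (h : D.Good s₀) (hs : 0 < s) (hs' : 32 * s ≤ s₀)
    (hr : 0 < r) : ∃ (R C : ℝ) (M : ℕ), 1 ≤ R ∧ 0 < C ∧ ∀ A, D.Lattice s A → ∀ z ∈ D.Ω,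
      ∃ F : Finset (Cn n), ↑F ⊆ A ∧ F.card ≤ M ∧
        (∀ a ∈ F, D.nrm z (a - z) < R ∧ D.δ z ≤ R * D.δ a ∧ D.δ a ≤ R * D.δ z) ∧
        ∀ f : Cn n → ℂ, MemLp f 2 (volume.restrict D.Ω) →
          MO D.Ω f r z ≤ C * ∑ a ∈ F, osc f (D.B a (32 * s)) := by
  classical
  have hs1 : s ≤ s₀ := by linarith
  have hs2 : s ≤ 1 := hs1.trans h.le_one
  obtain ⟨M0, hchain⟩ := D.exists_chain hM h hs hs1 hr
  obtain ⟨Cv, hCv, hvol⟩ := D.volume_B
  obtain ⟨Cb, hCb, hvb⟩ := D.volume_ball hM hr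
  obtain ⟨R, hRd⟩ : ∃ R : ℝ, R = 3 * 2 ^ (M0 + 1) := ⟨_, rfl⟩
  have hR1 : 1 ≤ R := by
    rw [hRd]
    have : (1 : ℝ) ≤ 2 ^ (M0 + 1) := one_le_pow₀ (by norm_num)
    linarith
  obtain ⟨M, hM'⟩ := Lattice.count D h hs hs1 hR1
  -- the constants
  obtain ⟨K2, hK2⟩ : ∃ K2 : ℝ, K2 = Cv ^ 2 * 32 ^ (2 * n) * 8 ^ (n + 1) := ⟨_, rfl⟩
  have hK2p : 0 ≤ K2 := by rw [hK2]; positivity
  obtain ⟨K3, hK3⟩ : ∃ K3 : ℝ, K3 = Cv * (32 * s) ^ (2 * n) * R ^ (n + 1) := ⟨_, rfl⟩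
  have hK3p : 0 ≤ K3 := by rw [hK3]; positivity
  obtain ⟨K4, hK4⟩ : ∃ K4 : ℝ, K4 = M * (2 * K3 * (1 + (2 * (K2 + 1) * M0) ^ 2)) * Cb :=
    ⟨_, rfl⟩
  have hK4p : 0 ≤ K4 := by rw [hK4]; positivity
  refine ⟨R, K4 + 1, M, hR1, by linarith, ?_⟩
  intro A hA z hz
  -- the finite set
  obtain ⟨G, hG⟩ : ∃ G : Set (Cn n), G = {a | a ∈ A ∧ D.nrm z (a - z) < R ∧
    D.δ z ≤ R * D.δ a ∧ D.δ a ≤ R * D.δ z} := ⟨_, rfl⟩
  have hGcard : ∀ t : Finset (Cn n), ↑t ⊆ G → t.card ≤ M := by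
    intro t ht
    refine hM' A hA z hz t (fun a ha => ?_) (fun a ha => ?_)
    · have := ht ha
      rw [hG] at this
      exact this.1
    · have := ht ha
      rw [hG] at this
      exact ⟨this.2.1, this.2.2.1⟩
  have hGfin : G.Finite := by
    by_contra hinf
    obtain ⟨t, ht, htc⟩ := Set.Infinite.exists_subset_card_eq hinf (M + 1)
    have := hGcard t ht
    omega
  have memF : ∀ a, a ∈ hGfin.toFinset ↔ a ∈ A ∧ D.nrm z (a - z) < R ∧
      D.δ z ≤ R * D.δ a ∧ D.δ a ≤ R * D.δ z := by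
    intro a
    rw [Set.Finite.mem_toFinset, hG]
    rfl
  refine ⟨hGfin.toFinset, fun a ha => ((memF a).1 ha).1, hGcard _ (by simp), fun a ha =>
    ((memF a).1 ha).2, ?_⟩
  intro f hf
  generalize hFd : hGfin.toFinset = F at memF
  have hFcard : F.card ≤ M := by
    rw [← hFd]
    exact hGcard _ (by simp)
  -- nearest lattice points
  have hcov : ∀ x, ∃ a, x ∈ D.Ω → a ∈ A ∧ x ∈ D.B a s := by
    intro x
    by_cases hx : x ∈ D.Ω
    · obtain ⟨a, ha, hxa⟩ := hA.cover x hx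
      exact ⟨a, fun _ => ⟨ha, hxa⟩⟩
    · exact ⟨0, fun h => absurd h hx⟩
  choose φ hφ using hcov
  have hAΩ : ∀ a ∈ A, a ∈ D.Ω := fun a ha => hA.subset ha
  -- sum of the oscillations
  obtain ⟨Sg, hSg⟩ : ∃ Sg : ℝ, Sg = ∑ a ∈ F, osc f (D.B a (32 * s)) := ⟨_, rfl⟩
  have hSg0 : 0 ≤ Sg := hSg ▸ Finset.sum_nonneg fun a _ => osc_nonneg _ _
  have hosc : ∀ a ∈ F, osc f (D.B a (32 * s)) ≤ Sg := by
    intro a ha
    rw [hSg]
    exact Finset.single_le_sum (f := fun a => osc f (D.B a (32 * s)))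
      (fun a _ => osc_nonneg _ _) ha
  -- volumes
  have hvpos : ∀ a ∈ D.Ω, ∀ t, 0 < t → volume (D.B a t) ≠ 0 := by
    intro a ha t ht
    have h1 := (hvol a ha t ht).1
    have h2 : 0 < Cv⁻¹ * t ^ (2 * n) * D.δ a ^ (n + 1) := by
      have := D.δ_pos ha
      positivity
    intro h0
    rw [h0, nonpos_iff_eq_zero, ENNReal.ofReal_eq_zero] at h1
    linarith
  have hvtop : ∀ a ∈ D.Ω, ∀ t, 0 < t → volume (D.B a t) ≠ ⊤ := by
    intro a ha t ht h0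
    have h1 := (hvol a ha t ht).2
    rw [h0, top_le_iff] at h1
    exact ENNReal.ofReal_ne_top h1
  have hvr : ∀ a ∈ D.Ω, ∀ t, 0 < t → Cv⁻¹ * t ^ (2 * n) * D.δ a ^ (n + 1) ≤
      (volume (D.B a t)).toReal ∧
      (volume (D.B a t)).toReal ≤ Cv * t ^ (2 * n) * D.δ a ^ (n + 1) := by
    intro a ha t ht
    have hδ := D.δ_pos ha
    refine ⟨(ENNReal.ofReal_le_iff_le_toReal (hvtop a ha t ht)).1 (hvol a ha t ht).1, ?_⟩
    exact ENNReal.toReal_le_of_le_ofReal (by positivity) (hvol a ha t ht).2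
  have h32 : 0 < 32 * s := by linarith
  have hBΩ : ∀ a ∈ D.Ω, D.B a (32 * s) ⊆ D.Ω := fun a ha => h.B_subset ha hs'
  have hfB : ∀ a ∈ D.Ω, MemLp f 2 (volume.restrict (D.B a (32 * s))) := fun a ha =>
    hf.mono_measure (Measure.restrict_mono (hBΩ a ha) le_rfl)
  have hmeas : ∀ a t, MeasurableSet (D.B a t) := fun a t => (D.isOpen_B a t).measurableSet
  -- one step
  have hone : ∀ a ∈ F, ∀ a' ∈ F, D.δ a ≤ 8 * D.δ a' → D.B a' s ⊆ D.B a (32 * s) →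
      ‖av f (D.B a' s) - av f (D.B a (32 * s))‖ ≤ (K2 + 1) * Sg := by
    intro a ha a' ha' hδ hsub
    have haΩ := hAΩ a ((memF a).1 ha).1
    have haΩ' := hAΩ a' ((memF a').1 ha').1
    have h1 := av_sub_av (hmeas a' s) hsub (hvpos a' haΩ' s hs) (hvtop a haΩ _ h32) (hfB a haΩ)
    have hvS : 0 < (volume (D.B a' s)).toReal :=
      ENNReal.toReal_pos (hvpos a' haΩ' s hs) (hvtop a' haΩ' s hs)
    have hK : (volume (D.B a (32 * s))).toReal ≤ K2 * (volume (D.B a' s)).toReal := by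
      have hd' := D.δ_pos haΩ'
      have hd := D.δ_pos haΩ
      have e1 : D.δ a ^ (n + 1) ≤ 8 ^ (n + 1) * D.δ a' ^ (n + 1) := by
        rw [← mul_pow]
        exact pow_le_pow_left₀ hd.le hδ _
      calc (volume (D.B a (32 * s))).toReal ≤ Cv * (32 * s) ^ (2 * n) * D.δ a ^ (n + 1) :=
            (hvr a haΩ _ h32).2
        _ ≤ Cv * (32 * s) ^ (2 * n) * (8 ^ (n + 1) * D.δ a' ^ (n + 1)) :=
            mul_le_mul_of_nonneg_left e1 (by positivity)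
        _ = K2 * (Cv⁻¹ * s ^ (2 * n) * D.δ a' ^ (n + 1)) := by
            rw [hK2, mul_pow]
            field_simp
        _ ≤ _ := mul_le_mul_of_nonneg_left (hvr a' haΩ' s hs).1 hK2p
    have h2 := F2b_sq (norm_nonneg _) (osc_nonneg _ _) hvS hK2p h1 hK
    exact h2.trans (mul_le_mul_of_nonneg_left (hosc a ha) (by linarith))
  -- lattice points along chains
  have hmemF : ∀ (x : ℕ → Cn n), x 0 = z → (∀ i, x i ∈ D.Ω) →
      (∀ i, x (i + 1) ∈ D.B (x i) s) → ∀ i ≤ M0, φ (x i) ∈ F := by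
    intro x hx0 hxΩ hstep i hi
    obtain ⟨c1, c2, c3, c4⟩ := D.F2b_chain h hs hs1 x hxΩ hstep i
    rw [hx0] at c1 c2 c3 c4
    obtain ⟨hφA, hφB⟩ := hφ (x i) (hxΩ i)
    have hφΩ := hAΩ _ hφA
    obtain ⟨_, d1, d2, d3⟩ := h.sub (φ (x i)) hφΩ (x i) (D.B_mono _ hs1 hφB)
    have hp : (0 : ℝ) < 2 ^ i := by positivity
    have hle : (2 : ℝ) ^ i ≤ 2 ^ M0 := pow_le_pow_right₀ (by norm_num) hi
    have hδφ := D.δ_pos hφΩ
    have hδz := D.δ_pos hz
    have hRp : R = 6 * 2 ^ M0 := by rw [hRd]; ring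
    rw [memF]
    refine ⟨hφA, ?_, ?_, ?_⟩
    · have e : φ (x i) - z = (x i - z) + -(x i - φ (x i)) := by abel
      have e1 : D.nrm z (φ (x i) - z) ≤ D.nrm z (x i - z) + D.nrm z (x i - φ (x i)) := by
        rw [e]
        refine (map_add_le_add _ _ _).trans (le_of_eq ?_)
        rw [map_neg_eq_map]
      have e2 := c3 (x i - φ (x i))
      have e3 := (d3 (x i - φ (x i))).1
      have e4 : D.nrm (φ (x i)) (x i - φ (x i)) < s := D.mem_B.1 hφB
      have e5 : D.nrm z (x i - φ (x i)) ≤ 2 ^ i * (2 * s) :=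
        e2.trans (mul_le_mul_of_nonneg_left (by linarith) hp.le)
      have e6 : (2 : ℝ) ^ i * s ≤ 2 ^ M0 * 1 := mul_le_mul hle hs2 hs.le (by positivity)
      have e7 : (0 : ℝ) < 2 ^ M0 := by positivity
      rw [hRp]
      nlinarith
    · calc D.δ z ≤ 2 ^ i * D.δ (x i) := c1
        _ ≤ 2 ^ i * (2 * D.δ (φ (x i))) := mul_le_mul_of_nonneg_left d1 hp.le
        _ ≤ 2 ^ M0 * (2 * D.δ (φ (x i))) := mul_le_mul_of_nonneg_right hle (by positivity)
        _ ≤ R * D.δ (φ (x i)) := by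
            rw [hRp]
            have : 0 < (2 : ℝ) ^ M0 * D.δ (φ (x i)) := by positivity
            linarith
    · calc D.δ (φ (x i)) ≤ 2 * D.δ (x i) := d2
        _ ≤ 2 * (2 ^ i * D.δ z) := mul_le_mul_of_nonneg_left c2 (by norm_num)
        _ ≤ 2 * (2 ^ M0 * D.δ z) :=
            mul_le_mul_of_nonneg_left (mul_le_mul_of_nonneg_right hle hδz.le) (by norm_num)
        _ ≤ R * D.δ z := by
            rw [hRp]
            have : 0 < (2 : ℝ) ^ M0 * D.δ z := by positivity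
            linarith
  have hdiff : ∀ (x : ℕ → Cn n), x 0 = z → (∀ i, x i ∈ D.Ω) →
      (∀ i, x (i + 1) ∈ D.B (x i) s) → ∀ i ≤ M0,
      ‖av f (D.B (φ (x i)) (32 * s)) - av f (D.B (φ z) (32 * s))‖ ≤
        i * (2 * (K2 + 1) * Sg) := by
    intro x hx0 hxΩ hstep i
    induction i with
    | zero =>
      intro _
      rw [hx0, sub_self, norm_zero]
      simp
    | succ i ih =>
      intro hi
      have ih' := ih (by omega)
      have m1 := hmemF x hx0 hxΩ hstep i (by omega)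
      have m2 := hmemF x hx0 hxΩ hstep (i + 1) hi
      obtain ⟨hA1, hB1⟩ := hφ (x i) (hxΩ i)
      obtain ⟨hA2, hB2⟩ := hφ (x (i + 1)) (hxΩ (i + 1))
      obtain ⟨s1, s2⟩ := D.F2b_sub h hs hs' (hAΩ _ hA1) (hAΩ _ hA2) hB1 hB2 (hstep i) (hxΩ i)
      have o1 := hone _ m1 _ m2 s2 s1
      have hδ2 := D.δ_pos (hAΩ _ hA2)
      have o2 := hone _ m2 _ m2 (by linarith) (D.B_mono _ (by linarith))
      have e : av f (D.B (φ (x (i + 1))) (32 * s)) - av f (D.B (φ z) (32 * s)) =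
          -(av f (D.B (φ (x (i + 1))) s) - av f (D.B (φ (x (i + 1))) (32 * s))) +
          (av f (D.B (φ (x (i + 1))) s) - av f (D.B (φ (x i)) (32 * s))) +
          (av f (D.B (φ (x i)) (32 * s)) - av f (D.B (φ z) (32 * s))) := by ring
      rw [e]
      refine (norm_add_le _ _).trans ?_
      have e2 := norm_add_le (-(av f (D.B (φ (x (i + 1))) s) -
        av f (D.B (φ (x (i + 1))) (32 * s))))
        (av f (D.B (φ (x (i + 1))) s) - av f (D.B (φ (x i)) (32 * s)))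
      rw [norm_neg] at e2
      push_cast
      linarith
  -- the covering
  obtain ⟨c0, hc0⟩ : ∃ c0 : ℂ, c0 = av f (D.B (φ z) (32 * s)) := ⟨_, rfl⟩
  rw [← hc0] at hdiff
  obtain ⟨F', hF'⟩ : ∃ F' : Finset (Cn n), F' = F.filter (fun a =>
    ‖av f (D.B a (32 * s)) - c0‖ ≤ M0 * (2 * (K2 + 1) * Sg)) := ⟨_, rfl⟩
  have hcover : HankelSPC.ball D.Ω z r ⊆ ⋃ a ∈ F', D.B a s := by
    intro w hw
    obtain ⟨x, hx0, hxM, hxΩ, hstep⟩ := hchain z hz w hw
    have m := hmemF x hx0 hxΩ hstep M0 le_rfl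
    have d := hdiff x hx0 hxΩ hstep M0 le_rfl
    obtain ⟨_, hB1⟩ := hφ (x M0) (hxΩ M0)
    simp only [mem_iUnion]
    refine ⟨φ (x M0), ?_, ?_⟩
    · rw [hF', Finset.mem_filter]
      exact ⟨m, d⟩
    · rw [hxM] at hB1 ⊢
      exact hB1
  -- integrability
  have hint : ∀ a ∈ D.Ω, ∀ c : ℂ, IntegrableOn (fun w => ‖f w - c‖ ^ 2) (D.B a s) := by
    intro a ha c
    have h1 : MemLp f 2 (volume.restrict (D.B a s)) :=
      (hfB a ha).mono_measure (Measure.restrict_mono (D.B_mono _ (by linarith)) le_rfl)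
    have : IsFiniteMeasure (volume.restrict (D.B a s)) :=
      isFiniteMeasure_restrict.2 (hvtop a ha s hs)
    have h2 := h1.sub (memLp_const c)
    exact (memLp_two_iff_integrable_sq_norm h2.1).1 h2
  -- each small ball
  have hsmall : ∀ a ∈ F', ∫ w in D.B a s, ‖f w - c0‖ ^ 2 ≤
      2 * K3 * (1 + (2 * (K2 + 1) * M0) ^ 2) * D.δ z ^ (n + 1) * Sg ^ 2 := by
    intro a ha
    rw [hF', Finset.mem_filter] at ha
    obtain ⟨haF, had⟩ := ha
    have haΩ := hAΩ a ((memF a).1 haF).1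
    have hδR := ((memF a).1 haF).2.2.2
    have hvV : (volume (D.B a (32 * s))).toReal ≤ K3 * D.δ z ^ (n + 1) := by
      have e1 : D.δ a ^ (n + 1) ≤ R ^ (n + 1) * D.δ z ^ (n + 1) := by
        rw [← mul_pow]
        exact pow_le_pow_left₀ (D.δ_pos haΩ).le hδR _
      calc _ ≤ Cv * (32 * s) ^ (2 * n) * D.δ a ^ (n + 1) := (hvr a haΩ _ h32).2
        _ ≤ Cv * (32 * s) ^ (2 * n) * (R ^ (n + 1) * D.δ z ^ (n + 1)) :=
            mul_le_mul_of_nonneg_left e1 (by positivity)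
        _ = _ := by rw [hK3]; ring
    have hvv : (volume (D.B a s)).toReal ≤ (volume (D.B a (32 * s))).toReal :=
      ENNReal.toReal_mono (hvtop a haΩ _ h32) (measure_mono (D.B_mono _ (by linarith)))
    have i1 := integral_sub_av (hmeas a s) (D.B_mono a (by linarith : s ≤ 32 * s))
      (hvpos a haΩ s hs) (hvtop a haΩ _ h32) (hfB a haΩ)
    have i2 : ∫ w in D.B a s, ‖f w - c0‖ ^ 2 ≤ ∫ w in D.B a s,
        (2 * ‖f w - av f (D.B a (32 * s))‖ ^ 2 + 2 * ‖av f (D.B a (32 * s)) - c0‖ ^ 2) := by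
      have hfin : IsFiniteMeasure (volume.restrict (D.B a s)) :=
        isFiniteMeasure_restrict.2 (hvtop a haΩ s hs)
      refine integral_mono (hint a haΩ c0) (((hint a haΩ _).const_mul 2).add
        (integrable_const _)) ?_
      intro w
      show ‖f w - c0‖ ^ 2 ≤ 2 * ‖f w - av f (D.B a (32 * s))‖ ^ 2 +
        2 * ‖av f (D.B a (32 * s)) - c0‖ ^ 2
      have e1 : ‖f w - c0‖ ≤ ‖f w - av f (D.B a (32 * s))‖ +
          ‖av f (D.B a (32 * s)) - c0‖ := norm_sub_le_norm_sub_add_norm_sub _ _ _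
      have e2 := norm_nonneg (f w - c0)
      nlinarith [sq_nonneg (‖f w - av f (D.B a (32 * s))‖ - ‖av f (D.B a (32 * s)) - c0‖)]
    have i3 : ∫ w in D.B a s,
        (2 * ‖f w - av f (D.B a (32 * s))‖ ^ 2 + 2 * ‖av f (D.B a (32 * s)) - c0‖ ^ 2) =
        2 * (∫ w in D.B a s, ‖f w - av f (D.B a (32 * s))‖ ^ 2) +
          (volume (D.B a s)).toReal * (2 * ‖av f (D.B a (32 * s)) - c0‖ ^ 2) := by
      have hfin : IsFiniteMeasure (volume.restrict (D.B a s)) :=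
        isFiniteMeasure_restrict.2 (hvtop a haΩ s hs)
      rw [integral_add ((hint a haΩ _).const_mul 2) (integrable_const _), integral_const_mul,
        setIntegral_const, smul_eq_mul]
      rfl
    rw [i3] at i2
    have j1 : osc f (D.B a (32 * s)) ^ 2 ≤ Sg ^ 2 :=
      pow_le_pow_left₀ (osc_nonneg _ _) (hosc a haF) 2
    have j2 : ‖av f (D.B a (32 * s)) - c0‖ ^ 2 ≤ (M0 * (2 * (K2 + 1) * Sg)) ^ 2 :=
      pow_le_pow_left₀ (norm_nonneg _) had 2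
    have hδ0 : 0 < D.δ z ^ (n + 1) := pow_pos (D.δ_pos hz) _
    have j3 : osc f (D.B a (32 * s)) ^ 2 * (volume (D.B a (32 * s))).toReal ≤
        Sg ^ 2 * (K3 * D.δ z ^ (n + 1)) :=
      mul_le_mul j1 hvV ENNReal.toReal_nonneg (sq_nonneg _)
    have j4 : (volume (D.B a s)).toReal * (2 * ‖av f (D.B a (32 * s)) - c0‖ ^ 2) ≤
        (K3 * D.δ z ^ (n + 1)) * (2 * (M0 * (2 * (K2 + 1) * Sg)) ^ 2) :=
      mul_le_mul (hvv.trans hvV) (by linarith) (by positivity) (by positivity)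
    calc _ ≤ _ := i2
      _ ≤ 2 * (Sg ^ 2 * (K3 * D.δ z ^ (n + 1))) +
          (K3 * D.δ z ^ (n + 1)) * (2 * (M0 * (2 * (K2 + 1) * Sg)) ^ 2) := by linarith
      _ = _ := by ring
  -- conclusion
  have hballΩ : HankelSPC.ball D.Ω z r ⊆ D.Ω := fun w hw => hw.1
  have hv0 : volume (HankelSPC.ball D.Ω z r) ≠ 0 := by
    have h1 := (hvb z hz).1
    have h2 : 0 < Cb⁻¹ * D.δ z ^ (n + 1) := by
      have := D.δ_pos hz
      positivity
    intro h0
    rw [h0, nonpos_iff_eq_zero, ENNReal.ofReal_eq_zero] at h1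
    linarith
  have hv1 : volume (HankelSPC.ball D.Ω z r) ≠ ⊤ := by
    intro h0
    have h1 := (hvb z hz).2
    rw [h0, top_le_iff] at h1
    exact ENNReal.ofReal_ne_top h1
  have hfball : MemLp f 2 (volume.restrict (HankelSPC.ball D.Ω z r)) :=
    hf.mono_measure (Measure.restrict_mono hballΩ le_rfl)
  have k1 := osc_sq_le hv0 hv1 hfball c0
  have k2 : ∫ w in HankelSPC.ball D.Ω z r, ‖f w - c0‖ ^ 2 ≤
      ∑ a ∈ F', ∫ w in D.B a s, ‖f w - c0‖ ^ 2 := by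
    refine F2b_cover F' (fun a => D.B a s) _ hcover _ (fun w => sq_nonneg _) ?_
    intro a ha
    rw [hF', Finset.mem_filter] at ha
    exact hint a (hAΩ a ((memF a).1 ha.1).1) c0
  have k3 := Finset.sum_le_card_nsmul F' _ _ hsmall
  have k4 : (F'.card : ℝ) ≤ M := by
    have : F'.card ≤ F.card := by
      rw [hF']
      exact Finset.card_filter_le _ _
    exact_mod_cast this.trans hFcard
  have hδ0 : 0 < D.δ z ^ (n + 1) := pow_pos (D.δ_pos hz) _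
  have k5 : osc f (HankelSPC.ball D.Ω z r) ^ 2 * (volume (HankelSPC.ball D.Ω z r)).toReal ≤
      Sg ^ 2 * (M * (2 * K3 * (1 + (2 * (K2 + 1) * M0) ^ 2)) * D.δ z ^ (n + 1)) := by
    refine k1.trans (k2.trans (k3.trans ?_))
    rw [nsmul_eq_mul]
    have hp : 0 ≤ 2 * K3 * (1 + (2 * (K2 + 1) * M0) ^ 2) * D.δ z ^ (n + 1) * Sg ^ 2 := by
      positivity
    calc (F'.card : ℝ) * (2 * K3 * (1 + (2 * (K2 + 1) * M0) ^ 2) * D.δ z ^ (n + 1) * Sg ^ 2)
        ≤ M * (2 * K3 * (1 + (2 * (K2 + 1) * M0) ^ 2) * D.δ z ^ (n + 1) * Sg ^ 2) :=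
          mul_le_mul_of_nonneg_right k4 hp
      _ = _ := by ring
  have k6 : M * (2 * K3 * (1 + (2 * (K2 + 1) * M0) ^ 2)) * D.δ z ^ (n + 1) ≤
      K4 * (volume (HankelSPC.ball D.Ω z r)).toReal := by
    have h1 : Cb⁻¹ * D.δ z ^ (n + 1) ≤ (volume (HankelSPC.ball D.Ω z r)).toReal :=
      (ENNReal.ofReal_le_iff_le_toReal hv1).1 (hvb z hz).1
    calc M * (2 * K3 * (1 + (2 * (K2 + 1) * M0) ^ 2)) * D.δ z ^ (n + 1)
        = K4 * (Cb⁻¹ * D.δ z ^ (n + 1)) := by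
          rw [hK4]
          field_simp
      _ ≤ _ := mul_le_mul_of_nonneg_left h1 hK4p
  have k7 := F2b_sq (osc_nonneg _ _) hSg0 (ENNReal.toReal_pos hv0 hv1) hK4p k5 k6
  rw [MO_eq_osc D.isOpen_Ω.measurableSet D.volume_Ω_pos.ne' D.volume_Ω_lt_top.ne, ← hSg]
  exact k7

end Dom

end HankelSPC
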