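import Pool.Agent.Lib.MP_e1cf54_an.F2b
import Pool.Agent.Lib.MP_e1cf54_an.E7b
import Pool.Agent.Lib.MP_e1cf54_an.E8

/-! Row F2c: from sums to MO -/

open MeasureTheory Set Filter
open scoped ENNReal NNReal Topology ContDiff

namespace HankelSPC

variable {n : ℕ}

/-- power of a sum of boundedly many terms -/
lemma F2c_sum_rpow {ι : Type*} (F : Finset ι) (M : ℕ) (hF : F.card ≤ M) (y : ι → ℝ≥0∞) {p : ℝ}
    (hp : 0 < p) : (∑ a ∈ F, y a) ^ p ≤ (M : ℝ≥0∞) ^ p * ∑ a ∈ F, y a ^ p := by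
  rcases F.eq_empty_or_nonempty with rfl | hne
  · simp [ENNReal.zero_rpow_of_pos hp]
  · obtain ⟨b, hb, hmax⟩ := Finset.exists_max_image F y hne
    have h1 : ∑ a ∈ F, y a ≤ (M : ℝ≥0∞) * y b := by
      calc ∑ a ∈ F, y a ≤ ∑ a ∈ F, y b := Finset.sum_le_sum hmax
        _ = (F.card : ℝ≥0∞) * y b := by rw [Finset.sum_const, nsmul_eq_mul]
        _ ≤ (M : ℝ≥0∞) * y b := by gcongr
    calc (∑ a ∈ F, y a) ^ p ≤ ((M : ℝ≥0∞) * y b) ^ p := ENNReal.rpow_le_rpow h1 hp.le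
      _ = (M : ℝ≥0∞) ^ p * y b ^ p := ENNReal.mul_rpow_of_nonneg _ _ hp.le
      _ ≤ (M : ℝ≥0∞) ^ p * ∑ a ∈ F, y a ^ p := by
          gcongr
          exact Finset.single_le_sum (f := fun a => y a ^ p) (fun _ _ => bot_le) hb

namespace Dom

/-- exchange of the centre for comparable points -/
lemma F2c_mem_B (D : Dom n) {R : ℝ} (hR : 1 ≤ R) {a z : Cn n} (ha : a ∈ D.Ω) (hz : z ∈ D.Ω)
    (h1 : D.nrm z (a - z) < R) (h2 : D.δ z ≤ R * D.δ a) :
    z ∈ D.B a (R ^ 2 * (1 + D.L * R) + R ^ 2 + 1) := by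
  have hδa := D.δ_pos ha
  have hδz := D.δ_pos hz
  have hL : 1 ≤ D.L := D.L_ge
  have hsym : D.nrm z (z - a) = D.nrm z (a - z) := map_sub_rev _ _ _
  have e1 : ‖z - a‖ ≤ Real.sqrt (D.δ z) * R :=
    (D.norm_le_nrm hz (z - a)).trans
      (mul_le_mul_of_nonneg_left (by rw [hsym]; exact h1.le) (Real.sqrt_nonneg _))
  have e2 : ‖ell D.ρ z (z - a)‖ ≤ D.δ z * R :=
    (D.ell_le_nrm hz (z - a)).trans
      (mul_le_mul_of_nonneg_left (by rw [hsym]; exact h1.le) hδz.le)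
  have e3 : ‖ell D.ρ a (z - a) - ell D.ρ z (z - a)‖ ≤ D.L * (D.δ z * R ^ 2) := by
    refine (norm_ell_sub_le D.ρ a z (z - a)).trans ?_
    have e4 : ‖fderiv ℝ D.ρ a - fderiv ℝ D.ρ z‖ ≤ D.L * ‖z - a‖ := by
      have := D.lip1 a z
      rwa [norm_sub_rev a z] at this
    have e5 : ‖z - a‖ ^ 2 ≤ D.δ z * R ^ 2 := by
      calc ‖z - a‖ ^ 2 ≤ (Real.sqrt (D.δ z) * R) ^ 2 :=
            pow_le_pow_left₀ (norm_nonneg _) e1 2
        _ = D.δ z * R ^ 2 := by rw [mul_pow, Real.sq_sqrt hδz.le]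
    calc ‖fderiv ℝ D.ρ a - fderiv ℝ D.ρ z‖ * ‖z - a‖ ≤ D.L * ‖z - a‖ * ‖z - a‖ :=
          mul_le_mul_of_nonneg_right e4 (norm_nonneg _)
      _ = D.L * ‖z - a‖ ^ 2 := by ring
      _ ≤ D.L * (D.δ z * R ^ 2) := mul_le_mul_of_nonneg_left e5 (by linarith)
  have e6 : ‖ell D.ρ a (z - a)‖ ≤ D.δ z * (R * (1 + D.L * R)) := by
    calc ‖ell D.ρ a (z - a)‖ = ‖(ell D.ρ a (z - a) - ell D.ρ z (z - a)) + ell D.ρ z (z - a)‖ := by
          rw [sub_add_cancel]
      _ ≤ ‖ell D.ρ a (z - a) - ell D.ρ z (z - a)‖ + ‖ell D.ρ z (z - a)‖ := norm_add_le _ _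
      _ ≤ D.L * (D.δ z * R ^ 2) + D.δ z * R := add_le_add e3 e2
      _ = D.δ z * (R * (1 + D.L * R)) := by ring
  have e7 : ‖ell D.ρ a (z - a)‖ / D.δ a ≤ R ^ 2 * (1 + D.L * R) := by
    rw [div_le_iff₀ hδa]
    calc ‖ell D.ρ a (z - a)‖ ≤ D.δ z * (R * (1 + D.L * R)) := e6
      _ ≤ (R * D.δ a) * (R * (1 + D.L * R)) := mul_le_mul_of_nonneg_right h2 (by positivity)
      _ = R ^ 2 * (1 + D.L * R) * D.δ a := by ring
  have e8 : ‖z - a‖ / Real.sqrt (D.δ a) ≤ R ^ 2 := by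
    rw [div_le_iff₀ (Real.sqrt_pos.2 hδa)]
    have e9 : Real.sqrt (D.δ z) ≤ R * Real.sqrt (D.δ a) := by
      rw [Real.sqrt_le_left (by positivity), mul_pow, Real.sq_sqrt hδa.le]
      refine h2.trans (mul_le_mul_of_nonneg_right ?_ hδa.le)
      nlinarith
    calc ‖z - a‖ ≤ Real.sqrt (D.δ z) * R := e1
      _ ≤ (R * Real.sqrt (D.δ a)) * R := mul_le_mul_of_nonneg_right e9 (by linarith)
      _ = R ^ 2 * Real.sqrt (D.δ a) := by ring
  rw [D.mem_B, D.nrm_eq ha]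
  linarith

/-- (b2) If `∑ osc(f;B(a,32s))^p < ∞` then `MO_r(f) ∈ L^p(λ)`:
`∫ MO^p dλ ≤ ∑_b ∫_{B(b,s)} MO^p dλ ≤ C ∑_b ∑_{a ∈ N(b)} osc_a^p` with
`N(b) = {a ∈ A : |a-b|_b < R', δ comparable}`; each `a` belongs to boundedly many `N(b)`
(`Lattice.count`). -/
theorem memLp_MO (D : Dom n) (hM : D.MetricProp) (hK : D.KernelProp) {s₀ s r : ℝ} (h : D.Good s₀) (hs : 0 < s) (hs' : 32 * s ≤ s₀)
    (hr : 0 < r) {A : Set (Cn n)} (hA : D.Lattice s A) {f : Cn n → ℂ}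
    (hf : MemLp f 2 (volume.restrict D.Ω)) {p : ℝ} (hp : 0 < p)
    (hsum : Summable fun a : A => osc f (D.B a (32 * s)) ^ p) :
    MemLp (MO D.Ω f r) (ENNReal.ofReal p) (lam D.Ω) := by
  obtain ⟨R, C, M, hR, hC, hMO⟩ := D.MO_le_sum hM h hs hs' hr
  obtain ⟨C2, hC2, hvB⟩ := D.volume_B
  obtain ⟨C3, hC3, hlam⟩ := D.lintegral_lam hK
  have hcount : A.Countable := Lattice.countable hs hA
  have : Countable A := hcount.to_subtype
  refine ⟨D.measurable_MO hM ((memLp_vol_iff D.volume_Ω_pos.ne' D.volume_Ω_lt_top.ne).2 hf) r, ?_⟩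
  have hL : 1 ≤ D.L := D.L_ge
  set R' : ℝ := R ^ 2 * (1 + D.L * R) + R ^ 2 + 1 with hR'
  have hR'0 : 0 < R' := by positivity
  set x : Cn n → ℝ≥0∞ := fun a => ENNReal.ofReal (osc f (D.B a (32 * s))) ^ p with hx
  set c : Cn n → ℝ≥0∞ := fun a => ENNReal.ofReal ((R * (D.δ a)⁻¹) ^ (n + 1)) with hc
  set K : ℝ≥0∞ := ENNReal.ofReal C ^ p * (M : ℝ≥0∞) ^ p with hKd
  have hKtop : K ≠ ⊤ := ENNReal.mul_ne_top
    (ENNReal.rpow_ne_top_of_nonneg hp.le ENNReal.ofReal_ne_top)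
    (ENNReal.rpow_ne_top_of_nonneg hp.le (ENNReal.natCast_ne_top M))
  have hpt : ∀ z ∈ D.Ω, ‖MO D.Ω f r z‖ₑ ^ p * ENNReal.ofReal ((D.δ z)⁻¹ ^ (n + 1)) ≤
      K * ∑' a : A, x a * (D.B a R').indicator (fun _ => c a) z := by
    intro z hz
    obtain ⟨F, hFA, hFM, hF, hFf⟩ := hMO A hA z hz
    have hb := hFf f hf
    have hδz := D.δ_pos hz
    have h1 : ‖MO D.Ω f r z‖ₑ ^ p ≤ K * ∑ a ∈ F, x a := by
      have h2 : ‖MO D.Ω f r z‖ₑ ≤
          ENNReal.ofReal C * ∑ a ∈ F, ENNReal.ofReal (osc f (D.B a (32 * s))) := by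
        have h0 : 0 ≤ MO D.Ω f r z := Real.sqrt_nonneg _
        rw [Real.enorm_of_nonneg h0,
          ← ENNReal.ofReal_sum_of_nonneg (fun a _ => osc_nonneg f _), ← ENNReal.ofReal_mul hC.le]
        exact ENNReal.ofReal_le_ofReal hb
      calc ‖MO D.Ω f r z‖ₑ ^ p ≤
          (ENNReal.ofReal C * ∑ a ∈ F, ENNReal.ofReal (osc f (D.B a (32 * s)))) ^ p :=
            ENNReal.rpow_le_rpow h2 hp.le
        _ = ENNReal.ofReal C ^ p * (∑ a ∈ F, ENNReal.ofReal (osc f (D.B a (32 * s)))) ^ p :=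
            ENNReal.mul_rpow_of_nonneg _ _ hp.le
        _ ≤ ENNReal.ofReal C ^ p * ((M : ℝ≥0∞) ^ p *
            ∑ a ∈ F, ENNReal.ofReal (osc f (D.B a (32 * s))) ^ p) := by
            gcongr
            exact F2c_sum_rpow F M hFM _ hp
        _ = K * ∑ a ∈ F, x a := by rw [hKd, mul_assoc]
    have h3 : (∑ a ∈ F, x a) * ENNReal.ofReal ((D.δ z)⁻¹ ^ (n + 1)) ≤
        ∑ a ∈ F, x a * (D.B a R').indicator (fun _ => c a) z := by
      rw [Finset.sum_mul]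
      refine Finset.sum_le_sum fun a haF => ?_
      obtain ⟨f1, f2, f3⟩ := hF a haF
      have haΩ : a ∈ D.Ω := hA.subset (hFA haF)
      have hδa := D.δ_pos haΩ
      have hmem : z ∈ D.B a R' := D.F2c_mem_B hR haΩ hz f1 f2
      rw [Set.indicator_of_mem hmem]
      gcongr
      simp only [hc]
      apply ENNReal.ofReal_le_ofReal
      apply pow_le_pow_left₀ (by positivity)
      rw [← div_eq_mul_inv, le_div_iff₀ hδa, inv_mul_le_iff₀ hδz, mul_comm]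
      exact f3
    have h4 : ∑ a ∈ F, x a * (D.B a R').indicator (fun _ => c a) z ≤
        ∑' a : A, x a * (D.B a R').indicator (fun _ => c a) z := by
      classical
      rw [← Finset.sum_subtype_of_mem (p := fun a => a ∈ A)
        (fun a => x a * (D.B a R').indicator (fun _ => c a) z) (fun a ha => hFA ha)]
      exact ENNReal.sum_le_tsum
        (f := fun a : A => x a * (D.B a R').indicator (fun _ => c a) z) _
    calc ‖MO D.Ω f r z‖ₑ ^ p * ENNReal.ofReal ((D.δ z)⁻¹ ^ (n + 1)) ≤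
        (K * ∑ a ∈ F, x a) * ENNReal.ofReal ((D.δ z)⁻¹ ^ (n + 1)) := by gcongr
      _ = K * ((∑ a ∈ F, x a) * ENNReal.ofReal ((D.δ z)⁻¹ ^ (n + 1))) := by rw [mul_assoc]
      _ ≤ K * ∑' a : A, x a * (D.B a R').indicator (fun _ => c a) z := by
          gcongr
          exact h3.trans h4
  have hvol : ∀ a : A, c a * volume (D.B a R') ≤
      ENNReal.ofReal (R ^ (n + 1) * (C2 * R' ^ (2 * n))) := by
    intro a
    have haΩ : (a : Cn n) ∈ D.Ω := hA.subset a.2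
    have hδa := D.δ_pos haΩ
    refine (mul_le_mul_right (hvB a haΩ R' hR'0).2 _).trans ?_
    simp only [hc]
    rw [← ENNReal.ofReal_mul (by positivity)]
    apply ENNReal.ofReal_le_ofReal
    apply le_of_eq
    have hδn : D.δ a ^ (n + 1) ≠ 0 := (pow_pos hδa _).ne'
    rw [mul_pow, inv_pow]
    field_simp
  have hmeas : ∀ a : A, Measurable fun z => x a * (D.B a R').indicator (fun _ => c a) z := by
    intro a
    exact (measurable_const.indicator (D.isOpen_B a R').measurableSet).const_mul _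
  rw [eLpNorm_lt_top_iff_lintegral_rpow_enorm_lt_top (by simpa using hp) ENNReal.ofReal_ne_top,
    ENNReal.toReal_ofReal hp.le]
  refine lt_of_le_of_lt (hlam _).1 ?_
  refine ENNReal.mul_lt_top ENNReal.ofReal_lt_top ?_
  calc ∫⁻ z in D.Ω, ‖MO D.Ω f r z‖ₑ ^ p * ENNReal.ofReal ((D.δ z)⁻¹ ^ (n + 1))
      ≤ ∫⁻ z in D.Ω, K * ∑' a : A, x a * (D.B a R').indicator (fun _ => c a) z :=
        setLIntegral_mono' D.isOpen_Ω.measurableSet hpt
    _ ≤ ∫⁻ z, K * ∑' a : A, x a * (D.B a R').indicator (fun _ => c a) z :=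
        setLIntegral_le_lintegral _ _
    _ = K * ∑' a : A, ∫⁻ z, x a * (D.B a R').indicator (fun _ => c a) z := by
        rw [lintegral_const_mul' _ _ hKtop, lintegral_tsum fun a => (hmeas a).aemeasurable]
    _ = K * ∑' a : A, x a * (c a * volume (D.B a R')) := by
        congr 2
        funext a
        rw [lintegral_const_mul _ (measurable_const.indicator (D.isOpen_B a R').measurableSet),
          lintegral_indicator_const (D.isOpen_B a R').measurableSet]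
    _ ≤ K * ∑' a : A, x a * ENNReal.ofReal (R ^ (n + 1) * (C2 * R' ^ (2 * n))) := by
        gcongr with a
        exact hvol a
    _ = K * ((∑' a : A, x a) * ENNReal.ofReal (R ^ (n + 1) * (C2 * R' ^ (2 * n)))) := by
        rw [ENNReal.tsum_mul_right]
    _ < ⊤ := by
        refine ENNReal.mul_lt_top hKtop.lt_top (ENNReal.mul_lt_top ?_ ENNReal.ofReal_lt_top)
        have h5 : (fun a : A => x a) = fun a : A => ENNReal.ofReal (osc f (D.B a (32 * s)) ^ p) := by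
          funext a
          simp only [hx]
          rw [ENNReal.ofReal_rpow_of_nonneg (osc_nonneg f _) hp.le]
        have h6 : ∑' a : A, x a = ∑' a : A, ENNReal.ofReal (osc f (D.B a (32 * s)) ^ p) := by
          rw [h5]
        rw [h6]
        exact hsum.tsum_ofReal_lt_top

end Dom

end HankelSPC
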