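import Pool.Agent.Lib.MP_e1cf54_an.C1b

/-! Row F3a: bumps -/

open MeasureTheory Set Filter
open scoped ENNReal NNReal Topology ContDiff

namespace HankelSPC

variable {n : ℕ}

namespace Dom

/-- the linear map `T_a` -/
private noncomputable def F3a_T (D : Dom n) (a : Cn n) : Cn n →L[ℝ] (ℂ × Cn n) :=
  LinearMap.toContinuousLinearMap
    { toFun := fun X => (ell D.ρ a X / (D.δ a : ℂ), ((Real.sqrt (D.δ a))⁻¹ : ℝ) • X)
      map_add' := by
        intro X Y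
        ext1
        · simp only [ell_add, add_div, Prod.mk_add_mk]
        · simp only [smul_add, Prod.mk_add_mk]
      map_smul' := by
        intro c X
        have h1 : (c • X : Cn n) = (c : ℂ) • X := by
          ext i
          simp
        ext1
        · simp only [RingHom.id_apply, Prod.smul_mk]
          rw [h1, ell_smul, Complex.real_smul, mul_div_assoc]
        · simp only [RingHom.id_apply, Prod.smul_mk]
          rw [smul_comm] }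

private lemma F3a_T_apply (D : Dom n) (a X : Cn n) :
    F3a_T D a X = (ell D.ρ a X / (D.δ a : ℂ), ((Real.sqrt (D.δ a))⁻¹ : ℝ) • X) := rfl

private lemma F3a_T_norm (D : Dom n) {a : Cn n} (ha : a ∈ D.Ω) (X : Cn n) :
    ‖F3a_T D a X‖ ≤ D.nrm a X ∧ D.nrm a X ≤ 2 * ‖F3a_T D a X‖ := by
  have hδ : 0 < D.δ a := D.δ_pos ha
  have hs : 0 < Real.sqrt (D.δ a) := Real.sqrt_pos.mpr hδ
  have e1 : ‖ell D.ρ a X / (D.δ a : ℂ)‖ = ‖ell D.ρ a X‖ / D.δ a := by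
    rw [norm_div, Complex.norm_real, Real.norm_eq_abs, abs_of_pos hδ]
  have e2 : ‖((Real.sqrt (D.δ a))⁻¹ : ℝ) • X‖ = ‖X‖ / Real.sqrt (D.δ a) := by
    rw [norm_smul, Real.norm_eq_abs, abs_of_pos (inv_pos.mpr hs), div_eq_mul_inv, mul_comm]
  have p1 : 0 ≤ ‖ell D.ρ a X‖ / D.δ a := by positivity
  have p2 : 0 ≤ ‖X‖ / Real.sqrt (D.δ a) := by positivity
  rw [F3a_T_apply, Prod.norm_mk, e1, e2, D.nrm_eq ha]
  constructor
  · apply max_le
    · linarith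
    · linarith
  · have m1 := le_max_left (‖ell D.ρ a X‖ / D.δ a) (‖X‖ / Real.sqrt (D.δ a))
    have m2 := le_max_right (‖ell D.ρ a X‖ / D.δ a) (‖X‖ / Real.sqrt (D.δ a))
    linarith

/-- Smooth bump adapted to `B(a,s)`: `h_a(w) = Θ(T_a(w-a)/s)`, `T_a X = (∂ρ(a)(X)/δ(a), X/√δ(a))` in
`ℂ × ℂⁿ` (max norm: `|X|_a/2 ≤ ‖T_a X‖ ≤ |X|_a`), `Θ` a `ContDiffBump` (`rIn = 1`, `rOut = 2`). -/
theorem exists_bump (D : Dom n) {s : ℝ} (hs : 0 < s) : ∃ C : ℝ, 0 < C ∧ ∀ a ∈ D.Ω,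
    ∃ h : Cn n → ℝ, ContDiff ℝ ∞ h ∧ (∀ w, 0 ≤ h w ∧ h w ≤ 1) ∧ (∀ w ∈ D.B a s, h w = 1) ∧
      (∀ w, w ∉ D.B a (4 * s) → h w = 0) ∧ ∀ w X, |fderiv ℝ h w X| ≤ C * D.nrm a X := by
  let Θ : ContDiffBump (0 : ℂ × Cn n) := ⟨1, 2, by norm_num, by norm_num⟩
  have hΘ : ContDiff ℝ ∞ Θ := Θ.contDiff
  have hΘd : Continuous (fderiv ℝ Θ) := hΘ.continuous_fderiv (by norm_num)
  have hΘc : HasCompactSupport (fderiv ℝ Θ) := Θ.hasCompactSupport.fderiv (𝕜 := ℝ)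
  obtain ⟨C₀, hC₀⟩ := hΘd.bounded_above_of_compact_support hΘc
  have hC₀0 : 0 ≤ C₀ := (norm_nonneg _).trans (hC₀ 0)
  refine ⟨C₀ / s + 1, by positivity, ?_⟩
  intro a ha
  have hin : ContDiff ℝ ∞ (fun w : Cn n => (s⁻¹ : ℝ) • F3a_T D a (w - a)) := by
    apply ContDiff.const_smul
    exact (F3a_T D a).contDiff.comp (contDiff_id.sub contDiff_const)
  have hder : ∀ w, HasFDerivAt (fun w : Cn n => (s⁻¹ : ℝ) • F3a_T D a (w - a)) ((s⁻¹ : ℝ) • F3a_T D a) w := by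
    intro w
    have h1 : HasFDerivAt (fun w : Cn n => w - a) (ContinuousLinearMap.id ℝ (Cn n)) w :=
      (hasFDerivAt_id w).sub_const a
    have h2 := ((F3a_T D a).hasFDerivAt (x := w - a)).comp w h1
    exact h2.const_smul s⁻¹
  refine ⟨fun w => Θ ((s⁻¹ : ℝ) • F3a_T D a (w - a)), hΘ.comp hin, fun w => ⟨Θ.nonneg, Θ.le_one⟩, ?_, ?_, ?_⟩
  · intro w hw
    apply Θ.one_of_mem_closedBall
    rw [mem_closedBall_zero_iff, norm_smul, Real.norm_eq_abs, abs_of_pos (inv_pos.mpr hs)]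
    have h1 := (F3a_T_norm D ha (w - a)).1
    have h2 : D.nrm a (w - a) < s := D.mem_B.mp hw
    have h3 : ‖F3a_T D a (w - a)‖ ≤ s := by linarith
    show s⁻¹ * ‖F3a_T D a (w - a)‖ ≤ 1
    rw [inv_mul_le_iff₀ hs, mul_one]
    exact h3
  · intro w hw
    apply Θ.zero_of_le_dist
    rw [dist_zero_right, norm_smul, Real.norm_eq_abs, abs_of_pos (inv_pos.mpr hs)]
    have h1 := (F3a_T_norm D ha (w - a)).2
    have h2 : 4 * s ≤ D.nrm a (w - a) := by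
      by_contra hcon
      exact hw (D.mem_B.mpr (not_le.mp hcon))
    show 2 ≤ s⁻¹ * ‖F3a_T D a (w - a)‖
    rw [le_inv_mul_iff₀ hs]
    linarith
  · intro w X
    have h1 : HasFDerivAt (fun w => Θ ((s⁻¹ : ℝ) • F3a_T D a (w - a)))
        ((fderiv ℝ Θ ((s⁻¹ : ℝ) • F3a_T D a (w - a))).comp ((s⁻¹ : ℝ) • F3a_T D a)) w :=
      ((hΘ.differentiable (by norm_num)) _).hasFDerivAt.comp w (hder w)
    rw [h1.fderiv]
    have h2 : ‖(fderiv ℝ Θ ((s⁻¹ : ℝ) • F3a_T D a (w - a))) (((s⁻¹ : ℝ) • F3a_T D a) X)‖ ≤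
        C₀ * (s⁻¹ * D.nrm a X) := by
      refine (ContinuousLinearMap.le_opNorm _ _).trans ?_
      refine mul_le_mul (hC₀ _) ?_ (norm_nonneg _) hC₀0
      rw [ContinuousLinearMap.smul_apply, norm_smul, Real.norm_eq_abs, abs_of_pos (inv_pos.mpr hs)]
      exact mul_le_mul_of_nonneg_left (F3a_T_norm D ha X).1 (inv_pos.mpr hs).le
    have h3 : 0 ≤ D.nrm a X := apply_nonneg _ _
    calc |((fderiv ℝ Θ ((s⁻¹ : ℝ) • F3a_T D a (w - a))).comp ((s⁻¹ : ℝ) • F3a_T D a)) X|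
        ≤ C₀ * (s⁻¹ * D.nrm a X) := h2
      _ ≤ (C₀ / s + 1) * D.nrm a X := by
        have : (C₀ / s + 1) * D.nrm a X = C₀ * (s⁻¹ * D.nrm a X) + D.nrm a X := by
          rw [div_eq_mul_inv]
          ring
        rw [this]
        linarith

end Dom

end HankelSPC
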