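import Pool.Agent.Lib.MP_e1cf54_an.F3a
import Pool.Agent.Lib.MP_e1cf54_an.C6b
import Pool.Agent.Lib.MP_e1cf54_an.F1a
import Pool.Agent.Lib.MP_e1cf54_an.L1b

/-! Row F3b: decomposition -/

open MeasureTheory Set Filter
open scoped ENNReal NNReal Topology ContDiff

namespace HankelSPC

variable {n : ℕ}

namespace Dom

/-- the lattice points near `z`. -/
theorem F3b_finite (D : Dom n) {s₀ s : ℝ} (h : D.Good s₀) (hs : 0 < s)
    (hs' : 32 * s ≤ s₀) : ∃ M : ℕ, ∀ A, D.Lattice s A → ∀ z ∈ D.Ω, ∃ F : Finset (Cn n),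
      (∀ a, a ∈ F ↔ (a ∈ A ∧ a ∈ D.B z (17 * s))) ∧ F.card ≤ M := by
  obtain ⟨M, hM⟩ := Lattice.count D h hs (by linarith) (R := 2) (by norm_num)
  refine ⟨M, fun A hA z hz => ?_⟩
  have key : ∀ F : Finset (Cn n), (↑F : Set (Cn n)) ⊆ {a | a ∈ A ∧ a ∈ D.B z (17 * s)} →
      F.card ≤ M := by
    intro F hF
    refine hM A hA z hz F (fun a ha => (hF ha).1) (fun a ha => ?_)
    have h1 := (hF ha).2
    have h2 : a ∈ D.B z s₀ := D.B_mono z (by linarith) h1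
    have h3 := h.sub z hz a h2
    refine ⟨?_, h3.2.2.1⟩
    have := D.mem_B.1 h2
    linarith [h.le_one]
  have hfin : {a | a ∈ A ∧ a ∈ D.B z (17 * s)}.Finite := by
    by_contra hinf
    obtain ⟨F, hF1, hF2⟩ := Set.Infinite.exists_subset_card_eq hinf (M + 1)
    have := key F hF1
    omega
  refine ⟨hfin.toFinset, fun a => by simp, key _ (by simp)⟩

theorem F3b_near (D : Dom n) {s₀ s : ℝ} (h : D.Good s₀) (hs : 0 < s) (hs' : 32 * s ≤ s₀)
    {a z w : Cn n} (ha : a ∈ D.Ω) (hz : z ∈ D.Ω) (hw : w ∈ D.B z s) (hwa : w ∈ D.B a (4 * s)) :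
    a ∈ D.B z (17 * s) := by
  have h1 : a ∈ D.B w (2 * (4 * s)) := h.mem_symm ha (by linarith) hwa
  have h2 := h.ball_trans hz (t := 2 * (4 * s)) (by linarith) hw h1
  have h3 : s + 2 * (2 * (4 * s)) = 17 * s := by ring
  rwa [h3] at h2

theorem F3b_vol (D : Dom n) {s₀ s : ℝ} (h : D.Good s₀) (hs : 0 < s) (hs' : 32 * s ≤ s₀) :
    ∃ K : ℝ, 0 < K ∧ ∀ a₀ ∈ D.Ω, ∀ a ∈ D.B a₀ (17 * s),
      0 < (volume (D.B a s)).toReal ∧ volume (D.B a s) ≠ ⊤ ∧ volume (D.B a₀ (32 * s)) ≠ ⊤ ∧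
      (volume (D.B a₀ (32 * s))).toReal ≤ K ^ 2 * (volume (D.B a s)).toReal := by
  obtain ⟨C, hC, hvol⟩ := volume_B D
  refine ⟨Real.sqrt (C ^ 2 * 32 ^ (2 * n) * 2 ^ (n + 1)), Real.sqrt_pos.2 (by positivity),
    fun a₀ ha₀ a ha => ?_⟩
  have h1 : a ∈ D.B a₀ s₀ := D.B_mono a₀ (by linarith) ha
  obtain ⟨haΩ, -, hδ, -⟩ := h.sub a₀ ha₀ a h1
  obtain ⟨hv1, hv2⟩ := hvol a haΩ s hs
  obtain ⟨-, hv4⟩ := hvol a₀ ha₀ (32 * s) (by linarith)
  have hδa : 0 < D.δ a := D.δ_pos haΩ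
  have hδa₀ : 0 < D.δ a₀ := D.δ_pos ha₀
  have htop1 : volume (D.B a s) ≠ ⊤ := (hv2.trans_lt ENNReal.ofReal_lt_top).ne
  have htop2 : volume (D.B a₀ (32 * s)) ≠ ⊤ := (hv4.trans_lt ENNReal.ofReal_lt_top).ne
  have hl : C⁻¹ * s ^ (2 * n) * D.δ a ^ (n + 1) ≤ (volume (D.B a s)).toReal :=
    (ENNReal.ofReal_le_iff_le_toReal htop1).1 hv1
  have hu : (volume (D.B a₀ (32 * s))).toReal ≤ C * (32 * s) ^ (2 * n) * D.δ a₀ ^ (n + 1) :=
    ENNReal.toReal_le_of_le_ofReal (by positivity) hv4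
  refine ⟨lt_of_lt_of_le (by positivity) hl, htop1, htop2, ?_⟩
  rw [Real.sq_sqrt (by positivity)]
  have h2 : D.δ a₀ ^ (n + 1) ≤ 2 ^ (n + 1) * D.δ a ^ (n + 1) := by
    rw [← mul_pow]
    exact pow_le_pow_left₀ hδa₀.le hδ _
  calc (volume (D.B a₀ (32 * s))).toReal ≤ C * (32 * s) ^ (2 * n) * D.δ a₀ ^ (n + 1) := hu
    _ ≤ C * (32 * s) ^ (2 * n) * (2 ^ (n + 1) * D.δ a ^ (n + 1)) :=
        mul_le_mul_of_nonneg_left h2 (by positivity)
    _ = C ^ 2 * 32 ^ (2 * n) * 2 ^ (n + 1) * (C⁻¹ * s ^ (2 * n) * D.δ a ^ (n + 1)) := by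
        rw [mul_pow]
        field_simp
    _ ≤ C ^ 2 * 32 ^ (2 * n) * 2 ^ (n + 1) * (volume (D.B a s)).toReal :=
        mul_le_mul_of_nonneg_left hl (by positivity)

theorem F3b_ball (D : Dom n) {s₀ s : ℝ} (h : D.Good s₀) (hs : 0 < s) (hs' : 32 * s ≤ s₀)
    {a₀ a : Cn n} (ha₀ : a₀ ∈ D.Ω) (ha : a ∈ D.B a₀ (17 * s)) :
    D.B a s ⊆ D.B a₀ (32 * s) := by
  have h1 := h.ball_trans ha₀ (t := s) (by linarith) ha
  exact h1.trans (D.B_mono a₀ (by linarith))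

theorem F3b_av (D : Dom n) {s₀ s : ℝ} (h : D.Good s₀) (hs : 0 < s) (hs' : 32 * s ≤ s₀) :
    ∃ K : ℝ, 0 < K ∧ ∀ f : Cn n → ℂ, MemLp f 2 (volume.restrict D.Ω) → ∀ a₀ ∈ D.Ω,
      (∀ a ∈ D.B a₀ (17 * s), ‖av f (D.B a s) - av f (D.B a₀ (32 * s))‖
        ≤ K * osc f (D.B a₀ (32 * s))) ∧
      volume (D.B a₀ s) ≠ ⊤ ∧
      ∫ w in D.B a₀ s, ‖f w - av f (D.B a₀ (32 * s))‖ ^ 2
        ≤ K ^ 2 * osc f (D.B a₀ (32 * s)) ^ 2 * (volume (D.B a₀ s)).toReal := by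
  obtain ⟨K, hK, hvol⟩ := F3b_vol D h hs hs'
  refine ⟨K, hK, fun f hf a₀ ha₀ => ⟨fun a ha => ?_, ?_, ?_⟩⟩
  · obtain ⟨v1, v2, v3, v4⟩ := hvol a₀ ha₀ a ha
    have hfT : MemLp f 2 (volume.restrict (D.B a₀ (32 * s))) :=
      hf.mono_measure (Measure.restrict_mono (h.B_subset ha₀ hs') le_rfl)
    have h0 : volume (D.B a s) ≠ 0 := fun hc => by
      rw [hc] at v1
      simp at v1
    have h1 := av_sub_av (D.isOpen_B a s).measurableSet (F3b_ball D h hs hs' ha₀ ha) h0 v3 hfT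
    have h2 : ‖av f (D.B a s) - av f (D.B a₀ (32 * s))‖ ^ 2 * (volume (D.B a s)).toReal
        ≤ (K * osc f (D.B a₀ (32 * s))) ^ 2 * (volume (D.B a s)).toReal := by
      refine h1.trans ?_
      have := mul_le_mul_of_nonneg_left v4 (sq_nonneg (osc f (D.B a₀ (32 * s))))
      refine this.trans (le_of_eq (by ring))
    have h3 := le_of_mul_le_mul_right h2 v1
    exact abs_le_of_sq_le_sq' h3 (mul_nonneg hK.le (osc_nonneg _ _)) |>.2
  · exact (hvol a₀ ha₀ a₀ (D.self_mem_B a₀ (by linarith))).2.1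
  · obtain ⟨v1, v2, v3, v4⟩ := hvol a₀ ha₀ a₀ (D.self_mem_B a₀ (by linarith))
    have hfT : MemLp f 2 (volume.restrict (D.B a₀ (32 * s))) :=
      hf.mono_measure (Measure.restrict_mono (h.B_subset ha₀ hs') le_rfl)
    have h0 : volume (D.B a₀ s) ≠ 0 := fun hc => by
      rw [hc] at v1
      simp at v1
    have h1 := integral_sub_av (D.isOpen_B a₀ s).measurableSet
      (D.B_mono a₀ (show s ≤ 32 * s by linarith)) h0 v3 hfT
    refine h1.trans ?_
    have := mul_le_mul_of_nonneg_left v4 (sq_nonneg (osc f (D.B a₀ (32 * s))))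
    refine this.trans (le_of_eq (by ring))

/-- `χ_a = h_a / ∑_b h_b`, `f₁ = ∑_a χ_a av(f;B(a,s))` (locally finite sums: only boundedly many `a`
with `z ∈ B(a,4s)`; `Lattice.count`). For `z ∈ B(a₀,s)`:
`∂̄f₁(z) = ∑ ∂̄χ_a(z)(av_a - av_{a₀})` with `B(a,s) ⊆ B(a₀,32s)` for the contributing `a`
(`|v - a₀|_{a₀} ≤ 4s + 16s + s`), `|av_a - av_{a₀}| ≤ C osc(f;B(a₀,32s))` (`av_sub_av`,
`volume_B`), and `f - f₁ = (f - av_{a₀}) - ∑ χ_a (av_a - av_{a₀})`. -/
theorem exists_decomposition (D : Dom n) {s₀ s : ℝ} (h : D.Good s₀) (hs : 0 < s)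
    (hs' : 32 * s ≤ s₀) : ∃ C : ℝ, 0 < C ∧ ∀ A, D.Lattice s A → ∀ f : Cn n → ℂ,
      MemLp f 2 (volume.restrict D.Ω) → ∃ f₁ : Cn n → ℂ, D.Smoothing s C A f f₁ := by
  classical
  obtain ⟨M, hM⟩ := F3b_finite D h hs hs'
  obtain ⟨K, hK, hav⟩ := F3b_av D h hs hs'
  obtain ⟨Cb, hCb, hbump⟩ := exists_bump D hs
  choose! hh h1 h2 h3 h4 h5 using hbump
  refine ⟨8 * M * Cb * K + 4 * K ^ 2 + 1, by positivity, fun A hA f hf => ?_⟩
  choose! F hF hFM using hM A hA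
  obtain ⟨g, hg⟩ : ∃ g : Cn n → Cn n → ℝ, g = fun a z => if a ∈ A then hh a z else 0 := ⟨_, rfl⟩
  obtain ⟨Hs, hHsdef⟩ : ∃ Hs : Cn n → ℝ, Hs = fun z => ∑ᶠ a, g a z := ⟨_, rfl⟩
  obtain ⟨Ns, hNsdef⟩ : ∃ Ns : Cn n → ℂ, Ns = fun z => ∑ᶠ a, g a z • av f (D.B a s) := ⟨_, rfl⟩
  have hloc : ∀ z ∈ D.Ω, ∀ w ∈ D.B z s, ∀ a, a ∉ F z → g a w = 0 := by
    intro z hz w hw a ha
    rw [hg]
    by_cases haA : a ∈ A
    · have : w ∉ D.B a (4 * s) := fun hc =>
        ha ((hF z hz a).2 ⟨haA, F3b_near D h hs hs' (hA.subset haA) hz hw hc⟩)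
      simp only [if_pos haA]
      exact h4 a (hA.subset haA) w this
    · simp only [if_neg haA]
  have hHs : ∀ z ∈ D.Ω, ∀ w ∈ D.B z s, Hs w = ∑ a ∈ F z, hh a w := by
    intro z hz w hw
    have e1 : Hs w = ∑ a ∈ F z, g a w := by
      rw [hHsdef]
      apply finsum_eq_sum_of_support_subset
      intro a ha
      by_contra hc
      exact ha (hloc z hz w hw a hc)
    rw [e1]
    refine Finset.sum_congr rfl fun a ha => ?_
    rw [hg]
    simp only [if_pos ((hF z hz a).1 ha).1]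
  have hNs : ∀ z ∈ D.Ω, ∀ w ∈ D.B z s, Ns w = ∑ a ∈ F z, hh a w • av f (D.B a s) := by
    intro z hz w hw
    have e1 : Ns w = ∑ a ∈ F z, g a w • av f (D.B a s) := by
      rw [hNsdef]
      apply finsum_eq_sum_of_support_subset
      intro a ha
      by_contra hc
      apply ha
      show g a w • av f (D.B a s) = 0
      rw [hloc z hz w hw a hc, zero_smul]
    rw [e1]
    refine Finset.sum_congr rfl fun a ha => ?_
    rw [hg]
    simp only [if_pos ((hF z hz a).1 ha).1]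
  have hFΩ : ∀ z ∈ D.Ω, ∀ a ∈ F z, a ∈ D.Ω := fun z hz a ha => hA.subset ((hF z hz a).1 ha).1
  have hH1 : ∀ z ∈ D.Ω, 1 ≤ Hs z := by
    intro z hz
    rw [hHs z hz z (D.self_mem_B z hs)]
    obtain ⟨a, haA, hza⟩ := hA.cover z hz
    have haF : a ∈ F z := (hF z hz a).2 ⟨haA, F3b_near D h hs hs' (hA.subset haA) hz
      (D.self_mem_B z hs) (D.B_mono a (by linarith) hza)⟩
    have e1 : hh a z = 1 := h3 a (hA.subset haA) z hza
    rw [← e1]
    exact Finset.single_le_sum (f := fun a => hh a z)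
      (fun b hb => (h2 b (hFΩ z hz b hb) z).1) haF
  have hBΩ : ∀ z ∈ D.Ω, D.B z s ⊆ D.Ω := fun z hz => h.B_subset hz (by linarith)
  -- the function
  obtain ⟨f₁, hf₁⟩ : ∃ f₁ : Cn n → ℂ, f₁ = fun z => (Hs z)⁻¹ • Ns z := ⟨_, rfl⟩
  have hprod : ∀ z ∈ D.Ω, Hs z • f₁ z = Ns z := by
    intro z hz
    rw [hf₁]
    have : Hs z ≠ 0 := by linarith [hH1 z hz]
    simp only
    rw [smul_smul, mul_inv_cancel₀ this, one_smul]
  have hsmooth : ∀ z ∈ D.Ω, ContDiffAt ℝ 1 f₁ z := by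
    intro z hz
    have hev : f₁ =ᶠ[𝓝 z] fun w => (∑ a ∈ F z, hh a w)⁻¹ • ∑ a ∈ F z, hh a w • av f (D.B a s) := by
      filter_upwards [(D.isOpen_B z s).mem_nhds (D.self_mem_B z hs)] with w hw
      rw [hf₁]
      simp only
      rw [hHs z hz w hw, hNs z hz w hw]
    refine ContDiffAt.congr_of_eventuallyEq ?_ hev
    have hsm : ∀ a ∈ F z, ContDiffAt ℝ 1 (hh a) z := fun a ha =>
      ((h1 a (hFΩ z hz a ha)).of_le (by exact_mod_cast le_top)).contDiffAt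
    refine ContDiffAt.smul (ContDiffAt.inv (ContDiffAt.sum hsm) ?_) (ContDiffAt.sum fun a ha =>
      (hsm a ha).smul contDiffAt_const)
    have := hH1 z hz
    rw [hHs z hz z (D.self_mem_B z hs)] at this
    linarith
  -- the pointwise bound
  have hclose : ∀ a₀ ∈ D.Ω, ∀ z ∈ D.B a₀ s, ‖f₁ z - av f (D.B a₀ (32 * s))‖
      ≤ K * osc f (D.B a₀ (32 * s)) := by
    intro a₀ ha₀ z hz
    have hzΩ := hBΩ a₀ ha₀ hz
    have hHz := hH1 z hzΩ
    have e1 : Hs z • (f₁ z - av f (D.B a₀ (32 * s))) =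
        ∑ a ∈ F a₀, hh a z • (av f (D.B a s) - av f (D.B a₀ (32 * s))) := by
      rw [smul_sub, hprod z hzΩ, hNs a₀ ha₀ z hz, hHs a₀ ha₀ z hz, Finset.sum_smul,
        ← Finset.sum_sub_distrib]
      exact Finset.sum_congr rfl fun a _ => by rw [smul_sub]
    have e2 : ‖Hs z • (f₁ z - av f (D.B a₀ (32 * s)))‖ ≤ Hs z * (K * osc f (D.B a₀ (32 * s))) := by
      rw [e1, hHs a₀ ha₀ z hz, Finset.sum_mul]
      refine (norm_sum_le _ _).trans (Finset.sum_le_sum fun a ha => ?_)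
      have hpos := (h2 a (hFΩ a₀ ha₀ a ha) z).1
      rw [norm_smul, Real.norm_eq_abs, abs_of_nonneg hpos]
      exact mul_le_mul_of_nonneg_left ((hav f hf a₀ ha₀).1 a ((hF a₀ ha₀ a).1 ha).2) hpos
    rw [norm_smul, Real.norm_eq_abs, abs_of_nonneg (by linarith)] at e2
    exact le_of_mul_le_mul_left e2 (by linarith)
  -- the derivative
  have hderiv : ∀ a₀ ∈ D.Ω, ∀ z ∈ D.B a₀ s, ∀ X, ‖fderiv ℝ f₁ z X‖
      ≤ 8 * M * Cb * K * osc f (D.B a₀ (32 * s)) * D.nrm z X := by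
    intro a₀ ha₀ z hz X
    have hzΩ := hBΩ a₀ ha₀ hz
    have hHz := hH1 z hzΩ
    have hd : ∀ a ∈ F a₀, HasFDerivAt (hh a) (fderiv ℝ (hh a) z) z := fun a ha =>
      ((h1 a (hFΩ a₀ ha₀ a ha)).differentiable (by simp)).differentiableAt.hasFDerivAt
    have hHl : HasFDerivAt (fun w => ∑ a ∈ F a₀, hh a w) (∑ a ∈ F a₀, fderiv ℝ (hh a) z) z :=
      HasFDerivAt.fun_sum hd
    have hNl : HasFDerivAt (fun w => ∑ a ∈ F a₀, hh a w • av f (D.B a s))
        (∑ a ∈ F a₀, (fderiv ℝ (hh a) z).smulRight (av f (D.B a s))) z :=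
      HasFDerivAt.fun_sum fun a ha => (hd a ha).smul_const _
    have hf1 : HasFDerivAt f₁ (fderiv ℝ f₁ z) z :=
      ((hsmooth z hzΩ).differentiableAt (by simp)).hasFDerivAt
    have hpr := hHl.smul hf1
    have hev : (fun w => ∑ a ∈ F a₀, hh a w • av f (D.B a s)) =ᶠ[𝓝 z]
        fun w => (∑ a ∈ F a₀, hh a w) • f₁ w := by
      filter_upwards [(D.isOpen_B a₀ s).mem_nhds hz] with w hw
      rw [← hNs a₀ ha₀ w hw, ← hHs a₀ ha₀ w hw, hprod w (hBΩ a₀ ha₀ hw)]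
    have huniq := hNl.unique (hpr.congr_of_eventuallyEq hev)
    have happ := congrArg (fun L => L X) huniq
    simp only [add_apply, smul_apply, ContinuousLinearMap.smulRight_apply, sum_apply] at happ
    rw [← hHs a₀ ha₀ z hz] at happ
    have e1 : Hs z • fderiv ℝ f₁ z X =
        ∑ a ∈ F a₀, (fderiv ℝ (hh a) z X) • (av f (D.B a s) - f₁ z) := by
      have : ∑ a ∈ F a₀, (fderiv ℝ (hh a) z X) • (av f (D.B a s) - f₁ z) =
          (∑ a ∈ F a₀, (fderiv ℝ (hh a) z X) • av f (D.B a s)) -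
            (∑ a ∈ F a₀, fderiv ℝ (hh a) z X) • f₁ z := by
        rw [Finset.sum_smul, ← Finset.sum_sub_distrib]
        exact Finset.sum_congr rfl fun a _ => by rw [smul_sub]
      rw [this, happ]
      abel
    have hosc := osc_nonneg f (D.B a₀ (32 * s))
    have hnX : 0 ≤ D.nrm z X := apply_nonneg _ _
    have hterm : ∀ a ∈ F a₀, ‖(fderiv ℝ (hh a) z X) • (av f (D.B a s) - f₁ z)‖
        ≤ 8 * Cb * K * osc f (D.B a₀ (32 * s)) * D.nrm z X := by
      intro a ha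
      have haB := ((hF a₀ ha₀ a).1 ha).2
      have e3 : ‖av f (D.B a s) - f₁ z‖ ≤ 2 * (K * osc f (D.B a₀ (32 * s))) := by
        have e4 := (hav f hf a₀ ha₀).1 a haB
        have e5 := hclose a₀ ha₀ z hz
        have e6 : av f (D.B a s) - f₁ z = (av f (D.B a s) - av f (D.B a₀ (32 * s))) -
          (f₁ z - av f (D.B a₀ (32 * s))) := by ring
        rw [e6]
        refine (norm_sub_le _ _).trans ?_
        linarith
      have e7 : |fderiv ℝ (hh a) z X| ≤ Cb * (4 * D.nrm z X) := by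
        refine (h5 a (hFΩ a₀ ha₀ a ha) z X).trans (mul_le_mul_of_nonneg_left ?_ hCb.le)
        have e8 := ((h.sub a₀ ha₀ a (D.B_mono a₀ (by linarith) haB)).2.2.2 X).1
        have e9 := ((h.sub a₀ ha₀ z (D.B_mono a₀ (by linarith) hz)).2.2.2 X).2
        linarith
      rw [norm_smul, Real.norm_eq_abs]
      calc |fderiv ℝ (hh a) z X| * ‖av f (D.B a s) - f₁ z‖
          ≤ (Cb * (4 * D.nrm z X)) * (2 * (K * osc f (D.B a₀ (32 * s)))) :=
            mul_le_mul e7 e3 (norm_nonneg _) (by positivity)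
        _ = 8 * Cb * K * osc f (D.B a₀ (32 * s)) * D.nrm z X := by ring
    have e10 : ‖Hs z • fderiv ℝ f₁ z X‖
        ≤ M * (8 * Cb * K * osc f (D.B a₀ (32 * s)) * D.nrm z X) := by
      rw [e1]
      refine (norm_sum_le _ _).trans ((Finset.sum_le_sum hterm).trans ?_)
      rw [Finset.sum_const, nsmul_eq_mul]
      exact mul_le_mul_of_nonneg_right (by exact_mod_cast hFM a₀ ha₀) (by positivity)
    rw [norm_smul, Real.norm_eq_abs, abs_of_nonneg (by linarith)] at e10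
    have e11 : ‖fderiv ℝ f₁ z X‖ ≤ Hs z * ‖fderiv ℝ f₁ z X‖ :=
      le_mul_of_one_le_left (norm_nonneg _) hHz
    refine e11.trans (e10.trans (le_of_eq (by ring)))
  refine ⟨f₁, ⟨fun z hz => (hsmooth z hz).contDiffWithinAt, fun a ha z hz X => ?_,
    fun a ha => ?_⟩⟩
  · -- the estimate for `∂̄ f₁`
    have haΩ := hA.subset ha
    have e1 := hderiv a haΩ z hz X
    have e2 := hderiv a haΩ z hz (Complex.I • X)
    have e3 : D.nrm z (Complex.I • X) = D.nrm z X := by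
      rw [map_smul_eq_mul, Complex.norm_I, one_mul]
    rw [e3] at e2
    have hosc := osc_nonneg f (D.B a (32 * s))
    have hnX : 0 ≤ D.nrm z X := apply_nonneg _ _
    unfold dzb
    rw [norm_mul]
    have e4 : ‖fderiv ℝ f₁ z X + Complex.I * fderiv ℝ f₁ z (Complex.I • X)‖
        ≤ 2 * (8 * M * Cb * K * osc f (D.B a (32 * s)) * D.nrm z X) := by
      refine (norm_add_le _ _).trans ?_
      rw [norm_mul, Complex.norm_I, one_mul]
      linarith
    have e5 : ‖(1 / 2 : ℂ)‖ = 1 / 2 := by norm_num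
    rw [e5]
    have e6 : 0 ≤ osc f (D.B a (32 * s)) * D.nrm z X := mul_nonneg hosc hnX
    nlinarith [mul_nonneg (sq_nonneg K) e6]
  · -- the integral
    have haΩ := hA.subset ha
    obtain ⟨-, hvt, hint⟩ := hav f hf a haΩ
    have hosc := osc_nonneg f (D.B a (32 * s))
    have : IsFiniteMeasure (volume.restrict (D.B a s)) :=
      ⟨by rw [Measure.restrict_apply_univ]; exact lt_top_iff_ne_top.2 hvt⟩
    have hfB : MemLp f 2 (volume.restrict (D.B a s)) :=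
      hf.mono_measure (Measure.restrict_mono (hBΩ a haΩ) le_rfl)
    have hi1 : Integrable (fun w => ‖f w - av f (D.B a (32 * s))‖ ^ 2)
        (volume.restrict (D.B a s)) := by
      have : MemLp (fun w => f w - av f (D.B a (32 * s))) 2 (volume.restrict (D.B a s)) :=
        hfB.sub (memLp_const _)
      exact this.integrable_norm_pow (by norm_num)
    have hi2 : Integrable (fun _ : Cn n => 2 * (K * osc f (D.B a (32 * s))) ^ 2)
        (volume.restrict (D.B a s)) := integrable_const _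
    have hle : ∫ w in D.B a s, ‖f w - f₁ w‖ ^ 2 ≤ ∫ w in D.B a s,
        (2 * ‖f w - av f (D.B a (32 * s))‖ ^ 2 + 2 * (K * osc f (D.B a (32 * s))) ^ 2) := by
      refine integral_mono_of_nonneg (Eventually.of_forall fun w => by positivity)
        ((hi1.const_mul 2).add hi2) ?_
      filter_upwards [ae_restrict_mem (D.isOpen_B a s).measurableSet] with w hw
      have e1 := hclose a haΩ w hw
      have e2 : ‖f w - f₁ w‖ ≤ ‖f w - av f (D.B a (32 * s))‖ + K * osc f (D.B a (32 * s)) := by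
        have e3 : f w - f₁ w = (f w - av f (D.B a (32 * s))) - (f₁ w - av f (D.B a (32 * s))) := by
          ring
        rw [e3]
        refine (norm_sub_le _ _).trans ?_
        linarith
      have e4 : ‖f w - f₁ w‖ ^ 2
          ≤ (‖f w - av f (D.B a (32 * s))‖ + K * osc f (D.B a (32 * s))) ^ 2 :=
        pow_le_pow_left₀ (norm_nonneg _) e2 2
      refine e4.trans ?_
      nlinarith [sq_nonneg (‖f w - av f (D.B a (32 * s))‖ - K * osc f (D.B a (32 * s)))]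
    rw [integral_add (hi1.const_mul 2) hi2, integral_const_mul, integral_const] at hle
    have hreal : (volume.restrict (D.B a s)).real univ = (volume (D.B a s)).toReal := by
      rw [Measure.real, Measure.restrict_apply_univ]
    rw [hreal, smul_eq_mul] at hle
    have hv0 : 0 ≤ (volume (D.B a s)).toReal := ENNReal.toReal_nonneg
    have hcomb : ∫ w in D.B a s, ‖f w - f₁ w‖ ^ 2 ≤
        4 * K ^ 2 * osc f (D.B a (32 * s)) ^ 2 * (volume (D.B a s)).toReal := by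
      nlinarith
    refine hcomb.trans ?_
    refine mul_le_mul_of_nonneg_right (mul_le_mul_of_nonneg_right ?_ (sq_nonneg _)) hv0
    have : 0 ≤ 8 * (M : ℝ) * Cb * K := by positivity
    linarith

end Dom

end HankelSPC
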