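import Pool.Agent.Lib.MP_e1cf54_an.Defs

/-! Row F4a: nets -/

open MeasureTheory Set Filter
open scoped ENNReal NNReal Topology ContDiff Pointwise

namespace HankelSPC

variable {n : ℕ}

/-- a norm on `ℂⁿ` dominates the sup norm. -/
lemma F4a_norm_le (P : Seminorm ℂ (Cn n)) (hP : ∀ X, P X = 0 → X = 0) :
    Continuous P ∧ ∃ m : ℝ, 0 < m ∧ ∀ X : Cn n, m * ‖X‖ ≤ P X := by
  have hle : ∀ X : Cn n, P X ≤ (∑ j, P (Pi.single j 1)) * ‖X‖ := by
    intro X
    have e : X = ∑ j, (X j) • (Pi.single j 1 : Cn n) := by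
      funext i
      simp [Finset.sum_apply, Pi.single_apply]
    conv_lhs => rw [e]
    refine (Finset.le_sum_of_subadditive P (map_zero P).le (map_add_le_add P) _ _).trans ?_
    rw [Finset.sum_mul]
    refine Finset.sum_le_sum fun j _ => ?_
    rw [map_smul_eq_mul, mul_comm]
    exact mul_le_mul_of_nonneg_left (norm_le_pi_norm X j) (apply_nonneg P _)
  have hcont : Continuous P := by
    apply Seminorm.continuous_of_continuousAt_zero
    rw [Metric.continuousAt_iff]
    intro ε hε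
    have hC : 0 ≤ ∑ j : Fin n, P (Pi.single j 1) := Finset.sum_nonneg fun j _ => apply_nonneg P _
    refine ⟨ε / (∑ j : Fin n, P (Pi.single j 1) + 1), by positivity, ?_⟩
    intro X hX
    rw [dist_zero_right] at hX
    rw [map_zero, dist_zero_right, Real.norm_eq_abs, abs_of_nonneg (apply_nonneg P _)]
    have h1 := hle X
    rw [lt_div_iff₀ (by positivity)] at hX
    nlinarith [norm_nonneg X]
  refine ⟨hcont, ?_⟩
  rcases (Metric.sphere (0 : Cn n) 1).eq_empty_or_nonempty with hempty | hne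
  · refine ⟨1, one_pos, fun X => ?_⟩
    by_cases hX : X = 0
    · simp [hX]
    · exfalso
      have : (‖X‖⁻¹ : ℂ) • X ∈ Metric.sphere (0 : Cn n) 1 := by
        rw [mem_sphere_zero_iff_norm, norm_smul, norm_inv, Complex.norm_real, norm_norm,
          inv_mul_cancel₀ (norm_ne_zero_iff.2 hX)]
      rw [hempty] at this
      exact this
  · obtain ⟨Y, hY, hmin⟩ := (isCompact_sphere (0 : Cn n) 1).exists_isMinOn hne hcont.continuousOn
    have hY0 : Y ≠ 0 := by
      rintro rfl
      simp at hY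
    have hm : 0 < P Y := lt_of_le_of_ne (apply_nonneg P _) fun h => hY0 (hP Y h.symm)
    refine ⟨P Y, hm, fun X => ?_⟩
    by_cases hX : X = 0
    · simp [hX]
    · have hmem : (‖X‖⁻¹ : ℂ) • X ∈ Metric.sphere (0 : Cn n) 1 := by
        rw [mem_sphere_zero_iff_norm, norm_smul, norm_inv, Complex.norm_real, norm_norm,
          inv_mul_cancel₀ (norm_ne_zero_iff.2 hX)]
      have h1 : P Y ≤ P ((‖X‖⁻¹ : ℂ) • X) := hmin hmem
      rw [map_smul_eq_mul, norm_inv, Complex.norm_real, norm_norm] at h1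
      have h2 : 0 < ‖X‖ := norm_pos_iff.2 hX
      calc P Y * ‖X‖ ≤ (‖X‖⁻¹ * P X) * ‖X‖ := mul_le_mul_of_nonneg_right h1 h2.le
        _ = P X := by field_simp

lemma F4a_volume (P : Seminorm ℂ (Cn n)) (a : Cn n) {r : ℝ} (hr : 0 < r) :
    volume (P.ball a r) = ENNReal.ofReal (r ^ (2 * n)) * volume (P.ball 0 1) := by
  have h1 : P.ball a r = (fun X => a + X) '' (r • P.ball 0 1) := by
    ext w
    simp only [Seminorm.mem_ball, mem_image]
    constructor
    · intro hw
      refine ⟨w - a, ?_, by abel⟩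
      rw [Set.mem_smul_set]
      refine ⟨r⁻¹ • (w - a), ?_, ?_⟩
      · rw [Seminorm.mem_ball, sub_zero]
        have : (r⁻¹ • (w - a) : Cn n) = ((r⁻¹ : ℝ) : ℂ) • (w - a) := by
          ext i; simp
        rw [this, map_smul_eq_mul, Complex.norm_real, Real.norm_eq_abs, abs_inv, abs_of_pos hr,
          inv_mul_lt_iff₀ hr, mul_one]
        exact hw
      · rw [smul_smul, mul_inv_cancel₀ hr.ne', one_smul]
    · rintro ⟨X, hX, rfl⟩
      rw [Set.mem_smul_set] at hX
      obtain ⟨Y, hY, rfl⟩ := hX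
      rw [Seminorm.mem_ball, sub_zero] at hY
      rw [add_sub_cancel_left]
      have : (r • Y : Cn n) = ((r : ℝ) : ℂ) • Y := by
        ext i; simp
      rw [this, map_smul_eq_mul, Complex.norm_real, Real.norm_eq_abs, abs_of_pos hr]
      calc r * P Y < r * 1 := mul_lt_mul_of_pos_left hY hr
        _ = r := mul_one r
  have hfin : Module.finrank ℝ (Cn n) = 2 * n := by
    have : Module.finrank ℝ (Fin n → ℂ) = 2 * n := by
      rw [Module.finrank_pi_fintype]
      simp [Complex.finrank_real_complex, mul_comm]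
    exact this
  rw [h1, image_add_left, measure_preimage_add, Measure.addHaar_smul, hfin,
    abs_of_pos (pow_pos hr _)]

/-- separated subsets of a ball have few elements -/
lemma F4a_card (P : Seminorm ℂ (Cn n)) (hP : ∀ X, P X = 0 → X = 0) (a : Cn n) {r ε : ℝ}
    (hr : 0 < r) (hε : 0 < ε) (Z : Finset (Cn n)) (hZ : (Z : Set (Cn n)) ⊆ P.ball a r)
    (hsep : ∀ x ∈ Z, ∀ y ∈ Z, x ≠ y → ε ≤ P (x - y)) :
    (Z.card : ℝ) ≤ (1 + 2 * r / ε) ^ (2 * n) := by
  obtain ⟨hcont, m, hm, hmle⟩ := F4a_norm_le P hP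
  have hopen : ∀ (x : Cn n) (t : ℝ), IsOpen (P.ball x t) := by
    intro x t
    have : P.ball x t = (fun w => P (w - x)) ⁻¹' (Iio t) := by
      ext w; simp [Seminorm.mem_ball]
    rw [this]
    exact isOpen_Iio.preimage (hcont.comp (continuous_id.sub continuous_const))
  have hpos : 0 < volume (P.ball (0 : Cn n) 1) := by
    exact (hopen 0 1).measure_pos volume ⟨0, by simp [Seminorm.mem_ball]⟩
  have hfin : volume (P.ball (0 : Cn n) 1) < ⊤ := by
    have : P.ball (0 : Cn n) 1 ⊆ Metric.ball 0 (1 / m) := by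
      intro X hX
      rw [Seminorm.mem_ball, sub_zero] at hX
      rw [mem_ball_zero_iff, lt_div_iff₀ hm]
      have := hmle X
      linarith
    exact (measure_mono this).trans_lt measure_ball_lt_top
  have hε2 : 0 < ε / 2 := by positivity
  have hdisj : (Z : Set (Cn n)).PairwiseDisjoint fun z => P.ball z (ε / 2) := by
    intro x hx y hy hxy
    rw [Function.onFun, Set.disjoint_left]
    intro v hvx hvy
    rw [Seminorm.mem_ball] at hvx hvy
    have h1 := hsep x hx y hy hxy
    have h2 := map_add_le_add P (x - v) (v - y)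
    rw [sub_add_sub_cancel, map_sub_rev P x v] at h2
    linarith
  have hunion : volume (⋃ z ∈ Z, P.ball z (ε / 2)) = ∑ z ∈ Z, volume (P.ball z (ε / 2)) :=
    measure_biUnion_finset hdisj fun z _ => (hopen z _).measurableSet
  have hsub : (⋃ z ∈ Z, P.ball z (ε / 2)) ⊆ P.ball a (r + ε / 2) := by
    intro v hv
    simp only [mem_iUnion] at hv
    obtain ⟨z, hz, hv⟩ := hv
    have hz' := hZ hz
    rw [Seminorm.mem_ball] at hv hz' ⊢
    have h2 := map_add_le_add P (v - z) (z - a)
    rw [sub_add_sub_cancel] at h2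
    linarith
  have hle := measure_mono (μ := (volume : Measure (Cn n))) hsub
  rw [hunion] at hle
  simp only [F4a_volume P _ hε2, F4a_volume P a (show 0 < r + ε / 2 by positivity),
    Finset.sum_const, nsmul_eq_mul] at hle
  rw [← mul_assoc] at hle
  have hle2 : (Z.card : ℝ≥0∞) * ENNReal.ofReal ((ε / 2) ^ (2 * n)) ≤
      ENNReal.ofReal ((r + ε / 2) ^ (2 * n)) :=
    (ENNReal.mul_le_mul_iff_left hpos.ne' hfin.ne).1 hle
  have hle3 : (Z.card : ℝ) * (ε / 2) ^ (2 * n) ≤ (r + ε / 2) ^ (2 * n) := by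
    have h3 : (Z.card : ℝ≥0∞) = ENNReal.ofReal (Z.card : ℝ) := by simp
    rw [h3, ← ENNReal.ofReal_mul (by positivity),
      ENNReal.ofReal_le_ofReal_iff (by positivity)] at hle2
    exact hle2
  rw [← le_div_iff₀ (by positivity), ← div_pow] at hle3
  refine hle3.trans (le_of_eq ?_)
  congr 1
  field_simp
  ring

/-- Nets of controlled cardinality in the balls of a norm: a maximal `ε`-separated subset of
`P.ball a r` has at most `(1 + 2r/ε)^{2n}` elements (volumes). -/
theorem exists_net (P : Seminorm ℂ (Cn n)) (hP : ∀ X, P X = 0 → X = 0) (a : Cn n) {r ε : ℝ}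
    (hr : 0 < r) (hε : 0 < ε) : ∃ Z : Finset (Cn n), (Z.card : ℝ) ≤ (1 + 2 * r / ε) ^ (2 * n) ∧
      ↑Z ⊆ P.ball a r ∧ ∀ w ∈ P.ball a r, ∃ z ∈ Z, P (w - z) < ε := by
  classical
  let S : Set (Finset (Cn n)) := {Z | (Z : Set (Cn n)) ⊆ P.ball a r ∧
    ∀ x ∈ Z, ∀ y ∈ Z, x ≠ y → ε ≤ P (x - y)}
  have hS : ∀ Z ∈ S, (Z.card : ℝ) ≤ (1 + 2 * r / ε) ^ (2 * n) := fun Z hZ =>
    F4a_card P hP a hr hε Z hZ.1 hZ.2
  have hbdd : BddAbove (Finset.card '' S) := by
    refine ⟨⌊(1 + 2 * r / ε) ^ (2 * n)⌋₊, ?_⟩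
    rintro _ ⟨Z, hZ, rfl⟩
    exact Nat.le_floor (hS Z hZ)
  have hne : (Finset.card '' S).Nonempty := ⟨0, ∅, by constructor <;> simp, rfl⟩
  obtain ⟨Z, hZ, hcard⟩ := Nat.sSup_mem hne hbdd
  refine ⟨Z, hS Z hZ, hZ.1, ?_⟩
  intro w hw
  by_contra hcon
  push Not at hcon
  have hwZ : w ∉ Z := by
    intro h
    have := hcon w h
    rw [sub_self, map_zero] at this
    linarith
  have hmem : insert w Z ∈ S := by
    refine ⟨?_, ?_⟩
    · rw [Finset.coe_insert]
      exact Set.insert_subset hw hZ.1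
    · intro x hx y hy hxy
      rw [Finset.mem_insert] at hx hy
      rcases hx with rfl | hx
      · rcases hy with rfl | hy
        · exact absurd rfl hxy
        · exact hcon y hy
      · rcases hy with rfl | hy
        · rw [map_sub_rev P]
          exact hcon x hx
        · exact hZ.2 x hx y hy hxy
  have h1 : (insert w Z).card ≤ sSup (Finset.card '' S) := le_csSup hbdd ⟨_, hmem, rfl⟩
  rw [Finset.card_insert_of_notMem hwZ, ← hcard] at h1
  omega

end HankelSPC
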