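import Pool.Agent.Lib.MP_e1cf54_an.Defs

/-! Row F4b: one step -/

open MeasureTheory Set Filter
open scoped ENNReal NNReal Topology ContDiff

namespace HankelSPC

variable {n : ℕ}

/-- One step: if `g` vanishes on an `ε`-net of `P.ball a t`, `|g| ≤ M` on `P.ball a t`, `t' < t`,
`2ε ≤ t - t'`, then `|g| ≤ (4 ε/(t-t')) M` on `P.ball a t'` (Cauchy estimate for
`λ ↦ g(z + λ(w-z)/P(w-z))` on the disc of radius `(t-t')/2` and the mean value inequality; or
Schwarz lemma: `λ ↦ g(z+λX)` vanishes at `0`). -/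
theorem net_step (P : Seminorm ℂ (Cn n)) (hP : ∀ X, P X = 0 → X = 0) {a : Cn n} {t t' ε M : ℝ}
    (hε : 0 < ε) (hM : 0 ≤ M) (ht : 2 * ε ≤ t - t') {Z : Set (Cn n)}
    (hZ : ∀ w ∈ P.ball a t, ∃ z ∈ Z, P (w - z) < ε) {g : Cn n → ℂ}
    (hg : DifferentiableOn ℂ g (P.ball a t)) (hgM : ∀ w ∈ P.ball a t, ‖g w‖ ≤ M)
    (hgZ : ∀ z ∈ Z, z ∈ P.ball a t → g z = 0) :
    ∀ w ∈ P.ball a t', ‖g w‖ ≤ 4 * ε / (t - t') * M := by
  intro w hw
  rw [Seminorm.mem_ball] at hw
  have htt : 0 < t - t' := by linarith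
  have hwt : w ∈ P.ball a t := by
    rw [Seminorm.mem_ball]
    linarith
  have hpos : 0 ≤ 4 * ε / (t - t') := by positivity
  rcases hM.eq_or_lt with hM0 | hM0
  · have := hgM w hwt
    rw [← hM0] at this ⊢
    simpa using this
  obtain ⟨z, hzZ, hzw⟩ := hZ w hwt
  have hza : P (z - a) < ε + t' := by
    have h1 : z - a = (w - a) - (w - z) := by abel
    have h2 : P (z - a) ≤ P (w - a) + P (w - z) := by
      rw [h1]
      exact map_sub_le_add P _ _
    linarith
  have hzt : z ∈ P.ball a t := by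
    rw [Seminorm.mem_ball]
    linarith
  have hz0 := hgZ z hzZ hzt
  by_cases hX : w - z = 0
  · have : w = z := sub_eq_zero.1 hX
    rw [this, hz0, norm_zero]
    positivity
  have hp : 0 < P (w - z) := lt_of_le_of_ne (apply_nonneg P _) (fun h => hX (hP _ h.symm))
  set p := P (w - z) with hpdef
  set R := (t - t') / 2 with hR
  have hR0 : 0 < R := by positivity
  have hRp : 0 < R / p := div_pos hR0 hp
  have hline : ∀ l : ℂ, l ∈ Metric.ball (0 : ℂ) (R / p) → z + l • (w - z) ∈ P.ball a t := by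
    intro l hl
    rw [mem_ball_zero_iff, lt_div_iff₀ hp] at hl
    rw [Seminorm.mem_ball]
    have h1 : z + l • (w - z) - a = (z - a) + l • (w - z) := by abel
    have h2 : P (z + l • (w - z) - a) ≤ P (z - a) + ‖l‖ * p := by
      rw [h1]
      refine (map_add_le_add P _ _).trans ?_
      rw [map_smul_eq_mul]
    linarith
  set φ : ℂ → ℂ := fun l => g (z + l • (w - z)) with hφ
  have hφ0 : φ 0 = 0 := by simp [hφ, hz0]
  have hd : DifferentiableOn ℂ φ (Metric.ball 0 (R / p)) := by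
    refine hg.comp ?_ hline
    fun_prop
  have hmaps : MapsTo φ (Metric.ball 0 (R / p)) (Metric.closedBall (φ 0) (2 * M)) := by
    intro l hl
    rw [hφ0, mem_closedBall_zero_iff]
    have := hgM _ (hline l hl)
    exact this.trans (by linarith)
  have h1 : (1 : ℂ) ∈ Metric.ball (0 : ℂ) (R / p) := by
    rw [mem_ball_zero_iff, norm_one, one_lt_div hp]
    linarith
  have hs := Complex.dist_le_div_mul_dist_of_mapsTo_ball hd hmaps h1
  rw [hφ0, dist_zero_right, dist_zero_right, norm_one, mul_one] at hs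
  have h2 : φ 1 = g w := by simp [hφ]
  rw [h2] at hs
  refine hs.trans ?_
  have h3 : 2 * M / (R / p) = 4 * p / (t - t') * M := by
    rw [hR]
    field_simp
    ring
  rw [h3]
  gcongr

end HankelSPC
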