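import Pool.Agent.Lib.MP_e1cf54_an.F4a
import Pool.Agent.Lib.MP_e1cf54_an.F4b
import Pool.Agent.Lib.MP_e1cf54_an.B10a

/-! Row F4c: local lemma -/

open MeasureTheory Set Filter
open scoped ENNReal NNReal Topology ContDiff Pointwise

namespace HankelSPC

variable {n : ℕ}

lemma F4c_upper (P : Seminorm ℂ (Cn n)) : ∃ C : ℝ, 0 ≤ C ∧ ∀ X, P X ≤ C * ‖X‖ := by
  refine ⟨∑ j, P (Pi.single j 1), Finset.sum_nonneg fun j _ => apply_nonneg P _, fun X => ?_⟩
  have hX : X = ∑ j, X j • (Pi.single j (1:ℂ) : Cn n) := by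
    ext i
    simp [Finset.sum_apply, Pi.single_apply]
  calc P X = P (∑ j, X j • (Pi.single j (1:ℂ) : Cn n)) := by rw [← hX]
    _ ≤ ∑ j, P (X j • (Pi.single j (1:ℂ) : Cn n)) :=
        Finset.le_sum_of_subadditive P (map_zero P).le (map_add_le_add P) _ _
    _ ≤ ∑ j, P (Pi.single j 1) * ‖X‖ := by
        refine Finset.sum_le_sum fun j _ => ?_
        rw [map_smul_eq_mul, mul_comm]
        exact mul_le_mul_of_nonneg_left (norm_le_pi_norm X j) (apply_nonneg P _)
    _ = _ := by rw [Finset.sum_mul]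

lemma F4c_cont (P : Seminorm ℂ (Cn n)) : Continuous P := by
  obtain ⟨C, hC, h⟩ := F4c_upper P
  apply Seminorm.continuous_of_continuousAt_zero
  have h0 : P 0 = 0 := map_zero P
  unfold ContinuousAt
  rw [h0]
  refine squeeze_zero (fun X => apply_nonneg P X) h ?_
  have : Tendsto (fun X : Cn n => C * ‖X‖) (𝓝 0) (𝓝 (C * ‖(0 : Cn n)‖)) :=
    (continuous_const.mul continuous_norm).tendsto 0
  simpa using this

lemma F4c_lower (P : Seminorm ℂ (Cn n)) (hP : ∀ X, P X = 0 → X = 0) :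
    ∃ c : ℝ, 0 < c ∧ ∀ X, c * ‖X‖ ≤ P X := by
  have hscale : ∀ X : Cn n, X ≠ 0 → (‖X‖⁻¹ : ℂ) • X ∈ Metric.sphere (0 : Cn n) 1 := by
    intro X hX
    rw [mem_sphere_zero_iff_norm, norm_smul, norm_inv, Complex.norm_real, norm_norm,
      inv_mul_cancel₀ (norm_ne_zero_iff.2 hX)]
  by_cases hne : (Metric.sphere (0 : Cn n) 1).Nonempty
  · obtain ⟨X₀, hX₀, hmin⟩ := (isCompact_sphere (0 : Cn n) 1).exists_isMinOn hne (F4c_cont P).continuousOn
    have hX₀ne : X₀ ≠ 0 := by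
      rintro rfl
      rw [mem_sphere_zero_iff_norm, norm_zero] at hX₀
      exact zero_ne_one hX₀
    have hpos : 0 < P X₀ := lt_of_le_of_ne (apply_nonneg P _) (fun h => hX₀ne (hP _ h.symm))
    refine ⟨P X₀, hpos, fun X => ?_⟩
    by_cases hX : X = 0
    · subst hX; simp
    · have h1 : P X₀ ≤ P ((‖X‖⁻¹ : ℂ) • X) := hmin (hscale X hX)
      rw [map_smul_eq_mul, norm_inv, Complex.norm_real, norm_norm] at h1
      have hn : 0 < ‖X‖ := norm_pos_iff.2 hX
      calc P X₀ * ‖X‖ ≤ (‖X‖⁻¹ * P X) * ‖X‖ := mul_le_mul_of_nonneg_right h1 hn.le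
        _ = P X := by field_simp
  · refine ⟨1, one_pos, fun X => ?_⟩
    by_cases hX : X = 0
    · subst hX; simp
    · exact (hne ⟨_, hscale X hX⟩).elim

lemma F4c_isOpen (P : Seminorm ℂ (Cn n)) (a : Cn n) (r : ℝ) : IsOpen (P.ball a r) := by
  have : P.ball a r = {w | P (w - a) < r} := by
    ext w; exact P.mem_ball
  rw [this]
  exact isOpen_lt ((F4c_cont P).comp (continuous_id.sub continuous_const)) continuous_const

lemma F4c_vol_ne_top (P : Seminorm ℂ (Cn n)) (hP : ∀ X, P X = 0 → X = 0) (r : ℝ) :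
    volume (P.ball 0 r) ≠ ⊤ := by
  obtain ⟨c, hc, h⟩ := F4c_lower P hP
  refine ne_top_of_le_ne_top (measure_ball_lt_top (μ := volume) (x := (0 : Cn n)) (r := r / c)).ne
    (measure_mono ?_)
  intro X hX
  rw [P.mem_ball_zero] at hX
  rw [mem_ball_zero_iff, lt_div_iff₀ hc, mul_comm]
  exact (h X).trans_lt hX

lemma F4c_vol_ne_zero (P : Seminorm ℂ (Cn n)) {r : ℝ} (hr : 0 < r) :
    volume (P.ball 0 r) ≠ 0 := by
  refine ((F4c_isOpen P 0 r).measure_pos volume ⟨0, ?_⟩).ne'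
  rw [P.mem_ball_zero, map_zero]
  exact hr

lemma F4c_vol (P : Seminorm ℂ (Cn n)) (a : Cn n) (r : ℝ) :
    volume (P.ball a r) = 4 ^ n * volume (P.ball 0 (r / 2)) := by
  have h1 : P.ball a r = a +ᵥ P.ball 0 r := by
    rw [Seminorm.vadd_ball, vadd_eq_add, add_zero]
  have h2 : P.ball 0 r = (2 : ℝ) • P.ball (0 : Cn n) (r / 2) := by
    have h3 : (2 : ℝ) • P.ball (0 : Cn n) (r / 2) = (2 : ℂ) • P.ball (0 : Cn n) (r / 2) := by
      ext X
      constructor
      · rintro ⟨Y, hY, rfl⟩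
        refine ⟨Y, hY, ?_⟩
        ext i
        simp
      · rintro ⟨Y, hY, rfl⟩
        refine ⟨Y, hY, ?_⟩
        ext i
        simp
    rw [h3, Seminorm.smul_ball_zero (by norm_num)]
    congr 1
    norm_num
    ring
  rw [h1, measure_vadd, h2, Measure.addHaar_smul, finrank_real_of_complex, Module.finrank_fin_fun]
  congr 1
  rw [abs_of_nonneg (by positivity), pow_mul]
  norm_num

lemma F4c_sup (P : Seminorm ℂ (Cn n)) (hP : ∀ X, P X = 0 → X = 0) {a : Cn n} {r : ℝ}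
    {g : Cn n → ℂ} (hg : DifferentiableOn ℂ g (P.ball a (2 * r))) {w : Cn n}
    (hw : w ∈ P.ball a (3 * r / 2)) :
    ENNReal.ofReal (‖g w‖ ^ 2) * volume (P.ball 0 (r / 2)) ≤
      ∫⁻ v in P.ball a (2 * r), ENNReal.ofReal (‖g v‖ ^ 2) := by
  have hsub : (fun X => w + X) '' (P.ball 0 (r / 2)) ⊆ P.ball a (2 * r) := by
    rintro _ ⟨X, hX, rfl⟩
    rw [P.mem_ball_zero] at hX
    rw [P.mem_ball] at hw ⊢
    have h1 : w + X - a = (w - a) + X := by abel
    simp only [h1]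
    calc P ((w - a) + X) ≤ P (w - a) + P X := map_add_le_add P _ _
      _ < 3 * r / 2 + r / 2 := add_lt_add hw hX
      _ = 2 * r := by ring
  calc ENNReal.ofReal (‖g w‖ ^ 2) * volume (P.ball 0 (r / 2))
      ≤ ∫⁻ X in P.ball 0 (r / 2), ENNReal.ofReal (‖g (w + X)‖ ^ 2) :=
        sq_mean_value (P.balanced_ball_zero _) (F4c_isOpen P 0 _) (F4c_vol_ne_top P hP _)
          (hg.mono hsub)
    _ = ∫⁻ v in (fun X => w + X) '' (P.ball 0 (r / 2)), ENNReal.ofReal (‖g v‖ ^ 2) :=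
        (measurePreserving_add_left volume w).setLIntegral_comp_emb
          (measurableEmbedding_addLeft w) (fun v => ENNReal.ofReal (‖g v‖ ^ 2)) _
    _ ≤ _ := lintegral_mono_set hsub

/-- iteration of `net_step` -/
lemma F4c_iter (P : Seminorm ℂ (Cn n)) (hP : ∀ X, P X = 0 → X = 0) {a : Cn n} {r ε M : ℝ}
    (hr : 0 < r) {K : ℕ} (hK : 0 < K) (hε : 0 < ε) (hM : 0 ≤ M) (hεK : ε ≤ r / (4 * K))
    {Z : Set (Cn n)} (hZ : ∀ w ∈ P.ball a (3 * r / 2), ∃ z ∈ Z, P (w - z) < ε) {g : Cn n → ℂ}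
    (hg : DifferentiableOn ℂ g (P.ball a (3 * r / 2)))
    (hgM : ∀ w ∈ P.ball a (3 * r / 2), ‖g w‖ ≤ M) (hgZ : ∀ z ∈ Z, g z = 0) (i : ℕ) :
    ∀ w ∈ P.ball a (3 * r / 2 - i * (r / (2 * K))), ‖g w‖ ≤ (8 * K * ε / r) ^ i * M := by
  have hK' : (0:ℝ) < K := Nat.cast_pos.2 hK
  induction i with
  | zero =>
    intro w hw
    simp only [Nat.cast_zero, zero_mul, sub_zero] at hw
    rw [pow_zero, one_mul]
    exact hgM w hw
  | succ i ih =>
    have hsub : P.ball a (3 * r / 2 - i * (r / (2 * K))) ⊆ P.ball a (3 * r / 2) := by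
      apply Seminorm.ball_mono
      have : 0 ≤ (i : ℝ) * (r / (2 * K)) := by positivity
      linarith
    have hstep := net_step P hP (a := a) (t := 3 * r / 2 - i * (r / (2 * K)))
      (t' := 3 * r / 2 - (i + 1 : ℕ) * (r / (2 * K))) (ε := ε) (M := (8 * K * ε / r) ^ i * M)
      hε (by positivity) (by
        push_cast
        have : 2 * ε ≤ r / (2 * K) := by
          have h1 : r / (2 * K) = 2 * (r / (4 * K)) := by field_simp; ring
          rw [h1]; linarith
        linarith) (Z := Z) (fun w hw => hZ w (hsub hw)) (hg.mono hsub) ih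
      (fun z hz _ => hgZ z hz)
    intro w hw
    have h2 := hstep w hw
    refine h2.trans (le_of_eq ?_)
    have h3 : 3 * r / 2 - (i:ℝ) * (r / (2 * K)) - (3 * r / 2 - ((i + 1 : ℕ) : ℝ) * (r / (2 * K))) =
        r / (2 * K) := by
      push_cast; ring
    rw [h3, pow_succ]
    field_simp
    ring

/-- The local lemma: iterate `net_step` `2 n q` times (radii decreasing from `3r/2` to `r`), start
with `sup_{ball 3r/2} |g|² vol ≤ C ∫_{ball 2r} |g|²` (`sq_mean_value`), `ε ≈ r N^{-1/(2n)}`. For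
small `N` (in particular `N = 0`) take `Z = ∅` and adjust the constant. The constant depends only
on `n` and `q`. -/
theorem local_lemma (n : ℕ) (hn : 1 ≤ n) (q : ℕ) : ∃ C : ℝ, 0 < C ∧ ∀ (P : Seminorm ℂ (Cn n)),
    (∀ X, P X = 0 → X = 0) → ∀ (a : Cn n) (r : ℝ), 0 < r → ∀ N : ℕ,
      ∃ Z : Finset (Cn n), Z.card ≤ N ∧ ↑Z ⊆ P.ball a (2 * r) ∧
        ∀ g : Cn n → ℂ, DifferentiableOn ℂ g (P.ball a (2 * r)) → (∀ z ∈ Z, g z = 0) →
          ∀ w ∈ P.ball a r, ENNReal.ofReal (‖g w‖ ^ 2) * volume (P.ball a r)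
            ≤ ENNReal.ofReal ((C / (N + 1) ^ q) ^ 2)
              * ∫⁻ v in P.ball a (2 * r), ENNReal.ofReal (‖g v‖ ^ 2) := by
  set K : ℕ := 2 * n * q + 1 with hK
  have hK0 : 0 < K := by omega
  have hKr : (1:ℝ) ≤ K := by exact_mod_cast hK0
  set C : ℝ := 2 ^ n * (12 * K + 2) ^ (2 * n * q) + 2 ^ n * (48 * K) ^ K with hC
  have hC0 : 0 < C := by positivity
  refine ⟨C, hC0, ?_⟩
  intro P hP a r hr N
  -- the integer root
  obtain ⟨x, hx1, hx2⟩ : ∃ x : ℕ, x ^ (2 * n) ≤ N ∧ N + 1 ≤ (x + 1) ^ (2 * n) := by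
    have hex : ∃ y : ℕ, N + 1 ≤ (y + 1) ^ (2 * n) := by
      refine ⟨N, ?_⟩
      calc N + 1 = (N + 1) ^ 1 := (pow_one _).symm
        _ ≤ (N + 1) ^ (2 * n) := Nat.pow_le_pow_right (by omega) (by omega)
    classical
    refine ⟨Nat.find hex, ?_, Nat.find_spec hex⟩
    rcases Nat.eq_zero_or_pos (Nat.find hex) with h0 | h0
    · rw [h0, zero_pow (by omega)]
      exact Nat.zero_le _
    · have h1 := Nat.find_min hex (m := Nat.find hex - 1) (by omega)
      rw [not_le, Nat.sub_add_cancel h0] at h1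
      omega
  have hx2r : ((N:ℝ) + 1) ≤ ((x:ℝ) + 1) ^ (2 * n) := by exact_mod_cast hx2
  have hN1 : (0:ℝ) < (N:ℝ) + 1 := by positivity
  have hNq : ((N:ℝ) + 1) ^ q ≤ ((x:ℝ) + 1) ^ (2 * n * q) := by
    rw [pow_mul]
    exact pow_le_pow_left₀ hN1.le hx2r q
  -- it suffices to bound by a constant
  have hfin : ∀ (c : ℝ) (g : Cn n → ℂ) (w : Cn n), 0 ≤ c → c * (N + 1) ^ q ≤ C →
      ENNReal.ofReal (‖g w‖ ^ 2) * volume (P.ball a r) ≤ ENNReal.ofReal (c ^ 2) *
        ∫⁻ v in P.ball a (2 * r), ENNReal.ofReal (‖g v‖ ^ 2) →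
      ENNReal.ofReal (‖g w‖ ^ 2) * volume (P.ball a r)
            ≤ ENNReal.ofReal ((C / (N + 1) ^ q) ^ 2)
              * ∫⁻ v in P.ball a (2 * r), ENNReal.ofReal (‖g v‖ ^ 2) := by
    intro c g w hc hcC h
    refine h.trans ?_
    gcongr
    rw [le_div_iff₀ (by positivity)]
    exact hcC
  by_cases hx : x < 12 * K + 2
  · -- small `N`
    refine ⟨∅, by simp, by simp, ?_⟩
    intro g hg _ w hw
    refine hfin (2 ^ n) g w (by positivity) ?_ ?_
    · have h1 : ((x:ℝ) + 1) ≤ 12 * K + 2 := by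
        have : x + 1 ≤ 12 * K + 2 := hx
        exact_mod_cast this
      have h2 : ((N:ℝ) + 1) ^ q ≤ (12 * K + 2) ^ (2 * n * q) :=
        hNq.trans (pow_le_pow_left₀ (by positivity) h1 _)
      have h3 : 0 ≤ (2:ℝ) ^ n * (48 * K) ^ K := by positivity
      have h4 : (2:ℝ) ^ n * ((N:ℝ) + 1) ^ q ≤ 2 ^ n * (12 * K + 2) ^ (2 * n * q) :=
        mul_le_mul_of_nonneg_left h2 (by positivity)
      linarith
    · have hw' : w ∈ P.ball a (3 * r / 2) := Seminorm.ball_mono (by linarith) hw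
      have h1 := F4c_sup P hP hg hw'
      rw [F4c_vol P a r]
      have h2 : ENNReal.ofReal (((2:ℝ) ^ n) ^ 2) = 4 ^ n := by
        rw [← pow_mul, mul_comm n 2, pow_mul]
        norm_num
      rw [h2, mul_left_comm]
      gcongr
  · -- large `N`
    push Not at hx
    have hxr : (12 * (K:ℝ) + 2) ≤ x := by exact_mod_cast hx
    have hx1' : 0 < (x:ℝ) - 1 := by linarith
    set ε : ℝ := 3 * r / ((x:ℝ) - 1) with hε
    have hε0 : 0 < ε := by positivity
    have hεK : ε ≤ r / (4 * K) := by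
      rw [hε, div_le_div_iff₀ hx1' (by positivity)]
      nlinarith
    obtain ⟨Z, hZc, hZs, hZn⟩ := exists_net P hP a (r := 3 * r / 2) (ε := ε) (by positivity) hε0
    have hsub : P.ball a (3 * r / 2) ⊆ P.ball a (2 * r) := Seminorm.ball_mono (by linarith)
    refine ⟨Z, ?_, hZs.trans hsub, ?_⟩
    · have h1 : 1 + 2 * (3 * r / 2) / ε = x := by
        rw [hε]
        field_simp
        ring
      rw [h1] at hZc
      have h2 : (Z.card : ℝ) ≤ N := hZc.trans (by exact_mod_cast hx1)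
      exact_mod_cast h2
    · intro g hg hgZ w hw
      set J : ℝ≥0∞ := ∫⁻ v in P.ball a (2 * r), ENNReal.ofReal (‖g v‖ ^ 2) with hJ
      by_cases hJtop : J = ⊤
      · rw [hJtop, ENNReal.mul_top]
        · exact le_top
        · rw [Ne, ENNReal.ofReal_eq_zero, not_le]
          positivity
      set B := volume (P.ball (0 : Cn n) (r / 2)) with hB
      have hB0 : B ≠ 0 := F4c_vol_ne_zero P (by positivity)
      have hBt : B ≠ ⊤ := F4c_vol_ne_top P hP _
      have hBr : 0 < B.toReal := ENNReal.toReal_pos hB0 hBt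
      set M : ℝ := Real.sqrt (J.toReal / B.toReal) with hM
      have hM0 : 0 ≤ M := Real.sqrt_nonneg _
      have hM2 : M ^ 2 = J.toReal / B.toReal := Real.sq_sqrt (by positivity)
      have hgM : ∀ w ∈ P.ball a (3 * r / 2), ‖g w‖ ≤ M := by
        intro w hw
        have h1 := F4c_sup P hP hg hw
        apply Real.le_sqrt_of_sq_le
        rw [le_div_iff₀ hBr]
        have h2 := ENNReal.toReal_mono hJtop h1
        rwa [ENNReal.toReal_mul, ENNReal.toReal_ofReal (sq_nonneg _)] at h2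
      have hit := F4c_iter P hP hr hK0 hε0 hM0 hεK (Z := (Z : Set (Cn n))) hZn (hg.mono hsub) hgM
        (fun z hz => hgZ z hz) K
      have hrad : 3 * r / 2 - (K:ℝ) * (r / (2 * K)) = r := by
        field_simp
        ring
      rw [hrad] at hit
      have hgw := hit w hw
      have hρ : 8 * K * ε / r ≤ 48 * K / ((x:ℝ) + 1) := by
        rw [hε]
        have h1 : 8 * (K:ℝ) * (3 * r / ((x:ℝ) - 1)) / r = 24 * K / ((x:ℝ) - 1) := by
          field_simp
          ring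
        rw [h1, div_le_div_iff₀ hx1' (by positivity)]
        nlinarith
      have hgw2 : ‖g w‖ ≤ (48 * K / ((x:ℝ) + 1)) ^ K * M :=
        hgw.trans (mul_le_mul_of_nonneg_right (pow_le_pow_left₀ (by positivity) hρ K) hM0)
      refine hfin (2 ^ n * (48 * K / ((x:ℝ) + 1)) ^ K) g w (by positivity) ?_ ?_
      · have h2 : (48 * (K:ℝ) / ((x:ℝ) + 1)) ^ K * ((N:ℝ) + 1) ^ q ≤ (48 * K) ^ K := by
          rw [div_pow, div_mul_eq_mul_div, div_le_iff₀ (by positivity)]
          apply mul_le_mul_of_nonneg_left _ (by positivity)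
          refine hNq.trans ?_
          exact pow_le_pow_right₀ (by linarith [Nat.cast_nonneg (α := ℝ) x]) (by omega)
        have h3 : 0 ≤ (2:ℝ) ^ n * (12 * K + 2) ^ (2 * n * q) := by positivity
        have h4 : (2:ℝ) ^ n * ((48 * (K:ℝ) / ((x:ℝ) + 1)) ^ K * ((N:ℝ) + 1) ^ q) ≤
            2 ^ n * (48 * K) ^ K := mul_le_mul_of_nonneg_left h2 (by positivity)
        rw [mul_assoc]
        linarith
      · set θ : ℝ := (48 * K / ((x:ℝ) + 1)) ^ K with hθ
        have hθ0 : 0 ≤ θ := by positivity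
        rw [F4c_vol P a r, ← hB, ← hJ, ← ENNReal.ofReal_toReal hJtop]
        have h5 : (4:ℝ≥0∞) ^ n * B = ENNReal.ofReal (4 ^ n * B.toReal) := by
          rw [ENNReal.ofReal_mul (by positivity), ENNReal.ofReal_toReal hBt]
          norm_num
        rw [h5, ← ENNReal.ofReal_mul (sq_nonneg _), ← ENNReal.ofReal_mul (sq_nonneg _)]
        apply ENNReal.ofReal_le_ofReal
        have h6 : ‖g w‖ ^ 2 ≤ θ ^ 2 * (J.toReal / B.toReal) := by
          rw [← hM2, ← mul_pow]
          exact pow_le_pow_left₀ (norm_nonneg _) hgw2 2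
        have h7 : ((2:ℝ) ^ n * θ) ^ 2 = 4 ^ n * θ ^ 2 := by
          rw [mul_pow, ← pow_mul, mul_comm n 2, pow_mul]
          norm_num
        rw [h7]
        calc ‖g w‖ ^ 2 * (4 ^ n * B.toReal) ≤ (θ ^ 2 * (J.toReal / B.toReal)) * (4 ^ n * B.toReal) :=
              mul_le_mul_of_nonneg_right h6 (by positivity)
          _ = 4 ^ n * θ ^ 2 * J.toReal := by
              field_simp

end HankelSPC
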