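import Pool.Agent.Lib.MP_e1cf54_an.C6b
import Pool.Agent.Lib.MP_e1cf54_an.E4a

/-! Row F5a: overlap and sup sums -/

open MeasureTheory Set Filter
open scoped ENNReal NNReal Topology ContDiff

namespace HankelSPC

variable {n : ℕ}

namespace Dom

/-- Bounded overlap: every `z ∈ Ω` lies in at most `M` of the balls `B(a,s')`, `s' ≤ s₀`
(`Lattice.count` with `|a - z|_z ≤ 2 |z - a|_a < 2 s'`, `δ` comparable). Integral form. -/
theorem overlap (D : Dom n) {s₀ s s' : ℝ} (h : D.Good s₀) (hs : 0 < s) (hs' : s ≤ s₀)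
    (hs'' : s' ≤ s₀) : ∃ M : ℕ, ∀ A, D.Lattice s A →
      (∀ z ∈ D.Ω, ∀ F : Finset (Cn n), ↑F ⊆ A → (∀ a ∈ F, z ∈ D.B a s') → F.card ≤ M) ∧
      ∀ G : Cn n → ℝ≥0∞, (AEMeasurable G (volume.restrict D.Ω)) →
        ∑' a : A, ∫⁻ z in D.B (a : Cn n) s', G z ≤ M * ∫⁻ z in D.Ω, G z := by
  obtain ⟨M, hM⟩ := Lattice.count D h hs hs' (R := 2) (by norm_num)
  refine ⟨M, fun A hA => ?_⟩
  have hcount : ∀ z ∈ D.Ω, ∀ F : Finset (Cn n), ↑F ⊆ A → (∀ a ∈ F, z ∈ D.B a s') →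
      F.card ≤ M := by
    intro z hz F hF hFz
    refine hM A hA z hz F hF ?_
    intro a ha
    have haΩ : a ∈ D.Ω := hA.subset (hF ha)
    have h1 : z ∈ D.B a s₀ := D.B_mono a hs'' (hFz a ha)
    obtain ⟨-, h2, -, h4⟩ := h.sub a haΩ z h1
    have h5 := (h4 (a - z)).1
    have h6 : D.nrm a (a - z) < s' := by
      have := (D.mem_B).1 (hFz a ha)
      rwa [map_sub_rev]
    have h7 := h.le_one
    refine ⟨by linarith, h2⟩
  refine ⟨hcount, fun G hG => ?_⟩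
  have hc : Countable A := (Lattice.countable hs hA).to_subtype
  have h1 : ∀ a : A, ∫⁻ z in D.B (a : Cn n) s', G z =
      ∫⁻ z in D.Ω, (D.B (a : Cn n) s').indicator G z := by
    intro a
    have hsub : D.B (a : Cn n) s' ⊆ D.Ω := h.B_subset (hA.subset a.2) hs''
    rw [lintegral_indicator (D.isOpen_B _ _).measurableSet, Measure.restrict_restrict
      (D.isOpen_B _ _).measurableSet, inter_eq_self_of_subset_left hsub]
  rw [tsum_congr h1, ← lintegral_tsum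
    (fun a => hG.indicator (D.isOpen_B _ _).measurableSet), ← lintegral_const_mul' _ _ (by simp)]
  refine setLIntegral_mono' D.isOpen_Ω.measurableSet fun z hz => ?_
  rw [ENNReal.tsum_eq_iSup_sum]
  refine iSup_le fun T => ?_
  classical
  have h2 : ∑ a ∈ T, (D.B (a : Cn n) s').indicator G z =
      ∑ a ∈ T.filter (fun a : A => z ∈ D.B (a : Cn n) s'), G z := by
    rw [Finset.sum_filter]
    refine Finset.sum_congr rfl fun a _ => ?_
    rw [indicator_apply]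
  rw [h2, Finset.sum_const, nsmul_eq_mul]
  have h3 : (T.filter (fun a : A => z ∈ D.B (a : Cn n) s')).card ≤ M := by
    have := hcount z hz ((T.filter (fun a : A => z ∈ D.B (a : Cn n) s')).map
      (Function.Embedding.subtype _)) ?_ ?_
    · rwa [Finset.card_map] at this
    · intro x hx
      simp only [Finset.coe_map, mem_image] at hx
      obtain ⟨a, -, rfl⟩ := hx
      exact a.2
    · intro x hx
      obtain ⟨a, ha, rfl⟩ := Finset.mem_map.1 hx
      exact (Finset.mem_filter.1 ha).2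
  gcongr

/-- `∑_a sup_{B(a,s)} |g|² vol B(a,s) ≤ C ∫ |g|²` (`sup_bound`, `overlap` with `s' = 2s`). -/
theorem sum_sup_le (D : Dom n) {s₀ s : ℝ} (h : D.Good s₀) (hs : 0 < s) (hs' : 2 * s ≤ s₀) :
    ∃ C : ℝ, 0 < C ∧ ∀ A, D.Lattice s A → ∀ g : Cn n → ℂ, DifferentiableOn ℂ g D.Ω →
      ∑' a : A, supSq g (D.B a s) * volume (D.B (a : Cn n) s)
        ≤ ENNReal.ofReal C * ∫⁻ z in D.Ω, ENNReal.ofReal (‖g z‖ ^ 2) := by
  obtain ⟨C₁, hC₁0, hC₁⟩ := D.sup_bound h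
  obtain ⟨C₂, hC₂0, hC₂⟩ := D.volume_B
  obtain ⟨M, hM⟩ := D.overlap (s := s) (s' := 2 * s) h hs (by linarith) hs'
  refine ⟨C₂ * C₁ * (M + 1), by positivity, fun A hA g hg => ?_⟩
  obtain ⟨-, hM2⟩ := hM A hA
  have hmeas : AEMeasurable (fun z => ENNReal.ofReal (‖g z‖ ^ 2)) (volume.restrict D.Ω) := by
    have h1 : ContinuousOn (fun z => ENNReal.ofReal (‖g z‖ ^ 2)) D.Ω :=
      ENNReal.continuous_ofReal.comp_continuousOn (hg.continuousOn.norm.pow 2)
    exact h1.aemeasurable D.isOpen_Ω.measurableSet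
  have hterm : ∀ a : A, supSq g (D.B a s) * volume (D.B (a : Cn n) s) ≤
      ENNReal.ofReal (C₂ * C₁) * ∫⁻ z in D.B (a : Cn n) (2 * s), ENNReal.ofReal (‖g z‖ ^ 2) := by
    intro a
    have haΩ : (a : Cn n) ∈ D.Ω := hA.subset a.2
    have hδ := D.δ_pos haΩ
    unfold supSq
    rw [ENNReal.iSup_mul]
    refine iSup_le fun w => ?_
    rw [ENNReal.iSup_mul]
    refine iSup_le fun hw => ?_
    have h1 := hC₁ s hs hs' a haΩ g (hg.mono (h.B_subset haΩ hs')) w hw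
    have h2 := (hC₂ a haΩ s hs).2
    calc ENNReal.ofReal (‖g w‖ ^ 2) * volume (D.B (a : Cn n) s)
        ≤ ENNReal.ofReal (‖g w‖ ^ 2) *
          ENNReal.ofReal (C₂ * s ^ (2 * n) * D.δ a ^ (n + 1)) := by gcongr
      _ = ENNReal.ofReal C₂ * ENNReal.ofReal (‖g w‖ ^ 2 * s ^ (2 * n) * D.δ a ^ (n + 1)) := by
          rw [← ENNReal.ofReal_mul (by positivity), ← ENNReal.ofReal_mul (by positivity)]
          congr 1
          ring
      _ ≤ ENNReal.ofReal C₂ * (ENNReal.ofReal C₁ *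
          ∫⁻ v in D.B (a : Cn n) (2 * s), ENNReal.ofReal (‖g v‖ ^ 2)) := by gcongr
      _ = ENNReal.ofReal (C₂ * C₁) *
          ∫⁻ z in D.B (a : Cn n) (2 * s), ENNReal.ofReal (‖g z‖ ^ 2) := by
          rw [ENNReal.ofReal_mul hC₂0.le, mul_assoc]
  calc ∑' a : A, supSq g (D.B a s) * volume (D.B (a : Cn n) s)
      ≤ ∑' a : A, ENNReal.ofReal (C₂ * C₁) *
        ∫⁻ z in D.B (a : Cn n) (2 * s), ENNReal.ofReal (‖g z‖ ^ 2) := ENNReal.tsum_le_tsum hterm
    _ = ENNReal.ofReal (C₂ * C₁) *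
        ∑' a : A, ∫⁻ z in D.B (a : Cn n) (2 * s), ENNReal.ofReal (‖g z‖ ^ 2) :=
        ENNReal.tsum_mul_left
    _ ≤ ENNReal.ofReal (C₂ * C₁) * (M * ∫⁻ z in D.Ω, ENNReal.ofReal (‖g z‖ ^ 2)) := by
        exact mul_le_mul' le_rfl (hM2 _ hmeas)
    _ ≤ ENNReal.ofReal (C₂ * C₁ * (M + 1)) * ∫⁻ z in D.Ω, ENNReal.ofReal (‖g z‖ ^ 2) := by
        rw [← mul_assoc]
        refine mul_le_mul' ?_ le_rfl
        rw [← ENNReal.ofReal_natCast, ← ENNReal.ofReal_mul (by positivity)]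
        apply ENNReal.ofReal_le_ofReal
        have : (M : ℝ) ≤ M + 1 := by linarith
        gcongr

end Dom

end HankelSPC
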