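import Pool.Agent.Lib.MP_e1cf54_an.B11c
import Pool.Agent.Lib.MP_e1cf54_an.B2b
import Pool.Agent.Lib.MP_e1cf54_an.F5a
import Pool.Agent.Lib.MP_e1cf54_an.F1a

/-! Row F5b: solution and error -/

open MeasureTheory Set Filter
open scoped ENNReal NNReal Topology ContDiff

namespace HankelSPC

variable {n : ℕ}

namespace Dom

theorem F5b_formEval (g f₁ : Cn n → ℂ) (z X : Cn n) :
    formEval (fun j => g z * dzb f₁ z (ee j)) X = g z * dzb f₁ z X := by
  rw [dzb_sum f₁ z X]
  unfold formEval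
  rw [Finset.mul_sum]
  exact Finset.sum_congr rfl fun j _ => by ring

/-- `∑_{a : z ∈ B(a,s)} osc_a²` -/
noncomputable def F5b_S (D : Dom n) (s : ℝ) (A : Set (Cn n)) (f : Cn n → ℂ) (z : Cn n) : ℝ≥0∞ :=
  ∑' a : A, (D.B (a : Cn n) s).indicator
    (fun _ => ENNReal.ofReal (osc f (D.B (a : Cn n) (32 * s)) ^ 2)) z

theorem F5b_S_ge (D : Dom n) (s : ℝ) (A : Set (Cn n)) (f : Cn n → ℂ) {z a : Cn n} (ha : a ∈ A)
    (hz : z ∈ D.B a s) :
    ENNReal.ofReal (osc f (D.B a (32 * s)) ^ 2) ≤ D.F5b_S s A f z := by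
  have h1 := ENNReal.le_tsum (f := fun a : A => (D.B (a : Cn n) s).indicator
    (fun _ => ENNReal.ofReal (osc f (D.B (a : Cn n) (32 * s)) ^ 2)) z) ⟨a, ha⟩
  rwa [Set.indicator_of_mem hz] at h1

theorem F5b_S_fin (D : Dom n) (s : ℝ) (A : Set (Cn n)) (f : Cn n → ℂ) {z : Cn n} {M : ℕ}
    (hM : ∀ F : Finset (Cn n), ↑F ⊆ A → (∀ a ∈ F, z ∈ D.B a s) → F.card ≤ M) :
    D.F5b_S s A f z ≠ ⊤ := by
  classical
  have hfin : {a : A | z ∈ D.B (a : Cn n) s}.Finite := by
    by_contra hinf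
    obtain ⟨t, ht, htc⟩ := Set.Infinite.exists_subset_card_eq hinf (M + 1)
    have h1 := hM (t.map (Function.Embedding.subtype _)) (by
      intro a ha
      rw [Finset.mem_coe, Finset.mem_map] at ha
      obtain ⟨b, _, rfl⟩ := ha
      exact b.2) (by
      intro a ha
      rw [Finset.mem_map] at ha
      obtain ⟨b, hb, rfl⟩ := ha
      exact ht (Finset.mem_coe.2 hb))
    rw [Finset.card_map, htc] at h1
    omega
  unfold F5b_S
  rw [tsum_eq_sum (s := hfin.toFinset)]
  · rw [ENNReal.sum_ne_top]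
    intro a _
    by_cases h : z ∈ D.B (a : Cn n) s
    · rw [Set.indicator_of_mem h]
      exact ENNReal.ofReal_ne_top
    · rw [Set.indicator_of_notMem h]
      exact ENNReal.zero_ne_top
  · intro a ha
    apply Set.indicator_of_notMem
    intro h
    exact ha (hfin.mem_toFinset.2 h)

theorem F5b_S_meas (D : Dom n) (s : ℝ) {A : Set (Cn n)} (hA : A.Countable) (f : Cn n → ℂ) :
    Measurable (D.F5b_S s A f) := by
  have : Countable A := hA.to_subtype
  unfold F5b_S
  exact Measurable.tsum fun a => measurable_const.indicator (D.isOpen_B _ _).measurableSet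

/-- Solution of `∂̄u = g ∂̄f₁` by `dbar_nrm` with
`κ(z) = |g(z)| C₁ ∑_{a : z ∈ B(a,s)} osc(f;B(a,32s))` (a measurable function, finite sums);
`κ² ≤ M C₁² |g|² ∑_{a : z ∈ B(a,s)} osc_a²`. Weakly closed: `g ∂̄f₁ = ∂̄(g f₁)`, `g f₁ ∈ C¹`. -/
theorem hankel_solution (D : Dom n) (hD : D.DbarProp) {s₀ s C₁ : ℝ} (h : D.Good s₀) (hs : 0 < s)
    (hs' : 32 * s ≤ s₀) (hC₁ : 0 < C₁) : ∃ C : ℝ, 0 < C ∧ ∀ A, D.Lattice s A →
      ∀ f f₁ : Cn n → ℂ, D.Smoothing s C₁ A f f₁ → ∀ g : Cn n → ℂ, DifferentiableOn ℂ g D.Ω →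
        ∑' a : A, ENNReal.ofReal (osc f (D.B a (32 * s)) ^ 2) * supSq g (D.B a s)
          * volume (D.B (a : Cn n) s) ≠ ⊤ →
        ∃ u : Cn n → ℂ, AEStronglyMeasurable u (volume.restrict D.Ω) ∧
          WeakDbar D.Ω u (fun z j => g z * dzb f₁ z (ee j)) ∧
          ∫⁻ z in D.Ω, ENNReal.ofReal (‖u z‖ ^ 2) ≤ ENNReal.ofReal C * ∑' a : A,
            ENNReal.ofReal (osc f (D.B a (32 * s)) ^ 2) * supSq g (D.B a s)
              * volume (D.B (a : Cn n) s) := by
  obtain ⟨C₀, hC₀, hdb⟩ := D.dbar_nrm hD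
  obtain ⟨M, hM⟩ := D.overlap h hs (by linarith) (s' := s) (by linarith)
  refine ⟨C₀ * C₁ ^ 2, by positivity, ?_⟩
  intro A hA f f₁ hf₁ g hg hfin
  have hΩ : MeasurableSet D.Ω := D.isOpen_Ω.measurableSet
  have hAc : A.Countable := Lattice.countable hs hA
  have : Countable A := hAc.to_subtype
  have hSm := D.F5b_S_meas s hAc f
  set S := D.F5b_S s A f with hS
  have hSfin : ∀ z ∈ D.Ω, S z ≠ ⊤ := fun z hz => D.F5b_S_fin s A f ((hM A hA).1 z hz)
  have hgc : ContinuousOn g D.Ω := hg.continuousOn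
  have hgm : AEStronglyMeasurable g (volume.restrict D.Ω) := hgc.aestronglyMeasurable hΩ
  have hfd : ∀ j : Fin n, ContinuousOn (fun z => dzb f₁ z (ee j)) D.Ω := by
    intro j
    have h1 := hf₁.smooth.continuousOn_fderiv_of_isOpen D.isOpen_Ω le_rfl
    unfold dzb
    exact continuousOn_const.mul ((h1.clm_apply continuousOn_const).add
      (continuousOn_const.mul (h1.clm_apply continuousOn_const)))
  have hcl : WeakClosed D.Ω (fun z j => g z * dzb f₁ z (ee j)) := by
    have h1 := WeakDbar.mul D.isOpen_Ω (locL2_of_continuousOn D.isOpen_Ω hgc)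
      (fun _ => locL2_of_continuousOn D.isOpen_Ω continuousOn_const)
      (weakDbar_of_holomorphic D.isOpen_Ω hg) hf₁.smooth
    have h2 := h1.closed
    simpa only [mul_zero, zero_add] using h2
  -- the function κ
  have hκ2 : ∀ z, (C₁ * ‖g z‖ * Real.sqrt (S z).toReal) ^ 2 =
      C₁ ^ 2 * ‖g z‖ ^ 2 * (S z).toReal := by
    intro z
    rw [mul_pow, mul_pow, Real.sq_sqrt ENNReal.toReal_nonneg]
  have hbound : ∫⁻ z in D.Ω, ENNReal.ofReal ((C₁ * ‖g z‖ * Real.sqrt (S z).toReal) ^ 2) ≤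
      ENNReal.ofReal (C₁ ^ 2) * ∑' a : A,
        ENNReal.ofReal (osc f (D.B a (32 * s)) ^ 2) * supSq g (D.B a s)
          * volume (D.B (a : Cn n) s) := by
    calc ∫⁻ z in D.Ω, ENNReal.ofReal ((C₁ * ‖g z‖ * Real.sqrt (S z).toReal) ^ 2)
        ≤ ∫⁻ z in D.Ω, ENNReal.ofReal (C₁ ^ 2) * ∑' a : A, (D.B (a : Cn n) s).indicator
            (fun _ => ENNReal.ofReal (osc f (D.B a (32 * s)) ^ 2) * supSq g (D.B a s)) z := by
          refine setLIntegral_mono' hΩ fun z hz => ?_
          rw [hκ2, mul_assoc, ENNReal.ofReal_mul (by positivity), ENNReal.ofReal_mul (by positivity)]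
          refine mul_le_mul_right ?_ _
          calc ENNReal.ofReal (‖g z‖ ^ 2) * ENNReal.ofReal (S z).toReal
              ≤ ENNReal.ofReal (‖g z‖ ^ 2) * S z := mul_le_mul_right ENNReal.ofReal_toReal_le _
            _ = ∑' a : A, ENNReal.ofReal (‖g z‖ ^ 2) * (D.B (a : Cn n) s).indicator
                (fun _ => ENNReal.ofReal (osc f (D.B (a : Cn n) (32 * s)) ^ 2)) z := by
                rw [hS]
                unfold F5b_S
                rw [ENNReal.tsum_mul_left]
            _ ≤ _ := by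
                refine ENNReal.tsum_le_tsum fun a => ?_
                by_cases hza : z ∈ D.B (a : Cn n) s
                · rw [Set.indicator_of_mem hza, Set.indicator_of_mem hza, mul_comm]
                  refine mul_le_mul_right ?_ _
                  exact le_iSup₂ (f := fun w (_ : w ∈ D.B (a : Cn n) s) =>
                    ENNReal.ofReal (‖g w‖ ^ 2)) z hza
                · rw [Set.indicator_of_notMem hza, Set.indicator_of_notMem hza, mul_zero]
      _ = ENNReal.ofReal (C₁ ^ 2) * ∑' a : A, ∫⁻ z in D.Ω, (D.B (a : Cn n) s).indicator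
            (fun _ => ENNReal.ofReal (osc f (D.B a (32 * s)) ^ 2) * supSq g (D.B a s)) z := by
          rw [lintegral_const_mul' _ _ ENNReal.ofReal_ne_top, lintegral_tsum]
          intro a
          exact (measurable_const.indicator (D.isOpen_B _ _).measurableSet).aemeasurable
      _ ≤ _ := by
          refine mul_le_mul_right (ENNReal.tsum_le_tsum fun a => ?_) _
          calc ∫⁻ z in D.Ω, (D.B (a : Cn n) s).indicator
                (fun _ => ENNReal.ofReal (osc f (D.B a (32 * s)) ^ 2) * supSq g (D.B a s)) z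
              ≤ ∫⁻ z, (D.B (a : Cn n) s).indicator
                (fun _ => ENNReal.ofReal (osc f (D.B a (32 * s)) ^ 2) * supSq g (D.B a s)) z :=
                setLIntegral_le_lintegral _ _
            _ = _ := by
                rw [lintegral_indicator_const (D.isOpen_B _ _).measurableSet]
  obtain ⟨u, hum, hud, hub⟩ := hdb (fun z j => g z * dzb f₁ z (ee j))
    (fun z => C₁ * ‖g z‖ * Real.sqrt (S z).toReal)
    (fun j => hgm.mul ((hfd j).aestronglyMeasurable hΩ)) hcl
    (((hgm.norm.aemeasurable).const_mul C₁).mul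
      (Real.continuous_sqrt.measurable.comp hSm.ennreal_toReal).aemeasurable)
    (fun z _ => by positivity)
    (by
      intro z hz X
      show ‖formEval (fun j => g z * dzb f₁ z (ee j)) X‖ ≤ _
      rw [F5b_formEval, norm_mul]
      obtain ⟨a, ha, hza⟩ := hA.cover z hz
      have h1 := hf₁.dbar a ha z hza X
      have h2 : osc f (D.B a (32 * s)) ≤ Real.sqrt (S z).toReal := by
        apply Real.le_sqrt_of_sq_le
        have h3 := (ENNReal.toReal_le_toReal ENNReal.ofReal_ne_top (hSfin z hz)).2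
          (D.F5b_S_ge s A f ha hza)
        rwa [ENNReal.toReal_ofReal (sq_nonneg _)] at h3
      have h4 : 0 ≤ D.nrm z X := apply_nonneg _ _
      calc ‖g z‖ * ‖dzb f₁ z X‖ ≤ ‖g z‖ * (C₁ * osc f (D.B a (32 * s)) * D.nrm z X) :=
            mul_le_mul_of_nonneg_left h1 (norm_nonneg _)
        _ ≤ ‖g z‖ * (C₁ * Real.sqrt (S z).toReal * D.nrm z X) := by
            refine mul_le_mul_of_nonneg_left (mul_le_mul_of_nonneg_right ?_ h4) (norm_nonneg _)
            exact mul_le_mul_of_nonneg_left h2 hC₁.le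
        _ = _ := by ring)
    (ne_top_of_le_ne_top (ENNReal.mul_ne_top ENNReal.ofReal_ne_top hfin) hbound)
  refine ⟨u, hum, hud, hub.trans ?_⟩
  rw [ENNReal.ofReal_mul hC₀.le, mul_assoc]
  exact mul_le_mul_right hbound _

/-- `∫ |f - f₁|²|g|² ≤ ∑_a ∫_{B(a,s)} |f-f₁|² sup_{B(a,s)} |g|²`. -/
theorem smoothing_error (D : Dom n) {s C₁ : ℝ} (hs : 0 < s) (hC₁ : 0 < C₁) {A : Set (Cn n)}
    (hA : D.Lattice s A) {f f₁ g : Cn n → ℂ} (hf : MemLp f 2 (volume.restrict D.Ω))
    (hS : D.Smoothing s C₁ A f f₁) (hg : DifferentiableOn ℂ g D.Ω)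
    (hf₁ : ∀ a ∈ A, MemLp f₁ 2 (volume.restrict (D.B a s)))
    (hsub : ∀ a ∈ A, D.B a s ⊆ D.Ω) :
    ∫⁻ z in D.Ω, ENNReal.ofReal (‖(f z - f₁ z) * g z‖ ^ 2) ≤ ENNReal.ofReal C₁ * ∑' a : A,
      ENNReal.ofReal (osc f (D.B a (32 * s)) ^ 2) * supSq g (D.B a s)
        * volume (D.B (a : Cn n) s) := by
  have hAc : A.Countable := Lattice.countable hs hA
  have : Countable A := hAc.to_subtype
  have hcov : D.Ω ⊆ ⋃ a : A, D.B (a : Cn n) s := by
    intro z hz
    obtain ⟨a, ha, hza⟩ := hA.cover z hz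
    exact mem_iUnion.2 ⟨⟨a, ha⟩, hza⟩
  calc ∫⁻ z in D.Ω, ENNReal.ofReal (‖(f z - f₁ z) * g z‖ ^ 2)
      ≤ ∫⁻ z in ⋃ a : A, D.B (a : Cn n) s, ENNReal.ofReal (‖(f z - f₁ z) * g z‖ ^ 2) :=
        lintegral_mono_set hcov
    _ ≤ ∑' a : A, ∫⁻ z in D.B (a : Cn n) s, ENNReal.ofReal (‖(f z - f₁ z) * g z‖ ^ 2) :=
        lintegral_iUnion_le _ _
    _ ≤ ∑' a : A, ENNReal.ofReal C₁ * (ENNReal.ofReal (osc f (D.B a (32 * s)) ^ 2) *
          supSq g (D.B a s) * volume (D.B (a : Cn n) s)) := by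
        refine ENNReal.tsum_le_tsum fun a => ?_
        have hBm : MeasurableSet (D.B (a : Cn n) s) := (D.isOpen_B _ _).measurableSet
        have hd : MemLp (fun z => f z - f₁ z) 2 (volume.restrict (D.B (a : Cn n) s)) :=
          (hf.mono_measure (Measure.restrict_mono (hsub a a.2) le_rfl)).sub (hf₁ a a.2)
        have hi : Integrable (fun z => ‖f z - f₁ z‖ ^ 2) (volume.restrict (D.B (a : Cn n) s)) :=
          hd.integrable_norm_pow (by norm_num)
        have hvol : volume (D.B (a : Cn n) s) ≠ ⊤ :=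
          ne_top_of_le_ne_top D.volume_Ω_lt_top.ne (measure_mono (hsub a a.2))
        calc ∫⁻ z in D.B (a : Cn n) s, ENNReal.ofReal (‖(f z - f₁ z) * g z‖ ^ 2)
            ≤ ∫⁻ z in D.B (a : Cn n) s, supSq g (D.B a s) *
                ENNReal.ofReal (‖f z - f₁ z‖ ^ 2) := by
              refine setLIntegral_mono' hBm fun z hz => ?_
              rw [norm_mul, mul_pow, ENNReal.ofReal_mul (by positivity), mul_comm]
              refine mul_le_mul_left ?_ _
              exact le_iSup₂ (f := fun w (_ : w ∈ D.B (a : Cn n) s) =>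
                ENNReal.ofReal (‖g w‖ ^ 2)) z hz
          _ = supSq g (D.B a s) *
                ∫⁻ z in D.B (a : Cn n) s, ENNReal.ofReal (‖f z - f₁ z‖ ^ 2) := by
              rw [lintegral_const_mul'']
              exact hi.aestronglyMeasurable.aemeasurable.ennreal_ofReal
          _ = supSq g (D.B a s) *
                ENNReal.ofReal (∫ z in D.B (a : Cn n) s, ‖f z - f₁ z‖ ^ 2) := by
              rw [ofReal_integral_eq_lintegral_ofReal hi
                (Filter.Eventually.of_forall fun z => by positivity)]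
          _ ≤ supSq g (D.B a s) * ENNReal.ofReal (C₁ * osc f (D.B a (32 * s)) ^ 2 *
                (volume (D.B (a : Cn n) s)).toReal) :=
              mul_le_mul_right (ENNReal.ofReal_le_ofReal (hS.close a a.2)) _
          _ = _ := by
              rw [ENNReal.ofReal_mul (by positivity), ENNReal.ofReal_mul hC₁.le,
                ENNReal.ofReal_toReal hvol]
              ring
    _ = _ := ENNReal.tsum_mul_left

end Dom

end HankelSPC
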