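import Pool.Agent.Lib.MP_e1cf54_an.A6
import Pool.Agent.Lib.MP_e1cf54_an.E1b
import Pool.Agent.Lib.MP_e1cf54_an.F3b
import Pool.Agent.Lib.MP_e1cf54_an.F5b

/-! Row F5c: the operator -/

open MeasureTheory Set Filter
open scoped ENNReal NNReal Topology ContDiff

namespace HankelSPC

variable {n : ℕ}

lemma F5c_norm {ν : Measure (Cn n)} (U : Lp ℂ 2 ν) :
    ENNReal.ofReal (‖U‖ ^ 2) = ∫⁻ z, ENNReal.ofReal (‖U z‖ ^ 2) ∂ν := by
  rw [Lp.norm_def, ENNReal.ofReal_pow ENNReal.toReal_nonneg,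
    ENNReal.ofReal_toReal (Lp.eLpNorm_ne_top U),
    eLpNorm_eq_lintegral_rpow_enorm_toReal (by norm_num) (by norm_num)]
  rw [← ENNReal.rpow_natCast, ← ENNReal.rpow_mul]
  have h1 : (1 / (2 : ℝ≥0∞).toReal * ((2 : ℕ) : ℝ)) = 1 := by norm_num
  rw [h1, ENNReal.rpow_one]
  refine lintegral_congr fun z => ?_
  rw [ENNReal.ofReal_pow (norm_nonneg _), ofReal_norm]
  norm_num

lemma F5c_memLp {ν : Measure (Cn n)} {F : Cn n → ℂ} (hF : AEStronglyMeasurable F ν)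
    (h : ∫⁻ z, ENNReal.ofReal (‖F z‖ ^ 2) ∂ν ≠ ⊤) : MemLp F 2 ν := by
  refine ⟨hF, ?_⟩
  rw [eLpNorm_lt_top_iff_lintegral_rpow_enorm_lt_top (by norm_num) (by norm_num)]
  refine lt_of_le_of_lt (le_of_eq ?_) h.lt_top
  refine lintegral_congr fun z => ?_
  rw [ENNReal.ofReal_pow (norm_nonneg _), ofReal_norm]
  norm_num

lemma F5c_restrict {Ω : Set (Cn n)} (h0 : volume Ω ≠ 0) (h1 : volume Ω ≠ ⊤) {F : Cn n → ℂ}
    (hF : MemLp F 2 (vol Ω)) : MemLp F 2 (volume.restrict Ω) := by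
  refine hF.of_measure_le_smul (c := volume Ω) h1 (le_of_eq ?_)
  unfold vol
  rw [smul_smul, ENNReal.mul_inv_cancel h0 h1, one_smul]

lemma F5c_loc {Ω : Set (Cn n)} {F : Cn n → ℂ} (hF : MemLp F 2 (volume.restrict Ω)) :
    LocL2 Ω F := fun _ hK _ => hF.mono_measure (Measure.restrict_mono hK le_rfl)

lemma F5c_dzb_cont {Ω : Set (Cn n)} (hΩ : IsOpen Ω) {f₁ : Cn n → ℂ} (hf₁ : ContDiffOn ℝ 1 f₁ Ω)
    (j : Fin n) : ContinuousOn (fun z => dzb f₁ z (ee j)) Ω := by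
  have h1 : ContinuousOn (fun z => fderiv ℝ f₁ z) Ω := hf₁.continuousOn_fderiv_of_isOpen hΩ le_rfl
  unfold dzb
  exact continuousOn_const.mul
    ((h1.clm_apply continuousOn_const).add (continuousOn_const.mul (h1.clm_apply continuousOn_const)))

lemma F5c_holo_cont {Ω : Set (Cn n)} (g : bergman Ω) : ContinuousOn (holo g) Ω :=
  (holo_diff g).continuousOn

/-- the linear relation -/
def F5c_rel (Ω : Set (Cn n)) (f f₁ : Cn n → ℂ) (g : bergman Ω) (U : Lp ℂ 2 (vol Ω)) : Prop :=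
  WeakDbar Ω (fun z => U z - (f z - f₁ z) * holo g z) (fun z j => holo g z * dzb f₁ z (ee j))

section

variable {Ω : Set (Cn n)} {f f₁ : Cn n → ℂ}

lemma F5c_locU (hΩ : IsOpen Ω) (h0 : volume Ω ≠ 0) (h1 : volume Ω ≠ ⊤)
    (hf : MemLp f 2 (volume.restrict Ω)) (hf₁ : ContDiffOn ℝ 1 f₁ Ω) (g : bergman Ω)
    (U : Lp ℂ 2 (vol Ω)) : LocL2 Ω (fun z => U z - (f z - f₁ z) * holo g z) := by
  have hU : LocL2 Ω (fun z => U z) := F5c_loc (F5c_restrict h0 h1 (Lp.memLp U))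
  have hff : LocL2 Ω (fun z => f z + - f₁ z) :=
    (F5c_loc hf).add (locL2_of_continuousOn hΩ hf₁.continuousOn.neg)
  have hm : LocL2 Ω (fun z => - holo g z * (f z + - f₁ z)) :=
    hff.mul_continuousOn (F5c_holo_cont g).neg hΩ
  have := hU.add hm
  refine (fun K hK hKc => ?_)
  have h2 := this K hK hKc
  refine (memLp_congr_ae (Eventually.of_forall fun z => ?_)).1 h2
  show U z + - holo g z * (f z + - f₁ z) = U z - (f z - f₁ z) * holo g z
  ring

lemma F5c_locB (hΩ : IsOpen Ω) (hf₁ : ContDiffOn ℝ 1 f₁ Ω) (g : bergman Ω) (j : Fin n) :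
    LocL2 Ω (fun z => holo g z * dzb f₁ z (ee j)) :=
  locL2_of_continuousOn hΩ ((F5c_holo_cont g).mul (F5c_dzb_cont hΩ hf₁ j))

lemma F5c_add (hΩ : IsOpen Ω) (h0 : volume Ω ≠ 0) (h1 : volume Ω ≠ ⊤)
    (hf : MemLp f 2 (volume.restrict Ω)) (hf₁ : ContDiffOn ℝ 1 f₁ Ω) (g g' : bergman Ω)
    (U U' : Lp ℂ 2 (vol Ω)) (h : F5c_rel Ω f f₁ g U) (h' : F5c_rel Ω f f₁ g' U') :
    F5c_rel Ω f f₁ (g + g') (U + U') := by
  have h2 := WeakDbar.add hΩ (F5c_locU hΩ h0 h1 hf hf₁ g U) (F5c_locU hΩ h0 h1 hf hf₁ g' U')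
    (F5c_locB hΩ hf₁ g) (F5c_locB hΩ hf₁ g') h h'
  refine h2.congr hΩ ?_ ?_
  · have h3 := (ae_vol_iff h0 h1).1 (Lp.coeFn_add U U')
    filter_upwards [h3, ae_restrict_mem hΩ.measurableSet] with z hz hzΩ
    have h4 := holo_add hΩ h0 h1 g g' hzΩ
    simp only at h4
    rw [hz, h4, Pi.add_apply]
    ring
  · intro j
    filter_upwards [ae_restrict_mem hΩ.measurableSet] with z hzΩ
    have h4 := holo_add hΩ h0 h1 g g' hzΩ
    simp only at h4
    rw [h4]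
    ring

lemma F5c_smul (hΩ : IsOpen Ω) (h0 : volume Ω ≠ 0) (h1 : volume Ω ≠ ⊤) (c : ℂ) (g : bergman Ω)
    (U : Lp ℂ 2 (vol Ω)) (h : F5c_rel Ω f f₁ g U) :
    F5c_rel Ω f f₁ (c • g) (c • U) := by
  have h2 := WeakDbar.const_mul c h
  refine h2.congr hΩ ?_ ?_
  · have h3 := (ae_vol_iff h0 h1).1 (Lp.coeFn_smul c U)
    filter_upwards [h3, ae_restrict_mem hΩ.measurableSet] with z hz hzΩ
    have h4 := holo_smul hΩ h0 h1 c g hzΩ
    simp only at h4
    rw [hz, h4, Pi.smul_apply, smul_eq_mul]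
    ring
  · intro j
    filter_upwards [ae_restrict_mem hΩ.measurableSet] with z hzΩ
    have h4 := holo_smul hΩ h0 h1 c g hzΩ
    simp only at h4
    rw [h4]
    ring

lemma F5c_zero (hΩ : IsOpen Ω) (h0 : volume Ω ≠ 0) (h1 : volume Ω ≠ ⊤)
    (U : Lp ℂ 2 (vol Ω)) (h : F5c_rel Ω f f₁ 0 U) : U ∈ bergman Ω := by
  have hh : ∀ z ∈ Ω, holo (0 : bergman Ω) z = 0 := by
    intro z hz
    have h4 := holo_smul hΩ h0 h1 (0 : ℂ) (0 : bergman Ω) hz
    simpa using h4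
  have h2 : WeakDbar Ω (fun z => U z) (fun _ _ => 0) := by
    refine h.congr hΩ ?_ ?_
    · filter_upwards [ae_restrict_mem hΩ.measurableSet] with z hzΩ
      rw [hh z hzΩ]
      ring
    · intro j
      filter_upwards [ae_restrict_mem hΩ.measurableSet] with z hzΩ
      rw [hh z hzΩ]
      ring
  obtain ⟨g, hg, hUg⟩ := weyl hΩ (F5c_loc (F5c_restrict h0 h1 (Lp.memLp U))) h2
  exact ⟨g, hg, (ae_vol_iff h0 h1).2 hUg⟩

lemma F5c_hankel (hΩ : IsOpen Ω) (h0 : volume Ω ≠ 0) (h1 : volume Ω ≠ ⊤)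
    (hf₁ : ContDiffOn ℝ 1 f₁ Ω) (g : bergman Ω)
    (h : Lp ℂ 2 (vol Ω)) (hh : h =ᵐ[vol Ω] fun z => f z * (g : Lp ℂ 2 (vol Ω)) z) :
    F5c_rel Ω f f₁ g h := by
  have h2 : WeakDbar Ω (fun z => f₁ z * holo g z)
      (fun z j => f₁ z * 0 + holo g z * dzb f₁ z (ee j)) :=
    WeakDbar.mul hΩ (locL2_of_continuousOn hΩ (F5c_holo_cont g))
      (fun _ => locL2_of_continuousOn hΩ continuousOn_const)
      (weakDbar_of_holomorphic hΩ (holo_diff g)) hf₁
  refine h2.congr hΩ ?_ ?_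
  · have h3 := (ae_vol_iff h0 h1).1 hh
    have h4 := (ae_vol_iff h0 h1).1 (holo_ae g)
    filter_upwards [h3, h4] with z hz hz'
    rw [hz, hz']
    ring
  · intro j
    filter_upwards with z
    ring

end

namespace Dom

lemma F5c_memB (D : Dom n) {s₀ s : ℝ} (h : D.Good s₀) (hs : 0 < s) (hs' : 32 * s ≤ s₀)
    {f₁ : Cn n → ℂ} (hf₁ : ContDiffOn ℝ 1 f₁ D.Ω) {a : Cn n} (ha : a ∈ D.Ω) :
    MemLp f₁ 2 (volume.restrict (D.B a s)) := by
  have hcl : closure (D.B a s) ⊆ D.Ω := by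
    refine (D.closure_B_subset a s).trans ?_
    intro w hw
    have hw' : D.nrm a (w - a) ≤ s := hw
    exact h.B_subset ha (s := 2 * s) (by linarith) ((D.mem_B).2 (by linarith))
  have hbd : Bornology.IsBounded (closure (D.B a s)) := by
    refine (D.isCompact_le (t := 0) (by norm_num)).isBounded.subset ?_
    intro w hw
    have h1 : D.ρ w < 0 := hcl hw
    exact h1.le
  have hcpt : IsCompact (closure (D.B a s)) := Metric.isCompact_of_isClosed_isBounded isClosed_closure hbd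
  have hL : LocL2 D.Ω f₁ := locL2_of_continuousOn D.isOpen_Ω hf₁.continuousOn
  exact (hL _ hcl hcpt).mono_measure (Measure.restrict_mono subset_closure le_rfl)

/-- For `g ∈ L²_a` put `rel g U ⟺ ∂̄(U - (f - f₁) g) = g ∂̄f₁` weakly. `rel` is linear, `rel 0 U`
implies that `U` is (a.e.) holomorphic (`weyl`), and if `h = f g ∈ L²` then `rel g h` holds
(`f₁ g` is `C¹`). A `U` with the right bound: `U = u + (f - f₁) g` with `u` from `hankel_solution`.
Boundedness of `T`: `osc_a ≤ Mb` and `sum_sup_le`. Then `exists_operator`. -/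
theorem hankel_upper (D : Dom n) (hD : D.DbarProp) {s₀ s : ℝ} (h : D.Good s₀) (hs : 0 < s) (hs' : 32 * s ≤ s₀) :
    ∃ C : ℝ, 0 < C ∧ ∀ A, D.Lattice s A → ∀ f : Cn n → ℂ, MemLp f 2 (volume.restrict D.Ω) →
      (∃ Mb : ℝ, ∀ a ∈ A, osc f (D.B a (32 * s)) ≤ Mb) →
      ∃ T : bergman D.Ω →L[ℂ] Lp ℂ 2 (vol D.Ω), IsHankel D.Ω f T ∧
        ∀ g : bergman D.Ω, ENNReal.ofReal (‖T g‖ ^ 2) ≤ ENNReal.ofReal C * ∑' a : A,
          ENNReal.ofReal (osc f (D.B a (32 * s)) ^ 2) * supSq (holo g) (D.B a s)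
            * volume (D.B (a : Cn n) s) := by
  have hΩ := D.isOpen_Ω
  have h0 : volume D.Ω ≠ 0 := D.volume_Ω_pos.ne'
  have h1 : volume D.Ω ≠ ⊤ := D.volume_Ω_lt_top.ne
  obtain ⟨C₁, hC₁, hdec⟩ := D.exists_decomposition h hs hs'
  obtain ⟨C₂, hC₂, hsol⟩ := D.hankel_solution hD h hs hs' hC₁
  obtain ⟨C₃, hC₃, hsup⟩ := D.sum_sup_le h hs (by linarith)
  set V : ℝ := ((volume D.Ω)⁻¹).toReal with hV
  have hVinv : (volume D.Ω)⁻¹ ≠ ⊤ := ENNReal.inv_ne_top.2 h0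
  have hV0 : 0 < V := ENNReal.toReal_pos (ENNReal.inv_ne_zero.2 h1) hVinv
  have hVof : ENNReal.ofReal V = (volume D.Ω)⁻¹ := ENNReal.ofReal_toReal hVinv
  refine ⟨V * (2 * C₂ + 2 * C₁), by positivity, ?_⟩
  intro A hA f hf hMb
  obtain ⟨Mb, hMb⟩ := hMb
  obtain ⟨f₁, hf₁⟩ := hdec A hA f hf
  have hf₁s := hf₁.smooth
  set Sg : bergman D.Ω → ℝ≥0∞ := fun g => ∑' a : A,
          ENNReal.ofReal (osc f (D.B a (32 * s)) ^ 2) * supSq (holo g) (D.B a s)
            * volume (D.B (a : Cn n) s) with hSg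
  have hSle : ∀ g : bergman D.Ω, Sg g ≤ ENNReal.ofReal (Mb ^ 2 * C₃) *
      ∫⁻ z in D.Ω, ENNReal.ofReal (‖holo g z‖ ^ 2) := by
    intro g
    calc Sg g ≤ ∑' a : A, ENNReal.ofReal (Mb ^ 2) * (supSq (holo g) (D.B a s)
            * volume (D.B (a : Cn n) s)) := by
          refine ENNReal.tsum_le_tsum fun a => ?_
          rw [mul_assoc]
          refine mul_le_mul_left ?_ _
          apply ENNReal.ofReal_le_ofReal
          exact pow_le_pow_left₀ (osc_nonneg _ _) (hMb a a.2) 2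
      _ = ENNReal.ofReal (Mb ^ 2) * ∑' a : A, (supSq (holo g) (D.B a s)
            * volume (D.B (a : Cn n) s)) := ENNReal.tsum_mul_left
      _ ≤ ENNReal.ofReal (Mb ^ 2) * (ENNReal.ofReal C₃ *
            ∫⁻ z in D.Ω, ENNReal.ofReal (‖holo g z‖ ^ 2)) := by
          gcongr
          exact hsup A hA (holo g) (holo_diff g)
      _ = _ := by rw [← mul_assoc, ← ENNReal.ofReal_mul (sq_nonneg _)]
  have hholo : ∀ g : bergman D.Ω, ∫⁻ z in D.Ω, ENNReal.ofReal (‖holo g z‖ ^ 2) ≠ ⊤ := by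
    intro g htop
    have h2 := norm_sq_holo h0 h1 g
    rw [htop, ENNReal.mul_top (ENNReal.inv_ne_zero.2 h1)] at h2
    exact ENNReal.ofReal_ne_top h2
  have hSfin : ∀ g : bergman D.Ω, Sg g ≠ ⊤ := fun g =>
    ne_top_of_le_ne_top (ENNReal.mul_ne_top ENNReal.ofReal_ne_top (hholo g)) (hSle g)
  -- the good solution
  have hgood : ∀ g : bergman D.Ω, ∃ U : Lp ℂ 2 (vol D.Ω), F5c_rel D.Ω f f₁ g U ∧
      ENNReal.ofReal (‖U‖ ^ 2) ≤ ENNReal.ofReal (V * (2 * C₂ + 2 * C₁)) * Sg g := by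
    intro g
    obtain ⟨u, hum, hu, hub⟩ := hsol A hA f f₁ hf₁ (holo g) (holo_diff g) (hSfin g)
    have herr := D.smoothing_error hs hC₁ hA hf hf₁ (holo_diff g)
      (fun a ha => D.F5c_memB h hs hs' hf₁s (hA.subset ha))
      (fun a ha => h.B_subset (hA.subset ha) (by linarith))
    set U₀ : Cn n → ℂ := fun z => u z + (f z - f₁ z) * holo g z with hU₀
    have hmeas2 : AEStronglyMeasurable (fun z => (f z - f₁ z) * holo g z) (volume.restrict D.Ω) :=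
      (hf.aestronglyMeasurable.sub
        (hf₁s.continuousOn.aestronglyMeasurable hΩ.measurableSet)).mul
        ((F5c_holo_cont g).aestronglyMeasurable hΩ.measurableSet)
    have hUm : AEStronglyMeasurable U₀ (volume.restrict D.Ω) := hum.add hmeas2
    have hUb : ∫⁻ z in D.Ω, ENNReal.ofReal (‖U₀ z‖ ^ 2) ≤
        ENNReal.ofReal (2 * C₂ + 2 * C₁) * Sg g := by
      calc ∫⁻ z in D.Ω, ENNReal.ofReal (‖U₀ z‖ ^ 2)
          ≤ ∫⁻ z in D.Ω, (2 * ENNReal.ofReal (‖u z‖ ^ 2) +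
              2 * ENNReal.ofReal (‖(f z - f₁ z) * holo g z‖ ^ 2)) := by
            refine lintegral_mono fun z => ?_
            have h5 : ‖U₀ z‖ ^ 2 ≤ 2 * ‖u z‖ ^ 2 + 2 * ‖(f z - f₁ z) * holo g z‖ ^ 2 := by
              have h6 : ‖U₀ z‖ ≤ ‖u z‖ + ‖(f z - f₁ z) * holo g z‖ := norm_add_le _ _
              have h7 : ‖U₀ z‖ ^ 2 ≤ (‖u z‖ + ‖(f z - f₁ z) * holo g z‖) ^ 2 :=
                pow_le_pow_left₀ (norm_nonneg _) h6 2
              nlinarith [sq_nonneg (‖u z‖ - ‖(f z - f₁ z) * holo g z‖)]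
            calc ENNReal.ofReal (‖U₀ z‖ ^ 2)
                ≤ ENNReal.ofReal (2 * ‖u z‖ ^ 2 + 2 * ‖(f z - f₁ z) * holo g z‖ ^ 2) :=
                  ENNReal.ofReal_le_ofReal h5
              _ = _ := by
                  rw [ENNReal.ofReal_add (by positivity) (by positivity),
                    ENNReal.ofReal_mul (by norm_num), ENNReal.ofReal_mul (by norm_num)]
                  norm_num
        _ = 2 * (∫⁻ z in D.Ω, ENNReal.ofReal (‖u z‖ ^ 2)) +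
              2 * (∫⁻ z in D.Ω, ENNReal.ofReal (‖(f z - f₁ z) * holo g z‖ ^ 2)) := by
            rw [lintegral_add_left', lintegral_const_mul' _ _ (by norm_num),
              lintegral_const_mul' _ _ (by norm_num)]
            exact (ENNReal.measurable_ofReal.comp_aemeasurable
                (hum.norm.aemeasurable.pow_const 2)).const_mul _
        _ ≤ 2 * (ENNReal.ofReal C₂ * Sg g) + 2 * (ENNReal.ofReal C₁ * Sg g) := by
            gcongr
        _ = ENNReal.ofReal (2 * C₂ + 2 * C₁) * Sg g := by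
            rw [ENNReal.ofReal_add (by positivity) (by positivity),
              ENNReal.ofReal_mul (by norm_num), ENNReal.ofReal_mul (by norm_num)]
            norm_num
            ring
    have hvolU : ∫⁻ z, ENNReal.ofReal (‖U₀ z‖ ^ 2) ∂(vol D.Ω) ≤
        ENNReal.ofReal (V * (2 * C₂ + 2 * C₁)) * Sg g := by
      rw [lintegral_vol, ENNReal.ofReal_mul hV0.le, hVof, mul_assoc]
      gcongr
    have hmem : MemLp U₀ 2 (vol D.Ω) := by
      refine F5c_memLp ?_ ?_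
      · unfold vol
        exact hUm.smul_measure _
      · exact ne_top_of_le_ne_top (ENNReal.mul_ne_top ENNReal.ofReal_ne_top (hSfin g)) hvolU
    refine ⟨hmem.toLp U₀, ?_, ?_⟩
    · have h6 : WeakDbar D.Ω u (fun z j => holo g z * dzb f₁ z (ee j)) := hu
      refine h6.congr hΩ ?_ ?_
      · have h7 := (ae_vol_iff h0 h1).1 (hmem.coeFn_toLp)
        filter_upwards [h7] with z hz
        rw [hz]
        simp only [hU₀]
        ring
      · intro j
        rfl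
    · rw [F5c_norm]
      refine le_trans (le_of_eq ?_) hvolU
      refine lintegral_congr_ae ?_
      filter_upwards [hmem.coeFn_toLp] with z hz
      rw [hz]
  have hCb : ∀ g : bergman D.Ω, ENNReal.ofReal (V * (2 * C₂ + 2 * C₁)) * Sg g ≤
      ENNReal.ofReal ((Real.sqrt ((2 * C₂ + 2 * C₁) * (Mb ^ 2 * C₃)) * ‖g‖) ^ 2) := by
    intro g
    have h8 : 0 ≤ (2 * C₂ + 2 * C₁) * (Mb ^ 2 * C₃) := by positivity
    rw [mul_pow, Real.sq_sqrt h8, ENNReal.ofReal_mul h8, norm_sq_holo h0 h1 g,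
      ENNReal.ofReal_mul hV0.le, hVof, ENNReal.ofReal_mul (by positivity : 0 ≤ 2 * C₂ + 2 * C₁)]
    calc (volume D.Ω)⁻¹ * ENNReal.ofReal (2 * C₂ + 2 * C₁) * Sg g
        ≤ (volume D.Ω)⁻¹ * ENNReal.ofReal (2 * C₂ + 2 * C₁) * (ENNReal.ofReal (Mb ^ 2 * C₃) *
      ∫⁻ z in D.Ω, ENNReal.ofReal (‖holo g z‖ ^ 2)) := by
          gcongr
          exact hSle g
      _ = _ := by ring
  obtain ⟨T, hT1, hT2⟩ := exists_operator (bergman D.Ω) (isClosed_bergman hΩ h0 h1)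
    (F5c_rel D.Ω f f₁) (fun g g' U U' => F5c_add hΩ h0 h1 hf hf₁s g g' U U')
    (fun c g U => F5c_smul hΩ h0 h1 c g U) (fun U => F5c_zero hΩ h0 h1 U)
    (Real.sqrt_nonneg ((2 * C₂ + 2 * C₁) * (Mb ^ 2 * C₃))) (by
      intro g
      obtain ⟨U, hU, hUb⟩ := hgood g
      refine ⟨U, hU, ?_⟩
      have h9 := hUb.trans (hCb g)
      rw [ENNReal.ofReal_le_ofReal_iff (sq_nonneg _)] at h9
      exact (sq_le_sq₀ (norm_nonneg _) (mul_nonneg (Real.sqrt_nonneg _) (norm_nonneg _))).1 h9)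
  refine ⟨T, ?_, ?_⟩
  · intro g h hh
    exact hT1 g h (F5c_hankel hΩ h0 h1 hf₁s g h hh)
  · intro g
    obtain ⟨U, hU, hUb⟩ := hgood g
    refine le_trans ?_ hUb
    apply ENNReal.ofReal_le_ofReal
    exact pow_le_pow_left₀ (norm_nonneg _) (hT2 g U hU) 2

end Dom

end HankelSPC
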