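import Pool.Agent.Lib.MP_e1cf54_an.A1
import Pool.Agent.Lib.MP_e1cf54_an.E1b
import Pool.Agent.Lib.MP_e1cf54_an.F4c
import Pool.Agent.Lib.MP_e1cf54_an.F5a

/-! Row F6a: singular number bound -/

open MeasureTheory Set Filter
open scoped ENNReal NNReal Topology ContDiff

namespace HankelSPC

variable {n : ℕ}

namespace Dom

lemma F6a_floor {x t : ℝ} (hx : 0 ≤ x) (ht : 0 < t) {q : ℕ} (hq : 1 ≤ q) :
    x / ((⌊(x / t) ^ (1 / (q : ℝ))⌋₊ : ℝ) + 1) ^ q ≤ t := by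
  have hq0 : (0 : ℝ) < q := by exact_mod_cast hq
  have h1 : (x / t) ^ (1 / (q : ℝ)) < (⌊(x / t) ^ (1 / (q : ℝ))⌋₊ : ℝ) + 1 := Nat.lt_floor_add_one _
  have h0 : 0 ≤ (x / t) ^ (1 / (q : ℝ)) := Real.rpow_nonneg (div_nonneg hx ht.le) _
  have h2 : ((x / t) ^ (1 / (q : ℝ))) ^ q = x / t := by
    rw [← Real.rpow_natCast, ← Real.rpow_mul (div_nonneg hx ht.le),
      one_div_mul_cancel hq0.ne', Real.rpow_one]
  have h3 : x / t ≤ ((⌊(x / t) ^ (1 / (q : ℝ))⌋₊ : ℝ) + 1) ^ q := by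
    exact h2.symm.le.trans (pow_le_pow_left₀ h0 h1.le q)
  rw [div_le_iff₀ (by positivity)]
  rw [div_le_iff₀ ht] at h3
  linarith

lemma F6a_floor_zero {x t : ℝ} (hx : 0 ≤ x) (ht : 0 < t) {q : ℕ} (hq : 1 ≤ q) (h : x < t) :
    ⌊(x / t) ^ (1 / (q : ℝ))⌋₊ = 0 := by
  rw [Nat.floor_eq_zero]
  have hq0 : (0 : ℝ) < q := by exact_mod_cast hq
  exact Real.rpow_lt_one (div_nonneg hx ht.le) ((div_lt_one ht).2 h) (by positivity)

/-- Key bound: `s_N(T) ≤ C t` with `N = ∑ᶠ ⌊(m_a/t)^{1/q}⌋`, `m_a = osc(f;B(a,32s))`. For each `a` take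
the net `Z_a ⊆ B(a,2s)` of `local_lemma` with `N_a = ⌊(m_a/t)^{1/q}⌋` points (`P = nrm a`, `r = s`);
the functionals are the evaluations at the points of `⋃ Z_a` (`exists_repr`). On their common
kernel `m_a² sup_{B(a,s)}|g|² vol ≤ m_a² C²/(N_a+1)^{2q} ∫_{B(a,2s)}|g|² ≤ C² t² ∫_{B(a,2s)}|g|²`;
sum over `a` (bounded overlap). `sNumber_le_of_codim`. -/
theorem sNumber_hankel_le (D : Dom n) (hn : 1 ≤ n) {s₀ s : ℝ} (h : D.Good s₀) (hs : 0 < s)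
    (hs' : 32 * s ≤ s₀) (q : ℕ) (hq : 1 ≤ q) {C₀ : ℝ} (hC₀ : 0 < C₀) : ∃ C : ℝ, 0 < C ∧
      ∀ A, D.Lattice s A → ∀ m : A → ℝ, (∀ a, 0 ≤ m a) → (∀ t > 0, {a | t ≤ m a}.Finite) →
      ∀ T : bergman D.Ω →L[ℂ] Lp ℂ 2 (vol D.Ω),
        (∀ g : bergman D.Ω, ENNReal.ofReal (‖T g‖ ^ 2) ≤ ENNReal.ofReal C₀ * ∑' a : A,
          ENNReal.ofReal (m a ^ 2) * supSq (holo g) (D.B a s) * volume (D.B (a : Cn n) s)) →
        ∀ t : ℝ, 0 < t → sNumber T (∑ᶠ a, ⌊(m a / t) ^ (1 / (q : ℝ))⌋₊) ≤ C * t := by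
  classical
  obtain ⟨CL, hCL, hloc⟩ := local_lemma n hn q
  obtain ⟨M, hM⟩ := overlap D (s₀ := s₀) (s := s) (s' := 2 * s) h hs (by linarith) (by linarith)
  have hΩ : IsOpen D.Ω := D.isOpen_Ω
  have hv0 : volume D.Ω ≠ 0 := D.volume_Ω_pos.ne'
  have hv1 : volume D.Ω ≠ ⊤ := D.volume_Ω_lt_top.ne
  set V : ℝ := (volume D.Ω).toReal with hV
  have hV0 : 0 ≤ V := ENNReal.toReal_nonneg
  have hcomp : CompleteSpace (bergman D.Ω) :=
    (isClosed_bergman hΩ hv0 hv1).completeSpace_coe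
  refine ⟨Real.sqrt (C₀ * CL ^ 2 * M * V) + 1, by positivity, ?_⟩
  intro A hA m hm hfin T hT t ht
  -- the nets
  have hnet : ∀ a : A, ∃ Z : Finset (Cn n), Z.card ≤ ⌊(m a / t) ^ (1 / (q : ℝ))⌋₊ ∧
      ↑Z ⊆ D.B (a : Cn n) (2 * s) ∧
      ∀ g : Cn n → ℂ, DifferentiableOn ℂ g (D.B (a : Cn n) (2 * s)) → (∀ z ∈ Z, g z = 0) →
        ∀ w ∈ D.B (a : Cn n) s, ENNReal.ofReal (‖g w‖ ^ 2) * volume (D.B (a : Cn n) s)
          ≤ ENNReal.ofReal ((CL / (⌊(m a / t) ^ (1 / (q : ℝ))⌋₊ + 1) ^ q) ^ 2)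
            * ∫⁻ v in D.B (a : Cn n) (2 * s), ENNReal.ofReal (‖g v‖ ^ 2) := by
    intro a
    have ha : (a : Cn n) ∈ D.Ω := hA.subset a.2
    exact hloc (D.nrm (a : Cn n)) (fun X hX => D.nrm_eq_zero ha hX) (a : Cn n) s hs _
  choose Z hZ1 hZ2 hZ3 using hnet
  have hrepr : ∀ z : Cn n, ∃ φ : bergman D.Ω →L[ℂ] ℂ, z ∈ D.Ω → ∀ g, φ g = holo g z := by
    intro z
    by_cases hz : z ∈ D.Ω
    · obtain ⟨k, hk⟩ := exists_repr hΩ hv0 hv1 hz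
      exact ⟨innerSL ℂ k, fun _ g => hk g⟩
    · exact ⟨0, fun h => absurd h hz⟩
  choose φ hφ using hrepr
  have hsub : ∀ a : A, D.B (a : Cn n) (2 * s) ⊆ D.Ω := fun a =>
    h.B_subset (hA.subset a.2) (by linarith)
  set F : Finset A := (hfin t ht).toFinset with hF
  have hzero : ∀ a, a ∉ F → ⌊(m a / t) ^ (1 / (q : ℝ))⌋₊ = 0 := by
    intro a ha
    rw [hF, Set.Finite.mem_toFinset, Set.mem_ofPred_eq, not_le] at ha
    exact F6a_floor_zero (hm a) ht hq ha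
  set L : Finset (bergman D.Ω →L[ℂ] ℂ) := (F.biUnion Z).image φ with hL
  have hLcard : L.card ≤ ∑ᶠ a, ⌊(m a / t) ^ (1 / (q : ℝ))⌋₊ := by
    have h1 : ∑ᶠ a, ⌊(m a / t) ^ (1 / (q : ℝ))⌋₊ = ∑ a ∈ F, ⌊(m a / t) ^ (1 / (q : ℝ))⌋₊ := by
      refine finsum_eq_sum_of_support_subset _ ?_
      intro a ha
      by_contra hc
      exact ha (hzero a hc)
    rw [h1]
    calc L.card ≤ (F.biUnion Z).card := Finset.card_image_le
      _ ≤ ∑ a ∈ F, (Z a).card := Finset.card_biUnion_le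
      _ ≤ _ := Finset.sum_le_sum fun a _ => hZ1 a
  have hCt : 0 ≤ (Real.sqrt (C₀ * CL ^ 2 * M * V) + 1) * t := by positivity
  refine sNumber_le_of_codim T _ L hLcard hCt ?_
  intro g hg
  -- `g` vanishes on all the nets
  have hvan : ∀ a : A, ∀ z ∈ Z a, holo g z = 0 := by
    intro a z hz
    by_cases ha : a ∈ F
    · have h1 : φ z ∈ L := by
        rw [hL]
        exact Finset.mem_image_of_mem _ (Finset.mem_biUnion.2 ⟨a, ha, hz⟩)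
      have h2 := hg _ h1
      rwa [hφ z (hsub a (hZ2 a hz))] at h2
    · have h1 := hZ1 a
      rw [hzero a ha, Nat.le_zero, Finset.card_eq_zero] at h1
      rw [h1] at hz
      exact absurd hz (Finset.notMem_empty z)
  have hdiff : DifferentiableOn ℂ (holo g) D.Ω := holo_diff g
  have hmeas : AEMeasurable (fun z => ENNReal.ofReal (‖holo g z‖ ^ 2)) (volume.restrict D.Ω) := by
    have h1 : ContinuousOn (fun z => ‖holo g z‖ ^ 2) D.Ω := (hdiff.continuousOn.norm).pow 2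
    exact (h1.aemeasurable hΩ.measurableSet).ennreal_ofReal
  -- one term
  have hterm : ∀ a : A, ENNReal.ofReal (m a ^ 2) * supSq (holo g) (D.B a s) *
      volume (D.B (a : Cn n) s) ≤ ENNReal.ofReal ((CL * t) ^ 2) *
        ∫⁻ v in D.B (a : Cn n) (2 * s), ENNReal.ofReal (‖holo g v‖ ^ 2) := by
    intro a
    have h1 : supSq (holo g) (D.B a s) * volume (D.B (a : Cn n) s) ≤
        ENNReal.ofReal ((CL / (⌊(m a / t) ^ (1 / (q : ℝ))⌋₊ + 1) ^ q) ^ 2)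
            * ∫⁻ v in D.B (a : Cn n) (2 * s), ENNReal.ofReal (‖holo g v‖ ^ 2) := by
      unfold supSq
      rw [ENNReal.iSup_mul]
      refine iSup_le fun w => ?_
      rw [ENNReal.iSup_mul]
      refine iSup_le fun hw => ?_
      exact hZ3 a (holo g) (hdiff.mono (hsub a)) (hvan a) w hw
    rw [mul_assoc]
    refine (mul_le_mul_right h1 _).trans ?_
    rw [← mul_assoc, ← ENNReal.ofReal_mul (sq_nonneg _)]
    refine mul_le_mul_left (ENNReal.ofReal_le_ofReal ?_) _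
    have h2 := F6a_floor (hm a) ht hq
    have h3 : m a ^ 2 * (CL / (⌊(m a / t) ^ (1 / (q : ℝ))⌋₊ + 1) ^ q) ^ 2 =
        (CL * (m a / ((⌊(m a / t) ^ (1 / (q : ℝ))⌋₊ : ℝ) + 1) ^ q)) ^ 2 := by
      ring
    rw [h3]
    have h4 : 0 ≤ m a / ((⌊(m a / t) ^ (1 / (q : ℝ))⌋₊ : ℝ) + 1) ^ q :=
      div_nonneg (hm a) (by positivity)
    exact pow_le_pow_left₀ (mul_nonneg hCL.le h4) (mul_le_mul_of_nonneg_left h2 hCL.le) 2
  have hsum : ∑' a : A, ENNReal.ofReal (m a ^ 2) * supSq (holo g) (D.B a s) *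
      volume (D.B (a : Cn n) s) ≤ ENNReal.ofReal ((CL * t) ^ 2) *
        (M * ∫⁻ z in D.Ω, ENNReal.ofReal (‖holo g z‖ ^ 2)) := by
    refine (ENNReal.tsum_le_tsum hterm).trans ?_
    rw [ENNReal.tsum_mul_left]
    exact mul_le_mul_right ((hM A hA).2 _ hmeas) _
  have hint : ∫⁻ z in D.Ω, ENNReal.ofReal (‖holo g z‖ ^ 2) =
      volume D.Ω * ENNReal.ofReal (‖g‖ ^ 2) := by
    rw [norm_sq_holo hv0 hv1 g, ← mul_assoc, ENNReal.mul_inv_cancel hv0 hv1, one_mul]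
  have hfinal : ENNReal.ofReal (‖T g‖ ^ 2) ≤
      ENNReal.ofReal (C₀ * ((CL * t) ^ 2 * (M * (V * ‖g‖ ^ 2)))) := by
    refine (hT g).trans ?_
    refine (mul_le_mul_right hsum _).trans (le_of_eq ?_)
    rw [hint, ENNReal.ofReal_mul hC₀.le, ENNReal.ofReal_mul (sq_nonneg _),
      ENNReal.ofReal_mul (Nat.cast_nonneg M), ENNReal.ofReal_mul hV0, ENNReal.ofReal_natCast, hV,
      ENNReal.ofReal_toReal hv1]
  have hreal : ‖T g‖ ^ 2 ≤ C₀ * ((CL * t) ^ 2 * (M * (V * ‖g‖ ^ 2))) :=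
    (ENNReal.ofReal_le_ofReal_iff (by positivity)).1 hfinal
  have hsq : ‖T g‖ ^ 2 ≤ ((Real.sqrt (C₀ * CL ^ 2 * M * V)) * t * ‖g‖) ^ 2 := by
    have h1 : ((Real.sqrt (C₀ * CL ^ 2 * M * V)) * t * ‖g‖) ^ 2 =
        C₀ * ((CL * t) ^ 2 * (M * (V * ‖g‖ ^ 2))) := by
      rw [mul_pow, mul_pow, Real.sq_sqrt (by positivity)]
      ring
    rw [h1]
    exact hreal
  have hle : ‖T g‖ ≤ (Real.sqrt (C₀ * CL ^ 2 * M * V)) * t * ‖g‖ :=
    le_of_sq_le_sq hsq (by positivity)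
  have h5 : 0 ≤ t * ‖g‖ := by positivity
  nlinarith

end Dom

end HankelSPC
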