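import Pool.Agent.Lib.MP_e1cf54_an.A2
import Pool.Agent.Lib.MP_e1cf54_an.F2a
import Pool.Agent.Lib.MP_e1cf54_an.F5c
import Pool.Agent.Lib.MP_e1cf54_an.F6a

/-! Row F6b: if part -/

open MeasureTheory Set Filter
open scoped ENNReal NNReal Topology ContDiff

namespace HankelSPC

variable {n : ℕ}

/-- consequences of summability -/
lemma F6b_aux {ι : Type*} {m : ι → ℝ} (hm : ∀ a, 0 ≤ m a) {p : ℝ} (hp : 0 < p)
    (hS : Summable fun a => m a ^ p) :
    (∃ Mb : ℝ, ∀ a, m a ≤ Mb) ∧ ∀ t > 0, {a | t ≤ m a}.Finite := by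
  have hm' : ∀ a, 0 ≤ m a ^ p := fun a => Real.rpow_nonneg (hm a) p
  have hinv : ∀ a, (m a ^ p) ^ (1 / p) = m a := by
    intro a
    rw [← Real.rpow_mul (hm a), mul_one_div_cancel hp.ne', Real.rpow_one]
  constructor
  · refine ⟨(∑' a, m a ^ p) ^ (1 / p), fun a => ?_⟩
    rw [← hinv a]
    exact Real.rpow_le_rpow (hm' a) (hS.le_tsum a fun b _ => hm' b) (by positivity)
  · intro t ht
    have h1 := hS.tendsto_cofinite_zero
    have h2 : ∀ᶠ a in cofinite, m a ^ p < t ^ p :=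
      h1.eventually (Iio_mem_nhds (Real.rpow_pos_of_pos ht p))
    rw [eventually_cofinite] at h2
    refine h2.subset ?_
    intro a ha
    rw [Set.mem_ofPred_eq, not_lt]
    exact Real.rpow_le_rpow ht.le ha hp.le

namespace Dom

/-- The if part. -/
theorem hankelMem_of_MO (D : Dom n) (hD : D.DbarProp) (hM : D.MetricProp)
    (hK : D.KernelProp) (hn : 1 ≤ n) {f : Cn n → ℂ} (hf : MemLp f 2 (vol D.Ω))
    {r p : ℝ} (hr : 0 < r) (hp : 0 < p) (h : MemLp (MO D.Ω f r) (ENNReal.ofReal p) (lam D.Ω)) :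
    HankelMem D.Ω f p := by
  have hf' : MemLp f 2 (volume.restrict D.Ω) :=
    (memLp_vol_iff D.volume_Ω_pos.ne' D.volume_Ω_lt_top.ne).1 hf
  obtain ⟨s₀, hg⟩ := D.exists_good
  obtain ⟨t₁, ht₁, ht₁', hosc⟩ := D.summable_osc hM hK hg hr
  set s : ℝ := t₁ / 32 with hs
  have hs0 : 0 < s := by positivity
  have h32 : 32 * s = t₁ := by rw [hs]; ring
  have hs' : 32 * s ≤ s₀ := by rw [h32]; exact ht₁'
  obtain ⟨A, hA⟩ := D.exists_lattice hg hs0 (by linarith)
  have hS : Summable fun a : A => osc f (D.B a (32 * s)) ^ p :=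
    hosc s (32 * s) hs0 (by linarith) h32.le A hA f hf' p hp h
  set m : A → ℝ := fun a => osc f (D.B a (32 * s)) with hm
  have hm0 : ∀ a, 0 ≤ m a := fun a => osc_nonneg f _
  obtain ⟨⟨Mb, hMb⟩, hfin⟩ := F6b_aux hm0 hp hS
  obtain ⟨C₀, hC₀, hup⟩ := D.hankel_upper hD hg hs0 hs'
  obtain ⟨T, hT, hTb⟩ := hup A hA f hf' ⟨Mb, fun a ha => hMb ⟨a, ha⟩⟩
  obtain ⟨q, hq⟩ := exists_nat_gt (1 / p)
  have hq0 : 0 < (q : ℝ) := lt_trans (by positivity) hq
  have hpq : 1 < p * q := by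
    rw [div_lt_iff₀ hp] at hq
    rwa [mul_comm]
  have hq1 : 1 ≤ q := by
    have : 0 < q := by exact_mod_cast hq0
    omega
  obtain ⟨C, hC, hsn⟩ := D.sNumber_hankel_le hn hg hs0 hs' q hq1 hC₀
  have hcount : Summable fun N => sNumber T N ^ p :=
    summable_of_counting (sNumber T) (sNumber_nonneg T) (sNumber_antitone T) m hm0 hp hpq hC.le hS
      (hsn A hA m hm0 hfin T hTb)
  have hlim : Tendsto (sNumber T) atTop (𝓝 0) := by
    have h1 := hcount.tendsto_atTop_zero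
    have h2 : Tendsto (fun N => (sNumber T N ^ p) ^ (1 / p)) atTop (𝓝 ((0 : ℝ) ^ (1 / p))) :=
      h1.rpow_const (Or.inr (by positivity))
    rw [Real.zero_rpow (by positivity)] at h2
    refine h2.congr fun N => ?_
    rw [← Real.rpow_mul (sNumber_nonneg T N), mul_one_div_cancel hp.ne', Real.rpow_one]
  exact ⟨T, ⟨isCompactOperator_of_sNumber T hlim, hcount⟩, hT⟩

end Dom

/-- `MO_r(conj f) = MO_r(f)`. -/
lemma MO_conj (Ω : Set (Cn n)) (f : Cn n → ℂ) (r : ℝ) (z : Cn n) :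
    MO Ω (fun w => (starRingEnd ℂ) (f w)) r z = MO Ω f r z := by
  have h1 : avg Ω (fun w => (starRingEnd ℂ) (f w)) r z = (starRingEnd ℂ) (avg Ω f r z) := by
    unfold avg
    rw [average_eq, average_eq, integral_conj]
    simp
  unfold MO
  rw [h1]
  congr 2
  funext w
  rw [← map_sub, RCLike.norm_conj]

end HankelSPC
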