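import Pool.Agent.Lib.MP_e1cf54_an.F1b
import Pool.Agent.Lib.MP_e1cf54_an.E1b

/-! Row F8a: distHol, projection -/

open MeasureTheory Set Filter
open scoped ENNReal NNReal Topology ContDiff

namespace HankelSPC

variable {n : ℕ}

lemma distHol_nonneg (f : Cn n → ℂ) (S : Set (Cn n)) : 0 ≤ distHol f S := by
  refine Real.sInf_nonneg ?_
  rintro x ⟨g, -, -, rfl⟩
  exact Real.sqrt_nonneg _

private lemma F8a_sq {f g : Cn n → ℂ} {S : Set (Cn n)} (h0 : volume S ≠ 0) (h1 : volume S ≠ ⊤) :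
    ∫ w in S, ‖f w - g w‖ ^ 2 =
      Real.sqrt (⨍ w in S, ‖f w - g w‖ ^ 2) ^ 2 * (volume S).toReal := by
  have hpos : 0 < (volume S).toReal := ENNReal.toReal_pos h0 h1
  have hint : 0 ≤ ∫ w in S, ‖f w - g w‖ ^ 2 := integral_nonneg fun w => by positivity
  rw [setAverage_eq, smul_eq_mul, Real.sq_sqrt (by
    apply mul_nonneg _ hint
    exact inv_nonneg.mpr measureReal_nonneg), Measure.real]
  field_simp

private lemma F8a_nonempty (f : Cn n → ℂ) (S : Set (Cn n)) :
    {x : ℝ | ∃ g : Cn n → ℂ, DifferentiableOn ℂ g S ∧ MemLp g 2 (volume.restrict S) ∧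
    x = Real.sqrt (⨍ w in S, ‖f w - g w‖ ^ 2)}.Nonempty :=
  ⟨_, fun _ => 0, differentiableOn_const 0, MemLp.zero', rfl⟩

/-- From `osc_le_dist`. -/
theorem osc_le_distHol {B : Set (Cn n)} (hB : Balanced ℂ B) (hBo : IsOpen B) (h0 : volume B ≠ 0)
    (h1 : volume B ≠ ⊤) {z : Cn n} {f : Cn n → ℂ}
    (hf : MemLp f 2 (volume.restrict ((fun X => z + X) '' B))) :
    osc f ((fun X => z + X) '' B) ≤ 3 * (distHol f ((fun X => z + X) '' B)
      + distHol (fun w => (starRingEnd ℂ) (f w)) ((fun X => z + X) '' B)) := by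
  set S := (fun X => z + X) '' B with hS
  have hvol : volume S = volume B := by
    rw [hS, image_add_left]
    exact measure_preimage_add _ _ _
  have h0' : volume S ≠ 0 := hvol ▸ h0
  have h1' : volume S ≠ ⊤ := hvol ▸ h1
  have hpos : 0 < (volume S).toReal := ENNReal.toReal_pos h0' h1'
  have key : ∀ x ∈ {x : ℝ | ∃ g : Cn n → ℂ, DifferentiableOn ℂ g S ∧
      MemLp g 2 (volume.restrict S) ∧ x = Real.sqrt (⨍ w in S, ‖f w - g w‖ ^ 2)},
      ∀ y ∈ {x : ℝ | ∃ g : Cn n → ℂ, DifferentiableOn ℂ g S ∧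
      MemLp g 2 (volume.restrict S) ∧
        x = Real.sqrt (⨍ w in S, ‖(starRingEnd ℂ) (f w) - g w‖ ^ 2)},
      osc f S / 3 - y ≤ x := by
    rintro x ⟨g₁, hg₁, hm₁, rfl⟩ y ⟨g₂, hg₂, hm₂, rfl⟩
    have h2 := osc_le_dist hB hBo h0 h1 hf hg₁ hg₂ hm₁ hm₂
    rw [← hS, F8a_sq h0' h1', F8a_sq (f := fun w => (starRingEnd ℂ) (f w)) h0' h1', ← hvol] at h2
    set x := Real.sqrt (⨍ w in S, ‖f w - g₁ w‖ ^ 2)
    set y := Real.sqrt (⨍ w in S, ‖(starRingEnd ℂ) (f w) - g₂ w‖ ^ 2)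
    have hx : 0 ≤ x := Real.sqrt_nonneg _
    have hy : 0 ≤ y := Real.sqrt_nonneg _
    have h3 : osc f S ^ 2 ≤ 8 * x ^ 2 + 8 * y ^ 2 := by
      have : osc f S ^ 2 * (volume S).toReal ≤ (8 * x ^ 2 + 8 * y ^ 2) * (volume S).toReal := by
        linarith
      exact le_of_mul_le_mul_right this hpos
    have h4 : osc f S ≤ 3 * (x + y) := by
      refine abs_le_of_sq_le_sq' ?_ (by positivity) |>.2
      nlinarith [mul_nonneg hx hy, sq_nonneg x, sq_nonneg y]
    linarith
  have h5 : ∀ y ∈ {x : ℝ | ∃ g : Cn n → ℂ, DifferentiableOn ℂ g S ∧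
      MemLp g 2 (volume.restrict S) ∧
        x = Real.sqrt (⨍ w in S, ‖(starRingEnd ℂ) (f w) - g w‖ ^ 2)},
      osc f S / 3 - distHol f S ≤ y := by
    intro y hy
    have : osc f S / 3 - y ≤ distHol f S :=
      le_csInf (F8a_nonempty f S) fun x hx => key x hx y hy
    linarith
  have h6 : osc f S / 3 - distHol f S ≤ distHol (fun w => (starRingEnd ℂ) (f w)) S :=
    le_csInf (F8a_nonempty _ S) h5
  linarith

/-- Orthogonal projection of `F` onto the Bergman space of the open set `S` (use `vol S`,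
`isClosed_bergman`, or directly a closest point in `Lp ℂ 2 (volume.restrict S)`). -/
theorem exists_proj {S : Set (Cn n)} (hS : IsOpen S) (h0 : volume S ≠ 0) (h1 : volume S ≠ ⊤)
    {F : Cn n → ℂ} (hF : MemLp F 2 (volume.restrict S)) :
    ∃ (h g₀ : Cn n → ℂ) (μ : ℝ), 0 ≤ μ ∧ MemLp h 2 volume ∧ (∀ w, w ∉ S → h w = 0) ∧
      DifferentiableOn ℂ g₀ S ∧ MemLp g₀ 2 (volume.restrict S) ∧
      ((∫ w, ‖h w‖ ^ 2 = 1) ∨ (μ = 0 ∧ h = 0)) ∧
      (∀ g : Cn n → ℂ, DifferentiableOn ℂ g S → MemLp g 2 (volume.restrict S) →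
        ∫ w in S, g w * (starRingEnd ℂ) (h w) = 0) ∧
      (fun w => F w - g₀ w) =ᵐ[volume.restrict S] fun w => μ * h w := by
  classical
  have hc0 : (volume S)⁻¹ ≠ 0 := ENNReal.inv_ne_zero.mpr h1
  have hc1 : (volume S)⁻¹ ≠ ⊤ := ENNReal.inv_ne_top.mpr h0
  have hFv : MemLp F 2 (vol S) := hF.smul_measure hc1
  have : CompleteSpace (bergman S) := (isClosed_bergman hS h0 h1).completeSpace_coe
  set Fc : Lp ℂ 2 (vol S) := hFv.toLp F with hFc
  set G : bergman S := (bergman S).orthogonalProjection Fc with hG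
  set g₀ : Cn n → ℂ := holo G with hg₀
  have hGae : (G : Lp ℂ 2 (vol S)) =ᵐ[vol S] g₀ := holo_ae G
  have hg₀v : MemLp g₀ 2 (vol S) := (memLp_congr_ae hGae).mp (Lp.memLp _)
  have hg₀m : MemLp g₀ 2 (volume.restrict S) := (memLp_vol_iff h0 h1).mp hg₀v
  set D : Cn n → ℂ := fun w => F w - g₀ w with hD
  have hDm : MemLp D 2 (volume.restrict S) := hF.sub hg₀m
  -- orthogonality in terms of integrals
  have horth : ∀ g : Cn n → ℂ, DifferentiableOn ℂ g S → MemLp g 2 (volume.restrict S) →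
      ∫ w in S, g w * (starRingEnd ℂ) (D w) = 0 := by
    intro g hg hgm
    have hgv : MemLp g 2 (vol S) := (memLp_vol_iff h0 h1).mpr hgm
    have hgb : hgv.toLp g ∈ bergman S := ⟨g, hg, hgv.coeFn_toLp⟩
    have h2 : inner ℂ (Fc - (G : Lp ℂ 2 (vol S))) (hgv.toLp g) = 0 := by
      have h3 := Submodule.sub_starProjection_mem_orthogonal (K := bergman S) Fc
      have h4 := (Submodule.mem_orthogonal' (bergman S) _).mp h3 _ hgb
      exact h4
    rw [L2.inner_def] at h2
    have h3 : ∫ w, inner ℂ ((Fc - (G : Lp ℂ 2 (vol S)) : Lp ℂ 2 (vol S)) w) (hgv.toLp g w) ∂(vol S) =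
        ∫ w, g w * (starRingEnd ℂ) (D w) ∂(vol S) := by
      refine integral_congr_ae ?_
      filter_upwards [Lp.coeFn_sub Fc (G : Lp ℂ 2 (vol S)), hFv.coeFn_toLp, hgv.coeFn_toLp, hGae]
        with w hw1 hw2 hw3 hw4
      rw [hw1, Pi.sub_apply, hFc, hw2, hw3, hw4]
      simp [D, mul_comm]
    rw [h3, integral_vol] at h2
    have hne : (((volume S)⁻¹).toReal : ℂ) ≠ 0 := by
      rw [Ne, Complex.ofReal_eq_zero, ENNReal.toReal_eq_zero_iff]
      exact fun h => h.elim hc0 hc1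
    exact (mul_eq_zero.mp h2).resolve_left hne
  set m : ℝ := ∫ w in S, ‖D w‖ ^ 2 with hm
  have hm0 : 0 ≤ m := integral_nonneg fun w => by positivity
  rcases hm0.eq_or_lt with hm1 | hm1
  · refine ⟨0, g₀, 0, le_rfl, MemLp.zero, fun _ _ => rfl, holo_diff G, hg₀m,
      Or.inr ⟨rfl, rfl⟩, ?_, ?_⟩
    · intro g _ _
      simp
    · have h2 : (fun w => ‖D w‖ ^ 2) =ᵐ[volume.restrict S] 0 :=
        (integral_eq_zero_iff_of_nonneg (fun w => by positivity)
          (hDm.integrable_norm_pow (by norm_num))).mp hm1.symm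
      filter_upwards [h2] with w hw
      have : ‖D w‖ ^ 2 = 0 := hw
      have h3 : D w = 0 := by simpa using this
      simpa [D] using h3
  · set μ : ℝ := Real.sqrt m with hμ
    have hμ0 : 0 < μ := Real.sqrt_pos.mpr hm1
    have hμc : (μ : ℂ) ≠ 0 := by exact_mod_cast hμ0.ne'
    set h : Cn n → ℂ := S.indicator (fun w => (μ : ℂ)⁻¹ * D w) with hh
    have hhm : MemLp h 2 volume := by
      rw [hh, memLp_indicator_iff_restrict hS.measurableSet]
      exact hDm.const_mul _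
    refine ⟨h, g₀, μ, hμ0.le, hhm, fun w hw => indicator_of_notMem hw _, holo_diff G, hg₀m,
      Or.inl ?_, ?_, ?_⟩
    · have h2 : ∀ w, ‖h w‖ ^ 2 = S.indicator (fun w => m⁻¹ * ‖D w‖ ^ 2) w := by
        intro w
        by_cases hw : w ∈ S
        · rw [hh, indicator_of_mem hw, indicator_of_mem hw, norm_mul, mul_pow, norm_inv,
            Complex.norm_real, Real.norm_eq_abs, abs_of_pos hμ0, inv_pow, hμ,
            Real.sq_sqrt hm0]
        · rw [hh, indicator_of_notMem hw, indicator_of_notMem hw]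
          simp
      simp only [h2]
      rw [integral_indicator hS.measurableSet, integral_const_mul, ← hm]
      exact inv_mul_cancel₀ hm1.ne'
    · intro g hg hgm
      have h2 : ∫ w in S, g w * (starRingEnd ℂ) (h w) =
          ∫ w in S, (μ : ℂ)⁻¹ * (g w * (starRingEnd ℂ) (D w)) := by
        refine setIntegral_congr_fun hS.measurableSet fun w hw => ?_
        simp only [hh, indicator_of_mem hw, map_mul, map_inv₀, Complex.conj_ofReal]
        ring
      rw [h2, integral_const_mul, horth g hg hgm, mul_zero]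
    · refine ae_restrict_of_forall_mem hS.measurableSet fun w hw => ?_
      simp only [hh, indicator_of_mem hw]
      rw [← mul_assoc, mul_inv_cancel₀ hμc, one_mul]

end HankelSPC
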