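import Pool.Agent.Lib.MP_e1cf54_an.B2b
import Pool.Agent.Lib.MP_e1cf54_an.B11c
import Pool.Agent.Lib.MP_e1cf54_an.E1b
import Pool.Agent.Lib.MP_e1cf54_an.F1a

/-! Row G2: the domain of the Hankel operator is dense. -/

open MeasureTheory Set Filter
open scoped ENNReal NNReal Topology ContDiff

namespace HankelSPC

variable {n : ℕ}

/-! #### The transition function -/

private lemma G2_deriv_bound :
    ∃ C : ℝ, 0 < C ∧ ∀ x : ℝ, |deriv Real.smoothTransition x| ≤ C := by
  have hc : Continuous (deriv Real.smoothTransition) :=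
    (Real.smoothTransition.contDiff (n := 1)).continuous_deriv (by norm_num)
  obtain ⟨C, hC⟩ := (isCompact_Icc (a := (0 : ℝ)) (b := 1)).exists_bound_of_continuousOn
    hc.continuousOn
  refine ⟨max C 1, by positivity, fun x => ?_⟩
  rcases lt_or_ge x 0 with hx | hx
  · have h : Real.smoothTransition =ᶠ[𝓝 x] fun _ => 0 := by
      filter_upwards [Iio_mem_nhds hx] with y hy
      exact Real.smoothTransition.zero_of_nonpos (le_of_lt hy)
    rw [h.deriv_eq]
    simp
  · rcases lt_or_ge 1 x with hx1 | hx1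
    · have h : Real.smoothTransition =ᶠ[𝓝 x] fun _ => 1 := by
        filter_upwards [Ioi_mem_nhds hx1] with y hy
        exact Real.smoothTransition.one_of_one_le (le_of_lt hy)
      rw [h.deriv_eq]
      simp
    · exact (hC x ⟨hx, hx1⟩).trans (le_max_left _ _)

private lemma G2_deriv_zero {x : ℝ} (hx : x < 0 ∨ 1 < x) :
    deriv Real.smoothTransition x = 0 := by
  rcases hx with hx | hx
  · have h : Real.smoothTransition =ᶠ[𝓝 x] fun _ => 0 := by
      filter_upwards [Iio_mem_nhds hx] with y hy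
      exact Real.smoothTransition.zero_of_nonpos (le_of_lt hy)
    rw [h.deriv_eq]
    simp
  · have h : Real.smoothTransition =ᶠ[𝓝 x] fun _ => 1 := by
      filter_upwards [Ioi_mem_nhds hx] with y hy
      exact Real.smoothTransition.one_of_one_le (le_of_lt hy)
    rw [h.deriv_eq]
    simp

namespace Dom

/-- The cutoff `χ_t = θ(-ρ/t - 1)`. -/
private noncomputable def G2chi (D : Dom n) (t : ℝ) (z : Cn n) : ℝ :=
  Real.smoothTransition (-(D.ρ z) / t - 1)

private lemma G2chi_contDiff (D : Dom n) (t : ℝ) : ContDiff ℝ 2 (D.G2chi t) := by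
  have h := D.smooth
  unfold G2chi
  exact (Real.smoothTransition.contDiff (n := 2)).comp (by fun_prop)

private lemma G2chi_zero (D : Dom n) {t : ℝ} (ht : 0 < t) {z : Cn n} (hz : -t ≤ D.ρ z) :
    D.G2chi t z = 0 := by
  apply Real.smoothTransition.zero_of_nonpos
  have : -(D.ρ z) / t ≤ 1 := by rw [div_le_one ht]; linarith
  linarith

private lemma G2chi_one (D : Dom n) {t : ℝ} (ht : 0 < t) {z : Cn n} (hz : D.ρ z ≤ -(2 * t)) :
    D.G2chi t z = 1 := by
  apply Real.smoothTransition.one_of_one_le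
  have : 2 ≤ -(D.ρ z) / t := by rw [le_div_iff₀ ht]; linarith
  linarith

private lemma G2chi_mem (D : Dom n) (t : ℝ) (z : Cn n) :
    0 ≤ D.G2chi t z ∧ D.G2chi t z ≤ 1 :=
  ⟨Real.smoothTransition.nonneg _, Real.smoothTransition.le_one _⟩

/-- The form `∂̄χ_t`. -/
private noncomputable def G2b (D : Dom n) (t : ℝ) (z X : Cn n) : ℂ :=
  dzb (fun w => ((D.G2chi t w : ℝ) : ℂ)) z X

private lemma G2b_eq (D : Dom n) {t : ℝ} (_ht : 0 < t) (z X : Cn n) :
    D.G2b t z X = (starRingEnd ℂ) (((-(1 / t) * deriv Real.smoothTransition (-(D.ρ z) / t - 1) : ℝ) : ℂ)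
      * ell D.ρ z X) := by
  have hd : DifferentiableAt ℝ (D.G2chi t) z :=
    ((D.G2chi_contDiff t).differentiable (by norm_num)) z
  have hρ : DifferentiableAt ℝ D.ρ z := (D.smooth.differentiable (by norm_num)) z
  have hθ : DifferentiableAt ℝ Real.smoothTransition (-(D.ρ z) / t - 1) :=
    ((Real.smoothTransition.contDiff (n := 1)).differentiable (by norm_num)) _
  have hin : HasDerivAt (fun x : ℝ => -x / t - 1) (-(1 / t)) (D.ρ z) := by
    have := ((hasDerivAt_id (D.ρ z)).neg.div_const t).sub_const 1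
    simpa [neg_div] using this
  have hh : HasDerivAt (fun x : ℝ => Real.smoothTransition (-x / t - 1))
      (deriv Real.smoothTransition (-(D.ρ z) / t - 1) * (-(1 / t))) (D.ρ z) :=
    HasDerivAt.comp (h₂ := Real.smoothTransition) (h := fun x : ℝ => -x / t - 1) (D.ρ z)
      hθ.hasDerivAt hin
  have e1 := ell_comp (h := fun x : ℝ => Real.smoothTransition (-x / t - 1)) hρ
    hh.differentiableAt X
  unfold G2b
  rw [dzb_ofReal hd X]
  congr 1
  rw [hh.deriv] at e1
  rw [mul_comm (-(1 / t)) _]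
  exact e1

private lemma G2b_zero (D : Dom n) {t : ℝ} (ht : 0 < t) {z : Cn n} (hz : -t < D.ρ z)
    (X : Cn n) : D.G2b t z X = 0 := by
  rw [D.G2b_eq ht, G2_deriv_zero, mul_zero]
  · simp
  · left
    have : -(D.ρ z) / t < 1 := by rw [div_lt_one ht]; linarith
    linarith

private lemma G2b_zero' (D : Dom n) {t : ℝ} (ht : 0 < t) {z : Cn n} (hz : D.ρ z < -(2 * t))
    (X : Cn n) : D.G2b t z X = 0 := by
  rw [D.G2b_eq ht, G2_deriv_zero, mul_zero]
  · simp
  · right
    have : 2 < -(D.ρ z) / t := by rw [lt_div_iff₀ ht]; linarith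
    linarith

private lemma G2b_continuous (D : Dom n) (t : ℝ) (X : Cn n) :
    Continuous fun z => D.G2b t z X := by
  have h : ContDiff ℝ 1 (fun w => ((D.G2chi t w : ℝ) : ℂ)) :=
    (Complex.ofRealCLM.contDiff.comp (D.G2chi_contDiff t)).of_le (by norm_num)
  have h1 := h.continuous_fderiv (by norm_num)
  unfold G2b dzb
  fun_prop

private lemma G2_meas (D : Dom n) {a g : Cn n → ℂ} (ha : Continuous a)
    (hg : ContinuousOn g D.Ω) (h0 : ∀ z, z ∉ D.Ω → a z = 0) :
    AEStronglyMeasurable (fun z => a z * g z) volume := by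
  have h1 : (fun z => a z * g z) = D.Ω.indicator fun z => a z * g z := by
    funext z
    by_cases hz : z ∈ D.Ω
    · rw [indicator_of_mem hz]
    · rw [indicator_of_notMem hz, h0 z hz, zero_mul]
  rw [h1, aestronglyMeasurable_indicator_iff D.isOpen_Ω.measurableSet]
  exact (ha.continuousOn.mul hg).aestronglyMeasurable D.isOpen_Ω.measurableSet

/-- weak `∂̄` of `χ_t g` on the outer domain. -/
private lemma G2_weak (D : Dom n) {t : ℝ} (ht : 0 < t) {g : Cn n → ℂ}
    (hg : DifferentiableOn ℂ g D.Ω) (U : Set (Cn n)) :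
    WeakDbar U (fun z => ((D.G2chi t z : ℝ) : ℂ) * g z) (fun z j => D.G2b t z (ee j) * g z) := by
  intro φ hφ j
  -- a smooth cutoff
  have hK : IsClosed {z | D.ρ z ≤ -t} := isClosed_le D.smooth.continuous continuous_const
  have hO : IsOpen {z | D.ρ z < -(t / 2)} := isOpen_lt D.smooth.continuous continuous_const
  have hsub : {z | D.ρ z ≤ -t} ⊆ interior {z | D.ρ z < -(t / 2)} := by
    rw [hO.interior_eq]
    intro z hz
    have hz' : D.ρ z ≤ -t := hz
    show D.ρ z < -(t / 2)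
    linarith
  obtain ⟨ψ, hψ1, hψ0, -⟩ := exists_contMDiffMap_one_nhds_of_subset_interior
    (n := (⊤ : ℕ∞)) (modelWithCornersSelf ℝ (Cn n)) hK hsub
  have hψc : ContDiff ℝ ∞ (fun z => ψ z) := ψ.contMDiff.contDiff
  have hψev : ∀ z, D.ρ z ≤ -t → ∀ᶠ w in 𝓝 z, ψ w = 1 := fun z hz =>
    (hψ1.filter_mono (nhds_le_nhdsSet (show z ∈ {z | D.ρ z ≤ -t} from hz)))
  set φ' : Cn n → ℂ := fun z => φ z * ((ψ z : ℝ) : ℂ) with hφ'
  have hφ'c : ContDiff ℝ ∞ φ' := hφ.1.mul (Complex.ofRealCLM.contDiff.comp hψc)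
  have hts : tsupport φ' ⊆ D.Ω := by
    have h1 : tsupport φ' ⊆ {z | D.ρ z ≤ -(t / 2)} := by
      apply closure_minimal
      · intro z hz
        by_contra hcon
        have h2 : ψ z = 0 := hψ0 z (by
          intro h3
          have h3' : D.ρ z < -(t / 2) := h3
          exact hcon (show D.ρ z ≤ -(t / 2) from h3'.le))
        exact hz (by simp [hφ', h2])
      · exact isClosed_le D.smooth.continuous continuous_const
    intro z hz
    have := h1 hz
    show D.ρ z < 0
    have h2 : D.ρ z ≤ -(t / 2) := this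
    linarith
  have hφ't : IsTest D.Ω φ' := ⟨hφ'c, hφ.2.1.mul_right, hts⟩
  -- weak equation on `Ω`
  have hL : LocL2 D.Ω g := locL2_of_continuousOn D.isOpen_Ω hg.continuousOn
  have hL0 : ∀ j : Fin n, LocL2 D.Ω fun z => (fun (_ : Cn n) (_ : Fin n) => (0 : ℂ)) z j :=
    fun j => locL2_of_continuousOn D.isOpen_Ω continuousOn_const
  have hw : WeakDbar D.Ω g fun _ _ => 0 := weakDbar_of_holomorphic D.isOpen_Ω hg
  have hmul := hw.mul D.isOpen_Ω hL hL0
    (a := fun z => ((D.G2chi t z : ℝ) : ℂ))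
    (((Complex.ofRealCLM.contDiff.comp (D.G2chi_contDiff t)).of_le (by norm_num)).contDiffOn)
  have hmain := hmul φ' hφ't j
  have e1 : ∀ z, ((D.G2chi t z : ℝ) : ℂ) * g z * dzb φ z (ee j)
      = ((D.G2chi t z : ℝ) : ℂ) * g z * dzb φ' z (ee j) := by
    intro z
    by_cases hz : D.ρ z ≤ -t
    · have h1 : φ' =ᶠ[𝓝 z] φ := by
        filter_upwards [hψev z hz] with w hw
        simp [hφ', hw]
      have h2 : fderiv ℝ φ' z = fderiv ℝ φ z := h1.fderiv_eq
      simp only [dzb, h2]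
    · rw [D.G2chi_zero ht (le_of_lt (not_le.1 hz))]
      simp
  have e2 : ∀ z, φ z * (D.G2b t z (ee j) * g z)
      = φ' z * (((D.G2chi t z : ℝ) : ℂ) * 0 + g z
          * dzb (fun z => ((D.G2chi t z : ℝ) : ℂ)) z (ee j)) := by
    intro z
    by_cases hz : D.ρ z ≤ -t
    · have h1 : ψ z = 1 := (hψev z hz).self_of_nhds
      simp only [hφ', h1, G2b]
      push_cast
      ring
    · have h1 := D.G2b_zero ht (not_le.1 hz) (ee j)
      have h2 : dzb (fun z => ((D.G2chi t z : ℝ) : ℂ)) z (ee j) = 0 := h1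
      rw [h1, h2]
      simp
  simp only [e1, e2]
  exact hmain

/-- The approximation for a fixed `t`. -/
private lemma G2_approx (D : Dom n) {C Cθ : ℝ} (hC : 0 < C) (hCθ : 0 < Cθ)
    (hθ : ∀ x : ℝ, |deriv Real.smoothTransition x| ≤ Cθ) {t : ℝ} (ht : 0 < t)
    (hsolve : ∀ (β : Cn n → Fin n → ℂ) (κ : Cn n → ℝ),
      (∀ j, AEStronglyMeasurable (fun z => β z j) (volume.restrict (D.out' t))) →
      WeakClosed (D.out' t) β → AEMeasurable κ (volume.restrict (D.out' t)) →
      (∀ z ∈ D.out' t, 0 ≤ κ z) →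
      (∀ z ∈ D.out' t, ∀ X, ‖formEval (β z) X‖
        ≤ κ z * (‖ell D.ρ z X‖ / (t - D.ρ z) + ‖X‖ / Real.sqrt (t - D.ρ z))) →
      ∫⁻ z in D.out' t, ENNReal.ofReal (κ z ^ 2) ≠ ⊤ →
      ∃ u : Cn n → ℂ, AEStronglyMeasurable u (volume.restrict (D.out' t)) ∧
        WeakDbar (D.out' t) u β ∧
        ∫⁻ z in D.out' t, ENNReal.ofReal (‖u z‖ ^ 2)
          ≤ ENNReal.ofReal C * ∫⁻ z in D.out' t, ENNReal.ofReal (κ z ^ 2))
    (ht1 : t < 1) {g : Cn n → ℂ} (hg : DifferentiableOn ℂ g D.Ω)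
    (hi : ∫⁻ z in D.Ω, ENNReal.ofReal (‖g z‖ ^ 2) ≠ ⊤) :
    ∃ (g' : Cn n → ℂ) (M : ℝ), DifferentiableOn ℂ g' D.Ω ∧ (∀ w ∈ D.Ω, ‖g' w‖ ≤ M) ∧
      ∫⁻ z in D.Ω, ENNReal.ofReal (‖g z - g' z‖ ^ 2)
        ≤ (2 + 2 * (ENNReal.ofReal C * ENNReal.ofReal ((3 * Cθ) ^ 2))) *
          ∫⁻ z in (D.Ω ∩ {z | -(2 * t) ≤ D.ρ z}), ENNReal.ofReal (‖g z‖ ^ 2) := by
  have hΩm : MeasurableSet D.Ω := D.isOpen_Ω.measurableSet
  have hUm : MeasurableSet (D.out' t) := (D.isOpen_out t).measurableSet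
  have hΩU : D.Ω ⊆ D.out' t := fun z hz => lt_trans (show D.ρ z < 0 from hz) ht
  have hρc : Continuous D.ρ := D.smooth.continuous
  set T : Set (Cn n) := D.Ω ∩ {z | -(2 * t) ≤ D.ρ z} with hT
  have hTm : MeasurableSet T := hΩm.inter (measurableSet_le measurable_const hρc.measurable)
  set S : Set (Cn n) := {z | -(2 * t) ≤ D.ρ z ∧ D.ρ z ≤ -t} with hS
  have hSm : MeasurableSet S :=
    (measurableSet_le measurable_const hρc.measurable).inter
      (measurableSet_le hρc.measurable measurable_const)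
  have hST : S ⊆ T := fun z hz => ⟨lt_of_le_of_lt hz.2 (by linarith), hz.1⟩
  have hSΩ : S ⊆ D.Ω := fun z hz => (hST hz).1
  set β : Cn n → Fin n → ℂ := fun z j => D.G2b t z (ee j) * g z with hβ
  set v : Cn n → ℂ := fun z => ((D.G2chi t z : ℝ) : ℂ) * g z with hv
  set κ : Cn n → ℝ := S.indicator fun z => 3 * Cθ * ‖g z‖ with hκ
  have hout : ∀ z, z ∉ D.Ω → 0 ≤ D.ρ z := fun z hz => not_lt.1 hz
  have hβm : ∀ j, AEStronglyMeasurable (fun z => β z j) volume := fun j =>
    D.G2_meas (D.G2b_continuous t (ee j)) hg.continuousOn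
      (fun z hz => D.G2b_zero ht (by have := hout z hz; linarith) _)
  have hvm : AEStronglyMeasurable v volume :=
    D.G2_meas (Complex.continuous_ofReal.comp (D.G2chi_contDiff t).continuous) hg.continuousOn
      (fun z hz => by
        rw [D.G2chi_zero ht (by have := hout z hz; linarith)]; simp)
  have hweak : WeakDbar (D.out' t) v β := D.G2_weak ht hg _
  have hκm : AEMeasurable κ volume := by
    rw [hκ, aemeasurable_indicator_iff hSm]
    exact ((hg.continuousOn.mono hSΩ).norm.const_smul (3 * Cθ)).aemeasurable hSm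
  have hκle : ∀ z, ENNReal.ofReal (κ z ^ 2)
      ≤ T.indicator (fun z => ENNReal.ofReal ((3 * Cθ) ^ 2) * ENNReal.ofReal (‖g z‖ ^ 2)) z := by
    intro z
    by_cases hz : z ∈ S
    · rw [hκ, indicator_of_mem hz, indicator_of_mem (hST hz), ← ENNReal.ofReal_mul (by positivity)]
      apply le_of_eq
      congr 1
      ring
    · rw [hκ, indicator_of_notMem hz]
      simp
  have hIκ : ∫⁻ z in D.out' t, ENNReal.ofReal (κ z ^ 2)
      ≤ ENNReal.ofReal ((3 * Cθ) ^ 2) * ∫⁻ z in T, ENNReal.ofReal (‖g z‖ ^ 2) := by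
    calc ∫⁻ z in D.out' t, ENNReal.ofReal (κ z ^ 2)
        ≤ ∫⁻ z, ENNReal.ofReal (κ z ^ 2) := setLIntegral_le_lintegral _ _
      _ ≤ ∫⁻ z, T.indicator
          (fun z => ENNReal.ofReal ((3 * Cθ) ^ 2) * ENNReal.ofReal (‖g z‖ ^ 2)) z :=
          lintegral_mono hκle
      _ = ∫⁻ z in T, ENNReal.ofReal ((3 * Cθ) ^ 2) * ENNReal.ofReal (‖g z‖ ^ 2) :=
          lintegral_indicator hTm _
      _ = _ := lintegral_const_mul' _ _ ENNReal.ofReal_ne_top
  have hIT : ∫⁻ z in T, ENNReal.ofReal (‖g z‖ ^ 2) ≠ ⊤ :=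
    ne_top_of_le_ne_top hi (lintegral_mono_set inter_subset_left)
  have hIκ' : ∫⁻ z in D.out' t, ENNReal.ofReal (κ z ^ 2) ≠ ⊤ :=
    ne_top_of_le_ne_top (ENNReal.mul_ne_top ENNReal.ofReal_ne_top hIT) hIκ
  have hκ0 : ∀ z, 0 ≤ κ z := fun z => indicator_nonneg (fun z _ => by positivity) z
  have hbound : ∀ z ∈ D.out' t, ∀ X, ‖formEval (β z) X‖
      ≤ κ z * (‖ell D.ρ z X‖ / (t - D.ρ z) + ‖X‖ / Real.sqrt (t - D.ρ z)) := by
    intro z hz X
    have hz' : 0 < t - D.ρ z := by have : D.ρ z < t := hz; linarith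
    have e0 : formEval (β z) X = D.G2b t z X * g z := by
      unfold formEval G2b
      rw [dzb_sum _ z X, Finset.sum_mul]
      refine Finset.sum_congr rfl fun j _ => ?_
      simp only [hβ, G2b]
      ring
    rw [e0]
    by_cases hzS : z ∈ S
    · rw [D.G2b_eq ht, norm_mul, RCLike.norm_conj, norm_mul, Complex.norm_real,
        Real.norm_eq_abs, abs_mul, abs_neg, abs_of_pos (show (0 : ℝ) < 1 / t by positivity)]
      have h1 : κ z = 3 * Cθ * ‖g z‖ := by rw [hκ, indicator_of_mem hzS]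
      rw [h1]
      have h2 : 1 / t ≤ 3 / (t - D.ρ z) := by
        rw [div_le_div_iff₀ ht hz']
        have := hzS.1
        linarith
      have h3 : 1 / t * |deriv Real.smoothTransition (-D.ρ z / t - 1)| ≤ 3 / (t - D.ρ z) * Cθ :=
        mul_le_mul h2 (hθ _) (abs_nonneg _) (by positivity)
      have h4 : 0 ≤ ‖X‖ / Real.sqrt (t - D.ρ z) := by positivity
      calc 1 / t * |deriv Real.smoothTransition (-D.ρ z / t - 1)| * ‖ell D.ρ z X‖ * ‖g z‖
          ≤ 3 / (t - D.ρ z) * Cθ * ‖ell D.ρ z X‖ * ‖g z‖ := by gcongr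
        _ = 3 * Cθ * ‖g z‖ * (‖ell D.ρ z X‖ / (t - D.ρ z)) := by ring
        _ ≤ _ := by
            apply mul_le_mul_of_nonneg_left _ (by positivity)
            linarith
    · have h1 : D.G2b t z X = 0 := by
        rcases lt_or_ge (D.ρ z) (-(2 * t)) with h | h
        · exact D.G2b_zero' ht h X
        · exact D.G2b_zero ht (by
            by_contra hcon
            exact hzS ⟨h, not_lt.1 hcon⟩) X
      rw [h1, zero_mul, norm_zero]
      exact mul_nonneg (hκ0 z) (by positivity)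
  obtain ⟨u, hum, huw, hui⟩ := hsolve β κ (fun j => (hβm j).restrict) hweak.closed hκm.restrict
    (fun z _ => hκ0 z) hbound hIκ'
  have hui' : ∫⁻ z in D.out' t, ENNReal.ofReal (‖u z‖ ^ 2)
      ≤ ENNReal.ofReal C * (ENNReal.ofReal ((3 * Cθ) ^ 2)
        * ∫⁻ z in T, ENNReal.ofReal (‖g z‖ ^ 2)) := hui.trans (by gcongr)
  -- local square integrability
  have hLu : LocL2 (D.out' t) u := locL2_of_lintegral (φ := fun _ => 0) (D.isOpen_out t)
    continuousOn_const hum (by
      simp only [neg_zero, Real.exp_zero, mul_one]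
      exact ne_top_of_le_ne_top (ENNReal.mul_ne_top ENNReal.ofReal_ne_top
        (ENNReal.mul_ne_top ENNReal.ofReal_ne_top hIT)) hui')
  have hLv : LocL2 (D.out' t) v := locL2_of_lintegral (φ := fun _ => 0) (D.isOpen_out t)
    continuousOn_const hvm.restrict (by
      simp only [neg_zero, Real.exp_zero, mul_one]
      refine ne_top_of_le_ne_top hi ?_
      calc ∫⁻ z in D.out' t, ENNReal.ofReal (‖v z‖ ^ 2)
          ≤ ∫⁻ z, ENNReal.ofReal (‖v z‖ ^ 2) := setLIntegral_le_lintegral _ _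
        _ ≤ ∫⁻ z, D.Ω.indicator (fun z => ENNReal.ofReal (‖g z‖ ^ 2)) z := by
            apply lintegral_mono
            intro z
            by_cases hz : z ∈ D.Ω
            · simp only [indicator_of_mem hz]
              apply ENNReal.ofReal_le_ofReal
              rw [hv]
              simp only [norm_mul, Complex.norm_real, Real.norm_eq_abs]
              have h1 := D.G2chi_mem t z
              rw [abs_of_nonneg h1.1]
              have h2 : D.G2chi t z * ‖g z‖ ≤ 1 * ‖g z‖ := by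
                gcongr; exact h1.2
              rw [one_mul] at h2
              exact pow_le_pow_left₀ (mul_nonneg h1.1 (norm_nonneg _)) h2 2
            · simp only [indicator_of_notMem hz, hv]
              rw [D.G2chi_zero ht (by have := hout z hz; linarith)]
              simp
        _ = _ := lintegral_indicator hΩm _)
  have hLβ : ∀ j, LocL2 (D.out' t) fun z => β z j := by
    intro j
    have h1 : (fun z => β z j) = fun z => D.G2b t z (ee j) * (D.Ω.indicator g z) := by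
      funext z
      by_cases hz : z ∈ D.Ω
      · rw [indicator_of_mem hz]
      · rw [indicator_of_notMem hz, hβ]
        simp only
        rw [D.G2b_zero ht (by have := hout z hz; linarith)]
        simp
    rw [h1]
    refine LocL2.mul_continuousOn ?_ (D.G2b_continuous t (ee j)).continuousOn (D.isOpen_out t)
    refine locL2_of_lintegral (φ := fun _ => 0) (D.isOpen_out t) continuousOn_const ?_ ?_
    · apply AEStronglyMeasurable.restrict
      rw [aestronglyMeasurable_indicator_iff hΩm]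
      exact hg.continuousOn.aestronglyMeasurable hΩm
    · simp only [neg_zero, Real.exp_zero, mul_one]
      refine ne_top_of_le_ne_top hi ?_
      calc ∫⁻ z in D.out' t, ENNReal.ofReal (‖D.Ω.indicator g z‖ ^ 2)
          ≤ ∫⁻ z, ENNReal.ofReal (‖D.Ω.indicator g z‖ ^ 2) := setLIntegral_le_lintegral _ _
        _ = ∫⁻ z, D.Ω.indicator (fun z => ENNReal.ofReal (‖g z‖ ^ 2)) z := by
            apply lintegral_congr
            intro z
            by_cases hz : z ∈ D.Ω
            · simp only [indicator_of_mem hz]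
            · simp only [indicator_of_notMem hz]
              simp
        _ = _ := lintegral_indicator hΩm _
  have hw0 : WeakDbar (D.out' t) (fun z => v z - u z) fun _ _ => 0 := by
    have := hweak.sub (D.isOpen_out t) hLv hLu hLβ hLβ huw
    simpa using this
  have hLvu : LocL2 (D.out' t) fun z => v z - u z := by
    have h2 : LocL2 (D.out' t) fun z => (-1 : ℂ) * u z :=
      hLu.mul_continuousOn (a := fun _ => (-1 : ℂ)) continuousOn_const (D.isOpen_out t)
    have := hLv.add h2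
    refine (funext fun z => ?_ : (fun z => v z + (-1 : ℂ) * u z) = fun z => v z - u z) ▸ this
    ring
  obtain ⟨g', hg', hae⟩ := weyl (D.isOpen_out t) hLvu hw0
  have hcomp : IsCompact {z | D.ρ z ≤ 0} := D.isCompact_le one_pos
  obtain ⟨M, hM⟩ := hcomp.exists_bound_of_continuousOn (f := g')
    (hg'.continuousOn.mono fun z hz => lt_of_le_of_lt (show D.ρ z ≤ 0 from hz) ht)
  refine ⟨g', M, hg'.mono hΩU, fun w hw => hM w (le_of_lt (show D.ρ w < 0 from hw)), ?_⟩
  have hae' : ∀ᵐ z ∂(volume.restrict D.Ω), v z - u z = g' z :=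
    ae_restrict_of_ae_restrict_of_subset hΩU hae
  calc ∫⁻ z in D.Ω, ENNReal.ofReal (‖g z - g' z‖ ^ 2)
      ≤ ∫⁻ z in D.Ω, (2 * T.indicator (fun z => ENNReal.ofReal (‖g z‖ ^ 2)) z
          + 2 * ENNReal.ofReal (‖u z‖ ^ 2)) := by
        apply lintegral_mono_ae
        filter_upwards [hae', ae_restrict_mem hΩm] with z hz hzΩ
        have h1 : g z - g' z = (1 - ((D.G2chi t z : ℝ) : ℂ)) * g z + u z := by
          rw [← hz, hv]; ring
        have h2 : ‖g z - g' z‖ ^ 2
            ≤ 2 * ‖(1 - ((D.G2chi t z : ℝ) : ℂ)) * g z‖ ^ 2 + 2 * ‖u z‖ ^ 2 := by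
          rw [h1]
          have h3 := norm_add_le ((1 - ((D.G2chi t z : ℝ) : ℂ)) * g z) (u z)
          have h4 := norm_nonneg ((1 - ((D.G2chi t z : ℝ) : ℂ)) * g z + u z)
          nlinarith [sq_nonneg (‖(1 - ((D.G2chi t z : ℝ) : ℂ)) * g z‖ - ‖u z‖)]
        have h5 : ENNReal.ofReal (2 * ‖(1 - ((D.G2chi t z : ℝ) : ℂ)) * g z‖ ^ 2)
            ≤ 2 * T.indicator (fun z => ENNReal.ofReal (‖g z‖ ^ 2)) z := by
          by_cases hzT : z ∈ T
          · rw [indicator_of_mem hzT, ENNReal.ofReal_mul (by norm_num),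
              ENNReal.ofReal_ofNat]
            gcongr
            rw [norm_mul]
            have h6 : ‖(1 - ((D.G2chi t z : ℝ) : ℂ))‖ ≤ 1 := by
              have h7 := D.G2chi_mem t z
              rw [← Complex.ofReal_one, ← Complex.ofReal_sub, Complex.norm_real, Real.norm_eq_abs,
                abs_of_nonneg (by linarith)]
              linarith
            calc ‖(1 - ((D.G2chi t z : ℝ) : ℂ))‖ * ‖g z‖ ≤ 1 * ‖g z‖ := by gcongr
              _ = ‖g z‖ := one_mul _
          · have h6 : D.ρ z ≤ -(2 * t) := by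
              by_contra hcon
              exact hzT ⟨hzΩ, (not_le.1 hcon).le⟩
            rw [D.G2chi_one ht h6]
            simp
        calc ENNReal.ofReal (‖g z - g' z‖ ^ 2)
            ≤ ENNReal.ofReal (2 * ‖(1 - ((D.G2chi t z : ℝ) : ℂ)) * g z‖ ^ 2 + 2 * ‖u z‖ ^ 2) :=
              ENNReal.ofReal_le_ofReal h2
          _ = ENNReal.ofReal (2 * ‖(1 - ((D.G2chi t z : ℝ) : ℂ)) * g z‖ ^ 2)
              + 2 * ENNReal.ofReal (‖u z‖ ^ 2) := by
              rw [ENNReal.ofReal_add (by positivity) (by positivity),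
                ENNReal.ofReal_mul (p := 2) (q := ‖u z‖ ^ 2) (by norm_num), ENNReal.ofReal_ofNat]
          _ ≤ _ := by gcongr
    _ = 2 * (∫⁻ z in D.Ω, T.indicator (fun z => ENNReal.ofReal (‖g z‖ ^ 2)) z)
          + 2 * ∫⁻ z in D.Ω, ENNReal.ofReal (‖u z‖ ^ 2) := by
        rw [lintegral_add_right']
        · rw [lintegral_const_mul' _ _ (by norm_num), lintegral_const_mul' _ _ (by norm_num)]
        · apply AEMeasurable.const_mul
          have := (hum.mono_measure (Measure.restrict_mono hΩU le_rfl)).norm.aemeasurable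
          exact (this.pow_const 2).ennreal_ofReal
    _ ≤ 2 * (∫⁻ z in T, ENNReal.ofReal (‖g z‖ ^ 2))
          + 2 * (ENNReal.ofReal C * (ENNReal.ofReal ((3 * Cθ) ^ 2)
            * ∫⁻ z in T, ENNReal.ofReal (‖g z‖ ^ 2))) := by
        refine add_le_add (mul_le_mul' le_rfl ?_) (mul_le_mul' le_rfl ?_)
        · calc ∫⁻ z in D.Ω, T.indicator (fun z => ENNReal.ofReal (‖g z‖ ^ 2)) z
              ≤ ∫⁻ z, T.indicator (fun z => ENNReal.ofReal (‖g z‖ ^ 2)) z :=
                setLIntegral_le_lintegral _ _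
            _ = _ := lintegral_indicator hTm _
        · exact (lintegral_mono_set hΩU).trans hui'
    _ = _ := by ring

/-- Bounded holomorphic functions are dense in `L²_a(Ω)`. For `G ∈ L²_a` and small `t > 0` let
`χ_t = θ(-ρ/t)`, `θ` smooth, `0` on `(-∞,1]`, `1` on `[2,∞)`; `β = G ∂̄χ_t` (zero off `Ω`) is
weakly closed on `out' t` (`= ∂̄(χ_t G)`, `χ_t G` being `C¹` on `out' t`),
`|β(X)| ≤ C |G| 1_{δ ≤ 2t} |∂ρ(X)|/(t - ρ)`; `dbar_general`: `∂̄u = β` on `out' t`,
`∫_{out' t}|u|² ≤ C ∫_{δ≤2t}|G|² → 0`. `g = χ_t G - u` is (a.e. equal to a) holomorphic function on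
`out' t`, which contains the compact closure of `Ω`, so it is bounded on `Ω`, and
`‖G - g‖ ≤ ‖(1-χ_t)G‖ + ‖u‖ → 0`. -/
theorem exists_bounded_approx (D : Dom n) (hD : D.DbarProp) (G : bergman D.Ω) {ε : ℝ} (hε : 0 < ε) :
    ∃ (g : bergman D.Ω) (M : ℝ), (∀ w ∈ D.Ω, ‖holo g w‖ ≤ M) ∧ ‖G - g‖ < ε := by
  have h0 : volume D.Ω ≠ 0 := D.volume_Ω_pos.ne'
  have h1 : volume D.Ω ≠ ⊤ := D.volume_Ω_lt_top.ne
  have hΩm : MeasurableSet D.Ω := D.isOpen_Ω.measurableSet
  obtain ⟨C, hC, hsolve⟩ := hD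
  obtain ⟨Cθ, hCθ, hθ⟩ := G2_deriv_bound
  have hi : ∫⁻ z in D.Ω, ENNReal.ofReal (‖holo G z‖ ^ 2) ≠ ⊤ := by
    intro hcon
    have h2 := norm_sq_holo h0 h1 G
    rw [hcon, ENNReal.mul_top (ENNReal.inv_ne_zero.2 h1)] at h2
    exact ENNReal.ofReal_ne_top h2
  set K : ℝ≥0∞ := (volume D.Ω)⁻¹ * (2 + 2 * (ENNReal.ofReal C * ENNReal.ofReal ((3 * Cθ) ^ 2)))
    with hK
  have hKt : K ≠ ⊤ := ENNReal.mul_ne_top (ENNReal.inv_ne_top.2 h0)
    (ENNReal.add_ne_top.2 ⟨by norm_num, ENNReal.mul_ne_top (by norm_num)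
      (ENNReal.mul_ne_top ENNReal.ofReal_ne_top ENNReal.ofReal_ne_top)⟩)
  -- small integral
  have hlim : Tendsto (fun k : ℕ => K * ∫⁻ z in (D.Ω ∩ {z | -(2 * (1 / ((k : ℝ) + 1))) ≤ D.ρ z}),
      ENNReal.ofReal (‖holo G z‖ ^ 2)) atTop (𝓝 0) := by
    have hμ : Tendsto (fun k : ℕ =>
        (volume.restrict D.Ω) {z | -(2 * (1 / ((k : ℝ) + 1))) ≤ D.ρ z}) atTop (𝓝 0) := by
      have hm : ∀ k : ℕ, NullMeasurableSet {z | -(2 * (1 / ((k : ℝ) + 1))) ≤ D.ρ z}
          (volume.restrict D.Ω) := fun k =>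
        (measurableSet_le measurable_const D.smooth.continuous.measurable).nullMeasurableSet
      have hanti : Antitone fun k : ℕ => {z | -(2 * (1 / ((k : ℝ) + 1))) ≤ D.ρ z} := by
        intro k l hkl z hz
        have hz' : -(2 * (1 / ((l : ℝ) + 1))) ≤ D.ρ z := hz
        have h3 : 1 / ((l : ℝ) + 1) ≤ 1 / ((k : ℝ) + 1) := by
          apply one_div_le_one_div_of_le (by positivity)
          have : (k : ℝ) ≤ l := by exact_mod_cast hkl
          linarith
        show -(2 * (1 / ((k : ℝ) + 1))) ≤ D.ρ z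
        linarith
      have hfin : ∃ k : ℕ, (volume.restrict D.Ω) {z | -(2 * (1 / ((k : ℝ) + 1))) ≤ D.ρ z} ≠ ⊤ := by
        refine ⟨0, ne_top_of_le_ne_top h1 ?_⟩
        rw [← Measure.restrict_apply_univ D.Ω]
        exact measure_mono (subset_univ _)
      have := tendsto_measure_iInter_atTop hm hanti hfin
      have hz : (volume.restrict D.Ω) (⋂ k : ℕ, {z | -(2 * (1 / ((k : ℝ) + 1))) ≤ D.ρ z}) = 0 := by
        rw [Measure.restrict_apply' hΩm]
        have : (⋂ k : ℕ, {z | -(2 * (1 / ((k : ℝ) + 1))) ≤ D.ρ z}) ∩ D.Ω = ∅ := by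
          ext z
          simp only [mem_inter_iff, mem_iInter, mem_ofPred_eq, mem_empty_iff_false, iff_false,
            not_and]
          intro hz hzΩ
          have hzΩ' : D.ρ z < 0 := hzΩ
          obtain ⟨k, hk⟩ := exists_nat_one_div_lt (show (0 : ℝ) < -(D.ρ z) / 2 by linarith)
          have := hz k
          linarith
        rw [this, measure_empty]
      rw [hz] at this
      exact this
    have h3 := tendsto_setLIntegral_zero hi hμ
    have h4 := ENNReal.Tendsto.const_mul (a := K) h3 (Or.inr hKt)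
    rw [mul_zero] at h4
    refine h4.congr fun k => ?_
    congr 1
    rw [Measure.restrict_restrict
      (measurableSet_le measurable_const D.smooth.continuous.measurable), inter_comm]
  have hev := hlim.eventually (gt_mem_nhds (show (0 : ℝ≥0∞) < ENNReal.ofReal (ε ^ 2) by
    rw [ENNReal.ofReal_pos]; positivity))
  obtain ⟨k1, hk1⟩ := eventually_atTop.1 hev
  obtain ⟨k2, hk2⟩ := exists_nat_one_div_lt (show (0 : ℝ) < D.η / 2 by have := D.η_pos; linarith)
  set k := max k1 k2 with hk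
  set t : ℝ := 1 / ((k : ℝ) + 1) with htdef
  have ht : 0 < t := by positivity
  have ht2 : t ≤ D.η / 2 := by
    refine le_trans ?_ hk2.le
    apply one_div_le_one_div_of_le (by positivity)
    have : (k2 : ℝ) ≤ k := by exact_mod_cast le_max_right _ _
    linarith
  have ht1 : t < 1 := by have := D.η_lt; linarith
  obtain ⟨g', M, hg', hM, hint⟩ := D.G2_approx hC hCθ hθ ht (hsolve t ht.le ht2) ht1
    (holo_diff G) hi
  have hi' : ∫⁻ z in D.Ω, ENNReal.ofReal (‖g' z‖ ^ 2) ≠ ⊤ := by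
    refine ne_top_of_le_ne_top (b := ENNReal.ofReal (M ^ 2) * volume D.Ω)
      (ENNReal.mul_ne_top ENNReal.ofReal_ne_top h1) ?_
    rw [← setLIntegral_const]
    apply setLIntegral_mono measurable_const
    intro z hz
    apply ENNReal.ofReal_le_ofReal
    have := hM z hz
    gcongr
  obtain ⟨g, hg⟩ := exists_bergman D.isOpen_Ω h0 h1 hg' hi'
  refine ⟨g, M, fun w hw => by rw [hg hw]; exact hM w hw, ?_⟩
  have hsub : EqOn (holo (G - g)) (fun z => holo G z - holo g z) D.Ω := by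
    have h3 := holo_add D.isOpen_Ω h0 h1 (G - g) g
    rw [sub_add_cancel] at h3
    intro z hz
    have := h3 hz
    simp only at this ⊢
    rw [this]; ring
  have h2 := norm_sq_holo h0 h1 (G - g)
  have h3 : ∫⁻ z in D.Ω, ENNReal.ofReal (‖holo (G - g) z‖ ^ 2)
      = ∫⁻ z in D.Ω, ENNReal.ofReal (‖holo G z - g' z‖ ^ 2) := by
    apply setLIntegral_congr_fun hΩm
    intro z hz
    simp only
    rw [hsub hz]
    simp only
    rw [hg hz]
  have h4 : ENNReal.ofReal (‖G - g‖ ^ 2) < ENNReal.ofReal (ε ^ 2) := by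
    rw [h2, h3]
    refine lt_of_le_of_lt ?_ (hk1 k (le_max_left _ _))
    rw [hK, mul_assoc]
    gcongr
  have h5 : ‖G - g‖ ^ 2 < ε ^ 2 := (ENNReal.ofReal_lt_ofReal_iff (by positivity)).1 h4
  exact lt_of_pow_lt_pow_left₀ 2 hε.le h5

/-- Hence the natural domain of `H_f` is dense, for `f ∈ L²`. -/
theorem dense_domain (D : Dom n) (hD : D.DbarProp) {f : Cn n → ℂ} (hf : MemLp f 2 (vol D.Ω)) :
    Dense {g : bergman D.Ω | ∃ h : Lp ℂ 2 (vol D.Ω),
      h =ᵐ[vol D.Ω] fun z => f z * (g : Lp ℂ 2 (vol D.Ω)) z} := by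
  have h0 : volume D.Ω ≠ 0 := D.volume_Ω_pos.ne'
  have h1 : volume D.Ω ≠ ⊤ := D.volume_Ω_lt_top.ne
  have hΩm : MeasurableSet D.Ω := D.isOpen_Ω.measurableSet
  rw [Metric.dense_iff]
  intro G ε hε
  obtain ⟨g, M, hM, hlt⟩ := D.exists_bounded_approx hD G hε
  refine ⟨g, ?_, ?_⟩
  · rw [Metric.mem_ball, dist_comm, dist_eq_norm]
    exact hlt
  · have hgae : ∀ᵐ z ∂(vol D.Ω), ‖(g : Lp ℂ 2 (vol D.Ω)) z‖ ≤ M := by
      have h2 : ∀ᵐ z ∂(vol D.Ω), z ∈ D.Ω :=
        (ae_vol_iff h0 h1).2 (ae_restrict_mem hΩm)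
      filter_upwards [holo_ae g, h2] with z hz hzΩ
      rw [hz]
      exact hM z hzΩ
    have hmem : MemLp (fun z => f z * (g : Lp ℂ 2 (vol D.Ω)) z) 2 (vol D.Ω) := by
      refine MemLp.of_le_mul (c := M) hf
        (hf.1.mul (Lp.memLp (g : Lp ℂ 2 (vol D.Ω))).1) ?_
      filter_upwards [hgae] with z hz
      rw [norm_mul, mul_comm]
      gcongr
    exact ⟨hmem.toLp _, hmem.coeFn_toLp⟩

end Dom

end HankelSPC
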