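import Pool.Agent.Lib.MP_e1cf54_an.C0c2
import Pool.Agent.Lib.MP_e1cf54_an.B11b
import Pool.Agent.Lib.MP_e1cf54_an.D3
import Pool.Agent.Lib.MP_e1cf54_an.E4b
import Pool.Agent.Lib.MP_e1cf54_an.E4c
import Pool.Agent.Lib.MP_e1cf54_an.F2c
import Pool.Agent.Lib.MP_e1cf54_an.F6b
import Pool.Agent.Lib.MP_e1cf54_an.F10
import Pool.Agent.Lib.MP_e1cf54_an.G2

/-! Row G1: the main theorem. -/

open MeasureTheory Set Filter
open scoped ENNReal NNReal Topology ContDiff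

namespace HankelSPC

variable {n : ℕ}

theorem main_dom (D : Dom n) (hn : 1 ≤ n) {f : Cn n → ℂ} (hf : MemLp f 2 (vol D.Ω))
    {r p : ℝ} (hr : 0 < r) (hp : 0 < p) :
    (HankelInSchatten D.Ω f p ∧ HankelInSchatten D.Ω (fun z => (starRingEnd ℂ) (f z)) p) ↔
      MemLp (MO D.Ω f r) (ENNReal.ofReal p) (lam D.Ω) := by
  have h0 : volume D.Ω ≠ 0 := D.volume_Ω_pos.ne'
  have h1 : volume D.Ω ≠ ⊤ := D.volume_Ω_lt_top.ne
  have hf' : MemLp f 2 (volume.restrict D.Ω) := (memLp_vol_iff h0 h1).1 hf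
  have hfc : MemLp (fun z => (starRingEnd ℂ) (f z)) 2 (vol D.Ω) := hf.star
  have hD : D.DbarProp := D.dbar_general
  have hA : D.AtomProp := atoms D hD
  have hK : D.KernelProp := D.kernel_bounds hA
  have hM : D.MetricProp := D.metric_bounds hA hK
  obtain ⟨s₀, hs₀⟩ := D.exists_good
  constructor
  · rintro ⟨⟨_, hH⟩, _, hH'⟩
    have hs : 0 < s₀ / 32 := by have := hs₀.pos; positivity
    have hs' : 32 * (s₀ / 32) ≤ s₀ := by linarith
    obtain ⟨A, hA'⟩ := D.exists_lattice hs₀ hs (by have := hs₀.pos; linarith)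
    exact D.memLp_MO hM hK hs₀ hs hs' hr hA' hf' hp
      (D.summable_osc_of_hankel hA hs₀ hs hs' hA' hf' hp hH hH')
  · intro h
    refine ⟨⟨D.dense_domain hD hf, D.hankelMem_of_MO hD hM hK hn hf hr hp h⟩,
      D.dense_domain hD hfc, ?_⟩
    refine D.hankelMem_of_MO hD hM hK hn hfc hr hp ?_
    have : MO D.Ω (fun z => (starRingEnd ℂ) (f z)) r = MO D.Ω f r := by
      funext z; exact MO_conj _ _ _ _
    rw [this]; exact h

theorem main {Ω : Set (Cn n)} (hn : 1 ≤ n) (hΩ : IsSPC Ω) {f : Cn n → ℂ}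
    (hf : MemLp f 2 (vol Ω)) {r : ℝ} (hr : 0 < r) {p : ℝ} (hp : 0 < p) :
    (HankelInSchatten Ω f p ∧ HankelInSchatten Ω (fun z => (starRingEnd ℂ) (f z)) p) ↔
      MemLp (MO Ω f r) (ENNReal.ofReal p) (lam Ω) := by
  obtain ⟨D, rfl⟩ := exists_dom hΩ
  exact main_dom D hn hf hr hp

end HankelSPC
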