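import Pool.Agent.Lib.MP_e1cf54_an.Defs

/-! Row L1a: calculus of ell -/

open MeasureTheory Set
open scoped ENNReal NNReal Topology ContDiff

namespace HankelSPC

variable {n : ℕ}

lemma ell_add (ρ : Cn n → ℝ) (z X Y : Cn n) : ell ρ z (X + Y) = ell ρ z X + ell ρ z Y := by
  simp only [ell, smul_add, map_add, Complex.ofReal_add]; ring

lemma ell_smul (ρ : Cn n → ℝ) (z : Cn n) (c : ℂ) (X : Cn n) : ell ρ z (c • X) = c * ell ρ z X := by
  have hc : (c • X : Cn n) = c.re • X + c.im • (Complex.I • X) := by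
    ext i
    simp only [Pi.smul_apply, Pi.add_apply, smul_eq_mul, Complex.real_smul]
    conv_lhs => rw [← Complex.re_add_im c]
    ring
  have hc' : (Complex.I • (c • X) : Cn n) = c.re • (Complex.I • X) - c.im • X := by
    ext i
    simp only [Pi.smul_apply, Pi.sub_apply, smul_eq_mul, Complex.real_smul]
    conv_lhs => rw [← Complex.re_add_im c]
    ring_nf
    simp only [Complex.I_sq]
    ring
  simp only [ell]
  rw [hc', hc]
  simp only [map_add, map_sub, map_smul, smul_eq_mul, Complex.ofReal_add,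
    Complex.ofReal_sub, Complex.ofReal_mul]
  conv_rhs => rw [← Complex.re_add_im c]
  ring_nf
  simp only [Complex.I_sq]
  ring

lemma ell_sum (ρ : Cn n → ℝ) (z X : Cn n) : ell ρ z X = ∑ j, X j * ell ρ z (ee j) := by
  let L : Cn n →ₗ[ℂ] ℂ := ⟨⟨ell ρ z, ell_add ρ z⟩, fun c X => ell_smul ρ z c X⟩
  have h1 : L X = ∑ j, X j * L (ee j) := by
    conv_lhs => rw [← Finset.univ_sum_single X, map_sum]
    refine Finset.sum_congr rfl fun j _ => ?_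
    have h2 : (Pi.single j (X j) : Cn n) = X j • (ee j : Cn n) := by
      unfold ee
      rw [← Pi.single_smul, smul_eq_mul, mul_one]
    rw [h2, map_smul, smul_eq_mul]
  exact h1

lemma two_re_ell (ρ : Cn n → ℝ) (z X : Cn n) : fderiv ℝ ρ z X = 2 * (ell ρ z X).re := by
  unfold ell
  simp [Complex.mul_re, Complex.mul_im]

lemma norm_ell_le (ρ : Cn n → ℝ) (z X : Cn n) : ‖ell ρ z X‖ ≤ ‖fderiv ℝ ρ z‖ * ‖X‖ := by
  unfold ell
  have h1 : ‖fderiv ℝ ρ z X‖ ≤ ‖fderiv ℝ ρ z‖ * ‖X‖ := (fderiv ℝ ρ z).le_opNorm X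
  have h2 : ‖fderiv ℝ ρ z (Complex.I • X)‖ ≤ ‖fderiv ℝ ρ z‖ * ‖X‖ := by
    have := (fderiv ℝ ρ z).le_opNorm (Complex.I • X)
    rwa [norm_smul, Complex.norm_I, one_mul] at this
  calc ‖(1 / 2 : ℂ) * ((fderiv ℝ ρ z X : ℝ) - Complex.I * (fderiv ℝ ρ z (Complex.I • X) : ℝ))‖
      = 1 / 2 * ‖((fderiv ℝ ρ z X : ℝ) : ℂ) - Complex.I * (fderiv ℝ ρ z (Complex.I • X) : ℝ)‖ := by
        rw [norm_mul]; norm_num
    _ ≤ 1 / 2 * (‖fderiv ℝ ρ z X‖ + ‖fderiv ℝ ρ z (Complex.I • X)‖) := by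
        gcongr
        refine (norm_sub_le _ _).trans ?_
        rw [norm_mul, Complex.norm_I, one_mul, Complex.norm_real, Complex.norm_real]
    _ ≤ ‖fderiv ℝ ρ z‖ * ‖X‖ := by linarith

lemma norm_ell_sub_le (ρ : Cn n → ℝ) (z w X : Cn n) :
    ‖ell ρ z X - ell ρ w X‖ ≤ ‖fderiv ℝ ρ z - fderiv ℝ ρ w‖ * ‖X‖ := by
  unfold ell
  have h1 : ‖fderiv ℝ ρ z X - fderiv ℝ ρ w X‖ ≤ ‖fderiv ℝ ρ z - fderiv ℝ ρ w‖ * ‖X‖ :=
    (fderiv ℝ ρ z - fderiv ℝ ρ w).le_opNorm X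
  have h2 : ‖fderiv ℝ ρ z (Complex.I • X) - fderiv ℝ ρ w (Complex.I • X)‖
      ≤ ‖fderiv ℝ ρ z - fderiv ℝ ρ w‖ * ‖X‖ := by
    have := (fderiv ℝ ρ z - fderiv ℝ ρ w).le_opNorm (Complex.I • X)
    rwa [norm_smul, Complex.norm_I, one_mul] at this
  have h3 : (1 / 2 : ℂ) * ((fderiv ℝ ρ z X : ℝ) - Complex.I * (fderiv ℝ ρ z (Complex.I • X) : ℝ))
      - (1 / 2 : ℂ) * ((fderiv ℝ ρ w X : ℝ) - Complex.I * (fderiv ℝ ρ w (Complex.I • X) : ℝ))
      = (1 / 2 : ℂ) * (((fderiv ℝ ρ z X - fderiv ℝ ρ w X : ℝ) : ℂ)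
        - Complex.I * ((fderiv ℝ ρ z (Complex.I • X) - fderiv ℝ ρ w (Complex.I • X) : ℝ) : ℂ)) := by
    push_cast; ring
  rw [h3]
  calc ‖(1 / 2 : ℂ) * (((fderiv ℝ ρ z X - fderiv ℝ ρ w X : ℝ) : ℂ)
        - Complex.I * ((fderiv ℝ ρ z (Complex.I • X) - fderiv ℝ ρ w (Complex.I • X) : ℝ) : ℂ))‖
      = 1 / 2 * ‖((fderiv ℝ ρ z X - fderiv ℝ ρ w X : ℝ) : ℂ)
        - Complex.I * ((fderiv ℝ ρ z (Complex.I • X) - fderiv ℝ ρ w (Complex.I • X) : ℝ) : ℂ)‖ := by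
        rw [norm_mul]; norm_num
    _ ≤ 1 / 2 * (‖fderiv ℝ ρ z X - fderiv ℝ ρ w X‖
          + ‖fderiv ℝ ρ z (Complex.I • X) - fderiv ℝ ρ w (Complex.I • X)‖) := by
        gcongr
        refine (norm_sub_le _ _).trans ?_
        rw [norm_mul, Complex.norm_I, one_mul, Complex.norm_real, Complex.norm_real]
    _ ≤ ‖fderiv ℝ ρ z - fderiv ℝ ρ w‖ * ‖X‖ := by linarith

/-- `∑_j |∂_jρ|² ≤ C` from `|∂ρ(X)|² ≤ C |X|²` (take `X_j = conj (∂_jρ)`), and Cauchy–Schwarz. -/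
lemma sum_ell_le {ρ : Cn n → ℝ} {z : Cn n} {C : ℝ} (hC : 0 ≤ C)
    (h : ∀ X, ‖ell ρ z X‖ ^ 2 ≤ C * nsq X) : ∑ j, ‖ell ρ z (ee j)‖ ^ 2 ≤ C := by
  set S := ∑ j, ‖ell ρ z (ee j)‖ ^ 2 with hS
  have hS0 : 0 ≤ S := Finset.sum_nonneg fun j _ => by positivity
  set X : Cn n := fun j => (starRingEnd ℂ) (ell ρ z (ee j)) with hX
  have h1 : ell ρ z X = (S : ℂ) := by
    rw [ell_sum, hS]
    push_cast
    refine Finset.sum_congr rfl fun j _ => ?_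
    rw [hX]
    simp only
    rw [mul_comm, Complex.mul_conj, Complex.normSq_eq_norm_sq]
    push_cast
    rfl
  have h2 : nsq X = S := by
    unfold nsq
    rw [hS]
    refine Finset.sum_congr rfl fun j _ => ?_
    rw [hX]
    simp only [RCLike.norm_conj]
  have h3 := h X
  rw [h1, h2, Complex.norm_real, Real.norm_eq_abs, sq_abs] at h3
  rcases hS0.eq_or_lt with h4 | h4
  · rw [← h4]; exact hC
  · exact le_of_mul_le_mul_right (by nlinarith) h4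

lemma ell_sq_le (ρ : Cn n → ℝ) (z X : Cn n) :
    ‖ell ρ z X‖ ^ 2 ≤ (∑ j, ‖ell ρ z (ee j)‖ ^ 2) * nsq X := by
  rw [ell_sum]
  have h1 : ‖∑ j, X j * ell ρ z (ee j)‖ ≤ ∑ j, ‖ell ρ z (ee j)‖ * ‖X j‖ := by
    refine (norm_sum_le _ _).trans (le_of_eq ?_)
    refine Finset.sum_congr rfl fun j _ => ?_
    rw [norm_mul, mul_comm]
  have h2 : (∑ j, ‖ell ρ z (ee j)‖ * ‖X j‖) ^ 2
      ≤ (∑ j, ‖ell ρ z (ee j)‖ ^ 2) * ∑ j, ‖X j‖ ^ 2 :=
    Finset.sum_mul_sq_le_sq_mul_sq _ _ _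
  calc ‖∑ j, X j * ell ρ z (ee j)‖ ^ 2 ≤ (∑ j, ‖ell ρ z (ee j)‖ * ‖X j‖) ^ 2 := by
        gcongr
    _ ≤ _ := h2

lemma ell_comp {ρ : Cn n → ℝ} {z : Cn n} {h : ℝ → ℝ} (hρ : DifferentiableAt ℝ ρ z)
    (hh : DifferentiableAt ℝ h (ρ z)) (X : Cn n) :
    ell (fun w => h (ρ w)) z X = (deriv h (ρ z) : ℝ) * ell ρ z X := by
  have h1 : HasFDerivAt (fun w => h (ρ w)) (deriv h (ρ z) • fderiv ℝ ρ z) z :=
    hh.hasDerivAt.comp_hasFDerivAt z hρ.hasFDerivAt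
  unfold ell
  rw [h1.fderiv]
  simp only [_root_.smul_apply, smul_eq_mul, Complex.ofReal_mul]
  ring

lemma ell_fun_add {ρ σ : Cn n → ℝ} {z : Cn n} (hρ : DifferentiableAt ℝ ρ z)
    (hσ : DifferentiableAt ℝ σ z) (X : Cn n) :
    ell (fun w => ρ w + σ w) z X = ell ρ z X + ell σ z X := by
  have h1 : HasFDerivAt (fun w => ρ w + σ w) (fderiv ℝ ρ z + fderiv ℝ σ z) z :=
    hρ.hasFDerivAt.add hσ.hasFDerivAt
  unfold ell
  rw [h1.fderiv]
  simp only [_root_.add_apply, Complex.ofReal_add]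
  ring

lemma ell_const_mul {ρ : Cn n → ℝ} {z : Cn n} (hρ : DifferentiableAt ℝ ρ z) (c : ℝ) (X : Cn n) :
    ell (fun w => c * ρ w) z X = c * ell ρ z X := by
  have h1 : HasFDerivAt (fun w => c * ρ w) (c • fderiv ℝ ρ z) z := hρ.hasFDerivAt.const_mul c
  unfold ell
  rw [h1.fderiv]
  simp only [_root_.smul_apply, smul_eq_mul, Complex.ofReal_mul]
  ring

lemma ell_mul {ρ σ : Cn n → ℝ} {z : Cn n} (hρ : DifferentiableAt ℝ ρ z)
    (hσ : DifferentiableAt ℝ σ z) (X : Cn n) :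
    ell (fun w => ρ w * σ w) z X = ρ z * ell σ z X + σ z * ell ρ z X := by
  have h1 : HasFDerivAt (fun w => ρ w * σ w) (ρ z • fderiv ℝ σ z + σ z • fderiv ℝ ρ z) z :=
    hρ.hasFDerivAt.mul hσ.hasFDerivAt
  unfold ell
  rw [h1.fderiv]
  simp only [_root_.add_apply, _root_.smul_apply, smul_eq_mul, Complex.ofReal_add,
    Complex.ofReal_mul]
  ring

lemma L1a_nsq_hasFDerivAt (z : Cn n) : HasFDerivAt (nsq (n := n))
    (∑ j, (2 : ℝ) • (innerSL ℝ (z j)).comp (ContinuousLinearMap.proj (R := ℝ) (φ := fun _ : Fin n => ℂ) j)) z := by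
  unfold nsq
  refine HasFDerivAt.fun_sum fun j _ => ?_
  have h1 : HasFDerivAt (fun w : Cn n => w j)
      (ContinuousLinearMap.proj (R := ℝ) (φ := fun _ : Fin n => ℂ) j) z :=
    (ContinuousLinearMap.proj (R := ℝ) (φ := fun _ : Fin n => ℂ) j).hasFDerivAt
  refine h1.norm_sq.congr_fderiv ?_
  ext X
  simp [two_mul]
  ring

lemma ell_nsq (z X : Cn n) : ell nsq z X = ∑ j, (starRingEnd ℂ) (z j) * X j := by
  unfold ell
  rw [(L1a_nsq_hasFDerivAt z).fderiv]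
  simp only [_root_.sum_apply, _root_.smul_apply,
    ContinuousLinearMap.comp_apply, ContinuousLinearMap.proj_apply, Pi.smul_apply, smul_eq_mul,
    innerSL_apply_apply]
  push_cast
  rw [Finset.mul_sum, ← Finset.sum_sub_distrib, Finset.mul_sum]
  refine Finset.sum_congr rfl fun j _ => ?_
  have h1 : (inner ℝ (z j) (X j) : ℝ) = ((starRingEnd ℂ) (z j) * X j).re := by
    rw [Complex.inner, mul_comm]
  have h2 : (inner ℝ (z j) (Complex.I * X j) : ℝ) = - ((starRingEnd ℂ) (z j) * X j).im := by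
    rw [Complex.inner]
    have : Complex.I * X j * (starRingEnd ℂ) (z j) = Complex.I * ((starRingEnd ℂ) (z j) * X j) := by
      ring
    rw [this, Complex.I_mul_re]
  rw [h1, h2]
  conv_rhs => rw [← Complex.re_add_im ((starRingEnd ℂ) (z j) * X j)]
  push_cast
  ring

lemma norm_sq_le_nsq (X : Cn n) : ‖X‖ ^ 2 ≤ nsq X := by
  have h0 : 0 ≤ nsq X := Finset.sum_nonneg fun j _ => by positivity
  have h1 : ‖X‖ ≤ Real.sqrt (nsq X) := by
    rw [pi_norm_le_iff_of_nonneg (Real.sqrt_nonneg _)]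
    intro j
    apply Real.le_sqrt_of_sq_le
    exact Finset.single_le_sum (f := fun j => ‖X j‖ ^ 2) (fun i _ => by positivity)
      (Finset.mem_univ j)
  calc ‖X‖ ^ 2 ≤ Real.sqrt (nsq X) ^ 2 := by gcongr
    _ = nsq X := Real.sq_sqrt h0

lemma nsq_le_norm_sq (X : Cn n) : nsq X ≤ n * ‖X‖ ^ 2 := by
  unfold nsq
  calc ∑ j, ‖X j‖ ^ 2 ≤ ∑ _j : Fin n, ‖X‖ ^ 2 := by
        refine Finset.sum_le_sum fun j _ => ?_
        have := norm_le_pi_norm X j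
        gcongr
    _ = n * ‖X‖ ^ 2 := by simp

lemma contDiff_nsq : ContDiff ℝ ∞ (nsq (n := n)) := by
  unfold nsq
  refine ContDiff.sum fun j _ => ?_
  have h1 : ContDiff ℝ ∞ fun w : Cn n => w j :=
    (ContinuousLinearMap.proj (R := ℝ) (φ := fun _ : Fin n => ℂ) j).contDiff
  exact h1.norm_sq ℝ

end HankelSPC
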