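import Pool.Agent.Lib.MP_e1cf54_an.Stmt

/-! The Hankel operator in a form whose definitions are all short terms. -/

open MeasureTheory Set
open scoped ENNReal NNReal Topology

namespace HankelSPC

/-- The Hilbert space `L²(Ω, dv)`. -/
def L2 {n : ℕ} (Ω : Set (Cn n)) : Type := Lp ℂ 2 (vol Ω)

/-- The norm of `L²(Ω, dv)`. -/
@[reducible] noncomputable def L2.group {n : ℕ} (Ω : Set (Cn n)) : NormedAddCommGroup (L2 Ω) :=
  (Lp.instNormedAddCommGroup : NormedAddCommGroup (Lp ℂ 2 (vol Ω)))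

attribute [instance] L2.group

/-- The inner product of `L²(Ω, dv)`. -/
@[reducible] noncomputable def L2.inner {n : ℕ} (Ω : Set (Cn n)) : InnerProductSpace ℂ (L2 Ω) :=
  (MeasureTheory.L2.innerProductSpace : InnerProductSpace ℂ (Lp ℂ 2 (vol Ω)))

attribute [instance] L2.inner

instance L2.complete {n : ℕ} (Ω : Set (Cn n)) : CompleteSpace (L2 Ω) :=
  inferInstanceAs (CompleteSpace (Lp ℂ 2 (vol Ω)))

/-- An element of `L²(Ω, dv)` as a function (defined almost everywhere). -/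
noncomputable def L2.fn {n : ℕ} {Ω : Set (Cn n)} (F : L2 Ω) : Cn n → ℂ :=
  ⇑(show Lp ℂ 2 (vol Ω) from F)

/-- `F ∈ L²(Ω, dv)` is holomorphic on `Ω` (has a representative which is). -/
def L2.Hol {n : ℕ} {Ω : Set (Cn n)} (F : L2 Ω) : Prop :=
  ∃ g : Cn n → ℂ, DifferentiableOn ℂ g Ω ∧ F.fn =ᵐ[vol Ω] g

theorem L2.hol_zero {n : ℕ} {Ω : Set (Cn n)} : (0 : L2 Ω).Hol :=
  (bergman Ω).zero_mem

theorem L2.hol_add {n : ℕ} {Ω : Set (Cn n)} {F G : L2 Ω} (hF : F.Hol) (hG : G.Hol) :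
    (F + G).Hol :=
  (bergman Ω).add_mem hF hG

theorem L2.hol_smul {n : ℕ} {Ω : Set (Cn n)} (c : ℂ) {F : L2 Ω} (hF : F.Hol) :
    (c • F).Hol :=
  (bergman Ω).smul_mem c hF

/-- The Bergman space `L²_a(Ω)`, as a subspace of `L²(Ω, dv)`. -/
noncomputable def A2 {n : ℕ} (Ω : Set (Cn n)) : Submodule ℂ (L2 Ω) where
  carrier := {F | F.Hol}
  zero_mem' := L2.hol_zero
  add_mem' := L2.hol_add
  smul_mem' := L2.hol_smul

/-- The operator `I - P`: the orthogonal projection of `L²(Ω, dv)` onto the orthogonal complement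
of `L²_a(Ω)`. -/
noncomputable def IP {n : ℕ} (Ω : Set (Cn n)) (F : L2 Ω) : L2 Ω :=
  (A2 Ω)ᗮ.starProjection F

/-- The Bergman space `L²_a(Ω)` as a Hilbert space. -/
def L2a {n : ℕ} (Ω : Set (Cn n)) : Type := A2 Ω

/-- The norm of `L²_a(Ω)`. -/
@[reducible] noncomputable def L2a.group {n : ℕ} (Ω : Set (Cn n)) : NormedAddCommGroup (L2a Ω) :=
  (A2 Ω).normedAddCommGroup

attribute [instance] L2a.group

/-- The inner product of `L²_a(Ω)`. -/
@[reducible] noncomputable def L2a.inner {n : ℕ} (Ω : Set (Cn n)) : InnerProductSpace ℂ (L2a Ω) :=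
  Submodule.innerProductSpace (A2 Ω)

attribute [instance] L2a.inner

/-- The inclusion `L²_a(Ω) → L²(Ω, dv)`. -/
def L2a.val {n : ℕ} {Ω : Set (Cn n)} (g : L2a Ω) : L2 Ω := Subtype.val g

/-- `h = f g` in `L²(Ω, dv)`. -/
def IsMul {n : ℕ} {Ω : Set (Cn n)} (f : Cn n → ℂ) (g : L2a Ω) (h : L2 Ω) : Prop :=
  h.fn =ᵐ[vol Ω] fun z => f z * g.val.fn z

/-- The domain of the Hankel operator `H_f`: all `g ∈ L²_a(Ω)` such that `f g ∈ L²(Ω, dv)`. -/
def domH {n : ℕ} (Ω : Set (Cn n)) (f : Cn n → ℂ) : Set (L2a Ω) :=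
  {g | ∃ h : L2 Ω, IsMul f g h}

/-- The Hankel operator `H_f g = (I - P)(f g)`, with domain all `g ∈ L²_a(Ω)` such that
`f g ∈ L²(Ω, dv)`, is densely defined and extends to a bounded operator
`T : L²_a(Ω) → L²(Ω, dv)` of class `S_p` (by density there is only one bounded extension). -/
def HankelIn {n : ℕ} (Ω : Set (Cn n)) (f : Cn n → ℂ) (p : ℝ) : Prop :=
  Dense (domH Ω f) ∧
    ∃ T : L2a Ω →L[ℂ] L2 Ω, IsSchatten p T ∧
      ∀ (g : L2a Ω) (h : L2 Ω), IsMul f g h → T g = IP Ω h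

theorem hankelIn_iff {n : ℕ} (Ω : Set (Cn n)) (f : Cn n → ℂ) (p : ℝ) :
    HankelIn Ω f p ↔ HankelInSchatten Ω f p := Iff.rfl

end HankelSPC
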